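import Pool.Agent.Lib.MP_8cb858_nt.PF.Top

/-!
# Specs, block DN: the size of the family in boxes over a number field (`SpecDEN`)

Every Spec is a closed proposition with a complete proof in its doc string. `n = [F:ℚ]`,
`N I = Ideal.absNorm I`, `nv v = N v`. Helper lemmas on cells, boxes and `vol`: `SEL/CNU.lean`
(namespace `SEL.CNUM`).
-/

namespace Pool.Agent.Lib.MP_8cb858_nt.PF

open NumberField IsDedekindDomain Pool.Agent.Lib.MP_8cb858_nt.SEL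
open scoped Classical

/-! ## Counting integers -/

/-- **DNA.** Upper bound for the number of integers in a class modulo an ideal `I` in a translated box
of any shape.
Proof. Let `N = N I ≥ 1`, `T = max 1 (vol s / N)`, `μ = T^(1/n) ≥ 1`. If the set is empty there is nothing
to prove. Fix `y` in it: `x ↦ x - y` maps it injectively to `{z ∈ I, |z|_v ≤ 2 s_v}` (`z = x - y =
(x - x0) - (y - x0)`; triangle inequality), which is finite (CNUM.box_finite). Let `w_v = s_v/(4 μ)` and use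
the cells `CNUM.cell w`: if `z ≠ z'` are in `I` and in the same cell then `|z - z'|_v < 2 w_v = s_v/(2μ)`
(CNUM.cell_close), so `|Norm(z-z')| = ∏ |z-z'|_v^mult < vol s/(2μ)^n ≤ vol s/T ≤ N` (`2^n ≥ 1`), but `(z-z')` is
contained in `I`, so `N` divides `|Norm (z-z')| ≠ 0` (`Ideal.absNorm_dvd_absNorm_of_le`,
`Ideal.absNorm_span_singleton`), a contradiction. The number of cells meeting the box of shape `2s` is
`≤ (2 * 8 μ + 3)^n ≤ (19 μ)^n = 19^n T` (CNUM.cell_mem, card_pi_le, vol_const, as in `specCNU`). -/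
def SpecDNA : Prop :=
  ∀ (F : Type) [Field F] [NumberField F], ∃ C : ℝ, 1 ≤ C ∧
    ∀ (I : Ideal (𝓞 F)) (x0 : 𝓞 F) (c : InfinitePlace F → ℂ) (s : InfinitePlace F → ℝ), I ≠ ⊥ →
      (∀ v, 0 < s v) →
      {x : 𝓞 F | x - x0 ∈ I ∧ ∀ v : InfinitePlace F, ‖v.embedding (x : F) - c v‖ ≤ s v}.Finite ∧
      ({x : 𝓞 F | x - x0 ∈ I ∧ ∀ v : InfinitePlace F, ‖v.embedding (x : F) - c v‖ ≤ s v}.ncard : ℝ) ≤
        C * max 1 (vol s / Ideal.absNorm I)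

/-- **DNB.** Lower bound for the number of integers in a class modulo `I`, in a large box of any shape,
positive at the real places.
Proof. (1) There is `R ≥ 0` depending on `F` such that for all complex numbers `c_v`, real for `v` real, some
`y ∈ 𝓞 F` has `|y - c|_v ≤ R` for all `v`: `mixedEmbedding.latticeBasis`, `ZSpan.norm_fract_le`. (2) `N = N I ∈ I`
(`Ideal.absNorm_mem`). Take `y` for `c_v = (s_v/2 - x0)/N` and `t = x0 + N y`: `t - x0 ∈ I`,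
`|t - s_v/2|_v ≤ N R`. (3) The box of shape `s/8` has at least `c0 vol(s)/8^n` elements (`specCNL`, `s_v ≥ 8`),
in `N` classes modulo `I`; so one class has at least `c0 vol(s)/(8^n N)` of them, and their differences with a
fixed one are elements `z ∈ I` with `|z|_v ≤ s_v/4`. (4) `x = t + z` satisfies `|x - s_v/2|_v ≤ N R + s_v/4 ≤
3 s_v/8` if `s_v ≥ 8 N R`, so `|x|_v ≤ s_v` and `Re x > 0` at the real places. (The set is finite by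
CNUM.box_finite.) `S0 = 8 + 8 N R`, `c = c0/8^n`. -/
def SpecDNB : Prop :=
  ∀ (F : Type) [Field F] [NumberField F], ∃ c : ℝ, 0 < c ∧
    ∀ I : Ideal (𝓞 F), I ≠ ⊥ → ∃ S0 : ℝ, ∀ (x0 : 𝓞 F) (s : InfinitePlace F → ℝ), (∀ v, S0 ≤ s v) →
      c * (vol s / Ideal.absNorm I) ≤
        ({x : 𝓞 F | x - x0 ∈ I ∧ ∀ v : InfinitePlace F, v (x : F) ≤ s v ∧
          (v.IsReal → 0 < (v.embedding (x : F)).re)}.ncard : ℝ)

/-- **DNS.** Thin shells.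
Proof. If `k = 1` the set is empty. Let `k > 1`, `δ = k - 1 ∈ (0, 7]`, `C1` from DNA. (a) `u` real: `x` at `u` is in
`± (s_u, k s_u]`, so the set is contained in the union of two sets of DNA, centres `0` at `v ≠ u` and
`± s_u (1+k)/2` at `u`, shape `8 s_v` at `v ≠ u`, `δ s_u/2` at `u`. (b) `u` complex: let `m = ⌈7/δ⌉`,
`1 ≤ m ≤ 14/δ`. For `z = r e^{iθ}`, `s_u < r ≤ k s_u`, `-π < θ ≤ π`, let `j = ⌊m(θ+π)/(2π)⌋`, `0 ≤ j ≤ m`,
`θ_j = -π + 2πj/m`: `|θ - θ_j| ≤ 2π/m ≤ δ`, so `|z - s_u e^{iθ_j}| ≤ |r - s_u| + s_u |θ - θ_j| ≤ 2 δ s_u`. So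
the set is contained in the union of `m + 1 ≤ 21/δ` sets of DNA of shape `8 s_v` at `v ≠ u`, `2 δ s_u` at `u`. The
volume of the shape is (a) `≤ 8^n δ vol s`, (b) `≤ 8^n δ^2 vol s` (`8^(n-2) (2δ)^2 ≤ 8^n δ^2`). Total (with `max 1 X ≤ 1 + X`): (a) `≤ 2 C1 + 2 C1 8^n δ vol s/N`,
(b) `≤ (m+1) C1 + 21 C1 8^n δ vol s/N`. The first terms are `≤ ε vol s/N` if all `s_v` are large
(depending on `k`, `ε`, `I`; for `s_v ≥ S0 ≥ 1`, `vol s ≥ S0`). `C = 21 * 8^n C1`. -/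
def SpecDNS : Prop :=
  ∀ (F : Type) [Field F] [NumberField F], ∃ C : ℝ, 0 < C ∧
    ∀ (I : Ideal (𝓞 F)) (ε k : ℝ), I ≠ ⊥ → 0 < ε → 1 ≤ k → k ≤ 8 →
      ∃ S0 : ℝ, ∀ (x0 : 𝓞 F) (s : InfinitePlace F → ℝ) (u : InfinitePlace F), (∀ v, S0 ≤ s v) →
        ({x : 𝓞 F | x - x0 ∈ I ∧ (∀ v : InfinitePlace F, v (x : F) ≤ k * s v) ∧
          s u < u (x : F)}.ncard : ℝ) ≤ (C * (k - 1) + ε) * (vol s / Ideal.absNorm I)

/-! ## Finite fields -/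

/-- **DNQ.** The number of `(a,b)` in `k × k` with nonsquare discriminant.
Proof. (1) If `x^3 + a x + b` has no root in `k` then `-(4a^3+27b^2)` is a square: generalise
`PR.RTXM.square_of_no_root` (PR/RTX.lean) from `ZMod p` to `k`; Frobenius = `x ↦ x^(card k)` on
`K = AdjoinRoot f` (`FiniteField.frobeniusAlgHom`), its fixed points are `k` (the polynomial `X^q - X` has at
most `q` roots). (2) As in PR/DNQ.lean: for a root `t`, `-(4a^3+27b^2) = -(3t^2+a)^2 (3t^2+4a)`; the map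
`(t,v) ↦ (a,b)`, `a = -(v+3t^2)/4`, `b = -t^3-at`, is a bijection from `k × {nonsquares}` to the set (surjective
by (1); injective: another root `s` would give `(2s+t)^2 = -(3t^2+4a) = v`). There are `(q-1)/2` nonsquares. -/
def SpecDNQ : Prop :=
  ∀ (k : Type) [Field k] [Finite k], (2 : k) ≠ 0 → (3 : k) ≠ 0 →
    2 * {p : k × k | ¬ IsSquare (-(4 * p.1 ^ 3 + 27 * p.2 ^ 2))}.ncard = Nat.card k * (Nat.card k - 1)

/-- **DNP.** The number of irreducible `x^3 + a x + b` over a finite field `k` with `q` elements.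
Proof. (1) `4a^3+27b^2 = 0`: if `3 = 0` then `a = 0` and `-b` is a cube (`x ↦ x^3` is injective in characteristic 3,
hence surjective); if `2 = 0` then `b = 0`, root `0`; otherwise, if `a = 0` then `b = 0`, root 0, and if `a ≠ 0` then
`-3b/(2a)` is a root (`x^3+ax+b` at it is `-b(4a^3+27b^2)/(8a^3)`). (2) For `p = (a,b)` let `r(p)` be the number of
roots, `g2(p)` the number of pairs `(t,s)` of roots with `t ≠ s`, `g3(p)` the number of pairs of roots with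
`t ≠ s`, `-t-s ≠ t`, `-t-s ≠ s`. If `t ≠ s` are roots then `a = -(t^2+ts+s^2)`, `b = ts(t+s)` and the set of
roots is `{t, s, -t-s}`. So `(r,g2,g3)` is `(0,0,0)`, `(1,0,0)`, `(2,2,0)` or `(3,6,6)`, and
`6 [r = 0] = 6 - 6 r + 3 g2 - g3`. Sum over `p`: `∑ r = q^2` (`t`, `a` arbitrary, `b = -t^3-at`),
`∑ g2 = q(q-1)` (all pairs `t ≠ s`), `∑ g3 = #{(t,s) : t ≠ s, -t-s ≠ t, -t-s ≠ s}`, which is `q(q-1)` if `3 = 0` and
`q(q-1) - 2(q-1)` otherwise (remove the pairs `s = -2t`, `t ≠ 0`, and `t = -2s`, `s ≠ 0`, which are disjoint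
sets: `t = 4t` implies `t = 0`). So `6 n0 = 3q(q-1) - ∑ g3`. -/
def SpecDNP : Prop :=
  ∀ (k : Type) [Field k] [Finite k],
    (∀ a b : k, 4 * a ^ 3 + 27 * b ^ 2 = 0 → ∃ x : k, x ^ 3 + a * x + b = 0) ∧
    ((3 : k) ≠ 0 → 3 * {p : k × k | ∀ x : k, x ^ 3 + p.1 * x + p.2 ≠ 0}.ncard + 1 = Nat.card k ^ 2) ∧
    ((3 : k) = 0 →
      3 * {p : k × k | ∀ x : k, x ^ 3 + p.1 * x + p.2 ≠ 0}.ncard = Nat.card k * (Nat.card k - 1))

/-! ## Classes of pairs -/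

section classes

variable {R : Type} [CommRing R]

/-- The classes modulo `J` of the pairs in `T`. -/
def Clm (J : Ideal R) (T : Set (R × R)) : Set ((R ⧸ J) × (R ⧸ J)) :=
  (fun p : R × R => (Ideal.Quotient.mk J p.1, Ideal.Quotient.mk J p.2)) '' T

/-- `T` is a union of classes modulo `J`. -/
def Per (J : Ideal R) (T : Set (R × R)) : Prop :=
  ∀ a b a' b' : R, a - a' ∈ J → b - b' ∈ J → ((a, b) ∈ T ↔ (a', b') ∈ T)

end classes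

/-- **DNC.** Chinese remainder theorem for pairs.
Proof. Periodicity: `∏ J i ≤ J i`. Count: induction on `s` (`Finset.induction_on`; empty product `= ⊤`: `R ⧸ ⊤` has one
element, and the intersection over the empty set is everything). Step: `J i` is coprime to
`J' = ∏_{j ∈ s} J j` (`IsCoprime.prod_right`), and for coprime `J1, J2` and `T1, T2` periodic,
`Clm (J1 J2) (T1 ∩ T2)` is in bijection with `Clm J1 T1 ×ˢ Clm J2 T2` by the two reductions: injective because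
`J1 J2 = J1 ∩ J2` (`Ideal.mul_eq_inf_of_coprime`), surjective because for given `(a1,b1) ∈ T1`, `(a2,b2) ∈ T2` there are
`a ≡ a1 (J1)`, `a ≡ a2 (J2)` and similarly `b` (`x + y = 1`, `x ∈ J1`, `y ∈ J2`; `a = a1 y + a2 x`), and `(a,b) ∈ T1 ∩ T2`
by periodicity. `Set.ncard_congr` or `Set.ncard_image_of_injOn`, `Set.ncard_prod`. (No finiteness needed.) -/
def SpecDNC : Prop :=
  ∀ (R : Type) [CommRing R] (ι : Type) (s : Finset ι) (J : ι → Ideal R) (T : ι → Set (R × R)),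
    (∀ i ∈ s, Per (J i) (T i)) → (∀ i ∈ s, ∀ j ∈ s, i ≠ j → IsCoprime (J i) (J j)) →
    Per (∏ i ∈ s, J i) {p | ∀ i ∈ s, p ∈ T i} ∧
    (Clm (∏ i ∈ s, J i) {p | ∀ i ∈ s, p ∈ T i}).ncard = ∏ i ∈ s, (Clm (J i) (T i)).ncard

/-- **DNK.** Counting by classes.
Proof. The set `X = {p ∈ T, p.1 ∈ A, p.2 ∈ B}` is finite; it is the disjoint union over the classes `κ` in `Clm J T`
(finite, since `R ⧸ J` is) of its fibres, and the fibre over the class of `(a0, b0) ∈ T` is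
`{a ∈ A, a - a0 ∈ J} ×ˢ {b ∈ B, b - b0 ∈ J}` by periodicity. `Finset.card_eq_sum_card_fiberwise`,
`Set.ncard_prod`; then estimate every term (`U, V ≥ 0`). -/
def SpecDNK : Prop :=
  ∀ (R : Type) [CommRing R] (J : Ideal R) (T : Set (R × R)) (A B : Set R) (U V : ℝ),
    Finite (R ⧸ J) → Per J T → A.Finite → B.Finite → 0 ≤ U → 0 ≤ V →
    ((∀ x0 : R, ({x : R | x ∈ A ∧ x - x0 ∈ J}.ncard : ℝ) ≤ U) →
      (∀ x0 : R, ({x : R | x ∈ B ∧ x - x0 ∈ J}.ncard : ℝ) ≤ V) →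
      ({p : R × R | p ∈ T ∧ p.1 ∈ A ∧ p.2 ∈ B}.ncard : ℝ) ≤ (Clm J T).ncard * (U * V)) ∧
    ((∀ x0 : R, U ≤ ({x : R | x ∈ A ∧ x - x0 ∈ J}.ncard : ℝ)) →
      (∀ x0 : R, V ≤ ({x : R | x ∈ B ∧ x - x0 ∈ J}.ncard : ℝ)) →
      (Clm J T).ncard * (U * V) ≤ ({p : R × R | p ∈ T ∧ p.1 ∈ A ∧ p.2 ∈ B}.ncard : ℝ))

/-! ## Places -/

/-- **DNV.** Places of bounded norm.
Proof. (p) For a prime number `p` and a finite set `S` of places containing `p`: the product of the ideals in `S`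
divides `(p)` (distinct primes), so `∏ nv v ≤ p^n`, and `nv v ≥ p` (`nv v = card (𝓞 F ⧸ v)` is a power of `p`,
`≥ 2`), so `#S ≤ n`. Every `v` contains a prime number `p ≤ nv v` (`nv v ∈ v`, `v` prime: some prime factor of `nv v`
is in `v`), and `nv v` is a prime power (cardinality of a finite field), a power of that `p`.
(1) `nv v = m` : all these `v` contain the prime `p` with `m = p^f`. (2) finite: union over the primes `p ≤ x` of the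
places containing `p`; the number is `≤ n π(x)`, and `π(x) = o(x)` (`Chebyshev.eventually_primeCounting_le`, see
PR/DNT.lean). (3) Group by `m = nv v > M`: at most `n` places for each, `∑_{m > M} 1/m^2 ≤ 1/M` (telescoping with
`1/m^2 ≤ 1/(m-1) - 1/m`). (4) `6 ∉ v` implies `nv v ≥ 5` (`nv v ∈ v` and a number in `{2,3,4}` in `v` would give
`6 ∈ v`; `nv v ≥ 2`). Group by `m = nv v ≥ 5`: `∏_{v ∈ S} (1 - 3/(nv v)^2) ≥ ∏_{m} (1 - 3/m^2)^n ≥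
(∏_m (1 - 4/m^2))^n ≥ (2/5)^n` (`PR.specDNX`, PR/DNX.lean), all factors are in `(0,1)`. -/
def SpecDNV : Prop :=
  ∀ (F : Type) [Field F] [NumberField F],
    (∀ (m : ℕ) (S : Finset (HeightOneSpectrum (𝓞 F))), (∀ v ∈ S, nv v = m) →
      S.card ≤ Module.finrank ℚ F) ∧
    (∀ (m : ℕ) (S : Finset (HeightOneSpectrum (𝓞 F))), m.Prime → (∀ v ∈ S, (m : 𝓞 F) ∈ v.asIdeal) →
      S.card ≤ Module.finrank ℚ F) ∧
    (∀ x : ℝ, {v : HeightOneSpectrum (𝓞 F) | (nv v : ℝ) ≤ x}.Finite) ∧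
    (∀ ε : ℝ, 0 < ε → ∃ x0 : ℝ, ∀ x : ℝ, x0 ≤ x →
      ({v : HeightOneSpectrum (𝓞 F) | (nv v : ℝ) ≤ x}.ncard : ℝ) ≤ ε * x) ∧
    (∀ (M : ℕ) (S : Finset (HeightOneSpectrum (𝓞 F))), 0 < M → (∀ v ∈ S, M < nv v) →
      ∑ v ∈ S, 1 / (nv v : ℝ) ^ 2 ≤ (Module.finrank ℚ F : ℝ) / (M : ℝ)) ∧
    (∀ v : HeightOneSpectrum (𝓞 F), (6 : 𝓞 F) ∉ v.asIdeal → 5 ≤ nv v) ∧
    ∀ S : Finset (HeightOneSpectrum (𝓞 F)), (∀ v ∈ S, (6 : 𝓞 F) ∉ v.asIdeal) →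
      (2 / 5 : ℝ) ^ Module.finrank ℚ F ≤ ∏ v ∈ S, (1 - 3 / (nv v : ℝ) ^ 2)

/-! ## Local densities -/

/-- **DNZ.** Discriminants in `v^2`.
Proof. `2, 3, 27 ∉ v`. (1) `a ∈ v`: `27 b^2 ∈ v`, so `b ∈ v`. (2) `a ∉ v`: if `b, b'` are two solutions then `27 (b-b')(b+b') ∈
v^2`; `b ∉ v` (else `4 a^3 ∈ v`), so `b - b'` and `b + b'` are not both in `v` (sum `2b`), and one of them is in `v^2`
(`x y ∈ v^2`, `x ∉ v` implies `y ∈ v^2`: `v^2` is primary, or `v.asIdeal` and `(x)` are coprime). So `r = b` a solution (if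
there is one, otherwise anything), `s = -b`. (3) Classes modulo `v^2` (`N(v^2) = q^2`): at most 2 values `b` for each of the
at most `q^2` classes `a`, `a ∉ v`; and if `a ∈ v` then `b ∈ v` : at most `q^2` pairs (`v/v^2` has `q` elements: kernel of
`𝓞/v^2 → 𝓞/v`). Total `≤ 3q^2`. -/
def SpecDNZ : Prop :=
  ∀ (F : Type) [Field F] [NumberField F] (v : HeightOneSpectrum (𝓞 F)), (6 : 𝓞 F) ∉ v.asIdeal →
    (∀ a b : 𝓞 F, a ∈ v.asIdeal → dsc a b ∈ v.asIdeal ^ 2 → b ∈ v.asIdeal) ∧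
    (∀ a : 𝓞 F, a ∉ v.asIdeal → ∃ r s : 𝓞 F, ∀ b : 𝓞 F, dsc a b ∈ v.asIdeal ^ 2 →
      b - r ∈ v.asIdeal ^ 2 ∨ b - s ∈ v.asIdeal ^ 2) ∧
    (Clm (v.asIdeal ^ 2) {p : 𝓞 F × 𝓞 F | dsc p.1 p.2 ∈ v.asIdeal ^ 2}).ncard ≤ 3 * nv v ^ 2

/-- **DNI.** The numbers of classes.
Proof. `k = 𝓞 F ⧸ v` is a field with `nv v` elements; `x ∈ v` iff its class is 0, and every class is the class of an
integer, so `Clm v {…}` is the set of DNQ, respectively DNP, for `k`. (1): DNQ. (2), (3): DNP (2).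
(4): if `dsc a b ∈ w` then by DNP (1) there is a root modulo `w`. (5) The classes of the complement: `nv^4` classes of
pairs modulo `v^2`; `Clm` of the complement is the complement of `Clm` (periodicity); DNZ (3). -/
def SpecDNI : Prop :=
  ∀ (F : Type) [Field F] [NumberField F] (v : HeightOneSpectrum (𝓞 F)),
    ((6 : 𝓞 F) ∉ v.asIdeal →
      2 * (Clm v.asIdeal {p : 𝓞 F × 𝓞 F | ∀ x : 𝓞 F, x ^ 2 + dsc p.1 p.2 ∉ v.asIdeal}).ncard =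
        nv v * (nv v - 1)) ∧
    ((3 : 𝓞 F) ∉ v.asIdeal →
      3 * (Clm v.asIdeal {p : 𝓞 F × 𝓞 F | ∀ x : 𝓞 F, x ^ 3 + p.1 * x + p.2 ∉ v.asIdeal}).ncard + 1 =
        nv v ^ 2) ∧
    ((3 : 𝓞 F) ∈ v.asIdeal →
      3 * (Clm v.asIdeal {p : 𝓞 F × 𝓞 F | ∀ x : 𝓞 F, x ^ 3 + p.1 * x + p.2 ∉ v.asIdeal}).ncard =
        nv v * (nv v - 1)) ∧
    (∀ a b : 𝓞 F, (∀ x : 𝓞 F, x ^ 3 + a * x + b ∉ v.asIdeal) → dsc a b ∉ v.asIdeal) ∧
    ((6 : 𝓞 F) ∉ v.asIdeal →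
      nv v ^ 4 ≤ (Clm (v.asIdeal ^ 2) {p : 𝓞 F × 𝓞 F | dsc p.1 p.2 ∉ v.asIdeal ^ 2}).ncard +
        3 * nv v ^ 2)

/-- **DNR.** The local conditions, lower bound: classes modulo `J` with the class `cl` modulo `k`, the conditions at `Q`, `P` and at
all places of norm at most `M` (prime to `k`).
Proof. `S` = the places of norm `≤ M` not in `Q ∪ P` and not containing `k` (finite: DNV (3)); the places of `Q ∪ P ∪ S` do not
contain `k`, hence not 6 and not 3. Index set: `Option (HeightOneSpectrum (𝓞 F))`, `none` and `some v`, `v ∈ Q ∪ P ∪ S`;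
`J none = (k)`, `T none = Cls k cl` (periodic, exactly one class modulo `(k)`, `N (k) = k^n`), `J (some v) = v` for `v ∈ Q ∪ P`, `v^2` for
`v ∈ S` (pairwise coprime: distinct maximal ideals, `IsCoprime.pow`; `v + (k) = 1` because `k ∉ v`, `v` maximal), `T (some v)` = the set
of DNI (1), (2), (5); periodic (differences of polynomials in `a`, `b`). DNC: the number of classes is
`∏_Q (q^2-q)/2 ∏_P (q^2-1)/3 ∏_S (≥ q^4 - 3q^2)`, and `N J = k^n ∏_{Q ∪ P} q ∏_S q^2`, so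
`#Clm ≥ (N J)^2 ∏_Q dQ ∏_P dP (2/5)^n / k^(2n)` (DNV (7) for `S`). Last condition: for `v ∈ Q`: `dsc ∉ v` (`x = 0`), for `v ∈ P`: DNI (4).
(`J (some v)`, `T (some v)` may be defined by `if v ∈ Q then .. else if v ∈ P then .. else ..`.) -/
def SpecDNR : Prop :=
  ∀ (F : Type) [Field F] [NumberField F] (k : ℕ), 0 < k → 6 ∣ k → ∃ c : ℝ, 0 < c ∧
    ∀ (cl : 𝓞 F × 𝓞 F) (Q P : Finset (HeightOneSpectrum (𝓞 F))) (M : ℕ),
      (∀ v ∈ Q ∪ P, (k : 𝓞 F) ∉ v.asIdeal) → (∀ v ∈ Q, v ∉ P) →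
      ∃ (J : Ideal (𝓞 F)) (T : Set (𝓞 F × 𝓞 F)), J ≠ ⊥ ∧ Per J T ∧
        c * (∏ v ∈ Q, dQ v) * (∏ v ∈ P, dP v) * (Ideal.absNorm J : ℝ) ^ 2 ≤ ((Clm J T).ncard : ℝ) ∧
        ∀ q ∈ T, q ∈ Cls k cl ∧ (∀ w ∈ P, ∀ x : 𝓞 F, x ^ 3 + q.1 * x + q.2 ∉ w.asIdeal) ∧
          (∀ v ∈ Q, ∀ x : 𝓞 F, x ^ 2 + dsc q.1 q.2 ∉ v.asIdeal) ∧
          ∀ v : HeightOneSpectrum (𝓞 F), (k : 𝓞 F) ∉ v.asIdeal → (nv v ≤ M ∨ v ∈ Q ∨ v ∈ P) →
            dsc q.1 q.2 ∉ v.asIdeal ^ 2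

/-- **DNW.** The local conditions, upper bound.
Proof. As DNR with the index set `Q ∪ P` only (for `w ∈ P` with `3 ∈ w`: `(q^2-q)/3 ≤ (q^2-1)/3`). `T` = the pairs satisfying the conditions at `Q` and at
`P`. -/
def SpecDNW : Prop :=
  ∀ (F : Type) [Field F] [NumberField F] (Q P : Finset (HeightOneSpectrum (𝓞 F))),
    (∀ v ∈ Q, (6 : 𝓞 F) ∉ v.asIdeal) → (∀ v ∈ Q, v ∉ P) →
    ∃ J : Ideal (𝓞 F), J ≠ ⊥ ∧
      Per J {q : 𝓞 F × 𝓞 F | (∀ w ∈ P, ∀ x : 𝓞 F, x ^ 3 + q.1 * x + q.2 ∉ w.asIdeal) ∧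
        ∀ v ∈ Q, ∀ x : 𝓞 F, x ^ 2 + dsc q.1 q.2 ∉ v.asIdeal} ∧
      ((Clm J {q : 𝓞 F × 𝓞 F | (∀ w ∈ P, ∀ x : 𝓞 F, x ^ 3 + q.1 * x + q.2 ∉ w.asIdeal) ∧
        ∀ v ∈ Q, ∀ x : 𝓞 F, x ^ 2 + dsc q.1 q.2 ∉ v.asIdeal}).ncard : ℝ) ≤
        (∏ v ∈ Q, dQ v) * (∏ v ∈ P, dP v) * (Ideal.absNorm J : ℝ) ^ 2

/-! ## The tail of the squarefree sieve -/

/-- **DNT.** The tail, `a` prime to `v`.
Proof. `Y = vol ρ ≥ 1`. For `q = (a,b)` in the box, `|4a^3+27b^2|_v ≤ 31 ρ_v^6`, so `|Norm(dsc)| ≤ 31^n Y^6`; `dsc ≠ 0` is in `v^2`,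
so `(nv v)^2 ≤ 31^n Y^6`, `nv v ≤ 6^n Y^3`. The number of `a` is `≤ C1 Y^2` (`specCNU`). For every such `a` and every `v` with
`6 ∉ v`, `a ∉ v`, `M < nv v ≤ 6^n Y^3`: by DNZ (2) the `b` are in two classes modulo `v^2`, so there are
`≤ 2 C2 (1 + Y^3/(nv v)^2)` of them (DNA, centre 0, shape `ρ^3`, `N(v^2) = (nv v)^2`). Sum over `a` and `v` (union bound):
`≤ 2 C1 C2 Y^2 (#{v : nv v ≤ 6^n Y^3} + Y^3 ∑_{nv v > M} 1/(nv v)^2) ≤ 2 C1 C2 Y^2 (ε' 6^n Y^3 + Y^3 n/M)` for large `Y`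
(DNV (4), (5)). `C = 2 C1 C2 n`. -/
def SpecDNT : Prop :=
  ∀ (F : Type) [Field F] [NumberField F], ∃ C : ℝ, 0 < C ∧
    ∀ (M : ℕ) (ε : ℝ), 0 < M → 0 < ε → ∃ R0 : ℝ, ∀ ρ : InfinitePlace F → ℝ, (∀ v, R0 ≤ ρ v) →
      ({q : 𝓞 F × 𝓞 F | q ∈ Bx F ρ ∧ ∃ v : HeightOneSpectrum (𝓞 F), (6 : 𝓞 F) ∉ v.asIdeal ∧
        M < nv v ∧ q.1 ∉ v.asIdeal ∧ dsc q.1 q.2 ∈ v.asIdeal ^ 2}.ncard : ℝ) ≤
          (C / M + ε) * vol ρ ^ 5

/-- **DNY.** The tail, `a` divisible by `v`.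
Proof. `Y = vol ρ ≥ 1`. By DNZ (1) also `b ∈ v`. (i) `a = 0`: at most `C1 Y^3` pairs (`specCNU`), `≤ ε Y^5` for `Y` large. (ii) `a ≠ 0`:
`nv v ≤ |Norm a| ≤ Y^2`. For every `v` with `M < nv v ≤ Y^2` the number of `a ∈ v` in the box of shape `ρ^2` is
`≤ C2 max(1, Y^2/nv v) = C2 Y^2/nv v`, the number of `b ∈ v` in the box of shape `ρ^3` is `≤ C2 Y^3/nv v` (`nv v ≤ Y^2 ≤ Y^3`; DNA
with `x0 = 0`, centre 0, `I = v`). Sum over `v`: `≤ C2^2 Y^5 n/M` (DNV (5)). `C = C2^2 n`. -/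
def SpecDNY : Prop :=
  ∀ (F : Type) [Field F] [NumberField F], ∃ C : ℝ, 0 < C ∧
    ∀ (M : ℕ) (ε : ℝ), 0 < M → 0 < ε → ∃ R0 : ℝ, ∀ ρ : InfinitePlace F → ℝ, (∀ v, R0 ≤ ρ v) →
      ({q : 𝓞 F × 𝓞 F | q ∈ Bx F ρ ∧ ∃ v : HeightOneSpectrum (𝓞 F), (6 : 𝓞 F) ∉ v.asIdeal ∧
        M < nv v ∧ q.1 ∈ v.asIdeal ∧ dsc q.1 q.2 ∈ v.asIdeal ^ 2}.ncard : ℝ) ≤
          (C / M + ε) * vol ρ ^ 5

/-! ## The two estimates -/

/-- **DNL.** Lower bound.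
Proof. `c0` from DNR, `c1` from DNB, `C` = sum of the constants of DNT and DNY, `Δ = ∏_Q dQ ∏_P dP > 0` (`nv ≥ 2`). Let
`δ = c0 c1^2 Δ`, `M` with `C/M ≤ δ/8` and `nv v0 ≤ M` for one place `v0` not containing `k` (a maximal ideal containing a prime number
`p ∤ k`), `ε = δ/8` in DNT, DNY (total `≤ (δ/8 + 2 δ/8) Y^5`), `J, T` from DNR for this `M`.
`A` = the `a` with `|a|_v ≤ ρ_v^2`, positive at the real places, `B` = the `b` with `|b|_v ≤ ρ_v^3` (and, for DNB, positive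
at the real places): by DNB every class modulo `J` has at least `c1 Y^2/N J` elements in `A` and `c1 Y^3/N J` in `B` for
large `ρ`, so by DNK at least `#Clm c1^2 Y^5/(N J)^2 ≥ δ Y^5` pairs of `T` in `A × B`. All are in `Bx F ρ` (`dsc ≠ 0` because
`dsc ∉ v0^2`), and those not in the sets of DNT, DNY are in `Fam k cl Q P` (`v` not containing `k`: if `nv v ≤ M` or `v ∈ Q ∪ P` by DNR; otherwise
`6 ∉ v` and DNT/DNY do not hold at `v`). So `#(Fam k cl Q P ∩ Bx F ρ) ≥ (δ - 3δ/8) Y^5 ≥ (δ/2) Y^5`; `c = c0 c1^2/2`. -/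
def SpecDNL : Prop :=
  ∀ (F : Type) [Field F] [NumberField F] (k : ℕ), 0 < k → 6 ∣ k → ∃ c : ℝ, 0 < c ∧
    ∀ (cl : 𝓞 F × 𝓞 F) (Q P : Finset (HeightOneSpectrum (𝓞 F))),
      (∀ v ∈ Q ∪ P, (k : 𝓞 F) ∉ v.asIdeal) → (∀ v ∈ Q, v ∉ P) →
      ∃ R0 : ℝ, ∀ ρ : InfinitePlace F → ℝ, (∀ v, R0 ≤ ρ v) →
        c * (∏ v ∈ Q, dQ v) * (∏ v ∈ P, dP v) * vol ρ ^ 5 ≤ ((Fam k cl Q P ∩ Bx F ρ).ncard : ℝ)

/-- **DNU.** Upper bound in an annulus.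
Proof. `J, T` from DNW, `N = N J`, `Y = vol ρ`. An element `(a,b)` of `Fam k cl Q P` in `Bx F (l ρ)` and not in `Bx F ρ` is in `T`
and there is `u` with `ρ_u^2 < |a|_u` or `ρ_u^3 < |b|_u` (`dsc ≠ 0` in both boxes); `|a|_v ≤ l^2 ρ_v^2`, `|b|_v ≤
l^3 ρ_v^3`. For every class modulo `J` and large `ρ`: the `a` with `|a|_v ≤ l^2 ρ_v^2` are `≤ C1 4^n Y^2/N` many, the `b` with
`|b|_v ≤ l^3 ρ_v^3` are `≤ C1 8^n Y^3/N` many (DNA, the maximum is the second term for large `ρ`), those with `ρ_u^2 < |a|_u` are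
`≤ (C2 (l^2-1) + ε') Y^2/N` many, those with `ρ_u^3 < |b|_u` are `≤ (C2 (l^3-1) + ε') Y^3/N` many (DNS, shapes `ρ^2`, `ρ^3`,
`k = l^2 ≤ 4`, `k = l^3 ≤ 8`). By DNK and a union over `u` (at most `n` places) and the two cases:
`≤ n #Clm/N^2 C1 8^n (C2 (l^2-1) + C2 (l^3-1) + 2 ε') Y^5`, and `#Clm/N^2 ≤ ∏ dQ ∏ dP` (DNW), `l^2-1 ≤ 3(l-1)`, `l^3-1 ≤ 7(l-1)`. So
`C = 10 n C1 C2 8^n`, `ε' = ε/(2 n C1 8^n)`. (`6 ∉ v` for `v ∈ Q` because `6 ∣ k`.) -/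
def SpecDNU : Prop :=
  ∀ (F : Type) [Field F] [NumberField F], ∃ C : ℝ, 0 < C ∧
    ∀ (k : ℕ) (cl : 𝓞 F × 𝓞 F) (Q P : Finset (HeightOneSpectrum (𝓞 F))) (ε l : ℝ), 0 < k → 6 ∣ k →
      (∀ v ∈ Q ∪ P, (k : 𝓞 F) ∉ v.asIdeal) → (∀ v ∈ Q, v ∉ P) → 0 < ε → 1 ≤ l → l ≤ 2 →
      ∃ R0 : ℝ, ∀ ρ : InfinitePlace F → ℝ, (∀ v, R0 ≤ ρ v) →
        ((Fam k cl Q P ∩ (Bx F (fun v => l * ρ v) \ Bx F ρ)).ncard : ℝ) ≤
          (C * (l - 1) + ε) * (∏ v ∈ Q, dQ v) * (∏ v ∈ P, dP v) * vol ρ ^ 5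

/-- **DNF.** The box. Proof. It is contained in the product of the boxes of shapes `ρ^2`, `ρ^3`, which are finite
(CNUM.box_finite) and have at most `C1 Y^2`, `C1 Y^3` elements for `ρ_v ≥ 1` (`specCNU`). -/
def SpecDNF : Prop :=
  (∀ (F : Type) [Field F] [NumberField F] (ρ : InfinitePlace F → ℝ), (Bx F ρ).Finite) ∧
  ∀ (F : Type) [Field F] [NumberField F], ∃ C : ℝ, 0 < C ∧
    ∀ ρ : InfinitePlace F → ℝ, (∀ v, 1 ≤ ρ v) → ((Bx F ρ).ncard : ℝ) ≤ C * vol ρ ^ 5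

/-- `SpecDEN` is the conjunction of DNF, DNL and DNU. -/
theorem specDEN (h1 : SpecDNF) (h2 : SpecDNL) (h3 : SpecDNU) : SpecDEN :=
  ⟨h1.1, h1.2, h2, h3⟩

end Pool.Agent.Lib.MP_8cb858_nt.PF
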