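import Pool.Agent.Lib.MP_8cb858_nt.PF.Top
import Pool.Agent.Lib.MP_8cb858_nt.PR.SpecG

/-!
# Block F over number fields: the final assembly (helper64)

Module `XXX` is the file `PF/XXX.lean` with `theorem specXXX (hYYY : SpecYYY) .. : SpecXXX` (any `Spec` of
`PF/Top.lean` and of this file may be a hypothesis) and its own lemmas in the namespace
`Pool.Agent.Lib.MP_8cb858_nt.PF.XXXM`.

The layers `L 0, ..., L (n-1)` consist of active places, `v0` is one more active place, `m` is a neutral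
prime number. The twists are by `tw m v0 c T`: `m * pr T` (`c = true`) or `1 * pr (insert v0 T)`
(`c = false`), `T ∈ Ts L n`.
-/

set_option autoImplicit false

namespace Pool.Agent.Lib.MP_8cb858_nt.PF

open NumberField IsDedekindDomain Pool.Agent.Lib.MP_8cb858_nt.SEL
open scoped Classical

section gen

variable {ι : Type}

/-- The union of the layers `L 0, ..., L (n-1)`. -/
noncomputable def Un (L : ℕ → Finset ι) (n : ℕ) : Finset ι := (Finset.range n).biUnion L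

/-- The choices of one element in each of the layers `L 0, ..., L (j-1)`. -/
noncomputable def Ts (L : ℕ → Finset ι) : ℕ → Finset (Finset ι)
  | 0 => {∅}
  | j + 1 => (Ts L j ×ˢ L j).image fun x => insert x.2 x.1

/-- `n` disjoint nonempty layers, the weights `w` in each of them in a short interval. -/
structure LayG (w : ι → ℕ) (δ : ℝ) (n : ℕ) (L : ℕ → Finset ι) : Prop where
  ne : ∀ j < n, (L j).Nonempty
  dis : ∀ i j, i < j → j < n → Disjoint (L i) (L j)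
  sht : ∀ j < n, ∃ y : ℝ, 0 < y ∧ ∀ v ∈ L j, y ≤ w v ∧ (w v : ℝ) ≤ (1 + δ) * y

end gen

/-- **TSF** (200 lines). Facts on the choices; port of `PR/TSF.lean` (`ℕ` becomes `ι`, `pr T` becomes
`∏ v ∈ T, w v`; the item `uni` disappears). -/
structure SpecTSF : Prop where
  sum : ∀ {ι : Type} {w : ι → ℕ} {δ : ℝ} {n : ℕ} {L : ℕ → Finset ι}, LayG w δ n L → ∀ j < n,
    ∀ g : Finset ι → ℝ, ∑ T ∈ Ts L (j + 1), g T = ∑ T ∈ Ts L j, ∑ v ∈ L j, g (insert v T)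
  card : ∀ {ι : Type} {w : ι → ℕ} {δ : ℝ} {n : ℕ} {L : ℕ → Finset ι}, LayG w δ n L → ∀ j < n,
    (Ts L (j + 1)).card = (Ts L j).card * (L j).card
  pos : ∀ {ι : Type} {w : ι → ℕ} {δ : ℝ} {n : ℕ} {L : ℕ → Finset ι}, LayG w δ n L → ∀ j ≤ n,
    (Ts L j).Nonempty
  sub : ∀ {ι : Type} {w : ι → ℕ} {δ : ℝ} {n : ℕ} {L : ℕ → Finset ι}, LayG w δ n L → ∀ j ≤ n,
    ∀ T ∈ Ts L j, T ⊆ Un L j ∧ T.card = j ∧ T ⊆ Un L n ∧ ∀ i, j ≤ i → i < n → Disjoint (L i) T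
  rat : ∀ {ι : Type} {w : ι → ℕ} {δ : ℝ} {n : ℕ} {L : ℕ → Finset ι}, 0 < δ → LayG w δ n L →
    ∀ T ∈ Ts L n, ∀ T' ∈ Ts L n,
      ((∏ v ∈ T, w v : ℕ) : ℝ) ≤ (1 + δ) ^ n * ((∏ v ∈ T', w v : ℕ) : ℝ)

/-- **SGL** (150 lines). One step of the chain; port of `PR/SGL.lean` (`ℕ` becomes `ι`; proof in
`PR/SpecG.lean`). -/
def SpecSGL : Prop :=
  ∀ (ι : Type) (G : Type) [AddCommGroup G] [Finite G] (P : Finset ι) (tv : ι → G → Prop) (s : ℕ)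
    (s' : ι → ℕ) (η : ℝ) (f : ℕ → ℝ), 0 ≤ η → (∀ z : G, z + z = 0) → Nat.card G = 2 ^ s →
    (∀ p ∈ P, ∀ z w, tv p (z + w) ↔ (tv p z ↔ tv p w)) →
    (∀ p ∈ P, (∀ z, tv p z) → 2 ^ s' p = 2 * 2 ^ s) →
    (∀ p ∈ P, ¬ (∀ z, tv p z) → 2 * 2 ^ s' p = 2 ^ s) →
    (∀ z : G, z ≠ 0 →
      |(P.card : ℝ) - 2 * ((P.filter (fun p => ¬ tv p z)).card : ℝ)| ≤ η * P.card) →
    (∀ k, |f k| ≤ 1) →
    |∑ p ∈ P, f (s' p) - P.card * PR.Mop f s| ≤ 2 * η * P.card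

/-- **CHB** (80 lines). Chebyshev for subsets; port of `PR/CHB.lean` (`ℕ` becomes `ι`). -/
def SpecCHB : Prop :=
  ∀ (ι : Type) (P : Finset ι) (η : ℝ), 0 < η → P.Nonempty →
    ((P.powerset.filter (fun z => η * P.card < |(P.card : ℝ) - 2 * z.card|)).card : ℝ) /
      2 ^ P.card ≤ 1 / (η ^ 2 * P.card)

section fld

variable {F : Type} [Field F] [NumberField F]

/-- `Q`: active places, `m`: the neutral prime number, `P`: the other places over `m pr Q`. -/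
structure Sys (k P0 : ℕ) (Q P : Finset (HeightOneSpectrum (𝓞 F))) (m : ℕ) : Prop where
  act : Act k Q
  big : ∀ v ∈ Q, P0 < nv v
  mpr : m.Prime
  mmod : m % (8 * k) = 1
  mbig : P0 < m
  mne : ∀ v ∈ Q, nv v ≠ m
  mem : ∀ w : HeightOneSpectrum (𝓞 F), w ∈ P ↔ ((m * pr Q : ℕ) : 𝓞 F) ∈ w.asIdeal ∧ w ∉ Q
  sum : ∑ v ∈ Q, 1 / (nv v : ℝ) ≤ 1

/-- `D = tw m v0 c T`. -/
noncomputable def tw (m : ℕ) (v0 : HeightOneSpectrum (𝓞 F)) (c : Bool)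
    (T : Finset (HeightOneSpectrum (𝓞 F))) : ℕ :=
  (if c then m else 1) * pr (if c then T else insert v0 T)

/-- A system of layers of active places. -/
structure Lay (k P0 : ℕ) (δ : ℝ) (n m : ℕ) (v0 : HeightOneSpectrum (𝓞 F))
    (L : ℕ → Finset (HeightOneSpectrum (𝓞 F))) (P : Finset (HeightOneSpectrum (𝓞 F))) : Prop where
  sys : Sys k P0 (insert v0 (Un L n)) P m
  v0n : v0 ∉ Un L n
  lay : LayG nv δ n L
  sh0 : (m : ℝ) ≤ (1 + δ) * nv v0 ∧ (nv v0 : ℝ) ≤ (1 + δ) * m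

/-- The twists of the members of `Fam k cl Q P`. -/
def Gse (k : ℕ) (cl : 𝓞 F × 𝓞 F) (Q P : Finset (HeightOneSpectrum (𝓞 F))) (U : Finset ℕ) :
    Set (𝓞 F × 𝓞 F) :=
  {q | ∃ q' ∈ Fam k cl Q P, ∃ D ∈ U, q = (q'.1 * (D : 𝓞 F) ^ 2, q'.2 * (D : 𝓞 F) ^ 3)}

/-- The dimension of the 2-Selmer group of the twist by `D`. -/
noncomputable def sd (q : 𝓞 F × 𝓞 F) (D : ℕ) : ℕ := Nat.log 2 (Nat.card (Sel 2 (cN q.1 q.2 D)))

end fld

/-- **PLC** (150 lines). Elementary facts on places. `fin`, `bdd`: finitely many primes divide a nonzero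
ideal / have bounded norm (`Ideal.finite_factors`, `Ideal.finite_setOf_absNorm_le`). `ovr`: `∏ w ∣ p 𝓞`, so
`p ^ k ≤ ∏ nv w ≤ N(p) = p ^ n` (or `Ideal.sum_ramification_inertia`). `low`: `nv w` is a power `> 1` of `p`
(`𝓞/w` has characteristic `p`). `dvd`: `nv v ∈ v`; if `l = nv v ∤ k` then `1 ∈ v` by Bezout. -/
structure SpecPLC : Prop where
  fin : ∀ (F : Type) [Field F] [NumberField F] (x : 𝓞 F), x ≠ 0 →
    {w : HeightOneSpectrum (𝓞 F) | x ∈ w.asIdeal}.Finite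
  bdd : ∀ (F : Type) [Field F] [NumberField F] (B : ℕ),
    {w : HeightOneSpectrum (𝓞 F) | nv w ≤ B}.Finite
  ovr : ∀ (F : Type) [Field F] [NumberField F] (p : ℕ), p.Prime →
    {w : HeightOneSpectrum (𝓞 F) | (p : 𝓞 F) ∈ w.asIdeal}.ncard ≤ Module.finrank ℚ F
  two : ∀ (F : Type) [Field F] [NumberField F] (w : HeightOneSpectrum (𝓞 F)), 2 ≤ nv w
  low : ∀ (F : Type) [Field F] [NumberField F] (w : HeightOneSpectrum (𝓞 F)) (p : ℕ), p.Prime →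
    (p : 𝓞 F) ∈ w.asIdeal → p ≤ nv w
  mem : ∀ (F : Type) [Field F] [NumberField F] (w : HeightOneSpectrum (𝓞 F)),
    (nv w : 𝓞 F) ∈ w.asIdeal
  dvd : ∀ (F : Type) [Field F] [NumberField F] (v : HeightOneSpectrum (𝓞 F)) (k : ℕ),
    (nv v).Prime → ((k : 𝓞 F) ∈ v.asIdeal ↔ nv v ∣ k)
  ex : ∀ (F : Type) [Field F] [NumberField F] (p : ℕ), p.Prime →
    ∃ w : HeightOneSpectrum (𝓞 F), (p : 𝓞 F) ∈ w.asIdeal

/-- **SYS** (150 lines), from PLC. Consequences of `Sys`. `w ∈ Q` and `nv v ∈ w`, `v ∈ Q`: then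
`nv w ∣ nv v`, so `nv w = nv v` and `w = v`; the norms of the places of `Q` and `m` are different primes
`≡ 1 mod 8k`, so `≥ 17` and prime to `k`; every `w ∈ P` lies over one of them. -/
def SpecSYS : Prop :=
  ∀ (F : Type) [Field F] [NumberField F] (k P0 : ℕ) (Q P : Finset (HeightOneSpectrum (𝓞 F)))
    (m : ℕ), 0 < k → 6 ∣ k → Sys k P0 Q P m →
    Cmp k Q P ∧ Neu k P m ∧ Neu k P 1 ∧ (∀ v ∈ Q ∪ P, (k : 𝓞 F) ∉ v.asIdeal) ∧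
      (∀ v ∈ Q ∪ P, 17 ≤ nv v ∧ P0 < nv v) ∧ Squarefree (m * pr Q) ∧ (m * pr Q) % (8 * k) = 1 ∧
      ∀ T ⊆ Q, ∀ v ∈ Q, (((pr T : ℕ) : 𝓞 F) ∈ v.asIdeal ↔ v ∈ T) ∧
        (((m * pr T : ℕ) : 𝓞 F) ∈ v.asIdeal ↔ v ∈ T)

/-- **LYR** (250 lines), from PRM, PLC, TSF. Existence of layers; compare `PR/LYR.lean`.
PRM with `N = 2` gives two primes: `m` and the norm of `v0`, in `[y, (1+δ) y]`, larger than `P0` and `8`
(`1/nv v0 ≤ 1/4`). Then one layer after the other: `L j` for `j < n` (`L j = ∅` for `j ≥ n`; induction on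
`n`, `Ts L j` depends only on the `L i`, `i < j`): `N` so large that `A (tw m v0 c T)^(5n) ≤ η N` for the
finitely many `T ∈ Ts L j`, `c`, `N ≥ 1`; then PRM with this `N` and `P0` larger than `P0`, `m`, all former
norms and `2^(j+2) N`; choose one place of degree one for each of the primes. `P` := the places over
`m pr Q` not in `Q` (PLC.fin). -/
def SpecLYR : Prop :=
  ∀ (F : Type) [Field F] [NumberField F] (k P0 n : ℕ) (δ A η : ℝ), 0 < k → 0 < δ → 0 < η → 0 ≤ A →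
    ∃ (m : ℕ) (v0 : HeightOneSpectrum (𝓞 F)) (L : ℕ → Finset (HeightOneSpectrum (𝓞 F)))
      (P : Finset (HeightOneSpectrum (𝓞 F))), Lay k P0 δ n m v0 L P ∧
      ∀ j < n, ∀ T ∈ Ts L j, ∀ c : Bool,
        A * (tw m v0 c T : ℝ) ^ (5 * Module.finrank ℚ F) ≤ η * (L j).card

/-- **FMQ** (300 lines), from FM, PLC, SYS. The first moment in the family `Fam k cl Q P`; compare
`PR/FMQ.lean`.
Proof. `C_F`, `P_F` from FM, `P0 := P_F`, `D = e * pr T`. Apply FM with `Q \ T` for `Q` and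
`P' = {w ∈ P | D ∉ w}` for `P` (`v ∈ Q \ T` does not divide `D`: SYS; the norms are `> P_F`: SYS). The set of
the claim is a subset of the one of FM. Constants: as in PR/FMQ `∏_(Q \ T) (1+x)^2/2 ≤ e^4 3^|T| ∏_Q dQ`,
`x = 1/nv v`. For `w ∈ P'`: `(1+x)^2/3 ≤ dP w * exp(4x)`, `x = 1/nv w ≤ 1/2` (`(1+x)/(1-x) ≤ exp(4x)`), and
`∑_(w ∈ P) 1/nv w ≤ 2 n`, `n = [F:ℚ]`: each `w ∈ P` lies over `m` or `nv v`, `v ∈ Q`, there are at most `n`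
places over a prime `p`, of norm `≥ p`. `P \ P'`: at most `n (|T|+1)` places, and `dP w ≥ 1/4`; so
`∏_(P') dP ≤ 4^(n (|T|+1)) ∏_P dP`. -/
def SpecFMQ : Prop :=
  ∀ (F : Type) [Field F] [NumberField F] (k : ℕ) (cl : 𝓞 F × 𝓞 F), 0 < k → 6 ∣ k →
    ∃ (C : ℝ) (P0 : ℕ), 1 ≤ C ∧
    ∀ (Q P Q' T : Finset (HeightOneSpectrum (𝓞 F))) (m e : ℕ)
      (Z : Finset (Finset (HeightOneSpectrum (𝓞 F)))), Sys k P0 Q P m → (e = 1 ∨ e = m) →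
    T ⊆ Q → Q' ⊆ Q → Disjoint Q' T → (∀ z ∈ Z, z ⊆ Q') →
    ∃ R0 : ℝ, ∀ ρ : InfinitePlace F → ℝ, (∀ v, R0 ≤ ρ v) →
      {z : (Σ q : 𝓞 F × 𝓞 F, Sel 2 (cN q.1 q.2 (e * pr T))) | z.1 ∈ Fam k cl Q P ∩ Bx F ρ ∧
        z.2 ≠ 0 ∧ Q'.filter (fun v => ¬ TrN (e * pr T) v z.2) ∈ Z}.Finite ∧
      ({z : (Σ q : 𝓞 F × 𝓞 F, Sel 2 (cN q.1 q.2 (e * pr T))) | z.1 ∈ Fam k cl Q P ∩ Bx F ρ ∧
        z.2 ≠ 0 ∧ Q'.filter (fun v => ¬ TrN (e * pr T) v z.2) ∈ Z}.ncard : ℝ) ≤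
        C ^ (T.card + 1) * ((e * pr T : ℕ) : ℝ) ^ (5 * Module.finrank ℚ F) *
          ((Z.card : ℝ) / 2 ^ Q'.card) * (∏ v ∈ Q, dQ v) * (∏ v ∈ P, dP v) * vol ρ ^ 5

/-- **BOX** (80 lines). `ρ v = X v ^ (1 / (6 mult v))` (`Real.rpow`); `∑ v, mult v = [F:ℚ]`
(`InfinitePlace.sum_mult_eq`). -/
def SpecBOX : Prop :=
  ∀ (F : Type) [Field F] [NumberField F],
    (∀ X : InfinitePlace F → ℝ, (∀ v, 0 ≤ X v) →
      Box F X = Bx F (fun v => X v ^ (1 / (6 * (v.mult : ℝ))))) ∧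
    (∀ ρ ρ' : InfinitePlace F → ℝ, (∀ v, 0 ≤ ρ v) → (∀ v, ρ v ≤ ρ' v) → Bx F ρ ⊆ Bx F ρ') ∧
    (∀ (ρ : InfinitePlace F → ℝ) (D : ℕ) (a b : 𝓞 F), 0 < D →
      ((a * (D : 𝓞 F) ^ 2, b * (D : 𝓞 F) ^ 3) ∈ Bx F ρ ↔ (a, b) ∈ Bx F (fun v => ρ v / D))) ∧
    ∀ (ρ : InfinitePlace F → ℝ) (D : ℝ), 0 < D →
      vol (fun v => ρ v / D) = vol ρ / D ^ Module.finrank ℚ F

/-- **IJD** (100 lines), from PLC, SYS, TSF. The twists are different: `m ∣ tw true T`, `m ∤ tw false T`,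
`T = {v ∈ Un L n | nv v ∣ tw c T}`. (`Finset.sum_image` for the injective map `(T, c) ↦ tw m v0 c T` on
`Ts L n ×ˢ Finset.univ`.) -/
def SpecIJD : Prop :=
  ∀ (F : Type) [Field F] [NumberField F] (k P0 : ℕ) (δ : ℝ) (n m : ℕ)
    (v0 : HeightOneSpectrum (𝓞 F)) (L : ℕ → Finset (HeightOneSpectrum (𝓞 F)))
    (P : Finset (HeightOneSpectrum (𝓞 F))), 0 < k → 6 ∣ k → 0 < δ → Lay k P0 δ n m v0 L P →
    ∃ U : Finset ℕ, (∀ D, D ∈ U ↔ ∃ T ∈ Ts L n, ∃ c : Bool, D = tw m v0 c T) ∧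
      (∀ D ∈ U, D ∣ m * pr (insert v0 (Un L n)) ∧ D % (8 * k) = 1) ∧
      (∀ g : ℕ → ℝ, ∑ D ∈ U, g D = ∑ T ∈ Ts L n, ∑ c : Bool, g (tw m v0 c T)) ∧
      ∀ T ∈ Ts L n, ∀ T' ∈ Ts L n, ∀ c c' : Bool,
        (tw m v0 c T : ℝ) ≤ (1 + δ) ^ (n + 1) * (tw m v0 c' T' : ℝ)

/-- **CN1** (200 lines), from PLC, SYS. The twists form a congruence family.
Proof. `M := k m pr Q`, `N := M^5`, `R` := the set of the classes mod `N` of the members of `Gse`.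
`Gse ⊆ Cong`: positivity: the embedding of `a D^2` is `D^2` times the one of `a`; for `N ∉ v`: `k, D ∉ v`,
`4 a'^3 + 27 b'^2 = D^6 dsc a b`, `dsc a b ∉ v^2` (`Ideal.IsPrime.mul_mem_pow`). `Cong ⊆ Gse`:
`(a', b') = (a D^2, b D^3)` mod `N`, `(a, b) ∈ Fam k cl Q P`, `D ∣ m pr Q`: `N` is a multiple of `D^3 M^2`,
so `a' = D^2 a1`, `a1 = a` mod `M^2`, `b' = D^3 b1`, `b1 = b` mod `M^2`. So the class mod `k` and the
conditions at the places `w ∈ P` and `v ∈ Q` (they contain `M`) pass from `(a,b)` to `(a1,b1)`, and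
`dsc a1 b1 ∉ v^2` for the `v` containing `M` but not `k`; for the other `v`:
`dsc a' b' = D^6 dsc a1 b1 ∉ v^2`. Last claim: `D = 1` mod `k`. -/
def SpecCN1 : Prop :=
  ∀ (F : Type) [Field F] [NumberField F] (k P0 : ℕ) (cl : 𝓞 F × 𝓞 F)
    (Q P : Finset (HeightOneSpectrum (𝓞 F))) (m : ℕ) (U : Finset ℕ), 0 < k → 6 ∣ k →
    Sys k P0 Q P m → (∀ D ∈ U, D ∣ m * pr Q ∧ D % (8 * k) = 1) →
    ∃ (N : ℕ) (R : Set ((𝓞 F ⧸ Ideal.span {(N : 𝓞 F)}) × (𝓞 F ⧸ Ideal.span {(N : 𝓞 F)}))),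
      0 < N ∧ Cong F N R = Gse k cl Q P U ∧ Cong F N R ⊆ Cls k cl

/-- **CN2** (200 lines), from PLC, SYS, BOX. Counting the twists.
Proof. `(q', D) ↦ (a D^2, b D^3)` is injective on `Fam × U`: `D` is squarefree, and `nv v ∣ D` iff
`v` contains `a D^2` and `b D^3` (`v ∈ Q`: if `nv v ∤ D` and `v` contains both then `v` contains `a`, `b`
and `dsc a b`, but `x^2 + dsc a b ∉ v` for `x = 0`); `m ∣ D` iff some (every) place `w` over `m` contains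
both (`w ∈ P`: `x^3 + a x + b ∉ w` for `x = 0`); so `D` is determined, then `a`, `b` (`D ≠ 0`).
`(a D^2, b D^3) ∈ Bx ρ` iff `(a, b) ∈ Bx (ρ/D)` (BOX). So the set is the disjoint union of the images of the
sets on the right. -/
def SpecCN2 : Prop :=
  ∀ (F : Type) [Field F] [NumberField F] (k P0 : ℕ) (cl : 𝓞 F × 𝓞 F)
    (Q P : Finset (HeightOneSpectrum (𝓞 F))) (m : ℕ) (U : Finset ℕ), 0 < k → 6 ∣ k →
    Sys k P0 Q P m → (∀ D ∈ U, D ∣ m * pr Q ∧ D % (8 * k) = 1) →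
    (∀ ρ : InfinitePlace F → ℝ, (Bx F ρ).Finite) →
    ∀ (ρ : InfinitePlace F → ℝ) (S : Set (𝓞 F × 𝓞 F)),
      (Gse k cl Q P U ∩ Bx F ρ ∩ S).ncard =
        ∑ D ∈ U, {q ∈ Fam k cl Q P ∩ Bx F (fun v => ρ v / D) |
          (q.1 * (D : 𝓞 F) ^ 2, q.2 * (D : 𝓞 F) ^ 3) ∈ S}.ncard

/-- **POP** (helper64), from TRA, STP, FMQ, DEN, SGL, CHB, TSF, LYR, SYS. -/
def SpecPOP : Prop :=
  ∀ (F : Type) [Field F] [NumberField F] (k : ℕ) (cl : 𝓞 F × 𝓞 F) (ε : ℝ), 0 < k → 6 ∣ k → 0 < ε →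
    ∃ n : ℕ, ∀ δ : ℝ, 0 < δ →
    ∃ (m : ℕ) (v0 : HeightOneSpectrum (𝓞 F)) (L : ℕ → Finset (HeightOneSpectrum (𝓞 F)))
      (P : Finset (HeightOneSpectrum (𝓞 F))), Lay k 3 δ n m v0 L P ∧
    ∃ R0 : ℝ, ∀ ρ : InfinitePlace F → ℝ, (∀ v, R0 ≤ ρ v) → ∀ d : ℕ,
      |∑ T ∈ Ts L n, ∑ c : Bool, ({q ∈ Fam k cl (insert v0 (Un L n)) P ∩ Bx F ρ |
          Nat.card (Sel 2 (cN q.1 q.2 (tw m v0 c T))) = 2 ^ d}.ncard : ℝ) -
        PR.law d * (2 * (Ts L n).card * (Fam k cl (insert v0 (Un L n)) P ∩ Bx F ρ).ncard)| ≤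
      ε * (2 * (Ts L n).card * (Fam k cl (insert v0 (Un L n)) P ∩ Bx F ρ).ncard)

end Pool.Agent.Lib.MP_8cb858_nt.PF
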