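import Pool.Agent.Lib.MP_8cb858_nt.PF.SpecO
import Pool.Agent.Lib.MP_8cb858_nt.SEL.Spec

/-!
# Specs, part D: the Selmer group (cocycles, row 169) and classes in the cubic algebra, any field `F`

`E^D = cur a b D` is `curve (a D^2) (b D^3)` over `F`; its 2-torsion points are `0` and `(D t_i, 0)`,
`t_i` the roots of `f = X^3 + a X + b`. For a field `K` and a root `t` in an extension, `α(t)` stands
for `ev _ t α`. `Gal K` = `AlgebraicClosure K ≃ₐ[K] AlgebraicClosure K`. Hypotheses of the modules: any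
Specs of `SpecO`, `SpecD`, and the Specs `SpecWEI, SpecPSH, SpecHAL, SpecEMB, SpecFXD, SpecDES, SpecLO1,
SpecBIG` of `SEL/Spec.lean` (all proved; use them at the universe level `0`).
All proofs are adapted copies of the modules of the same name in `PR/` (`A, B, D` integers become
`a, b, D` in `F`; `(A : K)` becomes `algebraMap F K a`); the complete proofs on paper are in the
doc strings of `PR/SpecD.lean`.
-/

namespace Pool.Agent.Lib.MP_8cb858_nt.PF

open Polynomial NumberField IsDedekindDomain Pool.Agent.Lib.MP_8cb858_nt.SEL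
open scoped Classical

/-- The signs of a 2-torsion point of `E^D`. -/
noncomputable def sD {F K : Type} [Field F] [Field K] [Algebra F K] {a b D : F} (t : Fin 3 → K)
    (S : Pt (cur a b D) K) (k : Fin 3) : ℤ :=
  sg (fun j => algebraMap F K D * t j) S k

/-- `Rel` for fixed roots `t` and square roots `s` of the values of `α`. -/
def RelT {F : Type} [Field F] {a b : F} (D : F) (α : Lk a b)
    (c : Gal F → Pt (cur a b D) (AlgebraicClosure F)) (t s : Fin 3 → AlgebraicClosure F) : Prop :=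
  (∀ i, s i ≠ 0 ∧ s i ^ 2 = ev (algebraMap F (AlgebraicClosure F)) (t i) α) ∧
    ∀ (σ : Gal F) (i k : Fin 3), σ (t i) = t k →
      σ (s i) = (sD t (c σ) k : AlgebraicClosure F) * s k

/-- **DRT.** Roots. Proof: `PR/DRT.lean`. `act`, `act'`: `φ` fixes `a` and `b`. -/
structure SpecDRT : Prop where
  ex : ∀ {K : Type} [Field K] [CharZero K] [IsAlgClosed K] {a b : K}, dsc a b ≠ 0 →
    ∃ t : Fin 3 → K, IsRoots a b t
  rt : ∀ {K : Type} [Field K] {a b : K} {t : Fin 3 → K}, IsRoots a b t →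
    ∀ i, t i ^ 3 + a * t i + b = 0
  only : ∀ {K : Type} [Field K] {a b : K} {t : Fin 3 → K}, IsRoots a b t →
    ∀ x : K, x ^ 3 + a * x + b = 0 → ∃ i, x = t i
  map : ∀ {K K' : Type} [Field K] [Field K'] {a b : K} {t : Fin 3 → K} (φ : K →+* K'),
    IsRoots a b t → IsRoots (φ a) (φ b) (fun i => φ (t i))
  act : ∀ {K : Type} [Field K] {a b : K} {t : Fin 3 → K} (φ : K →+* K), φ a = a → φ b = b →
    IsRoots a b t → ∀ i, ∃ k, φ (t i) = t k
  act' : ∀ {K : Type} [Field K] {a b : K} {t : Fin 3 → K} (φ : K →+* K), φ a = a → φ b = b →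
    IsRoots a b t → ∀ k, ∃ i, φ (t i) = t k
  perm : ∀ {K : Type} [Field K] {a b : K} {t t' : Fin 3 → K}, IsRoots a b t →
    IsRoots a b t' → ∃ p : Equiv.Perm (Fin 3), ∀ i, t' i = t (p i)
  scl : ∀ {F K : Type} [Field F] [Field K] [Algebra F K] {a b D : F} {t : Fin 3 → K}, D ≠ 0 →
    IsRoots (algebraMap F K a) (algebraMap F K b) t →
    IsRoots (algebraMap F K (a * D ^ 2)) (algebraMap F K (b * D ^ 3))
      (fun j => algebraMap F K D * t j)

/-- **DIT.** Elements of `L` and their values at the roots. Proof: `PR/DIT.lean`. -/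
structure SpecDIT : Prop where
  gal : ∀ {K : Type} [Field K] {a b : K} (s : Gal K) (α : Lk a b) (x : AlgebraicClosure K),
    s (ev (algebraMap K (AlgebraicClosure K)) x α) =
      ev (algebraMap K (AlgebraicClosure K)) (s x) α
  uq : ∀ {K M : Type} [Field K] [Field M] {a b : K} (φ : K →+* M) {t : Fin 3 → M},
    IsRoots (φ a) (φ b) t → ∀ α β : Lk a b, (∀ i, ev φ (t i) α = ev φ (t i) β) → α = β
  ex : ∀ {K : Type} [Field K] [CharZero K] {a b : K} {t : Fin 3 → AlgebraicClosure K},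
    IsRoots (algebraMap K (AlgebraicClosure K) a) (algebraMap K (AlgebraicClosure K) b) t →
    ∀ r : Fin 3 → AlgebraicClosure K,
    (∀ (s : Gal K) (i k : Fin 3), s (t i) = t k → s (r i) = r k) →
    ∃ γ : Lk a b, ∀ i, ev (algebraMap K (AlgebraicClosure K)) (t i) γ = r i
  nrm : ∀ {K M : Type} [Field K] [Field M] {a b : K} (φ : K →+* M) {t : Fin 3 → M},
    IsRoots (φ a) (φ b) t → ∀ α : Lk a b,
      φ (Algebra.norm K α) = ev φ (t 0) α * ev φ (t 1) α * ev φ (t 2) α
  unit : ∀ {K M : Type} [Field K] [Field M] {a b : K} (φ : K →+* M) {t : Fin 3 → M},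
    IsRoots (φ a) (φ b) t → ∀ α : Lk a b, (IsUnit α ↔ ∀ i, ev φ (t i) α ≠ 0)
  up : ∀ {F K M : Type} [Field F] [Field K] [Field M] [Algebra F K] {a b : F} (ψ : K →+* M) (x : M)
    (α : Lk a b), ev ψ x (PF.up K α) = ev (ψ.comp (algebraMap F K)) x α

/-- **DSG.** Signs of the 2-torsion points of `E^D`. Proof: `PR/DSG.lean`. -/
structure SpecDSG : Prop where
  mul : ∀ {F K : Type} [Field F] [Field K] [CharZero K] [Algebra F K] {a b D : F} {t : Fin 3 → K},
    D ≠ 0 → IsRoots (algebraMap F K a) (algebraMap F K b) t →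
    ∀ S S' : Pt (cur a b D) K, (2 : ℕ) • S = 0 → (2 : ℕ) • S' = 0 →
      ∀ i, sD t (S + S') i = sD t S i * sD t S' i
  pm : ∀ {F K : Type} [Field F] [Field K] [CharZero K] [Algebra F K] {a b D : F} {t : Fin 3 → K},
    D ≠ 0 → IsRoots (algebraMap F K a) (algebraMap F K b) t →
    ∀ S : Pt (cur a b D) K, (2 : ℕ) • S = 0 →
      (∀ i, sD t S i = 1 ∨ sD t S i = -1) ∧ sD t S 0 * sD t S 1 * sD t S 2 = 1
  inj : ∀ {F K : Type} [Field F] [Field K] [CharZero K] [Algebra F K] {a b D : F} {t : Fin 3 → K},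
    D ≠ 0 → IsRoots (algebraMap F K a) (algebraMap F K b) t →
    ∀ S S' : Pt (cur a b D) K, (2 : ℕ) • S = 0 → (2 : ℕ) • S' = 0 →
      (∀ i, sD t S i = sD t S' i) → S = S'
  ex : ∀ {F K : Type} [Field F] [Field K] [CharZero K] [Algebra F K] {a b D : F} {t : Fin 3 → K},
    D ≠ 0 → IsRoots (algebraMap F K a) (algebraMap F K b) t →
    ∀ e : Fin 3 → ℤ, (∀ i, e i = 1 ∨ e i = -1) → e 0 * e 1 * e 2 = 1 →
      ∃ S : Pt (cur a b D) K, (2 : ℕ) • S = 0 ∧ ∀ i, sD t S i = e i
  push : ∀ {F K K' : Type} [Field F] [Field K] [CharZero K] [Algebra F K] [Field K'] [CharZero K']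
    [Algebra F K'] {a b D : F} {t : Fin 3 → K} {t' : Fin 3 → K'} (i : K →ₐ[F] K'), D ≠ 0 →
    IsRoots (algebraMap F K a) (algebraMap F K b) t →
    IsRoots (algebraMap F K' a) (algebraMap F K' b) t' → ∀ j k : Fin 3, i (t j) = t' k →
      ∀ S : Pt (cur a b D) K, sD t' (push (cur a b D) i S) k = sD t S j ∧
        i (hlf (fun j => algebraMap F K D * t j) S j) =
          hlf (fun j => algebraMap F K' D * t' j) (push (cur a b D) i S) k
  hlf : ∀ {F K : Type} [Field F] [Field K] [CharZero K] [Algebra F K] {a b D : F} {t : Fin 3 → K},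
    D ≠ 0 → IsRoots (algebraMap F K a) (algebraMap F K b) t →
    ∀ P S : Pt (cur a b D) K, (2 : ℕ) • S = 0 → (2 : ℕ) • P ≠ 0 →
      ∀ i, SEL.hlf (fun j => algebraMap F K D * t j) (P + S) i =
        (sD t S i : K) * SEL.hlf (fun j => algebraMap F K D * t j) P i

/-- **DRO.** One may choose the roots. Proof: `PR/DRO.lean`. -/
def SpecDRO : Prop :=
  ∀ (F : Type) [Field F] (a b D : F) (α : Lk a b) (c : Gal F → Pt (cur a b D) (AlgebraicClosure F)),
    Rel D α c → ∀ t : Fin 3 → AlgebraicClosure F,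
      IsRoots (algebraMap F (AlgebraicClosure F) a) (algebraMap F (AlgebraicClosure F) b) t →
      ∃ s, RelT D α c t s

/-- **DUN.** `α` determines the class of the cocycle. Proof: `PR/DUN.lean`. -/
def SpecDUN : Prop :=
  ∀ (F : Type) [Field F] [NumberField F] (a b D : F) (α : Lk a b)
    (c c' : Gal F → Pt (cur a b D) (AlgebraicClosure F)), D ≠ 0 →
    (∀ σ, (2 : ℕ) • c σ = 0) → (∀ σ, (2 : ℕ) • c' σ = 0) → Rel D α c → Rel D α c' →
    c - c' ∈ Coboundaries 2 (cur a b D)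

/-- **DIN.** The class of the cocycle determines `α` up to squares. Proof: `PR/DIN.lean`. -/
def SpecDIN : Prop :=
  ∀ (F : Type) [Field F] [NumberField F] (a b D : F) (α β : Lk a b)
    (c c' : Gal F → Pt (cur a b D) (AlgebraicClosure F)), D ≠ 0 →
    (∀ σ, (2 : ℕ) • c σ = 0) → (∀ σ, (2 : ℕ) • c' σ = 0) → Rel D α c → Rel D β c' →
    c - c' ∈ Coboundaries 2 (cur a b D) → IsSquare (α * β)

/-- **DMU.** Products. Proof: `PR/DMU.lean`. -/
def SpecDMU : Prop :=
  (∀ (F : Type) [Field F] [CharZero F] (a b D : F) (α β : Lk a b)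
    (c c' : Gal F → Pt (cur a b D) (AlgebraicClosure F)), D ≠ 0 →
    (∀ σ, (2 : ℕ) • c σ = 0) → (∀ σ, (2 : ℕ) • c' σ = 0) → Rel D α c → Rel D β c' →
    Rel D (α * β) (c + c')) ∧
  (∀ (F : Type) [Field F] (a b D : F) (α γ : Lk a b)
    (c : Gal F → Pt (cur a b D) (AlgebraicClosure F)), IsUnit γ →
    Rel D α c → Rel D (α * γ ^ 2) c)

/-- **DSU.** Every cocycle comes from some `α`. Proof: `PR/DSU.lean`. -/
def SpecDSU : Prop :=
  ∀ (F : Type) [Field F] [CharZero F] (a b D : F) (c : Gal F → Pt (cur a b D) (AlgebraicClosure F)),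
    dsc a b ≠ 0 → D ≠ 0 → IsContCocycle (cur a b D) c → (∀ σ, (2 : ℕ) • c σ = 0) →
    ∃ α : Lk a b, InV α ∧ Rel D α c

/-- **DEX.** Every `α` gives a cocycle. Proof: `PR/DEX.lean`. -/
def SpecDEX : Prop :=
  ∀ (F : Type) [Field F] [CharZero F] (a b D : F) (α : Lk a b), dsc a b ≠ 0 → D ≠ 0 → InV α →
    ∃ c : Gal F → Pt (cur a b D) (AlgebraicClosure F), IsContCocycle (cur a b D) c ∧
      (∀ σ, (2 : ℕ) • c σ = 0) ∧ Rel D α c

/-- **DHA.** Halving a point, with signs. Proof: `PR/DHA.lean`. -/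
def SpecDHA : Prop :=
  ∀ (F K : Type) [Field F] [Field K] [CharZero K] [Algebra F K] (a b D : F) (t h : Fin 3 → K)
    (x : K), D ≠ 0 → IsRoots (algebraMap F K a) (algebraMap F K b) t →
    (∀ i, h i ≠ 0 ∧ h i ^ 2 = x - algebraMap F K D * t i) →
    ∃ (P : Pt (cur a b D) K)
      (hn : ((cur a b D).baseChange K).toAffine.Nonsingular x (h 0 * h 1 * h 2)),
      (2 : ℕ) • P = WeierstrassCurve.Affine.Point.some _ _ hn ∧
      ∀ i, hlf (fun j => algebraMap F K D * t j) P i = h i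

/-- **DLA.** Local triviality implies `Aff`. Proof: `PR/DLA.lean`. -/
def SpecDLA : Prop :=
  ∀ (F K : Type) [Field F] [CharZero F] [Field K] [CharZero K] [Algebra F K] (a b D : F)
    (α : Lk a b) (c : Gal F → Pt (cur a b D) (AlgebraicClosure F)), dsc a b ≠ 0 → D ≠ 0 →
    (∀ σ, (2 : ℕ) • c σ = 0) → Rel D α c → (∃ R : Pt (cur a b D) K, (4 : ℕ) • R ≠ 0) →
    LocTriv (cur a b D) K c → Aff (algebraMap F K D) (up K α)

/-- **DAL.** `Aff` implies local triviality. Proof: `PR/DAL.lean`. -/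
def SpecDAL : Prop :=
  ∀ (F K : Type) [Field F] [CharZero F] [Field K] [CharZero K] [Algebra F K] (a b D : F)
    (α : Lk a b) (c : Gal F → Pt (cur a b D) (AlgebraicClosure F)), dsc a b ≠ 0 → D ≠ 0 →
    (∀ σ, (2 : ℕ) • c σ = 0) → InV α → Rel D α c → Aff (algebraMap F K D) (up K α) →
    LocTriv (cur a b D) K c

/-- **DR4.** Points over the infinite completions which are not killed by 4 (the finite places are
`SpecBIG`).
Proof. `K = v.Completion`. If `v` is real let `φ : K ≃+* ℝ` (`Completion.ringEquivRealOfIsReal`); the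
proof is that of `PR/DR4.lean` (`DR4M.exists_point`, with `curve a b` over `F` instead of `ℚ`). If `v`
is complex let `φ : K ≃+* ℂ` (`Completion.ringEquivComplexOfIsComplex`), `al = φ a`, `be = φ b`,
`M = 1 + ‖al‖ + ‖be‖`. For `z` in `ℂ` with `‖z‖ ≥ M` one has `z^3 + al z + be ≠ 0`
(`‖z^3‖ > ‖al z‖ + ‖be‖`). Let `X = 100 M` (real), `Y` in `ℂ` with `Y^2 = X^3 + al X + be` (`≠ 0`).
`2P = (x', y')` with `4 Y^2 x' = X^4 - 2 al X^2 - 8 be X + al^2`, so `‖4 Y^2‖ ≤ 8 X^3` and the right side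
has norm `≥ X^4/2`, hence `‖φ x'‖ ≥ X/16 ≥ M`, `y'^2 = f(x') ≠ 0`, and `4P = 2(2P) ≠ 0` by `BIGM.dbl`. -/
def SpecDR4 : Prop :=
  ∀ (F : Type) [Field F] [NumberField F] (v : InfinitePlace F) (a b : F),
    ∃ R : Pt (curve a b) v.Completion, (4 : ℕ) • R ≠ 0

/-- **DFI.** `SpecBR`. Proof: `PR/DFI.lean` (simpler: no DCM, DTF; finite places: BIG for `a D^2`,
`b D^3`, `4(aD^2)^3+27(bD^3)^2 = D^6 dsc a b ≠ 0`; infinite places: DR4). -/
def SpecDFI : Prop := SpecBR

end Pool.Agent.Lib.MP_8cb858_nt.PF
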