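import Pool.Agent.Lib.MP_8cb858_nt.SEL.Spec
import Pool.Agent.Lib.MP_8cb858_nt.PF.SpecD

section
/-!
# DET: determinants of Gram matrices
-/
namespace Pool.Agent.Lib.MP_8cb858_nt.SEL.DETM

open scoped Classical

universe u

variable {K : Type u} [Field K]

theorem vnd_det (th : Fin 3 → K) :
    (vnd th).det = (th 1 - th 0) * (th 2 - th 0) * (th 2 - th 1) := by
  rw [Matrix.det_fin_three]
  simp only [vnd]
  simp
  ring

theorem fp0 (th : Fin 3 → K) : fp th 0 = (th 0 - th 1) * (th 0 - th 2) := rfl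

theorem fp1 (th : Fin 3 → K) : fp th 1 = (th 1 - th 2) * (th 1 - th 0) := rfl

theorem fp2 (th : Fin 3 → K) : fp th 2 = (th 2 - th 0) * (th 2 - th 1) := rfl

theorem sub_ne {th : Fin 3 → K} (h : Function.Injective th) {i j : Fin 3} (hij : i ≠ j) :
    th i - th j ≠ 0 := sub_ne_zero.2 fun e => hij (h e)

theorem fp_ne {th : Fin 3 → K} (h : Function.Injective th) (i : Fin 3) : fp th i ≠ 0 := by
  apply mul_ne_zero
  · exact sub_ne h (by fin_cases i <;> decide)
  · exact sub_ne h (by fin_cases i <;> decide)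

theorem vnd_ne {th : Fin 3 → K} (h : Function.Injective th) : (vnd th).det ≠ 0 := by
  rw [vnd_det]
  exact mul_ne_zero (mul_ne_zero (sub_ne h (by decide)) (sub_ne h (by decide)))
    (sub_ne h (by decide))

theorem prod_fp (th : Fin 3 → K) : fp th 0 * fp th 1 * fp th 2 = - (vnd th).det ^ 2 := by
  rw [vnd_det, fp0, fp1, fp2]
  ring

/-- weighted Gram matrices -/
theorem gA_eq (th : Fin 3 → K) (Z : Matrix (Fin 3) (Fin 3) K) :
    gA th Z = Z.transpose * Matrix.diagonal (fun i => (fp th i)⁻¹) * Z := by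
  ext j k
  rw [Matrix.mul_assoc, Matrix.mul_apply]
  unfold gA
  apply Finset.sum_congr rfl
  intro i _
  rw [Matrix.diagonal_mul, Matrix.transpose_apply, div_eq_mul_inv]
  ring

theorem gB_eq (th : Fin 3 → K) (Z : Matrix (Fin 3) (Fin 3) K) :
    gB th Z = Z.transpose * Matrix.diagonal (fun i => th i * (fp th i)⁻¹) * Z := by
  ext j k
  rw [Matrix.mul_assoc, Matrix.mul_apply]
  unfold gB
  apply Finset.sum_congr rfl
  intro i _
  rw [Matrix.diagonal_mul, Matrix.transpose_apply, div_eq_mul_inv]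
  ring

theorem gA_symm (th : Fin 3 → K) (Z : Matrix (Fin 3) (Fin 3) K) : (gA th Z).IsSymm := by
  ext j k
  rw [Matrix.transpose_apply]
  unfold gA
  apply Finset.sum_congr rfl
  intro i _
  rw [mul_comm (Z i k)]

theorem gB_symm (th : Fin 3 → K) (Z : Matrix (Fin 3) (Fin 3) K) : (gB th Z).IsSymm := by
  ext j k
  rw [Matrix.transpose_apply]
  unfold gB
  apply Finset.sum_congr rfl
  intro i _
  rw [mul_comm (Z i k)]

theorem gA_det (th : Fin 3 → K) (Z : Matrix (Fin 3) (Fin 3) K) :
    (gA th Z).det = Z.det ^ 2 * ((fp th 0)⁻¹ * (fp th 1)⁻¹ * (fp th 2)⁻¹) := by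
  rw [gA_eq, Matrix.det_mul, Matrix.det_mul, Matrix.det_transpose, Matrix.det_diagonal,
    Fin.prod_univ_three]
  ring

theorem gA_det' {th : Fin 3 → K} (h : Function.Injective th) (Z : Matrix (Fin 3) (Fin 3) K) :
    (gA th Z).det * (vnd th).det ^ 2 = - Z.det ^ 2 := by
  have h1 : (vnd th).det ^ 2 = - (fp th 0 * fp th 1 * fp th 2) := by
    rw [prod_fp, neg_neg]
  have h2 := fp_ne h 0
  have h3 := fp_ne h 1
  have h4 := fp_ne h 2
  rw [gA_det, h1]
  field_simp

theorem pencil (th : Fin 3 → K) (Z : Matrix (Fin 3) (Fin 3) K) (x : K) :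
    (x • gA th Z - gB th Z).det =
      (gA th Z).det * ((x - th 0) * (x - th 1) * (x - th 2)) := by
  have h1 : x • gA th Z - gB th Z =
      Z.transpose * Matrix.diagonal (fun i => (x - th i) * (fp th i)⁻¹) * Z := by
    have h2 : Matrix.diagonal (fun i => (x - th i) * (fp th i)⁻¹) =
        x • Matrix.diagonal (fun i => (fp th i)⁻¹) -
          Matrix.diagonal (fun i => th i * (fp th i)⁻¹) := by
      rw [← Matrix.diagonal_smul, Matrix.diagonal_sub]
      congr 1
      ext i
      rw [Pi.smul_apply, smul_eq_mul]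
      ring
    rw [h2, gA_eq, gB_eq, Matrix.mul_sub, Matrix.sub_mul, Matrix.mul_smul, Matrix.smul_mul]
  rw [h1, gA_det, Matrix.det_mul, Matrix.det_mul, Matrix.det_transpose, Matrix.det_diagonal,
    Fin.prod_univ_three]
  ring

theorem trace_zero {th : Fin 3 → K} (h : th 0 + th 1 + th 2 = 0)
    (Z : Matrix (Fin 3) (Fin 3) K) :
    ((gA th Z).adjugate * gB th Z).trace = 0 := by
  have h1 : (gA th Z).adjugate * gB th Z =
      Z.adjugate * ((Matrix.diagonal (fun i => (fp th i)⁻¹)).adjugate *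
        (Z.transpose.adjugate * Z.transpose) *
        Matrix.diagonal (fun i => th i * (fp th i)⁻¹)) * Z := by
    rw [gA_eq, gB_eq, Matrix.adjugate_mul_distrib, Matrix.adjugate_mul_distrib]
    simp only [Matrix.mul_assoc]
  have h2 : (Matrix.diagonal (fun i => th i * (fp th i)⁻¹)) =
      Matrix.diagonal (fun i => (fp th i)⁻¹) * Matrix.diagonal th := by
    rw [Matrix.diagonal_mul_diagonal]
    congr 1
    ext i
    ring
  rw [h1, Matrix.adjugate_mul, Matrix.mul_smul, Matrix.mul_one, Matrix.smul_mul, h2,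
    ← Matrix.mul_assoc, Matrix.adjugate_mul, Matrix.smul_mul, Matrix.one_mul,
    Matrix.trace_mul_comm, ← Matrix.mul_assoc, Matrix.mul_adjugate, Matrix.smul_mul,
    Matrix.one_mul, Matrix.trace_smul, Matrix.trace_smul, Matrix.trace_smul,
    Matrix.trace_diagonal, Fin.sum_univ_three, h]
  simp

end Pool.Agent.Lib.MP_8cb858_nt.SEL.DETM

namespace Pool.Agent.Lib.MP_8cb858_nt.SEL

open scoped Classical

universe u

/-- DET -/
theorem specDET : SpecDET.{u} := by
  intro K _ a b th Z hr
  refine ⟨DETM.vnd_ne hr.inj, DETM.fp_ne hr.inj, DETM.gA_symm th Z, DETM.gB_symm th Z,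
    DETM.gA_det' hr.inj Z, ?_, DETM.trace_zero hr.e1 Z⟩
  intro x
  rw [DETM.pencil]
  congr 1
  have e1 := hr.e1
  have e2 := hr.e2
  have e3 := hr.e3
  linear_combination (-x ^ 2) * e1 + x * e2 - e3

end Pool.Agent.Lib.MP_8cb858_nt.SEL
end

section
/-!
# BAS: a normalized basis of the twisted space
-/
namespace Pool.Agent.Lib.MP_8cb858_nt.SEL.BASM

open NumberField
open scoped Classical

universe u

/-- three distinct roots over an algebraically closed field -/
theorem exists_roots {K : Type u} [Field K] [IsAlgClosed K] (a b : K)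
    (h : 4 * a ^ 3 + 27 * b ^ 2 ≠ 0) : ∃ th : Fin 3 → K, IsRoots a b th := by
  obtain ⟨t0, h0⟩ : ∃ t : K, t ^ 3 + a * t + b = 0 := by
    obtain ⟨t, ht⟩ := IsAlgClosed.exists_root
      (Polynomial.C 1 * Polynomial.X ^ 3 + Polynomial.C 0 * Polynomial.X ^ 2 +
        Polynomial.C a * Polynomial.X + Polynomial.C b : Polynomial K) (by
        rw [Polynomial.degree_cubic one_ne_zero]
        decide)
    refine ⟨t, ?_⟩
    have h1 : Polynomial.eval t (Polynomial.C 1 * Polynomial.X ^ 3 + Polynomial.C 0 *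
        Polynomial.X ^ 2 + Polynomial.C a * Polynomial.X + Polynomial.C b : Polynomial K) = 0 := ht
    simp only [Polynomial.eval_add, Polynomial.eval_mul, Polynomial.eval_C, Polynomial.eval_pow,
      Polynomial.eval_X] at h1
    linear_combination h1
  obtain ⟨t1, h1⟩ : ∃ t : K, t ^ 2 + t0 * t + (a + t0 ^ 2) = 0 := by
    obtain ⟨t, ht⟩ := IsAlgClosed.exists_root
      (Polynomial.C 1 * Polynomial.X ^ 2 + Polynomial.C t0 * Polynomial.X +
        Polynomial.C (a + t0 ^ 2) : Polynomial K) (by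
        rw [Polynomial.degree_quadratic one_ne_zero]
        decide)
    refine ⟨t, ?_⟩
    have h1 : Polynomial.eval t (Polynomial.C 1 * Polynomial.X ^ 2 + Polynomial.C t0 *
        Polynomial.X + Polynomial.C (a + t0 ^ 2) : Polynomial K) = 0 := ht
    simp only [Polynomial.eval_add, Polynomial.eval_mul, Polynomial.eval_C, Polynomial.eval_pow,
      Polynomial.eval_X] at h1
    linear_combination h1
  have e2 : t0 * t1 + t0 * (-t0 - t1) + t1 * (-t0 - t1) = a := by linear_combination -h1
  have e3 : t0 * t1 * (-t0 - t1) = -b := by linear_combination h0 - t0 * h1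
  have hd : 4 * a ^ 3 + 27 * b ^ 2 =
      -((t0 - t1) * (t0 - (-t0 - t1)) * (t1 - (-t0 - t1))) ^ 2 := by
    have hb : b = -(t0 * t1 * (-t0 - t1)) := by rw [e3, neg_neg]
    rw [← e2, hb]
    ring
  refine ⟨![t0, t1, -t0 - t1], ?_, ?_, ?_, ?_⟩
  · have n1 : t0 ≠ t1 := by
      rintro rfl
      apply h
      rw [hd]
      ring
    have n2 : t0 ≠ -t0 - t1 := by
      intro he
      apply h
      rw [hd, ← he]
      ring
    have n3 : t1 ≠ -t0 - t1 := by
      intro he
      apply h
      rw [hd, ← he]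
      ring
    intro i j hij
    fin_cases i <;> fin_cases j <;> simp_all
  · show t0 + t1 + (-t0 - t1) = 0
    ring
  · exact e2
  · exact e3

theorem roots_closure {F : Type u} [Field F] [CharZero F] (a b : F)
    (h : 4 * a ^ 3 + 27 * b ^ 2 ≠ 0) :
    ∃ th : Fin 3 → AlgebraicClosure F,
      IsRoots (algebraMap F (AlgebraicClosure F) a) (algebraMap F (AlgebraicClosure F) b) th := by
  apply exists_roots
  intro h0
  apply h
  apply (algebraMap F (AlgebraicClosure F)).injective
  rw [map_zero, ← h0]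
  simp only [map_add, map_mul, map_pow, map_ofNat]

/-- Multiplying a column by an element of `F`. -/
theorem twisted_scale {F : Type u} [Field F] {E : WeierstrassCurve F}
    {th : Fin 3 → AlgebraicClosure F} {c : Gal F → Pt E (AlgebraicClosure F)}
    {Z : Matrix (Fin 3) (Fin 3) (AlgebraicClosure F)} (h : Twisted th c Z) (d : Fin 3 → F)
    (hd : ∀ j, d j ≠ 0) :
    Twisted th c (Z * Matrix.diagonal fun j => algebraMap F (AlgebraicClosure F) (d j)) := by
  refine ⟨?_, ?_⟩
  · rw [Matrix.det_mul, Matrix.det_diagonal]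
    apply mul_ne_zero h.1
    rw [Finset.prod_ne_zero_iff]
    intro j _ h0
    exact hd j ((map_eq_zero _).1 h0)
  · intro s i k j hik
    rw [Matrix.mul_diagonal, Matrix.mul_diagonal, map_mul, h.2 s i k j hik, AlgEquiv.commutes,
      mul_assoc]

end Pool.Agent.Lib.MP_8cb858_nt.SEL.BASM

namespace Pool.Agent.Lib.MP_8cb858_nt.SEL

open scoped Classical

universe u

/-- BAS -/
theorem specBAS (hDES : SpecDES.{u}) (hGRF : SpecGRF.{u}) : SpecBAS.{u} := by
  intro F _ _ a b c hab hc h2
  obtain ⟨th, hth⟩ := BASM.roots_closure a b hab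
  obtain ⟨Z, hZ⟩ := hDES F a b th c hth hc h2
  obtain ⟨q, hq⟩ := (hGRF F a b th c Z hth h2 hZ).2
  have hv := (specDET (AlgebraicClosure F) _ _ th Z hth).1
  have hq0 : q ≠ 0 := by
    rintro rfl
    rw [map_zero, zero_mul] at hq
    exact hZ.1 hq
  have hq1 : algebraMap F (AlgebraicClosure F) q ≠ 0 := fun h0 => hq0 ((map_eq_zero _).1 h0)
  let d : Fin 3 → F := ![q⁻¹, 1, 1]
  have hd : ∀ j, d j ≠ 0 := by
    intro j
    fin_cases j
    · exact inv_ne_zero hq0
    · exact one_ne_zero
    · exact one_ne_zero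
  have hT := BASM.twisted_scale hZ d hd
  obtain ⟨A, B, hA, hB⟩ := (hGRF F a b th c _ hth h2 hT).1
  have hdet : (Z * Matrix.diagonal fun j => algebraMap F (AlgebraicClosure F) (d j)).det =
      (vnd th).det := by
    rw [Matrix.det_mul, Matrix.det_diagonal, Fin.prod_univ_three, hq]
    show algebraMap F (AlgebraicClosure F) q * (vnd th).det *
      (algebraMap F (AlgebraicClosure F) q⁻¹ * algebraMap F (AlgebraicClosure F) 1 *
        algebraMap F (AlgebraicClosure F) 1) = (vnd th).det
    rw [map_inv₀, map_one]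
    field_simp
  have hD := specDET (AlgebraicClosure F) _ _ th
    (Z * Matrix.diagonal fun j => algebraMap F (AlgebraicClosure F) (d j)) hth
  have hinj := (algebraMap F (AlgebraicClosure F)).injective
  refine ⟨th, _, A, B, hth, hT, hdet, hA, hB, ?_, ?_, ?_⟩
  · have h3 := hD.2.2.1
    rw [hA] at h3
    ext i j
    apply hinj
    exact congrFun (congrFun h3 i) j
  · have h3 := hD.2.2.2.1
    rw [hB] at h3
    ext i j
    apply hinj
    exact congrFun (congrFun h3 i) j
  · have h3 := hD.2.2.2.2.1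
    rw [hA, hdet] at h3
    have h4 : (A.map (algebraMap F (AlgebraicClosure F))).det = -1 := by
      apply mul_right_cancel₀ (pow_ne_zero 2 hv)
      rw [h3]
      ring
    apply hinj
    rw [RingHom.map_det, map_neg, map_one]
    exact h4

end Pool.Agent.Lib.MP_8cb858_nt.SEL
end

section
/-!
# DRT: the roots of `X^3 + a X + b`
-/
namespace Pool.Agent.Lib.MP_8cb858_nt.PF

open Polynomial NumberField Pool.Agent.Lib.MP_8cb858_nt.SEL
open scoped Classical

namespace DRTM

theorem factor {K : Type} [Field K] {a b : K} {t : Fin 3 → K} (h : IsRoots a b t)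
    (x : K) : x ^ 3 + a * x + b = (x - t 0) * (x - t 1) * (x - t 2) := by
  have e1 := h.e1
  have e2 := h.e2
  have e3 := h.e3
  linear_combination x ^ 2 * e1 - x * e2 + e3

theorem root {K : Type} [Field K] {a b : K} {t : Fin 3 → K} (h : IsRoots a b t)
    (i : Fin 3) : t i ^ 3 + a * t i + b = 0 := by
  rw [factor h]
  fin_cases i <;> simp

theorem only {K : Type} [Field K] {a b : K} {t : Fin 3 → K} (h : IsRoots a b t)
    (x : K) (hx : x ^ 3 + a * x + b = 0) : ∃ i, x = t i := by
  rw [factor h] at hx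
  rcases mul_eq_zero.1 hx with h1 | h1
  · rcases mul_eq_zero.1 h1 with h2 | h2
    · exact ⟨0, sub_eq_zero.1 h2⟩
    · exact ⟨1, sub_eq_zero.1 h2⟩
  · exact ⟨2, sub_eq_zero.1 h1⟩

theorem act {K : Type} [Field K] {a b : K} {t : Fin 3 → K} (φ : K →+* K) (ha : φ a = a)
    (hb : φ b = b) (h : IsRoots a b t) (i : Fin 3) : ∃ k, φ (t i) = t k := by
  apply only h
  have := congrArg φ (root h i)
  simpa [ha, hb] using this

end DRTM

open DRTM in
theorem specDRT : SpecDRT where
  ex := by
    intro K _ _ _ a b h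
    exact BASM.exists_roots _ _ h
  rt := fun h i => root h i
  only := fun h x hx => only h x hx
  map := by
    intro K K' _ _ a b t φ h
    refine ⟨fun i j hij => h.inj (φ.injective hij), ?_, ?_, ?_⟩
    · have := congrArg φ h.e1
      simpa using this
    · have := congrArg φ h.e2
      simpa using this
    · have := congrArg φ h.e3
      simpa using this
  act := fun φ ha hb h i => act φ ha hb h i
  act' := by
    intro K _ a b t φ ha hb h k
    choose f hf using act φ ha hb h
    have hinj : Function.Injective f := by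
      intro i j hij
      apply h.inj
      apply φ.injective
      rw [hf, hf, hij]
    obtain ⟨i, hi⟩ := (Finite.injective_iff_surjective.1 hinj) k
    exact ⟨i, by rw [hf, hi]⟩
  perm := by
    intro K _ a b t t' h h'
    choose f hf using fun i => only h (t' i) (root h' i)
    have hinj : Function.Injective f := by
      intro i j hij
      apply h'.inj
      rw [hf, hf, hij]
    exact ⟨Equiv.ofBijective f ⟨hinj, Finite.injective_iff_surjective.1 hinj⟩, hf⟩
  scl := by
    intro F K _ _ _ a b D t hD h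
    have hD' : algebraMap F K D ≠ 0 := (_root_.map_ne_zero _).2 hD
    refine ⟨fun i j hij => h.inj (mul_left_cancel₀ hD' hij), ?_, ?_, ?_⟩
    · have e1 := h.e1
      show algebraMap F K D * t 0 + algebraMap F K D * t 1 + algebraMap F K D * t 2 = 0
      linear_combination (algebraMap F K D) * e1
    · have e2 := h.e2
      show algebraMap F K D * t 0 * (algebraMap F K D * t 1) +
        algebraMap F K D * t 0 * (algebraMap F K D * t 2) +
        algebraMap F K D * t 1 * (algebraMap F K D * t 2) = _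
      simp only [map_mul, map_pow]
      linear_combination (algebraMap F K D) ^ 2 * e2
    · have e3 := h.e3
      show algebraMap F K D * t 0 * (algebraMap F K D * t 1) * (algebraMap F K D * t 2) = _
      simp only [map_mul, map_pow]
      linear_combination (algebraMap F K D) ^ 3 * e3

end Pool.Agent.Lib.MP_8cb858_nt.PF
end

section
/-!
# DSG: signs of the 2-torsion points of `E^D`
-/
namespace Pool.Agent.Lib.MP_8cb858_nt.PF

open Polynomial NumberField IsDedekindDomain Pool.Agent.Lib.MP_8cb858_nt.SEL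
open scoped Classical

namespace DSGM

/-- a 2-torsion element is its own negative -/
theorem neg_self {M : Type} [AddCommGroup M] {S : M} (h : (2 : ℕ) • S = 0) : -S = S := by
  rw [two_nsmul] at h
  exact (eq_neg_of_add_eq_zero_left h).symm

theorem eq_of_add {M : Type} [AddCommGroup M] {S S' : M} (h : (2 : ℕ) • S' = 0)
    (h1 : S + S' = 0) : S = S' := by
  rw [eq_neg_of_add_eq_zero_left h1, neg_self h]

theorem two_add {M : Type} [AddCommGroup M] {S S' : M} (h : (2 : ℕ) • S = 0)
    (h' : (2 : ℕ) • S' = 0) : (2 : ℕ) • (S + S') = 0 := by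
  rw [nsmul_add, h, h', add_zero]

end DSGM

theorem specDSG (hDRT : SpecDRT) (hWEI : SpecWEI.{0}) (hPSH : SpecPSH.{0}) (hHAL : SpecHAL.{0}) :
    SpecDSG where
  mul := by
    intro F K _ _ _ _ a b D t hD ht S S' hS hS' i
    exact (hWEI F K _ _ _ (hDRT.scl hD ht)).1 S S' hS hS' i
  pm := by
    intro F K _ _ _ _ a b D t hD ht S hS
    exact (hWEI F K _ _ _ (hDRT.scl hD ht)).2.1 S hS
  inj := by
    intro F K _ _ _ _ a b D t hD ht S S' hS hS' h
    have h1 : ∀ S S' : Pt (cur a b D) K, (2 : ℕ) • S = 0 → (2 : ℕ) • S' = 0 →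
        ∀ i, sD t (S + S') i = sD t S i * sD t S' i := (hWEI F K _ _ _ (hDRT.scl hD ht)).1
    have h2 : ∀ S : Pt (cur a b D) K, (2 : ℕ) • S = 0 →
        (∀ i, sD t S i = 1 ∨ sD t S i = -1) ∧ sD t S 0 * sD t S 1 * sD t S 2 = 1 :=
      (hWEI F K _ _ _ (hDRT.scl hD ht)).2.1
    have h3 : ∀ S : Pt (cur a b D) K, (2 : ℕ) • S = 0 → (∀ i, sD t S i = 1) → S = 0 :=
      (hWEI F K _ _ _ (hDRT.scl hD ht)).2.2.1
    refine DSGM.eq_of_add hS' ?_
    refine h3 (S + S') (DSGM.two_add hS hS') fun i => ?_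
    rw [h1 S S' hS hS' i, h i]
    rcases (h2 S' hS').1 i with h5 | h5
    · rw [h5]; norm_num
    · rw [h5]; norm_num
  ex := by
    intro F K _ _ _ _ a b D t hD ht e he h1
    exact (hWEI F K _ _ _ (hDRT.scl hD ht)).2.2.2 e he h1
  push := by
    intro F K K' _ _ _ _ _ _ _ a b D t t' i hD ht ht' j k hjk S
    have h1 : i ((fun j => algebraMap F K D * t j) j) = (fun j => algebraMap F K' D * t' j) k := by
      show i (algebraMap F K D * t j) = algebraMap F K' D * t' k
      rw [map_mul, AlgHom.commutes, hjk]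
    exact (hPSH F K K' _ _ _ _ i (hDRT.scl hD ht) (hDRT.scl hD ht') j k h1).2 S
  hlf := by
    intro F K _ _ _ _ a b D t hD ht P S hS hP i
    exact (hHAL F K _ _ _ (hDRT.scl hD ht)).1 P S hS hP i

end Pool.Agent.Lib.MP_8cb858_nt.PF
end

section
/-!
# DSU: every cocycle comes from an element of the cubic algebra
-/
namespace Pool.Agent.Lib.MP_8cb858_nt.PF

open Polynomial NumberField Pool.Agent.Lib.MP_8cb858_nt.SEL
open scoped Classical

namespace DSUM

theorem exists_comb {K : Type} [Field K] [CharZero K] (Z : Matrix (Fin 3) (Fin 3) K)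
    (h : Z.det ≠ 0) : ∃ n : ℕ, ∀ i, ∑ j : Fin 3, Z i j * (n : K) ^ (j : ℕ) ≠ 0 := by
  let P : Fin 3 → K[X] := fun i => ∑ j : Fin 3, C (Z i j) * X ^ (j : ℕ)
  have hP : ∀ i, P i ≠ 0 := by
    intro i h0
    apply h
    apply Matrix.det_eq_zero_of_row_eq_zero i
    intro j
    have h1 : (P i).coeff (j : ℕ) = 0 := by rw [h0, coeff_zero]
    simp only [P, finsetSum_coeff, coeff_C_mul, coeff_X_pow] at h1
    rw [Finset.sum_eq_single j] at h1
    · simpa using h1
    · intro k _ hk
      rw [if_neg, mul_zero]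
      intro e
      exact hk (Fin.ext e.symm)
    · simp
  have hprod : (∏ i, P i) ≠ 0 := Finset.prod_ne_zero_iff.2 fun i _ => hP i
  by_contra hcon
  push Not at hcon
  apply hprod
  apply Polynomial.eq_zero_of_infinite_isRoot
  apply (Set.infinite_range_of_injective (Nat.cast_injective (R := K))).mono
  rintro _ ⟨n, rfl⟩
  obtain ⟨i, hi⟩ := hcon n
  show IsRoot _ _
  rw [IsRoot.def, eval_prod, Finset.prod_eq_zero_iff]
  refine ⟨i, Finset.mem_univ _, ?_⟩
  simp only [P, eval_finsetSum, eval_mul, eval_C, eval_pow, eval_X]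
  exact hi

end DSUM

open DSUM in
theorem specDSU (hDRT : SpecDRT) (hDIT : SpecDIT) (hDSG : SpecDSG) (hDES : SpecDES.{0})
    (hFXD : SpecFXD.{0}) : SpecDSU := by
  intro F _ _ a b D c hd hD hc h2
  obtain ⟨t, ht⟩ := hDRT.ex (K := AlgebraicClosure F) (a := algebraMap F (AlgebraicClosure F) a)
    (b := algebraMap F (AlgebraicClosure F) b) (by
      intro h0
      apply hd
      apply (algebraMap F (AlgebraicClosure F)).injective
      rw [map_zero, ← h0]
      simp only [dsc, map_add, map_mul, map_pow, map_ofNat])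
  have ht' := hDRT.scl hD ht
  obtain ⟨Z, hZ1, hZ2⟩ := hDES F _ _ (fun j => algebraMap F (AlgebraicClosure F) D * t j) c ht' hc h2
  obtain ⟨n, hn⟩ := exists_comb Z hZ1
  set s : Fin 3 → AlgebraicClosure F := fun i => ∑ j : Fin 3, Z i j * (n : AlgebraicClosure F) ^ (j : ℕ)
    with hs
  have hsig : ∀ (σ : Gal F) (i k : Fin 3), σ (t i) = t k →
      σ (s i) = (sD t (c σ) k : AlgebraicClosure F) * s k := by
    intro σ i k hik
    simp only [hs, map_sum, map_mul, map_pow, map_natCast, Finset.mul_sum]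
    refine Finset.sum_congr rfl fun j _ => ?_
    rw [hZ2 σ i k j (by
      show σ (algebraMap F (AlgebraicClosure F) D * t i) = algebraMap F (AlgebraicClosure F) D * t k
      rw [map_mul, σ.commutes, hik]), sD, mul_assoc]
    rfl
  have hsq : ∀ (σ : Gal F) (k : Fin 3), (sD t (c σ) k : AlgebraicClosure F) ^ 2 = 1 := by
    intro σ k
    rcases (hDSG.pm hD ht (c σ) (h2 σ)).1 k with h | h <;> rw [h] <;> norm_num
  obtain ⟨α, hα⟩ := hDIT.ex ht (fun i => s i ^ 2) (by
    intro σ i k hik
    rw [map_pow, hsig σ i k hik, mul_pow, hsq, one_mul])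
  have hα' : ∀ i, ev (algebraMap F (AlgebraicClosure F)) (t i) α = s i ^ 2 := by
    intro i
    rw [← hα i]
  have hunit : IsUnit α := by
    rw [hDIT.unit (algebraMap F (AlgebraicClosure F)) ht α]
    intro i
    rw [hα']
    exact pow_ne_zero 2 (hn i)
  refine ⟨α, ⟨hunit, ?_⟩, t, s, ht, fun i => ⟨hn i, (hα' i).symm⟩, hsig⟩
  have hw : ∀ σ : Gal F, σ (s 0 * s 1 * s 2) = s 0 * s 1 * s 2 := by
    intro σ
    choose f hf using fun i => hDRT.act (σ : AlgebraicClosure F →+* AlgebraicClosure F)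
      (σ.commutes a) (σ.commutes b) ht i
    have hinj : Function.Injective f := by
      intro i j hij
      apply ht.inj
      apply (σ : AlgebraicClosure F →+* AlgebraicClosure F).injective
      rw [hf, hf, hij]
    have hbij : Function.Bijective f := ⟨hinj, Finite.injective_iff_surjective.1 hinj⟩
    have h1 : ∏ i, σ (s i) = ∏ i, ((sD t (c σ) (f i) : AlgebraicClosure F) * s (f i)) :=
      Finset.prod_congr rfl fun i _ => hsig σ i (f i) (hf i)
    have h3 := hbij.prod_comp (fun k => (sD t (c σ) k : AlgebraicClosure F) * s k)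
    rw [h3, Finset.prod_mul_distrib] at h1
    have h4 : ∏ k, (sD t (c σ) k : AlgebraicClosure F) = 1 := by
      rw [Fin.prod_univ_three]
      exact_mod_cast (hDSG.pm hD ht (c σ) (h2 σ)).2
    rw [h4, one_mul] at h1
    simp only [Fin.prod_univ_three] at h1
    simp only [map_mul]
    exact h1
  obtain ⟨w, hw1⟩ := hFXD F _ hw
  have hw' : algebraMap F (AlgebraicClosure F) w = s 0 * s 1 * s 2 := hw1
  refine ⟨w, ?_⟩
  apply (algebraMap F (AlgebraicClosure F)).injective
  rw [hDIT.nrm _ ht, hα', hα', hα', map_mul, hw']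
  ring

end Pool.Agent.Lib.MP_8cb858_nt.PF
end

section
/-! # DUN: the class in the cubic algebra determines the class of the cocycle -/
namespace Pool.Agent.Lib.MP_8cb858_nt.PF

open Polynomial NumberField IsDedekindDomain Pool.Agent.Lib.MP_8cb858_nt.SEL
open scoped Classical

theorem DUNM.sgn {K : Type} [Field K] {a b : K} (h : a ^ 2 = b ^ 2) :
    ∃ e : ℤ, (e = 1 ∨ e = -1) ∧ a = (e : K) * b := by
  rcases sq_eq_sq_iff_eq_or_eq_neg.1 h with h | h
  · exact ⟨1, Or.inl rfl, by simp [h]⟩
  · exact ⟨-1, Or.inr rfl, by simp [h]⟩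

theorem DUNM.sq1 {e : ℤ} (h : e = 1 ∨ e = -1) : e * e = 1 := by
  rcases h with h | h <;> simp [h]

/-- The statement over any field `K` with an action of the automorphism group. -/
theorem DUNM.main (hDRT : SpecDRT) (hDSG : SpecDSG) {F K : Type} [Field F] [Field K] [CharZero K]
    [Algebra F K] {a b D : F} (hD : D ≠ 0) {t s s' : Fin 3 → K}
    (ht : IsRoots (algebraMap F K a) (algebraMap F K b) t)
    (hs0 : ∀ i, s i ≠ 0) (hss : ∀ i, s' i ^ 2 = s i ^ 2)
    (c c' : (K ≃ₐ[F] K) → Pt (cur a b D) K) (hc : ∀ σ, (2 : ℕ) • c σ = 0)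
    (hc' : ∀ σ, (2 : ℕ) • c' σ = 0)
    (hσ : ∀ (σ : K ≃ₐ[F] K) (i k : Fin 3), σ (t i) = t k → σ (s i) = (sD t (c σ) k : K) * s k)
    (hσ' : ∀ (σ : K ≃ₐ[F] K) (i k : Fin 3), σ (t i) = t k →
      σ (s' i) = (sD t (c' σ) k : K) * s' k) :
    ∃ T : Pt (cur a b D) K, (2 : ℕ) • T = 0 ∧
      ∀ σ : K ≃ₐ[F] K, c σ - c' σ = push (cur a b D) (σ : K →ₐ[F] K) T - T := by
  have he : ∀ i, ∃ e : ℤ, (e = 1 ∨ e = -1) ∧ s' i = (e : K) * s i := fun i => DUNM.sgn (hss i)
  choose e he1 he2 using he
  have hee : ∀ i, e i * e i = 1 := fun i => DUNM.sq1 (he1 i)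
  obtain ⟨T, hT2, hTe⟩ := hDSG.ex (K := K) hD ht
    (fun i => e 0 * e 1 * e 2 * e i) (fun i => by
      rcases he1 0 with h0 | h0 <;> rcases he1 1 with h1 | h1 <;> rcases he1 2 with h2 | h2 <;>
        rcases he1 i with h3 | h3 <;> simp [h0, h1, h2, h3]) (by
      rcases he1 0 with h0 | h0 <;> rcases he1 1 with h1 | h1 <;> rcases he1 2 with h2 | h2 <;>
        simp [h0, h1, h2])
  refine ⟨T, hT2, fun σ => ?_⟩
  have hσT : (2 : ℕ) • push (cur a b D) (σ : K →ₐ[F] K) T = 0 := by
    rw [← map_nsmul, hT2, map_zero]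
  have key : c σ + c' σ = push (cur a b D) (σ : K →ₐ[F] K) T + T := by
    refine hDSG.inj hD ht _ _ ?_ ?_ ?_
    · rw [nsmul_add, hc, hc', add_zero]
    · rw [nsmul_add, hσT, hT2, add_zero]
    · intro k
      obtain ⟨j, hj⟩ := hDRT.act' ((σ : K →ₐ[F] K) : K →+* K) (σ.commutes a) (σ.commutes b) ht k
      have hj' : σ (t j) = t k := hj
      rw [hDSG.mul hD ht _ _ (hc σ) (hc' σ), hDSG.mul hD ht _ _ hσT hT2,
        (hDSG.push (σ : K →ₐ[F] K) hD ht ht j k hj' T).1, hTe, hTe]
      have h1 := hσ σ j k hj'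
      have h2 := hσ' σ j k hj'
      rw [he2 j, he2 k, map_mul, map_intCast, h1] at h2
      have h3 : ((e j * sD t (c σ) k : ℤ) : K) = ((sD t (c' σ) k * e k : ℤ) : K) := by
        apply mul_right_cancel₀ (hs0 k)
        push_cast
        rw [mul_assoc, h2, mul_assoc]
      have h4 : e j * sD t (c σ) k = sD t (c' σ) k * e k := by exact_mod_cast h3
      have h5 := DUNM.sq1 ((hDSG.pm hD ht (c σ) (hc σ)).1 k)
      have h6 := hee k
      have h8 := hee 0
      have h9 := hee 1
      have h10 := hee 2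
      have h11 : sD t (c' σ) k = e j * sD t (c σ) k * e k := by
        rw [h4, mul_assoc, h6, mul_one]
      rw [h11]
      calc sD t (c σ) k * (e j * sD t (c σ) k * e k)
          = (sD t (c σ) k * sD t (c σ) k) * (e j * e k) := by ring
        _ = e j * e k := by rw [h5, one_mul]
        _ = (e 0 * e 0) * (e 1 * e 1) * (e 2 * e 2) * (e j * e k) := by
            rw [h8, h9, h10]; ring
        _ = _ := by ring
  have h1 : -(c' σ) = c' σ := by
    rw [neg_eq_iff_add_eq_zero, ← two_nsmul, hc']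
  have h2 : -T = T := by
    rw [neg_eq_iff_add_eq_zero, ← two_nsmul, hT2]
  rw [sub_eq_add_neg, sub_eq_add_neg, h1, h2, key]

theorem specDUN (hDRT : SpecDRT) (hDRO : SpecDRO) (hDSG : SpecDSG) : SpecDUN := by
  intro F _ _ a b D α c c' hD hc hc' hR hR'
  obtain ⟨t, s, ht, hs, hσ⟩ := hR
  obtain ⟨s', hs', hσ'⟩ := hDRO F a b D α c' hR' t ht
  exact DUNM.main hDRT hDSG hD ht (fun i => (hs i).1) (fun i => by rw [(hs' i).2, (hs i).2])
    c c' hc hc' hσ hσ'

end Pool.Agent.Lib.MP_8cb858_nt.PF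
end
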