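import Pool.Agent.Lib.MP_8cb858_nt.PF.SpecB

/-!
# Specs, part A (every number field): the cubic algebra, local fields, counting local classes

Notation in the doc strings: `f = X^3 + a X + b`, `L_R = R[X]/(f) = Lk a b`, `θ = th a b`,
`N` = `Algebra.norm`, `D' = dsc a b = 4a^3+27b^2` (so `disc f = - D'`), `f' = 3X^2 + a`, `λ = cf 2`
(the coefficient of `θ^2`). `(K, w)` is an abstract local field, `O = {w ≤ 1}`, `m = {w < 1}`, `ϖ` an
element with `w ϖ = exp (-1)`, `e` the natural number with `w 2 = exp (-e)` (`char K = 0`),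
`L = L_K`; `L_O` = the elements with `Itg w` (integral coordinates; a subring if `a, b` are in `O`).
Most Specs are ports of Specs of `PR/SpecA.lean` (proved in `PR/*.lean`, theorems in `PR/AllB.lean`):
`ℚ_[p]` becomes `K`, `ℤ_[p]` becomes `O`, `p` becomes `ϖ`.
-/

namespace Pool.Agent.Lib.MP_8cb858_nt.PF

open Polynomial NumberField IsDedekindDomain Pool.Agent.Lib.MP_8cb858_nt.SEL
open scoped Classical WithZero

/-! ## A1. Coordinates (see also `SpecO.lean`: COO EVA NRM INV AFI HYF) -/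

/-- **ADJ.** Additions to part O.
Proof. `comp`: COO `ext`, `upv`. `adj`: COO `mul` and NRM `frm` (expand; checked). `one`: `λ(ξ^2) = 0` for
`ξ = 1 ≠ 0`. `nz`: `1 ≠ 0` (COO `co`). -/
structure SpecADJ : Prop where
  comp : ∀ {R S T : Type} [CommRing R] [CommRing S] [CommRing T] {a b : R} (φ : R →+* S)
    (ψ : S →+* T) (α : Lk a b), upr ψ (φ a) (φ b) (upr φ a b α) = upr (ψ.comp φ) a b α
  adj : ∀ {R : Type} [CommRing R] {a b : R} (x y z : R),
    el a b x y z * el a b ((x - a * z) ^ 2 + y * (b * z + a * y)) (-(x * y) - b * z ^ 2)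
      (y ^ 2 - z * (x - a * z)) = AdjoinRoot.of _ (Algebra.norm R (el a b x y z))
  one : ∀ {K : Type} [Field K] {a b : K}, Iso (1 : Lk a b)

/-! ## A2. Local fields -/

/-- **LFB.** Basic facts (see also VAL in `SpecB.lean`).
Proof. `ring`: `Itg` is closed under `+`, `*` (COO `mul`, `a`, `b` in `O`) and contains `θ` and `O`. `uni`: if
`h h' = 1`, both integral, `w(N h) w(N h') = 1`, both `≤ 1`; conversely the element
`adj / N h` (ADJ `adj`) has integral coordinates. `evu`: `g = 1`. `fin`: `O/ϖ^n O` is finite (by induction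
from the residue field: `ϖ^n O/ϖ^(n+1) O ≅ O/m`): a finite set of representatives. `two`: `two w` is
the number of elements of `O/2O`, finite and positive: representatives. -/
structure SpecLFB : Prop where
  ring : ∀ {K : Type} [Field K] {w : Valuation K ℤᵐ⁰} {a b : K}, w a ≤ 1 → w b ≤ 1 →
    (∀ g h : Lk a b, Itg w g → Itg w h → Itg w (g + h) ∧ Itg w (g * h) ∧ Itg w (-g)) ∧
    Itg w (1 : Lk a b) ∧ Itg w (th a b) ∧
    (∀ x : K, w x ≤ 1 → Itg w (AdjoinRoot.of (fpol a b) x)) ∧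
    (∀ h : Lk a b, Itg w h → w (Algebra.norm K h) ≤ 1)
  uni : ∀ {K : Type} [Field K] {w : Valuation K ℤᵐ⁰} {a b : K} (h : Lk a b), w a ≤ 1 → w b ≤ 1 →
    Itg w h → ((∃ h' : Lk a b, Itg w h' ∧ h * h' = 1) ↔ w (Algebra.norm K h) = 1)
  evu : ∀ {K : Type} [Field K] {w : Valuation K ℤᵐ⁰} {a b : K} (h : Lk a b), w a ≤ 1 → w b ≤ 1 →
    Itg w h → w (Algebra.norm K h) = 1 → IsUnit h ∧ Ev w h
  fin : ∀ {K : Type} [Field K] {w : Valuation K ℤᵐ⁰}, IsLF w → ∀ n : ℕ, ∃ s : Finset K,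
    ∀ x : K, w x ≤ 1 → ∃ y ∈ s, w (x - y) ≤ WithZero.exp (-(n : ℤ))
  two : ∀ {K : Type} [Field K] [CharZero K] {w : Valuation K ℤᵐ⁰}, IsLF w → 0 < two w ∧
    (w 2 = 1 → two w = 1) ∧ ∃ c : Fin (two w) → K, (∀ i, w (c i) ≤ 1) ∧
    (∀ i j, w (c i - c j) ≤ w 2 → i = j) ∧ ∀ x : K, w x ≤ 1 → ∃ i, w (x - c i) ≤ w 2

/-- **HNA.** Squares near 1 (see also HNS in `SpecB.lean`).
Proof. `sq`: solve `y^2 + y = z` by iteration `y ↦ z - y^2` starting with `0`, in `L_K` (coordinates, COO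
`mul`; all iterates have coordinates `≤ exp(-k)`; differences: `-(y-y')(y+y')` gains a factor `exp(-k)`, so
the `n`-th difference has coordinates `≤ exp(-n)`); `IsLF.comp` for the coordinates; then
`(1+2y)^2 = 1 + 4(y^2+y)`. `one` = the same in `K` (`w y ≤ w z` as `y = z - y^2`). -/
structure SpecHNA : Prop where
  sq : ∀ {K : Type} [Field K] [CharZero K] {w : Valuation K ℤᵐ⁰} {a b : K} (z : Lk a b) (k : ℕ),
    IsLF w → w a ≤ 1 → w b ≤ 1 → 1 ≤ k → (∀ i, w (cf i z) ≤ WithZero.exp (-(k : ℤ))) →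
    ∃ y : Lk a b, (∀ i, w (cf i y) ≤ WithZero.exp (-(k : ℤ))) ∧ (1 + 2 * y) ^ 2 = 1 + 4 * z
  one : ∀ {K : Type} [Field K] [CharZero K] {w : Valuation K ℤᵐ⁰} (z : K), IsLF w → w z < 1 →
    ∃ y : K, w y ≤ w z ∧ (1 + 2 * y) ^ 2 = 1 + 4 * z

/-- **SCL.** Scaling. Every `α ≠ 0` is `ϖ^n h` with `h` integral and primitive; if `f` has no root
modulo `m`, then `w(N h) = 1`.
Proof. First part: coordinates, take out the largest valuation. Second part: reduce modulo `m` to the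
residue field `k`: `f mod m` is a cubic polynomial without root (T3: a root in `k` lifts to `x` in `O`
with `w(f(x)) < 1`), so irreducible, `L_k` is a field, the reduction of `h` is not zero, so a unit, and its
norm is the reduction of `N h` (NRM `bc` for `O → k` and `O → K`). (Or by hand: the resultant.) -/
def SpecSCL : Prop :=
  ∀ (K : Type) [Field K] (w : Valuation K ℤᵐ⁰) (a b ϖ : K) (α : Lk a b),
    w ϖ = WithZero.exp (-1 : ℤ) → w a ≤ 1 → w b ≤ 1 → α ≠ 0 →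
    ∃ (n : ℤ) (h : Lk a b), α = AdjoinRoot.of _ (ϖ ^ n) * h ∧ Itg w h ∧ (∃ i, w (cf i h) = 1) ∧
      (T3 w a b → w (Algebra.norm K h) = 1)

/-- **EVI.** If `f` has no root modulo `m` then all classes are unit classes.
Proof. SCL: `α = ϖ^n h`; `N α = ϖ^{3n} N h` is a square, `w(N h) = 1`, so `3 n` is even, `n = 2 k`; take
`g = ϖ^{-k}`, and `h'` from LFB `uni`. -/
def SpecEVI : Prop :=
  ∀ (K : Type) [Field K] (w : Valuation K ℤᵐ⁰) (a b : K) (α : Lk a b), IsLF w →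
    w a ≤ 1 → w b ≤ 1 → T3 w a b → InV α → Ev w α

/-- **RTS.** Roots when `w(D') ≥ exp(-1)` (port of `PR/RTS.lean`).
Proof. Identity: with `F = x^3 + a x + b`, `G = 3 x^2 + a`:
`D' = 27 F^2 - 54 F G x + 108 F x^3 + G^2 (4 G - 36 x^2 + 27 x^2)`. So `w(G(x)) < 1` and
`w(F(x)) ≤ exp(-2)` would give `w(D') ≤ exp(-2)`. (1) If `w(f(x)) ≤ exp(-2)` then `w(f'(x)) = 1`;
Hensel (HNS `cub`): a root `t` with `w(x-t) < 1`, and `f(x) = (x-t) u`,
`u = x^2+xt+t^2+a`, `w(u - f'(t)) < 1`. (2) every root `t` in `K` is in `O` and has `w(f'(t)) = 1`. -/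
def SpecRTS : Prop :=
  ∀ (K : Type) [Field K] [CharZero K] (w : Valuation K ℤᵐ⁰) (a b : K), IsLF w →
    w a ≤ 1 → w b ≤ 1 → WithZero.exp (-1 : ℤ) ≤ w (dsc a b) →
    (∀ x : K, w x ≤ 1 → w (x ^ 3 + a * x + b) ≤ WithZero.exp (-2 : ℤ) →
      ∃ t u : K, w t ≤ 1 ∧ t ^ 3 + a * t + b = 0 ∧ w (x - t) < 1 ∧ w u = 1 ∧
        x ^ 3 + a * x + b = (x - t) * u) ∧
    (∀ t : K, t ^ 3 + a * t + b = 0 → w t ≤ 1 ∧ w (3 * t ^ 2 + a) = 1)

/-- **IDM.** The idempotent of a root (port of `PR/IDM.lean`; `p` becomes `ϖ`). Let `t` be a root with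
`w(f'(t)) = 1`, `x` in `O` with `x - t = ϖ^(2k) u`, `k > 0`. Then `x - θ` is a unit class.
Proof. `ε = (θ^2 + t θ + t^2 + a)/f'(t)`, `ε^2 = ε`, `(θ-t) ε = 0`;
`g = ϖ^{-k} ε + (1 - ε)`, `(x - θ) g^2 = u ε + (x - θ)(1 - ε)` is integral with norm of `w = 1`. -/
def SpecIDM : Prop :=
  ∀ (K : Type) [Field K] [CharZero K] (w : Valuation K ℤᵐ⁰) (a b t x ϖ u : K) (k : ℕ),
    w ϖ = WithZero.exp (-1 : ℤ) → w a ≤ 1 → w b ≤ 1 → w t ≤ 1 → w x ≤ 1 → w u = 1 →
    t ^ 3 + a * t + b = 0 → w (3 * t ^ 2 + a) = 1 → x - t = ϖ ^ (2 * k) * u → 0 < k →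
    Ev w (AdjoinRoot.of (fpol a b) x - th a b)

/-- **LG1.** Kummer classes are unit classes: odd residue characteristic, `w(D') ≥ exp(-1)`, `D` a
unit (port of `PR/LG1.lean`, same three cases). -/
def SpecLG1 : Prop :=
  ∀ (K : Type) [Field K] [CharZero K] (w : Valuation K ℤᵐ⁰) (a b D : K) (α : Lk a b), IsLF w →
    w 2 = 1 → w a ≤ 1 → w b ≤ 1 → WithZero.exp (-1 : ℤ) ≤ w (dsc a b) → w D = 1 → InV α →
    Aff D α → Ev w α

-- **LZ** (`Top.lean`; port of `PR/AFO.lean`). Proof. Let `x = D ζ^{-2}` with `ζ = ϖ^n`, `n` large.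
-- `D f(x) = D^4 ζ^{-6} (1 + a ζ^4/D^2 + b ζ^6/D^3)` and the bracket is the square of a nonzero element (it is
-- `1 + 4 z`, `w z < 1`, HNA `one`); `D (x - θ) = D^2 ζ^{-2} (1 - ζ^2 θ/D)`, and `1 - ζ^2 θ/D = 1 + 4 z`, all
-- coordinates of `z` in `m`: a square by HNA `sq`. But here `a`, `b` are arbitrary in `K`: choose `c` in `K`
-- with `a c^2, b c^3` in `O` and transport by the isomorphism of TWD (`D := c`), or take `z` so small that the
-- iteration of HNA converges (coordinates bounded by `exp(-n)`, structure constants bounded by `w a, w b`).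
-- Module **LZF**: `theorem specLZF (h..) : SpecLZ`.

-- **SQ2** (`Top.lean`). Proof. `m = 1 + 8 t = 1 + 4 (2 t)`, `w(2t) ≤ w 2 < 1`: HNA `one`.
-- Module **SQF**: `theorem specSQF (h..) : SpecSQ2`.

/-! ## A3. Explicit 2-descent over a field -/

/-- **HLV.** Explicit halving (port of `PR/HLV.lean`). -/
def SpecHLV : Prop :=
  ∀ (K : Type) [Field K] [CharZero K] (a b : K), dsc a b ≠ 0 → ∀ (x y : K)
    (h : ((curve a b).baseChange K).toAffine.Nonsingular x y),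
    IsSquare (AdjoinRoot.of (fpol a b) x - th a b) →
    ∃ S : Pt (curve a b) K, (2 : ℕ) • S = WeierstrassCurve.Affine.Point.some x y h

/-- **DSQ.** The Kummer map is injective (port of `PR/DSQ.lean`). -/
def SpecDSQ : Prop :=
  ∀ (K : Type) [Field K] [CharZero K] (a b : K), dsc a b ≠ 0 → ∀ (x₁ y₁ x₂ y₂ : K)
    (h₁ : ((curve a b).baseChange K).toAffine.Nonsingular x₁ y₁)
    (h₂ : ((curve a b).baseChange K).toAffine.Nonsingular x₂ y₂),
    y₁ ≠ 0 → y₂ ≠ 0 →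
    IsSquare ((AdjoinRoot.of (fpol a b) x₁ - th a b) * (AdjoinRoot.of _ x₂ - th a b)) →
    ∃ S : Pt (curve a b) K, WeierstrassCurve.Affine.Point.some x₁ y₁ h₁ -
      WeierstrassCurve.Affine.Point.some x₂ y₂ h₂ = (2 : ℕ) • S

/-- **CLN.** Collinear points (port of `PR/CLN.lean`). -/
def SpecCLN : Prop :=
  ∀ (K : Type) [Field K] [CharZero K] (a b D : K), D ≠ 0 → (∀ x : K, x ^ 3 + a * x + b ≠ 0) →
    ∀ x₁ y₁ x₂ y₂ : K, x₁ ≠ x₂ → y₁ ^ 2 = D * (x₁ ^ 3 + a * x₁ + b) →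
    y₂ ^ 2 = D * (x₂ ^ 3 + a * x₂ + b) → ∃ x₃ y₃ : K, y₃ ≠ 0 ∧
      y₃ ^ 2 = D * (x₃ ^ 3 + a * x₃ + b) ∧
      IsSquare ((AdjoinRoot.of (fpol a b) D * (AdjoinRoot.of _ x₁ - th a b)) *
        (AdjoinRoot.of _ D * (AdjoinRoot.of _ x₂ - th a b)) *
        (AdjoinRoot.of _ D * (AdjoinRoot.of _ x₃ - th a b)))

/-- **AFM.** `Aff 1` is closed under multiplication if `f` has no root (port of `PR/AFM.lean`).
Proof. Points `(x₁, y₁)`, `(x₂, y₂)`, `β_i = x_i - θ`. If `x₁ = x₂` then `α α'` is a square: LZ. Otherwise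
CLN gives `(x₃, y₃)` and `α α' β₃ (β₁ β₂)^2` is a square. -/
def SpecAFM : Prop :=
  ∀ (K : Type) [Field K] [CharZero K] (w : Valuation K ℤᵐ⁰) (a b : K) (α α' : Lk a b), IsLF w →
    (∀ x : K, x ^ 3 + a * x + b ≠ 0) → InV α → InV α' → Aff 1 α → Aff 1 α' → Aff 1 (α * α')

/-- **TWD.** Reduction to `D = 1` (port of `PR/TWD.lean`). `κ(x + yθ + zθ^2) = x + (y/D) θ' + (z/D^2) θ'^2`.
The last part: if `w D = 1`, `κ` respects `Itg`. -/
def SpecTWD : Prop :=
  (∀ (K : Type) [Field K] (a b D : K), D ≠ 0 →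
    ∃ κ : Lk a b ≃+* Lk (a * D ^ 2) (b * D ^ 3),
      (∀ α, InV (κ α) ↔ InV α) ∧ (∀ α, Aff 1 (κ α) ↔ Aff D α) ∧
      (∀ α, IsSquare (κ α) ↔ IsSquare α) ∧
      ∀ w : Valuation K ℤᵐ⁰, w D = 1 → ∀ α, (Itg w (κ α) ↔ Itg w α) ∧ (Ev w (κ α) ↔ Ev w α)) ∧
  ∀ (R : Type) [CommRing R] (a b D : R), dsc (a * D ^ 2) (b * D ^ 3) = D ^ 6 * dsc a b

/-- **TWT.** Elements `β` of `L_K` with `β^2 = 1`, `N β = 1`, `β ≠ 1` correspond to roots (port of
`PR/TWT.lean`). -/
def SpecTWT : Prop :=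
  ∀ (K : Type) [Field K] [CharZero K] (a b : K), dsc a b ≠ 0 → ∀ (m : ℕ) (β : Fin m → Lk a b),
    Function.Injective β → (∀ i, β i ^ 2 = 1 ∧ Algebra.norm K (β i) = 1 ∧ β i ≠ 1) →
    ∃ t : Fin m → K, Function.Injective t ∧ ∀ i, t i ^ 3 + a * t i + b = 0

/-! ## A4. Group theory -/

/-- **HQ.** The Herbrand quotient. `A` abelian, `B` of finite index.
Proof. Everything in terms of finite indices: `[A:2B] = [A:B][B:2B] = [A:2A][2A:2B]`, and the map
`A → 2A/2B`, `x ↦ 2x`, is onto with kernel `B + A[2]`, so `[2A:2B] = [A : B + A[2]]` and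
`[A:B] = [A : B + A[2]] [B + A[2] : B]`, `(B + A[2])/B ≅ A[2]/B[2]`. (1) If `B[2] = 0`, `B` has `c` elements
pairwise different modulo `2B`, `A[2]` has `n` elements: then `A` has `c n` elements pairwise different
modulo `2A`: if `A/2A` is infinite this is clear; otherwise `[A:2B]` is finite (`[2A:2B] ≤ [A:B]`), and
`[A:2A] = [B:2B] #A[2] ≥ c n` (`A[2]` is finite because it injects into `A/B`). (2) If `B = ∪ (c_i + 2B)`,
`i < M`, and `A` has `N` elements pairwise different modulo `2A`, then there are `n` elements of `A[2]`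
with `N ≤ M n`: if `A[2]` is infinite take `n = N`; otherwise `[A:2A] #B[2] = [B:2B] #A[2]`, so
`N ≤ [A:2A] ≤ M #A[2]`; take `n = #A[2]`. -/
def SpecHQ : Prop :=
  (∀ (A : Type) [AddCommGroup A] (B : AddSubgroup A) (c n : ℕ) (s : Fin c → A) (T : Fin n → A),
    B.FiniteIndex → (∀ x ∈ B, (2 : ℕ) • x = 0 → x = 0) → (∀ i, s i ∈ B) →
    (∀ i j, i ≠ j → ∀ x ∈ B, s i - s j ≠ (2 : ℕ) • x) →
    Function.Injective T → (∀ i, (2 : ℕ) • T i = 0) →
    ∃ g : Fin (c * n) → A, ∀ i j, i ≠ j → ∀ x : A, g i - g j ≠ (2 : ℕ) • x) ∧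
  (∀ (A : Type) [AddCommGroup A] (B : AddSubgroup A) (M N : ℕ) (s : Fin M → A) (g : Fin N → A),
    B.FiniteIndex → (∀ x ∈ B, ∃ i, ∃ y ∈ B, x = s i + (2 : ℕ) • y) →
    (∀ i j, i ≠ j → ∀ x : A, g i - g j ≠ (2 : ℕ) • x) →
    ∃ (n : ℕ) (T : Fin n → A), Function.Injective T ∧ (∀ i, (2 : ℕ) • T i = 0) ∧ N ≤ M * n)

/-! ## A5. The number of Kummer classes -/

/-- The coordinate `z = x / y`. -/
noncomputable def pz {K : Type} [Field K] {a b : K} (P : Pt (curve a b) K) : K :=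
  match P with
  | .zero => 0
  | .some x y _ => x / y

/-- The points of level `n`: the origin and the points with `w x ≥ exp (2n)`. -/
def En {K : Type} [Field K] (w : Valuation K ℤᵐ⁰) {a b : K} (n : ℕ) (P : Pt (curve a b) K) : Prop :=
  match P with
  | .zero => True
  | .some x _ _ => WithZero.exp (2 * (n : ℤ)) ≤ w x

/-- **SUX.** The size of the x-coordinate of a sum. `P₁, P₂` in `E_1`, `P₁ + P₂ ≠ 0`, all nonzero: then
`w(x(P₁+P₂)) = w(z₁ + z₂)^{-2}` (written without inverses).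
Proof. `s_i = y_i/x_i` (`x_i, y_i ≠ 0`), `z_i = 1/s_i`. From `y^2 = x^3+ax+b`:
`s_i^2 = x_i + a/x_i + b/x_i^2`; `w(x_i) = w(s_i)^2`; `w(x_i) > 1` implies `w(s_i) > 1`. Hence
`s_1^2 - s_2^2 = (x_1 - x_2) u`, `u = 1 - a/(x_1x_2) - b(x_1+x_2)/(x_1x_2)^2`, `w u = 1`. Let `l` be the slope
(chord if `x_1 ≠ x_2`, tangent if `P_1 = P_2`; `P_1 ≠ - P_2`). Claim `l = s_1 + x_2 u/(s_1+s_2)` (`s_1+s_2 ≠ 0`:
otherwise `x_1 = x_2` by the displayed formula and `y_1 = - y_2`, `P_1 = -P_2`). Chord: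
`y_1 - y_2 = s_1x_1 - s_2x_2 = s_1(x_1-x_2) + x_2(s_1-s_2)`. Tangent: `s + x u/(2s) =
(2s^2 + x - a/x - 2b/x^2)/(2s) = (3x + a/x)/(2s) = (3x^2+a)/(2y)`. So, with `S = s_1+s_2`,
`l S = T - η`, `T = s_1^2+s_1s_2+s_2^2`, `η = s_2^2 - x_2 u = (a/x_2 + b/x_2^2) + (a/x_1 + b(x_1+x_2)/(x_1^2x_2))`, `w η < 1`, precisely
`w η ≤ max(w(1/x_1), w(1/x_2))`. `x_3 = l^2 - x_1 - x_2` gives, with `ε_i = a/x_i + b/x_i^2`,
`x_3 S^2 = (T-η)^2 - (s_1^2+s_2^2-ε_1-ε_2) S^2 = (s_1s_2)^2 - 2Tη + η^2 + (ε_1+ε_2) S^2`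
(`T^2 - (s_1^2+s_2^2)S^2 = (s_1s_2)^2`). The last terms are smaller: with `M = max w(s_i)`,
`μ = min w(s_i) > 1`: they are `≤ M^2 μ^{-2}` and `w(s_1s_2)^2 = M^2 μ^2`. So
`w(x_3) w(S)^2 = w(s_1s_2)^2`, and `z_1+z_2 = S/(s_1s_2)`. -/
def SpecSUX : Prop :=
  ∀ (K : Type) [Field K] [CharZero K] (w : Valuation K ℤᵐ⁰) (a b : K) (x₁ y₁ x₂ y₂ x₃ y₃ : K)
    (h₁ : ((curve a b).baseChange K).toAffine.Nonsingular x₁ y₁)
    (h₂ : ((curve a b).baseChange K).toAffine.Nonsingular x₂ y₂)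
    (h₃ : ((curve a b).baseChange K).toAffine.Nonsingular x₃ y₃), w a ≤ 1 → w b ≤ 1 →
    1 < w x₁ → 1 < w x₂ →
    WeierstrassCurve.Affine.Point.some x₁ y₁ h₁ + WeierstrassCurve.Affine.Point.some x₂ y₂ h₂ =
      WeierstrassCurve.Affine.Point.some x₃ y₃ h₃ →
    y₁ ≠ 0 ∧ y₂ ≠ 0 ∧ w x₃ * w (x₁ / y₁ + x₂ / y₂) ^ 2 = 1

/-- **ENG.** The groups `E_n`, `n ≥ 1`.
Proof. For `P = (x,y)` with `w x > 1`: `w(y)^2 = w(x)^3`, so `w x = exp(2m)`, `w y = exp(3m)`,
`w(z) = exp(-m)`, `m ≥ 1`, and `P` is in `E_n` iff `w(z) ≤ exp(-n)` (`n ≥ 1`). (1) subgroup: SUX, and `-P`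
has the same `x`. (2) `P - Q` in `E_k` iff `w(z_P - z_Q) ≤ exp(-k)` for `P, Q` in `E_1`, `k ≥ 1`
(SUX for `P, -Q`; trivial cases `P = Q`, `P = 0`, `Q = 0`; if `z_P = z_Q` then `P - Q = 0`, because otherwise SUX
gives `w(x_3)·0 = 1`). So for `P = Q` in `E_n`: `w(z(2P))`-part: `2P = P - (-P)` in `E_{n+e}`. (3) no 2-torsion in
`E_1`: `y ≠ 0` by SUX or `w y > 0`. -/
structure SpecENG : Prop where
  grp : ∀ {K : Type} [Field K] [CharZero K] (w : Valuation K ℤᵐ⁰) (a b : K) (n : ℕ), w a ≤ 1 →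
    w b ≤ 1 → dsc a b ≠ 0 → 1 ≤ n →
    ∃ G : AddSubgroup (Pt (curve a b) K), ∀ P, P ∈ G ↔ En w n P
  sub : ∀ {K : Type} [Field K] [CharZero K] (w : Valuation K ℤᵐ⁰) (a b : K) (k : ℕ)
    (P Q : Pt (curve a b) K), w a ≤ 1 → w b ≤ 1 → dsc a b ≠ 0 → 1 ≤ k → En w 1 P → En w 1 Q →
    (En w k (P - Q) ↔ w (pz P - pz Q) ≤ WithZero.exp (-(k : ℤ)))
  dbl : ∀ {K : Type} [Field K] [CharZero K] (w : Valuation K ℤᵐ⁰) (a b : K) (n e : ℕ)
    (P : Pt (curve a b) K), w a ≤ 1 → w b ≤ 1 → dsc a b ≠ 0 → 1 ≤ n →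
    w 2 = WithZero.exp (-(e : ℤ)) → En w n P → En w (n + e) ((2 : ℕ) • P)
  tor : ∀ {K : Type} [Field K] [CharZero K] (w : Valuation K ℤᵐ⁰) (a b : K)
    (P : Pt (curve a b) K), w a ≤ 1 → w b ≤ 1 → dsc a b ≠ 0 → En w 1 P → (2 : ℕ) • P = 0 → P = 0

/-- **EPC.** Many points of level `n` (`n > e`).
Proof. `c i` from LFB `two`, `ζ = ϖ^n c`, `c ≠ 0`: `x = ζ^{-2}`, `x^3+ax+b = ζ^{-6}(1 + aζ^4 + bζ^6)`,
`aζ^4+bζ^6 = 4 z`, `w z ≤ exp(-4n+2e) < 1`, HNA `one`: `1 + 4z = (1+2y')^2`, `w y' ≤ exp(-4n+2e)`;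
`y = ζ^{-3}(1+2y')`, a nonsingular point, `z(P) = ζ/(1+2y')`, `z(P) - ζ = -2y'ζ/(1+2y')`,
`w ≤ exp(-4n+2e-e-n) ≤ exp(-n-e)`. `P` is in `E_n` (`w ζ ≤ exp(-n)`). For `c = 0` take `P = 0`. So
`w(z(P_i) - ϖ^n c_i) ≤ exp(-n-e)`, and `w(z(P_i) - z(P_j)) ≤ exp(-n-e)` would give
`w(c_i - c_j) ≤ exp(-e) = w 2`, `i = j`. ENG `sub`: `P_i - P_j` is not in `E_{n+e}`, which contains `2 E_n`. -/
def SpecEPC : Prop :=
  ∀ (K : Type) [Field K] [CharZero K] (w : Valuation K ℤᵐ⁰) (a b : K) (n : ℕ), IsLF w →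
    w a ≤ 1 → w b ≤ 1 → dsc a b ≠ 0 → 1 ≤ n → WithZero.exp (-(n : ℤ)) < w 2 →
    ∃ s : Fin (two w) → Pt (curve a b) K, (∀ i, En w n (s i)) ∧
      ∀ i j, i ≠ j → ∀ Q : Pt (curve a b) K, En w n Q → s i - s j ≠ (2 : ℕ) • Q

/-- **EFI.** `E_n` has finite index.
Proof. Let `P = (x,y)`, `P' = (x',y')` be points not in `E_n` (so `w x, w x' < exp(2n)`), with
`w(x-x') ≤ exp(-N)`, `w(y-y') ≤ exp(-N)`; claim `P - P'` is in `E_n` if `N` is large (depending on
`n, a, b`). `w(y)` is bounded too. There is `C` with `w(f'(x)) ≥ exp(-C)` whenever `w x ≤ exp(2n)` and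
`w(f(x)) ≤ exp(-C)` (identity of RTS: `D' = 27F^2 - 54FGx + 108Fx^3 + G^2(4G-9x^2)`, `D' ≠ 0`). Let
`e` be as above. If `x = x'` and `y = y'`: `P = P'`. If `x = x'`, `y' = -y ≠ y`: `w(2y) ≤ exp(-N)`, `P - P' = 2P`,
slope `l = f'(x)/(2y)`; `w(f(x)) = w(y)^2` small, so `w l ≥ exp(N-C)`. If `x ≠ x'`: slope
`l = (y+y')/(x-x')`. If `w(2y) > exp(n-N)`: `w(y+y') = w(2y)`, `w l > exp n`. Otherwise `w y` is small,
`w(f'(x)) ≥ exp(-C)`, `(y-y')(y+y') = (x-x')(x^2+xx'+x'^2+a)` and the last factor has the same `w` as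
`f'(x)` (difference `(x'-x)(2x+x')`), so `y ≠ y'` and `w l ≥ exp(N-C)`. In all cases `w l > exp n`, and
`x(P-P') = l^2 - x - x'` has `w = w(l)^2 ≥ exp(2n+2)`. Finiteness: multiply by a power of `ϖ` and use LFB
`fin`: the points not in `E_n` fall into finitely many classes of close points. -/
def SpecEFI : Prop :=
  ∀ (K : Type) [Field K] [CharZero K] (w : Valuation K ℤᵐ⁰) (a b : K) (n : ℕ), IsLF w →
    w a ≤ 1 → w b ≤ 1 → dsc a b ≠ 0 → 1 ≤ n →
    ∃ s : Finset (Pt (curve a b) K), ∀ P : Pt (curve a b) K, ∃ Q ∈ s, En w n (P - Q)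

/-- **KMC.** Many Kummer classes (generalises `PR/LWB.lean`). Let `r` different roots of `f` in `K`
be given. Then there are `two w * (r + 1)` Kummer classes, pairwise different.
Proof. `A = E(K)`, `B = E_n` (`n > e`, ENG `grp`), finite index by EFI, no 2-torsion, `c = two w` elements
from EPC; `A[2]` contains `0` and the `(t_i, 0)`. HQ (1): elements `g_j` of `E(K)` pairwise different
modulo `2E(K)`. `E(K)` has infinitely many points `2R` (LZ-type points), so as in `PR/LWB.lean` replace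
`g_j` by `g_j + 2R_j = (x_j, y_j)`, `y_j ≠ 0`. Take `α_j = x_j - θ` (a unit of norm `y_j^2`, `Aff 1` with
the point itself); by DSQ `α_i α_j` is not a square. -/
def SpecKMC : Prop :=
  ∀ (K : Type) [Field K] [CharZero K] (w : Valuation K ℤᵐ⁰) (a b : K) (r : ℕ) (t : Fin r → K),
    IsLF w → w a ≤ 1 → w b ≤ 1 → dsc a b ≠ 0 → Function.Injective t →
    (∀ i, t i ^ 3 + a * t i + b = 0) →
    ∃ α : Fin (two w * (r + 1)) → Lk a b, (∀ i, InV (α i) ∧ Aff 1 (α i)) ∧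
      ∀ i j, i ≠ j → ¬ IsSquare (α i * α j)

/-! ## A6. The number of unit classes -/

/-- **UNG.** The group `N1` of the units of `L_O` of norm 1 modulo squares.
Proof. Let `N1` be the subgroup of `(Lk a b)ˣ` of the `u` with `u`, `u⁻¹` integral and `N u = 1`. (1) If `α`
is `InV` and `Ev`: `α g^2 = h`, `h` a unit of `L_O`, `N h = s^2` (`s` in `K`, as `N α` is a square), `w s = 1`;
`u = h^3 s^{-2}` is integral, `N u = N(h)^3 s^{-6} = 1`, its inverse is integral, and `u = α · (square)`.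
(2) For `k ≥ 1` let `B_k = {u ∈ N1 : all coordinates of u - 1 have w ≤ exp(-k)}`, a subgroup. Finite
index: `u, u'` with coordinates congruent modulo `ϖ^k`: `u/u' - 1 = (u-u')/u'` (LFB `fin`).
(3) `k > e`: `B_{k+e} ⊆ B_k^2`: for `u = 1 + 4 z` in `B_{k+e}`, `z` has coordinates `≤ exp(-k-e+2e)`,
`< 1`; HNA `sq`: `u = (1+2y)^2`, `y` with coordinates `≤ exp(-(k-e))`, so `v = 1+2y` has `v - 1` of size
`≤ exp(-k)`, `v` is integral, `N(v)^2 = 1` and `N(v) ≡ 1` mod `ϖ^k` while `-1` is not (`k > e`), so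
`N v = 1`, `v ∈ B_k`. (4) `B_k` is a union of at most `M` cosets of `B_{k+e}`: if `w 2 = 1` (`e = 0`): `M = 1`.
If `w 2 < 1` and `k ≥ e`: for `u = 1 + ϖ^k z`, `u' = 1 + ϖ^k z'` in `B_k`: the trace of `z`,
`3 z_0 - 2 a z_2`, is in `ϖ^k O` (expand `N(1 + ϖ^k z) = 1` by NRM `frm`), so `z_0` is in `2 O` (`3` is a
unit); hence if `z_1 ≡ z_1'` and `z_2 ≡ z_2'` mod 2 then `z - z'` has coordinates in `2 O` and
`u/u'` is in `B_{k+e}`: at most `(two w)^2` cosets. (5) Given pairwise different classes `α_i`: the `u_i` of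
(1) are pairwise different modulo squares of elements of `N1`. HQ (2) for `A = Additive N1`, `B = B_k`,
`M = (two w)^2`: `n` elements `T` of `N1[2]` with `N ≤ (two w)^2 n`; discard `1`. -/
def SpecUNG : Prop :=
  ∀ (K : Type) [Field K] [CharZero K] (w : Valuation K ℤᵐ⁰) (a b : K) (N : ℕ)
    (α : Fin N → Lk a b), IsLF w → w a ≤ 1 → w b ≤ 1 →
    (∀ i, InV (α i) ∧ Ev w (α i)) → (∀ i j, i ≠ j → ¬ IsSquare (α i * α j)) →
    ∃ (n : ℕ) (β : Fin n → Lk a b), Function.Injective β ∧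
      (∀ i, β i ^ 2 = 1 ∧ Algebra.norm K (β i) = 1 ∧ β i ≠ 1) ∧ N ≤ two w ^ 2 * (n + 1)

-- **LV** (`Top.lean`). Proof. EVI: `α` and `1` are unit classes. If `α` is not a square, UNG for `1, α`
-- (`N = 2`, `two w = 1` by LFB): `2 ≤ n + 1`; TWT gives a root of `f` in `K`, which is in `O` (`w t > 1` would give
-- `w(t^3) > w(at+b)`), contradiction to T3. Module **LVF**: `theorem specLVF (h..) : SpecLV`.

-- **LG** (`Top.lean`). Proof. By TWD we may assume `D = 1`. `←`: LG1. `→`: `f` has at most 3 roots; let `r` be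
-- their number, `t` an enumeration. KMC: `r + 1` pairwise different Kummer classes `α_i` (`two w = 1`), which
-- are unit classes by LG1. If `α` (`InV`, `Ev`) were different from all of them: UNG for `r + 2` classes and
-- TWT give `r + 1` roots, contradiction. So `α α_i` is a square, `α = α_i γ^2`, `Aff 1 α` by AFI.
-- Module **LGF**: `theorem specLGF (h..) : SpecLG`.

-- **I2** (`Top.lean`). Proof. `f` has no root in `K` (see LV). KMC (`r = 0`): `two w` pairwise different Kummer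
-- classes `κ_j`. All classes are unit classes (EVI), so by UNG, TWT there are at most `(two w)^2` pairwise
-- different classes. Let `α_1..α_s` be a maximal set of `InV` elements such that `α_i α_j` (`i ≠ j`) is not in `Aff 1`
-- (it exists: such a set is pairwise different). The `s · two w` products `α_i κ_j` are pairwise different:
-- if `α_i κ_j α_i' κ_j'` is a square then `α_i α_i'` is `κ_j κ_j'` times a square, in `Aff 1` (AFM, AFI), so
-- `i = i'`, and then `j = j'`. So `s · two w ≤ (two w)^2`, `s ≤ two w`. Define `c α` = an index `i` with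
-- `Aff 1 (α α_i)` (maximality; `α α = α^2` is in `Aff 1` by LZ if `α` is one of them). If `c α = c β = i`:
-- `α β α_i^2 = (α α_i)(β α_i)` is in `Aff 1` (AFM), so `α β` is (AFI). (If `InV` fails put `c α = 0`.)
-- Module **I2F**: `theorem specI2F (h..) : SpecI2`.

/-! ## A6b. All classes at an arbitrary finite place (for the places dividing `k`) -/

-- **SQK** (`Top.lean`). Proof. `m = 1 + 8 k t = 1 + 4 (2 k t)`, `w(2kt) ≤ w(k) < 1`: HNA `one`.
-- Module **SQL**: `theorem specSQL (h..) : SpecSQK`.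

/-- **CLK.** The Kummer map is a homomorphism.
Proof. `P_3 = -(P_1+P_2)`, and `P_1 + P_2 ≠ 0`. Let `Y = lX + n` be the line through `P_1`, `P_2` (chord or tangent;
if `x_1 = x_2` then `P_1 = P_2` and `y_1 ≠ 0`). `x_3 = l^2 - x_1 - x_2` and
`f(X) - (lX+n)^2 = (X-x_1)(X-x_2)(X-x_3)` (check the coefficients, using `y_i^2 = f(x_i)`, `y_i = l x_i + n`, in the
tangent case `2 y_1 l = f'(x_1)`). At `X = θ`: `(lθ+n)^2 = (x_1-θ)(x_2-θ)(x_3-θ)`. -/
def SpecCLK : Prop :=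
  ∀ (K : Type) [Field K] [CharZero K] (a b : K), dsc a b ≠ 0 → ∀ (x₁ y₁ x₂ y₂ x₃ y₃ : K)
    (h₁ : ((curve a b).baseChange K).toAffine.Nonsingular x₁ y₁)
    (h₂ : ((curve a b).baseChange K).toAffine.Nonsingular x₂ y₂)
    (h₃ : ((curve a b).baseChange K).toAffine.Nonsingular x₃ y₃), y₁ ≠ 0 → y₂ ≠ 0 →
    WeierstrassCurve.Affine.Point.some x₁ y₁ h₁ + WeierstrassCurve.Affine.Point.some x₂ y₂ h₂ =
      WeierstrassCurve.Affine.Point.some x₃ y₃ h₃ →
    IsSquare ((AdjoinRoot.of (fpol a b) x₁ - th a b) * (AdjoinRoot.of _ x₂ - th a b) *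
      (AdjoinRoot.of _ x₃ - th a b))

-- **KML** (`Top.lean`). Proof. Points `P`, `P'` with `y ≠ 0`, `α (x-θ)`, `β (x'-θ)` squares. `E_1` is infinite
-- (points as in EPC: `x = ζ^{-2}`, `ζ = ϖ^j`, `j` large) and `R ↦ 2R` is injective on it (ENG `tor`), so there is `R` in `E_1`,
-- `R ≠ 0`, such that `P + 2R` and `P + 2R + P'` are not in `{0} ∪ E[2]` (finitely many excluded values of `2R`;
-- points with `y = 0` are at most 3). `R`, `2R` have `y ≠ 0`. CLK for `R + R = 2R`: `x(2R) - θ` is a square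
-- (`x(R) - θ` is a unit, norm `y^2`). CLK for `P + 2R`: `(x-θ)(x(P+2R)-θ)` is a square. CLK for
-- `(P+2R) + P' = S`: so `(x-θ)(x'-θ)(x(S)-θ)` is a square, `α β (x(S)-θ)` is a square.
-- Module **KMF**: `theorem specKMF (h..) : SpecKML`.

/-- **BND.** Boundedness.
Proof. (1) `f` has a root `t`: `f'(t) ≠ 0` (`d f'(t)^2 = -D'`, `d = dq a t ≠ 0`); TOC coordinates `(r, z + s√d)` of `α`:
`r = ev t α`, `w r = 1`, `w(z^2 - d s^2) = 1`. If `d = δ^2`: `(-t ± δ)/2` are roots of `f`, the values of `α` there are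
`z ± s δ`, so `2z` and `2sδ` are integral. If `d` is not a square: `w(s)^2 ≤ w(4d)^{-1}`, since otherwise (`s ≠ 0`)
`w((z/s)^2 - d) = w(s)^{-2} < w(4d)`, so `(z/s)^2 = d (1 + 4y)`, `w y < 1`, and `d` is a square (HNA `one`); then
`w(z)^2 ≤ max(1, w(d) w(s)^2)`. The coordinates `cf i α` are bounded by TOC `lam` and the formulas of `Co`.
(2) `f` has no root: `L` is a field. Claim: there is `C` with `w(N h) ≥ exp(-C)` for all integral primitive `h`
(some coordinate a unit). Otherwise call `(x, j)` good (`x` integral) if for every `m` there is a primitive integral `h`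
with `w(N h) ≤ exp(-m)` and all coordinates of `h - x` have `w ≤ exp(-j)`. `(0,0)` is good, and if `(x,j)` is good there is a
good `(y,j+1)` with the coordinates of `y - x` `≤ exp(-j)` (finitely many classes modulo `ϖ^(j+1)`, LFB `fin`). `IsLF.comp`: a limit
`x`; `N` is a polynomial with integral coefficients, so `w(N x) ≤ exp(-m)` for all `m`, `N x = 0`, and `x` is primitive:
contradiction to NRM `unt`. Now `α = ϖ^n h` (SCL), `1 = w(N α) = exp(-3n) w(N h)`, so `-n ≤ C`. -/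
def SpecBND : Prop :=
  ∀ (K : Type) [Field K] [CharZero K] (w : Valuation K ℤᵐ⁰) (a b : K), IsLF w →
    w a ≤ 1 → w b ≤ 1 → dsc a b ≠ 0 → ∃ C : ℕ, ∀ α : Lk a b, w (Algebra.norm K α) = 1 →
      (∀ t : K, t ^ 3 + a * t + b = 0 → w (ev (RingHom.id K) t α) = 1) →
      ∀ i, w (cf i α) ≤ WithZero.exp (C : ℤ)

/-- **GCT.** Group theory. `ν : A → ℤ^ρ`, `B` of finite index in `ker ν`.
Proof. `Λ = ν(A)` is a subgroup of `ℤ^ρ`, free of rank `≤ ρ`, so `Λ/2Λ` has at most `2^ρ` elements (or: the map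
`Λ → (ℤ/2)^ρ` given by coordinates in a basis of `Λ`). `A/(2A + ker ν) ≅ Λ/2Λ`. So there is `N' ` with `N ≤ 2^ρ N'`
and `N'` of the `g_i` are in one coset of `2A + ker ν`: `g_i - g_1 = 2 a_i + h_i`, `h_i ∈ ker ν`, pairwise different modulo
`2A`, so modulo `2 ker ν`. HQ (2) for `ker ν`, `B`. -/
def SpecGCT : Prop :=
  ∀ (A : Type) [AddCommGroup A] (ρ M N : ℕ) (ν : A →+ (Fin ρ → ℤ)) (B : AddSubgroup A)
    (s : Fin M → A) (g : Fin N → A), B ≤ ν.ker → (B.addSubgroupOf ν.ker).FiniteIndex →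
    (∀ x ∈ B, ∃ i, ∃ y ∈ B, x = s i + (2 : ℕ) • y) →
    (∀ i j, i ≠ j → ∀ x : A, g i - g j ≠ (2 : ℕ) • x) →
    ∃ (n : ℕ) (T : Fin n → A), Function.Injective T ∧ (∀ i, (2 : ℕ) • T i = 0) ∧
      N ≤ 2 ^ ρ * (M * n)

/-- **VCT.** The number of all classes is at most the square of `two w (1 + r)`, `r` = number of roots.
Proof. `r` is 0, 1 or 3 (if `t`, `t'` are different roots then `-t-t'` is the third one, and all three are different because
`D' ≠ 0`). `A` = the group of units `u` of `L` with `N u = 1` (additively written); the classes of `InV` elements modulo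
squares inject into `A/A^2`: `α ↦ α^3 s^{-2}`, `N α = s^2` (differs from `α` by a square; if `u ∈ A` is `γ^2` then
`N γ = ±1` and `±γ ∈ A`). `ρ = 0, 1, 2` for `r = 0, 1, 3`; `ν(u)` = the exponents of `w(u(t_i))`, `i ≤ ρ` (for `r = 3` the third
value is determined, because the product of the three values is `N u = 1`, NRM `rts`). So `ker ν` = the `u` with `N u = 1`
and all values at roots units. `B = B_k` (`k > e`) as in UNG: the `u` in `A` with the coordinates of `u - 1` `≤ exp(-k)`.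
Finite index in `ker ν`: by BND the elements of `ker ν` and their inverses have bounded coordinates, and if `u - u'` has
coordinates `≤ exp(-k-C')` then `u/u' ∈ B`; LFB `fin`. `B` is a union of `(two w)^2` cosets of `B^2` (UNG (3), (4), its
lemmas in `PF/UNG.lean`; the case `w 2 = 1`: one). GCT: `N ≤ 2^ρ (two w)^2 n` with `n ≤ 1 + r` by TWT (discard `1`). -/
def SpecVCT : Prop :=
  ∀ (K : Type) [Field K] [CharZero K] (w : Valuation K ℤᵐ⁰) (a b : K) (N : ℕ)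
    (α : Fin N → Lk a b), IsLF w → w a ≤ 1 → w b ≤ 1 → dsc a b ≠ 0 → (∀ i, InV (α i)) →
    (∀ i j, i ≠ j → ¬ IsSquare (α i * α j)) →
    N ≤ (two w * (1 + Nat.card {t : K // t ^ 3 + a * t + b = 0})) ^ 2

-- **IX** (`Top.lean`). Proof. As I2 above, with `κ_j` from KMC (`r` = number of roots: `two w * (r + 1)` Kummer
-- classes), VCT instead of UNG, KML instead of AFM. Module **IXF**: `theorem specIXF (h..) : SpecIX`.
-- (SpecI2 and SpecSQ2 are no longer needed.)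

/-! ## A7. The completions of a number field -/

/-- **NFA.** Part `lf` of SpecNF.
Proof. `K = v.adicCompletion F`, `w = Valued.v`. Surjectivity: `v.valuation F` is surjective
(`HeightOneSpectrum.valuation_exists_uniformizer`) and `Valued.v` extends it
(`valuedAdicCompletion_eq_valuation`). Residue field of `v.adicCompletionIntegers F`: every element is
congruent to an element of `𝓞 F` modulo the maximal ideal (density), so it is a quotient of
`𝓞 F ⧸ v.asIdeal`, which is finite. Completeness: `K` is a complete topological space; a sequence with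
`w(s(n+1) - s n) ≤ exp(-n)` is Cauchy (as in `SEL/BIG.lean`: `tendsto_of_le_pow`,
`NonarchimedeanAddGroup.cauchySeq_of_tendsto_sub_nhds_zero`), the balls `{w ≤ exp(-n)}` are closed
(open subgroups). -/
def SpecNFA : Prop :=
  ∀ (F : Type) [Field F] [NumberField F] (v : HeightOneSpectrum (𝓞 F)), IsLF (vv v)

/-- **NFB.** Parts `int`, `dense`, `t3`, `t12` of SpecNF.
Proof. `int`: `valuedAdicCompletion_eq_valuation`, `valuation_of_algebraMap`,
`HeightOneSpectrum.intValuation_le_pow_iff_mem` (or `intValuation_le_pow_iff_dvd`). `dense`: elements of `F` are dense in `K`, and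
an element `x/s` of `F` with valuation `≤ 1` at `v` is congruent to an element of `𝓞 F`
(`exists_adicValued_mul_sub_le`, or Mathlib's density of `R` in `adicCompletionIntegers`). `t3`, `t12`: if
`y ∈ 𝓞 F` is congruent to `x` then the values of the integral polynomial are congruent. -/
structure SpecNFB : Prop where
  int : ∀ (F : Type) [Field F] [NumberField F] (v : HeightOneSpectrum (𝓞 F)) (x : 𝓞 F) (k : ℕ),
    vv v (algebraMap F (v.adicCompletion F) (x : F)) ≤ 1 ∧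
    (x ∈ v.asIdeal ^ k ↔
      vv v (algebraMap F (v.adicCompletion F) (x : F)) ≤ WithZero.exp (-(k : ℤ)))
  dense : ∀ (F : Type) [Field F] [NumberField F] (v : HeightOneSpectrum (𝓞 F))
    (x : v.adicCompletion F) (k : ℕ), vv v x ≤ 1 →
    ∃ y : 𝓞 F, vv v (x - algebraMap F (v.adicCompletion F) (y : F)) ≤ WithZero.exp (-(k : ℤ))
  t3 : ∀ (F : Type) [Field F] [NumberField F] (v : HeightOneSpectrum (𝓞 F)) (a b : 𝓞 F),
    T3 (vv v) (algebraMap F (v.adicCompletion F) (a : F)) (algebraMap F (v.adicCompletion F) (b : F)) ↔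
      ∀ x : 𝓞 F, x ^ 3 + a * x + b ∉ v.asIdeal
  t12 : ∀ (F : Type) [Field F] [NumberField F] (v : HeightOneSpectrum (𝓞 F)) (a b : 𝓞 F),
    T12 (vv v) (algebraMap F (v.adicCompletion F) (a : F)) (algebraMap F (v.adicCompletion F) (b : F)) ↔
      ∀ x : 𝓞 F, x ^ 2 + dsc a b ∉ v.asIdeal

/-- **NFC.** Part `two` of SpecNF.
Proof. `(2) = ∏ v^{e_v}` in `𝓞 F`, `e_v ≥ 1` exactly for the `v` in the finite set `S`. `O_v/2O_v` is
isomorphic to `𝓞 F ⧸ v^{e_v}` (`𝓞 F → O_v/2O_v` is onto by density, kernel `v^{e_v}` by NFB `int`: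
`2 O_v = {w ≤ exp(-e_v)}`), so `two (vv v) = absNorm (v^{e_v})`; the product is
`absNorm (span {2}) = |N(2)| = 2^n` (`Ideal.absNorm` multiplicative, `Ideal.absNorm_span_singleton`,
`Algebra.norm_algebraMap`, `RingOfIntegers.rank`). -/
def SpecNFC : Prop :=
  ∀ (F : Type) [Field F] [NumberField F], ∃ S : Finset (HeightOneSpectrum (𝓞 F)),
    (∀ v, v ∈ S ↔ (2 : 𝓞 F) ∈ v.asIdeal) ∧ ∏ v ∈ S, two (vv v) = 2 ^ Module.finrank ℚ F

-- **NF** (`Top.lean`): NFA, NFB (`dense` with `k = 1`), NFC; `twm`: NFC and `two (vv v) = 1` for `v` not over 2 (LFB `two`,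
-- `vv v 2 = 1` by NFB `int`). Module **NFF**: `theorem specNFF (h..) : SpecNF`.

end Pool.Agent.Lib.MP_8cb858_nt.PF
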