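import Pool.Agent.Lib.MP_8cb858_nt.SEL.Spec
import Pool.Agent.Lib.MP_8cb858_nt.PF.SpecD
import Pool.Agent.Lib.MP_8cb858_nt.PF.RF.SQV
import Pool.Agent.Lib.MP_8cb858_nt.PF.SpecA

section
/-!
# HAL : half points
-/
namespace Pool.Agent.Lib.MP_8cb858_nt.SEL

open NumberField IsDedekindDomain
open scoped Classical

universe u

namespace HALM

open WeierstrassCurve.Affine

section alg

variable {K : Type u} [Field K]

lemma dbl_id {t u v x al : K} (e1 : t + u + v = 0) (e2 : t * u + t * v + u * v = al) :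
    (3 * x ^ 2 + al) ^ 2 - (8 * x + 4 * t) * ((x - t) * (x - u) * (x - v)) =
      ((x - t) ^ 2 - (t - u) * (t - v)) ^ 2 := by
  have hv : v = -(t + u) := by linear_combination e1
  subst hv
  rw [← e2]
  ring

lemma dbl_x {t u v x y al : K} (h2 : (2 : K) ≠ 0) (hy : y ≠ 0) (e1 : t + u + v = 0)
    (e2 : t * u + t * v + u * v = al) (he : y ^ 2 = (x - t) * (x - u) * (x - v)) :
    ((3 * x ^ 2 + al) / (2 * y)) ^ 2 - 2 * x - t =
      (((x - t) ^ 2 - (t - u) * (t - v)) / (2 * y)) ^ 2 := by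
  have h := dbl_id (x := x) e1 e2
  rw [← he] at h
  have h3 : (2 * y) ^ 2 ≠ 0 := pow_ne_zero 2 (mul_ne_zero h2 hy)
  rw [div_pow, div_pow, eq_div_iff h3, ← h, sub_mul, sub_mul, div_mul_cancel₀ _ h3]
  ring

lemma add_x {t u v x y : K} (hx : x - t ≠ 0) (e1 : t + u + v = 0)
    (he : y ^ 2 = (x - t) * (x - u) * (x - v)) :
    (y / (x - t)) ^ 2 - x - t = t + (t - u) * (t - v) / (x - t) := by
  rw [div_pow, he]
  have hv : v = -(t + u) := by linear_combination e1
  subst hv
  field_simp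
  ring

lemma half_same {t x y f : K} (hx : x - t ≠ 0) (hf : f ≠ 0) (hy : y ≠ 0) (h2 : (2 : K) ≠ 0) :
    ((t + f / (x - t) - t) ^ 2 - f) / (2 * (-(y * f) / (x - t) ^ 2)) =
      ((x - t) ^ 2 - f) / (2 * y) := by
  field_simp
  ring

lemma half_diff {t u v x y : K} (hx : x - t ≠ 0) (hf : (t - u) * (t - v) ≠ 0) (hy : y ≠ 0)
    (h2 : (2 : K) ≠ 0) :
    ((t + (t - u) * (t - v) / (x - t) - u) ^ 2 - (u - t) * (u - v)) /
        (2 * (-(y * ((t - u) * (t - v))) / (x - t) ^ 2)) =
      -(((x - u) ^ 2 - (u - t) * (u - v)) / (2 * y)) := by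
  have h1 : (t + (t - u) * (t - v) / (x - t) - u) ^ 2 - (u - t) * (u - v) =
      ((t - u) * (t - v)) * ((x - u) ^ 2 - (u - t) * (u - v)) / (x - t) ^ 2 := by
    field_simp
    ring
  rw [h1]
  generalize (x - u) ^ 2 - (u - t) * (u - v) = w
  generalize (t - u) * (t - v) = f at *
  field_simp

end alg

section

variable {F K : Type u} [Field F] [Field K] [CharZero K] [Algebra F K] {a b : F} {th : Fin 3 → K}

omit [CharZero K] in
/-- The equation of the curve at a point. -/
lemma eqn (hth : IsRoots (algebraMap F K a) (algebraMap F K b) th) {x y : K}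
    (h : ((curve a b).baseChange K).toAffine.Nonsingular x y) :
    y ^ 2 = (x - th 0) * (x - th 1) * (x - th 2) := by
  have h1 := (equation_iff _ _).1 h.1
  simp only [curve, WeierstrassCurve.baseChange, WeierstrassCurve.map, map_zero, zero_mul,
    add_zero] at h1
  rw [h1, ← hth.e2]
  have hb : algebraMap F K b = -(th 0 * th 1 * th 2) := by rw [hth.e3, neg_neg]
  rw [hb]
  linear_combination (x ^ 2) * hth.e1

omit [CharZero K] in
lemma negY_eq (x y : K) : ((curve a b).baseChange K).toAffine.negY x y = -y := by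
  simp [negY, curve, WeierstrassCurve.baseChange, WeierstrassCurve.map]

lemma ne_negY {x y : K} (hy : y ≠ 0) : y ≠ ((curve a b).baseChange K).toAffine.negY x y := by
  rw [negY_eq]
  intro h
  apply hy
  have h2 : (2 : K) * y = 0 := by linear_combination h
  exact (mul_eq_zero.1 h2).resolve_left two_ne_zero

/-- Doubling. -/
lemma dbl {x y : K} (h : ((curve a b).baseChange K).toAffine.Nonsingular x y) (hy : y ≠ 0) :
    ∃ (x' y' : K) (h' : ((curve a b).baseChange K).toAffine.Nonsingular x' y'),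
      (2 : ℕ) • (Point.some x y h : Pt (curve a b) K) = Point.some x' y' h' ∧
      x' = ((3 * x ^ 2 + algebraMap F K a) / (2 * y)) ^ 2 - 2 * x := by
  refine ⟨((curve a b).baseChange K).toAffine.addX x x
    (((curve a b).baseChange K).toAffine.slope x x y y),
    ((curve a b).baseChange K).toAffine.addY x x y
    (((curve a b).baseChange K).toAffine.slope x x y y),
    nonsingular_add h h (fun hxy => ne_negY hy hxy.right), ?_, ?_⟩
  · rw [two_nsmul]
    exact Point.add_self_of_Y_ne (ne_negY hy)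
  · rw [slope_of_Y_ne rfl (ne_negY hy), negY_eq]
    simp only [addX, curve, WeierstrassCurve.baseChange, WeierstrassCurve.map, map_zero]
    have e : y - -y = 2 * y := by ring
    rw [e]
    ring

omit [CharZero K] in
lemma dbl_zero {x y : K} (h : ((curve a b).baseChange K).toAffine.Nonsingular x y) (hy : y = 0) :
    (2 : ℕ) • (Point.some x y h : Pt (curve a b) K) = 0 := by
  rw [two_nsmul]
  exact Point.add_self_of_Y_eq (by rw [negY_eq, hy, neg_zero])

/-- A nonzero point killed by 2 has `y = 0`. -/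
lemma y_zero {x y : K} (h : ((curve a b).baseChange K).toAffine.Nonsingular x y)
    (h2 : (2 : ℕ) • (Point.some x y h : Pt (curve a b) K) = 0) : y = 0 := by
  by_contra hy
  obtain ⟨x', y', h', h3, -⟩ := dbl (a := a) (b := b) h hy
  rw [h2] at h3
  exact Point.some_ne_zero h' h3.symm

omit [CharZero K] in
/-- Adding a 2-torsion point. -/
lemma add_tor {x y t : K} (h : ((curve a b).baseChange K).toAffine.Nonsingular x y)
    (h0 : ((curve a b).baseChange K).toAffine.Nonsingular t 0) (hx : x ≠ t) :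
    ∃ (h' : ((curve a b).baseChange K).toAffine.Nonsingular
        ((y / (x - t)) ^ 2 - x - t) (-(y / (x - t) * ((y / (x - t)) ^ 2 - x - t - x) + y))),
      (Point.some x y h : Pt (curve a b) K) + Point.some t 0 h0 = Point.some _ _ h' := by
  have e1 : ((curve a b).baseChange K).toAffine.slope x t y 0 = y / (x - t) := by
    rw [slope_of_X_ne hx, sub_zero]
  have e2 : ((curve a b).baseChange K).toAffine.addX x t (y / (x - t)) =
      (y / (x - t)) ^ 2 - x - t := by
    simp only [addX, curve, WeierstrassCurve.baseChange, WeierstrassCurve.map, map_zero]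
    ring
  have e3 : ((curve a b).baseChange K).toAffine.addY x t y (y / (x - t)) =
      -(y / (x - t) * ((y / (x - t)) ^ 2 - x - t - x) + y) := by
    rw [addY, negY_eq, negAddY, e2]
  have h4 := nonsingular_add h h0 (fun hxy => hx hxy.left)
  have h5 : ((curve a b).baseChange K).toAffine.Nonsingular
        ((y / (x - t)) ^ 2 - x - t) (-(y / (x - t) * ((y / (x - t)) ^ 2 - x - t - x) + y)) := by
    rw [e1, e2, e3] at h4; exact h4
  refine ⟨h5, ?_⟩
  rw [Point.add_of_X_ne hx]
  simp only [Point.some.injEq]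
  rw [e1, e2, e3]
  exact ⟨rfl, rfl⟩

omit [CharZero K] in
lemma y3 {x y t f : K} (hx : x - t ≠ 0) {w : K} (hw : w = t + f / (x - t)) :
    -(y / (x - t) * (w - x) + y) = -(y * f) / (x - t) ^ 2 := by
  rw [hw]
  field_simp
  ring

omit [CharZero K] in
lemma fp_ne (hth : IsRoots (algebraMap F K a) (algebraMap F K b) th) (i : Fin 3) :
    fp th i ≠ 0 := by
  refine mul_ne_zero (sub_ne_zero.2 fun h1 => ?_) (sub_ne_zero.2 fun h1 => ?_)
  · have h2 := hth.inj h1
    revert h2; fin_cases i <;> decide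
  · have h2 := hth.inj h1
    revert h2; fin_cases i <;> decide

omit [CharZero K] in
/-- Cyclic form of the roots relations. -/
lemma cyc (hth : IsRoots (algebraMap F K a) (algebraMap F K b) th) (j : Fin 3) :
    th j + th (j + 1) + th (j + 2) = 0 ∧
    th j * th (j + 1) + th j * th (j + 2) + th (j + 1) * th (j + 2) = algebraMap F K a := by
  have e1 := hth.e1
  have e2 := hth.e2
  fin_cases j
  · exact ⟨e1, e2⟩
  · constructor
    · change th 1 + th 2 + th 0 = 0
      rw [← e1]; ring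
    · change th 1 * th 2 + th 1 * th 0 + th 2 * th 0 = _
      rw [← e2]; ring
  · constructor
    · change th 2 + th 0 + th 1 = 0
      rw [← e1]; ring
    · change th 2 * th 0 + th 2 * th 1 + th 0 * th 1 = _
      rw [← e2]; ring

lemma eqnj (hth : IsRoots (algebraMap F K a) (algebraMap F K b) th) {x y : K}
    (h : ((curve a b).baseChange K).toAffine.Nonsingular x y) (j : Fin 3) :
    y ^ 2 = (x - th j) * (x - th (j + 1)) * (x - th (j + 2)) := by
  rw [eqn hth h]
  fin_cases j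
  · rfl
  · change _ = (x - th 1) * (x - th 2) * (x - th 0)
    ring
  · change _ = (x - th 2) * (x - th 0) * (x - th 1)
    ring

/-- First part. -/
lemma part1 (hth : IsRoots (algebraMap F K a) (algebraMap F K b) th)
    (P S : Pt (curve a b) K) (hS : (2 : ℕ) • S = 0) (hP : (2 : ℕ) • P ≠ 0) (i : Fin 3) :
    hlf th (P + S) i = (sg th S i : K) * hlf th P i := by
  have h2 : (2 : K) ≠ 0 := two_ne_zero
  rcases P with _ | ⟨x, y, h⟩
  · exact absurd (smul_zero (M := ℕ) (A := Pt (curve a b) K) 2) hP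
  rcases S with _ | ⟨t, y0, h0⟩
  · change hlf th ((Point.some x y h : Pt (curve a b) K) + 0) i = ((1 : ℤ) : K) * _
    rw [add_zero, Int.cast_one, one_mul]
  have hy : y ≠ 0 := fun h3 => hP (dbl_zero h h3)
  have hy0 : y0 = 0 := y_zero h0 hS
  subst hy0
  obtain ⟨j, rfl⟩ : ∃ j, t = th j := by
    have h3 := eqn hth h0
    rw [zero_pow two_ne_zero] at h3
    rcases mul_eq_zero.1 h3.symm with h4 | h4
    · rcases mul_eq_zero.1 h4 with h5 | h5
      · exact ⟨0, sub_eq_zero.1 h5⟩
      · exact ⟨1, sub_eq_zero.1 h5⟩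
    · exact ⟨2, sub_eq_zero.1 h4⟩
  have hej := eqnj hth h j
  have hxt : x - th j ≠ 0 := by
    intro h3
    rw [h3, zero_mul, zero_mul] at hej
    exact hy ((pow_eq_zero_iff two_ne_zero).1 hej)
  obtain ⟨h', hadd⟩ := add_tor h h0 (sub_ne_zero.1 hxt)
  have hf : fp th j ≠ 0 := fp_ne hth j
  have hX : (y / (x - th j)) ^ 2 - x - th j = th j + fp th j / (x - th j) :=
    add_x hxt (cyc hth j).1 hej
  have hY := y3 (y := y) hxt hX
  rw [hadd]
  have e1 : hlf th (Point.some ((y / (x - th j)) ^ 2 - x - th j)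
      (-(y / (x - th j) * ((y / (x - th j)) ^ 2 - x - th j - x) + y)) h' : Pt (curve a b) K) i =
      (((y / (x - th j)) ^ 2 - x - th j - th i) ^ 2 - fp th i) /
        (2 * (-(y / (x - th j) * ((y / (x - th j)) ^ 2 - x - th j - x) + y))) := rfl
  have e2 : hlf th (Point.some x y h : Pt (curve a b) K) i =
      ((x - th i) ^ 2 - fp th i) / (2 * y) := rfl
  have e3 : sg th (Point.some (th j) 0 h0 : Pt (curve a b) K) i =
      if th j = th i then 1 else -1 := rfl
  rw [e1, e2, e3, hY, hX]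
  by_cases hij : j = i
  · subst hij
    rw [if_pos rfl, Int.cast_one, one_mul]
    exact half_same hxt hf hy h2
  · have hne : th j ≠ th i := fun h3 => hij (hth.inj h3)
    rw [if_neg hne, Int.cast_neg, Int.cast_one, neg_one_mul]
    have hi : i = j + 1 ∨ i = j + 2 := by
      revert hij; fin_cases i <;> fin_cases j <;> simp
    rcases hi with rfl | rfl
    · have g1 : fp th j = (th j - th (j + 1)) * (th j - th (j + 2)) := rfl
      have g2 : fp th (j + 1) = (th (j + 1) - th j) * (th (j + 1) - th (j + 2)) := by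
        fin_cases j <;> simp [fp] <;> ring
      rw [g1] at hf
      rw [g1, g2]
      exact half_diff hxt hf hy h2
    · have g1 : fp th j = (th j - th (j + 2)) * (th j - th (j + 1)) := mul_comm _ _
      have g2 : fp th (j + 2) = (th (j + 2) - th j) * (th (j + 2) - th (j + 1)) := by
        fin_cases j <;> simp [fp]
      rw [g1] at hf
      rw [g1, g2]
      exact half_diff hxt hf hy h2

/-- Second part. -/
lemma part2 (hth : IsRoots (algebraMap F K a) (algebraMap F K b) th)
    (P : Pt (curve a b) K) (hP : (4 : ℕ) • P ≠ 0) : ∃ (x' y' : K)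
      (h : ((curve a b).baseChange K).toAffine.Nonsingular x' y'),
      (2 : ℕ) • P = WeierstrassCurve.Affine.Point.some x' y' h ∧ y' ≠ 0 ∧
      (∀ i, hlf th P i ^ 2 = x' - th i) ∧ (∀ i, hlf th P i ≠ 0) ∧
      (hlf th P 0 * hlf th P 1 * hlf th P 2) ^ 2 = y' ^ 2 := by
  have h2 : (2 : K) ≠ 0 := two_ne_zero
  rcases P with _ | ⟨x, y, h⟩
  · exact absurd (smul_zero (M := ℕ) (A := Pt (curve a b) K) 4) hP
  have h22 : (4 : ℕ) • (Point.some x y h : Pt (curve a b) K)
      = (2 : ℕ) • ((2 : ℕ) • (Point.some x y h : Pt (curve a b) K)) := by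
    rw [← mul_nsmul]
  have hy : y ≠ 0 := by
    intro h3
    apply hP
    rw [h22, dbl_zero h h3, smul_zero]
  obtain ⟨x', y', h', hd, hx'⟩ := dbl (a := a) (b := b) h hy
  have hy' : y' ≠ 0 := by
    intro h3
    apply hP
    rw [h22, hd, dbl_zero h' h3]
  have hsq : ∀ i, hlf th (Point.some x y h : Pt (curve a b) K) i ^ 2 = x' - th i := by
    intro i
    have e2 : hlf th (Point.some x y h : Pt (curve a b) K) i =
      ((x - th i) ^ 2 - fp th i) / (2 * y) := rfl
    rw [e2, hx']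
    exact (dbl_x h2 hy (cyc hth i).1 (cyc hth i).2 (eqnj hth h i)).symm
  have hprod : (hlf th (Point.some x y h : Pt (curve a b) K) 0 *
      hlf th (Point.some x y h : Pt (curve a b) K) 1 *
      hlf th (Point.some x y h : Pt (curve a b) K) 2) ^ 2 = y' ^ 2 := by
    rw [mul_pow, mul_pow, hsq, hsq, hsq, eqn hth h']
  refine ⟨x', y', h', hd, hy', hsq, ?_, hprod⟩
  intro i h0
  have h3 : hlf th (Point.some x y h : Pt (curve a b) K) 0 *
      hlf th (Point.some x y h : Pt (curve a b) K) 1 *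
      hlf th (Point.some x y h : Pt (curve a b) K) 2 = 0 := by
    fin_cases i
    · exact mul_eq_zero_of_left (mul_eq_zero_of_left h0 _) _
    · exact mul_eq_zero_of_left (mul_eq_zero_of_right _ h0) _
    · exact mul_eq_zero_of_right _ h0
  rw [h3, zero_pow two_ne_zero] at hprod
  exact hy' ((pow_eq_zero_iff two_ne_zero).1 hprod.symm)

end

end HALM

theorem specHAL : SpecHAL.{u} := by
  intro F K _ _ _ _ a b th hth
  exact ⟨fun P S hS hP i => HALM.part1 hth P S hS hP i, fun P hP => HALM.part2 hth P hP⟩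

end Pool.Agent.Lib.MP_8cb858_nt.SEL
end

section
/-!
# DHA: halving a point, with signs
-/
namespace Pool.Agent.Lib.MP_8cb858_nt.PF

open Polynomial NumberField IsDedekindDomain Pool.Agent.Lib.MP_8cb858_nt.SEL
open scoped Classical

namespace DHAM

open WeierstrassCurve.Affine

variable {F K : Type} [Field F] [Field K] [CharZero K] [Algebra F K] {a b : F} {th : Fin 3 → K}

/-- doubling with a given slope -/
theorem dbl_slope {x y l x' y' : K} (h : ((curve a b).baseChange K).toAffine.Nonsingular x y)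
    (hy : y ≠ 0) (hl : l * (2 * y) = 3 * x ^ 2 + algebraMap F K a) (hx' : x' = l ^ 2 - 2 * x)
    (hy' : y' = -(y + l * (x' - x))) :
    ∃ h' : ((curve a b).baseChange K).toAffine.Nonsingular x' y',
      (2 : ℕ) • (Point.some x y h : Pt (curve a b) K) = Point.some x' y' h' := by
  have hn : y ≠ ((curve a b).baseChange K).toAffine.negY x y := HALM.ne_negY hy
  have e1 : ((curve a b).baseChange K).toAffine.slope x x y y = l := by
    rw [slope_of_Y_ne rfl hn, HALM.negY_eq]
    simp only [curve, WeierstrassCurve.baseChange, WeierstrassCurve.map, map_zero]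
    have e : y - -y = 2 * y := by ring
    have h2 : (2 : K) * y ≠ 0 := mul_ne_zero two_ne_zero hy
    rw [e, div_eq_iff h2, hl]
    ring
  have e2 : ((curve a b).baseChange K).toAffine.addX x x l = x' := by
    simp only [addX, curve, WeierstrassCurve.baseChange, WeierstrassCurve.map, map_zero]
    rw [hx']
    ring
  have e3 : ((curve a b).baseChange K).toAffine.addY x x y l = y' := by
    rw [addY, HALM.negY_eq, negAddY, e2, hy']
    ring
  have h4 := nonsingular_add h h (fun hxy => hn hxy.right)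
  have h5 : ((curve a b).baseChange K).toAffine.Nonsingular x' y' := by
    rw [e1, e2, e3] at h4; exact h4
  refine ⟨h5, ?_⟩
  rw [two_nsmul, Point.add_self_of_Y_ne hn]
  simp only [Point.some.injEq]
  rw [e1, e2, e3]
  exact ⟨rfl, rfl⟩

theorem main (hth : IsRoots (algebraMap F K a) (algebraMap F K b) th) {h : Fin 3 → K} {x : K}
    (hh : ∀ i, h i ^ 2 = x - th i) :
    ∃ (P : Pt (curve a b) K)
      (hn : ((curve a b).baseChange K).toAffine.Nonsingular x (h 0 * h 1 * h 2)),
      (2 : ℕ) • P = Point.some _ _ hn ∧ ∀ i, hlf th P i = h i := by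
  have t0 : th 0 = x - h 0 ^ 2 := by rw [hh 0]; ring
  have t1 : th 1 = x - h 1 ^ 2 := by rw [hh 1]; ring
  have t2 : th 2 = x - h 2 ^ 2 := by rw [hh 2]; ring
  have n01 : h 0 + h 1 ≠ 0 := by
    intro h3
    have : th 1 = th 0 := by
      rw [t0, t1]
      linear_combination (h 0 - h 1) * h3
    exact absurd (hth.inj this) (by decide)
  have n02 : h 0 + h 2 ≠ 0 := by
    intro h3
    have : th 2 = th 0 := by
      rw [t0, t2]
      linear_combination (h 0 - h 2) * h3
    exact absurd (hth.inj this) (by decide)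
  have n12 : h 1 + h 2 ≠ 0 := by
    intro h3
    have : th 2 = th 1 := by
      rw [t1, t2]
      linear_combination (h 1 - h 2) * h3
    exact absurd (hth.inj this) (by decide)
  have e1 := hth.e1
  rw [t0, t1, t2] at e1
  have e2 := hth.e2
  rw [t0, t1, t2] at e2
  have e3 := hth.e3
  rw [t0, t1, t2] at e3
  obtain ⟨X, hX⟩ : ∃ X : K, X = x + h 0 * h 1 + h 0 * h 2 + h 1 * h 2 := ⟨_, rfl⟩
  obtain ⟨Y, hY⟩ : ∃ Y : K, Y = (h 0 + h 1) * (h 0 + h 2) * (h 1 + h 2) := ⟨_, rfl⟩
  have hY0 : Y ≠ 0 := by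
    rw [hY]
    exact mul_ne_zero (mul_ne_zero n01 n02) n12
  have hb : algebraMap F K b = -((x - h 0 ^ 2) * (x - h 1 ^ 2) * (x - h 2 ^ 2)) := by
    rw [e3, neg_neg]
  have heq : Y ^ 2 = X ^ 3 + algebraMap F K a * X + algebraMap F K b := by
    rw [hb, ← e2, hY, hX]
    linear_combination (-(x + h 0 * h 1 + h 0 * h 2 + h 1 * h 2) ^ 2) * e1
  have hN := BIGM.nonsing a b hY0 heq
  obtain ⟨hn, hd⟩ := dbl_slope (l := h 0 + h 1 + h 2) (x' := x) (y' := h 0 * h 1 * h 2) hN hY0
    (by
      rw [← e2, hY, hX]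
      linear_combination (-2 * (x + h 0 * h 1 + h 0 * h 2 + h 1 * h 2)) * e1)
    (by
      rw [hX]
      linear_combination e1)
    (by
      rw [hY, hX]
      ring)
  refine ⟨_, hn, hd, ?_⟩
  have h2Y : (2 : K) * Y ≠ 0 := mul_ne_zero two_ne_zero hY0
  intro i
  show ((X - th i) ^ 2 - fp th i) / (2 * Y) = h i
  rw [div_eq_iff h2Y]
  fin_cases i
  · show (X - th 0) ^ 2 - (th 0 - th 1) * (th 0 - th 2) = h 0 * (2 * Y)
    rw [t0, t1, t2, hX, hY]
    ring
  · show (X - th 1) ^ 2 - (th 1 - th 2) * (th 1 - th 0) = h 1 * (2 * Y)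
    rw [t0, t1, t2, hX, hY]
    ring
  · show (X - th 2) ^ 2 - (th 2 - th 0) * (th 2 - th 1) = h 2 * (2 * Y)
    rw [t0, t1, t2, hX, hY]
    ring

end DHAM

theorem specDHA (hDRT : SpecDRT) : SpecDHA := by
  intro F K _ _ _ _ a b D t h x hD ht hh
  exact DHAM.main (hDRT.scl hD ht) (h := h) (x := x) fun i => (hh i).2

end Pool.Agent.Lib.MP_8cb858_nt.PF
end

section
/-!
# DIN: the class of the cocycle determines `α` up to squares
-/
set_option autoImplicit false

namespace Pool.Agent.Lib.MP_8cb858_nt.PF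

open Polynomial Pool.Agent.Lib.MP_8cb858_nt.SEL
open scoped Classical

namespace DINM

theorem sq_one {n : ℤ} (h : n = 1 ∨ n = -1) : n * n = 1 := by
  rcases h with h | h <;> rw [h] <;> norm_num

/-- DIN with common roots -/
theorem key (hEVA : SpecEVA) (hDRT : SpecDRT) (hDIT : SpecDIT) (hDSG : SpecDSG)
    {F : Type} [Field F] [CharZero F] {a b D : F} {α β : Lk a b}
    (c c' : Gal F → Pt (cur a b D) (AlgebraicClosure F))
    (hD : D ≠ 0) (hc : ∀ σ, (2 : ℕ) • c σ = 0) (hc' : ∀ σ, (2 : ℕ) • c' σ = 0)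
    {t s s' : Fin 3 → AlgebraicClosure F}
    (ht : IsRoots (algebraMap F (AlgebraicClosure F) a) (algebraMap F (AlgebraicClosure F) b) t)
    (hs : ∀ i, s i ^ 2 = ev (algebraMap F (AlgebraicClosure F)) (t i) α)
    (hs' : ∀ i, s' i ^ 2 = ev (algebraMap F (AlgebraicClosure F)) (t i) β)
    (hsc : ∀ (σ : Gal F) (i k : Fin 3), σ (t i) = t k →
      σ (s i) = (sD t (c σ) k : AlgebraicClosure F) * s k)
    (hsc' : ∀ (σ : Gal F) (i k : Fin 3), σ (t i) = t k →
      σ (s' i) = (sD t (c' σ) k : AlgebraicClosure F) * s' k)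
    (hcob : ∃ T : Pt (cur a b D) (AlgebraicClosure F), (2 : ℕ) • T = 0 ∧
      ∀ σ : Gal F, (c - c') σ =
        push (cur a b D) (σ : AlgebraicClosure F →ₐ[F] AlgebraicClosure F) T - T) :
    IsSquare (α * β) := by
  obtain ⟨T, hT, hTc⟩ := hcob
  have hTpm := (hDSG.pm hD ht T hT).1
  have hinv : ∀ (σ : Gal F) (i k : Fin 3), σ (t i) = t k →
      σ ((sD t T i : AlgebraicClosure F) * s i * s' i) =
        (sD t T k : AlgebraicClosure F) * s k * s' k := by
    intro σ i k hik
    set σT := push (cur a b D) (σ : AlgebraicClosure F →ₐ[F] AlgebraicClosure F) T with hσT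
    have h2 : (2 : ℕ) • σT = 0 := by
      rw [hσT, ← map_nsmul, hT, map_zero]
    have h3 : sD t σT k = sD t T i :=
      (hDSG.push (σ : AlgebraicClosure F →ₐ[F] AlgebraicClosure F) hD ht ht i k hik T).1
    have h4 : c σ - c' σ = σT - T := hTc σ
    have h5 : c σ + T = σT + c' σ := by
      have h51 : c σ - c' σ + (c' σ + T) = σT - T + (c' σ + T) := by rw [h4]
      rw [show c σ - c' σ + (c' σ + T) = c σ + T by abel,
        show σT - T + (c' σ + T) = σT + c' σ by abel] at h51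
      exact h51
    have h6 : sD t (c σ) k * sD t T k = sD t σT k * sD t (c' σ) k := by
      rw [← hDSG.mul hD ht _ _ (hc σ) hT, ← hDSG.mul hD ht _ _ h2 (hc' σ), h5]
    have h7 := sq_one ((hDSG.pm hD ht (c σ) (hc σ)).1 k)
    have h8 : sD t T i * sD t (c σ) k * sD t (c' σ) k = sD t T k := by
      rw [← h3]
      calc sD t σT k * sD t (c σ) k * sD t (c' σ) k =
          sD t (c σ) k * (sD t σT k * sD t (c' σ) k) := by ring
        _ = sD t (c σ) k * (sD t (c σ) k * sD t T k) := by rw [h6]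
        _ = (sD t (c σ) k * sD t (c σ) k) * sD t T k := by ring
        _ = sD t T k := by rw [h7, one_mul]
    rw [map_mul, map_mul, map_intCast, hsc σ i k hik, hsc' σ i k hik, ← h8]
    push_cast
    ring
  obtain ⟨γ, hγ⟩ := hDIT.ex ht (fun i => (sD t T i : AlgebraicClosure F) * s i * s' i) hinv
  refine ⟨γ, ?_⟩
  apply hDIT.uq (algebraMap F (AlgebraicClosure F)) ht
  intro i
  rw [hEVA.mul _ _ _ _ (hDRT.rt ht i), hEVA.mul _ _ _ _ (hDRT.rt ht i), hγ i, ← hs i,
    ← hs' i]
  have h9 : ((sD t T i : ℤ) : AlgebraicClosure F) * (sD t T i : ℤ) = 1 := by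
    rw [← Int.cast_mul, sq_one (hTpm i), Int.cast_one]
  linear_combination (-(s i ^ 2 * s' i ^ 2)) * h9

end DINM

theorem specDIN (hEVA : SpecEVA) (hDRT : SpecDRT) (hDIT : SpecDIT) (hDSG : SpecDSG)
    (hDRO : SpecDRO) : SpecDIN := by
  intro F _ _ a b D α β c c' hD hc hc' hα hβ hcob
  have hα' := hα
  obtain ⟨t, _, ht, _⟩ := hα'
  obtain ⟨s, hs, hsc⟩ := hDRO F a b D α c hα t ht
  obtain ⟨s', hs', hsc'⟩ := hDRO F a b D β c' hβ t ht
  exact DINM.key hEVA hDRT hDIT hDSG c c' hD hc hc' ht (fun i => (hs i).2) (fun i => (hs' i).2)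
    hsc hsc' hcob

end Pool.Agent.Lib.MP_8cb858_nt.PF
end

section
/-!
# DIT: elements of the cubic algebra and their values at the roots
-/
namespace Pool.Agent.Lib.MP_8cb858_nt.PF

open Polynomial NumberField Pool.Agent.Lib.MP_8cb858_nt.SEL
open scoped Classical

namespace DITM

theorem vdm {M : Type} [Field M] {t : Fin 3 → M} (ht : Function.Injective t) {a b c : M}
    (h : ∀ i, a + b * t i + c * t i ^ 2 = 0) : a = 0 ∧ b = 0 ∧ c = 0 := by
  have h01 : t 0 - t 1 ≠ 0 := sub_ne_zero.2 (fun e => absurd (ht e) (by decide))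
  have h02 : t 0 - t 2 ≠ 0 := sub_ne_zero.2 (fun e => absurd (ht e) (by decide))
  have h12 : t 1 - t 2 ≠ 0 := sub_ne_zero.2 (fun e => absurd (ht e) (by decide))
  have e0 := h 0
  have e1 := h 1
  have e2 := h 2
  have f1 : b + c * (t 0 + t 1) = 0 := by
    apply (mul_eq_zero.1 (?_ : (t 0 - t 1) * (b + c * (t 0 + t 1)) = 0)).resolve_left h01
    linear_combination e0 - e1
  have f2 : b + c * (t 0 + t 2) = 0 := by
    apply (mul_eq_zero.1 (?_ : (t 0 - t 2) * (b + c * (t 0 + t 2)) = 0)).resolve_left h02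
    linear_combination e0 - e2
  have hc : c = 0 := by
    apply (mul_eq_zero.1 (?_ : (t 1 - t 2) * c = 0)).resolve_left h12
    linear_combination f1 - f2
  subst hc
  have hb : b = 0 := by linear_combination f1
  subst hb
  refine ⟨by linear_combination e0, rfl, rfl⟩

theorem lag {M : Type} [Field M] {t : Fin 3 → M} (ht : Function.Injective t) (r : Fin 3 → M) :
    ∃ a b c : M, ∀ i, a + b * t i + c * t i ^ 2 = r i := by
  have h01 : t 0 - t 1 ≠ 0 := sub_ne_zero.2 (fun e => absurd (ht e) (by decide))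
  have h02 : t 0 - t 2 ≠ 0 := sub_ne_zero.2 (fun e => absurd (ht e) (by decide))
  have h12 : t 1 - t 2 ≠ 0 := sub_ne_zero.2 (fun e => absurd (ht e) (by decide))
  set c := ((r 0 - r 1) / (t 0 - t 1) - (r 1 - r 2) / (t 1 - t 2)) / (t 0 - t 2) with hc
  set b := (r 0 - r 1) / (t 0 - t 1) - c * (t 0 + t 1) with hb
  refine ⟨r 0 - b * t 0 - c * t 0 ^ 2, b, c, ?_⟩
  have k1 : (t 0 - t 1) * (b + c * (t 0 + t 1)) = r 0 - r 1 := by
    rw [hb]
    field_simp
    ring
  have k2 : (t 1 - t 2) * (b + c * (t 1 + t 2)) = r 1 - r 2 := by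
    have : b + c * (t 1 + t 2) = (r 1 - r 2) / (t 1 - t 2) := by
      have h3 : c * (t 0 - t 2) = (r 0 - r 1) / (t 0 - t 1) - (r 1 - r 2) / (t 1 - t 2) := by
        rw [hc]
        field_simp
      rw [hb]
      linear_combination -h3
    rw [this]
    field_simp
  intro i
  fin_cases i
  · show r 0 - b * t 0 - c * t 0 ^ 2 + b * t 0 + c * t 0 ^ 2 = r 0
    ring
  · show r 0 - b * t 0 - c * t 0 ^ 2 + b * t 1 + c * t 1 ^ 2 = r 1
    linear_combination -k1
  · show r 0 - b * t 0 - c * t 0 ^ 2 + b * t 2 + c * t 2 ^ 2 = r 2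
    linear_combination -k1 - k2

end DITM

open DITM in
theorem specDIT (hCOO : SpecCOO) (hEVA : SpecEVA) (hNRM : SpecNRM) (hDRT : SpecDRT)
    (hFXD : SpecFXD.{0}) : SpecDIT where
  gal := by
    intro K _ a b s α x
    simp only [ev, map_add, map_mul, map_pow, AlgEquiv.commutes]
  uq := by
    intro K M _ _ a b φ t ht α β h
    have h1 : ∀ i, (φ (cf 0 α) - φ (cf 0 β)) + (φ (cf 1 α) - φ (cf 1 β)) * t i +
        (φ (cf 2 α) - φ (cf 2 β)) * t i ^ 2 = 0 := by
      intro i
      have := h i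
      simp only [ev] at this
      linear_combination this
    obtain ⟨p, q, r⟩ := vdm ht.inj h1
    rw [hCOO.ext α, hCOO.ext β, φ.injective (sub_eq_zero.1 p), φ.injective (sub_eq_zero.1 q),
      φ.injective (sub_eq_zero.1 r)]
  ex := by
    intro K _ _ a b t ht r hr
    obtain ⟨p, q, u, habc⟩ := lag ht.inj r
    have key : ∀ s : Gal K, s p = p ∧ s q = q ∧ s u = u := by
      intro s
      have h1 : ∀ k, (s p - p) + (s q - q) * t k + (s u - u) * t k ^ 2 = 0 := by
        intro k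
        obtain ⟨i, hi⟩ := hDRT.act' (s : AlgebraicClosure K →+* AlgebraicClosure K)
          (s.commutes a) (s.commutes b) ht k
        have hi' : s (t i) = t k := hi
        have h2 := congrArg s (habc i)
        rw [hr s i k hi'] at h2
        simp only [map_add, map_mul, map_pow, hi'] at h2
        have h3 := habc k
        linear_combination h2 - h3
      obtain ⟨x, y, z⟩ := vdm ht.inj h1
      exact ⟨sub_eq_zero.1 x, sub_eq_zero.1 y, sub_eq_zero.1 z⟩
    obtain ⟨p', hp⟩ := hFXD K p (fun s => (key s).1)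
    obtain ⟨q', hq⟩ := hFXD K q (fun s => (key s).2.1)
    obtain ⟨u', hu⟩ := hFXD K u (fun s => (key s).2.2)
    refine ⟨el a b p' q' u', fun i => ?_⟩
    rw [hEVA.elv, hp, hq, hu]
    exact habc i
  nrm := by
    intro K M _ _ a b φ t ht α
    exact hNRM.rts φ t α ht.e1 ht.e2 ht.e3
  unit := by
    intro K M _ _ a b φ t ht α
    rw [hNRM.unt, isUnit_iff_ne_zero, ← (map_ne_zero φ), hNRM.rts φ t α ht.e1 ht.e2 ht.e3]
    constructor
    · intro h i
      fin_cases i
      · exact (mul_ne_zero_iff.1 (mul_ne_zero_iff.1 h).1).1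
      · exact (mul_ne_zero_iff.1 (mul_ne_zero_iff.1 h).1).2
      · exact (mul_ne_zero_iff.1 h).2
    · intro h
      exact mul_ne_zero (mul_ne_zero (h 0) (h 1)) (h 2)
  up := by
    intro F K M _ _ _ _ a b ψ x α
    rw [up, hEVA.upv]

end Pool.Agent.Lib.MP_8cb858_nt.PF
end

section
/-! # DMU: products of classes and sums of cocycles -/
namespace Pool.Agent.Lib.MP_8cb858_nt.PF

open Polynomial NumberField IsDedekindDomain Pool.Agent.Lib.MP_8cb858_nt.SEL
open scoped Classical

theorem specDMU (hEVA : SpecEVA) (hDRT : SpecDRT) (hDRO : SpecDRO) (hDSG : SpecDSG)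
    (hDIT : SpecDIT) : SpecDMU := by
  refine ⟨?_, ?_⟩
  · intro F _ _ a b D α β c c' hD hc hc' hR hR'
    obtain ⟨t, s, ht, hs, hσ⟩ := hR
    obtain ⟨s', hs', hσ'⟩ := hDRO F a b D β c' hR' t ht
    have hσ2 : ∀ (σ : Gal F) (i k : Fin 3), σ (t i) = t k →
        σ (s i) = (sD t (c σ) k : AlgebraicClosure F) * s k := hσ
    refine ⟨t, fun i => s i * s' i, ht, fun i => ⟨mul_ne_zero (hs i).1 (hs' i).1, ?_⟩, ?_⟩
    · rw [mul_pow, (hs i).2, (hs' i).2, hEVA.mul _ _ _ _ (hDRT.rt ht i)]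
    · intro σ i k h
      show σ (s i * s' i) = (sD t ((c + c') σ) k : AlgebraicClosure F) * (s k * s' k)
      rw [map_mul, hσ2 σ i k h, hσ' σ i k h, Pi.add_apply, hDSG.mul hD ht _ _ (hc σ) (hc' σ)]
      push_cast
      ring
  · intro F _ a b D α γ c hγ hR
    obtain ⟨t, s, ht, hs, hσ⟩ := hR
    have hσ2 : ∀ (σ : Gal F) (i k : Fin 3), σ (t i) = t k →
        σ (s i) = (sD t (c σ) k : AlgebraicClosure F) * s k := hσ
    have hu := (hDIT.unit (algebraMap F (AlgebraicClosure F)) ht γ).1 hγ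
    refine ⟨t, fun i => s i * ev (algebraMap F (AlgebraicClosure F)) (t i) γ, ht,
      fun i => ⟨mul_ne_zero (hs i).1 (hu i), ?_⟩, ?_⟩
    · rw [mul_pow, (hs i).2, hEVA.mul _ _ _ _ (hDRT.rt ht i), pow_two γ,
        hEVA.mul _ _ _ _ (hDRT.rt ht i), pow_two]
    · intro σ i k h
      show σ (s i * ev (algebraMap F (AlgebraicClosure F)) (t i) γ) =
        (sD t (c σ) k : AlgebraicClosure F) *
          (s k * ev (algebraMap F (AlgebraicClosure F)) (t k) γ)
      have h3 : σ (ev (algebraMap F (AlgebraicClosure F)) (t i) γ) =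
          ev (algebraMap F (AlgebraicClosure F)) (σ (t i)) γ := hDIT.gal σ γ (t i)
      rw [map_mul, hσ2 σ i k h, h3, h]
      ring

end Pool.Agent.Lib.MP_8cb858_nt.PF
end

section
/-!
# DRO: the choice of the roots
-/
namespace Pool.Agent.Lib.MP_8cb858_nt.PF

open Polynomial NumberField Pool.Agent.Lib.MP_8cb858_nt.SEL
open scoped Classical

namespace DROM

theorem sg_congr {F K : Type} [Field F] [Field K] [Algebra F K] {E : WeierstrassCurve F}
    (th th' : Fin 3 → K) (S : Pt E K) (i k : Fin 3) (h : th i = th' k) :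
    sg th S i = sg th' S k := by
  cases S with
  | zero => rfl
  | some x y hxy =>
    show (if x = th i then (1 : ℤ) else -1) = (if x = th' k then (1 : ℤ) else -1)
    rw [h]

end DROM

open DROM in
theorem specDRO (hDRT : SpecDRT) : SpecDRO := by
  intro F _ a b D α c hrel t ht
  obtain ⟨t', s', ht', hs', hr⟩ := hrel
  obtain ⟨p, hp⟩ := hDRT.perm ht ht'
  have hp' : ∀ i, t' (p.symm i) = t i := by
    intro i
    rw [hp, Equiv.apply_symm_apply]
  refine ⟨fun i => s' (p.symm i), fun i => ?_, fun σ i k hik => ?_⟩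
  · obtain ⟨h1, h2⟩ := hs' (p.symm i)
    refine ⟨h1, ?_⟩
    rw [h2, hp']
  · have h1 := hr σ (p.symm i) (p.symm k) (by rw [hp', hp', hik])
    rw [h1, sD, sg_congr (fun j => algebraMap F (AlgebraicClosure F) D * t' j)
      (fun j => algebraMap F (AlgebraicClosure F) D * t j) (c σ) (p.symm k) k (by
        show algebraMap F (AlgebraicClosure F) D * t' (p.symm k) =
          algebraMap F (AlgebraicClosure F) D * t k
        rw [hp'])]

end Pool.Agent.Lib.MP_8cb858_nt.PF
end

section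
/-!
# Module HLV: explicit halving
-/
namespace Pool.Agent.Lib.MP_8cb858_nt.PF

open Polynomial NumberField Pool.Agent.Lib.MP_8cb858_nt.SEL
open WeierstrassCurve.Affine
open scoped Classical

namespace HLVM

variable {K : Type} [Field K] [CharZero K] {a b : K}

omit [CharZero K] in
lemma eqn {x y : K} (h : ((curve a b).baseChange K).toAffine.Nonsingular x y) :
    y ^ 2 = x ^ 3 + a * x + b := by
  have h1 := (equation_iff _ _).1 h.1
  simp only [curve, WeierstrassCurve.baseChange, WeierstrassCurve.map, map_zero, zero_mul,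
    add_zero] at h1
  rw [h1]
  simp

lemma nonsing {x y : K} (hy : y ≠ 0) (h : y ^ 2 = x ^ 3 + a * x + b) :
    ((curve a b).baseChange K).toAffine.Nonsingular x y := by
  rw [WeierstrassCurve.Affine.nonsingular_iff']
  have h2 : ((curve a b).baseChange K).toAffine.Equation x y := by
    rw [WeierstrassCurve.Affine.equation_iff]
    simpa [curve, WeierstrassCurve.baseChange, WeierstrassCurve.map] using h
  refine ⟨h2, Or.inr ?_⟩
  simp [curve, WeierstrassCurve.baseChange, WeierstrassCurve.map, hy]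

/-- coordinates of a square root of `x - θ` -/
lemma coords (hC : SpecCOO) {x : K}
    (hs : IsSquare (AdjoinRoot.of (fpol a b) x - th a b)) :
    ∃ u v w : K, x = u * u - b * (v * w + w * v) ∧
      0 = u * v + v * u - a * (v * w + w * v) - b * (w * w) + 1 ∧
      0 = u * w + v * v + w * u - a * (w * w) := by
  obtain ⟨β, hβ⟩ := hs
  refine ⟨cf 0 β, cf 1 β, cf 2 β, ?_⟩
  set u := cf 0 β with hu
  set v := cf 1 β with hv
  set w := cf 2 β with hw
  have h1 : β = el a b u v w := hC.ext β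
  have h2 : AdjoinRoot.of (fpol a b) x = β * β + th a b := by
    rw [← hβ]; ring
  rw [h1, hC.mul, hC.ofv, hC.thv, hC.add] at h2
  obtain ⟨a0, a1, a2⟩ := hC.co (a := a) (b := b) x 0 0
  rw [h2] at a0 a1 a2
  obtain ⟨b0, b1, b2⟩ := hC.co (a := a) (b := b) (u * u - b * (v * w + w * v) + 0)
    (u * v + v * u - a * (v * w + w * v) - b * (w * w) + 1)
    (u * w + v * v + w * u - a * (w * w) + 0)
  rw [b0] at a0
  rw [b1] at a1
  rw [b2] at a2
  refine ⟨?_, a1.symm, ?_⟩
  · rw [← a0, add_zero]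
  · rw [← a2, add_zero]

end HLVM

theorem specHLV (hCOO : SpecCOO) : SpecHLV := by
  intro K _ _ a b hD x y h hs
  obtain ⟨u, v, w, e0, e1, e2⟩ := HLVM.coords hCOO hs
  have hw : w ≠ 0 := by
    rintro rfl
    have hv : v = 0 := by
      have : v * v = 0 := by linear_combination -e2
      exact mul_self_eq_zero.1 this
    rw [hv] at e1
    apply one_ne_zero (α := K)
    linear_combination -e1
  obtain ⟨s, hs'⟩ : ∃ s, v = s * w := ⟨v / w, by field_simp⟩
  subst hs'
  have h2 : (2 : K) ≠ 0 := two_ne_zero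
  have hu : 2 * u = w * (a - s ^ 2) := by
    apply mul_right_cancel₀ hw
    linear_combination -e2
  have hfs : w ^ 2 * (s ^ 3 + a * s + b) = 1 := by
    linear_combination e1 + (s * w) * hu
  have hin : (1 / w) ^ 2 = s ^ 3 + a * s + b := by
    field_simp
    linear_combination -hfs
  have hw' : (1 / w : K) ≠ 0 := one_div_ne_zero hw
  have hns := HLVM.nonsing (a := a) (b := b) hw' hin
  obtain ⟨x', y', h', h3, h4⟩ := HALM.dbl (a := a) (b := b) hns hw'
  have hx : x' = x := by
    rw [h4, e0]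
    have : (algebraMap K K) a = a := rfl
    rw [this]
    field_simp
    have hu2 : 4 * (u * u) = (w * (a - s ^ 2)) ^ 2 := by
      rw [← hu]; ring
    linear_combination -hu2 + 8 * s * hfs
  subst hx
  have hy2 : y' ^ 2 = y ^ 2 := by
    rw [HLVM.eqn h, HLVM.eqn h']
  rcases sq_eq_sq_iff_eq_or_eq_neg.1 hy2 with hy | hy
  · subst hy
    exact ⟨_, h3⟩
  · refine ⟨-(Point.some s (1 / w) hns), ?_⟩
    rw [smul_neg, h3, Point.neg_some]
    simp only [Point.some.injEq, true_and]
    rw [HALM.negY_eq, hy, neg_neg]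

end Pool.Agent.Lib.MP_8cb858_nt.PF
end

section
/-!
# Module DSQ: the Kummer map is injective
-/
namespace Pool.Agent.Lib.MP_8cb858_nt.PF

open Polynomial NumberField Pool.Agent.Lib.MP_8cb858_nt.SEL
open WeierstrassCurve.Affine
open scoped Classical

namespace DSQM

variable {K : Type} [Field K] {a b : K}

lemma th3 : th a b ^ 3 = -AdjoinRoot.of (fpol a b) a * th a b - AdjoinRoot.of (fpol a b) b := by
  have h := AdjoinRoot.eval₂_root (fpol a b)
  rw [eval₂_fpol] at h
  unfold th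
  linear_combination h

lemma unit {x : K} (hx : x ^ 3 + a * x + b ≠ 0) :
    IsUnit (AdjoinRoot.of (fpol a b) x - th a b) := by
  set ξ := AdjoinRoot.of (fpol a b) x with ha
  set c := x ^ 3 + a * x + b with hc
  have h1 : AdjoinRoot.of (fpol a b) c = ξ ^ 3 + AdjoinRoot.of (fpol a b) a * ξ +
      AdjoinRoot.of (fpol a b) b := by
    rw [hc, ha]; simp only [map_add, map_mul, map_pow]
  have h2 : AdjoinRoot.of (fpol a b) c * AdjoinRoot.of (fpol a b) c⁻¹ = 1 := by
    rw [← map_mul, mul_inv_cancel₀ hx, map_one]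
  refine IsUnit.of_mul_eq_one
    ((th a b ^ 2 + ξ * th a b + ξ ^ 2 + AdjoinRoot.of (fpol a b) a) *
      AdjoinRoot.of (fpol a b) c⁻¹) ?_
  have h3 : (ξ - th a b) * (th a b ^ 2 + ξ * th a b + ξ ^ 2 + AdjoinRoot.of (fpol a b) a) =
      AdjoinRoot.of (fpol a b) c := by
    rw [h1]
    linear_combination -(th3 (a := a) (b := b))
  rw [← mul_assoc, h3, h2]

variable [CharZero K]

lemma add_ne {x₁ y₁ x₂ y₂ : K}
    (h₁ : ((curve a b).baseChange K).toAffine.Nonsingular x₁ y₁)
    (h₂ : ((curve a b).baseChange K).toAffine.Nonsingular x₂ y₂) (hx : x₁ ≠ x₂) :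
    ∃ (x₃ y₃ : K) (h₃ : ((curve a b).baseChange K).toAffine.Nonsingular x₃ y₃),
      (Point.some x₁ y₁ h₁ : Pt (curve a b) K) + Point.some x₂ y₂ h₂ =
        Point.some x₃ y₃ h₃ ∧ x₃ = ((y₁ - y₂) / (x₁ - x₂)) ^ 2 - x₁ - x₂ := by
  refine ⟨_, _, _, Point.add_of_X_ne hx, ?_⟩
  rw [slope_of_X_ne hx]
  simp only [addX, curve, WeierstrassCurve.baseChange, WeierstrassCurve.map, map_zero]
  ring

end DSQM

theorem specDSQ (hHLV : SpecHLV) : SpecDSQ := by
  intro K _ _ a b hD x₁ y₁ x₂ y₂ h₁ h₂ hy₁ hy₂ hs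
  have e₁ := HLVM.eqn h₁
  have e₂ := HLVM.eqn h₂
  by_cases hx : x₁ = x₂
  · subst hx
    have hy : y₁ ^ 2 = y₂ ^ 2 := by rw [e₁, e₂]
    rcases sq_eq_sq_iff_eq_or_eq_neg.1 hy with h | h
    · subst h
      refine ⟨0, ?_⟩
      rw [smul_zero, sub_self]
    · refine ⟨Point.some x₁ y₁ h₁, ?_⟩
      have : (Point.some x₁ y₂ h₂ : Pt (curve a b) K) = -(Point.some x₁ y₁ h₁) := by
        rw [Point.neg_some]
        simp only [Point.some.injEq, true_and]
        rw [HALM.negY_eq, h, neg_neg]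
      rw [this, sub_neg_eq_add, two_nsmul]
  · have hneg : -(Point.some x₂ y₂ h₂ : Pt (curve a b) K) =
        Point.some x₂ (-y₂) (by
          have := (nonsingular_neg x₂ y₂).2 h₂
          rwa [HALM.negY_eq] at this) := by
      rw [Point.neg_some]
      simp only [Point.some.injEq, true_and]
      rw [HALM.negY_eq]
    rw [sub_eq_add_neg, hneg]
    obtain ⟨x₃, y₃, h₃, h4, h5⟩ := DSQM.add_ne h₁ (by
          have := (nonsingular_neg x₂ y₂).2 h₂
          rwa [HALM.negY_eq] at this :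
            ((curve a b).baseChange K).toAffine.Nonsingular x₂ (-y₂)) hx
    rw [h4]
    obtain ⟨S, hS⟩ := hHLV K a b hD x₃ y₃ h₃ (by
      obtain ⟨g, hg⟩ := hs
      have hxx : x₁ - x₂ ≠ 0 := sub_ne_zero.2 hx
      set l : K := (y₁ + y₂) / (x₁ - x₂) with hl
      have hl' : l * (x₁ - x₂) = y₁ + y₂ := by rw [hl]; field_simp
      have h5' : x₃ = l ^ 2 - x₁ - x₂ := by rw [h5, hl, sub_neg_eq_add]
      set n : K := y₁ - l * x₁ with hn
      have hu1 := DSQM.unit (a := a) (b := b) (x := x₁) (by rw [← e₁]; exact pow_ne_zero 2 hy₁)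
      have hu2 := DSQM.unit (a := a) (b := b) (x := x₂) (by rw [← e₂]; exact pow_ne_zero 2 hy₂)
      have hgu : IsUnit g := by
        have := hu1.mul hu2
        rw [hg] at this
        exact isUnit_of_mul_isUnit_left this
      obtain ⟨g', hg'⟩ := hgu.exists_right_inv
      -- the coefficients
      have c2 : x₁ + x₂ + x₃ = l ^ 2 := by rw [h5']; ring
      have hy2' : l * x₂ + n = -y₂ := by rw [hn]; linear_combination -hl'
      -- (lX+n)^2 - f(X) vanishes at x1, x2
      have k1 : a - 2 * l * n = x₁ * x₂ + x₁ * x₃ + x₂ * x₃ := by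
        apply mul_right_cancel₀ hxx
        have q1 : y₁ = l * x₁ + n := by rw [hn]; ring
        have q2 : (l * x₁ + n) ^ 2 = x₁ ^ 3 + a * x₁ + b := by rw [← q1, e₁]
        have q3 : (l * x₂ + n) ^ 2 = x₂ ^ 3 + a * x₂ + b := by rw [hy2', neg_sq, e₂]
        rw [h5']
        linear_combination q3 - q2
      have k2 : n ^ 2 - b = x₁ * x₂ * x₃ := by
        have q1 : y₁ = l * x₁ + n := by rw [hn]; ring
        have q2 : (l * x₁ + n) ^ 2 = x₁ ^ 3 + a * x₁ + b := by rw [← q1, e₁]
        rw [h5'] at k1 ⊢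
        linear_combination q2 + x₁ * k1
      have key : ((AdjoinRoot.of (fpol a b) l * th a b + AdjoinRoot.of (fpol a b) n)) ^ 2 =
          (AdjoinRoot.of (fpol a b) x₁ - th a b) * (AdjoinRoot.of _ x₂ - th a b) *
            (AdjoinRoot.of _ x₃ - th a b) := by
        have c2' := congrArg (AdjoinRoot.of (fpol a b)) c2
        have k1' := congrArg (AdjoinRoot.of (fpol a b)) k1
        have k2' := congrArg (AdjoinRoot.of (fpol a b)) k2
        simp only [map_add, map_mul, map_pow, map_sub, map_ofNat] at c2' k1' k2'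
        have t3 := DSQM.th3 (a := a) (b := b)
        linear_combination k2' - (th a b) * k1' - (th a b) ^ 2 * c2' + t3
      refine ⟨(AdjoinRoot.of (fpol a b) l * th a b + AdjoinRoot.of (fpol a b) n) * g', ?_⟩
      rw [hg] at key
      linear_combination (-(g' ^ 2)) * key - (g * g' + 1) * (AdjoinRoot.of (fpol a b) x₃ - th a b) * hg')
    exact ⟨S, hS.symm⟩

end Pool.Agent.Lib.MP_8cb858_nt.PF
end

section
/-!
# Module KMC: many Kummer classes (helper68)
-/
namespace Pool.Agent.Lib.MP_8cb858_nt.PF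

open Polynomial NumberField IsDedekindDomain Pool.Agent.Lib.MP_8cb858_nt.SEL
open scoped Classical WithZero

namespace KMCM

section

variable {K : Type} [Field K] [CharZero K] {a b : K}

omit [CharZero K] in
theorem eqn {x y : K} : ((curve a b).baseChange K).toAffine.Equation x y ↔
    y ^ 2 = x ^ 3 + a * x + b := by
  rw [WeierstrassCurve.Affine.equation_iff]
  simp [curve, WeierstrassCurve.baseChange, WeierstrassCurve.map]

theorem nonsing {x y : K} (hy : y ≠ 0) (h : y ^ 2 = x ^ 3 + a * x + b) :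
    ((curve a b).baseChange K).toAffine.Nonsingular x y := by
  rw [WeierstrassCurve.Affine.nonsingular_iff']
  refine ⟨eqn.2 h, Or.inr ?_⟩
  simp [curve, WeierstrassCurve.baseChange, WeierstrassCurve.map, hy]

omit [CharZero K] in
theorem der_ne {t : K} (hd : dsc a b ≠ 0) (h : t ^ 3 + a * t + b = 0) : 3 * t ^ 2 + a ≠ 0 := by
  intro h1
  apply hd
  have hA : a = -(3 * t ^ 2) := by linear_combination h1
  have hB : b = 2 * t ^ 3 := by
    rw [hA] at h
    linear_combination h
  unfold dsc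
  rw [hA, hB]
  ring

omit [CharZero K] in
theorem nonsing_root {t : K} (hd : dsc a b ≠ 0) (h : t ^ 3 + a * t + b = 0) :
    ((curve a b).baseChange K).toAffine.Nonsingular t 0 := by
  rw [WeierstrassCurve.Affine.nonsingular_iff']
  refine ⟨eqn.2 (by rw [h]; ring), Or.inl ?_⟩
  have h1 := der_ne hd h
  simp only [curve, WeierstrassCurve.baseChange, WeierstrassCurve.map, map_zero, zero_mul,
    zero_sub, ne_eq, neg_eq_zero]
  intro h2
  apply h1
  simpa using h2

/-- a point of order 2 has `y = 0` -/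
theorem y_of_dbl {x y : K} (h : ((curve a b).baseChange K).toAffine.Nonsingular x y)
    (h2 : (2 : ℕ) • WeierstrassCurve.Affine.Point.some x y h = 0) : y = 0 := by
  rw [two_nsmul] at h2
  have h3 := eq_neg_of_add_eq_zero_left h2
  rw [WeierstrassCurve.Affine.Point.neg_some] at h3
  simp only [WeierstrassCurve.Affine.Point.some.injEq, true_and] at h3
  have h4 : y = -y := by
    simpa [WeierstrassCurve.Affine.negY, curve, WeierstrassCurve.baseChange,
      WeierstrassCurve.map] using h3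
  have h5 : (2 : K) * y = 0 := by linear_combination h4
  exact (mul_eq_zero.1 h5).resolve_left two_ne_zero

omit [CharZero K] in
theorem En_mono {w : Valuation K ℤᵐ⁰} {n m : ℕ} (h : m ≤ n) {P : Pt (curve a b) K}
    (hP : En w n P) : En w m P := by
  cases P with
  | zero => exact trivial
  | some x y hxy =>
    show WithZero.exp (2 * (m : ℤ)) ≤ w x
    have h1 : WithZero.exp (2 * (n : ℤ)) ≤ w x := hP
    refine le_trans ?_ h1
    rw [WithZero.exp_le_exp]
    omega

end

/-- `w 2 = exp (-e)` -/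
theorem exists_e {K : Type} [Field K] [CharZero K] (w : Valuation K ℤᵐ⁰) :
    ∃ n : ℕ, 1 ≤ n ∧ WithZero.exp (-(n : ℤ)) < w 2 := by
  have h2 : w 2 ≠ 0 := (Valuation.ne_zero_iff w).2 two_ne_zero
  refine ⟨(-(WithZero.log (w 2))).toNat + 1, by omega, ?_⟩
  conv_rhs => rw [← WithZero.exp_log h2]
  rw [WithZero.exp_lt_exp]
  omega

end KMCM

open KMCM in
theorem specKMC (hNRM : SpecNRM) (hENG : SpecENG) (hEFI : SpecEFI) (hEPC : SpecEPC) (hHQ : SpecHQ)
    (hDSQ : SpecDSQ) (hHLV : SpecHLV) (hLZ : SpecLZ) : SpecKMC := by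
  intro K _ _ w a b r t hw ha hb hd ht hroot
  obtain ⟨n, hn1, hn⟩ := exists_e w
  obtain ⟨G, hG⟩ := hENG.grp w a b n ha hb hd hn1
  obtain ⟨s, hs⟩ := hEFI K w a b n hw ha hb hd hn1
  have hfin : G.FiniteIndex := by
    have h1 : Finite (Pt (curve a b) K ⧸ G) := by
      refine Finite.of_surjective (fun Q : s => (QuotientAddGroup.mk Q.1 :
        Pt (curve a b) K ⧸ G)) ?_
      intro q
      obtain ⟨P, rfl⟩ := QuotientAddGroup.mk_surjective q
      obtain ⟨Q, hQs, hQ⟩ := hs P
      refine ⟨⟨Q, hQs⟩, ?_⟩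
      show (QuotientAddGroup.mk Q : Pt (curve a b) K ⧸ G) = QuotientAddGroup.mk P
      rw [QuotientAddGroup.eq]
      have h2 : P - Q ∈ G := (hG _).mpr hQ
      have h3 : -Q + P = P - Q := by abel
      rw [h3]
      exact h2
    exact AddSubgroup.finiteIndex_of_finite_quotient
  let T : Fin (r + 1) → Pt (curve a b) K :=
    Fin.cons 0 (fun i => WeierstrassCurve.Affine.Point.some (t i) 0 (nonsing_root hd (hroot i)))
  have hT2 : ∀ i, (2 : ℕ) • T i = 0 := by
    intro i
    refine Fin.cases ?_ (fun j => ?_) i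
    · exact smul_zero 2
    · exact HALM.dbl_zero _ rfl
  have hTinj : Function.Injective T := by
    rw [Fin.cons_injective_iff]
    refine ⟨?_, ?_⟩
    · rintro ⟨i, hi⟩
      exact WeierstrassCurve.Affine.Point.some_ne_zero _ hi
    · intro i j hij
      simp only [WeierstrassCurve.Affine.Point.some.injEq, and_true] at hij
      exact ht hij
  obtain ⟨c, hc1, hc2⟩ := hEPC K w a b n hw ha hb hd hn1 hn
  obtain ⟨g, hg⟩ := hHQ.1 _ G (two w) (r + 1) c T hfin
    (fun x hx h2 => hENG.tor w a b x ha hb hd (En_mono hn1 ((hG x).mp hx)) h2)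
    (fun i => (hG _).2 (hc1 i)) (fun i j hij x hx => hc2 i j hij x ((hG x).1 hx)) hTinj hT2
  -- a point `2 S` which is not 2-torsion
  obtain ⟨x0, y0, hy0, he0, hsq0⟩ := hLZ K w a b 1 1 hw one_ne_zero ⟨1, by rw [mul_one]⟩
  rw [one_mul] at he0
  rw [map_one, one_mul, one_mul] at hsq0
  obtain ⟨S, hS⟩ := hHLV K a b hd x0 y0 (nonsing hy0 he0) hsq0
  have hS4 : (2 : ℕ) • ((2 : ℕ) • S) ≠ 0 := by
    intro h
    rw [hS] at h
    exact hy0 (y_of_dbl _ h)
  have hchoice : ∀ i, ∃ R, (2 : ℕ) • (g i + (2 : ℕ) • R) ≠ 0 := by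
    intro i
    by_cases h : (2 : ℕ) • g i = 0
    · refine ⟨S, ?_⟩
      rw [smul_add, h, zero_add]
      exact hS4
    · refine ⟨0, ?_⟩
      rw [smul_zero, add_zero]
      exact h
  choose R hR using hchoice
  have hsome : ∀ i, ∃ (x y : K)
      (h : ((curve a b).baseChange K).toAffine.Nonsingular x y),
      g i + (2 : ℕ) • R i = WeierstrassCurve.Affine.Point.some x y h ∧ y ≠ 0 := by
    intro i
    have h1 := hR i
    cases hP : g i + (2 : ℕ) • R i with
    | zero =>
      exfalso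
      apply h1
      rw [hP]
      exact smul_zero 2
    | some x y h =>
      refine ⟨x, y, h, rfl, ?_⟩
      intro hy
      apply h1
      rw [hP]
      exact HALM.dbl_zero h hy
  choose x y hns hP hy using hsome
  have heq : ∀ i, y i ^ 2 = x i ^ 3 + a * x i + b := fun i => eqn.mp (hns i).1
  refine ⟨fun i => AdjoinRoot.of _ (x i) - th a b, fun i => ⟨?_, ?_⟩, ?_⟩
  · have h1 := hNRM.lin (a := a) (b := b) (1 : K) (x i)
    rw [map_one, one_mul, one_pow, one_mul, ← heq i] at h1
    refine ⟨?_, ?_⟩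
    · rw [hNRM.unt, h1]
      exact (pow_ne_zero 2 (hy i)).isUnit
    · rw [h1]
      exact ⟨y i, sq (y i)⟩
  · refine ⟨x i, y i, hy i, ?_, ?_⟩
    · rw [one_mul]
      exact heq i
    · rw [map_one, one_mul]
      exact ⟨_, rfl⟩
  · intro i j hij hsq
    obtain ⟨S, hS⟩ := hDSQ K a b hd (x i) (y i) (x j) (y j) (hns i) (hns j) (hy i) (hy j) hsq
    rw [← hP i, ← hP j] at hS
    apply hg i j hij (S - R i + R j)
    have h1 : (2 : ℕ) • (S - R i + R j) = (2 : ℕ) • S - (2 : ℕ) • R i + (2 : ℕ) • R j := by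
      rw [smul_add, smul_sub]
    rw [h1, ← hS]
    abel

end Pool.Agent.Lib.MP_8cb858_nt.PF
end

section
/-!
# Module EPC: many points of level `n`
-/
namespace Pool.Agent.Lib.MP_8cb858_nt.PF

open Polynomial NumberField IsDedekindDomain Pool.Agent.Lib.MP_8cb858_nt.SEL
open scoped Classical WithZero

namespace EPCM

theorem exp_shift {x : ℤᵐ⁰} {k m : ℤ} (h : x * WithZero.exp k ≤ WithZero.exp m) :
    x ≤ WithZero.exp (m - k) := by
  have h1 : x = x * WithZero.exp k * WithZero.exp (-k) := by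
    rw [mul_assoc, ← WithZero.exp_add, add_neg_cancel, WithZero.exp_zero, mul_one]
  rw [h1, sub_eq_add_neg, WithZero.exp_add]
  exact mul_le_mul_left h _

theorem exp_pow (m : ℤ) (j : ℕ) : (WithZero.exp m) ^ j = WithZero.exp ((j : ℤ) * m) := by
  rw [← WithZero.exp_nsmul, nsmul_eq_mul]

variable {K : Type} [Field K] [CharZero K] {a b : K}

/-- A point near `ζ`. -/
theorem near (hHNA : SpecHNA) {w : Valuation K ℤᵐ⁰} (hw : IsLF w) {n e : ℕ}
    (ha : w a ≤ 1) (hb : w b ≤ 1) (he : w 2 = WithZero.exp (-(e : ℤ))) (hn : 1 ≤ n) (hen : e < n)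
    (ζ : K) (hζ : w ζ ≤ WithZero.exp (-(n : ℤ))) :
    ∃ P : Pt (curve a b) K, En w n P ∧ w (pz P - ζ) ≤ WithZero.exp (-((n + e : ℕ) : ℤ)) := by
  by_cases h0 : ζ = 0
  · refine ⟨WeierstrassCurve.Affine.Point.zero, trivial, ?_⟩
    show w (0 - ζ) ≤ _
    rw [h0, sub_zero, map_zero]
    exact zero_le
  have hζ0 : w ζ ≠ 0 := (w.ne_zero_iff).mpr h0
  have hζ1 : w ζ ≤ 1 := hζ.trans (by
    rw [← WithZero.exp_zero, WithZero.exp_le_exp]
    omega)
  have hp4 : w (ζ ^ 4) ≤ WithZero.exp (-(4 * (n : ℤ))) := by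
    rw [map_pow]
    refine (pow_le_pow_left₀ zero_le hζ 4).trans (le_of_eq ?_)
    rw [exp_pow]
    congr 1
    push_cast
    ring
  have h2 : (2 : K) ≠ 0 := two_ne_zero
  have h4 : (4 : K) ≠ 0 := by
    have h : (4 : K) = 2 * 2 := by norm_num
    rw [h]
    exact mul_ne_zero h2 h2
  obtain ⟨z, hz⟩ : ∃ z : K, a * ζ ^ 4 + b * ζ ^ 6 = 4 * z := ⟨(a * ζ ^ 4 + b * ζ ^ 6) / 4, by
    field_simp⟩
  have hw4 : w 4 = WithZero.exp (-(2 * (e : ℤ))) := by
    have h : (4 : K) = 2 ^ 2 := by norm_num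
    rw [h, map_pow, he, exp_pow]
    congr 1
    push_cast
    ring
  have hwz : w z ≤ WithZero.exp (-(4 * (n : ℤ)) + 2 * e) := by
    have h1 : w (a * ζ ^ 4 + b * ζ ^ 6) ≤ WithZero.exp (-(4 * (n : ℤ))) := by
      refine (w.map_add _ _).trans (max_le ?_ ?_)
      · rw [map_mul]
        exact (mul_le_of_le_one_left' ha).trans hp4
      · have h5 : b * ζ ^ 6 = (b * ζ ^ 2) * ζ ^ 4 := by ring
        rw [h5, map_mul, map_mul, map_pow]
        exact (mul_le_of_le_one_left' (mul_le_one' hb (pow_le_one' hζ1 2))).trans hp4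
    rw [hz, map_mul, mul_comm, hw4] at h1
    have h3 := exp_shift h1
    refine h3.trans (le_of_eq ?_)
    congr 1
    ring
  have hz1 : w z < 1 := lt_of_le_of_lt hwz (by
    rw [← WithZero.exp_zero, WithZero.exp_lt_exp]
    omega)
  obtain ⟨y, hy, hy2⟩ := hHNA.one z hw hz1
  have h2y : w (2 * y) ≤ WithZero.exp (-(4 * (n : ℤ)) + e) := by
    rw [map_mul, he]
    refine (mul_le_mul_right (hy.trans hwz) _).trans (le_of_eq ?_)
    rw [← WithZero.exp_add]
    congr 1
    ring
  have h2y1 : w (2 * y) < 1 := lt_of_le_of_lt h2y (by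
    rw [← WithZero.exp_zero, WithZero.exp_lt_exp]
    omega)
  have hu : w (1 + 2 * y) = 1 := by
    rw [w.map_add_eq_of_lt_left (by rw [map_one]; exact h2y1), map_one]
  have hu0 : 1 + 2 * y ≠ 0 := by
    intro h
    rw [h, map_zero] at hu
    exact zero_ne_one hu
  have hY0 : (1 + 2 * y) / ζ ^ 3 ≠ 0 := div_ne_zero hu0 (pow_ne_zero 3 h0)
  have heq : ((1 + 2 * y) / ζ ^ 3) ^ 2 = (1 / ζ ^ 2) ^ 3 + a * (1 / ζ ^ 2) + b := by
    have h5 : ((1 + 2 * y) / ζ ^ 3) ^ 2 = (1 + 2 * y) ^ 2 / ζ ^ 6 := by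
      rw [div_pow]
      congr 1
      ring
    rw [h5, hy2, ← hz]
    field_simp
    ring
  refine ⟨WeierstrassCurve.Affine.Point.some (1 / ζ ^ 2) ((1 + 2 * y) / ζ ^ 3)
    (KMCM.nonsing hY0 heq), ?_, ?_⟩
  · show WithZero.exp (2 * (n : ℤ)) ≤ w (1 / ζ ^ 2)
    have h5 : w (1 / ζ ^ 2) * w (ζ ^ 2) = 1 := by
      rw [← map_mul, one_div, inv_mul_cancel₀ (pow_ne_zero 2 h0), map_one]
    have h6 : w (ζ ^ 2) ≤ WithZero.exp (-(2 * (n : ℤ))) := by
      rw [map_pow]
      refine (pow_le_pow_left₀ zero_le hζ 2).trans (le_of_eq ?_)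
      rw [exp_pow]
      congr 1
      push_cast
      ring
    by_contra hlt
    rw [not_le] at hlt
    have h7 : w (1 / ζ ^ 2) * w (ζ ^ 2) < 1 := by
      calc w (1 / ζ ^ 2) * w (ζ ^ 2) ≤ w (1 / ζ ^ 2) * WithZero.exp (-(2 * (n : ℤ))) :=
            mul_le_mul_right h6 _
        _ < WithZero.exp (2 * (n : ℤ)) * WithZero.exp (-(2 * (n : ℤ))) :=
            mul_lt_mul_of_pos_right hlt WithZero.exp_pos
        _ = 1 := by rw [← WithZero.exp_add, add_neg_cancel, WithZero.exp_zero]
    exact absurd h5 h7.ne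
  · have h5 : pz (WeierstrassCurve.Affine.Point.some (1 / ζ ^ 2) ((1 + 2 * y) / ζ ^ 3)
        (KMCM.nonsing hY0 heq) : Pt (curve a b) K) - ζ = -(2 * y) * ζ * (1 + 2 * y)⁻¹ := by
      show (1 / ζ ^ 2) / ((1 + 2 * y) / ζ ^ 3) - ζ = _
      field_simp
      ring
    rw [h5, map_mul, map_mul, Valuation.map_neg, map_inv₀, hu, inv_one, mul_one]
    have h6 : w (2 * y) * w ζ ≤ WithZero.exp (-(4 * (n : ℤ)) + e) * WithZero.exp (-(n : ℤ)) :=
      mul_le_mul' h2y hζ
    refine h6.trans ?_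
    rw [← WithZero.exp_add, WithZero.exp_le_exp]
    push_cast
    omega

end EPCM

open EPCM in
theorem specEPC (hVAL : SpecVAL) (hLFB : SpecLFB) (hHNA : SpecHNA) (hENG : SpecENG) :
    SpecEPC := by
  intro K _ _ w a b n hw ha hb hd hn hn2
  obtain ⟨ϖ, hϖ⟩ := hVAL.uni hw
  have h20 : w 2 ≠ 0 := (w.ne_zero_iff).mpr two_ne_zero
  have h21 : w 2 ≤ 1 := by
    have h : (2 : K) = 1 + 1 := by norm_num
    rw [h]
    refine (w.map_add 1 1).trans ?_
    rw [map_one, max_self]
  obtain ⟨m, hm⟩ : ∃ m : ℤ, w 2 = WithZero.exp m := ⟨_, (WithZero.exp_log h20).symm⟩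
  have hm0 : m ≤ 0 := by
    rw [hm, ← WithZero.exp_zero, WithZero.exp_le_exp] at h21
    exact h21
  have he : w 2 = WithZero.exp (-((m.natAbs : ℕ) : ℤ)) := by
    rw [hm]
    congr 1
    omega
  have hen : m.natAbs < n := by
    rw [hm, WithZero.exp_lt_exp] at hn2
    omega
  obtain ⟨-, -, c, hc1, hc2, -⟩ := hLFB.two hw
  have hζ : ∀ i, w (ϖ ^ n * c i) ≤ WithZero.exp (-(n : ℤ)) := by
    intro i
    rw [map_mul, map_pow, hϖ, exp_pow]
    refine (mul_le_of_le_one_right' (hc1 i)).trans (le_of_eq ?_)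
    congr 1
    ring
  choose s hs1 hs2 using fun i => near (a := a) (b := b) hHNA hw ha hb he hn hen (ϖ ^ n * c i) (hζ i)
  refine ⟨s, hs1, ?_⟩
  intro i j hij Q hQ heq
  apply hij
  have h1 := hENG.dbl w a b n m.natAbs Q ha hb hd hn he hQ
  rw [← heq] at h1
  have h2 := (hENG.sub w a b (n + m.natAbs) (s i) (s j) ha hb hd (by omega)
    (KMCM.En_mono hn (hs1 i)) (KMCM.En_mono hn (hs1 j))).mp h1
  have h3 : w (ϖ ^ n * c i - ϖ ^ n * c j) ≤ WithZero.exp (-((n + m.natAbs : ℕ) : ℤ)) := by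
    have h4 : ϖ ^ n * c i - ϖ ^ n * c j = (pz (s i) - pz (s j)) + ((pz (s j) - ϖ ^ n * c j) -
        (pz (s i) - ϖ ^ n * c i)) := by ring
    rw [h4]
    refine (w.map_add _ _).trans (max_le h2 ?_)
    exact (w.map_sub _ _).trans (max_le (hs2 j) (hs2 i))
  rw [← mul_sub, map_mul, map_pow, hϖ, exp_pow, mul_comm] at h3
  have h4 := exp_shift h3
  apply hc2 i j
  rw [he]
  refine h4.trans (le_of_eq ?_)
  congr 1
  push_cast
  ring

end Pool.Agent.Lib.MP_8cb858_nt.PF
end
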