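import Pool.Agent.Lib.MP_8cb858_nt.PF.SpecO

/-!
# Specs, part B over number fields: the local structure (SpecLS, SpecLT, SpecLR, SpecLI of `PF/Top`)

`(K, w)` is a local field (`IsLF w`), `w 2 = 1`; integral: `w x ≤ 1`, unit: `w x = 1`,
modulo the maximal ideal: differences with `w < 1`. `f = X^3 + a X + b`, `f' = 3X^2 + a`,
`D' = dsc a b`. For a root `t` of `f`: `f = (X - t) q`, `q = X^2 + t X + t^2 + a`,
`d = dq a t = -3 t^2 - 4 a` the discriminant of `q`, `d f'(t)^2 = - D'`, `θ₂ = (-t + √d)/2` a root of `q`,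
`L = K × K[√d]`; coordinates of `α`: `(r, z + s√d)`. The proofs are close to those of the modules of
`PR/` (part B of row 178): copy and adapt. Module XXX = file `PF/XXX.lean`, theorem
`specXXX (hYYY : SpecYYY) .. : SpecXXX`, own lemmas in the namespace
`Pool.Agent.Lib.MP_8cb858_nt.PF.XXXM`. Every Spec is a closed proposition.
-/

namespace Pool.Agent.Lib.MP_8cb858_nt.PF

open Polynomial NumberField IsDedekindDomain Pool.Agent.Lib.MP_8cb858_nt.SEL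
open scoped Classical WithZero

/-! ## B0. Definitions -/

/-- The discriminant of the cofactor `q` of `X - t` in `f`. -/
def dq {R : Type} [CommRing R] (a t : R) : R := -3 * t ^ 2 - 4 * a

/-- `α` has the coordinates `r` (value at `t`) and `z + s √d` (value at `θ₂ = (-t + √d)/2`). -/
def Co {R : Type} [CommRing R] {a b : R} (t : R) (α : Lk a b) (r z s : R) : Prop :=
  cf 0 α + cf 1 α * t + cf 2 α * t ^ 2 = r ∧
  2 * cf 0 α - cf 1 α * t - cf 2 α * (t ^ 2 + 2 * a) = 2 * z ∧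
  cf 1 α - cf 2 α * t = 2 * s

section defs

variable {K : Type} [Field K] (w : Valuation K ℤᵐ⁰)

/-- `u` is not a square modulo the maximal ideal. -/
def NS (u : K) : Prop := ∀ x : K, w x ≤ 1 → w (x ^ 2 - u) = 1

/-- Unramified case: `t` is a root, simple modulo the maximal ideal, and `d` is not a square modulo the
maximal ideal. -/
structure Unr (a b t : K) : Prop where
  ti : w t ≤ 1
  rt : t ^ 3 + a * t + b = 0
  un : w (3 * t ^ 2 + a) = 1
  ns : NS w (dq a t)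

/-- Ramified case: `t` is a root, simple modulo the maximal ideal, and `d` is a uniformizer. -/
structure Ram (a b t : K) : Prop where
  ti : w t = 1
  rt : t ^ 3 + a * t + b = 0
  un : w (3 * t ^ 2 + a) = 1
  de : w (dq a t) = WithZero.exp (-1 : ℤ)

end defs

/-! ## B1. Elementary facts on local fields -/

/-- **VAL.** Valuations with values in `ℤᵐ⁰`.
Proof. `uni`: surjectivity. `lt`: `ℤᵐ⁰` is discrete (`WithZero.exp`, `WithZero.log`). `dec`: `w x ≠ 0`,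
`w x = exp (-n)`, `u = π^{-n} x`. `par`: `π^n u = y^2`, `exp (-n) = w(y)^2 = exp (2 m)`. `pri`: take `i` with `w (x i)`
maximal, `w (x i) = exp (-k) ≠ 0`, `y j = π^{-k} x j`. -/
structure SpecVAL : Prop where
  uni : ∀ {K : Type} [Field K] {w : Valuation K ℤᵐ⁰}, IsLF w → ∃ π : K, w π = WithZero.exp (-1 : ℤ)
  lt : ∀ {K : Type} [Field K] (w : Valuation K ℤᵐ⁰) (x : K), w x < 1 ↔ w x ≤ WithZero.exp (-1 : ℤ)
  dec : ∀ {K : Type} [Field K] {w : Valuation K ℤᵐ⁰} {π : K}, w π = WithZero.exp (-1 : ℤ) →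
    ∀ x : K, x ≠ 0 → ∃ (n : ℤ) (u : K), w u = 1 ∧ x = π ^ n * u
  par : ∀ {K : Type} [Field K] {w : Valuation K ℤᵐ⁰} {π : K}, w π = WithZero.exp (-1 : ℤ) →
    ∀ (n : ℤ) (u : K), w u = 1 → IsSquare (π ^ n * u) → Even n
  pri : ∀ {K : Type} [Field K] {w : Valuation K ℤᵐ⁰} {π : K}, w π = WithZero.exp (-1 : ℤ) →
    ∀ (m : ℕ) (x : Fin m → K), x ≠ 0 → ∃ (k : ℤ) (y : Fin m → K),
      (∀ i, w (y i) ≤ 1 ∧ x i = π ^ k * y i) ∧ ∃ i, w (y i) = 1

/-- **HNS.** Hensel's lemma.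
Proof. `pol`: Newton iteration `x_{n+1} = x_n - P(x_n)/P'(x_n)`, `x_0 = x`: by induction `w(x_n) ≤ 1`,
`w(P'(x_n)) = 1`, `w(P(x_n)) ≤ exp (-(n+1))` (Taylor: `P(x + h) = P(x) + P'(x) h + h^2 (..)`,
`Polynomial.binomExpansion`, integral coefficients; `w(P(x)) < 1` means `≤ exp (-1)`), so
`w(x_{n+1} - x_n) ≤ exp (-(n+1)) ≤ exp (-n)`; `IsLF.comp` gives `y` with `w(y - x_n) ≤ exp (-n)` for all `n`, so
`w(P(y)) ≤ exp (-n)` for all `n`, `P(y) = 0`; `w(y - x) < 1` because `w(y - x_1) ≤ exp (-1)`,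
`w(x_1 - x) ≤ exp (-1)`. (Or: `w.valuationSubring` is complete, Henselian.) `sqr`, `cub`: special cases
(`P = X^2 - u`, `w(2 x) = 1` because `w(x)^2 = w(u) = 1`). `iff`: `→`: `u = y^2`, `w y = 1`, `w(y^2 - u) = 0 ≠ 1`. `←`: `sqr`. -/
structure SpecHNS : Prop where
  pol : ∀ {K : Type} [Field K] {w : Valuation K ℤᵐ⁰} (P : K[X]) (x : K), IsLF w →
    (∀ i, w (P.coeff i) ≤ 1) → w x ≤ 1 → w (P.eval x) < 1 → w (P.derivative.eval x) = 1 →
    ∃ y, w y ≤ 1 ∧ P.eval y = 0 ∧ w (y - x) < 1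
  sqr : ∀ {K : Type} [Field K] {w : Valuation K ℤᵐ⁰} (u x : K), IsLF w → w 2 = 1 → w u = 1 →
    w x ≤ 1 → w (x ^ 2 - u) < 1 → ∃ y, w y = 1 ∧ y ^ 2 = u ∧ w (y - x) < 1
  cub : ∀ {K : Type} [Field K] {w : Valuation K ℤᵐ⁰} (a b x : K), IsLF w → w a ≤ 1 → w b ≤ 1 →
    w x ≤ 1 → w (x ^ 3 + a * x + b) < 1 → w (3 * x ^ 2 + a) = 1 →
    ∃ t, w t ≤ 1 ∧ t ^ 3 + a * t + b = 0 ∧ w (t - x) < 1
  iff : ∀ {K : Type} [Field K] {w : Valuation K ℤᵐ⁰} (u : K), IsLF w → w 2 = 1 → w u = 1 →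
    (IsSquare u ↔ ¬ NS w u)

/-- **STF.** A cubic of nonsquare discriminant over a finite field has a root.
Proof. That of `PR/STK.lean` with `q = Nat.card k` and the Frobenius `y ↦ y^q` (a ring endomorphism of a
field extension `M = k[X]/f` of `k`, `FiniteField.frobeniusAlgHom` or powers of `frobenius`; its fixed
elements are those of `k`: `X^q - X` has at most `q` roots). -/
def SpecSTF : Prop :=
  ∀ (k : Type) [Field k] [Finite k] (a b : k), ¬ IsSquare (-(4 * a ^ 3 + 27 * b ^ 2)) →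
    ∃ x : k, x ^ 3 + a * x + b = 0

/-- **RES.** Facts on the residue field `k` (finite, of odd characteristic).
Proof. `k = IsLocalRing.ResidueField w.valuationSubring`, `IsLocalRing.residue` is surjective, its kernel
is `w < 1`. `ns`: `FiniteField.exists_nonsquare`. `mul`: in a finite field the product of two nonsquares is
a square (`quadraticChar`, or `FiniteField.isSquare_iff`). `nrm`: `d ≠ 0` in `k`; `X^2 - d Y^2` represents every
element (`FiniteField.exists_root_sum_quadratic`, as in `PR/ISE.lean`, ISEM.exists_norm). `cub`: STF for the reductions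
(`T12`: the reduction of `-D'` is not a square). -/
structure SpecRES : Prop where
  ns : ∀ {K : Type} [Field K] {w : Valuation K ℤᵐ⁰}, IsLF w → w 2 = 1 → ∃ n, w n = 1 ∧ NS w n
  mul : ∀ {K : Type} [Field K] {w : Valuation K ℤᵐ⁰} (u v : K), IsLF w → w 2 = 1 → w u = 1 →
    w v = 1 → NS w u → NS w v → ¬ NS w (u * v)
  nrm : ∀ {K : Type} [Field K] {w : Valuation K ℤᵐ⁰} (d n : K), IsLF w → w 2 = 1 → w d ≤ 1 →
    NS w d → w n ≤ 1 → ∃ x y, w x ≤ 1 ∧ w y ≤ 1 ∧ w (x ^ 2 - d * y ^ 2 - n) < 1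
  cub : ∀ {K : Type} [Field K] {w : Valuation K ℤᵐ⁰} (a b : K), IsLF w → w a ≤ 1 → w b ≤ 1 →
    T12 w a b → ∃ x, w x ≤ 1 ∧ w (x ^ 3 + a * x + b) < 1

/-! ## B2. Roots -/

/-- **RTA.** The unramified case.
Proof. First part: a root is integral (if `w t > 1` then `w(t^3) > w(a t + b)`). `d f'(t)^2 = -D'` (identity)
and `w(D') = 1` (`T12` with `x = 0`), `f'(t)` and `d` are integral, so both are units; if `w(x^2 - d) < 1` then
`w((x f'(t))^2 + D') < 1`, contradicting `T12`. Second part: RES `cub`: `x` with `w(f(x)) < 1`; `w(f'(x)) = 1`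
because `27 f(x)^2 - 54 f(x) f'(x) x + 108 f(x) x^3 + f'(x)^2 (4 f'(x) - 9 x^2) = D'` is a unit; HNS `cub`. -/
def SpecRTA : Prop :=
  ∀ (K : Type) [Field K] [CharZero K] (w : Valuation K ℤᵐ⁰) (a b : K), IsLF w → w 2 = 1 →
    w a ≤ 1 → w b ≤ 1 → T12 w a b →
    (∀ t : K, t ^ 3 + a * t + b = 0 → Unr w a b t) ∧ ∃ t : K, t ^ 3 + a * t + b = 0

/-- **RTC.** The ramified case.
Proof. `w a = 1`: otherwise `w(4 a^3) ≤ exp (-3)`, so `w(27 b^2) = w(b)^2 = exp (-1)`, impossible. Let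
`x = 3 b/a`: `a^3 f(x) = b D'`, so `w(f(x)) < 1`; `a^2 f'(x) = 27 b^2 + a^3 = D' - 3 a^3`, a unit. HNS `cub`: a
root `t` with `w(t - x) < 1`, `f'(t)` a unit. `d f'(t)^2 = -D'`, so `w d = exp (-1)`. `w t = 1`: otherwise
`w(d + 3 t^2) = w(4 a) = 1` is `< 1`. -/
def SpecRTC : Prop :=
  ∀ (K : Type) [Field K] [CharZero K] (w : Valuation K ℤᵐ⁰) (a b : K), IsLF w → w 2 = 1 →
    w 3 = 1 → w a ≤ 1 → w b ≤ 1 → w (dsc a b) = WithZero.exp (-1 : ℤ) → ∃ t : K, Ram w a b t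

/-- **RTU.** The root is unique.
Proof. `d` is not a square in `K`: unramified case: HNS `iff` (`w d = 1` by `NS` with `x = 0`); ramified case:
the valuation is odd. If `s ≠ t` is a root then `s^2 + s t + t^2 + a = 0`, so `(2 s + t)^2 = d`, contradiction. -/
def SpecRTU : Prop :=
  ∀ (K : Type) [Field K] [CharZero K] (w : Valuation K ℤᵐ⁰) (a b t : K), IsLF w → w 2 = 1 →
    (Unr w a b t ∨ Ram w a b t) → ¬ IsSquare (dq a t) ∧ ∀ s : K, s ^ 3 + a * s + b = 0 → s = t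

/-! ## B3. Coordinates -/

/-- **TOC.** The coordinates `(r, z + s√d)` over a field. Proof: `PR/TOC.lean`. -/
structure SpecTOC : Prop where
  one : ∀ {K : Type} [Field K] {a b : K} (t : K), Co t (1 : Lk a b) 1 1 0
  mul : ∀ {K : Type} [Field K] {a b t : K} {α β : Lk a b} {r z s r' z' s' : K}, (2 : K) ≠ 0 →
    t ^ 3 + a * t + b = 0 → Co t α r z s → Co t β r' z' s' →
    Co t (α * β) (r * r') (z * z' + dq a t * (s * s')) (z * s' + s * z')
  nrm : ∀ {K : Type} [Field K] {a b t : K} {α : Lk a b} {r z s : K}, (2 : K) ≠ 0 →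
    t ^ 3 + a * t + b = 0 → Co t α r z s → Algebra.norm K α = r * (z ^ 2 - dq a t * s ^ 2)
  unt : ∀ {K : Type} [Field K] {a b t : K} {α : Lk a b} {r z s : K}, (2 : K) ≠ 0 →
    t ^ 3 + a * t + b = 0 → Co t α r z s → (IsUnit α ↔ r ≠ 0 ∧ z ^ 2 - dq a t * s ^ 2 ≠ 0)
  ex : ∀ {K : Type} [Field K] {a b t : K} (r z s : K), 3 * t ^ 2 + a ≠ 0 →
    ∃ α : Lk a b, Co t α r z s
  all : ∀ {K : Type} [Field K] {a b : K} (t : K) (α : Lk a b), (2 : K) ≠ 0 → ∃ r z s, Co t α r z s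
  uni : ∀ {K : Type} [Field K] {a b t : K} {α : Lk a b} {r z s r' z' s' : K}, (2 : K) ≠ 0 →
    Co t α r z s → Co t α r' z' s' → r = r' ∧ z = z' ∧ s = s'
  inj : ∀ {K : Type} [Field K] {a b t : K} {α β : Lk a b} {r z s : K}, (2 : K) ≠ 0 →
    3 * t ^ 2 + a ≠ 0 → Co t α r z s → Co t β r z s → α = β
  pnt : ∀ {K : Type} [Field K] {a b : K} (t D x : K), (2 : K) ≠ 0 →
    Co t (AdjoinRoot.of (fpol a b) D * (AdjoinRoot.of _ x - th a b)) (D * (x - t))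
      (D * (x + t / 2)) (-D / 2)
  lam : ∀ {K : Type} [Field K] {a b t : K} {α : Lk a b} {r z s : K}, (2 : K) ≠ 0 →
    Co t α r z s → (3 * t ^ 2 + a) * cf 2 α = r - z - 3 * t * s
  evv : ∀ {K : Type} [Field K] {a b t : K} {α : Lk a b} {r z s : K}, Co t α r z s →
    ev (RingHom.id K) t α = r

/-- **TOI.** Squares and isotropy in coordinates. Proof: `PR/TOI.lean`. -/
def SpecTOI : Prop :=
  ∀ (K : Type) [Field K] (a b t : K) (α : Lk a b) (r z s : K), (2 : K) ≠ 0 →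
    t ^ 3 + a * t + b = 0 → 3 * t ^ 2 + a ≠ 0 → Co t α r z s →
    (IsSquare α ↔ IsSquare r ∧ ∃ x y : K, z = x ^ 2 + dq a t * y ^ 2 ∧ s = 2 * x * y) ∧
    (Iso α ↔ ∃ ρ x y : K, ¬ (ρ = 0 ∧ x = 0 ∧ y = 0) ∧
      r * ρ ^ 2 = (z + 3 * t * s) * (x ^ 2 + dq a t * y ^ 2) +
        2 * (dq a t * s + 3 * t * z) * (x * y))

/-- **ITC.** Integrality in coordinates.
Proof. `→`: the formulas of `Co` (`2` is a unit, `a`, `t` integral). `←`: TOC `lam` gives `cf 2 α`, then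
`cf 1 α = 2 s + cf 2 α t`, `cf 0 α = r - cf 1 α t - cf 2 α t^2`; COO `big`. -/
def SpecITC : Prop :=
  ∀ (K : Type) [Field K] (w : Valuation K ℤᵐ⁰) (a b t : K) (α : Lk a b) (r z s : K), w 2 = 1 →
    w a ≤ 1 → w t ≤ 1 → w (3 * t ^ 2 + a) = 1 → Co t α r z s →
    (Itg w α ↔ w r ≤ 1 ∧ w z ≤ 1 ∧ w s ≤ 1)

/-- **EVF.** Formal properties of `Ev w`.
Proof. `Itg` is closed under products (COO `mul`, `a`, `b` integral) and contains `1`. `α g^2 = h`, `h h' = 1`,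
`α₂ g₂^2 = h₂`, `h₂ h₂' = 1`: `α α₂ (g g₂)^2 = h h₂`. `α β^2`: use `g/β`. A square `α = δ^2`: `g = 1/δ`, `h = h' = 1`. -/
def SpecEVF : Prop :=
  ∀ (K : Type) [Field K] (w : Valuation K ℤᵐ⁰) (a b : K) (α β : Lk a b), w a ≤ 1 → w b ≤ 1 →
    (Ev w α → Ev w β → Ev w (α * β)) ∧ (IsUnit β → (Ev w (α * β ^ 2) ↔ Ev w α)) ∧
    (IsUnit α → IsSquare α → Ev w α)

/-- **EVC.** Unit classes in coordinates.
Proof. `→`: `α g^2 = h`, `h h' = 1`: ITC for `h` and `h'`, TOC `mul`, `one`, `uni`: `r r' = 1` and (norm of the second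
coordinate is multiplicative) `(z^2-ds^2)(z'^2-ds'^2) = 1`, all integral. `←`: `h = α γ^2`; `h'` = the element with
coordinates `(1/r, z/n - (s/n)√d)`, `n = z^2 - d s^2`; `h h' = 1` by TOC `mul`, `inj`. (`d` is integral.) -/
def SpecEVC : Prop :=
  ∀ (K : Type) [Field K] (w : Valuation K ℤᵐ⁰) (a b t : K) (α : Lk a b), w 2 = 1 → w a ≤ 1 →
    w t ≤ 1 → t ^ 3 + a * t + b = 0 → w (3 * t ^ 2 + a) = 1 →
    (Ev w α ↔ ∃ (γ : Lk a b) (r z s : K), IsUnit γ ∧ w r = 1 ∧ w z ≤ 1 ∧ w s ≤ 1 ∧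
      w (z ^ 2 - dq a t * s ^ 2) = 1 ∧ Co t (α * γ ^ 2) r z s)

/-! ## B4. Squares -/

/-- **SQS.** Squares in `K[√d]`.
Proof. `one`: HNS `sqr` for `z^2 - d s^2 ≡ 1` gives `σ ≡ 1` with `σ^2 = z^2 - d s^2`; `ρ = (z+σ)/2 ≡ 1` is a
square `x^2`, `x` a unit; `y = s/(2x)`: `x^2 + d y^2 = ρ + d s^2/(4ρ) = (z+σ)/2 + (z^2-σ^2)/(2(z+σ)) = z`.
`ram`: `z` a unit (`w(d) < 1`); `σ^2 = z^2 - d s^2` with `σ ≡ z` (HNS `sqr`, `x = z`), `ρ = (z+σ)/2 ≡ z`; if `z` is a square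
modulo the maximal ideal then `ρ = x^2`, as before. Conversely `z = x^2 + d y^2`: `x, y` are integral
(the valuations of `x^2` and `d y^2` are different), so `z ≡ x^2`. `unr`: `σ^2 = z^2 - d s^2`, `σ` a unit. `ρ = (z+σ)/2`,
`ρ' = (z-σ)/2`, `ρ - ρ' = σ`, so one of them is a unit; replacing `σ` by `-σ` let `ρ` be a unit. If `ρ` is a
square (HNS `iff`) then `x^2 = ρ`, `y = s/(2x)`. Otherwise `ρ d` is a square (RES `mul`), so `ρ/d = y^2`, `y` a unit,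
`x = s/(2y)`: `x^2 + d y^2 = s^2 d/(4ρ) + ρ = z`. -/
structure SpecSQS : Prop where
  one : ∀ {K : Type} [Field K] {w : Valuation K ℤᵐ⁰} (d z s : K), IsLF w → w 2 = 1 → w d ≤ 1 →
    w (z - 1) < 1 → w s < 1 → ∃ x y : K, z = x ^ 2 + d * y ^ 2 ∧ s = 2 * x * y
  ram : ∀ {K : Type} [Field K] {w : Valuation K ℤᵐ⁰} (d z s : K), IsLF w → w 2 = 1 →
    w d = WithZero.exp (-1 : ℤ) → w z = 1 → w s ≤ 1 →
    ((∃ x y : K, z = x ^ 2 + d * y ^ 2 ∧ s = 2 * x * y) ↔ ¬ NS w z)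
  unr : ∀ {K : Type} [Field K] {w : Valuation K ℤᵐ⁰} (d z s : K), IsLF w → w 2 = 1 → w d ≤ 1 →
    NS w d → w z ≤ 1 → w s ≤ 1 → w (z ^ 2 - d * s ^ 2) = 1 → IsSquare (z ^ 2 - d * s ^ 2) →
    ∃ x y : K, z = x ^ 2 + d * y ^ 2 ∧ s = 2 * x * y

/-- **TWU.** At most two unit classes, unramified case; a unit class is trivial iff its value at `t`
is a square.
Proof. Claim: if `InV α`, `α` with coordinates `(r, z + s√d)`, `w r = 1`, `z, s` integral, `n = z^2 - d s^2` a unit, then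
`α` is a square iff `r` is: `→` clear (TOI). `←`: `r n` is a square (norm), so `n` is a square; SQS `unr`; TOI.
Second part: EVC: `α γ^2` has such coordinates and is in `V`; `ev t (α γ^2) = (ev t α)(ev t γ)^2` (TOC `evv`, `mul`).
First part: the values `r`, `r'` of `α γ^2`, `β γ'^2` at `t` are nonsquare units, so `r r'` is a square (HNS `iff`,
RES `mul`), so `α β (γ γ')^2` is a square (second part or claim), so `α β` is. -/
def SpecTWU : Prop :=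
  ∀ (K : Type) [Field K] [CharZero K] (w : Valuation K ℤᵐ⁰) (a b t : K), IsLF w → w 2 = 1 →
    w a ≤ 1 → w b ≤ 1 → Unr w a b t →
    (∀ α β : Lk a b, InV α → InV β → Ev w α → Ev w β → ¬ IsSquare α → ¬ IsSquare β →
      IsSquare (α * β)) ∧
    ∀ α : Lk a b, InV α → Ev w α → (IsSquare α ↔ IsSquare (ev (RingHom.id K) t α))

/-- **TWR.** At most two unit classes, ramified case.
Proof. `α γ^2` has coordinates `(r, z + s√d)` as in EVC, `w z = 1` (`w d < 1`), `n = z^2 - d s^2 ≡ z^2` is a square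
(HNS), `r n` is a square, so `r` is. By TOI and SQS `ram` `α` is a square iff `z` is a square mod the maximal
ideal. For nonsquare `α`, `β`: `α β (γγ')^2` has the coordinate `z'' = z z' + d s s' ≡ z z'`, a square modulo
the maximal ideal by RES `mul`. -/
def SpecTWR : Prop :=
  ∀ (K : Type) [Field K] [CharZero K] (w : Valuation K ℤᵐ⁰) (a b t : K), IsLF w → w 2 = 1 →
    w a ≤ 1 → w b ≤ 1 → Ram w a b t →
    ∀ α β : Lk a b, InV α → InV β → Ev w α → Ev w β → ¬ IsSquare α → ¬ IsSquare β →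
      IsSquare (α * β)

/-! ## B5. The quotient `V / (unit classes)` has order at most 2 -/

/-- **NVU.** The unramified norm form.
Proof. VAL `pri`: `z = π^j z'`, `s = π^j s'`, one of `z', s'` a unit. If `w(z'^2 - d s'^2) < 1`: if `s'` is a unit then
`w((z'/s')^2 - d) < 1`, contradicting `NS`; if not, then `w(z') < 1`, contradiction. -/
def SpecNVU : Prop :=
  ∀ (K : Type) [Field K] (w : Valuation K ℤᵐ⁰) (π d : K), w π = WithZero.exp (-1 : ℤ) → w d ≤ 1 →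
    NS w d → ∀ z s : K, ¬ (z = 0 ∧ s = 0) → ∃ (j : ℤ) (z' s' : K), w z' ≤ 1 ∧ w s' ≤ 1 ∧
      z = π ^ j * z' ∧ s = π ^ j * s' ∧ w (z' ^ 2 - d * s' ^ 2) = 1

/-- **EWU.** Unramified case. Proof: `PR/EVW.lean` with a uniformizer `π` (VAL `uni`) instead of `p`:
`ϖ` = coordinates `(1, π + 0√d)`. -/
def SpecEWU : Prop :=
  ∀ (K : Type) [Field K] [CharZero K] (w : Valuation K ℤᵐ⁰) (a b t : K), IsLF w → w 2 = 1 →
    w a ≤ 1 → w b ≤ 1 → Unr w a b t →
    ∃ ϖ : Lk a b, InV ϖ ∧ ∀ α : Lk a b, InV α → Ev w α ∨ Ev w (α * ϖ)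

/-- **EWR.** Ramified case. Proof: `PR/EVR.lean` with `π = d` (so `e = 1`): `ϖ` = coordinates
`(-d, 0 + 1√d)`. Claim (A): if `InV α`, with coordinates `(r, d^j (z' + s'√d))`, `z'` a unit, `s'` integral, then
`Ev α`: `r = d^i r'` (VAL `dec`), the norm `d^{i+2j} r' (z'^2 - d s'^2)` is a square, `i = 2k` (VAL `par`). `j = 2l`:
`γ = (d^{-k}, d^{-l})`; `j = 2l - 1`: `γ = (d^{-k}, d^{-l} √d)`, `γ^2 = (d^{-2k}, d^{1-2l})`; EVC. For general `α`
`(z, s) = d^j (z₀, s₀)` primitive (VAL `pri`): if `z₀` is a unit use (A); else `z₀ = d z₁`, `s₀` a unit and `α ϖ` has the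
coordinates `(-d r, d^{j+1} (s₀ + z₁√d))`. -/
def SpecEWR : Prop :=
  ∀ (K : Type) [Field K] [CharZero K] (w : Valuation K ℤᵐ⁰) (a b t : K), IsLF w → w 2 = 1 →
    w a ≤ 1 → w b ≤ 1 → Ram w a b t →
    ∃ ϖ : Lk a b, InV ϖ ∧ ∀ α : Lk a b, InV α → Ev w α ∨ Ev w (α * ϖ)

/-! ## B6. Explicit classes -/

/-- **ISE.** A nontrivial unit class, unramified case.
Proof. RES `ns`: a nonsquare unit `n`; RES `nrm`: `w₀, w₁` integral with `w₀^2 - d w₁^2 ≡ n`; `ν = w₀^2 - d w₁^2` is a unit,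
`NS w ν` (a change by `w < 1` does not matter). `ε` = the element with coordinates `(ν, w₀ + w₁√d)` (TOC `ex`): norm `ν^2`,
`Ev` by EVC with `γ = 1`. -/
def SpecISE : Prop :=
  ∀ (K : Type) [Field K] [CharZero K] (w : Valuation K ℤᵐ⁰) (a b t : K), IsLF w → w 2 = 1 →
    w a ≤ 1 → w b ≤ 1 → Unr w a b t →
    ∃ (w₀ w₁ : K) (ε : Lk a b), w w₀ ≤ 1 ∧ w w₁ ≤ 1 ∧ w (w₀ ^ 2 - dq a t * w₁ ^ 2) = 1 ∧
      NS w (w₀ ^ 2 - dq a t * w₁ ^ 2) ∧ InV ε ∧ Ev w ε ∧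
      Co t ε (w₀ ^ 2 - dq a t * w₁ ^ 2) w₀ w₁

/-- **ISU.** Unramified case: an isotropic class `α₁` such that `α₁ ε` is anisotropic.
Proof: `PR/ISU.lean` with `π` instead of `p`. `ε`, `w₀`, `w₁`, `ν` from ISE; `ν` is not a square (HNS `iff`). `α₁` has
the coordinates `(f'(t), 3 t π - π √d)`, norm `(2 π f'(t))^2` (`9t^2 - d = 4 f'(t)`); isotropic vector
`(ρ, x, y) = (0, 1, 0)`. For `α₁ ε` the equation of TOI is (divided by `f'(t)`)
`ν ρ^2 = 4 π (w₁ (x^2 + d y^2) + 2 w₀ x y)`; primitive solution (VAL `pri`): `w ρ < 1`, so `w(w₁(x^2+dy^2) + 2w₀xy) < 1`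
(`ρ^2` is divisible by `π^2`), and `w₁` times this is `(w₁x + w₀y)^2 - ν y^2`: `w y < 1` (else `ν` is a square modulo the
maximal ideal), so `w(w₁ x) < 1`, and `w w₁ = 1` (otherwise `ν ≡ w₀^2`), so `w x < 1`, contradiction. -/
def SpecISU : Prop :=
  ∀ (K : Type) [Field K] [CharZero K] (w : Valuation K ℤᵐ⁰) (a b t : K), IsLF w → w 2 = 1 →
    w a ≤ 1 → w b ≤ 1 → Unr w a b t →
    ∃ α₁ ε : Lk a b, InV α₁ ∧ InV ε ∧ Ev w ε ∧ Iso α₁ ∧ ¬ Iso (α₁ * ε) ∧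
      ¬ IsSquare (ev (RingHom.id K) t ε)

/-- **ISR.** Ramified case.
Proof: `PR/ISR.lean` with `π = d`. `n` a nonsquare unit (RES `ns`), `ε` = coordinates `(1, n + 0√d)`, norm `n^2`, `Ev` by
EVC. `α₁` = coordinates `(-d, 0 - 3t√d)`, norm `(3 t d)^2`; isotropic vector `(3t, 0, 1)`. `α₁ ε` = `(-d, 0 - 3 t n √d)`,
the equation is `d ρ^2 = n (9t^2 (x^2 + d y^2) + 6 t d x y)`; primitive (VAL `pri`): `w x < 1`, `x = d x'`; divide by `d`:
`ρ^2 = n (9t^2 (d x'^2 + y^2) + 6 t d x' y)`, so `w(ρ^2 - n (3ty)^2) < 1`; if `w y = 1` then `n` is a square modulo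
the maximal ideal (`w (3t) = 1`), contradiction; so `w y < 1`, `w ρ < 1`, contradiction. -/
def SpecISR : Prop :=
  ∀ (K : Type) [Field K] [CharZero K] (w : Valuation K ℤᵐ⁰) (a b t : K), IsLF w → w 2 = 1 →
    w 3 = 1 → w a ≤ 1 → w b ≤ 1 → Ram w a b t →
    ∃ α₁ ε : Lk a b, InV α₁ ∧ InV ε ∧ Ev w ε ∧ Iso α₁ ∧ ¬ Iso (α₁ * ε)

-- **LS** (`Top.lean`): module **LSF**, `theorem specLSF (h..) : SpecLS` (as `PR/LSF.lean`: RTA, RTC, RTU, HYF,
-- EVF, EWU, EWR, TWU, TWR, LG with `D = 1`, AFI, ISU, ISR). **LR**: module **LRF** (RTA, RTC, TWU).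

/-! ## B7. Ramified twists -/

/-- **LTN.** Points with integral `x` do not give unit classes. Proof: `PR/LTN.lean`: the norm of the
second coordinate of `β = D(x - θ)` is `D^2 ((x+t/2)^2 - d/4)`, `4(..) = (2x+t)^2 - d` is a unit by `NS`; if
`Ev β` then (EVC, TOC `all` for `γ`, NVU with a uniformizer `π`, `D = π D₁`) `π^2 π^{4j}` is a unit,
contradiction. -/
def SpecLTN : Prop :=
  ∀ (K : Type) [Field K] [CharZero K] (w : Valuation K ℤᵐ⁰) (a b t D x : K), IsLF w → w 2 = 1 →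
    w a ≤ 1 → w b ≤ 1 → Unr w a b t → w D = WithZero.exp (-1 : ℤ) → w x ≤ 1 →
    ¬ Ev w (AdjoinRoot.of (fpol a b) D * (AdjoinRoot.of _ x - th a b))

/-- **LTP.** An explicit point on the twist. Proof: `δ = D f'(t)`, `x = t + δ`:
`D f(x) = (D f'(t))^2 (1 + D (3 t + δ))` and `1 + D(3t+δ)` is the square of a unit (HNS `sqr`). -/
def SpecLTP : Prop :=
  ∀ (K : Type) [Field K] [CharZero K] (w : Valuation K ℤᵐ⁰) (a b t D : K), IsLF w → w 2 = 1 →
    w t ≤ 1 → t ^ 3 + a * t + b = 0 → w (3 * t ^ 2 + a) = 1 → D ≠ 0 → w D < 1 →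
    ∃ x y : K, w x ≤ 1 ∧ y ≠ 0 ∧ y ^ 2 = D * (x ^ 3 + a * x + b)

/-- **LTQ.** Points with `x` not integral give the trivial class (`t` an integral root, simple modulo the
maximal ideal).
Proof. `D (x - θ) = (D x) · (1 - θ/x)`. `1 + a/x^2 + b/x^3 ≡ 1` is the square of a unit `c`, and `y^2 = D x · x^2 c^2`, so `D x`
is a square. `1 - θ/x` (TOC `pnt` with `D = 1/x`) has the coordinates `(1 - t/x, (1 + t/(2x)) - (1/(2x))√d)`,
`1 - t/x ≡ 1` is a square, SQS `one`, TOI. -/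
def SpecLTQ : Prop :=
  ∀ (K : Type) [Field K] [CharZero K] (w : Valuation K ℤᵐ⁰) (a b t D x y : K), IsLF w → w 2 = 1 →
    w a ≤ 1 → w b ≤ 1 → w t ≤ 1 → t ^ 3 + a * t + b = 0 → w (3 * t ^ 2 + a) = 1 → D ≠ 0 →
    y ≠ 0 → y ^ 2 = D * (x ^ 3 + a * x + b) → 1 < w x →
    IsSquare (AdjoinRoot.of (fpol a b) D * (AdjoinRoot.of _ x - th a b))

-- **LT** (`Top.lean`): module **LTF**, `theorem specLTF (h..) : SpecLT` (as `PR/LTF.lean`: RTA, LTN, LTP, LTQ, LS,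
-- LZ, AFI, INV, EVF).

/-! ## B8. The infinite places -/

/-- **LIR.** The real field, `a > 0`.
Proof: `PR/LIA.lean`, `PR/LIF.lean`. `α` has positive norm, so it is a square; a point `(x, y)` with
`D f(x) = y^2 > 0` exists; `α D (x - θ)` has positive norm; AFI `iso`. -/
def SpecLIR : Prop :=
  ∀ (a b D : ℝ) (α : Lk a b), 0 < a → D ≠ 0 → InV α → IsSquare α ∧ Aff D α ∧ Iso α

/-- **LIC.** The complex field.
Proof. `f` has a root `t`, `f'(t) ≠ 0` and `d ≠ 0` because `d f'(t)^2 = -D' ≠ 0`. Every unit `β` with coordinates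
`(r, z + s√d)` is a square: `r = square`; `σ^2 = z^2 - d s^2 ≠ 0`; `(z+σ)/2`, `(z-σ)/2` are not both `0`; let `ρ ≠ 0` be
one of them (change the sign of `σ`), `x^2 = ρ`, `y = s/(2x)`, `x^2 + d y^2 = z` (TOI). Choose `x` with `D f(x) ≠ 0`,
`y^2 = D f(x)`: `α D (x-θ)` is a unit (NRM `lin`), so a square; AFI `iso`. -/
def SpecLIC : Prop :=
  ∀ (a b D : ℂ) (α : Lk a b), dsc a b ≠ 0 → D ≠ 0 → InV α → IsSquare α ∧ Aff D α ∧ Iso α

/-- **LIT.** Transport by an isomorphism of fields `φ : K → K'`.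
Proof. `upr φ` is an isomorphism `Lk a b → Lk (φ a) (φ b)`: its inverse is the change of rings by `φ⁻¹` (coordinates:
COO `upv`, `ext`); it maps `of x` to `of (φ x)`, `θ` to `θ`, commutes with `cf 2` (COO `cfu`) and the norm (NRM `bc`). -/
def SpecLIT : Prop :=
  ∀ (K K' : Type) [Field K] [Field K'] (φ : K ≃+* K') (a b D : K) (α : Lk a b),
    (InV (upr (φ : K →+* K') a b α) ↔ InV α) ∧
    (IsSquare (upr (φ : K →+* K') a b α) ↔ IsSquare α) ∧
    (Aff ((φ : K →+* K') D) (upr (φ : K →+* K') a b α) ↔ Aff D α) ∧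
    (Iso (upr (φ : K →+* K') a b α) ↔ Iso α)

-- **LI** (`Top.lean`): module **LIF**, `theorem specLIF (h..) : SpecLI` (from LIR, LIC, LIT, COO;
-- `NumberField.InfinitePlace.Completion.ringEquivRealOfIsReal`, `..ringEquivComplexOfIsComplex`, which map
-- `algebraMap F v.Completion x` to `v.embedding x`).

end Pool.Agent.Lib.MP_8cb858_nt.PF
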