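import Pool.Agent.Lib.MP_8cb858_nt.PF.SpecO
import Pool.Agent.Lib.MP_8cb858_nt.PF.SpecB
import Pool.Agent.Lib.MP_8cb858_nt.PF.SpecA

section
/-!
# Formal properties of `Aff` and `Iso`
-/
namespace Pool.Agent.Lib.MP_8cb858_nt.PF.AFIM

variable {M : Type} [CommRing M]

theorem isSquare_mul_sq {a g : M} (hg : IsUnit g) : IsSquare (a * g ^ 2) ↔ IsSquare a := by
  obtain ⟨u, rfl⟩ := hg
  constructor
  · rintro ⟨r, hr⟩
    refine ⟨r * ((u⁻¹ : Mˣ) : M), ?_⟩
    have h : (u : M) * ((u⁻¹ : Mˣ) : M) = 1 := Units.mul_inv u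
    calc a = a * (u : M) ^ 2 * ((u⁻¹ : Mˣ) : M) ^ 2 := by
          rw [mul_assoc, ← mul_pow, h, one_pow, mul_one]
      _ = _ := by rw [hr]; ring
  · rintro ⟨r, hr⟩
    exact ⟨r * u, by rw [hr]; ring⟩

theorem cf_zero {R : Type} [CommRing R] {a b : R} (i : ℕ) : cf i (0 : Lk a b) = 0 := by
  simp [cf]

theorem del (hCOO : SpecCOO) {R : Type} [CommRing R] {a b : R} (D x : R) :
    AdjoinRoot.of (fpol a b) D * (AdjoinRoot.of _ x - th a b) =
      el a b (D * x) (-D) 0 := by
  have h : AdjoinRoot.of (fpol a b) x - th a b = el a b x (-1) 0 := by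
    rw [sub_eq_iff_eq_add, hCOO.thv, hCOO.add, hCOO.ofv]
    congr 1 <;> ring
  rw [h, hCOO.ofv, hCOO.mul]
  congr 1 <;> ring

variable {K : Type} [Field K] {a b : K}

theorem iso_imp (α γ : Lk a b) (hγ : IsUnit γ) (h : Iso α) : Iso (α * γ ^ 2) := by
  obtain ⟨ξ, hξ, h0⟩ := h
  obtain ⟨u, rfl⟩ := hγ
  have h1 : (u : Lk a b) * ((u⁻¹ : (Lk a b)ˣ) : Lk a b) = 1 := Units.mul_inv u
  refine ⟨ξ * ((u⁻¹ : (Lk a b)ˣ) : Lk a b), ?_, ?_⟩
  · intro h2
    apply hξ
    calc ξ = ξ * ((u⁻¹ : (Lk a b)ˣ) : Lk a b) * u := by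
          rw [mul_assoc, mul_comm _ (u : Lk a b), h1, mul_one]
      _ = 0 := by rw [h2, zero_mul]
  · have h3 : α * (u : Lk a b) ^ 2 * (ξ * ((u⁻¹ : (Lk a b)ˣ) : Lk a b)) ^ 2 =
        α * ξ ^ 2 * ((u : Lk a b) * ((u⁻¹ : (Lk a b)ˣ) : Lk a b)) ^ 2 := by ring
    rw [h3, h1, one_pow, mul_one]
    exact h0

theorem iso_iff (α γ : Lk a b) (hγ : IsUnit γ) : Iso (α * γ ^ 2) ↔ Iso α := by
  constructor
  · intro h
    obtain ⟨u, rfl⟩ := hγ
    have h1 : (u : Lk a b) * ((u⁻¹ : (Lk a b)ˣ) : Lk a b) = 1 := Units.mul_inv u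
    have h2 := iso_imp (α * (u : Lk a b) ^ 2) ((u⁻¹ : (Lk a b)ˣ) : Lk a b)
      (Units.isUnit _) h
    rwa [mul_assoc, ← mul_pow, h1, one_pow, mul_one] at h2
  · exact iso_imp α γ hγ

theorem aff_iff (D : K) (α γ : Lk a b) (hγ : IsUnit γ) : Aff D (α * γ ^ 2) ↔ Aff D α := by
  unfold Aff
  refine exists_congr fun x => exists_congr fun y => ?_
  have h : α * γ ^ 2 * (AdjoinRoot.of _ D * (AdjoinRoot.of _ x - th a b)) =
      α * (AdjoinRoot.of _ D * (AdjoinRoot.of _ x - th a b)) * γ ^ 2 := by ring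
  rw [h, isSquare_mul_sq hγ]

theorem unit_del (hNRM : SpecNRM) (D x y : K) (hD : D ≠ 0) (hy : y ≠ 0)
    (hxy : y ^ 2 = D * (x ^ 3 + a * x + b)) :
    IsUnit (AdjoinRoot.of (fpol a b) D * (AdjoinRoot.of _ x - th a b)) := by
  rw [hNRM.unt, hNRM.lin, isUnit_iff_ne_zero]
  have h1 : D ^ 3 * (x ^ 3 + a * x + b) = D ^ 2 * y ^ 2 := by rw [hxy]; ring
  rw [h1]
  exact mul_ne_zero (pow_ne_zero _ hD) (pow_ne_zero _ hy)

theorem iso (hCOO : SpecCOO) (hNRM : SpecNRM) (D : K) (α : Lk a b) (hD : D ≠ 0)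
    (hα : IsUnit α) (h : Aff D α) : Iso α := by
  obtain ⟨x, y, hy, hxy, g, hg⟩ := h
  have hδ := unit_del hNRM D x y hD hy hxy
  have hgu : IsUnit g := isUnit_of_mul_isUnit_left (hg ▸ hα.mul hδ)
  obtain ⟨u, rfl⟩ := hgu
  have h1 : (u : Lk a b) * ((u⁻¹ : (Lk a b)ˣ) : Lk a b) = 1 := Units.mul_inv u
  set δ := AdjoinRoot.of (fpol a b) D * (AdjoinRoot.of _ x - th a b) with hδd
  have h2 : α * (δ * ((u⁻¹ : (Lk a b)ˣ) : Lk a b)) ^ 2 = δ := by
    calc α * (δ * ((u⁻¹ : (Lk a b)ˣ) : Lk a b)) ^ 2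
        = α * δ * δ * ((u⁻¹ : (Lk a b)ˣ) : Lk a b) ^ 2 := by ring
      _ = δ * ((u : Lk a b) * ((u⁻¹ : (Lk a b)ˣ) : Lk a b)) ^ 2 := by rw [hg]; ring
      _ = δ := by rw [h1, one_pow, mul_one]
  have h3 : δ = el a b (D * x) (-D) 0 := del hCOO _ _
  obtain ⟨-, h5, h6⟩ := hCOO.co (a := a) (b := b) (D * x) (-D) 0
  have h4 : δ ≠ 0 := by
    intro h0
    rw [← h3, h0, cf_zero] at h5
    exact hD (neg_eq_zero.1 h5.symm)
  refine ⟨δ * ((u⁻¹ : (Lk a b)ˣ) : Lk a b), ?_, ?_⟩
  · intro h0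
    rw [h0, zero_pow two_ne_zero, mul_zero] at h2
    exact h4 h2.symm
  · rw [h2, h3]
    exact h6

theorem dd_imp (D D' : K) (α : Lk a b) (hD : D ≠ 0) (hD' : D' ≠ 0)
    (hs : IsSquare (D * D')) (h : Aff D α) : Aff D' α := by
  obtain ⟨w, hw⟩ := hs
  obtain ⟨x, y, hy, hxy, hg⟩ := h
  have hw0 : w ≠ 0 := by
    rintro rfl
    rw [mul_zero] at hw
    exact mul_ne_zero hD hD' hw
  refine ⟨x, w * y / D, div_ne_zero (mul_ne_zero hw0 hy) hD, ?_, ?_⟩
  · rw [div_pow, mul_pow, hxy, sq w, ← hw]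
    field_simp
  · have h1 : D' = D * (w / D) ^ 2 := by
      rw [div_pow, sq w, ← hw]
      field_simp
    have h2 : α * (AdjoinRoot.of (fpol a b) D' * (AdjoinRoot.of _ x - th a b)) =
        α * (AdjoinRoot.of (fpol a b) D * (AdjoinRoot.of _ x - th a b)) *
          AdjoinRoot.of (fpol a b) (w / D) ^ 2 := by
      conv_lhs => rw [h1]
      rw [map_mul, map_pow]
      ring
    rw [h2, isSquare_mul_sq]
    · exact hg
    · exact (isUnit_iff_ne_zero.2 (div_ne_zero hw0 hD)).map _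

end Pool.Agent.Lib.MP_8cb858_nt.PF.AFIM

namespace Pool.Agent.Lib.MP_8cb858_nt.PF

/-- **AFI.** -/
theorem specAFI (hCOO : SpecCOO) (hNRM : SpecNRM) : SpecAFI where
  inv := by
    intro K _ a b D α γ h
    exact ⟨AFIM.aff_iff D α γ h, AFIM.iso_iff α γ h⟩
  iso := by
    intro K _ a b D α hD hα h
    exact AFIM.iso hCOO hNRM D α hD hα h
  dd := by
    intro K _ a b D D' α hD hD' hs
    refine ⟨AFIM.dd_imp D D' α hD hD' hs, AFIM.dd_imp D' D α hD' hD ?_⟩
    rwa [mul_comm]
  pt := by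
    intro K _ a b D x y hD hy hxy
    refine ⟨⟨AFIM.unit_del hNRM D x y hD hy hxy, D * y, ?_⟩, x, y, hy, hxy, _, rfl⟩
    rw [hNRM.lin]
    calc D ^ 3 * (x ^ 3 + a * x + b) = D ^ 2 * (D * (x ^ 3 + a * x + b)) := by ring
      _ = D * y * (D * y) := by rw [← hxy]; ring

end Pool.Agent.Lib.MP_8cb858_nt.PF
end

section
/-!
# COO: coordinates in `R[X]/(X^3 + a X + b)` (adapted from `PR/COO.lean`)
-/
namespace Pool.Agent.Lib.MP_8cb858_nt.PF

open Polynomial

namespace COOM

variable {R : Type} [CommRing R] {a b : R}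

/-- The polynomial `x + y X + z X^2`. -/
noncomputable def qp (x y z : R) : R[X] := C z * X ^ 2 + C y * X + C x

lemma degree_fpol [Nontrivial R] : (fpol a b).degree = 3 := by
  have h := fpol_monic a b
  rw [degree_eq_natDegree h.ne_zero]
  have h2 : (fpol a b).natDegree = 3 := by
    unfold fpol
    compute_degree!
  rw [h2]
  rfl

lemma el_mk (x y z : R) : el a b x y z = AdjoinRoot.mk (fpol a b) (qp x y z) := by
  simp only [el, qp, th, map_add, map_mul, map_pow, AdjoinRoot.mk_C, AdjoinRoot.mk_X]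
  ring

lemma coeff_qp (x y z : R) :
    (qp x y z).coeff 0 = x ∧ (qp x y z).coeff 1 = y ∧ (qp x y z).coeff 2 = z := by
  refine ⟨?_, ?_, ?_⟩ <;> simp [qp, coeff_X, coeff_C, coeff_X_pow]

lemma hom_el [Nontrivial R] (x y z : R) :
    AdjoinRoot.modByMonicHom (fpol_monic a b) (el a b x y z) = qp x y z := by
  rw [el_mk, AdjoinRoot.modByMonicHom_mk, modByMonic_eq_self_iff (fpol_monic a b), degree_fpol]
  exact degree_quadratic_lt

lemma co (x y z : R) :
    cf 0 (el a b x y z) = x ∧ cf 1 (el a b x y z) = y ∧ cf 2 (el a b x y z) = z := by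
  rcases subsingleton_or_nontrivial R with h | h
  · exact ⟨Subsingleton.elim _ _, Subsingleton.elim _ _, Subsingleton.elim _ _⟩
  · unfold cf
    rw [hom_el]
    exact coeff_qp x y z

lemma degree_hom [Nontrivial R] (α : Lk a b) :
    (AdjoinRoot.modByMonicHom (fpol_monic a b) α).degree < 3 := by
  obtain ⟨p, rfl⟩ := AdjoinRoot.mk_surjective (g := fpol a b) α
  rw [AdjoinRoot.modByMonicHom_mk, ← degree_fpol (a := a) (b := b)]
  exact degree_modByMonic_lt _ (fpol_monic a b)

lemma big (i : ℕ) (α : Lk a b) (hi : 3 ≤ i) : cf i α = 0 := by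
  rcases subsingleton_or_nontrivial R with h | h
  · exact Subsingleton.elim _ _
  · unfold cf
    apply coeff_eq_zero_of_degree_lt
    refine lt_of_lt_of_le (degree_hom α) ?_
    exact_mod_cast hi

lemma ext (α : Lk a b) : α = el a b (cf 0 α) (cf 1 α) (cf 2 α) := by
  rcases subsingleton_or_nontrivial R with h | h
  · have : Subsingleton (Lk a b) := Module.subsingleton R _
    exact Subsingleton.elim _ _
  · have h1 : AdjoinRoot.mk (fpol a b) (AdjoinRoot.modByMonicHom (fpol_monic a b) α) = α :=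
      AdjoinRoot.mk_leftInverse (fpol_monic a b) α
    have h2 := degree_hom α
    have h3 : AdjoinRoot.modByMonicHom (fpol_monic a b) α = qp (cf 0 α) (cf 1 α) (cf 2 α) := by
      have hc := coeff_qp (cf 0 α) (cf 1 α) (cf 2 α)
      ext n
      rcases n with _ | _ | _ | n
      · exact hc.1.symm
      · exact hc.2.1.symm
      · exact hc.2.2.symm
      · have h4 : ((3 : ℕ) : WithBot ℕ) ≤ ((n + 1 + 1 + 1 : ℕ) : WithBot ℕ) := by
          exact_mod_cast (by omega : 3 ≤ n + 1 + 1 + 1)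
        have h5 : (qp (cf 0 α) (cf 1 α) (cf 2 α)).degree < 3 := degree_quadratic_lt
        rw [coeff_eq_zero_of_degree_lt (lt_of_lt_of_le h2 h4),
          coeff_eq_zero_of_degree_lt (lt_of_lt_of_le h5 h4)]
    rw [el_mk, ← h3, h1]

lemma rel : th a b ^ 3 + AdjoinRoot.of (fpol a b) a * th a b + AdjoinRoot.of (fpol a b) b = 0 := by
  have h := AdjoinRoot.eval₂_root (fpol a b)
  rw [eval₂_fpol] at h
  exact h

lemma add (x y z x' y' z' : R) :
    el a b x y z + el a b x' y' z' = el a b (x + x') (y + y') (z + z') := by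
  simp only [el, map_add]
  ring

lemma mul (x y z x' y' z' : R) :
    el a b x y z * el a b x' y' z' =
      el a b (x * x' - b * (y * z' + z * y')) (x * y' + y * x' - a * (y * z' + z * y') - b * (z * z'))
        (x * z' + y * y' + z * x' - a * (z * z')) := by
  simp only [el, map_add, map_mul, map_sub]
  linear_combination (AdjoinRoot.of (fpol a b) y * AdjoinRoot.of (fpol a b) z' +
    AdjoinRoot.of (fpol a b) z * AdjoinRoot.of (fpol a b) y' +
    AdjoinRoot.of (fpol a b) z * AdjoinRoot.of (fpol a b) z' * th a b) *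
      rel (R := R) (a := a) (b := b)

lemma upv {R S : Type} [CommRing R] [CommRing S] {a b : R} (φ : R →+* S) (x y z : R) :
    upr φ a b (el a b x y z) = el (φ a) (φ b) (φ x) (φ y) (φ z) := by
  simp only [el, upr, th, map_add, map_mul, map_pow, AdjoinRoot.lift_of, AdjoinRoot.lift_root,
    RingHom.comp_apply]

lemma cfu {R S : Type} [CommRing R] [CommRing S] {a b : R} (φ : R →+* S) (α : Lk a b) (i : ℕ) :
    cf i (upr φ a b α) = φ (cf i α) := by
  have h1 : upr φ a b α = el (φ a) (φ b) (φ (cf 0 α)) (φ (cf 1 α)) (φ (cf 2 α)) := by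
    conv_lhs => rw [ext α]
    exact upv φ _ _ _
  have h2 := co (a := φ a) (b := φ b) (φ (cf 0 α)) (φ (cf 1 α)) (φ (cf 2 α))
  by_cases hi : i < 3
  · rw [h1]
    interval_cases i
    · exact h2.1
    · exact h2.2.1
    · exact h2.2.2
  · rw [big i _ (not_lt.1 hi), big i _ (not_lt.1 hi), map_zero]

end COOM

theorem specCOO : SpecCOO where
  ext := COOM.ext
  co := COOM.co
  big := COOM.big
  add := COOM.add
  mul := COOM.mul
  one := by
    intro R _ a b
    simp [el]
  ofv := by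
    intro R _ a b x
    simp [el]
  thv := by
    intro R _ a b
    simp [el]
  upv := COOM.upv
  cfu := COOM.cfu
  inj := by
    intro R S _ _ a b φ hφ α β h
    rw [COOM.ext α, COOM.ext β]
    have h0 := COOM.cfu φ α 0
    have h1 := COOM.cfu φ α 1
    have h2 := COOM.cfu φ α 2
    rw [h, COOM.cfu φ β _] at h0 h1 h2
    rw [hφ h0, hφ h1, hφ h2]

end Pool.Agent.Lib.MP_8cb858_nt.PF
end

section
/-!
# EVA: evaluation at a root is a ring homomorphism
-/
namespace Pool.Agent.Lib.MP_8cb858_nt.PF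

open Polynomial

theorem specEVA (hCOO : SpecCOO) : SpecEVA where
  elv := by
    intro R S _ _ a b φ t x y z
    obtain ⟨h0, h1, h2⟩ := hCOO.co (a := a) (b := b) x y z
    rw [ev, h0, h1, h2]
  mul := by
    intro R S _ _ a b φ t α β ht
    have e : ∀ x y z : R, ev φ t (el a b x y z) = φ x + φ y * t + φ z * t ^ 2 := by
      intro x y z
      obtain ⟨h0, h1, h2⟩ := hCOO.co (a := a) (b := b) x y z
      rw [ev, h0, h1, h2]
    rw [hCOO.ext α, hCOO.ext β, hCOO.mul, e, e, e]
    simp only [map_add, map_sub, map_mul]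
    linear_combination (-(φ (cf 1 α) * φ (cf 2 β)) - φ (cf 2 α) * φ (cf 1 β) -
      φ (cf 2 α) * φ (cf 2 β) * t) * ht
  add := by
    intro R S _ _ a b φ t α β
    simp only [ev, cf, map_add, coeff_add]
    ring
  one := by
    intro R S _ _ a b φ t
    obtain ⟨h0, h1, h2⟩ := hCOO.co (R := R) (a := a) (b := b) 1 0 0
    rw [hCOO.one, ev, h0, h1, h2]
    simp
  upv := by
    intro R S T _ _ _ a b φ ψ t α
    simp only [ev, RingHom.comp_apply]
    rw [hCOO.cfu φ α 0, hCOO.cfu φ α 1, hCOO.cfu φ α 2]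
  unit := by
    intro R S _ _ a b φ t α ht hα
    have em : ∀ α β : Lk a b, ev φ t (α * β) = ev φ t α * ev φ t β := by
      intro α β
      have e : ∀ x y z : R, ev φ t (el a b x y z) = φ x + φ y * t + φ z * t ^ 2 := by
        intro x y z
        obtain ⟨h0, h1, h2⟩ := hCOO.co (a := a) (b := b) x y z
        rw [ev, h0, h1, h2]
      rw [hCOO.ext α, hCOO.ext β, hCOO.mul, e, e, e]
      simp only [map_add, map_sub, map_mul]
      linear_combination (-(φ (cf 1 α) * φ (cf 2 β)) - φ (cf 2 α) * φ (cf 1 β) -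
        φ (cf 2 α) * φ (cf 2 β) * t) * ht
    obtain ⟨β, hβ⟩ := hα.exists_right_inv
    refine IsUnit.of_mul_eq_one (ev φ t β) ?_
    rw [← em, hβ]
    obtain ⟨h0, h1, h2⟩ := hCOO.co (R := R) (a := a) (b := b) 1 0 0
    rw [hCOO.one, ev, h0, h1, h2]
    simp

end Pool.Agent.Lib.MP_8cb858_nt.PF
end

section
/-!
# Formal properties of `InV`
-/
namespace Pool.Agent.Lib.MP_8cb858_nt.PF.INVM

variable {M : Type} [CommRing M]

/-- A unit square factor may be removed. -/
theorem isSquare_mul_sq {a g : M} (hg : IsUnit g) : IsSquare (a * g ^ 2) ↔ IsSquare a := by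
  obtain ⟨u, rfl⟩ := hg
  constructor
  · rintro ⟨r, hr⟩
    refine ⟨r * ((u⁻¹ : Mˣ) : M), ?_⟩
    have h : (u : M) * ((u⁻¹ : Mˣ) : M) = 1 := Units.mul_inv u
    calc a = a * (u : M) ^ 2 * ((u⁻¹ : Mˣ) : M) ^ 2 := by
          rw [mul_assoc, ← mul_pow, h, one_pow, mul_one]
      _ = _ := by rw [hr]; ring
  · rintro ⟨r, hr⟩
    exact ⟨r * u, by rw [hr]; ring⟩

theorem quo {α β : M} (hα : IsUnit α) (hβ : IsUnit β) :
    IsSquare (α * β) ↔ ∃ γ, IsUnit γ ∧ α = β * γ ^ 2 := by
  constructor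
  · rintro ⟨r, hr⟩
    obtain ⟨u, rfl⟩ := hβ
    have h : (u : M) * ((u⁻¹ : Mˣ) : M) = 1 := Units.mul_inv u
    have hr1 : IsUnit r := isUnit_of_mul_isUnit_left (hr ▸ hα.mul u.isUnit)
    refine ⟨r * ((u⁻¹ : Mˣ) : M), hr1.mul (Units.isUnit _), ?_⟩
    calc α = α * u * ((u⁻¹ : Mˣ) : M) * ((u : M) * ((u⁻¹ : Mˣ) : M)) := by
          rw [mul_assoc α, h, mul_one, mul_one]
      _ = _ := by rw [hr]; ring
  · rintro ⟨γ, -, rfl⟩
    exact ⟨β * γ, by ring⟩

theorem trs {α β γ : M} (hβ : IsUnit β) (h1 : IsSquare (α * β)) (h2 : IsSquare (β * γ)) :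
    IsSquare (α * γ) := by
  rw [← isSquare_mul_sq hβ]
  have : α * γ * β ^ 2 = α * β * (β * γ) := by ring
  rw [this]
  exact h1.mul h2

end Pool.Agent.Lib.MP_8cb858_nt.PF.INVM

namespace Pool.Agent.Lib.MP_8cb858_nt.PF

/-- **INV.** -/
theorem specINV (hNRM : SpecNRM) : SpecINV where
  mul := by
    intro R _ a b α β h1 h2
    refine ⟨h1.1.mul h2.1, ?_⟩
    rw [map_mul]
    exact h1.2.mul h2.2
  sqr := by
    intro R _ a b γ h
    refine ⟨h.pow 2, Algebra.norm R γ, ?_⟩
    rw [map_pow, sq]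
  msq := by
    intro R _ a b α γ h
    have h1 : IsSquare (Algebra.norm R (α * γ ^ 2)) ↔ IsSquare (Algebra.norm R α) := by
      rw [map_mul, map_pow]
      exact INVM.isSquare_mul_sq (h.map _)
    constructor
    · intro h2
      exact ⟨isUnit_of_mul_isUnit_left h2.1, h1.1 h2.2⟩
    · intro h2
      exact ⟨h2.1.mul (h.pow 2), h1.2 h2.2⟩
  upv := by
    intro R S _ _ a b φ α h
    refine ⟨h.1.map _, ?_⟩
    rw [hNRM.bc]
    exact h.2.map φ
  quo := by
    intro R _ a b α β h1 h2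
    exact INVM.quo h1 h2
  trs := by
    intro R _ a b α β γ h h1 h2
    exact INVM.trs h h1 h2

end Pool.Agent.Lib.MP_8cb858_nt.PF
end

section
/-!
# The norm of the cubic algebra (adapted from `PR/NRM.lean`)
-/
namespace Pool.Agent.Lib.MP_8cb858_nt.PF.NRMM

open Polynomial

variable {R S : Type} [CommRing R] [CommRing S] {a b : R}

/-- Coordinates as a linear equivalence. -/
noncomputable def eqv (hCOO : SpecCOO) : Lk a b ≃ₗ[R] (Fin 3 → R) where
  toFun α := ![cf 0 α, cf 1 α, cf 2 α]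
  map_add' α β := by
    ext i; fin_cases i <;> simp [cf]
  map_smul' r α := by
    ext i; fin_cases i <;> simp [cf]
  invFun v := el a b (v 0) (v 1) (v 2)
  left_inv α := (hCOO.ext α).symm
  right_inv v := by
    obtain ⟨h0, h1, h2⟩ := hCOO.co (a := a) (b := b) (v 0) (v 1) (v 2)
    ext i; fin_cases i <;> simp [h0, h1, h2]

/-- The basis `1, θ, θ^2`. -/
noncomputable def bas (hCOO : SpecCOO) : Module.Basis (Fin 3) R (Lk a b) :=
  Module.Basis.ofEquivFun (eqv hCOO)

theorem repr_el (hCOO : SpecCOO) (x y z : R) :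
    ∀ i, (bas (R := R) (a := a) (b := b) hCOO).repr (el a b x y z) i = ![x, y, z] i := by
  intro i
  obtain ⟨h0, h1, h2⟩ := hCOO.co (a := a) (b := b) x y z
  have : (bas (R := R) (a := a) (b := b) hCOO).repr (el a b x y z) i =
      ![cf 0 (el a b x y z), cf 1 (el a b x y z), cf 2 (el a b x y z)] i := by
    simp only [bas, Module.Basis.ofEquivFun_repr_apply]
    rfl
  rw [this, h0, h1, h2]

theorem bas_apply (hCOO : SpecCOO) (i : Fin 3) :
    bas (R := R) (a := a) (b := b) hCOO i =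
      el a b (![(1 : R), 0, 0] i) (![(0 : R), 1, 0] i) (![(0 : R), 0, 1] i) := by
  simp only [bas, Module.Basis.coe_ofEquivFun]
  fin_cases i <;>
  · show el a b _ _ _ = el a b _ _ _
    simp

theorem frm (hCOO : SpecCOO) (x y z : R) : Algebra.norm R (el a b x y z) =
    x * ((x - a * z) ^ 2 + y * (b * z + a * y)) + b * z * (y * (x - a * z) + z * (b * z + a * y))
      - b * y * (y ^ 2 - z * (x - a * z)) := by
  rw [Algebra.norm_eq_matrix_det (bas (R := R) (a := a) (b := b) hCOO)]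
  have hm : Algebra.leftMulMatrix (bas (R := R) (a := a) (b := b) hCOO) (el a b x y z) =
      !![x, -b * z, -b * y; y, x - a * z, -b * z - a * y; z, y, x - a * z] := by
    ext i j
    rw [Algebra.leftMulMatrix_eq_repr_mul, bas_apply, hCOO.mul, repr_el]
    fin_cases i <;> fin_cases j <;> simp <;> ring
  rw [hm, Matrix.det_fin_three]
  simp
  ring

theorem cofac (hCOO : SpecCOO) (x y z : R) : el a b x y z *
    el a b ((x - a * z) ^ 2 + y * (b * z + a * y)) (-(y * (x - a * z) + z * (b * z + a * y)))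
      (y ^ 2 - z * (x - a * z)) = AdjoinRoot.of _ (Algebra.norm R (el a b x y z)) := by
  rw [hCOO.mul, hCOO.ofv, frm hCOO]
  congr 1 <;> ring

theorem unt (hCOO : SpecCOO) (α : Lk a b) : IsUnit α ↔ IsUnit (Algebra.norm R α) := by
  constructor
  · intro h
    exact h.map _
  · intro h
    have h1 := cofac hCOO (a := a) (b := b) (cf 0 α) (cf 1 α) (cf 2 α)
    rw [← hCOO.ext α] at h1
    exact isUnit_of_mul_isUnit_left (h1 ▸ h.map (AdjoinRoot.of (fpol a b)))

theorem bc (hCOO : SpecCOO) (φ : R →+* S) (α : Lk a b) :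
    Algebra.norm S (upr φ a b α) = φ (Algebra.norm R α) := by
  rw [hCOO.ext α, hCOO.upv, frm hCOO, frm hCOO]
  simp

theorem rts (hCOO : SpecCOO) (φ : R →+* S) (t : Fin 3 → S)
    (α : Lk a b) (h1 : t 0 + t 1 + t 2 = 0) (h2 : t 0 * t 1 + t 0 * t 2 + t 1 * t 2 = φ a)
    (h3 : t 0 * t 1 * t 2 = -φ b) :
    φ (Algebra.norm R α) = ev φ (t 0) α * ev φ (t 1) α * ev φ (t 2) α := by
  have h4 : t 2 = -t 0 - t 1 := by linear_combination h1
  have h5 : φ b = -(t 0 * t 1 * t 2) := by rw [h3, neg_neg]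
  have h6 : φ (Algebra.norm R α) = φ (Algebra.norm R (el a b (cf 0 α) (cf 1 α) (cf 2 α))) := by
    rw [← hCOO.ext α]
  rw [h6, frm hCOO]
  simp only [map_sub, map_add, map_mul, map_pow, ev]
  rw [h5, ← h2, h4]
  ring

theorem del (hCOO : SpecCOO) (D x : R) :
    AdjoinRoot.of (fpol a b) D * (AdjoinRoot.of _ x - th a b) =
      el a b (D * x) (-D) 0 := by
  have h : AdjoinRoot.of (fpol a b) x - th a b = el a b x (-1) 0 := by
    rw [sub_eq_iff_eq_add, hCOO.thv, hCOO.add, hCOO.ofv]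
    congr 1 <;> ring
  rw [h, hCOO.ofv, hCOO.mul]
  congr 1 <;> ring

end Pool.Agent.Lib.MP_8cb858_nt.PF.NRMM

namespace Pool.Agent.Lib.MP_8cb858_nt.PF

/-- **NRM.** -/
theorem specNRM (hCOO : SpecCOO) : SpecNRM where
  frm := NRMM.frm hCOO
  rts := NRMM.rts hCOO
  bc := NRMM.bc hCOO
  unt := NRMM.unt hCOO
  lin := by
    intro R _ a b D x
    rw [NRMM.del hCOO, NRMM.frm hCOO]
    ring
  sc := by
    intro R _ a b D
    rw [hCOO.ofv, NRMM.frm hCOO]
    ring

end Pool.Agent.Lib.MP_8cb858_nt.PF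
end

section
/-!
# VAL: valuations with values in `ℤᵐ⁰` (helper73)
-/
set_option autoImplicit false

namespace Pool.Agent.Lib.MP_8cb858_nt.PF

open Polynomial NumberField IsDedekindDomain Pool.Agent.Lib.MP_8cb858_nt.SEL
open scoped Classical WithZero

namespace VALM

theorem lt_one_iff (g : ℤᵐ⁰) : g < 1 ↔ g ≤ WithZero.exp (-1 : ℤ) := by
  by_cases hg : g = 0
  · subst hg
    simp
  · rw [← WithZero.exp_log hg, ← WithZero.exp_zero, WithZero.exp_lt_exp, WithZero.exp_le_exp]
    omega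

theorem exp_zpow (n : ℤ) : (WithZero.exp (-1 : ℤ)) ^ n = WithZero.exp (-n) := by
  rw [← WithZero.exp_zsmul]
  simp

theorem w_zpow {K : Type} [Field K] {w : Valuation K ℤᵐ⁰} {π : K}
    (hπ : w π = WithZero.exp (-1 : ℤ)) (n : ℤ) : w (π ^ n) = WithZero.exp (-n) := by
  rw [map_zpow₀, hπ, exp_zpow]

theorem pi_ne {K : Type} [Field K] {w : Valuation K ℤᵐ⁰} {π : K}
    (hπ : w π = WithZero.exp (-1 : ℤ)) : π ≠ 0 := by
  intro h
  rw [h, map_zero] at hπ
  exact WithZero.exp_ne_zero hπ.symm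

theorem dec {K : Type} [Field K] {w : Valuation K ℤᵐ⁰} {π : K}
    (hπ : w π = WithZero.exp (-1 : ℤ)) (x : K) (hx : x ≠ 0) :
    ∃ (n : ℤ) (u : K), w u = 1 ∧ x = π ^ n * u := by
  have hw : w x ≠ 0 := (Valuation.ne_zero_iff w).2 hx
  refine ⟨-(WithZero.log (w x)), π ^ (WithZero.log (w x)) * x, ?_, ?_⟩
  · rw [map_mul, w_zpow hπ]
    nth_rewrite 2 [← WithZero.exp_log hw]
    rw [← WithZero.exp_add]
    simp
  · rw [← mul_assoc, ← zpow_add₀ (pi_ne hπ)]
    simp

end VALM

open VALM in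
/-- **VAL** -/
theorem specVAL : SpecVAL where
  uni := by
    intro K _ w h
    exact h.surj _
  lt := by
    intro K _ w x
    exact lt_one_iff _
  dec := by
    intro K _ w π hπ x hx
    exact dec hπ x hx
  par := by
    intro K _ w π hπ n u hu hsq
    obtain ⟨y, hy⟩ := hsq
    have h1 : w (π ^ n * u) = w y * w y := by rw [hy, map_mul]
    rw [map_mul, hu, mul_one, w_zpow hπ] at h1
    have hy0 : w y ≠ 0 := by
      intro h0
      rw [h0, mul_zero] at h1
      exact WithZero.exp_ne_zero h1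
    rw [← WithZero.exp_log hy0, ← WithZero.exp_add, WithZero.exp_inj] at h1
    exact ⟨-(WithZero.log (w y)), by omega⟩
  pri := by
    intro K _ w π hπ m x hx
    obtain ⟨j, hj⟩ := Function.ne_iff.1 hx
    have hne : Nonempty (Fin m) := ⟨j⟩
    obtain ⟨i, hi⟩ := Finite.exists_max (fun i => w (x i))
    have hj' : w (x j) ≠ 0 := (Valuation.ne_zero_iff w).2 hj
    have hi0 : x i ≠ 0 := by
      intro h0
      have h1 := hi j
      rw [h0, map_zero] at h1
      exact hj' (le_zero_iff.1 h1)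
    obtain ⟨k, u, hu, hxi⟩ := dec hπ (x i) hi0
    have hπk : π ^ k * π ^ (-k) = 1 := by
      rw [← zpow_add₀ (pi_ne hπ)]
      simp
    have hxk : ∀ l, x l = π ^ k * (π ^ (-k) * x l) := by
      intro l
      rw [← mul_assoc, hπk, one_mul]
    have hui : π ^ (-k) * x i = u := by
      rw [hxi, ← mul_assoc, mul_comm (π ^ (-k)), hπk, one_mul]
    refine ⟨k, fun l => π ^ (-k) * x l, fun l => ⟨?_, hxk l⟩, i, ?_⟩
    · have h1 : w (π ^ (-k) * x l) ≤ w (π ^ (-k) * x i) := by
        rw [map_mul, map_mul]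
        exact mul_le_mul_right (hi l) _
      exact h1.trans (by rw [hui, hu])
    · show w (π ^ (-k) * x i) = 1
      rw [hui, hu]

end Pool.Agent.Lib.MP_8cb858_nt.PF
end

section
/-!
# GCT: group theory
-/
set_option autoImplicit false

namespace Pool.Agent.Lib.MP_8cb858_nt.PF

namespace GCTM

/-- pigeonhole -/
theorem pigeon {α β : Type} [Fintype α] [Fintype β] [Nonempty β] [DecidableEq β] (f : α → β) :
    ∃ y : β, Fintype.card α ≤ Fintype.card β * (Finset.univ.filter fun x => f x = y).card := by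
  obtain ⟨y, hy⟩ := Finite.exists_max fun y : β => (Finset.univ.filter fun x => f x = y).card
  refine ⟨y, ?_⟩
  have h1 : Fintype.card α = ∑ z : β, (Finset.univ.filter fun x => f x = z).card := by
    rw [← Finset.card_univ]
    exact Finset.card_eq_sum_card_fiberwise (fun x _ => Finset.mem_univ (f x))
  rw [h1]
  calc ∑ z : β, (Finset.univ.filter fun x => f x = z).card
      ≤ ∑ _z : β, (Finset.univ.filter fun x => f x = y).card := Finset.sum_le_sum fun z _ => hy z
    _ = Fintype.card β * (Finset.univ.filter fun x => f x = y).card := by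
        rw [Finset.sum_const, smul_eq_mul, Finset.card_univ]

/-- the classes of `ν(A)` modulo 2 -/
theorem classes (A : Type) [AddCommGroup A] (ρ : ℕ) (ν : A →+ (Fin ρ → ℤ)) :
    ∃ (r : ℕ) (f : A → (Fin r → ZMod 2)), r ≤ ρ ∧
      ∀ a a', f a = f a' → ∃ x : A, ν a - ν a' = (2 : ℕ) • ν x := by
  set Λ : Submodule ℤ (Fin ρ → ℤ) := LinearMap.range ν.toIntLinearMap with hΛ
  have hmem : ∀ a, ν a ∈ Λ := fun a => ⟨a, rfl⟩
  set b := Module.finBasis ℤ Λ with hb
  refine ⟨Module.finrank ℤ Λ, fun a k => ((b.repr ⟨ν a, hmem a⟩ k : ℤ) : ZMod 2), ?_, ?_⟩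
  · have h1 := Submodule.finrank_le Λ
    rw [Module.finrank_fin_fun] at h1
    exact h1
  · intro a a' h
    have h1 : ∀ k, ∃ c : ℤ, b.repr ⟨ν a, hmem a⟩ k - b.repr ⟨ν a', hmem a'⟩ k = 2 * c := by
      intro k
      have h2 := congrFun h k
      have h3 : ((b.repr ⟨ν a, hmem a⟩ k - b.repr ⟨ν a', hmem a'⟩ k : ℤ) : ZMod 2) = 0 := by
        push_cast
        rw [sub_eq_zero]
        exact h2
      exact (ZMod.intCast_zmod_eq_zero_iff_dvd _ 2).1 h3
    choose c hc using h1
    set u : Λ := ∑ k, c k • b k with hu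
    obtain ⟨x, hx⟩ := u.2
    refine ⟨x, ?_⟩
    have h4 : (⟨ν a, hmem a⟩ : Λ) - ⟨ν a', hmem a'⟩ = (2 : ℤ) • u := by
      apply b.repr.injective
      ext k
      rw [map_sub, Finsupp.sub_apply, hc k, map_smul, Finsupp.smul_apply, hu, b.repr_sum_self]
      rfl
    have h5 := congrArg (fun z : Λ => (z : Fin ρ → ℤ)) h4
    have h6 : ν a - ν a' = (2 : ℤ) • (u : Fin ρ → ℤ) := h5
    have h7 : (u : Fin ρ → ℤ) = ν x := hx.symm
    rw [h6, h7, ← natCast_zsmul]
    rfl

end GCTM

open GCTM in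
/-- **GCT.** -/
theorem specGCT (hHQ : SpecHQ) : SpecGCT := by
  classical
  intro A _ ρ M N ν B s g hBν hfin hs hg
  obtain ⟨r, f, hr, hf⟩ := classes A ρ ν
  obtain ⟨y, hy⟩ := pigeon (fun i : Fin N => f (g i))
  set F : Finset (Fin N) := Finset.univ.filter fun i => f (g i) = y with hF
  rw [Fintype.card_fin] at hy
  have hcard : Fintype.card (Fin r → ZMod 2) = 2 ^ r := by
    rw [Fintype.card_fun, ZMod.card, Fintype.card_fin]
  rw [hcard] at hy
  by_cases hN : F = ∅
  · rw [hN, Finset.card_empty, mul_zero, Nat.le_zero] at hy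
    exact ⟨0, Fin.elim0, fun i => i.elim0, fun i => i.elim0, by rw [hy]; exact Nat.zero_le _⟩
  obtain ⟨i0, hi0⟩ := Finset.nonempty_iff_ne_empty.2 hN
  have hi0' : f (g i0) = y := (Finset.mem_filter.1 hi0).2
  set e : Fin F.card → Fin N := fun k => (F.equivFin.symm k : Fin N) with he
  have hemem : ∀ k, f (g (e k)) = y := fun k => (Finset.mem_filter.1 (F.equivFin.symm k).2).2
  have heinj : ∀ k l, k ≠ l → e k ≠ e l := by
    intro k l hkl h
    exact hkl (F.equivFin.symm.injective (Subtype.ext h))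
  have h1 : ∀ k, ∃ x : A, ν (g (e k)) - ν (g i0) = (2 : ℕ) • ν x := fun k =>
    hf _ _ ((hemem k).trans hi0'.symm)
  choose a ha using h1
  have hker : ∀ k, g (e k) - g i0 - (2 : ℕ) • a k ∈ ν.ker := by
    intro k
    rw [AddMonoidHom.mem_ker, map_sub, map_sub, map_nsmul, ha, sub_self]
  obtain ⟨n, T, hT, hT2, hn⟩ := hHQ.2 ν.ker (B.addSubgroupOf ν.ker) M F.card
    (fun i => if h : s i ∈ ν.ker then ⟨s i, h⟩ else 0) (fun k => ⟨_, hker k⟩) hfin (by
      intro x hx
      rw [AddSubgroup.mem_addSubgroupOf] at hx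
      obtain ⟨i, z, hz, hxz⟩ := hs x hx
      have hsi : s i ∈ ν.ker := by
        have e1 : s i = (x : A) - (2 : ℕ) • z := by rw [hxz]; abel
        rw [e1]
        exact sub_mem (hBν hx) (nsmul_mem (hBν hz) 2)
      refine ⟨i, ⟨z, hBν hz⟩, ?_, ?_⟩
      · rw [AddSubgroup.mem_addSubgroupOf]
        exact hz
      · rw [dif_pos hsi]
        exact Subtype.ext hxz) (by
      intro k l hkl x hx
      have h2 := congrArg (fun z : ν.ker => (z : A)) hx
      have h3 : (g (e k) - g i0 - (2 : ℕ) • a k) - (g (e l) - g i0 - (2 : ℕ) • a l) =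
        (2 : ℕ) • (x : A) := h2
      refine hg (e k) (e l) (heinj k l hkl) ((x : A) + (a k - a l)) ?_
      rw [nsmul_add, ← h3, nsmul_sub]
      abel)
  refine ⟨n, fun i => (T i : A), fun i j h => hT (Subtype.ext h), fun i => ?_, ?_⟩
  · have := congrArg (fun z : ν.ker => (z : A)) (hT2 i)
    exact this
  · calc N ≤ 2 ^ r * F.card := hy
      _ ≤ 2 ^ ρ * (M * n) := Nat.mul_le_mul (Nat.pow_le_pow_right (by norm_num) hr) hn

end Pool.Agent.Lib.MP_8cb858_nt.PF
end

section
/-!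
# HNA: squares near 1
-/
namespace Pool.Agent.Lib.MP_8cb858_nt.PF

open Polynomial
open scoped Classical WithZero

namespace HNAM

/-- solving `y^2 + y = z` by iteration in a complete filtered ring -/
lemma iter {A : Type} [CommRing A] (B : ℕ → A → Prop)
    (hadd : ∀ n x y, B n x → B n y → B n (x + y)) (hneg : ∀ n x, B n x → B n (-x))
    (hzero : ∀ n, B n 0) (hmono : ∀ m n x, m ≤ n → B n x → B m x)
    (hmul : ∀ m n x y, B m x → B n y → B (m + n) (x * y))
    (hsep : ∀ x, (∀ n, B n x) → x = 0)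
    (hcomp : ∀ s : ℕ → A, (∀ n, B n (s (n + 1) - s n)) → ∃ x, ∀ n, B n (x - s n))
    (z : A) (k : ℕ) (hk : 1 ≤ k) (hz : B k z) : ∃ y, B k y ∧ y ^ 2 + y = z := by
  have hsub : ∀ n x y, B n x → B n y → B n (x - y) := fun n x y hx hy => by
    rw [sub_eq_add_neg]; exact hadd _ _ _ hx (hneg _ _ hy)
  set s : ℕ → A := fun n => Nat.rec 0 (fun _ y => z - y ^ 2) n with hs
  have s0 : s 0 = 0 := rfl
  have s1 : ∀ n, s (n + 1) = z - s n ^ 2 := fun n => rfl
  have hB : ∀ n, B k (s n) := by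
    intro n
    induction n with
    | zero => rw [s0]; exact hzero _
    | succ n ih =>
      rw [s1, pow_two]
      exact hsub _ _ _ hz (hmono _ _ _ (by omega) (hmul _ _ _ _ ih ih))
  have hd : ∀ n, B (n + 1) (s (n + 1) - s n) := by
    intro n
    induction n with
    | zero => rw [s1, s0]; simpa using hmono _ _ _ hk hz
    | succ n ih =>
      have e : s (n + 1 + 1) - s (n + 1) = -((s (n + 1) - s n) * (s (n + 1) + s n)) := by
        rw [s1 (n + 1), s1 n]; ring
      rw [e]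
      exact hneg _ _ (hmono _ _ _ (by omega) (hmul _ _ _ _ ih (hadd _ _ _ (hB (n + 1)) (hB n))))
  obtain ⟨y, hy⟩ := hcomp s fun n => hmono _ _ _ (by omega) (hd n)
  have hyk : B k y := by
    have := hadd _ _ _ (hy k) (hB k)
    simpa using this
  refine ⟨y, hyk, ?_⟩
  have h0 : y ^ 2 + y - z = 0 := by
    apply hsep
    intro n
    have e : y ^ 2 + y - z = (y - s (n + 1)) + (y - s n) * (y + s n) := by
      rw [s1]; ring
    rw [e]
    refine hadd _ _ _ (hmono _ _ _ (by omega) (hy (n + 1))) ?_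
    exact hmono _ _ _ (by omega) (hmul _ _ _ _ (hy n) (hadd _ _ _ hyk (hB n)))
  exact sub_eq_zero.1 h0

section
variable {K : Type} [Field K] {w : Valuation K ℤᵐ⁰}

lemma exp_le {m n : ℤ} (h : m ≤ n) : (WithZero.exp m : ℤᵐ⁰) ≤ WithZero.exp n :=
  WithZero.exp_le_exp.2 h

lemma wadd {x y : K} {c : ℤᵐ⁰} (hx : w x ≤ c) (hy : w y ≤ c) : w (x + y) ≤ c :=
  (w.map_add x y).trans (max_le hx hy)

lemma wsub {x y : K} {c : ℤᵐ⁰} (hx : w x ≤ c) (hy : w y ≤ c) : w (x - y) ≤ c :=
  (w.map_sub x y).trans (max_le hx hy)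

lemma wmul {x y : K} {m n : ℕ} (hx : w x ≤ WithZero.exp (-(m : ℤ)))
    (hy : w y ≤ WithZero.exp (-(n : ℤ))) : w (x * y) ≤ WithZero.exp (-((m + n : ℕ) : ℤ)) := by
  rw [map_mul]
  refine (mul_le_mul' hx hy).trans (le_of_eq ?_)
  rw [← WithZero.exp_add]
  congr 1
  push_cast
  ring

lemma wint {x y : K} {c : ℤᵐ⁰} (hx : w x ≤ 1) (hy : w y ≤ c) : w (x * y) ≤ c := by
  rw [map_mul]
  calc w x * w y ≤ 1 * c := mul_le_mul' hx hy
    _ = c := one_mul c

lemma wsep {x : K} (h : ∀ n : ℕ, w x ≤ WithZero.exp (-(n : ℤ))) : x = 0 := by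
  by_contra hx
  have h0 : w x ≠ 0 := (Valuation.ne_zero_iff w).2 hx
  have h1 := h (Int.toNat (-(WithZero.log (w x))) + 1)
  have e := WithZero.exp_log h0
  generalize WithZero.log (w x) = l at h1 e
  rw [← e, WithZero.exp_le_exp] at h1
  push_cast at h1
  have := Int.self_le_toNat (-l)
  omega

lemma wone {z : K} (hz : w z < 1) : w z ≤ WithZero.exp (-1 : ℤ) := by
  by_cases h0 : w z = 0
  · rw [h0]; exact zero_le
  · rw [← WithZero.exp_log h0] at hz ⊢
    rw [← WithZero.exp_zero, WithZero.exp_lt_exp] at hz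
    exact WithZero.exp_le_exp.2 (by omega)

end

lemma cf_add {R : Type} [CommRing R] {a b : R} (i : ℕ) (α β : Lk a b) :
    cf i (α + β) = cf i α + cf i β := by
  unfold cf; rw [map_add, Polynomial.coeff_add]

lemma cf_neg {R : Type} [CommRing R] {a b : R} (i : ℕ) (α : Lk a b) :
    cf i (-α) = -cf i α := by
  unfold cf; rw [map_neg, Polynomial.coeff_neg]

lemma cf_sub {R : Type} [CommRing R] {a b : R} (i : ℕ) (α β : Lk a b) :
    cf i (α - β) = cf i α - cf i β := by
  rw [sub_eq_add_neg, cf_add, cf_neg, sub_eq_add_neg]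

lemma cf_zero {R : Type} [CommRing R] {a b : R} (i : ℕ) : cf i (0 : Lk a b) = 0 := by
  unfold cf; rw [map_zero, Polynomial.coeff_zero]

lemma cf_mul (hCOO : SpecCOO) {K : Type} [Field K] {w : Valuation K ℤᵐ⁰} {a b : K}
    (ha : w a ≤ 1) (hb : w b ≤ 1) {m n : ℕ} {α β : Lk a b}
    (hα : ∀ i, w (cf i α) ≤ WithZero.exp (-(m : ℤ)))
    (hβ : ∀ i, w (cf i β) ≤ WithZero.exp (-(n : ℤ))) (i : ℕ) :
    w (cf i (α * β)) ≤ WithZero.exp (-((m + n : ℕ) : ℤ)) := by
  have h := hCOO.mul (a := a) (b := b) (cf 0 α) (cf 1 α) (cf 2 α) (cf 0 β) (cf 1 β) (cf 2 β)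
  rw [← hCOO.ext α, ← hCOO.ext β] at h
  have hij : ∀ i j, w (cf i α * cf j β) ≤ WithZero.exp (-((m + n : ℕ) : ℤ)) :=
    fun i j => wmul (hα i) (hβ j)
  obtain ⟨c0, c1, c2⟩ := hCOO.co (a := a) (b := b)
    (cf 0 α * cf 0 β - b * (cf 1 α * cf 2 β + cf 2 α * cf 1 β))
    (cf 0 α * cf 1 β + cf 1 α * cf 0 β - a * (cf 1 α * cf 2 β + cf 2 α * cf 1 β) -
      b * (cf 2 α * cf 2 β))
    (cf 0 α * cf 2 β + cf 1 α * cf 1 β + cf 2 α * cf 0 β - a * (cf 2 α * cf 2 β))
  rw [h]
  rcases i with _ | _ | _ | i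
  · rw [c0]
    exact wsub (hij _ _) (wint hb (wadd (hij _ _) (hij _ _)))
  · rw [c1]
    exact wsub (wsub (wadd (hij _ _) (hij _ _)) (wint ha (wadd (hij _ _) (hij _ _))))
      (wint hb (hij _ _))
  · rw [c2]
    exact wsub (wadd (wadd (hij _ _) (hij _ _)) (hij _ _)) (wint ha (hij _ _))
  · rw [hCOO.big _ _ (by omega), map_zero]
    exact zero_le

end HNAM

open HNAM

theorem specHNA (hCOO : SpecCOO) : SpecHNA := by
  refine ⟨?_, ?_⟩
  · intro K _ _ w a b z k hw ha hb hk hz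
    obtain ⟨y, hy, hyz⟩ := iter (A := Lk a b)
      (fun n α => ∀ i, w (cf i α) ≤ WithZero.exp (-(n : ℤ)))
      (fun n x y hx hy i => by rw [cf_add]; exact wadd (hx i) (hy i))
      (fun n x hx i => by rw [cf_neg, Valuation.map_neg]; exact hx i)
      (fun n i => by rw [cf_zero, map_zero]; exact zero_le)
      (fun m n x hmn hx i => (hx i).trans (exp_le (by omega)))
      (fun m n x y hx hy => cf_mul hCOO ha hb hx hy)
      (fun x hx => by
        have h0 : ∀ i, cf i x = 0 := fun i => wsep (w := w) fun n => hx n i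
        rw [hCOO.ext x, h0, h0, h0]
        simp [el])
      (fun s hs => by
        choose x hx using fun i : ℕ => hw.comp (fun n => cf i (s n)) (fun n => by
          have := hs n i
          rwa [cf_sub] at this)
        refine ⟨el a b (x 0) (x 1) (x 2), fun n i => ?_⟩
        obtain ⟨c0, c1, c2⟩ := hCOO.co (a := a) (b := b) (x 0) (x 1) (x 2)
        rw [cf_sub]
        rcases i with _ | _ | _ | i
        · rw [c0]; exact hx 0 n
        · rw [c1]; exact hx 1 n
        · rw [c2]; exact hx 2 n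
        · rw [hCOO.big _ _ (by omega), hCOO.big _ _ (by omega), sub_zero, map_zero]
          exact zero_le)
      z k hk hz
    exact ⟨y, hy, by rw [← hyz]; ring⟩
  · intro K _ _ w z hw hz
    obtain ⟨y, hy, hyz⟩ := iter (A := K)
      (fun n α => w α ≤ WithZero.exp (-(n : ℤ)))
      (fun n x y hx hy => wadd hx hy)
      (fun n x hx => by rw [Valuation.map_neg]; exact hx)
      (fun n => by rw [map_zero]; exact zero_le)
      (fun m n x hmn hx => hx.trans (exp_le (by omega)))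
      (fun m n x y hx hy => wmul hx hy)
      (fun x hx => wsep (w := w) hx)
      (fun s hs => hw.comp s hs)
      z 1 le_rfl (by simpa using wone hz)
    refine ⟨y, ?_, by rw [← hyz]; ring⟩
    have h1 : w y < 1 := by
      refine lt_of_le_of_lt hy ?_
      rw [← WithZero.exp_zero]
      exact WithZero.exp_lt_exp.2 (by norm_num)
    have h2 : w (y + 1) = 1 := by
      rw [add_comm]; exact Valuation.map_one_add_of_lt _ h1
    rw [← hyz, show y ^ 2 + y = y * (y + 1) by ring, map_mul, h2, mul_one]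

end Pool.Agent.Lib.MP_8cb858_nt.PF
end

section
/-!
# Phase 2, part A, module HQ (helper65): the Herbrand quotient
-/
namespace Pool.Agent.Lib.MP_8cb858_nt.PF

open scoped Classical

namespace HQM

/-- doubling -/
def dbl (A : Type) [AddCommGroup A] : A →+ A := nsmulAddMonoidHom 2

theorem dbl_apply {A : Type} [AddCommGroup A] (x : A) : dbl A x = (2 : ℕ) • x := rfl

variable {A : Type} [AddCommGroup A] (B : AddSubgroup A)

theorem main [B.FiniteIndex] :
    (dbl A).range.index = B.relIndex (dbl A).ker * (B.map (dbl A)).relIndex B := by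
  have hle1 : B.map (dbl A) ≤ B := by
    rintro _ ⟨x, hx, rfl⟩
    rw [dbl_apply]
    exact B.nsmul_mem hx 2
  have hle2 : B.map (dbl A) ≤ (dbl A).range := by
    rintro _ ⟨x, hx, rfl⟩
    exact ⟨x, rfl⟩
  have h1 := AddSubgroup.relIndex_mul_index hle1
  have h2 := AddSubgroup.relIndex_mul_index hle2
  have h3 : (B.map (dbl A)).relIndex (dbl A).range = (B ⊔ (dbl A).ker).index := by
    rw [← AddSubgroup.index_comap, AddSubgroup.comap_map_eq]
  have h4 := AddSubgroup.relIndex_mul_index (show B ≤ B ⊔ (dbl A).ker from le_sup_left)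
  have h5 : B.relIndex (B ⊔ (dbl A).ker) = B.relIndex (dbl A).ker := by
    rw [AddSubgroup.relIndex_sup_left]
  have hx : (B ⊔ (dbl A).ker).index ≠ 0 := by
    intro h
    rw [h, mul_zero] at h4
    exact AddSubgroup.FiniteIndex.index_ne_zero h4.symm
  rw [h3] at h2
  rw [h5] at h4
  rw [← h2, ← h4] at h1
  have : (B ⊔ (dbl A).ker).index * ((B.map (dbl A)).relIndex B * B.relIndex (dbl A).ker) =
      (B ⊔ (dbl A).ker).index * (dbl A).range.index := by
    rw [← h1]; ring
  rw [← Nat.eq_of_mul_eq_mul_left (Nat.pos_of_ne_zero hx) this, mul_comm]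

theorem rel_ne [B.FiniteIndex] : B.relIndex (dbl A).ker ≠ 0 := by
  intro h
  have h4 := AddSubgroup.relIndex_mul_index (show B ≤ B ⊔ (dbl A).ker from le_sup_left)
  have h5 : B.relIndex (B ⊔ (dbl A).ker) = B.relIndex (dbl A).ker := by
    rw [AddSubgroup.relIndex_sup_left]
  rw [h5, h, zero_mul] at h4
  exact AddSubgroup.FiniteIndex.index_ne_zero h4.symm

/-- pairwise inequivalent elements -/
theorem le_index {A : Type} [AddCommGroup A] (H : AddSubgroup A) {N : ℕ} (g : Fin N → A)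
    (hg : ∀ i j, i ≠ j → g i - g j ∉ H) (h0 : H.index ≠ 0) : N ≤ H.index := by
  have : Finite (A ⧸ H) := (Nat.finite_of_card_ne_zero h0)
  have hinj : Function.Injective (fun i : Fin N => (QuotientAddGroup.mk (g i) : A ⧸ H)) := by
    intro i j h
    by_contra hne
    have h' := QuotientAddGroup.eq.1 h
    apply hg i j hne
    have := H.neg_mem h'
    convert this using 1
    abel
  have := Nat.card_le_card_of_injective _ hinj
  simpa [AddSubgroup.index] using this

/-- there are as many inequivalent elements as the index -/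
theorem exists_index {A : Type} [AddCommGroup A] (H : AddSubgroup A) {N : ℕ}
    (h : H.index = 0 ∨ N ≤ H.index) : ∃ g : Fin N → A, ∀ i j, i ≠ j → g i - g j ∉ H := by
  have key : ∃ e : Fin N → A ⧸ H, Function.Injective e := by
    by_cases hf : Finite (A ⧸ H)
    · have h0 : H.index ≠ 0 := Nat.card_pos.ne'
      have hN : N ≤ Nat.card (A ⧸ H) := h.resolve_left h0
      have e := Finite.equivFin (A ⧸ H)
      exact ⟨fun i => e.symm (Fin.castLE hN i), fun i j hij => by
        have := e.symm.injective hij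
        exact Fin.castLE_injective hN this⟩
    · have : Infinite (A ⧸ H) := not_finite_iff_infinite.1 hf
      let e := Infinite.natEmbedding (A ⧸ H)
      exact ⟨fun i => e i, fun i j hij => Fin.ext (e.injective hij)⟩
  obtain ⟨e, he⟩ := key
  refine ⟨fun i => (e i).out, fun i j hij hmem => hij (he ?_)⟩
  rw [← QuotientAddGroup.out_eq' (e i), ← QuotientAddGroup.out_eq' (e j)]
  apply QuotientAddGroup.eq.2
  have := H.neg_mem hmem
  convert this using 1
  abel

theorem card_ker_ge {A : Type} [AddCommGroup A] (K : AddSubgroup A) (hK : Nat.card K ≠ 0) {n : ℕ}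
    (T : Fin n → A) (hT : Function.Injective T) (hT2 : ∀ i, T i ∈ K) : n ≤ Nat.card K := by
  have : Finite K := Nat.finite_of_card_ne_zero hK
  have := Nat.card_le_card_of_injective (fun i : Fin n => (⟨T i, hT2 i⟩ : K))
    (fun i j h => hT (congrArg Subtype.val h))
  simpa using this

end HQM

open HQM

theorem specHQ : SpecHQ := by
  refine ⟨?_, ?_⟩
  · intro A _ B c n s T hB hB2 hs hs2 hT hT2
    have hm := main B
    have hbot : B ⊓ (dbl A).ker = ⊥ := by
      rw [eq_bot_iff]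
      rintro x ⟨hx, hx2⟩
      exact hB2 x hx hx2
    have hr : B.relIndex (dbl A).ker = Nat.card (dbl A).ker := by
      rw [← AddSubgroup.inf_relIndex_right, hbot, AddSubgroup.relIndex_bot_left]
    have hr0 : B.relIndex (dbl A).ker ≠ 0 := rel_ne B
    have hn : n ≤ B.relIndex (dbl A).ker := by
      rw [hr] at hr0 ⊢
      exact card_ker_ge _ hr0 T hT (fun i => hT2 i)
    have hex : ∃ g : Fin (c * n) → A, ∀ i j, i ≠ j → g i - g j ∉ (dbl A).range := by
      apply exists_index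
      by_cases h0 : (dbl A).range.index = 0
      · exact Or.inl h0
      · right
        rw [hm] at h0 ⊢
        have h1 : (B.map (dbl A)).relIndex B ≠ 0 := right_ne_zero_of_mul h0
        have h2 : c ≤ (B.map (dbl A)).relIndex B := by
          refine le_index ((B.map (dbl A)).addSubgroupOf B) (fun i => (⟨s i, hs i⟩ : B)) ?_ h1
          intro i j hij hmem
          rw [AddSubgroup.mem_addSubgroupOf] at hmem
          obtain ⟨x, hx, hx2⟩ := hmem
          exact hs2 i j hij x hx hx2.symm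
        rw [mul_comm c n]
        exact Nat.mul_le_mul hn h2
    obtain ⟨g, hg⟩ := hex
    exact ⟨g, fun i j hij x hx => hg i j hij ⟨x, hx.symm⟩⟩
  · intro A _ B M N s g hB hs hg
    have hm := main B
    have hM : 0 < M := by
      obtain ⟨i, -⟩ := hs 0 B.zero_mem
      exact i.pos
    have hrel : (B.map (dbl A)).relIndex B ≠ 0 ∧ (B.map (dbl A)).relIndex B ≤ M := by
      have key : ∃ q : Fin M → B ⧸ (B.map (dbl A)).addSubgroupOf B, Function.Surjective q := by
        refine ⟨fun i => if h : s i ∈ B then QuotientAddGroup.mk ⟨s i, h⟩ else 0, ?_⟩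
        intro q
        obtain ⟨x, rfl⟩ := QuotientAddGroup.mk_surjective q
        obtain ⟨i, y, hy, hxy⟩ := hs x x.2
        have hsi : s i ∈ B := by
          have : s i = x - (2 : ℕ) • y := by rw [hxy]; abel
          rw [this]
          exact B.sub_mem x.2 (B.nsmul_mem hy 2)
        refine ⟨i, ?_⟩
        simp only [hsi, dif_pos]
        apply QuotientAddGroup.eq.2
        rw [AddSubgroup.mem_addSubgroupOf]
        refine ⟨y, hy, ?_⟩
        rw [dbl_apply]
        push_cast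
        rw [hxy]
        abel
      obtain ⟨q, hq⟩ := key
      have hfin : Finite (B ⧸ (B.map (dbl A)).addSubgroupOf B) := Finite.of_surjective q hq
      refine ⟨Nat.card_pos.ne', ?_⟩
      have := Nat.card_le_card_of_surjective q hq
      simpa [AddSubgroup.relIndex, AddSubgroup.index] using this
    by_cases hK : Nat.card (dbl A).ker = 0
    · have hinf : Infinite (dbl A).ker := by
        rcases (Nat.card_eq_zero.1 hK) with h | h
        · exact (h.false (0 : (dbl A).ker)).elim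
        · exact h
      let e := Infinite.natEmbedding (dbl A).ker
      refine ⟨N, fun i => (e i : A), ?_, fun i => (e i).2, ?_⟩
      · intro i j hij
        exact Fin.ext (e.injective (Subtype.ext hij))
      · exact Nat.le_mul_of_pos_left N hM
    · have hfin : Finite (dbl A).ker := Nat.finite_of_card_ne_zero hK
      have e := Finite.equivFin (dbl A).ker
      refine ⟨Nat.card (dbl A).ker, fun i => (e.symm i : A), ?_, fun i => (e.symm i).2, ?_⟩
      · intro i j hij
        exact e.symm.injective (Subtype.ext hij)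
      · have h0 : (dbl A).range.index ≠ 0 := by
          rw [hm]
          exact mul_ne_zero (rel_ne B) hrel.1
        have h1 : N ≤ (dbl A).range.index := by
          refine le_index _ g (fun i j hij hmem => ?_) h0
          obtain ⟨x, hx⟩ := hmem
          exact hg i j hij x hx.symm
        have h2 : B.relIndex (dbl A).ker ≤ Nat.card (dbl A).ker := by
          have : Finite ((dbl A).ker ⧸ B.addSubgroupOf (dbl A).ker) :=
            Finite.of_surjective _ QuotientAddGroup.mk_surjective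
          exact Nat.card_le_card_of_surjective _ QuotientAddGroup.mk_surjective
        rw [hm] at h1
        calc N ≤ B.relIndex (dbl A).ker * (B.map (dbl A)).relIndex B := h1
          _ ≤ Nat.card (dbl A).ker * M := Nat.mul_le_mul h2 hrel.2
          _ = M * Nat.card (dbl A).ker := mul_comm _ _

end Pool.Agent.Lib.MP_8cb858_nt.PF
end

section
/-!
# Module IDM: the idempotent of a root (port of `PR/IDM.lean`)

`h = u ε + (x - θ) (1 - ε)` has the inverse `u⁻¹ ε + q(x)⁻¹ (x + θ + t) (1 - ε)`, so no norms are needed.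
-/
namespace Pool.Agent.Lib.MP_8cb858_nt.PF

open Polynomial
open scoped WithZero

namespace IDMM

variable {R : Type} [CommRing R] {a b : R}

theorem root : th a b ^ 3 + AdjoinRoot.of (fpol a b) a * th a b + AdjoinRoot.of (fpol a b) b = 0 := by
  have h := AdjoinRoot.eval₂_root (fpol a b)
  rw [eval₂_fpol] at h
  exact h

/-- the idempotent -/
noncomputable def eps (a b t v : R) : Lk a b :=
  AdjoinRoot.of (fpol a b) v * (th a b ^ 2 + AdjoinRoot.of (fpol a b) t * th a b +
    AdjoinRoot.of (fpol a b) t ^ 2 + AdjoinRoot.of (fpol a b) a)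

theorem root_of {t : R} (ht : t ^ 3 + a * t + b = 0) :
    AdjoinRoot.of (fpol a b) t ^ 3 + AdjoinRoot.of (fpol a b) a * AdjoinRoot.of (fpol a b) t +
      AdjoinRoot.of (fpol a b) b = 0 := by
  have := congrArg (AdjoinRoot.of (fpol a b)) ht
  rwa [map_add, map_add, map_pow, map_mul, map_zero] at this

theorem th_eps {t v : R} (ht : t ^ 3 + a * t + b = 0) :
    (th a b - AdjoinRoot.of (fpol a b) t) * eps a b t v = 0 := by
  unfold eps
  linear_combination AdjoinRoot.of (fpol a b) v * (root (R := R) (a := a) (b := b)) -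
    AdjoinRoot.of (fpol a b) v * root_of ht

theorem eps_sq {t v : R} (ht : t ^ 3 + a * t + b = 0) (hv : v * (3 * t ^ 2 + a) = 1) :
    eps a b t v * eps a b t v = eps a b t v := by
  have hv' := congrArg (AdjoinRoot.of (fpol a b)) hv
  rw [map_mul, map_add, map_mul, map_pow, map_one, map_ofNat] at hv'
  have h := th_eps (v := v) ht
  have h2 : eps a b t v * eps a b t v =
      (AdjoinRoot.of (fpol a b) v * (3 * AdjoinRoot.of (fpol a b) t ^ 2 +
        AdjoinRoot.of (fpol a b) a)) * eps a b t v +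
        AdjoinRoot.of (fpol a b) v * (th a b + 2 * AdjoinRoot.of (fpol a b) t) *
          ((th a b - AdjoinRoot.of (fpol a b) t) * eps a b t v) := by
    unfold eps
    ring
  rw [h2, h, hv', mul_zero, add_zero, one_mul]

/-- the unit `h` and its inverse -/
theorem unit_h {t v x u u' c : R} (ht : t ^ 3 + a * t + b = 0) (hv : v * (3 * t ^ 2 + a) = 1)
    (hu : u * u' = 1) (hc : c * (x ^ 2 + t * x + t ^ 2 + a) = 1) :
    (AdjoinRoot.of (fpol a b) u * eps a b t v +
      (AdjoinRoot.of (fpol a b) x - th a b) * (1 - eps a b t v)) *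
    (AdjoinRoot.of (fpol a b) u' * eps a b t v +
      AdjoinRoot.of (fpol a b) c * (AdjoinRoot.of (fpol a b) x + th a b +
        AdjoinRoot.of (fpol a b) t) * (1 - eps a b t v)) = 1 := by
  have hs := eps_sq ht hv
  have hv' := congrArg (AdjoinRoot.of (fpol a b)) hv
  rw [map_mul, map_add, map_mul, map_pow, map_one, map_ofNat] at hv'
  have hu' := congrArg (AdjoinRoot.of (fpol a b)) hu
  rw [map_mul, map_one] at hu'
  have hw' := congrArg (AdjoinRoot.of (fpol a b)) hc
  rw [map_mul, map_add, map_add, map_add, map_mul, map_pow, map_pow, map_one] at hw'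
  -- `q(θ) (1 - ε) = 0`
  have hq : (th a b ^ 2 + AdjoinRoot.of (fpol a b) t * th a b +
      AdjoinRoot.of (fpol a b) t ^ 2 + AdjoinRoot.of (fpol a b) a) * (1 - eps a b t v) = 0 := by
    have h1 : (th a b ^ 2 + AdjoinRoot.of (fpol a b) t * th a b +
        AdjoinRoot.of (fpol a b) t ^ 2 + AdjoinRoot.of (fpol a b) a) =
        (3 * AdjoinRoot.of (fpol a b) t ^ 2 + AdjoinRoot.of (fpol a b) a) * eps a b t v := by
      unfold eps
      linear_combination -(th a b ^ 2 + AdjoinRoot.of (fpol a b) t * th a b +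
        AdjoinRoot.of (fpol a b) t ^ 2 + AdjoinRoot.of (fpol a b) a) * hv'
    rw [h1]
    linear_combination -(3 * AdjoinRoot.of (fpol a b) t ^ 2 + AdjoinRoot.of (fpol a b) a) * hs
  have hs1 : eps a b t v * (1 - eps a b t v) = 0 := by linear_combination -hs
  have hs2 : (1 - eps a b t v) * (1 - eps a b t v) = 1 - eps a b t v := by linear_combination hs
  generalize eps a b t v = E at *
  generalize AdjoinRoot.of (fpol a b) u = U at *
  generalize AdjoinRoot.of (fpol a b) u' = U' at *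
  generalize AdjoinRoot.of (fpol a b) c = W at *
  generalize AdjoinRoot.of (fpol a b) x = X at *
  generalize AdjoinRoot.of (fpol a b) t = T at *
  generalize AdjoinRoot.of (fpol a b) a = A at *
  generalize th a b = Θ at *
  have e : (U * E + (X - Θ) * (1 - E)) * (U' * E + W * (X + Θ + T) * (1 - E)) =
      U * U' * (E * E) + (U * W * (X + Θ + T) + U' * (X - Θ)) * (E * (1 - E)) +
        W * (X - Θ) * (X + Θ + T) * ((1 - E) * (1 - E)) := by ring
  rw [e, hs, hs1, hs2, hu']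
  linear_combination (1 - E) * hw' - W * hq

end IDMM

open IDMM in
theorem specIDM (hLFB : SpecLFB) : SpecIDM := by
  intro K _ _ w a b t x ϖ u k hϖ ha hb ht hx hu hroot hf hxt hk
  obtain ⟨hcl, h1, hθ, hof, -⟩ := hLFB.ring (w := w) (a := a) (b := b) ha hb
  have hadd : ∀ g h : Lk a b, Itg w g → Itg w h → Itg w (g + h) := fun g h hg hh => (hcl g h hg hh).1
  have hmul : ∀ g h : Lk a b, Itg w g → Itg w h → Itg w (g * h) := fun g h hg hh => (hcl g h hg hh).2.1
  have hneg : ∀ g : Lk a b, Itg w g → Itg w (-g) := fun g hg => (hcl g g hg hg).2.2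
  have hsub : ∀ g h : Lk a b, Itg w g → Itg w h → Itg w (g - h) := by
    intro g h hg hh
    rw [sub_eq_add_neg]
    exact hadd _ _ hg (hneg _ hh)
  have hint : ∀ {y z : K}, w y ≤ 1 → w z ≤ 1 → w (y + z) ≤ 1 := by
    intro y z hy hz
    exact (w.map_add y z).trans (max_le hy hz)
  have h2 : w (2 : K) ≤ 1 := by
    have : (2 : K) = 1 + 1 := by norm_num
    rw [this]
    exact hint (by rw [map_one]) (by rw [map_one])
  have hf0 : (3 * t ^ 2 + a) ≠ 0 := by
    intro h
    rw [h, map_zero] at hf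
    exact zero_ne_one hf
  have hu0 : u ≠ 0 := by
    intro h
    rw [h, map_zero] at hu
    exact zero_ne_one hu
  -- `q(x)` is a unit
  have hq : w (x ^ 2 + t * x + t ^ 2 + a) = 1 := by
    have e : x ^ 2 + t * x + t ^ 2 + a = (x - t) * (x + 2 * t) + (3 * t ^ 2 + a) := by ring
    rw [e, ← hf]
    apply Valuation.map_add_eq_of_lt_right
    rw [hf, hxt, map_mul, map_mul, map_pow, hϖ, hu, mul_one]
    have e2 : (WithZero.exp (-1 : ℤ)) ^ (2 * k) < (1 : ℤᵐ⁰) := by
      apply pow_lt_one₀ zero_le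
      · rw [← WithZero.exp_zero, WithZero.exp_lt_exp]
        norm_num
      · omega
    have e3 : w (x + 2 * t) ≤ 1 := by
      apply hint hx
      rw [map_mul]
      exact mul_le_one' h2 ht
    calc (WithZero.exp (-1 : ℤ)) ^ (2 * k) * w (x + 2 * t) ≤ (WithZero.exp (-1 : ℤ)) ^ (2 * k) * 1 :=
          mul_le_mul_right e3 _
      _ < 1 := by rw [mul_one]; exact e2
  have hq0 : x ^ 2 + t * x + t ^ 2 + a ≠ 0 := by
    intro h
    rw [h, map_zero] at hq
    exact zero_ne_one hq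
  have hv : (3 * t ^ 2 + a)⁻¹ * (3 * t ^ 2 + a) = 1 := inv_mul_cancel₀ hf0
  have hwv : w (3 * t ^ 2 + a)⁻¹ ≤ 1 := by rw [map_inv₀, hf, inv_one]
  have huu : u * u⁻¹ = 1 := mul_inv_cancel₀ hu0
  have hwu : w u⁻¹ ≤ 1 := by rw [map_inv₀, hu, inv_one]
  have hcc : (x ^ 2 + t * x + t ^ 2 + a)⁻¹ * (x ^ 2 + t * x + t ^ 2 + a) = 1 := inv_mul_cancel₀ hq0
  have hwc : w (x ^ 2 + t * x + t ^ 2 + a)⁻¹ ≤ 1 := by rw [map_inv₀, hq, inv_one]
  have hunit := unit_h (a := a) (b := b) hroot hv huu hcc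
  have hs := eps_sq (a := a) (b := b) hroot hv
  have hθ' := th_eps (a := a) (b := b) (v := (3 * t ^ 2 + a)⁻¹) hroot
  have hE : Itg w (eps a b t (3 * t ^ 2 + a)⁻¹) := by
    unfold eps
    refine hmul _ _ (hof _ hwv) (hadd _ _ (hadd _ _ (hadd _ _ ?_ (hmul _ _ (hof _ ht) hθ)) ?_)
      (hof _ ha))
    · rw [pow_two]
      exact hmul _ _ hθ hθ
    · rw [pow_two]
      exact hmul _ _ (hof _ ht) (hof _ ht)
  have hϖ0 : ϖ ≠ 0 := by
    intro h
    rw [h, map_zero] at hϖ
    exact WithZero.exp_ne_zero hϖ.symm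
  have hP0 : ϖ ^ k ≠ 0 := pow_ne_zero _ hϖ0
  have hPP : AdjoinRoot.of (fpol a b) (ϖ ^ k) * AdjoinRoot.of (fpol a b) (ϖ ^ k)⁻¹ = 1 := by
    rw [← map_mul, mul_inv_cancel₀ hP0, map_one]
  have hx2 : AdjoinRoot.of (fpol a b) x = AdjoinRoot.of (fpol a b) t +
      AdjoinRoot.of (fpol a b) (ϖ ^ k) ^ 2 * AdjoinRoot.of (fpol a b) u := by
    rw [← map_pow, ← map_mul, ← map_add]
    congr 1
    rw [← pow_mul, mul_comm k 2, ← hxt]
    ring
  refine ⟨AdjoinRoot.of _ (ϖ ^ k)⁻¹ * eps a b t (3 * t ^ 2 + a)⁻¹ +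
    (1 - eps a b t (3 * t ^ 2 + a)⁻¹), _, _, ?_, ?_, ?_, hunit, ?_⟩
  · refine IsUnit.of_mul_eq_one (AdjoinRoot.of _ (ϖ ^ k) * eps a b t (3 * t ^ 2 + a)⁻¹ +
      (1 - eps a b t (3 * t ^ 2 + a)⁻¹)) ?_
    generalize AdjoinRoot.of (fpol a b) (ϖ ^ k) = Q at *
    generalize AdjoinRoot.of (fpol a b) (ϖ ^ k)⁻¹ = Q' at *
    generalize eps a b t (3 * t ^ 2 + a)⁻¹ = E at *
    linear_combination (Q' * Q - Q' - Q + 1) * hs + E * hPP
  · exact hadd _ _ (hmul _ _ (hof _ hu.le) hE) (hmul _ _ (hsub _ _ (hof _ hx) hθ) (hsub _ _ h1 hE))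
  · exact hadd _ _ (hmul _ _ (hof _ hwu) hE) (hmul _ _ (hmul _ _ (hof _ hwc)
      (hadd _ _ (hadd _ _ (hof _ hx) hθ) (hof _ ht))) (hsub _ _ h1 hE))
  · generalize AdjoinRoot.of (fpol a b) (ϖ ^ k) = Q at *
    generalize AdjoinRoot.of (fpol a b) (ϖ ^ k)⁻¹ = Q' at *
    generalize AdjoinRoot.of (fpol a b) x = X at *
    generalize AdjoinRoot.of (fpol a b) t = T at *
    generalize AdjoinRoot.of (fpol a b) u = V at *
    generalize eps a b t (3 * t ^ 2 + a)⁻¹ = E at *
    generalize th a b = Θ at *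
    have e1 : (Q' * E + (1 - E)) ^ 2 = Q' ^ 2 * E + (1 - E) := by
      linear_combination (Q' - 1) ^ 2 * hs
    have e2 : (X - Θ) * E = Q ^ 2 * V * E := by
      rw [hx2]
      linear_combination -hθ'
    rw [e1]
    calc (X - Θ) * (Q' ^ 2 * E + (1 - E)) = Q' ^ 2 * ((X - Θ) * E) + (X - Θ) * (1 - E) := by ring
      _ = Q' ^ 2 * (Q ^ 2 * V * E) + (X - Θ) * (1 - E) := by rw [e2]
      _ = V * E + (X - Θ) * (1 - E) := by
        have : Q' ^ 2 * Q ^ 2 = 1 := by
          rw [← mul_pow, mul_comm Q' Q, hPP, one_pow]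
        linear_combination V * E * this

end Pool.Agent.Lib.MP_8cb858_nt.PF
end

section
/-!
# Module LIC: the complex field
-/
namespace Pool.Agent.Lib.MP_8cb858_nt.PF

open Polynomial NumberField IsDedekindDomain Pool.Agent.Lib.MP_8cb858_nt.SEL
open scoped Classical WithZero

namespace LICM

/-- Every complex number is a square. -/
theorem csq (z : ℂ) : ∃ x : ℂ, x ^ 2 = z := IsAlgClosed.exists_pow_nat_eq z (by norm_num)

/-- The cubic has a root. -/
theorem root (a b : ℂ) : ∃ t : ℂ, t ^ 3 + a * t + b = 0 := by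
  obtain ⟨t, ht⟩ := IsAlgClosed.exists_root (fpol a b) (by
    have h : (fpol a b).degree = 3 := by
      unfold fpol
      rw [add_assoc]
      compute_degree!
    rw [h]
    norm_num)
  refine ⟨t, ?_⟩
  have h1 := ht
  rw [IsRoot.def, fpol] at h1
  simpa using h1

/-- Units are squares. -/
theorem sq_of_unit (hTOC : SpecTOC) (hTOI : SpecTOI) (a b : ℂ) (β : Lk a b) (hD : dsc a b ≠ 0)
    (hβ : IsUnit β) : IsSquare β := by
  obtain ⟨t, ht⟩ := root a b
  have h2 : (2 : ℂ) ≠ 0 := two_ne_zero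
  have hid : dq a t * (3 * t ^ 2 + a) ^ 2 = - dsc a b := by
    have hb : b = -(t ^ 3 + a * t) := by linear_combination ht
    rw [hb]
    unfold dq dsc
    ring
  have hf : 3 * t ^ 2 + a ≠ 0 := by
    intro h
    rw [h] at hid
    exact hD (by linear_combination hid)
  have hd : dq a t ≠ 0 := by
    intro h
    rw [h] at hid
    exact hD (by linear_combination hid)
  obtain ⟨r, z, s, hco⟩ := hTOC.all (a := a) (b := b) t β h2
  obtain ⟨hr, hn⟩ := (hTOC.unt h2 ht hco).mp hβ
  rw [(hTOI ℂ a b t β r z s h2 ht hf hco).1]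
  refine ⟨?_, ?_⟩
  · obtain ⟨x, hx⟩ := csq r
    exact ⟨x, by rw [← hx, sq]⟩
  · obtain ⟨σ, hσ⟩ := csq (z ^ 2 - dq a t * s ^ 2)
    have key : ∀ σ : ℂ, σ ^ 2 = z ^ 2 - dq a t * s ^ 2 → (z + σ) / 2 ≠ 0 →
        ∃ x y : ℂ, z = x ^ 2 + dq a t * y ^ 2 ∧ s = 2 * x * y := by
      intro σ hσ hρ
      obtain ⟨x, hx⟩ := csq ((z + σ) / 2)
      have hx0 : x ≠ 0 := by
        rintro rfl
        apply hρ
        rw [← hx]
        ring
      have hρ2 : z + σ ≠ 0 := by
        intro h
        apply hρ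
        rw [h, zero_div]
      refine ⟨x, s / (2 * x), ?_, ?_⟩
      · have h1 : (s / (2 * x)) ^ 2 = s ^ 2 / (4 * x ^ 2) := by
          rw [div_pow]
          ring
        rw [h1, hx]
        have h3 : dq a t * s ^ 2 = z ^ 2 - σ ^ 2 := by linear_combination hσ
        have h4 : (z + σ) / 2 + dq a t * (s ^ 2 / (4 * ((z + σ) / 2))) =
            (z + σ) / 2 + (dq a t * s ^ 2) / (2 * (z + σ)) := by
          field_simp
          ring
        rw [h4, h3]
        field_simp
        ring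
      · field_simp
    by_cases h0 : (z + σ) / 2 = 0
    · by_cases h1 : (z + -σ) / 2 = 0
      · exfalso
        apply hn
        have hz : z = 0 := by linear_combination h0 + h1
        have hs : σ = 0 := by linear_combination h0 - h1
        rw [← hσ, hs]
        ring
      · exact key (-σ) (by rw [neg_sq]; exact hσ) h1
    · exact key σ hσ h0

/-- There is a point. -/
theorem val (a b : ℂ) : ∃ x : ℂ, x ^ 3 + a * x + b ≠ 0 := by
  by_contra h
  push Not at h
  have h0 := h 0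
  have h1 := h 1
  have h2 := h (-1)
  have h3 := h 2
  have hb : b = 0 := by linear_combination h0
  have h4 : (6 : ℂ) = 0 := by linear_combination h3 - 2 * h1 + hb
  norm_num at h4

end LICM

open LICM in
theorem specLIC (hTOC : SpecTOC) (hTOI : SpecTOI) (hNRM : SpecNRM) (hAFI : SpecAFI) :
    SpecLIC := by
  intro a b D α hd hD hα
  have haff : Aff D α := by
    obtain ⟨x, hx⟩ := val a b
    obtain ⟨y, hy⟩ := csq (D * (x ^ 3 + a * x + b))
    refine ⟨x, y, ?_, hy, ?_⟩
    · rintro rfl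
      apply mul_ne_zero hD hx
      rw [← hy]
      ring
    · refine sq_of_unit hTOC hTOI a b _ hd ?_
      refine hα.1.mul ?_
      rw [hNRM.unt, hNRM.lin]
      exact (mul_ne_zero (pow_ne_zero 3 hD) hx).isUnit
  exact ⟨sq_of_unit hTOC hTOI a b α hd hα.1, haff, hAFI.iso D α hD hα.1 haff⟩

end Pool.Agent.Lib.MP_8cb858_nt.PF
end

section
/-!
# Module LIR: the real field, `a > 0`
-/
namespace Pool.Agent.Lib.MP_8cb858_nt.PF

open Polynomial NumberField IsDedekindDomain Pool.Agent.Lib.MP_8cb858_nt.SEL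
open scoped Classical WithZero

namespace LIRM

/-- The cubic has a real root. -/
theorem root (A B : ℝ) (hA : 0 < A) : ∃ t : ℝ, t ^ 3 + A * t + B = 0 := by
  have hc : Continuous fun t : ℝ => t ^ 3 + A * t + B := by fun_prop
  have h1 : (fun t : ℝ => t ^ 3 + A * t + B) (|B| / A) ≥ 0 := by
    have h2 : A * (|B| / A) = |B| := by field_simp
    have h3 : 0 ≤ |B| / A := by positivity
    have h4 : 0 ≤ (|B| / A) ^ 3 := by positivity
    have h5 : -|B| ≤ B := neg_abs_le B
    show (|B| / A) ^ 3 + A * (|B| / A) + B ≥ 0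
    rw [h2]
    linarith
  have h2 : (fun t : ℝ => t ^ 3 + A * t + B) (-(|B| / A)) ≤ 0 := by
    have h2 : A * (|B| / A) = |B| := by field_simp
    have h4 : 0 ≤ (|B| / A) ^ 3 := by positivity
    have h5 : B ≤ |B| := le_abs_self B
    show (-(|B| / A)) ^ 3 + A * (-(|B| / A)) + B ≤ 0
    have h6 : (-(|B| / A)) ^ 3 + A * (-(|B| / A)) + B =
        -(|B| / A) ^ 3 - A * (|B| / A) + B := by ring
    rw [h6, h2]
    linarith
  obtain ⟨t, ht⟩ := mem_range_of_exists_le_of_exists_ge hc ⟨_, h2⟩ ⟨_, h1⟩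
  exact ⟨t, ht⟩

/-- A positive value of the form has the required square root. -/
theorem pos_root {z w d : ℝ} (hd : d < 0) :
    ∃ x y : ℝ, z = x ^ 2 + d * y ^ 2 ∧ w = 2 * x * y := by
  have hn0 : 0 ≤ z ^ 2 - d * w ^ 2 := by nlinarith [sq_nonneg z, sq_nonneg w]
  obtain ⟨n, hn⟩ : ∃ n, n = Real.sqrt (z ^ 2 - d * w ^ 2) := ⟨_, rfl⟩
  have hn2 : n ^ 2 = z ^ 2 - d * w ^ 2 := by rw [hn]; exact Real.sq_sqrt hn0
  have hnn : 0 ≤ n := by rw [hn]; exact Real.sqrt_nonneg _
  have hzn : 0 ≤ z + n := by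
    have h1 : z ^ 2 ≤ n ^ 2 := by rw [hn2]; nlinarith [sq_nonneg w]
    have h2 := abs_le_of_sq_le_sq' h1 hnn
    linarith [h2.1]
  by_cases h0 : z + n = 0
  · have hz : z = -n := by linarith
    have hw : d * w ^ 2 = 0 := by
      have : n ^ 2 = z ^ 2 := by rw [hz]; ring
      linarith
    have hw0 : w = 0 := by
      rcases mul_eq_zero.mp hw with h | h
      · linarith
      · exact pow_eq_zero_iff (two_ne_zero) |>.mp h
    have hzd : 0 ≤ z / d := by
      rw [hz]
      exact div_nonneg_of_nonpos (by linarith) hd.le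
    refine ⟨0, Real.sqrt (z / d), ?_, ?_⟩
    · have hd0 : d ≠ 0 := hd.ne
      have h5 : d * (z / d) = z := by field_simp
      rw [Real.sq_sqrt hzd, h5]
      ring
    · rw [hw0]
      ring
  · have hp : 0 < z + n := lt_of_le_of_ne hzn (Ne.symm h0)
    have hp2 : 0 ≤ (z + n) / 2 := by positivity
    obtain ⟨x, hx⟩ : ∃ x, x = Real.sqrt ((z + n) / 2) := ⟨_, rfl⟩
    have hx2 : x ^ 2 = (z + n) / 2 := by rw [hx]; exact Real.sq_sqrt hp2
    have hx0 : x ≠ 0 := by
      intro h
      rw [h] at hx2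
      simp at hx2
      linarith
    refine ⟨x, w / (2 * x), ?_, ?_⟩
    · have h1 : (w / (2 * x)) ^ 2 = w ^ 2 / (4 * x ^ 2) := by
        rw [div_pow]
        ring
      rw [h1, hx2]
      have h3 : d * w ^ 2 = z ^ 2 - n ^ 2 := by linarith
      have h4 : (z + n) / 2 + d * (w ^ 2 / (4 * ((z + n) / 2))) =
          (z + n) / 2 + (d * w ^ 2) / (2 * (z + n)) := by
        field_simp
        ring
      rw [h4, h3]
      field_simp
      ring
    · field_simp

/-- Elements of positive norm are squares. -/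
theorem sq_of_pos (hTOC : SpecTOC) (hTOI : SpecTOI) (a b : ℝ) (β : Lk a b) (hA : 0 < a)
    (hN : 0 < Algebra.norm ℝ β) : IsSquare β := by
  obtain ⟨t, ht⟩ := root a b hA
  have h2 : (2 : ℝ) ≠ 0 := two_ne_zero
  have hf : 3 * t ^ 2 + a ≠ 0 := by positivity
  have hd : dq a t < 0 := by
    unfold dq
    nlinarith [sq_nonneg t]
  obtain ⟨r, z, w, hco⟩ := hTOC.all (a := a) (b := b) t β h2
  have hn := hTOC.nrm h2 ht hco
  rw [hn] at hN
  have hnn : 0 ≤ z ^ 2 - dq a t * w ^ 2 := by nlinarith [sq_nonneg z, sq_nonneg w]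
  have ha : 0 < r := by
    by_contra h
    have : r * (z ^ 2 - dq a t * w ^ 2) ≤ 0 :=
      mul_nonpos_of_nonpos_of_nonneg (not_lt.mp h) hnn
    linarith
  rw [(hTOI ℝ a b t β r z w h2 ht hf hco).1]
  refine ⟨⟨Real.sqrt r, (Real.mul_self_sqrt ha.le).symm⟩, pos_root hd⟩

/-- A cubic times a nonzero constant takes a positive value. -/
theorem pos_val (A B D : ℝ) (hA : 0 < A) (hD : D ≠ 0) : ∃ x : ℝ, 0 < D * (x ^ 3 + A * x + B) := by
  obtain ⟨c, hc⟩ : ∃ c : ℝ, c = (|B| + 1) / A := ⟨_, rfl⟩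
  have hc0 : 0 < c := by rw [hc]; positivity
  have hc1 : A * c = |B| + 1 := by rw [hc]; field_simp
  have hc3 : 0 < c ^ 3 := by positivity
  rcases lt_or_gt_of_ne hD with h | h
  · refine ⟨-c, mul_pos_of_neg_of_neg h ?_⟩
    have h1 : B ≤ |B| := le_abs_self B
    have h2 : (-c) ^ 3 + A * (-c) + B = -(c ^ 3) - A * c + B := by ring
    rw [h2, hc1]
    linarith
  · refine ⟨c, mul_pos h ?_⟩
    have h1 : -|B| ≤ B := neg_abs_le B
    rw [hc1]
    linarith

end LIRM

open LIRM in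
theorem specLIR (hTOC : SpecTOC) (hTOI : SpecTOI) (hNRM : SpecNRM) (hAFI : SpecAFI) :
    SpecLIR := by
  intro a b D α hA hD hα
  obtain ⟨r, hr⟩ := hα.2
  have hr0 : Algebra.norm ℝ α ≠ 0 := ((hNRM.unt α).mp hα.1).ne_zero
  have hp : 0 < Algebra.norm ℝ α := by
    refine lt_of_le_of_ne ?_ (Ne.symm hr0)
    rw [hr]
    exact mul_self_nonneg r
  have haff : Aff D α := by
    obtain ⟨x, hx⟩ := pos_val a b D hA hD
    refine ⟨x, Real.sqrt (D * (x ^ 3 + a * x + b)), ?_, Real.sq_sqrt hx.le, ?_⟩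
    · exact (Real.sqrt_pos.mpr hx).ne'
    · refine sq_of_pos hTOC hTOI a b _ hA ?_
      rw [map_mul, hNRM.lin]
      have h1 : D ^ 3 * (x ^ 3 + a * x + b) = D ^ 2 * (D * (x ^ 3 + a * x + b)) := by
        ring
      rw [h1]
      positivity
  exact ⟨sq_of_pos hTOC hTOI a b α hA hp, haff, hAFI.iso D α hD hα.1 haff⟩

end Pool.Agent.Lib.MP_8cb858_nt.PF
end

section
namespace Pool.Agent.Lib.MP_8cb858_nt.PF

open Polynomial NumberField IsDedekindDomain Pool.Agent.Lib.MP_8cb858_nt.SEL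
open scoped Classical WithZero

theorem specLSF (hRTA : SpecRTA) (hRTC : SpecRTC) (hHYF : SpecHYF) (hEVF : SpecEVF)
    (hEWU : SpecEWU) (hEWR : SpecEWR) (hTWU : SpecTWU) (hTWR : SpecTWR) (hLG : SpecLG)
    (hAFI : SpecAFI) (hISU : SpecISU) (hISR : SpecISR) : SpecLS := by
  intro K _ _ w a b hw h2 h3 ha hb hD hcase
  have hsq : WithZero.exp (-1 : ℤ) ≤ w (dsc a b) := by
    rcases hcase with h | h
    · have h0 := h 0 (by simp)
      rw [zero_pow two_ne_zero, zero_add] at h0
      rw [h0, ← WithZero.exp_zero, WithZero.exp_le_exp]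
      norm_num
    · rw [h]
  obtain ⟨hc1, hc2, hex⟩ : (∃ ϖ : Lk a b, InV ϖ ∧ ∀ α : Lk a b, InV α → Ev w α ∨ Ev w (α * ϖ)) ∧
      (∀ α β : Lk a b, InV α → InV β → Ev w α → Ev w β → ¬ IsSquare α → ¬ IsSquare β →
        IsSquare (α * β)) ∧
      (∃ α₁ ε : Lk a b, InV α₁ ∧ InV ε ∧ Ev w ε ∧ Iso α₁ ∧ ¬ Iso (α₁ * ε)) := by
    rcases hcase with h | h
    · obtain ⟨h1, t, ht⟩ := hRTA K w a b hw h2 ha hb h
      have hu := h1 t ht
      obtain ⟨α₁, ε, a1, a2, a3, a4, a5, _⟩ := hISU K w a b t hw h2 ha hb hu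
      exact ⟨hEWU K w a b t hw h2 ha hb hu, (hTWU K w a b t hw h2 ha hb hu).1,
        α₁, ε, a1, a2, a3, a4, a5⟩
    · obtain ⟨t, hr⟩ := hRTC K w a b hw h2 h3 ha hb h
      exact ⟨hEWR K w a b t hw h2 ha hb hr, hTWR K w a b t hw h2 ha hb hr,
        hISR K w a b t hw h2 h3 ha hb hr⟩
  refine hHYF K a b (Ev w) ?_ ?_ ?_ ?_ hc2 ?_ hex
  · intro α γ _ hγ
    exact (hEVF K w a b α γ ha hb).2.1 hγ
  · intro α hα hs
    exact (hEVF K w a b α α ha hb).2.2 hα.1 hs
  · intro α β _ _ h1 h2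
    exact (hEVF K w a b α β ha hb).1 h1 h2
  · intro α β hα hβ h1 h2
    obtain ⟨ϖ, hϖ, hall⟩ := hc1
    have e1 := (hall α hα).resolve_left h1
    have e2 := (hall β hβ).resolve_left h2
    have e3 := (hEVF K w a b _ _ ha hb).1 e1 e2
    have : α * ϖ * (β * ϖ) = (α * β) * ϖ ^ 2 := by ring
    rw [this] at e3
    exact ((hEVF K w a b (α * β) ϖ ha hb).2.1 hϖ.1).1 e3
  · intro α hα h
    have h1 : Aff 1 α := (hLG K w a b 1 α hw h2 ha hb hsq (map_one w) hα).1 h
    exact hAFI.iso 1 α one_ne_zero hα.1 h1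

end Pool.Agent.Lib.MP_8cb858_nt.PF
end

section
/-!
# NFF: the completions are local fields (assembly of SpecNF)
-/
namespace Pool.Agent.Lib.MP_8cb858_nt.PF

open Polynomial NumberField IsDedekindDomain Pool.Agent.Lib.MP_8cb858_nt.SEL
open scoped Classical WithZero

theorem specNFF (hNFA : SpecNFA) (hNFB : SpecNFB) (hNFC : SpecNFC) (hLFB : SpecLFB) :
    SpecNF where
  lf := fun F _ _ v => hNFA F v
  twm := by
    intro F _ _ M hM
    obtain ⟨S, hS, hprod⟩ := hNFC F
    have hSM : S ⊆ M := fun v hv => hM v ((hS v).1 hv)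
    rw [← hprod]
    refine (Finset.prod_subset hSM fun v _ hv => ?_).symm
    have h2 : (2 : 𝓞 F) ∉ v.asIdeal := fun h => hv ((hS v).2 h)
    refine (hLFB.two (hNFA F v)).2.1 ?_
    have h3 := hNFB.int F v 2 1
    have e : algebraMap F (v.adicCompletion F) ((2 : 𝓞 F) : F) = 2 := by
      have e1 : ((2 : 𝓞 F) : F) = 2 := map_ofNat (algebraMap (𝓞 F) F) 2
      rw [e1]
      exact map_ofNat (algebraMap F (v.adicCompletion F)) 2
    rw [e, pow_one] at h3
    refine le_antisymm h3.1 ?_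
    by_contra hlt
    apply h2
    rw [h3.2]
    have h4 := not_le.1 hlt
    by_cases h0 : vv v (2 : v.adicCompletion F) = 0
    · rw [h0]
      exact zero_le
    · rw [← WithZero.exp_log h0, ← WithZero.exp_zero, WithZero.exp_lt_exp] at h4
      rw [← WithZero.exp_log h0, WithZero.exp_le_exp]
      push_cast
      omega
  two := fun F _ _ => hNFC F
  int := fun F _ _ v x k => hNFB.int F v x k
  dense := by
    intro F _ _ v x hx
    obtain ⟨y, hy⟩ := hNFB.dense F v x 1 hx
    refine ⟨y, lt_of_le_of_lt hy ?_⟩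
    rw [← WithZero.exp_zero]
    exact WithZero.exp_lt_exp.2 (by norm_num)
  t3 := fun F _ _ v a b => hNFB.t3 F v a b
  t12 := fun F _ _ v a b => hNFB.t12 F v a b

end Pool.Agent.Lib.MP_8cb858_nt.PF
end

section
/-!
# RES: facts on the residue field (helper73)
-/
set_option autoImplicit false

namespace Pool.Agent.Lib.MP_8cb858_nt.PF

open Polynomial NumberField IsDedekindDomain Pool.Agent.Lib.MP_8cb858_nt.SEL
open scoped Classical WithZero

namespace RESM

variable {K : Type} [Field K] {w : Valuation K ℤᵐ⁰}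

/-- the reduction of an integral element -/
noncomputable def rd (w : Valuation K ℤᵐ⁰) (x : K) (hx : w x ≤ 1) :
    IsLocalRing.ResidueField w.valuationSubring :=
  IsLocalRing.residue w.valuationSubring ⟨x, hx⟩

theorem unit_iff (x : w.valuationSubring) : IsUnit x ↔ w (x : K) = 1 := by
  constructor
  · intro h
    obtain ⟨y, hy⟩ := h.exists_right_inv
    have h1 : w (x : K) * w (y : K) = 1 := by
      rw [← map_mul, ← map_one w]
      exact congrArg (fun z : w.valuationSubring => w (z : K)) hy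
    have h2 : w (x : K) ≤ 1 := x.2
    have h3 : w (y : K) ≤ 1 := y.2
    refine le_antisymm h2 ?_
    rw [← h1]
    exact mul_le_of_le_one_right' h3
  · intro h
    have h0 : (x : K) ≠ 0 := by
      intro h0
      rw [h0, map_zero] at h
      exact zero_ne_one h
    have h1 : w ((x : K)⁻¹) ≤ 1 := by
      rw [map_inv₀, h, inv_one]
    refine IsUnit.of_mul_eq_one ⟨(x : K)⁻¹, h1⟩ ?_
    apply Subtype.ext
    exact mul_inv_cancel₀ h0

theorem res_zero (x : K) (hx : w x ≤ 1) : rd w x hx = 0 ↔ w x < 1 := by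
  rw [rd, IsLocalRing.residue_eq_zero_iff, IsLocalRing.mem_maximalIdeal, mem_nonunits_iff, unit_iff]
  exact ⟨fun h => lt_of_le_of_ne hx h, fun h => ne_of_lt h⟩

theorem lift (c : IsLocalRing.ResidueField w.valuationSubring) :
    ∃ (x : K) (hx : w x ≤ 1), rd w x hx = c := by
  obtain ⟨x, hx⟩ := IsLocalRing.residue_surjective c
  exact ⟨x, x.2, hx⟩

theorem le_mul {x y : K} (hx : w x ≤ 1) (hy : w y ≤ 1) : w (x * y) ≤ 1 := by
  rw [map_mul]
  exact mul_le_one' hx hy

theorem le_pow {x : K} (hx : w x ≤ 1) (n : ℕ) : w (x ^ n) ≤ 1 := by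
  rw [map_pow]
  exact pow_le_one₀ zero_le hx

theorem le_add {x y : K} (hx : w x ≤ 1) (hy : w y ≤ 1) : w (x + y) ≤ 1 :=
  (w.map_add x y).trans (max_le hx hy)

theorem le_sub {x y : K} (hx : w x ≤ 1) (hy : w y ≤ 1) : w (x - y) ≤ 1 :=
  (w.map_sub x y).trans (max_le hx hy)

theorem le_neg {x : K} (hx : w x ≤ 1) : w (-x) ≤ 1 := by
  rwa [Valuation.map_neg]

theorem le_nat (n : ℕ) : w (n : K) ≤ 1 := by
  induction n with
  | zero => simp
  | succ n ih =>
    rw [Nat.cast_succ]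
    exact le_add ih (by rw [map_one])

theorem rd_mul {x y : K} (hx : w x ≤ 1) (hy : w y ≤ 1) :
    rd w (x * y) (le_mul hx hy) = rd w x hx * rd w y hy :=
  map_mul (IsLocalRing.residue w.valuationSubring) ⟨x, hx⟩ ⟨y, hy⟩

theorem rd_pow {x : K} (hx : w x ≤ 1) (n : ℕ) :
    rd w (x ^ n) (le_pow hx n) = rd w x hx ^ n :=
  map_pow (IsLocalRing.residue w.valuationSubring) ⟨x, hx⟩ n

theorem rd_add {x y : K} (hx : w x ≤ 1) (hy : w y ≤ 1) :
    rd w (x + y) (le_add hx hy) = rd w x hx + rd w y hy :=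
  map_add (IsLocalRing.residue w.valuationSubring) ⟨x, hx⟩ ⟨y, hy⟩

theorem rd_sub {x y : K} (hx : w x ≤ 1) (hy : w y ≤ 1) :
    rd w (x - y) (le_sub hx hy) = rd w x hx - rd w y hy :=
  map_sub (IsLocalRing.residue w.valuationSubring) ⟨x, hx⟩ ⟨y, hy⟩

theorem rd_neg {x : K} (hx : w x ≤ 1) :
    rd w (-x) (le_neg hx) = -rd w x hx :=
  map_neg (IsLocalRing.residue w.valuationSubring) ⟨x, hx⟩

theorem rd_nat (n : ℕ) (h : w (n : K) ≤ 1) : rd w (n : K) h = n := by
  have h1 := map_natCast (IsLocalRing.residue w.valuationSubring) n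
  exact h1

theorem sub_lt_iff {x y : K} (hx : w x ≤ 1) (hy : w y ≤ 1) :
    w (x - y) < 1 ↔ rd w x hx = rd w y hy := by
  rw [← res_zero _ (le_sub hx hy), rd_sub, sub_eq_zero]

theorem ns_iff {u : K} (hu : w u ≤ 1) : NS w u ↔ ¬ IsSquare (rd w u hu) := by
  constructor
  · rintro h ⟨c, hc⟩
    obtain ⟨x, hx, rfl⟩ := lift c
    have h1 : w (x ^ 2 - u) < 1 := by
      rw [sub_lt_iff (le_pow hx 2) hu, rd_pow, hc, pow_two]
    exact absurd (h x hx) (ne_of_lt h1)
  · intro h x hx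
    refine le_antisymm (le_sub (le_pow hx 2) hu) (not_lt.1 fun h1 => h ?_)
    rw [sub_lt_iff (le_pow hx 2) hu, rd_pow] at h1
    exact ⟨rd w x hx, by rw [← h1, pow_two]⟩

theorem char_ne (h2 : w 2 = 1) : ringChar (IsLocalRing.ResidueField w.valuationSubring) ≠ 2 := by
  intro h
  have h1 : ((2 : ℕ) : IsLocalRing.ResidueField w.valuationSubring) = 0 := by
    rw [ringChar.spec, h]
  have h3 : w ((2 : ℕ) : K) ≤ 1 := le_nat 2
  rw [← rd_nat 2 h3, res_zero] at h1
  rw [Nat.cast_ofNat, h2] at h1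
  exact lt_irrefl _ h1

theorem mul_sq {k : Type} [Field k] [Finite k] (hk : ringChar k ≠ 2) {a b : k}
    (ha : ¬ IsSquare a) (hb : ¬ IsSquare b) : IsSquare (a * b) := by
  have : Fintype k := Fintype.ofFinite k
  have ha0 : a ≠ 0 := fun h => ha (by rw [h]; exact IsSquare.zero)
  have hb0 : b ≠ 0 := fun h => hb (by rw [h]; exact IsSquare.zero)
  have h1 : a ^ (Fintype.card k / 2) = -1 :=
    (FiniteField.pow_dichotomy hk ha0).resolve_left fun h => ha ((FiniteField.isSquare_iff hk ha0).2 h)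
  have h2 : b ^ (Fintype.card k / 2) = -1 :=
    (FiniteField.pow_dichotomy hk hb0).resolve_left fun h => hb ((FiniteField.isSquare_iff hk hb0).2 h)
  rw [FiniteField.isSquare_iff hk (mul_ne_zero ha0 hb0), mul_pow, h1, h2]
  ring

theorem exists_norm {k : Type} [Field k] [Finite k] (hk : ringChar k ≠ 2) (d n : k) (hd : d ≠ 0) :
    ∃ x y : k, x ^ 2 - d * y ^ 2 = n := by
  have : Fintype k := Fintype.ofFinite k
  have hodd : Fintype.card k % 2 = 1 := FiniteField.odd_card_of_char_ne_two hk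
  have hf : degree ((X : k[X]) ^ 2 - C n) = 2 := degree_X_pow_sub_C (by norm_num) n
  have hg : degree (C (-d) * (X : k[X]) ^ 2) = 2 := by
    rw [degree_C_mul_X_pow 2 (neg_ne_zero.2 hd)]
    rfl
  obtain ⟨x, y, hxy⟩ := FiniteField.exists_root_sum_quadratic hf hg hodd
  refine ⟨x, y, ?_⟩
  simp only [eval_sub, eval_pow, eval_X, eval_C, eval_mul] at hxy
  linear_combination hxy

end RESM

open RESM in
/-- **RES** -/
theorem specRES (hSTF : SpecSTF) : SpecRES where
  ns := by
    intro K _ w hw h2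
    have := hw.fin
    obtain ⟨c, hc⟩ := FiniteField.exists_nonsquare (char_ne h2)
    obtain ⟨n, hn, rfl⟩ := lift c
    refine ⟨n, ?_, (ns_iff hn).2 hc⟩
    refine le_antisymm hn (not_lt.1 fun h1 => hc ?_)
    rw [← res_zero n hn] at h1
    rw [h1]
    exact IsSquare.zero
  mul := by
    intro K _ w u v hw h2 hu hv hNu hNv
    have := hw.fin
    have h1 := mul_sq (char_ne h2) ((ns_iff hu.le).1 hNu) ((ns_iff hv.le).1 hNv)
    rw [← rd_mul] at h1
    rw [ns_iff (le_mul hu.le hv.le)]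
    exact fun h => h h1
  nrm := by
    intro K _ w d n hw h2 hd hNd hn
    have := hw.fin
    have hd0 : rd w d hd ≠ 0 := fun h => (ns_iff hd).1 hNd (by rw [h]; exact IsSquare.zero)
    obtain ⟨x', y', hxy⟩ := exists_norm (char_ne h2) (rd w d hd) (rd w n hn) hd0
    obtain ⟨x, hx, rfl⟩ := lift x'
    obtain ⟨y, hy, rfl⟩ := lift y'
    refine ⟨x, y, hx, hy, ?_⟩
    rw [sub_lt_iff (le_sub (le_pow hx 2) (le_mul hd (le_pow hy 2))) hn,
      rd_sub (le_pow hx 2) (le_mul hd (le_pow hy 2)), rd_mul hd (le_pow hy 2), rd_pow hx, rd_pow hy]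
    exact hxy
  cub := by
    intro K _ w a b hw ha hb hT
    have := hw.fin
    have h4 : w ((4 : ℕ) : K) ≤ 1 := le_nat 4
    have h27 : w ((27 : ℕ) : K) ≤ 1 := le_nat 27
    have hD1 : w (((4 : ℕ) : K) * a ^ 3) ≤ 1 := le_mul h4 (le_pow ha 3)
    have hD2 : w (((27 : ℕ) : K) * b ^ 2) ≤ 1 := le_mul h27 (le_pow hb 2)
    have hns : NS w (-(((4 : ℕ) : K) * a ^ 3 + ((27 : ℕ) : K) * b ^ 2)) := by
      intro x hx
      have h1 := hT x hx
      rw [dsc] at h1
      rw [sub_neg_eq_add]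
      push_cast
      exact h1
    rw [ns_iff (le_neg (le_add hD1 hD2)), rd_neg (le_add hD1 hD2), rd_add hD1 hD2,
      rd_mul h4 (le_pow ha 3), rd_mul h27 (le_pow hb 2), rd_pow ha, rd_pow hb,
      rd_nat 4 h4, rd_nat 27 h27] at hns
    push_cast at hns
    obtain ⟨x', hx'⟩ := hSTF _ _ _ hns
    obtain ⟨x, hx, rfl⟩ := lift x'
    refine ⟨x, hx, ?_⟩
    rw [← res_zero _ (le_add (le_add (le_pow hx 3) (le_mul ha hx)) hb),
      rd_add (le_add (le_pow hx 3) (le_mul ha hx)) hb, rd_add (le_pow hx 3) (le_mul ha hx),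
      rd_mul ha hx, rd_pow hx]
    exact hx'

end Pool.Agent.Lib.MP_8cb858_nt.PF
end

section
/-!
# SQS: squares in `K[√d]` (helper73)
-/
set_option autoImplicit false

namespace Pool.Agent.Lib.MP_8cb858_nt.PF

open Polynomial NumberField IsDedekindDomain Pool.Agent.Lib.MP_8cb858_nt.SEL
open scoped Classical WithZero

namespace SQSM

variable {K : Type} [Field K] {w : Valuation K ℤᵐ⁰}

theorem ne_of {x : K} (h : w x = 1) : x ≠ 0 := by
  intro h0
  rw [h0, map_zero] at h
  exact zero_ne_one h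

theorem add_lt {x y : K} (hx : w x < 1) (hy : w y < 1) : w (x + y) < 1 :=
  lt_of_le_of_lt (w.map_add x y) (max_lt hx hy)

theorem sub_lt {x y : K} (hx : w x < 1) (hy : w y < 1) : w (x - y) < 1 :=
  lt_of_le_of_lt (w.map_sub x y) (max_lt hx hy)

theorem add_le {x y : K} (hx : w x ≤ 1) (hy : w y ≤ 1) : w (x + y) ≤ 1 :=
  (w.map_add x y).trans (max_le hx hy)

theorem sub_le {x y : K} (hx : w x ≤ 1) (hy : w y ≤ 1) : w (x - y) ≤ 1 :=
  (w.map_sub x y).trans (max_le hx hy)

theorem mul_le {x y : K} (hx : w x ≤ 1) (hy : w y ≤ 1) : w (x * y) ≤ 1 := by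
  rw [map_mul]
  exact mul_le_one' hx hy

theorem pow_le {x : K} (hx : w x ≤ 1) (n : ℕ) : w (x ^ n) ≤ 1 := by
  rw [map_pow]
  exact pow_le_one₀ zero_le hx

theorem mul_lt {x y : K} (hx : w x ≤ 1) (hy : w y < 1) : w (x * y) < 1 := by
  rw [map_mul]
  exact mul_lt_one_of_nonneg_of_lt_one_right hx zero_le hy

theorem mul_lt' {x y : K} (hx : w x < 1) (hy : w y ≤ 1) : w (x * y) < 1 := by
  rw [mul_comm]
  exact mul_lt hy hx

/-- a congruent element of a unit is a unit -/
theorem unit_of {x y : K} (hx : w x = 1) (h : w (y - x) < 1) : w y = 1 := by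
  have h1 : w (y - x) < w x := by rw [hx]; exact h
  have h2 := w.map_add_eq_of_lt_left h1
  rw [add_sub_cancel, hx] at h2
  exact h2

/-- the explicit square root -/
theorem mk {d z s σ ρ x : K} (h2 : (2 : K) ≠ 0) (hx : x ≠ 0) (hρ : ρ = (z + σ) / 2)
    (hxρ : x ^ 2 = ρ) (hσ : σ ^ 2 = z ^ 2 - d * s ^ 2) :
    ∃ x y : K, z = x ^ 2 + d * y ^ 2 ∧ s = 2 * x * y := by
  have h2x : 2 * x ≠ 0 := mul_ne_zero h2 hx
  refine ⟨x, s / (2 * x), ?_, ?_⟩
  · have h4 : 4 * x ^ 2 ≠ 0 := by
      have : (4 : K) * x ^ 2 = (2 * x) ^ 2 := by ring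
      rw [this]
      exact pow_ne_zero 2 h2x
    have h5 : 2 * x ^ 2 = z + σ := by
      rw [hxρ, hρ]
      field_simp
    have h6 : d * s ^ 2 = (z - x ^ 2) * (4 * x ^ 2) := by
      have h7 : σ = 2 * x ^ 2 - z := by linear_combination -h5
      rw [h7] at hσ
      linear_combination hσ
    rw [div_pow, mul_pow, ← mul_div_assoc, h6]
    field_simp
    ring
  · field_simp

/-- the other explicit square root -/
theorem mk' {d z s σ ρ y : K} (h2 : (2 : K) ≠ 0) (hy : y ≠ 0) (hd : d ≠ 0) (hρ : ρ = (z + σ) / 2)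
    (hyρ : d * y ^ 2 = ρ) (hσ : σ ^ 2 = z ^ 2 - d * s ^ 2) :
    ∃ x y : K, z = x ^ 2 + d * y ^ 2 ∧ s = 2 * x * y := by
  have h2y : 2 * y ≠ 0 := mul_ne_zero h2 hy
  refine ⟨s / (2 * y), y, ?_, ?_⟩
  · have h5 : 2 * (d * y ^ 2) = z + σ := by
      rw [hyρ, hρ]
      field_simp
    have h6 : s ^ 2 = (z - d * y ^ 2) * (4 * y ^ 2) := by
      have h7 : σ = 2 * (d * y ^ 2) - z := by linear_combination -h5
      rw [h7] at hσ
      apply mul_left_cancel₀ hd
      linear_combination hσ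
    rw [div_pow, mul_pow, h6]
    field_simp
    ring
  · field_simp

end SQSM

open SQSM in
/-- **SQS** -/
theorem specSQS (hHNS : SpecHNS) (hRES : SpecRES) : SpecSQS where
  one := by
    intro K _ w d z s hw h2 hd hz hs
    have h20 : (2 : K) ≠ 0 := ne_of h2
    have hz1 : w z = 1 := unit_of (map_one w) hz
    have h3 : w (z ^ 2 - d * s ^ 2 - 1) < 1 := by
      have e : z ^ 2 - d * s ^ 2 - 1 = (z + 1) * (z - 1) - (d * s) * s := by ring
      rw [e]
      exact sub_lt (mul_lt (add_le hz1.le (map_one w).le) hz) (mul_lt (mul_le hd hs.le) hs)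
    have h4 : w (z ^ 2 - d * s ^ 2) = 1 := unit_of (map_one w) h3
    obtain ⟨σ, hσ1, hσ2, hσ3⟩ := hHNS.sqr (z ^ 2 - d * s ^ 2) 1 hw h2 h4 (map_one w).le (by
      rw [Valuation.map_sub_swap, one_pow]
      exact h3)
    have h5 : w ((z + σ) / 2 - 1) < 1 := by
      have e : (z + σ) / 2 - 1 = ((z - 1) + (σ - 1)) / 2 := by
        field_simp
        ring
      rw [e, map_div₀, h2, div_one]
      exact add_lt hz hσ3
    have h6 : w ((z + σ) / 2) = 1 := unit_of (map_one w) h5
    obtain ⟨x, hx1, hx2, -⟩ := hHNS.sqr ((z + σ) / 2) 1 hw h2 h6 (map_one w).le (by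
      rw [Valuation.map_sub_swap, one_pow]
      exact h5)
    exact mk h20 (ne_of hx1) rfl hx2 hσ2
  ram := by
    intro K _ w d z s hw h2 hd hz hs
    have h20 : (2 : K) ≠ 0 := ne_of h2
    have hd1 : w d < 1 := by
      rw [hd, ← WithZero.exp_zero, WithZero.exp_lt_exp]
      norm_num
    have hd0 : d ≠ 0 := by
      intro h0
      rw [h0, map_zero] at hd
      exact WithZero.exp_ne_zero hd.symm
    constructor
    · rintro ⟨x, y, hz', -⟩ hN
      -- the valuations of `x^2` and `d y^2` are different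
      have hne : w (x ^ 2) ≠ w (d * y ^ 2) ∨ (x = 0 ∧ y = 0) := by
        by_cases hx : x = 0
        · by_cases hy : y = 0
          · exact Or.inr ⟨hx, hy⟩
          · left
            intro h
            rw [hx, zero_pow (by norm_num), map_zero] at h
            exact (mul_ne_zero hd0 (pow_ne_zero 2 hy)) ((Valuation.zero_iff w).1 h.symm)
        · left
          intro h
          have hwx : w x ≠ 0 := (Valuation.ne_zero_iff w).2 hx
          by_cases hy : y = 0
          · rw [hy, zero_pow (by norm_num), mul_zero, map_zero, map_pow] at h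
            exact pow_ne_zero 2 hwx h
          · have hwy : w y ≠ 0 := (Valuation.ne_zero_iff w).2 hy
            rw [map_mul, map_pow, map_pow, hd, ← WithZero.exp_log hwx, ← WithZero.exp_log hwy,
              pow_two, pow_two, ← WithZero.exp_add, ← WithZero.exp_add, ← WithZero.exp_add,
              WithZero.exp_inj] at h
            omega
      rcases hne with hne | ⟨hx, hy⟩
      · have hmax : w z = max (w (x ^ 2)) (w (d * y ^ 2)) := by
          rw [hz', Valuation.map_add_of_distinct_val w hne]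
        rw [hz] at hmax
        have hx1 : w (x ^ 2) ≤ 1 := by rw [hmax]; exact le_max_left _ _
        have hy1 : w (d * y ^ 2) ≤ 1 := by rw [hmax]; exact le_max_right _ _
        have hx2 : w x ≤ 1 := by
          rw [map_pow] at hx1
          exact (pow_le_one_iff (by norm_num)).1 hx1
        have hy2 : w (d * y ^ 2) < 1 := by
          refine lt_of_le_of_ne hy1 fun h => ?_
          by_cases hy : y = 0
          · rw [hy, zero_pow (by norm_num), mul_zero, map_zero] at h
            exact zero_ne_one h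
          · have hwy : w y ≠ 0 := (Valuation.ne_zero_iff w).2 hy
            rw [map_mul, map_pow, hd, ← WithZero.exp_log hwy, pow_two, ← WithZero.exp_add,
              ← WithZero.exp_add, ← WithZero.exp_zero, WithZero.exp_inj] at h
            omega
        have h3 := hN x hx2
        have e : x ^ 2 - z = -(d * y ^ 2) := by rw [hz']; ring
        rw [e, Valuation.map_neg] at h3
        exact absurd h3 (ne_of_lt hy2)
      · rw [hz', hx, hy] at hz
        simp at hz
    · intro hN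
      have hN' : ∃ x, w x ≤ 1 ∧ w (x ^ 2 - z) < 1 := by
        by_contra hcon
        apply hN
        intro x hx
        refine le_antisymm (sub_le (pow_le hx 2) hz.le) (not_lt.1 fun h => hcon ⟨x, hx, h⟩)
      obtain ⟨x₀, hx₀, hx₀z⟩ := hN'
      have h3 : w (z ^ 2 - (z ^ 2 - d * s ^ 2)) < 1 := by
        have e : z ^ 2 - (z ^ 2 - d * s ^ 2) = d * s ^ 2 := by ring
        rw [e]
        exact mul_lt' hd1 (pow_le hs 2)
      have h4 : w (z ^ 2 - d * s ^ 2) = 1 := by
        refine unit_of (x := z ^ 2) (by rw [map_pow, hz, one_pow]) ?_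
        rw [Valuation.map_sub_swap]
        exact h3
      obtain ⟨σ, hσ1, hσ2, hσ3⟩ := hHNS.sqr (z ^ 2 - d * s ^ 2) z hw h2 h4 hz.le h3
      have h5 : w ((z + σ) / 2 - z) < 1 := by
        have e : (z + σ) / 2 - z = (σ - z) / 2 := by
          field_simp
          ring
        rw [e, map_div₀, h2, div_one]
        exact hσ3
      have h6 : w ((z + σ) / 2) = 1 := unit_of hz h5
      obtain ⟨x, hx1, hx2, -⟩ := hHNS.sqr ((z + σ) / 2) x₀ hw h2 h6 hx₀ (by
        have e : x₀ ^ 2 - (z + σ) / 2 = (x₀ ^ 2 - z) - ((z + σ) / 2 - z) := by ring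
        rw [e]
        exact sub_lt hx₀z h5)
      exact mk h20 (ne_of hx1) rfl hx2 hσ2
  unr := by
    intro K _ w d z s hw h2 hd hN hz hs hn hsq
    have h20 : (2 : K) ≠ 0 := ne_of h2
    have hwd : w d = 1 := by
      have h3 := hN 0 (by rw [map_zero]; exact zero_le)
      rwa [zero_pow (by norm_num), zero_sub, Valuation.map_neg] at h3
    have hd0 : d ≠ 0 := ne_of hwd
    -- the statement for `σ` with `(z + σ)/2` a unit
    have key : ∀ σ : K, σ ^ 2 = z ^ 2 - d * s ^ 2 → w ((z + σ) / 2) = 1 →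
        ∃ x y : K, z = x ^ 2 + d * y ^ 2 ∧ s = 2 * x * y := by
      intro σ hσ hρ
      by_cases hsq' : IsSquare ((z + σ) / 2)
      · obtain ⟨x, hx⟩ := hsq'
        have hx0 : x ≠ 0 := by
          intro h0
          rw [h0, mul_zero] at hx
          exact ne_of hρ hx
        exact mk h20 hx0 rfl (by rw [hx, pow_two]) hσ
      · have hNρ : NS w ((z + σ) / 2) := by
          by_contra h
          exact hsq' ((hHNS.iff _ hw h2 hρ).2 h)
        have h3 : ¬ NS w ((z + σ) / 2 * d) := hRES.mul _ _ hw h2 hρ hwd hNρ hN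
        have h4 : w ((z + σ) / 2 * d) = 1 := by rw [map_mul, hρ, hwd, one_mul]
        obtain ⟨y, hy⟩ := (hHNS.iff _ hw h2 h4).2 h3
        have hy0 : y ≠ 0 := by
          intro h0
          rw [h0, mul_zero] at hy
          exact ne_of h4 hy
        refine mk' h20 (y := y / d) (div_ne_zero hy0 hd0) hd0 rfl ?_ hσ
        have h5 : d * (y / d) ^ 2 = (y * y) / d := by
          field_simp
        rw [h5, ← hy]
        field_simp
    obtain ⟨σ, hσ⟩ := hsq
    have hσ2 : σ ^ 2 = z ^ 2 - d * s ^ 2 := by rw [hσ, pow_two]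
    have hσ1 : w σ = 1 := by
      have h3 : w σ ^ 2 = 1 := by rw [← map_pow, hσ2, hn]
      exact (pow_eq_one_iff_of_nonneg zero_le (by norm_num)).1 h3
    have hle1 : w ((z + σ) / 2) ≤ 1 := by
      rw [map_div₀, h2, div_one]
      exact add_le hz hσ1.le
    have hle2 : w ((z + -σ) / 2) ≤ 1 := by
      rw [map_div₀, h2, div_one]
      exact add_le hz (by rw [Valuation.map_neg]; exact hσ1.le)
    by_cases hu : w ((z + σ) / 2) = 1
    · exact key σ hσ2 hu
    · refine key (-σ) (by rw [neg_sq]; exact hσ2) ?_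
      refine le_antisymm hle2 (not_lt.1 fun h => ?_)
      have h3 : w σ < 1 := by
        have e : σ = (z + σ) / 2 - (z + -σ) / 2 := by
          field_simp
          ring
        rw [e]
        exact sub_lt (lt_of_le_of_ne hle1 hu) h
      exact absurd hσ1 (ne_of_lt h3)

end Pool.Agent.Lib.MP_8cb858_nt.PF
end

section
/-!
# TOC: the coordinates `(r, z + s √d)`
-/
set_option autoImplicit false

namespace Pool.Agent.Lib.MP_8cb858_nt.PF

namespace TOCM

variable {R : Type} [CommRing R] {a b : R}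

theorem co_iff (hCOO : SpecCOO) (t x y v r z s : R) : Co t (el a b x y v) r z s ↔
    x + y * t + v * t ^ 2 = r ∧ 2 * x - y * t - v * (t ^ 2 + 2 * a) = 2 * z ∧
      y - v * t = 2 * s := by
  obtain ⟨h0, h1, h2⟩ := hCOO.co (a := a) (b := b) x y v
  unfold Co
  rw [h0, h1, h2]

end TOCM

open TOCM in
/-- **TOC.** -/
theorem specTOC (hCOO : SpecCOO) (hNRM : SpecNRM) : SpecTOC := by
  have nrm : ∀ {K : Type} [Field K] {a b t : K} {α : Lk a b} {r z s : K}, (2 : K) ≠ 0 →
      t ^ 3 + a * t + b = 0 → Co t α r z s →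
      Algebra.norm K α = r * (z ^ 2 - dq a t * s ^ 2) := by
    intro K _ a b t α r z s h2 ht h1
    rw [hCOO.ext α, co_iff hCOO] at h1
    rw [hCOO.ext α, hNRM.frm]
    set x := cf 0 α
    set y := cf 1 α
    set v := cf 2 α
    obtain ⟨e1, e2, e3⟩ := h1
    have hB : b = -t ^ 3 - a * t := by linear_combination ht
    have h4 : (4 : K) ≠ 0 := by
      have : (4 : K) = 2 * 2 := by norm_num
      rw [this]
      exact mul_ne_zero h2 h2
    apply mul_left_cancel₀ h4
    have h5 : 4 * (r * (z ^ 2 - dq a t * s ^ 2)) =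
        r * ((2 * z) ^ 2 - dq a t * (2 * s) ^ 2) := by ring
    rw [h5, ← e1, ← e2, ← e3, hB]
    unfold dq
    ring
  refine ⟨?_, ?_, nrm, ?_, ?_, ?_, ?_, ?_, ?_, ?_, ?_⟩
  · intro K _ a b t
    rw [hCOO.one, co_iff hCOO]
    refine ⟨?_, ?_, ?_⟩ <;> ring
  · intro K _ a b t α β r z s r' z' s' h2 ht h1 h1'
    rw [hCOO.ext α, co_iff hCOO] at h1
    rw [hCOO.ext β, co_iff hCOO] at h1'
    rw [hCOO.ext α, hCOO.ext β, hCOO.mul, co_iff hCOO]
    set x := cf 0 α
    set y := cf 1 α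
    set v := cf 2 α
    set x' := cf 0 β
    set y' := cf 1 β
    set v' := cf 2 β
    obtain ⟨e1, e2, e3⟩ := h1
    obtain ⟨f1, f2, f3⟩ := h1'
    have hB : b = -t ^ 3 - a * t := by linear_combination ht
    rw [hB]
    refine ⟨?_, ?_, ?_⟩
    · rw [← e1, ← f1]
      ring
    · apply mul_left_cancel₀ h2
      unfold dq
      linear_combination (2 * z') * e2 + (2 * x - y * t - v * (t ^ 2 + 2 * a)) * f2 +
        (-3 * t ^ 2 - 4 * a) * (2 * s') * e3 + (-3 * t ^ 2 - 4 * a) * (y - v * t) * f3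
    · apply mul_left_cancel₀ h2
      linear_combination (2 * s') * e2 + (2 * x - y * t - v * (t ^ 2 + 2 * a)) * f3 +
        (2 * z') * e3 + (y - v * t) * f2
  · intro K _ a b t α r z s h2 ht h1
    rw [hNRM.unt, nrm h2 ht h1, isUnit_iff_ne_zero, mul_ne_zero_iff]
  · intro K _ a b t r z s hu
    obtain ⟨g, hg⟩ := isUnit_iff_exists_inv.1 (isUnit_iff_ne_zero.2 hu)
    refine ⟨el a b (z + t * s + (r - (z + t * s) - 2 * s * t) * g * (t ^ 2 + a))
      (2 * s + (r - (z + t * s) - 2 * s * t) * g * t) ((r - (z + t * s) - 2 * s * t) * g), ?_⟩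
    rw [co_iff hCOO]
    refine ⟨?_, ?_, ?_⟩
    · linear_combination (r - (z + t * s) - 2 * s * t) * hg
    · ring
    · ring
  · intro K _ a b t α hu
    obtain ⟨g, hg⟩ := isUnit_iff_exists_inv.1 (isUnit_iff_ne_zero.2 hu)
    refine ⟨_, g * (2 * cf 0 α - cf 1 α * t - cf 2 α * (t ^ 2 + 2 * a)),
      g * (cf 1 α - cf 2 α * t), rfl, ?_, ?_⟩
    · rw [← mul_assoc, hg, one_mul]
    · rw [← mul_assoc, hg, one_mul]
  · intro K _ a b t α r z s r' z' s' h2 h h'
    obtain ⟨e1, e2, e3⟩ := h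
    obtain ⟨f1, f2, f3⟩ := h'
    exact ⟨e1.symm.trans f1, mul_left_cancel₀ h2 (e2.symm.trans f2),
      mul_left_cancel₀ h2 (e3.symm.trans f3)⟩
  · intro K _ a b t α β r z s h2 hf h h'
    obtain ⟨e1, e2, e3⟩ := h
    obtain ⟨f1, f2, f3⟩ := h'
    have h3 : cf 2 α = cf 2 β := by
      apply mul_left_cancel₀ hf
      apply mul_left_cancel₀ h2
      linear_combination 2 * e1 - e2 - 3 * t * e3 - (2 * f1 - f2 - 3 * t * f3)
    have h4 : cf 1 α = cf 1 β := by linear_combination e3 - f3 + t * h3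
    have h5 : cf 0 α = cf 0 β := by
      linear_combination e1 - f1 - t * h4 - t ^ 2 * h3
    rw [hCOO.ext α, hCOO.ext β, h3, h4, h5]
  · intro K _ a b t D x h2
    have h : AdjoinRoot.of (fpol a b) D * (AdjoinRoot.of _ x - th a b) =
        el a b (D * x) (-D) 0 := by
      have h : AdjoinRoot.of (fpol a b) x - th a b = el a b x (-1) 0 := by
        rw [sub_eq_iff_eq_add, hCOO.thv, hCOO.add, hCOO.ofv]
        congr 1 <;> ring
      rw [h, hCOO.ofv, hCOO.mul]
      congr 1 <;> ring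
    rw [h, co_iff hCOO]
    refine ⟨?_, ?_, ?_⟩
    · ring
    · field_simp
      ring
    · field_simp
      ring
  · intro K _ a b t α r z s h2 h
    obtain ⟨e1, e2, e3⟩ := h
    apply mul_left_cancel₀ h2
    linear_combination 2 * e1 - e2 - 3 * t * e3
  · intro K _ a b t α r z s h
    obtain ⟨e1, e2, e3⟩ := h
    exact e1

end Pool.Agent.Lib.MP_8cb858_nt.PF
end
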