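import Pool.Agent.Lib.MP_8cb858_nt.PF.SpecB
import Pool.Agent.Lib.MP_8cb858_nt.PF.SpecDN
import Pool.Agent.Lib.MP_8cb858_nt.PR.SpecF

/-!
# Specs, block F over a number field: the first moment with patterns (`SpecFM`)

Every Spec is a closed proposition with a complete proof in its doc string. Module XXX = file
`PF/XXX.lean`, `theorem specXXX (hYYY : SpecYYY) .. : SpecXXX`, own lemmas in the namespace
`Pool.Agent.Lib.MP_8cb858_nt.PF.XXXM`. Many are adaptations of the (finished) modules `PR/XXX.lean` of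
the same name; the matrix identities are `PR.SpecFID` (`PR.specFID`, for all commutative rings).
Notation: `A, B` symmetric matrices, `w ⬝ᵥ A.mulVec w = A(w,w)`, `det(xA-B) = det A (x^3+ax+b)`,
`n = [F:ℚ]`, `q = Nat.card k` for a finite field `k`.
At a place `v`: `κ = 𝓞 F ⧸ v.asIdeal` is a finite field with `nv v` elements; use
`have := v.isMaximal; let _ := Ideal.Quotient.field v.asIdeal` (its ring structure is the usual one
definitionally, see `fcb_at` below).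
-/

namespace Pool.Agent.Lib.MP_8cb858_nt.PF

open Polynomial NumberField IsDedekindDomain Pool.Agent.Lib.MP_8cb858_nt.SEL Matrix
open scoped Classical WithZero

section ring

variable {R : Type} [CommRing R]

/-- `B` is symmetric and `A⁻¹B` has the characteristic polynomial `x^3 + a x + b`. -/
def Gc (a b : R) (A B : Matrix (Fin 3) (Fin 3) R) : Prop :=
  B.IsSymm ∧ (A.adjugate * B).trace = 0 ∧ (A * B.adjugate).trace = a * A.det ∧ -B.det = b * A.det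

/-- The same, and the discriminant is not a square. -/
def Gd (a b : R) (A B : Matrix (Fin 3) (Fin 3) R) : Prop :=
  Gc a b A B ∧ ¬ IsSquare (-(4 * a ^ 3 + 27 * b ^ 2))

/-- `(3 t^2 + a) A(w,w)` is a square for an eigenvector `w`, `B w = t A w`. -/
def Sm (a : R) (A B : Matrix (Fin 3) (Fin 3) R) : Prop :=
  ∃ (t : R) (w : Fin 3 → R), w ≠ 0 ∧ B.mulVec w = t • A.mulVec w ∧
    IsSquare ((3 * t ^ 2 + a) * (w ⬝ᵥ A.mulVec w))

/-- The matrices `B` with trivial symbol. -/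
def BT (A : Matrix (Fin 3) (Fin 3) R) : Set (Matrix (Fin 3) (Fin 3) R) :=
  {B | ∃ a b, Gd a b A B ∧ Sm a A B}

/-- The matrices `B` with nontrivial symbol. -/
def BN (A : Matrix (Fin 3) (Fin 3) R) : Set (Matrix (Fin 3) (Fin 3) R) :=
  {B | ∃ a b, Gd a b A B ∧ ¬ Sm a A B}

/-- The matrices `B` such that the characteristic polynomial has no root. -/
def B3 (A : Matrix (Fin 3) (Fin 3) R) : Set (Matrix (Fin 3) (Fin 3) R) :=
  {B | ∃ a b, Gc a b A B ∧ ∀ x : R, x ^ 3 + a * x + b ≠ 0}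

/-- The reduction modulo an ideal. -/
def md (I : Ideal R) (A : Matrix (Fin 3) (Fin 3) R) : Matrix (Fin 3) (Fin 3) (R ⧸ I) :=
  A.map (Ideal.Quotient.mk I)

end ring

/-! ## F1. Counting over a finite field `k`, places of `Q` -/

/-- **FRT.** Cubics with nonsquare discriminant (adapt PR/FRT).
Proof. Existence of a root: `SpecSTF`. If `t` is a root, `b = -t^3-at` and
`4a^3+27b^2 = (3t^2+a)^2 (3t^2+4a)` (ring). So `3t^2+a ≠ 0` and `-(3t^2+4a)` is not a square. Another root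
`s ≠ t` satisfies `s^2+st+t^2+a = 0`, so `(2s+t)^2 = -(3t^2+4a)`: impossible. -/
def SpecFRT : Prop :=
  ∀ (k : Type) [Field k] [Finite k] (a b : k), ¬ IsSquare (-(4 * a ^ 3 + 27 * b ^ 2)) →
    (∃ t : k, t ^ 3 + a * t + b = 0) ∧
    (∀ t s : k, t ^ 3 + a * t + b = 0 → s ^ 3 + a * s + b = 0 → t = s) ∧
    ∀ t : k, t ^ 3 + a * t + b = 0 → 3 * t ^ 2 + a ≠ 0

/-- **FCON.** Points of a conic (adapt PR/FCON).
Proof. If there is no point: trivial. Let `(x0,y0)` be a point; for a point `(x,y)` put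
`u = (x x0 + κ y y0)/δ`, `v = (x y0 - y x0)/δ`. Then `u^2 + κ v^2 = 1` and `x = u x0 + κ v y0`,
`y = u y0 - v x0`, so `(x,y) ↦ (u,v)` is injective. `(u,v) ↦ none` if `u = -1`, `some (v/(1+u))`
otherwise, is an injection of `{u^2+κv^2=1}` into `Option k`: if `u = -1` then `v = 0`; otherwise
`s = v/(1+u)` satisfies `κ s^2 (1+u) = 1-u`, so `u (1+κs^2) = 1-κs^2`, `1+κs^2 ≠ 0` (else `2 = 0`), `u` and
`v = s(1+u)` are determined. -/
def SpecFCON : Prop :=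
  ∀ (k : Type) [Field k] [Finite k] (κ δ : k), (2 : k) ≠ 0 → κ ≠ 0 → δ ≠ 0 →
    {z : k × k | z.1 ^ 2 + κ * z.2 ^ 2 = δ}.ncard ≤ Nat.card k + 1

/-- **FTRI.** Counting triples (adapt PR/FTRI).
Proof. Fix a nonsquare `δ` (there are `(q-1)/2`). By FCON at most `q+1` pairs `(x,y)` have
`x^2+κy^2 = δ`. The number `m` of `c` with `IsSquare ((c^2-δ) n) ↔ e` satisfies `2m ≤ q+1`: let `ν = 1`
if `e` holds and `ν` a fixed nonsquare otherwise; `(c^2-δ)n ≠ 0` (as `δ` is not a square), so for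
such `c` `(c^2-δ) n = ν z^2` with `z ≠ 0` (the quotient of two nonsquares is a square), two values `±z` of
`z` for each `c`; and the pairs `(c,z)` lie on `c^2 + (-ν/n) z^2 = δ`: at most `q+1` by FCON. Total: `4 #
≤ (4 (q-1)/2)(q+1)(q+1)/2 = (q-1)(q+1)^2`. -/
def SpecFTRI : Prop :=
  ∀ (k : Type) [Field k] [Finite k] (κ n : k) (e : Prop), (2 : k) ≠ 0 → κ ≠ 0 → n ≠ 0 →
    4 * {z : k × k × k | ¬ IsSquare (z.1 ^ 2 + κ * z.2.1 ^ 2) ∧
      (IsSquare ((z.2.2 ^ 2 - (z.1 ^ 2 + κ * z.2.1 ^ 2)) * n) ↔ e)}.ncard ≤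
      (Nat.card k - 1) * (Nat.card k + 1) ^ 2

/-- **FDIA.** Counting `B` with eigenvector `e_3`, `A` diagonal (adapt PR/FDIA).
Proof. Let `B` be in the set, `e = e_3 = ![0,0,1]`. `B e = t A e` gives `B02 = B12 = 0`, `B22 = t n`. Put
`s = (B00/l+B11/m)/2`, `x = (B00/l-B11/m)/2`, `y = B01`, `κ = 1/(lm)`, `N = x^2+κy^2`. The trace
condition `mn B00 + ln B11 + lm B22 = 0` divided by `lmn` gives `t = -2s`; the next one gives
`a = (B11/m) t + (B00/l) t + (B00 B11 - y^2)/(lm) = -4s^2 + s^2 - x^2 - κ y^2 = -3s^2 - N`; the third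
`b = -(s^2-N) t = 2s(s^2-N)`. Then `-(4a^3+27b^2) = 4N(9s^2-N)^2` (ring), so `N` is not a square.
`3t^2+a = 9s^2-N`. So `B ↦ (x, y, 3s)` is an injective map (`B00 = l(s+x)`, `B11 = m(s-x)`, `6 ≠ 0`) to
the set of FTRI. -/
def SpecFDIA : Prop :=
  ∀ (k : Type) [Field k] [Finite k] (l m n : k) (e : Prop), (2 : k) ≠ 0 → (3 : k) ≠ 0 →
    l ≠ 0 → m ≠ 0 → n ≠ 0 →
    4 * {B : Matrix (Fin 3) (Fin 3) k | ∃ a b t : k, Gd a b (Matrix.diagonal ![l, m, n]) B ∧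
      B.mulVec ![0, 0, 1] = t • (Matrix.diagonal ![l, m, n]).mulVec ![0, 0, 1] ∧
      (IsSquare ((3 * t ^ 2 + a) * n) ↔ e)}.ncard ≤ (Nat.card k - 1) * (Nat.card k + 1) ^ 2

/-- **FORB.** Orthogonal basis containing `w` (adapt PR/FORB; `k` any field with `2 ≠ 0`).
Proof. `v = A w`, `v ⬝ w = μ ≠ 0`. There is `u1` with `v ⬝ u1 = 0` and `A(u1,u1) ≠ 0`: otherwise `A`
vanishes on the plane `v^⊥` (`2 ≠ 0`), and with two independent vectors `r, r'` of the plane `A r` and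
`A r'` are both orthogonal to `r, r'` (and to `w`, because `w ⬝ A r = v ⬝ r = 0`), so `A r = 0`,
contradiction. Let `u2 = v × (A u1)` (cross product); it is orthogonal (`⬝`) to `v` and `A u1`, and it is
not 0: `A u1 = λ v = λ A w` would give `u1 = λ w`, `0 = v ⬝ u1 = λ μ`, `λ = 0`, `u1 = 0`. Let `g` be the
matrix with columns `u1, u2, w`: `gᵀ A g = diagonal (A(u1,u1), A(u2,u2), μ)`. `det g ≠ 0`: if
`x u1 + y u2 + z w = 0`, apply `v ⬝` : `z = 0`; apply `A u1 ⬝`: `x = 0`; so `y = 0`. Hence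
`det(gᵀAg) ≠ 0` and `A(u2,u2) ≠ 0`. -/
def SpecFORB : Prop :=
  ∀ (k : Type) [Field k] (A : Matrix (Fin 3) (Fin 3) k) (w : Fin 3 → k), (2 : k) ≠ 0 → A.IsSymm →
    A.det ≠ 0 → w ⬝ᵥ A.mulVec w ≠ 0 →
    ∃ (g : Matrix (Fin 3) (Fin 3) k) (l m : k), g.det ≠ 0 ∧ g.mulVec ![0, 0, 1] = w ∧ l ≠ 0 ∧
      m ≠ 0 ∧ gᵀ * A * g = Matrix.diagonal ![l, m, w ⬝ᵥ A.mulVec w]

/-- **FEI.** Eigenvectors (adapt PR/FEI).
Proof. FID `cp` with `Gd`: `det(xA-B) = det A (x^3+ax+b)`; FID `dr`: `tr(adj(tA-B)A) = (3t^2+a) det A =: X`.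
FRT gives a root `t`; `det(tA-B) = 0` gives `w ≠ 0` with `(tA-B) w = 0`
(`Matrix.exists_mulVec_eq_zero_iff`). Conversely an eigenvector gives a root `t`, and `3t^2+a ≠ 0` (FRT).
FID `kr` for `C = tA-B`: `X w_i^2 = adj(C)_ii A(w,w)`, with `w_i ≠ 0` for some `i`: so `A(w,w) ≠ 0`.
`Sm`: `←` clear. `→`: let `(t', w')` be the pair in `Sm`; `t' = t` (FRT). With `i` as above,
`adj(C)_ii ≠ 0`, so `X w'_i^2 = adj(C)_ii A(w',w')` gives `w'_i ≠ 0` and
`A(w',w') = A(w,w) (w'_i/w_i)^2`. -/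
def SpecFEI : Prop :=
  ∀ (k : Type) [Field k] [Finite k] (a b : k) (A B : Matrix (Fin 3) (Fin 3) k), (2 : k) ≠ 0 →
    (3 : k) ≠ 0 → A.IsSymm → A.det ≠ 0 → Gd a b A B →
    (∃ (t : k) (w : Fin 3 → k), w ≠ 0 ∧ B.mulVec w = t • A.mulVec w) ∧
    ∀ (t : k) (w : Fin 3 → k), w ≠ 0 → B.mulVec w = t • A.mulVec w →
      t ^ 3 + a * t + b = 0 ∧ 3 * t ^ 2 + a ≠ 0 ∧ w ⬝ᵥ A.mulVec w ≠ 0 ∧
      (Sm a A B ↔ IsSquare ((3 * t ^ 2 + a) * (w ⬝ᵥ A.mulVec w)))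

/-- **FWW.** Counting `B` with a given eigenvector `w` (adapt PR/FWW).
Proof. If `A(w,w) = 0` the set is empty by FEI. Otherwise let `g, l, m` be as in FORB, `μ = A(w,w)`.
The map `B ↦ gᵀ B g` is injective (`det g ≠ 0`) and maps the set into the set of FDIA for `l, m, μ`:
`gᵀBg` is symmetric; the trace conditions are multiplied by `(det g)^2 ≠ 0` (FID `cg` for `(A,B)`, and for
`(B,A)` together with `trace (X * Y) = trace (Y * X)`), determinants too; `(gᵀBg) e_3 = gᵀ B w =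
t gᵀ A w = t (gᵀAg) e_3`. -/
def SpecFWW : Prop :=
  ∀ (k : Type) [Field k] [Finite k] (A : Matrix (Fin 3) (Fin 3) k) (w : Fin 3 → k) (e : Prop),
    (2 : k) ≠ 0 → (3 : k) ≠ 0 → A.IsSymm → A.det ≠ 0 → w ≠ 0 →
    4 * {B : Matrix (Fin 3) (Fin 3) k | ∃ a b t : k, Gd a b A B ∧ B.mulVec w = t • A.mulVec w ∧
      (IsSquare ((3 * t ^ 2 + a) * (w ⬝ᵥ A.mulVec w)) ↔ e)}.ncard ≤
      (Nat.card k - 1) * (Nat.card k + 1) ^ 2

/-- **FCB.** The local count at the places of `Q` (adapt PR/FCB).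
Proof. Let `T = BT A` (then `e = True`) or `T = BN A` (`e = False`), and for `w ≠ 0` let `T_w` be the
set of FWW. By FEI every `B` in `T` has an eigenvector `w`, `B` is in `T_w`, and then
`B` is in `T_{rw}` for all `r ≠ 0` (the factor `r^2`); the `q-1` vectors `r w` are different. Counting
pairs `(B,w)`: `(q-1) #T ≤ sum over w ≠ 0 of #T_w`, so
`4 (q-1) #T ≤ (q^3-1)(q-1)(q+1)^2` and `4 #T ≤ (q^3-1)(q+1)^2`. -/
def SpecFCB : Prop :=
  ∀ (k : Type) [Field k] [Finite k] (A : Matrix (Fin 3) (Fin 3) k), (2 : k) ≠ 0 → (3 : k) ≠ 0 →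
    A.IsSymm → A.det ≠ 0 →
    4 * (BT A).ncard ≤ Nat.card k ^ 3 * (Nat.card k + 1) ^ 2 ∧
    4 * (BN A).ncard ≤ Nat.card k ^ 3 * (Nat.card k + 1) ^ 2

/-! ## F2. Counting over a finite field, places of `P` -/

/-- **FCZ.** If the characteristic polynomial has no root, `A` and `B` have a common nontrivial zero.
Proof. `f = X^3+aX+b` is monic of degree 3 without root, hence irreducible
(`Polynomial.Monic.irreducible_iff_roots_eq_zero_of_degree_le_three` or similar); `K = AdjoinRoot f` is a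
finite field with basis `1, θ, θ^2` over `k`. `T = A⁻¹ B`; `det(x - T) = x^3+ax+b` (`PR.FID` `cp`), so
`T^3 + aT + b = 0` (`Matrix.aeval_self_charpoly`), and there is the `k`-algebra map `Φ : K → M_3(k)`, `Φ θ = T`
(`AdjoinRoot.liftAlgHom`/`liftHom`). `A Φ(ξ)` is symmetric for all `ξ` (for `1`, `θ`, `θ^2`: `A`, `AT = B`,
`A T^2 = B A⁻¹ B`; linearity; or: the set of `X` with `A X = Xᵀ A` is a subalgebra-like set closed under sums and
products of commuting elements). Let `e = ![1,0,0]`, `φ(ξ) = e ⬝ A Φ(ξ) e`, a `k`-linear map `K → k`. For `ξ` in `K` and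
`w = Φ(ξ) e`: `A(w,w) = e ⬝ Φ(ξ)ᵀ A Φ(ξ) e = e ⬝ A Φ(ξ)^2 e = φ(ξ^2)`, `B(w,w) = e ⬝ Φ(ξ)ᵀ A T Φ(ξ) e = φ(θ ξ^2)`.
The two linear maps `φ(·)`, `φ(θ ·)` on the 3-dimensional space `K` have a common zero `κ ≠ 0`
(`(φ(·), φ(θ·)) : K → k × k` is not injective: `LinearMap.exists_ne_zero_of_finrank_lt` or similar). Let `c` in `k`
be a nonsquare (`FiniteField.exists_nonsquare`, `2 ≠ 0`). `c` is not a square in `K`: `c = η^2` gives
`c^3 = Norm(c) = Norm(η)^2` (`Algebra.norm_algebraMap`), so `c = (Norm(η)/c)^2`. In the finite field `K` of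
odd characteristic one of `κ`, `c κ` is a square (the product of two nonsquares is a square:
`quadraticChar` or `FiniteField.isSquare_iff`), `= ξ^2`, `ξ ≠ 0`; then `φ(ξ^2) = φ(θξ^2) = 0`, and `w = Φ(ξ) e ≠ 0`
since `Φ(ξ⁻¹) w = e`. -/
def SpecFCZ : Prop :=
  ∀ (k : Type) [Field k] [Finite k] (a b : k) (A B : Matrix (Fin 3) (Fin 3) k), (2 : k) ≠ 0 →
    A.IsSymm → A.det ≠ 0 → Gc a b A B → (∀ x : k, x ^ 3 + a * x + b ≠ 0) →
    ∃ w : Fin 3 → k, w ≠ 0 ∧ w ⬝ᵥ A.mulVec w = 0 ∧ w ⬝ᵥ B.mulVec w = 0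

/-- **FHB.** A hyperbolic basis containing the isotropic vector `e`.
Proof. `v = A e ≠ 0` (`det A ≠ 0`); let `v j ≠ 0` and `w0 = (v j)⁻¹ • Pi.single j 1`, so `A(e,w0) = v ⬝ w0 = 1`;
`w = w0 - (A(w0,w0)/2) e` satisfies `A(e,w) = 1`, `A(w,w) = 0`. Let `u = (A e) × (A w)` (cross product): `u` is
orthogonal (`⬝`) to `A e` and to `A w`, that is `A(e,u) = A(w,u) = 0`; `u ≠ 0`: otherwise `A e`, `A w` are linearly
dependent, hence `e`, `w` too, but `w = λ e` gives `A(e,w) = 0` and `e ≠ 0`, `w ≠ 0` (`A(e,w) = 1`). `g` = the matrix with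
columns `e, u, w`; `gᵀAg` has the entries `A(g_i,g_j)`; `det g ≠ 0`: if `x e + y u + z w = 0`, apply `A w ⬝`: `x = 0`;
`A e ⬝`: `z = 0`; so `y = 0`. `δ = A(u,u) ≠ 0` because `-δ = det(gᵀAg) = det(g)^2 det A`. -/
def SpecFHB : Prop :=
  ∀ (k : Type) [Field k] (A : Matrix (Fin 3) (Fin 3) k) (e : Fin 3 → k), (2 : k) ≠ 0 → A.IsSymm →
    A.det ≠ 0 → e ≠ 0 → e ⬝ᵥ A.mulVec e = 0 →
    ∃ (g : Matrix (Fin 3) (Fin 3) k) (δ : k), g.det ≠ 0 ∧ g.mulVec ![1, 0, 0] = e ∧ δ ≠ 0 ∧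
      gᵀ * A * g = !![0, 0, 1; 0, δ, 0; 1, 0, 0]

/-- **FCN.** The count in normal form, for pairs with `B00 = 0`, and the number of isotropic vectors.
Proof. `A = !![0,0,1;0,δ,0;1,0,0]`, `det A = -δ`, `adj A = !![0,0,-δ;0,-1,0;-δ,0,0]`. Let `B` be in the set, `β = B01`,
`γ = B02`, `ε = B12`, `ζ = B22`, `B00 = 0`. The trace condition is `-2δγ - B11 = 0`. The other two:
`tr(A adj B) = a det A`, `-det B = b det A` give `a = -3γ^2 - 2βε/δ`, `b = 2γ^3 + 2βεγ/δ - β^2ζ/δ` (computed from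
`det(xA-B) = -δ(x+2γ)(x-γ)^2 + 2βε(x-γ) + β^2ζ = -δ(x^3+ax+b)`). `β ≠ 0`: otherwise `x = γ` is a root. So
`B ↦ (β, γ, (a,b))` is injective (`ε`, then `ζ` are determined) into `{β ≠ 0} × k × {(a,b) without root}`. Second
part: `2xz + δy^2 = 0` for `(x,y,z)`: if `z ≠ 0`, `x = -δy^2/(2z)` is determined by `(y,z)`; if `z = 0`, `y = 0`. So
`(x,y,z) ↦ (y,z)` if `z ≠ 0`, `(x,0)` if `z = 0`, is an injection into `k × k`. -/
def SpecFCN : Prop :=
  ∀ (k : Type) [Field k] [Finite k] (δ : k), (2 : k) ≠ 0 → δ ≠ 0 →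
    {B : Matrix (Fin 3) (Fin 3) k | B 0 0 = 0 ∧ B ∈ B3 !![0, 0, 1; 0, δ, 0; 1, 0, 0]}.ncard ≤
      (Nat.card k - 1) * (Nat.card k * {p : k × k | ∀ x : k, x ^ 3 + p.1 * x + p.2 ≠ 0}.ncard) ∧
    {w : Fin 3 → k | w ⬝ᵥ (!![0, 0, 1; 0, δ, 0; 1, 0, 0] : Matrix (Fin 3) (Fin 3) k).mulVec w = 0}.ncard ≤
      Nat.card k ^ 2

/-- **FC3.** The local count at the places of `P`.
Proof. Let `n0` be the number of `(a,b)` without root, `3 n0 + 1 = q^2` (`SpecDNP` (2)). If `B3 A` is empty there is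
nothing to prove. Otherwise `A` has an isotropic vector `e0 ≠ 0` (FCZ), FHB gives `g0, δ0`, and `w ↦ g0⁻¹ w` maps the
isotropic vectors of `A` injectively to those of the normal form, so there are at most `q^2` of them (FCN). For an isotropic
`e ≠ 0` let `S_e = {B ∈ B3 A : B(e,e) = 0}`; with `g, δ` from FHB, `B ↦ gᵀBg` maps `S_e` injectively into the set of FCN
(`(gᵀBg) 0 0 = B(e,e)`; `Gc` is preserved as in PR/FWW: FID `cg`), so `#S_e ≤ (q-1) q n0`. Every `B ∈ B3 A` is in `S_e` for some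
`e ≠ 0` (FCZ) and then in `S_{re}` for the `q-1` vectors `re`, `r ≠ 0`. Counting pairs `(B,e)`:
`(q-1) #B3 ≤ q^2 (q-1) q n0`, so `#B3 ≤ q^3 n0`, `3 #B3 ≤ q^5`. -/
def SpecFC3 : Prop :=
  ∀ (k : Type) [Field k] [Finite k] (A : Matrix (Fin 3) (Fin 3) k), (2 : k) ≠ 0 → (3 : k) ≠ 0 →
    A.IsSymm → A.det ≠ 0 → 3 * (B3 A).ncard ≤ Nat.card k ^ 5

section glob

variable {F : Type} [Field F] [NumberField F]

variable (F) in
/-- Integral matrices. -/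
abbrev MO : Type := Matrix (Fin 3) (Fin 3) (𝓞 F)

theorem card_quot (v : HeightOneSpectrum (𝓞 F)) : Nat.card (𝓞 F ⧸ v.asIdeal) = nv v := by
  rw [nv, Ideal.absNorm_apply, Submodule.cardQuot_apply]

theorem finite_quot (v : HeightOneSpectrum (𝓞 F)) : Finite (𝓞 F ⧸ v.asIdeal) :=
  Ideal.finiteQuotientOfFreeOfNeBot v.asIdeal v.ne_bot

theorem md_det {R : Type} [CommRing R] (I : Ideal R) (A : Matrix (Fin 3) (Fin 3) R) :
    (md I A).det = Ideal.Quotient.mk I A.det :=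
  (RingHom.map_det (Ideal.Quotient.mk I) A).symm

theorem md_adj {R : Type} [CommRing R] (I : Ideal R) (A : Matrix (Fin 3) (Fin 3) R) :
    (md I A).adjugate = md I A.adjugate :=
  (RingHom.map_adjugate (Ideal.Quotient.mk I) A).symm

theorem md_mul {R : Type} [CommRing R] (I : Ideal R) (A B : Matrix (Fin 3) (Fin 3) R) :
    md I A * md I B = md I (A * B) := by
  simp only [md, Matrix.map_mul]

theorem md_trace {R : Type} [CommRing R] (I : Ideal R) (A : Matrix (Fin 3) (Fin 3) R) :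
    (md I A).trace = Ideal.Quotient.mk I A.trace := by
  simp [md, Matrix.trace]

theorem md_symm {R : Type} [CommRing R] (I : Ideal R) (A : Matrix (Fin 3) (Fin 3) R)
    (h : A.IsSymm) : (md I A).IsSymm := by
  ext i j
  simp only [md, Matrix.transpose_apply, Matrix.map_apply]
  rw [h.apply]

/-- The local counts at a place. -/
theorem fcb_at (h : SpecFCB) (h' : SpecFC3) (v : HeightOneSpectrum (𝓞 F)) (A : MO F)
    (h6 : (6 : 𝓞 F) ∉ v.asIdeal) (hs : A.IsSymm) (hd : A.det ∉ v.asIdeal) :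
    4 * (BT (md v.asIdeal A)).ncard ≤ nv v ^ 3 * (nv v + 1) ^ 2 ∧
    4 * (BN (md v.asIdeal A)).ncard ≤ nv v ^ 3 * (nv v + 1) ^ 2 ∧
    3 * (B3 (md v.asIdeal A)).ncard ≤ nv v ^ 5 := by
  have := v.isMaximal
  have := finite_quot v
  let _ := Ideal.Quotient.field v.asIdeal
  have h2 : (2 : 𝓞 F ⧸ v.asIdeal) ≠ 0 := by
    intro h0
    apply h6
    have h1 : (2 : 𝓞 F) ∈ v.asIdeal := by
      rw [← Ideal.Quotient.eq_zero_iff_mem]; exact h0
    have := v.asIdeal.mul_mem_left 3 h1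
    norm_num at this
    exact this
  have h3 : (3 : 𝓞 F ⧸ v.asIdeal) ≠ 0 := by
    intro h0
    apply h6
    have h1 : (3 : 𝓞 F) ∈ v.asIdeal := by
      rw [← Ideal.Quotient.eq_zero_iff_mem]; exact h0
    have := v.asIdeal.mul_mem_left 2 h1
    norm_num at this
    exact this
  have hd' : (md v.asIdeal A).det ≠ 0 := by
    rw [md_det]
    intro h0
    exact hd (Ideal.Quotient.eq_zero_iff_mem.1 h0)
  have e1 := h (𝓞 F ⧸ v.asIdeal) (md v.asIdeal A) h2 h3 (md_symm _ _ hs) hd'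
  have e2 := h' (𝓞 F ⧸ v.asIdeal) (md v.asIdeal A) h2 h3 (md_symm _ _ hs) hd'
  rw [card_quot v] at e1 e2
  exact ⟨e1.1, e1.2, e2⟩

/-- The allowed sets: for `v` in `z` nontrivial symbol, for `v` in `Q' \ z` trivial symbol, no symbol
condition for the other places of `Q`; no root for the other places. -/
def AL (Q Q' z : Finset (HeightOneSpectrum (𝓞 F))) (A : MO F) (v : HeightOneSpectrum (𝓞 F)) :
    Set (Matrix (Fin 3) (Fin 3) (𝓞 F ⧸ v.asIdeal)) :=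
  if v ∈ z then BN (md v.asIdeal A) else if v ∈ Q' then BT (md v.asIdeal A) else
    if v ∈ Q then BT (md v.asIdeal A) ∪ BN (md v.asIdeal A) else B3 (md v.asIdeal A)

/-- `B` has a pattern in `Z`. -/
def Pat (Q Q' P : Finset (HeightOneSpectrum (𝓞 F))) (Z : Finset (Finset (HeightOneSpectrum (𝓞 F))))
    (A B : MO F) : Prop :=
  ∃ z ∈ Z, ∀ v ∈ Q ∪ P, md v.asIdeal B ∈ AL Q Q' z A v

/-- The relative density. -/
noncomputable def dns (Q Q' P : Finset (HeightOneSpectrum (𝓞 F)))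
    (Z : Finset (Finset (HeightOneSpectrum (𝓞 F)))) : ℝ :=
  ((Z.card : ℝ) / 2 ^ Q'.card) * (∏ v ∈ Q, (1 + 1 / (nv v : ℝ)) ^ 2 / 2) *
    ∏ v ∈ P, (1 + 1 / (nv v : ℝ)) ^ 2 / 3

/-- The set of `SpecFM`. -/
def FS (Q Q' P : Finset (HeightOneSpectrum (𝓞 F))) (D : ℕ)
    (Z : Finset (Finset (HeightOneSpectrum (𝓞 F)))) (ρ : InfinitePlace F → ℝ) :
    Set (Σ q : 𝓞 F × 𝓞 F, Sel 2 (cN q.1 q.2 D)) :=
  {z : (Σ q : 𝓞 F × 𝓞 F, Sel 2 (cN q.1 q.2 D)) | z.1 ∈ Bx F ρ ∧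
    (∀ w ∈ P, ∀ x : 𝓞 F, x ^ 3 + z.1.1 * x + z.1.2 ∉ w.asIdeal) ∧
    (∀ v ∈ Q, ∀ x : 𝓞 F, x ^ 2 + dsc z.1.1 z.1.2 ∉ v.asIdeal) ∧ z.2 ≠ 0 ∧
    Q'.filter (fun v => ¬ TrN D v z.2) ∈ Z}

/-- The pair `X` is attached to the class `z`. -/
def AtZ (D : ℕ) (z : Σ q : 𝓞 F × 𝓞 F, Sel 2 (cN q.1 q.2 D)) (X : MO F × MO F) : Prop :=
  ∃ c : Cocycles 2 (cN z.1.1 z.1.2 D), QuotientAddGroup.mk c = z.2 ∧
    Att ((z.1.1 : F) * (D : F) ^ 2) ((z.1.2 : F) * (D : F) ^ 3) c.1 (inc X.1) (inc X.2)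

end glob

/-! ## F3. Attached pairs and localisations -/

/-- **FATT.** The invariants of an attached integral pair (adapt PR/FATT).
Proof. `SEL.SpecDET` for `K = Fbar`, `th`, `Z`: `det(x gA - gB) = det gA (x^3+ax+b)` for all `x` and
`tr(adj(gA) gB) = 0`; `gA`, `gB` are the images of the integral matrices. Symmetry: DET and injectivity.
`x = 0`: `-det B = b det A`; `x = 1` with FID `cp` (and trace 0):
`det A + tr(A adj B) - det B = det A (1+a+b)`. All these identities descend to `𝓞 F` by injectivity of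
`𝓞 F → F → Fbar` (`RingHom.map_det`, `RingHom.map_adjugate`, `map_trace`). -/
def SpecFATT : Prop :=
  ∀ (F : Type) [Field F] [NumberField F] (a b : 𝓞 F) (a' b' : F)
    (c : Gal F → Pt (curve a' b') (AlgebraicClosure F)) (X : MO F × MO F),
    a' = a → b' = b → Att a' b' c (inc X.1) (inc X.2) →
    X.1.IsSymm ∧ X.1.det ≠ 0 ∧ Gc a b X.1 X.2

/-- **FATI.** An attached pair depends only on the class of the cocycle. Proof: `PR.FATIM.gen`
(PR/FATI.lean). -/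
def SpecFATI : Prop :=
  ∀ (F : Type) [Field F] [CharZero F] (a b : F)
    (c c' : Gal F → Pt (curve a b) (AlgebraicClosure F)) (G H : Matrix (Fin 3) (Fin 3) F),
    (∀ s, (2 : ℕ) • c s = 0) → (∀ s, (2 : ℕ) • c' s = 0) →
    c - c' ∈ Coboundaries 2 (curve a b) → Att a b c G H → Att a b c' G H

/-- **FL1.** The value of `α` at a root in `K`, in terms of an attached pair (adapt PR/FL1: `ℚ_p` becomes
`K`, `ℚ` becomes `F`).
Proof. `i : Fbar → Kbar` an `F`-embedding (`IsAlgClosed.lift`). From `Rel`: roots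
`t_0,t_1,t_2` of `x^3+ax+b` and `s_j^2 = α(t_j)`; from `Att`: `th`, `Z`. `th` and `D t_j` are enumerations
of the same three roots; let `θ = D t`. `i(th 0), i(th 1), i(th 2)` are the roots of `x^3 + aD^2 x + bD^3`
in `Kbar` and `θ` is one of them: `i(th j) = θ` for exactly one `j`; `th j = D t_l` for one `l` and
`i(t_l) = t` (`D ≠ 0`). (a) `det(θ G - H) = det G (θ^3 + aD^2 θ + bD^3) = 0` over `K` (DET, injectivity), so
there is `w ≠ 0` in `K^3` with `(θG - H) w = 0`. (b) Put `z_m = sum_n i(Z m n) w_n`. For all `m`: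
`sum_m (th m - θ) z_m z'_m/fp_m = 0` for all `z' = i(Z) w'`, hence `(i(th m) - θ) z_m = 0` and `z_m = 0` for
`m ≠ j` (the matrix `i(Z)` is invertible); and `w ⬝ G w = z_j^2/fp_j`, `fp_j = 3θ^2+aD^2` (IsRoots), `z_j ≠ 0`
(else `w = 0`). (c) `ζ_n = Z j n/s_l`: for `τ` in `Gal(Kbar/K)` take `σ` in `Gal F` with `i o σ = τ o i`
(`SEL.SpecEMB` for `i` and `τ o i`). `σ(th j) = th j` because `i(th j)` is in `K`, and `σ(t_l) = t_l`. So
`σ(Z j n) = sg th (c σ) j * Z j n` and (Rel) `σ(s_l) = sg (D t) (c σ) l * s_l`; the two signs are equal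
(`sg th S j` depends only on whether the x-coordinate of `S` is `th j = D t_l`), nonzero. So `σ(ζ_n) = ζ_n`,
`τ(i ζ_n) = i ζ_n`, and by `SEL.SpecFXD` `i(ζ_n)` is in `K`. (d) `z_j = i(s_l) ζ`, `ζ = sum_n i(ζ_n) w_n` in `K`,
`ζ ≠ 0`, and `i(s_l)^2 = i(ev (t_l) α) = ev (t) α`. So `(3θ^2+aD^2) w ⬝ G w = z_j^2 = α(t) ζ^2`. -/
def SpecFL1 : Prop :=
  ∀ (F K : Type) [Field F] [CharZero F] [Field K] [CharZero K] [Algebra F K] (a b D : F)
    (α : Lk a b) (c : Gal F → Pt (cur a b D) (AlgebraicClosure F)) (G H : Matrix (Fin 3) (Fin 3) F)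
    (t : K), dsc a b ≠ 0 → D ≠ 0 → (∀ s, (2 : ℕ) • c s = 0) → Rel D α c →
    Att (a * D ^ 2) (b * D ^ 3) c G H → t ^ 3 + algebraMap F K a * t + algebraMap F K b = 0 →
    ∃ (w : Fin 3 → K) (ζ : K), w ≠ 0 ∧ ζ ≠ 0 ∧
      (H.map (algebraMap F K)).mulVec w =
        (algebraMap F K D * t) • (G.map (algebraMap F K)).mulVec w ∧
      (3 * (algebraMap F K D * t) ^ 2 + algebraMap F K a * algebraMap F K D ^ 2) *
        (w ⬝ᵥ (G.map (algebraMap F K)).mulVec w) = ev (algebraMap F K) t α * ζ ^ 2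

/-- `r` is the reduction map at `v`. -/
structure IsRed {F : Type} [Field F] [NumberField F] (v : HeightOneSpectrum (𝓞 F))
    (r : (vv v).valuationSubring →+* 𝓞 F ⧸ v.asIdeal) : Prop where
  cst : ∀ (y : 𝓞 F) (x : (vv v).valuationSubring),
    (x : v.adicCompletion F) = algebraMap F (v.adicCompletion F) (y : F) →
    r x = Ideal.Quotient.mk v.asIdeal y
  ker : ∀ x : (vv v).valuationSubring, r x = 0 ↔ vv v (x : v.adicCompletion F) < 1

/-- **FRD.** The reduction map exists.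
Proof. Let `O = (vv v).valuationSubring`, `m = {x : vv v x < 1}` its maximal ideal; `ι : 𝓞 F → O` (`SpecNF.int`:
`vv v x ≤ 1`). The composite `𝓞 F → O → O/m` is surjective (`SpecNF.dense`) with kernel `v.asIdeal` (`SpecNF.int`,
`k = 1`, and `vv v x < 1 ↔ vv v x ≤ exp (-1)`, `SpecVAL.lt`). So `𝓞 F/v ≃ O/m`
(`RingHom.quotientKerEquivOfSurjective`), and `r` is the composite of `O → O/m` and the inverse isomorphism. (Or: `r x` = the
class of any `y ∈ 𝓞 F` with `vv v (x - y) < 1`.) -/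
def SpecFRD : Prop :=
  ∀ (F : Type) [Field F] [NumberField F] (v : HeightOneSpectrum (𝓞 F)),
    ∃ r : (vv v).valuationSubring →+* 𝓞 F ⧸ v.asIdeal, IsRed v r

/-- **FSQ.** Hensel's lemma at `v`, `6 ∉ v`, in terms of the reduction map `r` (`vv v 2 = vv v 3 = 1`: `SpecNF.int`;
`IsLF`: `SpecNF.lf`). `r` is surjective (`IsRed.cst`).
Proof. `sq`: `r u ≠ 0` means `vv v u = 1`. `→`: `u = y^2`, `vv v y = 1`, `r u = (r y)^2`. `←`: `r u = (r y)^2`
(`r` surjective), `vv v (y^2 - u) < 1`, `SpecHNS.sqr`. `root`: `x = r y`; `vv v (y^3+ay+b) < 1`, `vv v (3y^2+a) = 1`;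
`SpecHNS.cub`. `scale`: `SpecVAL.pri` (`m = 3`, `π` from `SpecVAL.uni`): `w i = π^k y i`, `c = π^{-k}`, `w' = y`. -/
def SpecFSQ : Prop :=
  ∀ (F : Type) [Field F] [NumberField F] (v : HeightOneSpectrum (𝓞 F))
    (r : (vv v).valuationSubring →+* 𝓞 F ⧸ v.asIdeal), (6 : 𝓞 F) ∉ v.asIdeal → IsRed v r →
    Function.Surjective r ∧
    (∀ u : (vv v).valuationSubring, r u ≠ 0 →
      (IsSquare (u : v.adicCompletion F) ↔ IsSquare (r u))) ∧
    (∀ (a b : 𝓞 F) (x : 𝓞 F ⧸ v.asIdeal),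
      x ^ 3 + Ideal.Quotient.mk v.asIdeal a * x + Ideal.Quotient.mk v.asIdeal b = 0 →
      3 * x ^ 2 + Ideal.Quotient.mk v.asIdeal a ≠ 0 →
      ∃ t : (vv v).valuationSubring, (t : v.adicCompletion F) ^ 3 +
        algebraMap F (v.adicCompletion F) (a : F) * (t : v.adicCompletion F) +
        algebraMap F (v.adicCompletion F) (b : F) = 0 ∧ r t = x) ∧
    (∀ w : Fin 3 → v.adicCompletion F, w ≠ 0 →
      ∃ (c : v.adicCompletion F) (w' : Fin 3 → (vv v).valuationSubring), c ≠ 0 ∧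
        (∀ i, (w' i : v.adicCompletion F) = c * w i) ∧ ∃ i, r (w' i) ≠ 0)

/-- **FL2.** The localisation at `v` in terms of the pair modulo `v` (adapt PR/FL2).
Proof. Put `a' = aD^2`, `b' = bD^3`, `z = mk c`, `K = F_v`, `r` from FRD, FSQ. FATT: the pair modulo `v` satisfies
`Gd a' b'` (`md_det`, ...; `-(4a'^3+27b'^2) = -D^6 dsc a b` is not a square modulo `v`: every class is the class of
an integer, `x^2 + dsc a b ∉ v`, and `D` is invertible modulo `v`). `dsc a b ≠ 0` (`x = 0`). Claim: if `Rep D α z` and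
`t` in `O_v` is a root of `x^3+ax+b`, then `IsSquare (ev t α)` iff `Sm`. Let `c1` be the cocycle of `Rep`; `c - c1` is in
`Coboundaries` (`QuotientAddGroup.eq`), so by FATI `X` is attached to `c1`, and FL1 (for `K = F_v`) gives `w, ζ`; by FSQ
`scale` we may scale `w` (and `ζ`) by `c` and assume that `w` is integral with nonzero reduction. Reduction: `w̄ ≠ 0`,
`X.2 w̄ = (D t̄) X.1 w̄`, so by FEI (`k = 𝓞 F/v`) `u = (3(Dt)^2+aD^2) (w ⬝ X.1 w)` has nonzero reduction and `Sm` iff `ū` is a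
square iff (FSQ `sq`) `u` is a square in `K` iff `ev t α = u/ζ^2` is a square. Now `→`: `Triv` gives `α, t` (`t` is
integral, being a root of a monic integral polynomial: if `vv v t > 1` then `vv v (t^3) > vv v (at+b)`). `←`: `α` from
`SpecBR` `surj`; `t`: FRT for `(a',b')` modulo `v` gives a root `x`, `x/D` is a root of `x^3+ax+b` modulo `v`, simple; FSQ
`root`. -/
def SpecFL2 : Prop :=
  ∀ (F : Type) [Field F] [NumberField F] (v : HeightOneSpectrum (𝓞 F)) (a b : 𝓞 F) (D : ℕ)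
    (c : Cocycles 2 (cN a b D)) (X : MO F × MO F), (6 : 𝓞 F) ∉ v.asIdeal → (D : 𝓞 F) ∉ v.asIdeal →
    (∀ x : 𝓞 F, x ^ 2 + dsc a b ∉ v.asIdeal) → X.1.det ∉ v.asIdeal →
    Att ((a : F) * (D : F) ^ 2) ((b : F) * (D : F) ^ 3) c.1 (inc X.1) (inc X.2) →
    Gd (Ideal.Quotient.mk v.asIdeal (a * D ^ 2)) (Ideal.Quotient.mk v.asIdeal (b * D ^ 3))
      (md v.asIdeal X.1) (md v.asIdeal X.2) ∧
    (TrN D v (QuotientAddGroup.mk c : Sel 2 (cN a b D)) ↔
      Sm (Ideal.Quotient.mk v.asIdeal (a * D ^ 2)) (md v.asIdeal X.1) (md v.asIdeal X.2))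

/-- **FPT.** The pattern of an attached pair.
Proof. Let `c` be the cocycle of `AtZ`, `z0 = Q'.filter (¬ TrN)`, in `Z`. For `v ∈ Q`: FL2 gives `Gd` and
`TrN ↔ Sm`: for `v ∈ z0` the reduction of `X.2` is in `BN`; for `v ∈ Q' \ z0` in `BT`; for the other `v ∈ Q` in the union.
For `v ∈ P` (not in `Q`, hence not in `Q'`, `z0`): FATT gives `Gc` for `(aD^2, bD^3)` over `𝓞 F`, hence modulo `v`
(`md_det`, `md_adj`, `md_mul`, `md_trace`), and `x^3 + aD^2 x + bD^3` has no root modulo `v`: a root `x̄`, `x` in `𝓞 F`; `D` is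
invertible modulo `v`, `D y ≡ x`, `D^3 (y^3+ay+b) ∈ v`, so `y^3+ay+b ∈ v`. -/
def SpecFPT : Prop :=
  ∀ (F : Type) [Field F] [NumberField F] (Q Q' P : Finset (HeightOneSpectrum (𝓞 F))) (D : ℕ)
    (Z : Finset (Finset (HeightOneSpectrum (𝓞 F)))) (ρ : InfinitePlace F → ℝ), 0 < D →
    (∀ v ∈ Q, v ∉ P) → (∀ v ∈ Q ∪ P, (6 : 𝓞 F) ∉ v.asIdeal ∧ (D : 𝓞 F) ∉ v.asIdeal) → Q' ⊆ Q →
    ∀ z ∈ FS Q Q' P D Z ρ, ∀ X : MO F × MO F, AtZ D z X → (∀ v ∈ Q ∪ P, X.1.det ∉ v.asIdeal) →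
      Pat Q Q' P Z X.1 X.2

/-! ## F4. Counting integral pairs with congruence conditions -/

/-- **FI1.** The number of `B` in a class, first type (adapt PR/FI1 and SEL/BX1).
Proof. `adj(A) ≠ 0` (as `det A ≠ 0`), and it is symmetric. The relation `sum_{i,j} adj(A)_{ij} B_{ij} = 0` determines
one of the six entries `B_ij`, `i ≤ j`, by the five others (coefficient `adj(A)_ii` or `2 adj(A)_ij`, nonzero). Each of the
five others takes at most `C max(1, vol s/N I)` values, `C` from DNA (centre 0, `x0 = R i j`). -/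
def SpecFI1 : Prop :=
  ∀ (F : Type) [Field F] [NumberField F], ∃ C : ℝ, 1 ≤ C ∧
    ∀ (I : Ideal (𝓞 F)) (s : InfinitePlace F → ℝ) (A R : MO F), I ≠ ⊥ → (∀ v, 0 < s v) →
    A.IsSymm → A.det ≠ 0 →
    {B : MO F | B.IsSymm ∧ (A.adjugate * B).trace = 0 ∧
      (∀ (v : InfinitePlace F) (i j : Fin 3), v (B i j : F) ≤ s v) ∧
      ∀ i j, B i j - R i j ∈ I}.Finite ∧
    ({B : MO F | B.IsSymm ∧ (A.adjugate * B).trace = 0 ∧
      (∀ (v : InfinitePlace F) (i j : Fin 3), v (B i j : F) ≤ s v) ∧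
      ∀ i j, B i j - R i j ∈ I}.ncard : ℝ) ≤ (C * max 1 (vol s / Ideal.absNorm I)) ^ 5

/-- **FI2.** The number of `B` in a class, second type (adapt PR/FI2 and SEL/BX2).
Proof. `A = antidiag(d,e,d)`, `det A = -d^2 e ≠ 0`, `adj(A) = antidiag(-de, -d^2, -de)`: the relation
`-2de B02 - d^2 B11 = 0` determines `B11` by `B02`. The entries `B00, B01, B02, B12, B22` lie in boxes with
`vol = vol(s) 2^(nkm)`, `m = -2, -1, 0, 1, 2`; DNA for each, `V = vol s/N I`. -/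
def SpecFI2 : Prop :=
  ∀ (F : Type) [Field F] [NumberField F], ∃ C : ℝ, 1 ≤ C ∧
    ∀ (I : Ideal (𝓞 F)) (s : InfinitePlace F → ℝ) (k : ℕ) (A R : MO F), I ≠ ⊥ → (∀ v, 0 < s v) →
    A.IsSymm → A.det ≠ 0 → A 0 0 = 0 → A 0 1 = 0 → A 1 2 = 0 → A 2 2 = 0 →
    {B : MO F | B.IsSymm ∧ (A.adjugate * B).trace = 0 ∧
      (∀ (v : InfinitePlace F) (i j : Fin 3), v (B i j : F) ≤
        s v * (2 : ℝ) ^ ((k : ℤ) * ((i : ℕ) + (j : ℕ) - 2 : ℤ))) ∧
      ∀ i j, B i j - R i j ∈ I}.Finite ∧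
    ({B : MO F | B.IsSymm ∧ (A.adjugate * B).trace = 0 ∧
      (∀ (v : InfinitePlace F) (i j : Fin 3), v (B i j : F) ≤
        s v * (2 : ℝ) ^ ((k : ℤ) * ((i : ℕ) + (j : ℕ) - 2 : ℤ))) ∧
      ∀ i j, B i j - R i j ∈ I}.ncard : ℝ) ≤
      C ^ 5 * (max 1 (vol s / Ideal.absNorm I / 4 ^ (k * Module.finrank ℚ F)) *
        max 1 (vol s / Ideal.absNorm I / 2 ^ (k * Module.finrank ℚ F)) *
        max 1 (vol s / Ideal.absNorm I) *
        max 1 (vol s / Ideal.absNorm I * 2 ^ (k * Module.finrank ℚ F)) *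
        max 1 (vol s / Ideal.absNorm I * 4 ^ (k * Module.finrank ℚ F)))

/-- **FFIB.** Conditions modulo several coprime ideals (adapt PR/FFIB). `S` a set of matrices such that every class
modulo `∏ J i` contains at most `M` of its elements.
Proof. Map `B` to the family of its reductions modulo the `J i`, `i ∈ s`, an element of the product of the finite sets
`T i` (`Finset.pi`/`Fintype.piFinset` over the subtype, or induction on `s`); two elements with the same image are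
congruent modulo all `J i`, hence modulo `⨅ J i = ∏ J i` (`Ideal.prod_eq_iInf`-type lemma for pairwise coprime ideals, or
induction with `Ideal.mul_eq_inf_of_coprime`), so the fibres have at most `M` elements. -/
def SpecFFIB : Prop :=
  ∀ (R : Type) [CommRing R] (ι : Type) (s : Finset ι) (J : ι → Ideal R)
    (S : Set (Matrix (Fin 3) (Fin 3) R)) (T : ∀ i : ι, Set (Matrix (Fin 3) (Fin 3) (R ⧸ J i)))
    (M : ℝ), (∀ i ∈ s, ∀ j ∈ s, i ≠ j → IsCoprime (J i) (J j)) → (∀ i ∈ s, Finite (R ⧸ J i)) →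
    0 ≤ M →
    (∀ R0 : Matrix (Fin 3) (Fin 3) R, {B ∈ S | ∀ i j, B i j - R0 i j ∈ ∏ l ∈ s, J l}.Finite ∧
      ({B ∈ S | ∀ i j, B i j - R0 i j ∈ ∏ l ∈ s, J l}.ncard : ℝ) ≤ M) →
    {B ∈ S | ∀ i ∈ s, md (J i) B ∈ T i}.Finite ∧
    ({B ∈ S | ∀ i ∈ s, md (J i) B ∈ T i}.ncard : ℝ) ≤ M * ∏ i ∈ s, ((T i).ncard : ℝ)

/-- **FAL.** Product of the local counts (adapt PR/FAL).
Proof. `fcb_at`: for `v ∈ Q'` the set `AL` has at most `q^5 (1+1/q)^2/4` elements, for the other `v ∈ Q` at most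
`q^5 (1+1/q)^2/2` (`q^3 (q+1)^2 = q^5 (1+1/q)^2`; a union has at most the sum), for `v ∈ P` (not in `Q`) at most
`q^5/3 ≤ q^5 (1+1/q)^2/3`. Multiply (`Q`, `P` disjoint; `z ⊆ Q' ⊆ Q`). -/
def SpecFAL : Prop :=
  ∀ (F : Type) [Field F] [NumberField F] (Q Q' P z : Finset (HeightOneSpectrum (𝓞 F))) (A : MO F),
    (∀ v ∈ Q, v ∉ P) → Q' ⊆ Q → z ⊆ Q' → A.IsSymm →
    (∀ v ∈ Q ∪ P, (6 : 𝓞 F) ∉ v.asIdeal ∧ A.det ∉ v.asIdeal) →
    (∏ v ∈ Q ∪ P, ((AL Q Q' z A v).ncard : ℝ)) ≤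
      (∏ v ∈ Q ∪ P, (nv v : ℝ)) ^ 5 * ((1 / 2 ^ Q'.card) *
        (∏ v ∈ Q, (1 + 1 / (nv v : ℝ)) ^ 2 / 2) * ∏ v ∈ P, (1 + 1 / (nv v : ℝ)) ^ 2 / 3)

/-- **FPB.** The number of `B` with pattern, for one `A`.
Proof. Union over `z ∈ Z` of the sets of FFIB (`s = Q ∪ P`, `J v = v.asIdeal`, distinct maximal ideals are coprime,
`T v = AL Q Q' z A v`), each at most `M ∏ #AL ≤ M N^5 (…)` by FAL. -/
def SpecFPB : Prop :=
  ∀ (F : Type) [Field F] [NumberField F] (Q Q' P : Finset (HeightOneSpectrum (𝓞 F)))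
    (Z : Finset (Finset (HeightOneSpectrum (𝓞 F)))) (A : MO F) (S : Set (MO F)) (M : ℝ),
    (∀ v ∈ Q, v ∉ P) → Q' ⊆ Q → (∀ z ∈ Z, z ⊆ Q') → A.IsSymm →
    (∀ v ∈ Q ∪ P, (6 : 𝓞 F) ∉ v.asIdeal ∧ A.det ∉ v.asIdeal) → 0 ≤ M →
    (∀ R0 : MO F, {B ∈ S | ∀ i j, B i j - R0 i j ∈ ∏ v ∈ Q ∪ P, v.asIdeal}.Finite ∧
      ({B ∈ S | ∀ i j, B i j - R0 i j ∈ ∏ v ∈ Q ∪ P, v.asIdeal}.ncard : ℝ) ≤ M) →
    {B ∈ S | Pat Q Q' P Z A B}.Finite ∧
    ({B ∈ S | Pat Q Q' P Z A B}.ncard : ℝ) ≤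
      M * (∏ v ∈ Q ∪ P, (nv v : ℝ)) ^ 5 * dns Q Q' P Z

/-- **FAD.** Bounded matrices.
Proof. Finite: nine entries in a finite box (CNUM.box_finite, SEL/CNU.lean). For each of these `A` with `det A ≠ 0`:
`det A ∈ v` implies `nv v ∣ Ideal.absNorm (span {det A}) ≠ 0`, so `nv v ≤ ` this norm; `6 ∈ v` implies
`nv v ≤ absNorm (span {6})`. `P0` = the maximum (sum) of these numbers over the finite set. -/
def SpecFAD : Prop :=
  ∀ (F : Type) [Field F] [NumberField F] (C : ℝ),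
    {A : MO F | ∀ (v : InfinitePlace F) (i j : Fin 3), v (A i j : F) ≤ C}.Finite ∧
    ∃ P0 : ℕ, ∀ v : HeightOneSpectrum (𝓞 F), P0 < nv v → (6 : 𝓞 F) ∉ v.asIdeal ∧
      ∀ A : MO F, (∀ (u : InfinitePlace F) (i j : Fin 3), u (A i j : F) ≤ C) → A.det ≠ 0 →
        A.det ∉ v.asIdeal

/-- **FP1.** Counting pairs of the first type with pattern.
Proof. `P0`, the finite set `Σ` of matrices from FAD, `C1` from FI1. `n = [F:ℚ]`, `N = ∏_{Q ∪ P} nv v = absNorm (∏ v)`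
(`map_prod`). The set is contained in the union over `A ∈ Σ`, symmetric, `det A ≠ 0`, of `{A} × {B ∈ S_A : Pat}`, `S_A` = the
`B` of FI1 with `s = C ρ` without the congruence. FPB with `M = (C1 max(1, C^n vol ρ/N))^5 = (C1 C^n vol ρ/N)^5`
(`vol (C ρ) = C^n vol ρ`, CNUM.vol_const-type lemma; `N ≤ vol ρ`, `C ≥ 1`): at most
`#Σ (C1 C^n vol ρ/N)^5 N^5 dns`. `C' = #Σ (C1 C^n)^5 + 1`. -/
def SpecFP1 : Prop :=
  ∀ (F : Type) [Field F] [NumberField F] (C : ℝ), 1 ≤ C → ∃ (C' : ℝ) (P0 : ℕ), 0 < C' ∧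
    ∀ (Q Q' P : Finset (HeightOneSpectrum (𝓞 F))) (Z : Finset (Finset (HeightOneSpectrum (𝓞 F)))),
    (∀ v ∈ Q, v ∉ P) → (∀ v ∈ Q ∪ P, P0 < nv v) → Q' ⊆ Q → (∀ z ∈ Z, z ⊆ Q') →
    ∀ ρ : InfinitePlace F → ℝ, (∀ v, 1 ≤ ρ v) → (∏ v ∈ Q ∪ P, (nv v : ℝ)) ≤ vol ρ →
      {X ∈ R1 F C ρ | Pat Q Q' P Z X.1 X.2}.Finite ∧
      ({X ∈ R1 F C ρ | Pat Q Q' P Z X.1 X.2}.ncard : ℝ) ≤ C' * dns Q Q' P Z * vol ρ ^ 5

/-- **FP2.** The same for the second type, level `k`, in the range `N 4^(kn) ≤ vol ρ`.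
Proof. As FP1 with FI2, `s = C ρ`, `V = C^n vol ρ/N`: all five boxes have `V 2^(knm) ≥ 1` (`m ≥ -2`), so the product of
the five maxima is `V^5`. -/
def SpecFP2 : Prop :=
  ∀ (F : Type) [Field F] [NumberField F] (C : ℝ), 1 ≤ C → ∃ (C' : ℝ) (P0 : ℕ), 0 < C' ∧
    ∀ (Q Q' P : Finset (HeightOneSpectrum (𝓞 F))) (Z : Finset (Finset (HeightOneSpectrum (𝓞 F)))),
    (∀ v ∈ Q, v ∉ P) → (∀ v ∈ Q ∪ P, P0 < nv v) → Q' ⊆ Q → (∀ z ∈ Z, z ⊆ Q') →
    ∀ (ρ : InfinitePlace F → ℝ) (k : ℕ), (∀ v, 1 ≤ ρ v) →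
    (∏ v ∈ Q ∪ P, (nv v : ℝ)) * 4 ^ (k * Module.finrank ℚ F) ≤ vol ρ →
      {X ∈ R2 F C ρ k | Pat Q Q' P Z X.1 X.2}.Finite ∧
      ({X ∈ R2 F C ρ k | Pat Q Q' P Z X.1 X.2}.ncard : ℝ) ≤ C' * dns Q Q' P Z * vol ρ ^ 5

/-! ## F5. Assembly -/

/-- **FZ1.** A pair is attached to at most one class (adapt PR/FZ1). Proof. `SEL.SpecINJ`: `(1)` gives
`a D^2 = a' D^2`, `b D^3 = b' D^3`, so `a = a'`, `b = b'` (`D ≠ 0`, injectivity of `𝓞 F → F`); then `(2)`: the cocycles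
differ by a coboundary, so the classes are equal. (Destructure the two sigma elements and substitute.) -/
def SpecFZ1 : Prop :=
  ∀ (F : Type) [Field F] [NumberField F] (D : ℕ) (z z' : Σ q : 𝓞 F × 𝓞 F, Sel 2 (cN q.1 q.2 D))
    (X : MO F × MO F), 0 < D → AtZ D z X → AtZ D z' X → z = z'

/-- **FZ2.** Reduced pairs and their patterns (adapt PR/FZ2).
Proof. `z` in `FS`, `ρ' = D ρ`. Choose a cocycle `c` with class `z.2`, not a coboundary. `a' = aD^2`, `b' = bD^3` (in `𝓞 F`):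
`|a'|_v ≤ ρ_v^2 D^2 = ρ'_v^2`, `|b'|_v ≤ ρ'_v^3`, `4a'^3+27b'^2 = D^6 (4a^3+27b^2) ≠ 0`: `(a',b')` is in `Bx F ρ'`.
`SEL.SpecCLS` for `(a',b')` (generalise first: for all `a1 b1 : F` with `a1 = (a' : F)`, `b1 = (b' : F)` the conclusion of CLS
holds for `curve a1 b1`; `subst`; then take `a1 = a * D^2`, `b1 = b * D^3` in `F`) gives the pairs; `C` = its constant. Every
pair `X` in `R1`/`R2` attached to `c` has `|X.1 i j|_v ≤ C`, `det X.1 ≠ 0`, so for `v ∈ Q ∪ P` `det X.1 ∉ v`, `6 ∉ v`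
(FAD, which gives `P0`), and FPT gives `Pat`. -/
def SpecFZ2 : Prop :=
  ∀ (F : Type) [Field F] [NumberField F], ∃ (C : ℝ) (P0 : ℕ), 1 ≤ C ∧
    ∀ (Q Q' P : Finset (HeightOneSpectrum (𝓞 F))) (D : ℕ)
      (Z : Finset (Finset (HeightOneSpectrum (𝓞 F)))) (ρ : InfinitePlace F → ℝ), 0 < D →
    (∀ v ∈ Q, v ∉ P) → (∀ v ∈ Q ∪ P, P0 < nv v ∧ (D : 𝓞 F) ∉ v.asIdeal) → Q' ⊆ Q →
    (∀ v, 1 ≤ ρ v) → ∀ z ∈ FS Q Q' P D Z ρ,
    (∃ X ∈ R1 F C (fun v => D * ρ v), AtZ D z X ∧ Pat Q Q' P Z X.1 X.2) ∨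
    (∃ (k : ℕ) (Φ : 𝓞 F → MO F × MO F),
      Set.InjOn Φ {q : 𝓞 F | ∀ v : InfinitePlace F, v (q : F) ≤ 2 ^ k} ∧
      ∀ q : 𝓞 F, (∀ v : InfinitePlace F, v (q : F) ≤ 2 ^ k) →
        Φ q ∈ R2 F C (fun v => D * ρ v) k ∧ AtZ D z (Φ q) ∧ Pat Q Q' P Z (Φ q).1 (Φ q).2)

/-- **FMA.** Assembly: `SpecFM` (adapt PR/FMA and SEL/TOT).
Proof. `C, P0` from FZ2, and `P0` also larger than the `P0` of FP1, FP2 for this `C`. If `Z` is empty, the set is empty.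
Otherwise `d = dns Q Q' P Z > 0`. `N = ∏_{Q ∪ P} nv v`, `ρ' = D ρ`, `V = vol ρ' = D^n vol ρ ≥ vol ρ` (`vol ρ` is large if
all `ρ_v` are: there is at least one place and `ρ_v ≥ 1`). The set is `FS Q Q' P D Z ρ`. Type 1 elements: `z ↦ X` is injective
by FZ1, at most `C1 d V^5` (FP1, `N ≤ V` for large `ρ`). Type `(2,k)` elements with `N 4^(kn) ≤ V`: `(z,q) ↦ Φ_z q` is
injective (FZ1 and InjOn), there are at least `c 2^(kn)` integers `q` with `|q|_v ≤ 2^k` (`SEL.SpecCNL`), so their number is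
at most `C2 d V^5/(c 2^(kn))` (FP2). The elements of type `(2,k)` with `N 4^(kn) > V`: at most
`C3 V^5/(c 2^(kn))` (`SEL.SpecBX2`), none for `k ≥ K` (so everything is finite), and the sum over these `k` is
`≤ 2 (C3/c) V^5 (N/V)^(1/2)` (geometric series of ratio `≤ 1/2` whose first term has `2^(kn) > (V/N)^(1/2)`), which is
`≤ d V^5` for large `ρ` (given `Q, P, D, Z`). Total `≤ (C1 + 2 C2/c + 1) d V^5`, `V^5 = D^(5n) (vol ρ)^5`. -/
def SpecFMA : Prop :=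
  SpecFZ1 → SpecFZ2 → SpecFP1 → SpecFP2 → SpecFM

end Pool.Agent.Lib.MP_8cb858_nt.PF
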