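import Pool.Agent.Lib.MP_8cb858_nt.PF.SpecA
import Pool.Agent.Lib.MP_8cb858_nt.PR.SpecE

/-!
# Specs, part E (every number field): the twisting step (assembly)

`0 < k`, `6 ∣ k`, `Act k Q`, `Cmp k Q P`; `(a, b)` in `Fam k cl Q P`; `D = m pr T`, `Neu k P m`, `T ⊆ Q`. The
places dividing `k` are called `M` in the doc strings. Modulo squares and locally at `v ∈ Q` a class `α` has
the coordinates `ee v α`, `ss v α` in `ZMod 2`. The generic notions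
`PR.he`, `PR.hs` and `PR.SpecHYP` (theorem `PR.specHYP` in `PR/HYP.lean`) and `PR.SpecLAL` (theorem
`PR.specLAL` in `PR/LAL.lean`) are used. Most modules are ports of `PR/XXX.lean`.
-/

namespace Pool.Agent.Lib.MP_8cb858_nt.PF

open Polynomial NumberField IsDedekindDomain Pool.Agent.Lib.MP_8cb858_nt.SEL
open scoped Classical WithZero

section defs

variable {F : Type} [Field F] [NumberField F]

/-- The image of an integer of `F` in the completion `F_v`. -/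
noncomputable abbrev lc (v : HeightOneSpectrum (𝓞 F)) (x : 𝓞 F) : v.adicCompletion F :=
  algebraMap F (v.adicCompletion F) (x : F)

/-- The image of a class in the completion `F_v`. -/
noncomputable abbrev ul (v : HeightOneSpectrum (𝓞 F)) {a b : 𝓞 F} (α : Lk (a : F) (b : F)) :
    Lk (lc v a) (lc v b) := up (v.adicCompletion F) α

/-- the coordinate `e_v` of a global class -/
noncomputable def ee {a b : 𝓞 F} (v : HeightOneSpectrum (𝓞 F)) (α : Lk (a : F) (b : F)) : ZMod 2 :=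
  PR.he (Ev (vv v)) (ul v α)

/-- the coordinate `s_v` of a global class -/
noncomputable def ss {a b : 𝓞 F} (v : HeightOneSpectrum (𝓞 F)) (α : Lk (a : F) (b : F)) : ZMod 2 :=
  PR.hs (Ev (vv v)) Iso (ul v α)

/-- the classes which are Kummer classes of `E` at the places dividing `k` and unit classes at all
other places outside `Q` -/
def Wg (k : ℕ) (Q : Finset (HeightOneSpectrum (𝓞 F))) (a b : 𝓞 F) : Set (Lk (a : F) (b : F)) :=
  {α | InV α ∧ (∀ v : HeightOneSpectrum (𝓞 F), (k : 𝓞 F) ∈ v.asIdeal → Aff 1 (ul v α)) ∧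
    ∀ v : HeightOneSpectrum (𝓞 F), (k : 𝓞 F) ∉ v.asIdeal → v ∉ Q → Ev (vv v) (ul v α)}

/-- the Selmer conditions at the places of `Q` in terms of the coordinates -/
def Cnd (Q T : Finset (HeightOneSpectrum (𝓞 F))) {a b : 𝓞 F} (α : Lk (a : F) (b : F)) : Prop :=
  ∀ v ∈ Q, (v ∈ T → ss v α = 0) ∧ (v ∉ T → ee v α = 0)

end defs

/-- **FAP.** Elementary facts on the places and on `D = m pr T`.
Proof. NF `int`. `tw`: `k ∉ v`, `6 ∣ k`, so `2, 3 ∉ v`. `kk`: `k ∈ v`. `qk`: `v ∈ Q`: `nv v ∈ v` (`Ideal.absNorm_mem`) and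
`nv v = 1 + 8 k t`, so `k ∈ v` would give `1 ∈ v`. `dD`: a product of numbers `≡ 1 mod 8k`; `8 k > 1`. `dT`: `v ∈ T`:
`nv v ∈ v`, `∉ v^2`, so `w = exp(-1)`; the other factors are units at `v`: `m ∈ v` would
give `v ∈ P`; `nv u ∈ v` for `u ≠ v` in `Q` would give (`oth`) `v = u` or `v ∈ P`. `dU`: the same: if `D ∈ v` then
`m ∈ v` or `nv u ∈ v` for some `u ∈ T`, so `v ∈ P` or `v = u ∈ T`. `fin`: `k ≠ 0` has finitely many prime divisors;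
a place over 2 exists and divides `k`. -/
structure SpecFAP : Prop where
  tw : ∀ {F : Type} [Field F] [NumberField F] {k : ℕ} (v : HeightOneSpectrum (𝓞 F)), 6 ∣ k →
    (k : 𝓞 F) ∉ v.asIdeal → vv v 2 = 1 ∧ vv v 3 = 1 ∧ (2 : 𝓞 F) ∉ v.asIdeal
  kk : ∀ {F : Type} [Field F] [NumberField F] {k : ℕ} (v : HeightOneSpectrum (𝓞 F)),
    (k : 𝓞 F) ∈ v.asIdeal → vv v (k : v.adicCompletion F) < 1
  qk : ∀ {F : Type} [Field F] [NumberField F] {k : ℕ} {Q : Finset (HeightOneSpectrum (𝓞 F))},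
    Act k Q → ∀ v ∈ Q, (k : 𝓞 F) ∉ v.asIdeal
  dD : ∀ {F : Type} [Field F] [NumberField F] {k : ℕ} {Q P T : Finset (HeightOneSpectrum (𝓞 F))}
    {m : ℕ}, 0 < k → Act k Q → Neu k P m → T ⊆ Q → (m * pr T) % (8 * k) = 1 ∧ 0 < m * pr T
  dT : ∀ {F : Type} [Field F] [NumberField F] {k : ℕ} {Q P T : Finset (HeightOneSpectrum (𝓞 F))}
    {m : ℕ}, Act k Q → Cmp k Q P → Neu k P m → T ⊆ Q → ∀ v ∈ T,
      vv v ((m * pr T : ℕ) : v.adicCompletion F) = WithZero.exp (-1 : ℤ)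
  dU : ∀ {F : Type} [Field F] [NumberField F] {k : ℕ} {Q P T : Finset (HeightOneSpectrum (𝓞 F))}
    {m : ℕ}, Act k Q → Cmp k Q P → Neu k P m → T ⊆ Q → ∀ v : HeightOneSpectrum (𝓞 F), v ∉ P →
      v ∉ T → vv v ((m * pr T : ℕ) : v.adicCompletion F) = 1
  fin : ∀ {F : Type} [Field F] [NumberField F] {k : ℕ}, 0 < k → 6 ∣ k →
    ∃ M : Finset (HeightOneSpectrum (𝓞 F)), (∀ v, v ∈ M ↔ (k : 𝓞 F) ∈ v.asIdeal) ∧
      ∀ v : HeightOneSpectrum (𝓞 F), (2 : 𝓞 F) ∈ v.asIdeal → v ∈ M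

/-- **FAC.** Elementary facts on the family.
Proof. `int`: NF `int`. `t3`, `t12`: NF. `ne0`: let `w ∈ P` (residue characteristic `≥ 5`); if `D' ∈ w` then `f` has a root
modulo `w`: if `a ∈ w` then `b ∈ w`, root `0`; otherwise `x = 3b/a` (`a^3 f(x) = b D'`), contradiction; the same for `q0`:
`v ∈ Q`: `D' ∉ v` (`x = 0` in the definition). `sqf`: `D' ∉ v^2` for `v` prime to `k`. `bad`: `D' ∈ v`, `v` prime to `k`:
`v` is not in `P`, not in `Q`, `w(D') = exp(-1)`. `fin`: `D' ≠ 0`, finitely many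
prime divisors. `rt`: LR (first part) gives a root `t` in `F_v`, `w t ≤ 1`; `dense`: `x ∈ 𝓞 F` close to `t`. -/
structure SpecFAC : Prop where
  int : ∀ {F : Type} [Field F] [NumberField F] (v : HeightOneSpectrum (𝓞 F)) (x : 𝓞 F),
    vv v (lc v x) ≤ 1
  ne0 : ∀ {F : Type} [Field F] [NumberField F] {k : ℕ} {cl : 𝓞 F × 𝓞 F}
    {Q P : Finset (HeightOneSpectrum (𝓞 F))} {a b : 𝓞 F}, 6 ∣ k →
    Cmp k Q P → (a, b) ∈ Fam k cl Q P → dsc a b ≠ 0 ∧ dsc (a : F) (b : F) ≠ 0 ∧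
      ∀ v : HeightOneSpectrum (𝓞 F), dsc (lc v a) (lc v b) ≠ 0
  sqf : ∀ {F : Type} [Field F] [NumberField F] {k : ℕ} {cl : 𝓞 F × 𝓞 F}
    {Q P : Finset (HeightOneSpectrum (𝓞 F))} {a b : 𝓞 F}, (a, b) ∈ Fam k cl Q P →
    ∀ v : HeightOneSpectrum (𝓞 F), (k : 𝓞 F) ∉ v.asIdeal →
      WithZero.exp (-1 : ℤ) ≤ vv v (dsc (lc v a) (lc v b))
  t3 : ∀ {F : Type} [Field F] [NumberField F] {k : ℕ} {cl : 𝓞 F × 𝓞 F}
    {Q P : Finset (HeightOneSpectrum (𝓞 F))} {a b : 𝓞 F}, (a, b) ∈ Fam k cl Q P →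
    ∀ v ∈ P, T3 (vv v) (lc v a) (lc v b)
  t12 : ∀ {F : Type} [Field F] [NumberField F] {k : ℕ} {cl : 𝓞 F × 𝓞 F}
    {Q P : Finset (HeightOneSpectrum (𝓞 F))} {a b : 𝓞 F}, (a, b) ∈ Fam k cl Q P →
    ∀ v ∈ Q, T12 (vv v) (lc v a) (lc v b)
  bad : ∀ {F : Type} [Field F] [NumberField F] {k : ℕ} {cl : 𝓞 F × 𝓞 F}
    {Q P : Finset (HeightOneSpectrum (𝓞 F))} {a b : 𝓞 F}, 6 ∣ k →
    Cmp k Q P → (a, b) ∈ Fam k cl Q P → ∀ v : HeightOneSpectrum (𝓞 F), dsc a b ∈ v.asIdeal →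
      (k : 𝓞 F) ∉ v.asIdeal →
      v ∉ P ∧ v ∉ Q ∧ vv v (dsc (lc v a) (lc v b)) = WithZero.exp (-1 : ℤ)
  fin : ∀ {F : Type} [Field F] [NumberField F] {a b : 𝓞 F}, dsc a b ≠ 0 →
    {v : HeightOneSpectrum (𝓞 F) | dsc a b ∈ v.asIdeal}.Finite
  rt : ∀ {F : Type} [Field F] [NumberField F] {k : ℕ} {cl : 𝓞 F × 𝓞 F}
    {Q P : Finset (HeightOneSpectrum (𝓞 F))} {a b : 𝓞 F}, 6 ∣ k → Act k Q → Cmp k Q P →
    (a, b) ∈ Fam k cl Q P → ∀ v : HeightOneSpectrum (𝓞 F), (k : 𝓞 F) ∉ v.asIdeal →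
      (v ∈ Q ∨ dsc a b ∈ v.asIdeal) →
      ∃ x : 𝓞 F, x ^ 3 + a * x + b ∈ v.asIdeal ∧ 3 * x ^ 2 + a ∉ v.asIdeal

/-- **HAP.** The planes at the places of `Q`; coordinates of global classes are additive (port of
`PR/HAP.lean`). Proof: LS (T12), `PR.specHYP`, INV (`upr` is multiplicative: `ul v (α β) = ul v α · ul v β`). -/
def SpecHAP : Prop :=
  ∀ (F : Type) [Field F] [NumberField F] (k : ℕ) (cl : 𝓞 F × 𝓞 F)
    (Q P : Finset (HeightOneSpectrum (𝓞 F))) (a b : 𝓞 F), 0 < k → 6 ∣ k →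
    Act k Q → Cmp k Q P → (a, b) ∈ Fam k cl Q P → ∀ v ∈ Q, ∀ α β : Lk (a : F) (b : F),
    InV α → InV β →
      ee v (α * β) = ee v α + ee v β ∧ ss v (α * β) = ss v α + ss v β ∧
      ee v α * ss v α = (if Iso (ul v α) then 0 else 1) ∧
      ((ee v α = 0 ∧ ss v α = 0) ↔ IsSquare (ul v α)) ∧
      (ee v α = 0 ↔ Ev (vv v) (ul v α)) ∧
      (ss v α = 0 ↔ IsSquare (ul v α) ∨ (¬ Ev (vv v) (ul v α) ∧ Iso (ul v α)))

/-- **SLC.** The local conditions of the 2-Selmer group of `E^D`, `D = m pr T`.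
Proof. `InV α` is part of both sides. Infinite places: LI. `k ∈ v`: `D ≡ 1 mod 8k` is a square in `F_v`
(SQK), so `Aff D ↔ Aff 1` (AFI `dd`). `v ∈ P`: LV: `ul v α` is a square, `Aff D` by LZ, `Ev` by EVF: both
sides hold. `k ∉ v`, `v ∉ P`, `v ∉ Q`: `w D = 1` (FAP `dU`), LG: `Ev ↔ Aff D`. `v ∈ Q`, `v ∉ T`: the same, and
`Ev ↔ ee v α = 0` (HAP). `v ∈ T`: LT with `w D = exp(-1)` (FAP `dT`), and HAP. (`((m pr T : ℕ) : F)` maps to the
natural number in `F_v`: `map_natCast`.) -/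
def SpecSLC : Prop :=
  ∀ (F : Type) [Field F] [NumberField F] (k : ℕ) (cl : 𝓞 F × 𝓞 F)
    (Q P T : Finset (HeightOneSpectrum (𝓞 F))) (m : ℕ) (a b : 𝓞 F), 0 < k → 6 ∣ k →
    Act k Q → Cmp k Q P → Neu k P m → (a, b) ∈ Fam k cl Q P → T ⊆ Q → ∀ α : Lk (a : F) (b : F),
    α ∈ SelSet (a : F) (b : F) ((m * pr T : ℕ) : F) ↔ α ∈ Wg k Q a b ∧ Cnd Q T α

/-- **RCE.** Reciprocity on `Wg`.
Proof. REC (`nv v % 4 = 1` because `nv v ≡ 1 mod 8k`). `Iso` at `v ∉ Q`: `k ∈ v`: `Aff 1`, AFI `iso`; `v ∈ P`: a square (LV),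
AFI `inv` and ADJ `one`; otherwise `Ev`, LG (`D = 1`), AFI `iso`. Infinite places: LI. So the number of `v ∈ Q` with
`¬ Iso` is even, and modulo 2 it is the sum of the `ee v α * ss v α` (HAP). -/
def SpecRCE : Prop :=
  ∀ (F : Type) [Field F] [NumberField F] (k : ℕ) (cl : 𝓞 F × 𝓞 F)
    (Q P : Finset (HeightOneSpectrum (𝓞 F))) (a b : 𝓞 F), 0 < k → 6 ∣ k →
    Act k Q → Cmp k Q P → (a, b) ∈ Fam k cl Q P → ∀ α ∈ Wg k Q a b, ∑ v ∈ Q, ee v α * ss v α = 0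

/-- **ELF.** `Wg` is a group. Proof: INV, EVF, at `k ∈ v` KML and LZ. -/
def SpecELF : Prop :=
  ∀ (F : Type) [Field F] [NumberField F] (k : ℕ) (cl : 𝓞 F × 𝓞 F)
    (Q P : Finset (HeightOneSpectrum (𝓞 F))) (a b : 𝓞 F), 0 < k → 6 ∣ k →
    Act k Q → Cmp k Q P → (a, b) ∈ Fam k cl Q P → (1 : Lk (a : F) (b : F)) ∈ Wg k Q a b ∧
    ∀ α ∈ Wg k Q a b, ∀ β ∈ Wg k Q a b, α * β ∈ Wg k Q a b

/-- **PGH.** Pigeonhole with several colourings.
Proof. The map `x ↦ ((c i x)_i, (d j x)_j)` from `G` to `∏ Fin (M i) × (J → ZMod 2)`, a set with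
`(∏ M i) 2^#J` elements; some fibre has at least `N` elements
(`Finset.exists_le_card_fiber_of_mul_le_card_of_maps_to`). -/
def SpecPGH : Prop :=
  ∀ (X ι κ : Type) (G : Finset X) (I : Finset ι) (J : Finset κ) (M : ι → ℕ)
    (c : ∀ i : ι, X → Fin (M i)) (d : κ → X → ZMod 2) (N : ℕ),
    (∀ i, 0 < M i) → N * ((∏ i ∈ I, M i) * 2 ^ J.card) ≤ G.card → 0 < N →
    ∃ H : Finset X, H ⊆ G ∧ N ≤ H.card ∧
      ∀ x ∈ H, ∀ y ∈ H, (∀ i ∈ I, c i x = c i y) ∧ ∀ j ∈ J, d j x = d j y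

/-- **WCT.** Many elements of `Wg`.
Proof. `M` = the places dividing `k` (FAP `fin`), `bad` = the finite set of the `v ∉ M` with `D' ∈ v` (FAC `fin`),
`S = Q ∪ bad` (disjoint, FAC `bad`; disjoint from `M`, FAP `qk`). SU (hypotheses: FAC `ne0`, `rt`; irreducibility at a
`w ∈ P`): `G0` with `2^(n + #S) ∏_(v ∈ M) (1 + nr v)` elements. `I = M`, `c v α` = colour from IX for `ul v α`, with
`∏_(v ∈ M) two_v (1 + nr v) = 2^n ∏ (1 + nr v)` colours (NF `twm`); `J = bad`, `d v α = ee v α`; PGH with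
`N = 2^#Q`: a set `H`, `α₀ ∈ H`; take `G = {α α₀ : α ∈ H}`. `α α₀` is in `Wg`: `k ∈ v`: IX; `k ∉ v`, `v ∉ Q`: if
`v ∉ bad` both are `Ev` (SU), EVF; if `v ∈ bad`: LS (second alternative) with `PR.specHYP`: `he` is additive, so it is
`0` for the product: `Ev`. `α ↦ α α₀` is injective (`α₀` is a unit), and if `α α₀ β α₀` is a square, so is `α β`
(INV), so `α = β`. (For `v ∉ M` take the colour function of IX too, or any function: `two_v (1+nr v) > 0` by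
LFB `two`.) -/
def SpecWCT : Prop :=
  ∀ (F : Type) [Field F] [NumberField F] (k : ℕ) (cl : 𝓞 F × 𝓞 F)
    (Q P : Finset (HeightOneSpectrum (𝓞 F))) (a b : 𝓞 F), 0 < k → 6 ∣ k →
    Act k Q → Cmp k Q P → (a, b) ∈ Fam k cl Q P →
    ∃ G : Finset (Lk (a : F) (b : F)), 2 ^ Q.card ≤ G.card ∧ (∀ α ∈ G, α ∈ Wg k Q a b) ∧
      ∀ α ∈ G, ∀ β ∈ G, α ≠ β → ¬ IsSquare (α * β)

/-- **RP0.** Formal consequences of BR (port of `PR/RP0.lean`). `1` is in `SelSet`: LZ at the finite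
places, LI at the infinite places. -/
def SpecRP0 : Prop :=
  ∀ (F : Type) [Field F] [NumberField F] (a b D : F),
    (∀ v : InfinitePlace F, v.IsReal → 0 < (v.embedding a).re) → dsc a b ≠ 0 → D ≠ 0 →
    Rep D (1 : Lk a b) (0 : Sel 2 (cur a b D)) ∧
    ∀ (α : Lk a b) (z : Sel 2 (cur a b D)), Rep D α z → (z = 0 ↔ IsSquare α)

/-- **TVS.** `Triv` is the vanishing of `s_v` (port of `PR/TVS.lean`; the root `t` in `F_v` from LR). -/
def SpecTVS : Prop :=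
  ∀ (F : Type) [Field F] [NumberField F] (k : ℕ) (cl : 𝓞 F × 𝓞 F)
    (Q P T : Finset (HeightOneSpectrum (𝓞 F))) (m : ℕ) (a b : 𝓞 F), 0 < k → 6 ∣ k →
    Act k Q → Cmp k Q P → Neu k P m → (a, b) ∈ Fam k cl Q P → T ⊆ Q → ∀ v ∈ Q, v ∉ T →
    ∀ (α : Lk (a : F) (b : F)) (z : Sel 2 (cN a b (m * pr T))),
      Rep ((m * pr T : ℕ) : F) α z → (TrN (m * pr T) v z ↔ ss v α = 0)

/-- **NE1.** `1` is neutral, `1 * pr ∅ = 1`. -/
def SpecNE1 : Prop :=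
  ∀ (F : Type) [Field F] [NumberField F] (k : ℕ) (P : Finset (HeightOneSpectrum (𝓞 F))), 0 < k →
    Neu k P 1 ∧ 1 * pr (∅ : Finset (HeightOneSpectrum (𝓞 F))) = 1

/-- **KRN.** For good `(a, b)` the coordinates are injective on `Wg` modulo squares (port of
`PR/KRN.lean`). Proof. All `e_v = 0`: `α ∈ SelSet a b 1` by SLC (`T = ∅`, `m = 1`), so `Rep 1 α z` (BR `ex`);
`Triv 1 v z` for all `v ∈ Q` by TVS; so `z = 0` and `α` is a square by RP0. -/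
def SpecKRN : Prop :=
  ∀ (F : Type) [Field F] [NumberField F] (k : ℕ) (cl : 𝓞 F × 𝓞 F)
    (Q P : Finset (HeightOneSpectrum (𝓞 F))) (a b : 𝓞 F), 0 < k → 6 ∣ k →
    Act k Q → Cmp k Q P → (a, b) ∈ Fam k cl Q P →
    (∀ z : Sel 2 (cN a b 1), (∀ v ∈ Q, TrN 1 v z) → z = 0) →
    ∀ α ∈ Wg k Q a b, (∀ v ∈ Q, ee v α = 0 ∧ ss v α = 0) → IsSquare α

/-- **WGR.** The subgroup `W` of the vectors of coordinates, for good `(a, b)` (port of `PR/WGR.lean`, with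
WCT instead of SU). -/
def SpecWGR : Prop :=
  ∀ (F : Type) [Field F] [NumberField F] (k : ℕ) (cl : 𝓞 F × 𝓞 F)
    (Q P : Finset (HeightOneSpectrum (𝓞 F))) (a b : 𝓞 F), 0 < k → 6 ∣ k →
    Act k Q → Cmp k Q P → (a, b) ∈ Fam k cl Q P →
    (∀ z : Sel 2 (cN a b 1), (∀ v ∈ Q, TrN 1 v z) → z = 0) →
    ∃ W : AddSubgroup ({v // v ∈ Q} → ZMod 2 × ZMod 2),
      (∀ w, w ∈ W ↔ ∃ α ∈ Wg k Q a b, ∀ v, w v = (ee v.1 α, ss v.1 α)) ∧
      (∀ w ∈ W, ∑ v, (w v).1 * (w v).2 = 0) ∧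
      2 ^ Fintype.card {v // v ∈ Q} ≤ Nat.card W

/-- **CRD.** For good `(a, b)` the Selmer group of the twist is counted by vectors (port of
`PR/CRD.lean`). -/
def SpecCRD : Prop :=
  ∀ (F : Type) [Field F] [NumberField F] (k : ℕ) (cl : 𝓞 F × 𝓞 F)
    (Q P : Finset (HeightOneSpectrum (𝓞 F))) (a b : 𝓞 F), 0 < k → 6 ∣ k →
    Act k Q → Cmp k Q P → (a, b) ∈ Fam k cl Q P →
    (∀ z : Sel 2 (cN a b 1), (∀ v ∈ Q, TrN 1 v z) → z = 0) →
    ∀ (T : Finset (HeightOneSpectrum (𝓞 F))) (m : ℕ), T ⊆ Q → Neu k P m →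
    Nat.card (Sel 2 (cN a b (m * pr T))) =
      {w : {v // v ∈ Q} → ZMod 2 × ZMod 2 |
        (∃ α ∈ Wg k Q a b, ∀ v, w v = (ee v.1 α, ss v.1 α)) ∧
        (∀ v, v.1 ∉ T → (w v).1 = 0) ∧ ∀ v, v.1 ∈ T → (w v).2 = 0}.ncard

/-- **SFN.** Finiteness of the Selmer groups, from row 169 (`SEL/All.lean`: `SpecMAIN`, a box
containing `(a D^2, b D^3)`), and `z + z = 0` (port of `PR/SFN.lean`). -/
def SpecSFN : Prop :=
  ∀ (F : Type) [Field F] [NumberField F] (a b : 𝓞 F) (D : ℕ), dsc a b ≠ 0 → 0 < D →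
    Finite (Sel 2 (cN a b D)) ∧ ∀ z : Sel 2 (cN a b D), z + z = 0

/-- **TRF.** SpecTRA (port of `PR/TRF.lean`): SFN, TVS, HAP, BR. -/
def SpecTRF : Prop := SpecTRA

/-- **STW.** SpecSTP (port of `PR/STF.lean`; file `PF/STW.lean`, theorem `specSTW`).
Proof. First part: CRD for `m` and for `1`: the same set. Second part: WGR, `PR.SpecLAL` with `ι = Q`
(subtype), `S` = the elements in `T`; the sets of LAL are those of CRD for `T` and `insert v T`. The condition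
`∀ w ∈ W_S, (w v).2 = 0` is `∀ z, TrN z` by TVS. -/
def SpecSTW : Prop := SpecSTP

end Pool.Agent.Lib.MP_8cb858_nt.PF
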