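import Pool.Agent.Lib.MP_8cb858_nt.PF.SpecO

/-!
# Specs, part C (SU): many global classes which are unit classes outside a finite set of places of `F`

Every Spec is a closed proposition; its doc string contains a complete proof. Module `XXX` = file
`PF/XXX.lean`, theorem `specXXX (hYYY : SpecYYY) .. : SpecXXX` (any Spec of `SpecO`, `SpecS` may be a
hypothesis), own lemmas in the namespace `Pool.Agent.Lib.MP_8cb858_nt.PF.XXXM`.
The corresponding modules over `ℚ` are `PR/{IRR,UNT,PRJ,PGN,CNT,APX,DNM,ORD,EVU,SU}.lean`.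

`L/F` is an extension of number fields, `𝓞 L` is an algebra over `𝓞 F` (`inst_ringOfIntegersAlgebra`;
finite, torsion free, integral: the instances exist). For an ideal `A` of `𝓞 F` the extended ideal is
`A.map (algebraMap (𝓞 F) (𝓞 L))`, for an ideal `I` of `𝓞 L` the relative norm is
`Ideal.relNorm (𝓞 F) I` (a homomorphism of monoids with zero; `relNorm_algebraMap`,
`relNorm_singleton`, `relNorm_eq_pow_of_isMaximal`, `absNorm_relNorm`, `relNorm_mono`,
`relNorm_eq_bot_iff` in Mathlib, file `RingTheory/Ideal/Norm/RelNorm.lean`). If `f = X^3 + a X + b` is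
irreducible over `F` then `Lk a b` is a number field (instance below, from
`Fact (Irreducible (fpol a b))`), and `algebraMap F (Lk a b) = AdjoinRoot.of _`.
-/

namespace Pool.Agent.Lib.MP_8cb858_nt.PF

open Polynomial NumberField IsDedekindDomain Pool.Agent.Lib.MP_8cb858_nt.SEL
open scoped Classical WithZero

noncomputable instance instFiniteLk {F : Type} [Field F] {a b : F} : Module.Finite F (Lk a b) :=
  (AdjoinRoot.powerBasis' (fpol_monic a b)).finite

noncomputable instance instNumberFieldLk {F : Type} [Field F] [NumberField F] {a b : F}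
    [Fact (Irreducible (fpol a b))] : NumberField (Lk a b) :=
  NumberField.of_module_finite F (Lk a b)

/-- The ideal of `𝓞 L` generated by an ideal of `𝓞 F`. -/
noncomputable abbrev xt {F : Type} (L : Type) [Field F] [NumberField F] [Field L] [NumberField L]
    [Algebra F L] (A : Ideal (𝓞 F)) : Ideal (𝓞 L) :=
  A.map (algebraMap (𝓞 F) (𝓞 L))

/-- **SIR** (60 lines). `f` is irreducible over `F` if it has no root modulo a place.
Proof. A root `r` in `F` of the monic polynomial with integral coefficients is integral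
(`isIntegral_of_...` : the polynomial `X^3 + C a X + C b` over `𝓞 F`, then integral over `ℤ` by
transitivity, or `isInteger_of_is_root_of_monic`), so `r = x` with `x` in `𝓞 F` and `x^3 + a x + b = 0`
is in `w`, a contradiction. A monic polynomial of degree 3 over a field without root is irreducible
(`Polynomial.Monic.irreducible_iff_roots_eq_zero_of_degree_le_three`). Finrank:
`(AdjoinRoot.powerBasis' (fpol_monic _ _)).finrank`. See `PR/IRR.lean`. -/
def SpecSIR : Prop :=
  ∀ (F : Type) [Field F] [NumberField F] (a b : 𝓞 F) (w : HeightOneSpectrum (𝓞 F)),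
    (∀ x : 𝓞 F, x ^ 3 + a * x + b ∉ w.asIdeal) →
    Irreducible (fpol (a : F) (b : F)) ∧ Module.finrank F (Lk (a : F) (b : F)) = 3

/-- **SRR** (60 lines). A real embedding of `F` extends to `Lk a b` (no irreducibility needed).
Proof. With `A = φ a`, `B = φ b`, the continuous function `t ↦ t^3 + A t + B` is positive at
`t = M` and negative at `t = -M`, `M = 1 + |A| + |B|`, so it has a real root `t` (intermediate value
theorem). `ψ = AdjoinRoot.lift φ t _` (`eval₂_fpol`). -/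
def SpecSRR : Prop :=
  ∀ (F : Type) [Field F] (a b : F) (φ : F →+* ℝ), ∃ ψ : Lk a b →+* ℝ, ∀ x : F,
    ψ (AdjoinRoot.of _ x) = φ x

/-- **SRP** (150 lines). The number of infinite places of a cubic extension.
Proof. Let `r₁`, `r₂` be the numbers of real and complex places: `r₁ + 2 r₂` is the degree
(`InfinitePlace.card_add_two_mul_card_eq_rank`), `r₁ + r₂` is the number of infinite places
(`InfinitePlace.card_eq_nrRealPlaces_add_nrComplexPlaces`), and `r₁` is the number of real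
embeddings (`InfinitePlace.card_real_embeddings` : embeddings into `ℂ` with
`ComplexEmbedding.IsReal`). A real embedding `φ : F → ℂ` comes from `F → ℝ`
(`ComplexEmbedding.IsReal.embedding`); choose the extension `ψ : L → ℝ` and compose with
`Complex.ofRealHom`: an injection from the real embeddings of `F` to the real embeddings of `L`
(restricting gives back `φ`). So `r₁(F) ≤ r₁(L)`. `[L:ℚ] = 3 [F:ℚ]` (`Module.finrank_mul_finrank`).
With `n = [F:ℚ]`: `2 (r₁ + r₂)(L) = 3n + r₁(L) ≥ 3n + r₁(F) = 2n + 2 (r₁ + r₂)(F)`. -/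
def SpecSRP : Prop :=
  ∀ (F L : Type) [Field F] [NumberField F] [Field L] [NumberField L] [Algebra F L],
    Module.finrank F L = 3 →
    (∀ φ : F →+* ℝ, ∃ ψ : L →+* ℝ, ∀ x : F, ψ (algebraMap F L x) = φ x) →
    Module.finrank ℚ F + Fintype.card (InfinitePlace F) ≤ Fintype.card (InfinitePlace L)

/-- **SUI** (200 lines). The index of the squares in the unit group of a number field.
Proof. Let `r = Units.rank K`, so `r + 1` is the number of infinite places (`Units.rank` is
`card - 1`, and there is an infinite place). The torsion group is cyclic (instance) of even order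
(`Units.even_torsionOrder`; it contains `-1`); let `ζ₀` be a generator. Consider
`s : Fin 2 × (Fin r → Fin 2) → (𝓞 K)ˣ ⧸ squares`, `(e, k) ↦` class of `ζ₀^e ∏ (fundSystem i)^(k i)`. It is
surjective: by `Units.exist_unique_eq_mul_prod` every unit is `ζ₀^j ∏ (fundSystem i)^(m i)` with `j`
natural, `m i` integers; reduce all exponents modulo 2. It is injective: if
`ζ₀^e ∏ (fundSystem i)^(k i) = ζ₀^e' ∏ (fundSystem i)^(k' i) * γ^2`, write `γ = ζ₀^j ∏ (fundSystem i)^(m i)`; the
uniqueness gives `k i = k' i + 2 m i`, so `k = k'` (both in `{0,1}`), and `ζ₀^e = ζ₀^(e' + 2 j)`, so `e` and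
`e' + 2 j` are congruent modulo the even number `torsionOrder`, and `e = e'`. So the index is
`2 * 2^r = 2^(r+1)`. -/
def SpecSUI : Prop :=
  ∀ (K : Type) [Field K] [NumberField K],
    (powMonoidHom 2 : (𝓞 K)ˣ →* (𝓞 K)ˣ).range.index = 2 ^ Fintype.card (InfinitePlace K)

/-- **SUE** (150 lines; from SUI). Units of square norm.
Proof. The norm gives a homomorphism `N : (𝓞 L)ˣ → (𝓞 F)ˣ` (`Units.map` of `RingOfIntegers.norm F`, or of
`Algebra.intNorm`; compatible with `Algebra.norm F` on `L`). It maps squares to squares, so it induces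
`N' : U_L ⧸ squares → U_F ⧸ squares`, finite groups of orders `2^(r_L)`, `2^(r_F)` by SUI
(`Subgroup.index` = `Nat.card` of the quotient), where `r_L`, `r_F` are the numbers of infinite places.
`|ker N'| * |range N'| = 2^(r_L)`, `|range N'| ≤ 2^(r_F)`, so `|ker N'| ≥ 2^(r_L - r_F) ≥ 2^n`. Choose `2^n`
different elements of `ker N'` and representatives `E i`: `N (E i)` is a square in `(𝓞 F)ˣ`, so in `F`. If
`E i * E j = γ^2` with `γ` in `L`, then `γ` is integral, a unit of `𝓞 L` (its square is one), so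
`E i = E j * (γ (E j)⁻¹)^2` and the classes are equal, so `i = j`. -/
def SpecSUE : Prop :=
  ∀ (F L : Type) [Field F] [NumberField F] [Field L] [NumberField L] [Algebra F L],
    Module.finrank ℚ F + Fintype.card (InfinitePlace F) ≤ Fintype.card (InfinitePlace L) →
    ∃ E : Fin (2 ^ Module.finrank ℚ F) → (𝓞 L)ˣ,
      (∀ i, IsSquare (Algebra.norm F ((E i : 𝓞 L) : L))) ∧
      ∀ i j, i ≠ j → ¬ IsSquare (((E i : 𝓞 L) : L) * ((E j : 𝓞 L) : L))

/-- **SPQ** (250 lines; from NRM, COO). The two coprime factors of a place with a simple root.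
Proof. Write `f(x) = x^3 + a x + b`, `f'(x) = 3 x^2 + a`, `𝔳 = xt L v.asIdeal`, `L = Lk a b`. We may assume
`f(x) ∉ v^2`: otherwise replace `x` by `x + π`, `π ∈ v`, `π ∉ v^2` (exists since `v^2 ≠ v`):
`f(x + π) = f(x) + f'(x) π + 3 x π^2 + π^3`, and `f'(x) π ∉ v^2` (`f'(x)` is invertible modulo `v`: if
`f'(x) π ∈ v^2`, multiply by an inverse modulo `v`, or use that `v^2` is primary), `f'(x + π) ≡ f'(x)`.
`θ = th a b` is an element `ϑ` of `𝓞 L`. Put `g = ϑ^2 + x ϑ + (x^2 + a)` : `(ϑ - x) g = - f(x)` (because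
`ϑ^3 = - a ϑ - b`) and `g - f'(x) = (ϑ - x)(ϑ + 2 x)`. Let `P = 𝔳 + (ϑ - x)`, `Q = 𝔳 + (g)`.
`P + Q = 1`: it contains `𝔳`, and `f'(x) = g - (ϑ - x)(ϑ + 2x)`; in `𝓞 F` the ideal `v + (f'(x))` is `1` (`v` is
maximal). `P Q = 𝔳`: `P Q ≤ 𝔳` because `(ϑ - x) g = - f(x) ∈ 𝔳`; and `𝔳 = 𝔳 (P + Q) ≤ Q P + P Q`
(`𝔳 ≤ P`, `𝔳 ≤ Q`). Norms: `relNorm P * relNorm Q = v^3` (`relNorm_algebraMap`), so `relNorm P = v^i`,
`relNorm Q = v^j`, `i + j = 3` (`(dvd_prime_pow ..)`). `P ∣ (ϑ - x)`, so `v^i ∣ (N(ϑ - x)) = (f(x))`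
(`N(ϑ - x) = - f(x)`, NRM `lin` with `D = -1`, or `frm`), hence `i ≤ 1`. `Q ∣ (g)`, so
`v^j ∣ (N g)`, and `N(ϑ - x) N(g) = N(- f(x)) = - f(x)^3`, so `N(g) = f(x)^2` (`f(x) ≠ 0` as `f(x) ∉ v^2`),
whose `v`-multiplicity is 2: `j ≤ 2`. So `j = 2`. -/
def SpecSPQ : Prop :=
  ∀ (F : Type) [Field F] [NumberField F] (a b : 𝓞 F) [Fact (Irreducible (fpol (a : F) (b : F)))]
    (v : HeightOneSpectrum (𝓞 F)) (x : 𝓞 F),
    x ^ 3 + a * x + b ∈ v.asIdeal → 3 * x ^ 2 + a ∉ v.asIdeal →
    ∃ P Q : Ideal (𝓞 (Lk (a : F) (b : F))), P * Q = xt (Lk (a : F) (b : F)) v.asIdeal ∧ P ⊔ Q = ⊤ ∧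
      Ideal.relNorm (𝓞 F) Q = v.asIdeal ^ 2

/-- **SPX** (150 lines). An ideal of relative norm `v^2` which is not a square.
Proof. `Q ≠ ⊤` (`relNorm ⊤ = ⊤ ≠ v^2`). Let `w` be a maximal ideal containing `Q`; it contains `xt L v`
(`P Q ≤ Q`), which is not zero, so it is a height one prime, over `v` (`w.comap` contains the maximal
ideal `v`). `relNorm w = v^s`, `s = inertiaDeg` positive (`relNorm_eq_pow_of_isMaximal`,
`inertiaDeg_pos`), and `w ∣ Q`, so `v^s ∣ v^2` and `s ≤ 2`. `relNorm P * v^2 = relNorm (xt L v) = v^3`, so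
`relNorm P = v`. If `s = 2` put `J = w`; if `s = 1` put `J = P * w` (`relNorm J = v * v`). `xt L v ≤ J`:
`P Q ≤ Q ≤ w`, resp. `P Q ≤ P w`. `J ≤ w`. `¬ J ≤ w^2`: in the first case `w ≤ w^2` is impossible (`w ≠ ⊥, ⊤`);
in the second `w^2 ∣ P w` gives `w ∣ P`, so `⊤ = P + Q ≤ w`, impossible. -/
def SpecSPX : Prop :=
  ∀ (F L : Type) [Field F] [NumberField F] [Field L] [NumberField L] [Algebra F L]
    (v : HeightOneSpectrum (𝓞 F)) (P Q : Ideal (𝓞 L)), Module.finrank F L = 3 →
    P * Q = xt L v.asIdeal → P ⊔ Q = ⊤ → Ideal.relNorm (𝓞 F) Q = v.asIdeal ^ 2 →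
    ∃ (J : Ideal (𝓞 L)) (w : HeightOneSpectrum (𝓞 L)), xt L v.asIdeal ≤ J ∧
      Ideal.relNorm (𝓞 F) J = v.asIdeal ^ 2 ∧ J ≤ w.asIdeal ∧ ¬ J ≤ w.asIdeal ^ 2

/-- **SPG** (200 lines). Pigeonhole in the relative class group.
Proof. Let `H` be the set of the classes `mk0 (xt L A)`, `A` a nonzero ideal of `𝓞 F`, in the class group of
`𝓞 L`; it is closed under multiplication and contains 1, so it is a subgroup (the class group is
finite: the inverse of `c` is `c^(h-1)`). Let `Q` be the quotient of the class group by `H`; every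
element of `Q` is represented by a nonzero ideal `I_c` (`ClassGroup.mk0_surjective`). The map
`(T, c) ↦ [(∏_{k ∈ T} J k) * I_c^2]` from `Finset (Fin m) × Q`, a set with `2^m |Q|` elements, to `Q` has a
fibre with at least `2^m` elements (`Fintype.exists_le_card_fiber_of_mul_le_card`). Enumerate `2^m`
different elements `(T i, c i)` of it, `I i = I_{c i}`, and let `(T0, I0)` be one of them. Equal classes in
`Q`: `mk0 (M i) = mk0 (xt L (C i)) * mk0 M0` for some `C i`; `ClassGroup.mk0_eq_mk0_iff` gives nonzero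
`x i, y i`. Last property: if `T i = T j` then `c i ≠ c j`, and `(g) (xt A) (I i) = (h) (xt B) (I j)` would give
`c i = c j` in `Q`. See `PR/PGN.lean`. -/
def SpecSPG : Prop :=
  ∀ (F L : Type) [Field F] [NumberField F] [Field L] [NumberField L] [Algebra F L] (m : ℕ)
    (J : Fin m → Ideal (𝓞 L)), (∀ k, J k ≠ ⊥) →
    ∃ (T : Fin (2 ^ m) → Finset (Fin m)) (I : Fin (2 ^ m) → Ideal (𝓞 L)) (x y : Fin (2 ^ m) → 𝓞 L)
      (C : Fin (2 ^ m) → Ideal (𝓞 F)) (T0 : Finset (Fin m)) (I0 : Ideal (𝓞 L)), I0 ≠ ⊥ ∧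
      (∀ i, I i ≠ ⊥ ∧ x i ≠ 0 ∧ y i ≠ 0 ∧ C i ≠ ⊥ ∧
        Ideal.span {x i} * ((∏ k ∈ T i, J k) * I i ^ 2) =
          Ideal.span {y i} * (xt L (C i) * ((∏ k ∈ T0, J k) * I0 ^ 2))) ∧
      ∀ i j, i ≠ j → T i = T j → ∀ (g h : 𝓞 L) (A B : Ideal (𝓞 F)), g ≠ 0 → h ≠ 0 → A ≠ ⊥ → B ≠ ⊥ →
        Ideal.span {g} * (xt L A * I i) ≠ Ideal.span {h} * (xt L B * I j)

/-- **SCT** (350 lines; from SPG). Many elements whose ideals are squares up to the `J k` and ideals of `F`.
(The places `q k` need not be different.)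
Proof. `J k ≠ ⊥` (it contains `xt (q k)`). Take `T, I, x, y, C, T0, I0` from SPG, `α i = y i / x i`, and write
`M i = (∏_{k ∈ T i} J k) * I i^2`, `M0 = (∏_{k ∈ T0} J k) * I0^2`: `(x i) M i = (y i) xt(C i) M0`.
`N` = relNorm: `N(M i) = R i^2`, `N(M0) = R0^2` with the ideals `R i = (∏_{k ∈ T i} q k) * N(I i)` of `𝓞 F`.
EVEN: let `w` contain no `xt (q k)`. Multiplicities of `w` (they are additive for products of nonzero
ideals). `w` does not contain `J k ≥ xt (q k)`, so the multiplicities of `w` in `M i`, `M0` are even. Norm: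
`(N(x i)) R i^2 = (N(y i)) (C i)^3 R0^2` (intNorm of `x i`, `y i`; `relNorm_algebraMap`: exponent 3). So
`(α N(α)) = (y i)(N y i)/((x i)(N x i))` and
`(x i)(N x i) M i xt(R i)^2 xt(C i)^4 ...`: precisely, multiplying the two relations
`(x i) M i = (y i) xt(C i) M0` and `xt(N x i) xt(R i)^2 = xt(N y i) xt(C i)^3 xt(R0)^2`:
`(x i N x i) * (M i xt(R i)^2) = (y i N y i) * (M0 xt(R0)^2 xt(C i)^4)`; the multiplicities of `w` in the two
right factors are even, so those in `(x i N x i)` and `(y i N y i)` have the same parity, and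
`w.valuation (α i * N(α i)) = exp(mult(x i N x i) - mult(y i N y i))` is a square.
DISTINCT: let `i ≠ j` and `α i = u c α j γ^2`. `c ≠ 0`, `γ ≠ 0`; write `c = r/s`, `r, s` in `𝓞 F`, `γ = g/h`,
`g, h` in `𝓞 L`, all nonzero. Then `y i * x j * s * h^2 = u * r * y j * x i * g^2`; take the ideals and
multiply by `xt(C i) xt(C j) M0`; using the two relations and cancelling `(x i)(x j)`:
`M i * xt(C j (s)) * (h)^2 = M j * xt(C i (r)) * (g)^2`. Put `A = C j (s)`, `B = C i (r)`. Taking `N`: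
`A^3 (R i N(h))^2 = B^3 (R j N(g))^2` in `𝓞 F`, so `A B (A R i N(h))^2 = (B^2 R j N(g))^2`, hence
`A R i N(h)` divides `B^2 R j N(g)` (`pow_dvd_pow_iff`, or multiplicities) and `A B = t^2` for an ideal `t`.
Multiply the relation by `xt(B)`: `M i (xt(t) (h))^2 = M j (xt(B) (g))^2`. The multiplicity of `v k` in
`J k` is 1, and in `J l`, `l ≠ k`, it is 0 (hypothesis). So the multiplicity of `v k` in `M i` is odd iff `k ∈ T i`; hence `T i = T j`;
cancel the product of the `J k`: `(I i xt(t) (h))^2 = (I j xt(B) (g))^2`, so `(h) (xt(t) I i) = (g) (xt(B) I j)`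
(ideals of a Dedekind domain), contradicting the last property in SPG. See `PR/CNT.lean`. -/
def SpecSCT : Prop :=
  ∀ (F L : Type) [Field F] [NumberField F] [Field L] [NumberField L] [Algebra F L] (m : ℕ)
    (q : Fin m → HeightOneSpectrum (𝓞 F)) (J : Fin m → Ideal (𝓞 L))
    (v : Fin m → HeightOneSpectrum (𝓞 L)),
    Module.finrank F L = 3 → (∀ k l, k ≠ l → ¬ J l ≤ (v k).asIdeal) →
    (∀ k, xt L (q k).asIdeal ≤ J k) →
    (∀ k, Ideal.relNorm (𝓞 F) (J k) = (q k).asIdeal ^ 2) → (∀ k, J k ≤ (v k).asIdeal) →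
    (∀ k, ¬ J k ≤ (v k).asIdeal ^ 2) →
    ∃ α : Fin (2 ^ m) → L, (∀ i, α i ≠ 0) ∧
      (∀ i (w : HeightOneSpectrum (𝓞 L)), (∀ k, ¬ xt L (q k).asIdeal ≤ w.asIdeal) →
        IsSquare (w.valuation L (α i * algebraMap F L (Algebra.norm F (α i))))) ∧
      ∀ i j, i ≠ j → ∀ (u : (𝓞 L)ˣ) (c : F) (γ : L),
        α i ≠ ((u : 𝓞 L) : L) * algebraMap F L c * α j * γ ^ 2

/-- **SEM** (200 lines). An embedding of `L` into `F_v` gives a place of relative degree one.
Proof. `vv = vv v`, `vv (x) = v.valuation F x` for `x` in `F`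
(`HeightOneSpectrum.valuedAdicCompletion_eq_valuation'`). (1) `vv (ψ z) ≤ 1` for `z` in `𝓞 L` (integral over
`ℤ`; valuation rings are integrally closed, or directly). (2) `P = {z ∈ 𝓞 L : vv (ψ z) < 1}` is a prime
ideal, it contains `xt L v`, so it is a place `w`. (3) For `x` with `vv x ≤ 1` there is `y` in `𝓞 F` with
`vv (x - y) < 1` (NF `dense` in `Top.lean`, or directly), so `𝓞 F → 𝓞 L ⧸ P` is surjective with kernel `v`, the
inertia degree is 1 and `relNorm P = v` (`relNorm_eq_pow_of_isMaximal`). (4) Let `π ∈ v`, `π ∉ v^2`: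
`vv π = exp (-1)`, and `vv (ψ z) ≤ exp (-2)` for `z ∈ P^2`; so `π ∉ P^2`. (5) Valuations: let `x ≠ 0` in `L`,
`w.valuation x = exp (-k)`, `y = x π^(-k)`; `w.valuation π = exp (-1)` by (4), so `w.valuation y = 1` and
`y = r / s` with `r, s` in `𝓞 L`, not in `P` (see `PR/DNM.lean`); so `vv (ψ y) = 1`,
`vv (ψ x) = (vv π)^k = exp (-k)`. -/
def SpecSEM : Prop :=
  ∀ (F L : Type) [Field F] [NumberField F] [Field L] [NumberField L] [Algebra F L]
    (v : HeightOneSpectrum (𝓞 F)) (ψ : L →+* v.adicCompletion F),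
    (∀ x : F, ψ (algebraMap F L x) = algebraMap F (v.adicCompletion F) x) →
    ∃ w : HeightOneSpectrum (𝓞 L), xt L v.asIdeal ≤ w.asIdeal ∧ ¬ xt L v.asIdeal ≤ w.asIdeal ^ 2 ∧
      Ideal.relNorm (𝓞 F) w.asIdeal = v.asIdeal ∧ ∀ x : L, w.valuation L x = vv v (ψ x)

/-- **SED** (80 lines). Different embeddings give different places.
Proof. Let `ψ y ≠ ψ' y`. `F` is dense in `F_v`: there is `c` in `F` with
`vv (ψ y - c) < vv (ψ y - ψ' y)` (`UniformSpace.Completion.denseRange_coe`, and the balls of `Valued.v` are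
open). Then `vv (ψ' y - c) = vv (ψ y - ψ' y)` (the difference of `ψ y - c` and `ψ' y - c` is
`ψ y - ψ' y`), so `vv (ψ (y - c)) < vv (ψ' (y - c))`, but both are `w.valuation (y - c)`. -/
def SpecSED : Prop :=
  ∀ (F L : Type) [Field F] [NumberField F] [Field L] [NumberField L] [Algebra F L]
    (v : HeightOneSpectrum (𝓞 F)) (ψ ψ' : L →+* v.adicCompletion F) (w : HeightOneSpectrum (𝓞 L)),
    (∀ x : F, ψ (algebraMap F L x) = algebraMap F (v.adicCompletion F) x) →
    (∀ x : F, ψ' (algebraMap F L x) = algebraMap F (v.adicCompletion F) x) →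
    (∀ x : L, w.valuation L x = vv v (ψ x)) → (∀ x : L, w.valuation L x = vv v (ψ' x)) → ψ = ψ'

/-- **SEJ** (200 lines; from SEM, SED, SPX). The ideals over a place with `r = nr a b v = 0, 1, 3` roots of
`f` in `F_v`: `2^d = 1 + r`.
Proof. If `t₁ ≠ t₂` are roots then `a = t₁ t₂ - (t₁ + t₂)^2`, `b = t₁ t₂ (t₁ + t₂)` and `t₃ = - t₁ - t₂` is a
root; `t₃ ≠ t₁, t₂` because `t₂ = - 2 t₁` gives `a = - 3 t₁^2`, `b = 2 t₁^3`, `4 a^3 + 27 b^2 = 0`; there is no
other root. So `r` is 0, 1 or 3. A root `t` gives `ψ = AdjoinRoot.lift (algebraMap F F_v) t _`, `ψ θ = t`, so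
different roots give different `ψ`, and by SED different places `w` of SEM. `L = Lk a b`, `[L:F] = 3`.
`r = 0`: `d = 0`. `r = 1`: `d = 1`: `xt L v = w * Q` (`w ∣ xt L v`), `w ⊔ Q = ⊤` (otherwise `Q ≤ w` and
`xt L v ≤ w^2`), `v * relNorm Q = v^3` (`relNorm_algebraMap`), so `relNorm Q = v^2`; SPX. `r = 3`: `d = 2`:
`J = ![w₁ * w₂, w₁ * w₃]`, dual places `![w₂, w₃]`; the `w i` are different maximal ideals dividing `xt L v`,
so `w₁ w₂`, `w₁ w₃` divide `xt L v`; `relNorm (w₁ w₂) = v * v`; `w₂^2 ∤ w₁ w₂`, `w₂ ∤ w₁ w₃`. -/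
def SpecSEJ : Prop :=
  ∀ (F : Type) [Field F] [NumberField F] (a b : 𝓞 F) [Fact (Irreducible (fpol (a : F) (b : F)))]
    (v : HeightOneSpectrum (𝓞 F)), dsc a b ≠ 0 →
    ∃ (d : ℕ) (J : Fin d → Ideal (𝓞 (Lk (a : F) (b : F))))
      (w : Fin d → HeightOneSpectrum (𝓞 (Lk (a : F) (b : F)))),
      2 ^ d = 1 + nr a b v ∧
      (∀ k, xt (Lk (a : F) (b : F)) v.asIdeal ≤ J k) ∧
      (∀ k, Ideal.relNorm (𝓞 F) (J k) = v.asIdeal ^ 2) ∧ (∀ k, J k ≤ (w k).asIdeal) ∧
      (∀ k, ¬ J k ≤ (w k).asIdeal ^ 2) ∧ ∀ k l, k ≠ l → ¬ J l ≤ (w k).asIdeal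

/-- **SAP** (120 lines). An element with even valuations in a finite set of places is a square times a
unit there.
Proof. For `w ∈ W` there is `π_w` in `𝓞 L` with `π_w ∈ w`, `π_w ∉ w^2` and `π_w ∉ w'` for the other
`w' ∈ W` (Chinese remainder theorem, `IsDedekindDomain.exists_forall_sub_mem_ideal` with exponents 2);
so `w.valuation π_w = exp(-1)` and `w'.valuation π_w = 1`. If `w.valuation L α = s_w^2`, `s_w = exp(n_w)`
(not 0 since `α ≠ 0`), put `γ = ∏_{w ∈ W} π_w^{n_w}` (integer powers). The proof of `PR/APX.lean`, with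
`W` instead of the places above `p`. -/
def SpecSAP : Prop :=
  ∀ (L : Type) [Field L] [NumberField L] (W : Finset (HeightOneSpectrum (𝓞 L))) (α : L), α ≠ 0 →
    (∀ w ∈ W, IsSquare (w.valuation L α)) →
    ∃ γ : L, γ ≠ 0 ∧ ∀ w ∈ W, w.valuation L (α * γ ^ 2) = 1

/-- **SDN** (80 lines). A denominator prime to `v`.
Proof. Let `D` be the ideal of all `r` in `𝓞 L` with `r β` in `𝓞 L`. No place `w` over `v` contains `D`:
since `w.valuation β ≤ 1` there are `c ∉ w` and `d` in `𝓞 L` with `c β = d` (see `PR/DNM.lean`; or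
`IsDedekindDomain.HeightOneSpectrum` : valuation `≤ 1` iff in the localization). If
`D.comap (algebraMap (𝓞 F) (𝓞 L)) ≤ v` then by `Ideal.exists_ideal_over_prime_of_isIntegral` there is a
prime `Q ≥ D` with `Q.comap = v`; `Q ≥ xt L v ≠ ⊥`, so `Q` is a place `w` over `v` containing `D`, a
contradiction. So there is `n ∉ v` with `n β` in `𝓞 L`. -/
def SpecSDN : Prop :=
  ∀ (F L : Type) [Field F] [NumberField F] [Field L] [NumberField L] [Algebra F L]
    (v : HeightOneSpectrum (𝓞 F)) (β : L),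
    (∀ w : HeightOneSpectrum (𝓞 L), xt L v.asIdeal ≤ w.asIdeal → w.valuation L β ≤ 1) →
    ∃ n : 𝓞 F, n ∉ v.asIdeal ∧ IsIntegral ℤ (algebraMap F L (n : F) * β)

/-- **SOR** (150 lines; from COO, NRM). `D'` times an integer of `L` has integral coordinates.
Proof. `Algebra.discr_mul_isIntegral_mem_adjoin F` for the power basis `AdjoinRoot.powerBasis` of `L`
(`R = 𝓞 F`, generator `θ` integral): `discr F basis • z ∈ adjoin (𝓞 F) {θ}`. By
`Algebra.discr_powerBasis_eq_norm` the discriminant is `- N(f'(θ)) = - N(a + 3 θ^2)` (`minpoly F θ = f`), and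
`N(a + 3θ^2) = 4 a^3 + 27 b^2 = D'` (NRM `frm` with `x = a`, `y = 0`, `z = 3`). The elements of
`adjoin (𝓞 F) {θ}` have coordinates in `𝓞 F` (COO `add`, `mul`; `Algebra.adjoin_induction`). The sign does
not matter. See `PR/ORD.lean`. -/
def SpecSOR : Prop :=
  ∀ (F : Type) [Field F] [NumberField F] (a b : 𝓞 F) [Fact (Irreducible (fpol (a : F) (b : F)))]
    (z : Lk (a : F) (b : F)), IsIntegral ℤ z → ∀ i : ℕ, ∃ c : 𝓞 F,
      ((dsc a b : 𝓞 F) : F) * cf i z = (c : F)

/-- **SEV** (150 lines; from SAP, SDN, SOR, COO). From even valuations above `v` to a unit class at `v`.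
Proof. The set `W` of the places `w` of `L` with `xt L v ≤ w` is finite (they divide the nonzero ideal
`xt L v`; `Ideal.finite_factors`). SAP gives `γ ≠ 0`; put `β = α γ^2`: `w.valuation β = 1` for `w ∈ W`, and the
same for `β⁻¹`. SDN and SOR: `n β` is integral, `n ∉ v`, so `D' n cf i β = cf i (D' ... n β)` is in `𝓞 F` for
all `i` (`cf i` is `F`-linear), and `D' n ∉ v`, so `v.valuation F (cf i β) ≤ 1`; the same for `β⁻¹`. Take
`g = up γ`, `h = up β`, `h' = up β⁻¹` (`up` is the ring homomorphism `upr`): `h h' = 1`, `g` is a unit, and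
`cf i (up β) = algebraMap (cf i β)` (COO `cfu`) has `vv v = v.valuation F (cf i β) ≤ 1`
(`HeightOneSpectrum.valuedAdicCompletion_eq_valuation'`). See `PR/EVU.lean`. -/
def SpecSEV : Prop :=
  ∀ (F : Type) [Field F] [NumberField F] (a b : 𝓞 F) [Fact (Irreducible (fpol (a : F) (b : F)))]
    (v : HeightOneSpectrum (𝓞 F)) (α : Lk (a : F) (b : F)), α ≠ 0 → dsc a b ∉ v.asIdeal →
    (∀ w : HeightOneSpectrum (𝓞 (Lk (a : F) (b : F))),
      xt (Lk (a : F) (b : F)) v.asIdeal ≤ w.asIdeal →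
      IsSquare (w.valuation (Lk (a : F) (b : F)) α)) →
    Ev (vv v) (up (v.adicCompletion F) α)

end Pool.Agent.Lib.MP_8cb858_nt.PF
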