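import Pool.Agent.Lib.MP_8cb858_nt.SEL.LO1
import Pool.Agent.Lib.MP_8cb858_nt.PU.MMA
import Pool.Agent.Lib.MP_8cb858_nt.PF.DUN
import Pool.Agent.Lib.MP_8cb858_nt.PF.RF.SQV
import Pool.Agent.Lib.MP_8cb858_nt.SEL.BX1
import Pool.Agent.Lib.MP_8cb858_nt.PF.EPC
import Pool.Agent.Lib.MP_8cb858_nt.SEL.INT
import Pool.Agent.Lib.MP_8cb858_nt.SEL.LO3
import Pool.Agent.Lib.MP_8cb858_nt.SEL.RE0
import Pool.Agent.Lib.MP_8cb858_nt.SEL.RE2
import Pool.Agent.Lib.MP_8cb858_nt.SEL.TRV
import Pool.Agent.Lib.MP_8cb858_nt.SEL.WEI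
import Pool.Agent.Lib.MP_8cb858_nt.PF.TOC

section
set_option autoImplicit false

/-!
# LOW: lower bound for the number of curves in a box
-/

namespace Pool.Agent.Lib.MP_8cb858_nt.SEL

open NumberField IsDedekindDomain
open scoped Classical

universe u

open CNUM in
theorem specLOW (hCNL : SpecCNL.{u}) : SpecLOW.{u} := by
  intro F _ _
  obtain ⟨c, hc, hC⟩ := hCNL F
  refine ⟨c ^ 2 / 3, by positivity, fun ρ hρ => ?_⟩
  have hρ0 : ∀ v, 0 ≤ ρ v := fun v => by linarith [hρ v]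
  set SA : Set (𝓞 F) := box F (fun v => ρ v ^ 2) with hSA
  set SB : Set (𝓞 F) := box F (fun v => ρ v ^ 3) with hSB
  have fA : SA.Finite := box_finite _
  have fB : SB.Finite := box_finite _
  have hfin : (Bx F ρ).Finite := by
    refine (fA.prod fB).subset ?_
    rintro ⟨a, b⟩ ⟨_, h⟩
    exact ⟨fun v => (h v).1, fun v => (h v).2⟩
  refine ⟨hfin, ?_⟩
  have hA : c * vol ρ ^ 2 ≤ (SA.ncard : ℝ) := by
    have := hC (fun v => ρ v ^ 2) (fun v => one_le_pow₀ (hρ v))
    rwa [vol_pow] at this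
  have hB : c * vol ρ ^ 3 ≤ (SB.ncard : ℝ) := by
    have := hC (fun v => ρ v ^ 3) (fun v => one_le_pow₀ (hρ v))
    rwa [vol_pow] at this
  have hB3 : 3 ≤ SB.ncard := by
    have h1 : ({0, 1, -1} : Finset (𝓞 F)).card = 3 := by
      rw [Finset.card_eq_three]
      refine ⟨0, 1, -1, zero_ne_one, ?_, ?_, rfl⟩
      · exact (neg_ne_zero.mpr one_ne_zero).symm
      · intro h
        have h2 : (2 : 𝓞 F) = 0 := by linear_combination h
        exact two_ne_zero h2
    rw [← h1, ← Set.ncard_coe_finset]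
    refine Set.ncard_le_ncard ?_ fB
    intro x hx v
    have h2 : v (x : F) ≤ 1 := by
      simp only [Finset.coe_insert, Finset.coe_singleton, Set.mem_insert_iff,
        Set.mem_singleton_iff] at hx
      rcases hx with rfl | rfl | rfl
      · simp
      · simp
      · rw [← InfinitePlace.norm_embedding_eq]
        simp
    exact h2.trans (one_le_pow₀ (hρ v))
  -- the good `b` for a given `a`
  have hgood : ∀ a ∈ SA, (SB.ncard : ℝ) / 3 ≤
      ({b : 𝓞 F | (a, b) ∈ Bx F ρ}.ncard : ℝ) := by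
    intro a ha
    set G : Set (𝓞 F) := {b : 𝓞 F | (a, b) ∈ Bx F ρ} with hG
    set Z : Set (𝓞 F) := {b : 𝓞 F | 4 * a ^ 3 + 27 * b ^ 2 = 0} with hZ
    have hsub : SB ⊆ G ∪ Z := by
      intro b hb
      by_cases h : 4 * a ^ 3 + 27 * b ^ 2 = 0
      · exact Or.inr h
      · exact Or.inl ⟨h, fun v => ⟨ha v, hb v⟩⟩
    have hZ2 : Z.Finite ∧ Z.ncard ≤ 2 := by
      by_cases hne : Z.Nonempty
      · obtain ⟨b0, hb0⟩ := hne
        have h3 : Z ⊆ (({b0, -b0} : Finset (𝓞 F)) : Set (𝓞 F)) := by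
          intro b hb
          have h4 : (27 : 𝓞 F) * ((b - b0) * (b + b0)) = 0 := by
            have e1 : 4 * a ^ 3 + 27 * b ^ 2 = 0 := hb
            have e2 : 4 * a ^ 3 + 27 * b0 ^ 2 = 0 := hb0
            linear_combination e1 - e2
          have h5 : (27 : 𝓞 F) ≠ 0 := by norm_num
          rcases mul_eq_zero.1 ((mul_eq_zero.1 h4).resolve_left h5) with h6 | h6
          · simp [sub_eq_zero.1 h6]
          · simp [eq_neg_of_add_eq_zero_left h6]
        refine ⟨(Finset.finite_toSet _).subset h3, ?_⟩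
        refine (Set.ncard_le_ncard h3 (Finset.finite_toSet _)).trans ?_
        rw [Set.ncard_coe_finset]
        exact Finset.card_le_two
      · rw [Set.not_nonempty_iff_eq_empty] at hne
        rw [hne]
        simp
    have hGf : G.Finite := fB.subset fun b hb v => (hb.2 v).2
    have h7 : SB.ncard ≤ G.ncard + Z.ncard :=
      (Set.ncard_le_ncard hsub (hGf.union hZ2.1)).trans (Set.ncard_union_le _ _)
    have h8 : SB.ncard ≤ 3 * G.ncard := by
      have := hZ2.2
      omega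
    have h9 : (SB.ncard : ℝ) ≤ 3 * (G.ncard : ℝ) := by exact_mod_cast h8
    linarith
  -- sum over `a`
  have hsum : ∑ a ∈ fA.toFinset, {b : 𝓞 F | (a, b) ∈ Bx F ρ}.ncard ≤ (Bx F ρ).ncard := by
    have e1 : ∑ a ∈ fA.toFinset, {b : 𝓞 F | (a, b) ∈ Bx F ρ}.ncard =
        ∑ a ∈ fA.toFinset, (hfin.toFinset.filter (fun q => q.1 = a)).card := by
      refine Finset.sum_congr rfl fun a _ => ?_
      rw [← Set.ncard_coe_finset]
      refine Set.ncard_congr (fun b _ => (a, b)) ?_ ?_ ?_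
      · intro b hb
        simp only [Finset.coe_filter, Set.Finite.mem_toFinset]
        exact ⟨hb, rfl⟩
      · intro b b' _ _ h
        exact (Prod.mk.inj h).2
      · rintro ⟨a', b⟩ h
        simp only [Finset.coe_filter, Set.Finite.mem_toFinset] at h
        obtain ⟨h1, h2⟩ := h
        simp only at h2
        subst h2
        exact ⟨b, h1, rfl⟩
    rw [e1, Set.ncard_eq_toFinset_card _ hfin]
    have hmap : Set.MapsTo (Prod.fst : 𝓞 F × 𝓞 F → 𝓞 F) (hfin.toFinset : Set (𝓞 F × 𝓞 F))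
        (fA.toFinset : Set (𝓞 F)) := by
      intro q hq
      rw [Finset.mem_coe, Set.Finite.mem_toFinset] at hq
      rw [Finset.mem_coe, Set.Finite.mem_toFinset]
      exact fun v => (hq.2 v).1
    exact (Finset.card_eq_sum_card_fiberwise hmap).ge
  have hsum' : ∑ a ∈ fA.toFinset, ({b : 𝓞 F | (a, b) ∈ Bx F ρ}.ncard : ℝ) ≤
      ((Bx F ρ).ncard : ℝ) := by exact_mod_cast hsum
  refine le_trans ?_ hsum'
  calc c ^ 2 / 3 * vol ρ ^ 5 = (c * vol ρ ^ 2) * ((c * vol ρ ^ 3) / 3) := by ring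
    _ ≤ (SA.ncard : ℝ) * ((SB.ncard : ℝ) / 3) := by
        have hv : 0 < vol ρ := vol_pos fun v => lt_of_lt_of_le one_pos (hρ v)
        exact mul_le_mul hA (by linarith) (by positivity) (Nat.cast_nonneg _)
    _ = ∑ _a ∈ fA.toFinset, (SB.ncard : ℝ) / 3 := by
        rw [Finset.sum_const, nsmul_eq_mul, Set.ncard_eq_toFinset_card _ fA]
    _ ≤ _ := Finset.sum_le_sum fun a ha => hgood a ((Set.Finite.mem_toFinset _).1 ha)

end Pool.Agent.Lib.MP_8cb858_nt.SEL
end

section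
/-!
Row 169: every Spec without hypotheses.
-/
namespace Pool.Agent.Lib.MP_8cb858_nt.SEL

universe u w

theorem hWEI : SpecWEI.{u} := specWEI
theorem hPSH : SpecPSH.{u} := specPSH
theorem hHAL : SpecHAL.{u} := specHAL
theorem hEMB : SpecEMB.{u, w} := specEMB
theorem hFXD : SpecFXD.{u} := specFXD
theorem hDET : SpecDET.{u} := specDET
theorem hBIG : SpecBIG.{u} := specBIG
theorem hMNK : SpecMNK := specMNK
theorem hFRM : SpecFRM := specFRM
theorem hCNU : SpecCNU.{u} := specCNU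
theorem hCNL : SpecCNL.{u} := specCNL
theorem hGRF : SpecGRF.{u} := specGRF hWEI
theorem hDES : SpecDES.{u} := specDES hWEI hPSH
theorem hBAS : SpecBAS.{u} := specBAS hDES hGRF
theorem hLO1 : SpecLO1.{u} := specLO1 hEMB hFXD hHAL hBAS
theorem hLO2 : SpecLO2.{u} := specLO2 hHAL
theorem hLO3 : SpecLO3.{u} := specLO3 hEMB hFXD hHAL hPSH hBIG hLO1 hLO2
theorem hSLA : SpecSLA.{u} := specSLA
theorem hINT : SpecINT.{u} := specINT hSLA
theorem hARC : SpecARC.{u} := specARC hEMB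
theorem hBCH : SpecBCH.{u} := specBCH hDET
theorem hPRE : SpecPRE.{u} := specPRE hBAS hLO3 hINT hARC hBCH
theorem hTRV : SpecTRV.{u} := specTRV hWEI hPSH
theorem hINJ : SpecINJ.{u} := specINJ hWEI hPSH hDET
theorem hRE0 : SpecRE0.{u} := specRE0 hMNK
theorem hRE1 : SpecRE1.{u} := specRE1 hMNK hFRM
theorem hRE2 : SpecRE2.{u} := specRE2 hMNK hFRM
theorem hCLS : SpecCLS.{u} := specCLS hPRE hRE0 hRE1 hRE2 hBCH hTRV
theorem hBX1 : SpecBX1.{u} := specBX1 hCNU
theorem hBX2 : SpecBX2.{u} := specBX2 hCNU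
theorem hTOT : SpecTOT.{u} := specTOT hCLS hINJ hBX1 hBX2 hCNL
theorem hLOW : SpecLOW.{u} := specLOW hCNL
theorem hMAIN : SpecMAIN.{u} := specMAIN hTOT hLOW

end Pool.Agent.Lib.MP_8cb858_nt.SEL
end

section
/-!
# MP_8cb858_nt, phase 2 (every number field): all Specs of part D, without hypotheses

The bridge `SpecBR` between the Selmer group (cocycles, row 169) and the classes in the cubic
algebra over every number field.
-/
namespace Pool.Agent.Lib.MP_8cb858_nt.PF.All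

open Pool.Agent.Lib.MP_8cb858_nt.SEL

theorem hCOO : SpecCOO := specCOO

theorem hEVA : SpecEVA := specEVA hCOO

theorem hNRM : SpecNRM := specNRM hCOO

theorem hINV : SpecINV := specINV hNRM

theorem hDRT : SpecDRT := specDRT

theorem hDIT : SpecDIT := specDIT hCOO hEVA hNRM hDRT SEL.hFXD

theorem hDSG : SpecDSG := specDSG hDRT SEL.hWEI SEL.hPSH SEL.hHAL

theorem hDRO : SpecDRO := specDRO hDRT

theorem hDMU : SpecDMU := specDMU hEVA hDRT hDRO hDSG hDIT

theorem hDSU : SpecDSU := specDSU hDRT hDIT hDSG SEL.hDES SEL.hFXD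

theorem hDUN : SpecDUN := specDUN hDRT hDRO hDSG

theorem hDIN : SpecDIN := specDIN hEVA hDRT hDIT hDSG hDRO

theorem hDHA : SpecDHA := specDHA hDRT

theorem hDEX : SpecDEX := specDEX hDRT hDIT hDSG

theorem hDR4 : SpecDR4 := specDR4

theorem hDLA : SpecDLA :=
  specDLA hDRT hDIT hDSG hEVA SEL.hHAL SEL.hEMB SEL.hLO1

theorem hDAL : SpecDAL := specDAL hDRT hDIT hDSG hEVA hDHA

/-- The bridge, over every number field. -/
theorem hDFI : SpecBR :=
  specDFI hDEX hDAL hDLA hDR4 SEL.hBIG hDUN hDSU hDIN hDMU hINV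

end Pool.Agent.Lib.MP_8cb858_nt.PF.All
end
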