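import Pool.Agent.Lib.MP_8cb858_nt.PF.SpecA

/-!
# Module BND: boundedness of the elements of norm one
-/

namespace Pool.Agent.Lib.MP_8cb858_nt.PF

open Polynomial NumberField IsDedekindDomain Pool.Agent.Lib.MP_8cb858_nt.SEL
open scoped Classical WithZero

namespace BNDM

/-- the norm form -/
def nf {K : Type} [Field K] (a b : K) (v : Fin 3 → K) : K :=
  v 0 * ((v 0 - a * v 2) ^ 2 + v 1 * (b * v 2 + a * v 1)) +
    b * v 2 * (v 1 * (v 0 - a * v 2) + v 2 * (b * v 2 + a * v 1))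
      - b * v 1 * (v 1 ^ 2 - v 2 * (v 0 - a * v 2))

section val

variable {K : Type} [Field K] {w : Valuation K ℤᵐ⁰}

/-- congruence modulo `{w ≤ ε}` -/
def Cg (w : Valuation K ℤᵐ⁰) (ε : ℤᵐ⁰) (x y : K) : Prop := w x ≤ 1 ∧ w y ≤ 1 ∧ w (x - y) ≤ ε

lemma Cg.add {ε : ℤᵐ⁰} {x y x' y' : K} (h : Cg w ε x y) (h' : Cg w ε x' y') :
    Cg w ε (x + x') (y + y') := by
  refine ⟨w.map_add_le h.1 h'.1, w.map_add_le h.2.1 h'.2.1, ?_⟩
  have : x + x' - (y + y') = (x - y) + (x' - y') := by ring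
  rw [this]
  exact w.map_add_le h.2.2 h'.2.2

lemma Cg.neg {ε : ℤᵐ⁰} {x y : K} (h : Cg w ε x y) : Cg w ε (-x) (-y) := by
  refine ⟨by rw [w.map_neg]; exact h.1, by rw [w.map_neg]; exact h.2.1, ?_⟩
  have : -x - -y = -(x - y) := by ring
  rw [this, w.map_neg]
  exact h.2.2

lemma Cg.sub {ε : ℤᵐ⁰} {x y x' y' : K} (h : Cg w ε x y) (h' : Cg w ε x' y') :
    Cg w ε (x - x') (y - y') := by
  rw [sub_eq_add_neg, sub_eq_add_neg]
  exact h.add h'.neg

lemma Cg.mul {ε : ℤᵐ⁰} {x y x' y' : K} (h : Cg w ε x y) (h' : Cg w ε x' y') :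
    Cg w ε (x * x') (y * y') := by
  refine ⟨by rw [map_mul]; exact mul_le_one' h.1 h'.1,
    by rw [map_mul]; exact mul_le_one' h.2.1 h'.2.1, ?_⟩
  have : x * x' - y * y' = x * (x' - y') + (x - y) * y' := by ring
  rw [this]
  refine w.map_add_le ?_ ?_
  · rw [map_mul]
    calc w x * w (x' - y') ≤ 1 * ε := mul_le_mul' h.1 h'.2.2
      _ = ε := one_mul _
  · rw [map_mul]
    calc w (x - y) * w y' ≤ ε * 1 := mul_le_mul' h.2.2 h'.2.1
      _ = ε := mul_one _

lemma Cg.refl {ε : ℤᵐ⁰} {x : K} (h : w x ≤ 1) : Cg w ε x x :=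
  ⟨h, h, by rw [sub_self, map_zero]; exact zero_le'⟩

lemma Cg.pow {ε : ℤᵐ⁰} {x y : K} (h : Cg w ε x y) (n : ℕ) : Cg w ε (x ^ n) (y ^ n) := by
  induction n with
  | zero => simpa using Cg.refl (w := w) (ε := ε) (x := (1 : K)) (by simp)
  | succ n ih => rw [pow_succ, pow_succ]; exact ih.mul h

lemma nf_cg {ε : ℤᵐ⁰} {a b : K} (ha : w a ≤ 1) (hb : w b ≤ 1) {u v : Fin 3 → K}
    (h : ∀ i, Cg w ε (u i) (v i)) : Cg w ε (nf a b u) (nf a b v) := by
  have ca : Cg w ε a a := Cg.refl ha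
  have cb : Cg w ε b b := Cg.refl hb
  have c0 := h 0
  have c1 := h 1
  have c2 := h 2
  unfold nf
  have e1 := c0.sub (ca.mul c2)
  have e2 := (cb.mul c2).add (ca.mul c1)
  exact ((c0.mul ((e1.pow 2).add (c1.mul e2))).add
    ((cb.mul c2).mul ((c1.mul e1).add (c2.mul e2)))).sub
    ((cb.mul c1).mul ((c1.pow 2).sub (c2.mul e1)))

/-- `v` is a limit point at level `j` -/
def Good (w : Valuation K ℤᵐ⁰) (a b : K) (v : Fin 3 → K) (j : ℕ) : Prop :=
  ∀ m : ℕ, ∃ h : Fin 3 → K, (∀ i, w (h i) ≤ 1) ∧ (∃ i, w (h i) = 1) ∧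
    w (nf a b h) ≤ WithZero.exp (-(m : ℤ)) ∧ ∀ i, w (h i - v i) ≤ WithZero.exp (-(j : ℤ))

lemma exp_le_one (j : ℕ) : WithZero.exp (-(j : ℤ)) ≤ (1 : ℤᵐ⁰) := by
  rw [← WithZero.exp_zero, WithZero.exp_le_exp]
  omega

lemma exp_anti {m n : ℕ} (h : m ≤ n) : WithZero.exp (-(n : ℤ)) ≤ (WithZero.exp (-(m : ℤ)) : ℤᵐ⁰) := by
  rw [WithZero.exp_le_exp]
  omega

lemma good_step (hLFB : SpecLFB) (hw : IsLF w) {a b : K} {v : Fin 3 → K} {j : ℕ}
    (h : Good w a b v j) : ∃ v' : Fin 3 → K, (∀ i, w (v' i - v i) ≤ WithZero.exp (-(j : ℤ))) ∧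
      Good w a b v' (j + 1) := by
  obtain ⟨s, hs⟩ := hLFB.fin hw (j + 1)
  by_contra hcon
  push Not at hcon
  have hbad : ∀ c : Fin 3 → s, ∃ m : ℕ, (∀ i, w ((c i : K) - v i) ≤ WithZero.exp (-(j : ℤ))) →
      ∀ h : Fin 3 → K, (∀ i, w (h i) ≤ 1) → (∃ i, w (h i) = 1) →
      w (nf a b h) ≤ WithZero.exp (-(m : ℤ)) →
        ¬ ∀ i, w (h i - (c i : K)) ≤ WithZero.exp (-((j + 1 : ℕ) : ℤ)) := by
    intro c
    by_cases hc : ∀ i, w ((c i : K) - v i) ≤ WithZero.exp (-(j : ℤ))
    · have h1 := hcon (fun i => (c i : K)) hc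
      unfold Good at h1
      push Not at h1
      obtain ⟨m, hm⟩ := h1
      refine ⟨m, fun _ g hg hp hn hcl => ?_⟩
      obtain ⟨i, hi⟩ := hm g hg hp hn
      exact absurd (hcl i) (not_le.2 hi)
    · exact ⟨0, fun hc' => absurd hc' hc⟩
  choose m hm using hbad
  obtain ⟨M, hM⟩ : ∃ M, ∀ c, m c ≤ M := by
    obtain ⟨M, hM⟩ := (Set.finite_range m).bddAbove
    exact ⟨M, fun c => hM ⟨c, rfl⟩⟩
  obtain ⟨g, hg, hp, hn, hcl⟩ := h M
  have hch : ∀ i, ∃ y ∈ s, w (g i - y) ≤ WithZero.exp (-((j + 1 : ℕ) : ℤ)) := fun i => hs _ (hg i)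
  choose y hy hyc using hch
  refine hm (fun i => ⟨y i, hy i⟩) ?_ g hg hp (hn.trans (exp_anti (hM _))) hyc
  intro i
  have e : y i - v i = (g i - v i) - (g i - y i) := by ring
  show w (y i - v i) ≤ _
  rw [e]
  refine (w.map_sub _ _).trans (max_le (hcl i) ((hyc i).trans (exp_anti (Nat.le_succ j))))

lemma exists_zero (hLFB : SpecLFB) (hw : IsLF w) {a b : K} (ha : w a ≤ 1) (hb : w b ≤ 1)
    (h0 : Good w a b (fun _ => 0) 0) : ∃ x : Fin 3 → K, x ≠ 0 ∧ nf a b x = 0 := by
  choose! f hf1 hf2 using fun (j : ℕ) (v : Fin 3 → K) (h : Good w a b v j) =>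
    good_step hLFB hw h
  let V : ℕ → Fin 3 → K := fun n => Nat.rec (fun _ => 0) (fun j v => f j v) n
  have hV : ∀ n, Good w a b (V n) n := by
    intro n
    induction n with
    | zero => exact h0
    | succ n ih => exact hf2 n (V n) ih
  have hVs : ∀ n i, w (V (n + 1) i - V n i) ≤ WithZero.exp (-(n : ℤ)) := fun n i =>
    hf1 n (V n) (hV n) i
  choose x hx using fun i : Fin 3 => hw.comp (fun n => V n i) (fun n => hVs n i)
  -- approximations
  have happ : ∀ n : ℕ, ∃ h : Fin 3 → K, (∀ i, w (h i) ≤ 1) ∧ (∃ i, w (h i) = 1) ∧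
      w (nf a b h) ≤ WithZero.exp (-(n : ℤ)) ∧ ∀ i, w (x i - h i) ≤ WithZero.exp (-(n : ℤ)) := by
    intro n
    obtain ⟨g, hg, hp, hn, hcl⟩ := hV n n
    refine ⟨g, hg, hp, hn, fun i => ?_⟩
    have e : x i - g i = (x i - V n i) - (g i - V n i) := by ring
    rw [e]
    exact (w.map_sub _ _).trans (max_le (hx i n) (hcl i))
  have hxi : ∀ i, w (x i) ≤ 1 := by
    intro i
    obtain ⟨g, hg, -, -, hcl⟩ := happ 0
    have e : x i = (x i - g i) + g i := by ring
    rw [e]
    exact w.map_add_le ((hcl i).trans (exp_le_one 0)) (hg i)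
  refine ⟨x, ?_, ?_⟩
  · obtain ⟨g, hg, ⟨i, hi⟩, -, hcl⟩ := happ 1
    intro hx0
    have := hcl i
    rw [hx0, Pi.zero_apply, zero_sub, w.map_neg, hi, ← WithZero.exp_zero,
      WithZero.exp_le_exp] at this
    norm_num at this
  · by_contra hne
    have hne' : w (nf a b x) ≠ 0 := (w.ne_zero_iff).2 hne
    obtain ⟨k, hk⟩ : ∃ k : ℤ, w (nf a b x) = WithZero.exp k :=
      ⟨WithZero.log (w (nf a b x)), (WithZero.exp_log hne').symm⟩
    obtain ⟨n, hn⟩ : ∃ n : ℕ, -(n : ℤ) < k := ⟨k.natAbs + 1, by omega⟩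
    obtain ⟨g, hg, -, hng, hcl⟩ := happ n
    have h1 := (nf_cg (w := w) (ε := WithZero.exp (-(n : ℤ))) ha hb
      (u := x) (v := g) (fun i => ⟨hxi i, hg i, hcl i⟩)).2.2
    have e : nf a b x = (nf a b x - nf a b g) + nf a b g := by ring
    have h2 : w (nf a b x) ≤ WithZero.exp (-(n : ℤ)) := by
      rw [e]
      exact w.map_add_le h1 hng
    rw [hk, WithZero.exp_le_exp] at h2
    omega

end val

lemma norm_eq {K : Type} [Field K] {a b : K} (hNRM : SpecNRM) (hCOO : SpecCOO) (α : Lk a b) :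
    Algebra.norm K α = nf a b ![cf 0 α, cf 1 α, cf 2 α] := by
  have h := hCOO.ext α
  have h2 := hNRM.frm (a := a) (b := b) (cf 0 α) (cf 1 α) (cf 2 α)
  rw [← h] at h2
  rw [h2]
  simp [nf]

lemma irr {K : Type} [Field K] {a b : K} (hr : ∀ t : K, t ^ 3 + a * t + b ≠ 0) :
    Irreducible (fpol a b) := by
  have hm := fpol_monic a b
  have hd : (fpol a b).natDegree = 3 := by
    unfold fpol
    compute_degree!
  rw [hm.irreducible_iff_roots_eq_zero_of_degree_le_three (by omega) (by omega)]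
  refine Multiset.eq_zero_of_forall_notMem fun t ht => ?_
  have h1 := (mem_roots'.1 ht).2
  have h2 := eval₂_fpol a b (RingHom.id K) t
  rw [IsRoot.def, eval, h2] at h1
  exact hr t h1


lemma bd (g : ℤᵐ⁰) : ∃ n : ℕ, g ≤ WithZero.exp (n : ℤ) := by
  rcases eq_or_ne g 0 with rfl | hg
  · exact ⟨0, zero_le'⟩
  · refine ⟨(WithZero.log g).natAbs, ?_⟩
    conv_lhs => rw [← WithZero.exp_log hg]
    rw [WithZero.exp_le_exp]
    omega

lemma cf_smul {K : Type} [Field K] {a b : K} (x : K) (h : Lk a b) (i : ℕ) :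
    cf i (AdjoinRoot.of (fpol a b) x * h) = x * cf i h := by
  have e : AdjoinRoot.of (fpol a b) x * h = x • h := by
    rw [Algebra.smul_def]; rfl
  rw [e, cf, cf, map_smul, coeff_smul, smul_eq_mul]

lemma w_two_le {K : Type} [Field K] (w : Valuation K ℤᵐ⁰) : w 2 ≤ 1 := by
  have : (2 : K) = 1 + 1 := by norm_num
  rw [this]
  exact w.map_add_le w.map_one.le w.map_one.le

lemma w_three_le {K : Type} [Field K] (w : Valuation K ℤᵐ⁰) : w 3 ≤ 1 := by
  have : (3 : K) = 2 + 1 := by norm_num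
  rw [this]
  exact w.map_add_le (w_two_le w) w.map_one.le

lemma sq_le_one {x : ℤᵐ⁰} (h : x ^ 2 ≤ 1) : x ≤ 1 := by
  by_contra hc
  push Not at hc
  exact absurd h (not_le.2 (one_lt_pow₀ hc two_ne_zero))

/-- the key bound in the coordinates `(r, z, s)` -/
lemma key {K : Type} [Field K] [CharZero K] {w : Valuation K ℤᵐ⁰} (hHNA : SpecHNA) (hw : IsLF w)
    {d z s : K} (h : w (z ^ 2 - d * s ^ 2) = 1)
    (hsq : ∀ δ : K, d = δ ^ 2 → w (z + s * δ) = 1 ∧ w (z - s * δ) = 1) :
    w (4 * d * s ^ 2) ≤ 1 ∧ w (2 * z) ≤ 1 := by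
  have h4 : (4 : K) = 2 ^ 2 := by norm_num
  have w4 : w 4 ≤ 1 := by
    rw [h4, map_pow]
    exact pow_le_one' (w_two_le w) 2
  by_cases hd : ∃ δ : K, d = δ ^ 2
  · obtain ⟨δ, hδ⟩ := hd
    obtain ⟨h1, h2⟩ := hsq δ hδ
    constructor
    · have e : 4 * d * s ^ 2 = ((z + s * δ) - (z - s * δ)) ^ 2 := by rw [hδ]; ring
      rw [e, map_pow]
      exact pow_le_one' ((w.map_sub _ _).trans (max_le h1.le h2.le)) 2
    · have e : 2 * z = (z + s * δ) + (z - s * δ) := by ring
      rw [e]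
      exact w.map_add_le h1.le h2.le
  · have hA : w (4 * d * s ^ 2) ≤ 1 := by
      by_contra hc
      push Not at hc
      have hne : 4 * d * s ^ 2 ≠ 0 := by
        intro h0
        rw [h0, map_zero] at hc
        exact absurd hc (not_lt.2 zero_le')
      have hs : s ≠ 0 := by
        rintro rfl
        apply hne
        ring
      have hd0 : d ≠ 0 := by
        rintro rfl
        apply hne
        ring
      set u := (z ^ 2 - d * s ^ 2) / (4 * d * s ^ 2) with hu
      have hwu : w u < 1 := by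
        rw [hu, map_div₀, h, one_div]
        exact inv_lt_one_of_one_lt₀ hc
      obtain ⟨y, -, hy⟩ := hHNA.one u hw hwu
      have h1 : (1 + 2 * y) ≠ 0 := by
        intro h0
        rw [h0] at hy
        have : w (4 * u) = 1 := by
          have e : 4 * u = -1 := by linear_combination -hy
          rw [e, w.map_neg, w.map_one]
        rw [map_mul] at this
        have h3 : w 4 * w u < 1 := by
          calc w 4 * w u ≤ 1 * w u := mul_le_mul_left w4 _
            _ = w u := one_mul _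
            _ < 1 := hwu
        exact absurd this h3.ne
      apply hd
      refine ⟨z / (s * (1 + 2 * y)), ?_⟩
      have e : 4 * u * (d * s ^ 2) = z ^ 2 - d * s ^ 2 := by
        rw [hu]
        field_simp
      rw [div_pow, eq_div_iff (pow_ne_zero 2 (mul_ne_zero hs h1)), mul_pow, hy]
      linear_combination e
    refine ⟨hA, sq_le_one ?_⟩
    rw [← map_pow]
    have e : (2 * z) ^ 2 = 4 * (z ^ 2 - d * s ^ 2) + 4 * d * s ^ 2 := by ring
    rw [e]
    refine w.map_add_le ?_ hA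
    rw [map_mul, h, mul_one]
    exact w4

end BNDM

open BNDM in
theorem specBND (hCOO : SpecCOO) (hNRM : SpecNRM) (hVAL : SpecVAL) (hLFB : SpecLFB)
    (hHNA : SpecHNA) (hSCL : SpecSCL) (hTOC : SpecTOC) : SpecBND := by
  intro K _ _ w a b hw ha hb hD
  have h2 : (2 : K) ≠ 0 := two_ne_zero
  by_cases hrt : ∃ t : K, t ^ 3 + a * t + b = 0
  · obtain ⟨t, ht⟩ := hrt
    have hdf : dq a t * (3 * t ^ 2 + a) ^ 2 = - dsc a b := by
      unfold dq dsc
      have hb' : b = -(t ^ 3 + a * t) := by linear_combination ht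
      rw [hb']
      ring
    have hf' : 3 * t ^ 2 + a ≠ 0 := by
      intro h
      rw [h] at hdf
      apply hD
      linear_combination hdf
    have hd0 : dq a t ≠ 0 := by
      intro h
      rw [h] at hdf
      apply hD
      linear_combination hdf
    set d := dq a t with hd
    set M : ℤᵐ⁰ := max (max 1 (w 2)⁻¹) (max (w (4 * d))⁻¹ (max (w t) (w (3 * t ^ 2 + a))⁻¹)) with hM
    have M1 : 1 ≤ M := (le_max_left _ _).trans (le_max_left _ _)
    have M2 : (w 2)⁻¹ ≤ M := (le_max_right _ _).trans (le_max_left _ _)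
    have M3 : (w (4 * d))⁻¹ ≤ M := (le_max_left _ _).trans (le_max_right _ _)
    have M4 : w t ≤ M := (le_max_left _ _).trans ((le_max_right _ _).trans (le_max_right _ _))
    have M5 : (w (3 * t ^ 2 + a))⁻¹ ≤ M :=
      (le_max_right _ _).trans ((le_max_right _ _).trans (le_max_right _ _))
    obtain ⟨C, hC⟩ := bd (M ^ 5)
    refine ⟨C, fun α hα hev i => ?_⟩
    refine le_trans ?_ hC
    obtain ⟨r, z, s, hco⟩ := hTOC.all t α h2
    have hr : w r = 1 := by
      rw [← hTOC.evv hco]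
      exact hev t ht
    have hn : w (z ^ 2 - d * s ^ 2) = 1 := by
      have := hTOC.nrm h2 ht hco
      rw [this, map_mul, hr, one_mul] at hα
      exact hα
    have hsq : ∀ δ : K, d = δ ^ 2 → w (z + s * δ) = 1 ∧ w (z - s * δ) = 1 := by
      have gen : ∀ δ : K, d = δ ^ 2 → w (z + s * δ) = 1 := by
        intro δ hδ
        have hroot : ((-t + δ) / 2) ^ 3 + a * ((-t + δ) / 2) + b = 0 := by
          have hb' : b = -(t ^ 3 + a * t) := by linear_combination ht
          have ha' : 4 * a = -3 * t ^ 2 - δ ^ 2 := by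
            rw [← hδ, hd, dq]; ring
          have ha'' : a = (-3 * t ^ 2 - δ ^ 2) / 4 := by
            rw [← ha']; field_simp
          rw [hb', ha'']
          field_simp
          ring
        have h5 := hev _ hroot
        have e : ev (RingHom.id K) ((-t + δ) / 2) α = z + s * δ := by
          obtain ⟨c1, c2, c3⟩ := hco
          have ha' : 4 * a = -3 * t ^ 2 - δ ^ 2 := by
            rw [← hδ, hd, dq]; ring
          unfold ev
          simp only [RingHom.id_apply]
          apply mul_left_cancel₀ (mul_ne_zero h2 h2)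
          field_simp
          linear_combination 2 * c2 + 2 * δ * c3 + cf 2 α * ha'
        rw [e] at h5
        exact h5
      intro δ hδ
      refine ⟨gen δ hδ, ?_⟩
      have := gen (-δ) (by rw [hδ]; ring)
      have e : z + s * -δ = z - s * δ := by ring
      rwa [e] at this
    obtain ⟨k1, k2⟩ := key hHNA hw hn hsq
    have w2 : w 2 ≠ 0 := (w.ne_zero_iff).2 h2
    have w4d : w (4 * d) ≠ 0 := (w.ne_zero_iff).2 (mul_ne_zero (by norm_num) hd0)
    have wf : w (3 * t ^ 2 + a) ≠ 0 := (w.ne_zero_iff).2 hf'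
    have hz : w z ≤ M := by
      rw [map_mul] at k2
      refine le_trans ?_ M2
      exact (le_inv_mul_iff₀ (zero_lt_iff.2 w2)).2 k2 |>.trans (by rw [mul_one])
    have hs : w s ≤ M := by
      rcases le_total (w s) 1 with h | h
      · exact h.trans M1
      · have e1 : w s ≤ w s ^ 2 := by
          rw [sq]
          exact le_mul_of_one_le_left' h
        refine e1.trans (le_trans ?_ M3)
        rw [map_mul, map_pow] at k1
        exact (le_inv_mul_iff₀ (zero_lt_iff.2 w4d)).2 k1 |>.trans (by rw [mul_one])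
    have p2 : M ≤ M ^ 2 := le_self_pow₀ M1 two_ne_zero
    have b2 : w (cf 2 α) ≤ M ^ 3 := by
      have h6 := hTOC.lam h2 hco
      have h7 : w (3 * t ^ 2 + a) * w (cf 2 α) ≤ M ^ 2 := by
        rw [← map_mul, h6]
        refine (w.map_sub _ _).trans (max_le ((w.map_sub _ _).trans (max_le ?_ ?_)) ?_)
        · rw [hr]; exact M1.trans p2
        · exact hz.trans p2
        · rw [map_mul, map_mul, sq]
          calc w 3 * w t * w s ≤ 1 * M * M :=
                mul_le_mul' (mul_le_mul' (w_three_le w) M4) hs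
            _ = M * M := by rw [one_mul]
      have h8 : w (cf 2 α) ≤ (w (3 * t ^ 2 + a))⁻¹ * M ^ 2 :=
        (le_inv_mul_iff₀ (zero_lt_iff.2 wf)).2 h7
      refine h8.trans ?_
      calc (w (3 * t ^ 2 + a))⁻¹ * M ^ 2 ≤ M * M ^ 2 := mul_le_mul' M5 le_rfl
        _ = M ^ 3 := (pow_succ' M 2).symm
    have b1 : w (cf 1 α) ≤ M ^ 4 := by
      have e : cf 1 α = 2 * s + cf 2 α * t := by
        linear_combination hco.2.2
      rw [e]
      refine w.map_add_le ?_ ?_
      · rw [map_mul]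
        calc w 2 * w s ≤ 1 * M := mul_le_mul' (w_two_le w) hs
          _ = M := one_mul _
          _ ≤ M ^ 4 := le_self_pow₀ M1 (by norm_num)
      · rw [map_mul, pow_succ]
        exact mul_le_mul' b2 M4
    have b0 : w (cf 0 α) ≤ M ^ 5 := by
      have e : cf 0 α = r - cf 1 α * t - cf 2 α * t ^ 2 := by
        linear_combination hco.1
      rw [e]
      refine (w.map_sub _ _).trans (max_le ((w.map_sub _ _).trans (max_le ?_ ?_)) ?_)
      · rw [hr]; exact one_le_pow₀ M1
      · rw [map_mul, pow_succ]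
        exact mul_le_mul' b1 M4
      · rw [map_mul, map_pow]
        calc w (cf 2 α) * w t ^ 2 ≤ M ^ 3 * M ^ 2 := mul_le_mul' b2 (pow_le_pow_left' M4 2)
          _ = M ^ 5 := (pow_add M 3 2).symm
    match i with
    | 0 => exact b0
    | 1 => exact b1.trans (pow_le_pow_right₀ M1 (by norm_num))
    | 2 => exact b2.trans (pow_le_pow_right₀ M1 (by norm_num))
    | (j + 3) =>
      rw [hCOO.big _ _ (by omega), map_zero]
      exact zero_le'
  · push Not at hrt
    have hirr := irr hrt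
    haveI : Fact (Irreducible (fpol a b)) := ⟨hirr⟩
    obtain ⟨m, hm⟩ : ∃ m : ℕ, ∀ h : Fin 3 → K, (∀ i, w (h i) ≤ 1) → (∃ i, w (h i) = 1) →
        WithZero.exp (-(m : ℤ)) < w (nf a b h) := by
      by_contra hcon
      push Not at hcon
      have hg : Good w a b (fun _ => 0) 0 := by
        intro m
        obtain ⟨h, h1, h3, h4⟩ := hcon m
        refine ⟨h, h1, h3, h4, fun i => ?_⟩
        rw [sub_zero]
        simpa using h1 i
      obtain ⟨x, hx, hn⟩ := exists_zero hLFB hw ha hb hg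
      have hne : el a b (x 0) (x 1) (x 2) ≠ 0 := by
        intro h0
        apply hx
        obtain ⟨c0, c1, c2⟩ := hCOO.co (a := a) (b := b) (x 0) (x 1) (x 2)
        have hz : ∀ i, cf i (0 : Lk a b) = 0 := fun i => by simp [cf]
        rw [h0, hz] at c0 c1 c2
        funext i
        fin_cases i
        · exact c0.symm
        · exact c1.symm
        · exact c2.symm
      have hu : IsUnit (el a b (x 0) (x 1) (x 2)) := hne.isUnit
      rw [hNRM.unt, hNRM.frm] at hu
      have : nf a b x = 0 := hn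
      unfold nf at this
      rw [this] at hu
      exact not_isUnit_zero hu
    obtain ⟨ϖ, hϖ⟩ := hVAL.uni hw
    refine ⟨m, fun α hα _ i => ?_⟩
    have hα0 : α ≠ 0 := by
      rintro rfl
      have hu : IsUnit (Algebra.norm K (0 : Lk a b)) := by
        rw [isUnit_iff_ne_zero]
        intro h0
        rw [h0, map_zero] at hα
        exact zero_ne_one hα
      rw [← hNRM.unt] at hu
      exact not_isUnit_zero hu
    obtain ⟨n, h, hαh, hI, ⟨i₀, hi₀⟩, -⟩ := hSCL K w a b ϖ α hϖ ha hb hα0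
    have hn : Algebra.norm K α = (ϖ ^ n) ^ 3 * Algebra.norm K h := by
      rw [hαh, map_mul, hNRM.sc]
    have h1 := hm ![cf 0 h, cf 1 h, cf 2 h]
      (by intro i; fin_cases i <;> exact hI _)
      (by
        match i₀, hi₀ with
        | 0, h0 => exact ⟨0, h0⟩
        | 1, h0 => exact ⟨1, h0⟩
        | 2, h0 => exact ⟨2, h0⟩
        | (j + 3), h0 =>
          rw [hCOO.big _ _ (by omega), map_zero] at h0
          exact absurd h0 zero_ne_one)
    rw [← norm_eq hNRM hCOO] at h1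
    have hwn : w (ϖ ^ n) = WithZero.exp (-n) := by
      rw [map_zpow₀, hϖ, ← WithZero.exp_zsmul]
      simp
    rw [hn, map_mul, map_pow, hwn] at hα
    have h3 : w (Algebra.norm K h) = WithZero.exp (3 * n) := by
      have e : (WithZero.exp (-n)) ^ 3 * WithZero.exp (3 * n) = (1 : ℤᵐ⁰) := by
        rw [← WithZero.exp_nsmul, ← WithZero.exp_add, ← WithZero.exp_zero]
        congr 1
        simp
      have hne : (WithZero.exp (-n) : ℤᵐ⁰) ^ 3 ≠ 0 := pow_ne_zero _ WithZero.exp_ne_zero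
      exact mul_left_cancel₀ hne (hα.trans e.symm)
    rw [h3, WithZero.exp_lt_exp] at h1
    rw [hαh, cf_smul, map_mul, hwn]
    calc WithZero.exp (-n) * w (cf i h) ≤ WithZero.exp (-n) * 1 := mul_le_mul' le_rfl (hI i)
      _ = WithZero.exp (-n) := mul_one _
      _ ≤ WithZero.exp (m : ℤ) := by
        rw [WithZero.exp_le_exp]
        omega

end Pool.Agent.Lib.MP_8cb858_nt.PF
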