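import Pool.Agent.Lib.MP_8cb858_nt.PF.SpecDN

/-!
# DNK: counting pairs by classes
-/

namespace Pool.Agent.Lib.MP_8cb858_nt.PF

namespace DNKM

variable {R : Type} [CommRing R]

/-- the class of a pair -/
def cl (J : Ideal R) (p : R × R) : (R ⧸ J) × (R ⧸ J) :=
  (Ideal.Quotient.mk J p.1, Ideal.Quotient.mk J p.2)

open scoped Classical in
lemma fiber {J : Ideal R} {T : Set (R × R)} {A B : Set R} (hT : Per J T) {X : Finset (R × R)}
    (hX : ∀ p, p ∈ X ↔ p ∈ T ∧ p.1 ∈ A ∧ p.2 ∈ B) {κ : (R ⧸ J) × (R ⧸ J)} (hκ : κ ∈ Clm J T) :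
    ∃ a0 b0 : R, (X.filter fun p => cl J p = κ).card =
      {x : R | x ∈ A ∧ x - a0 ∈ J}.ncard * {x : R | x ∈ B ∧ x - b0 ∈ J}.ncard := by
  obtain ⟨⟨a0, b0⟩, hab, rfl⟩ := hκ
  refine ⟨a0, b0, ?_⟩
  rw [← Set.ncard_prod, ← Set.ncard_coe_finset]
  congr 1
  ext p
  rw [Finset.mem_coe, Finset.mem_filter, hX]
  have hcl : (cl J p = (Ideal.Quotient.mk J (a0, b0).1, Ideal.Quotient.mk J (a0, b0).2)) ↔
      p.1 - a0 ∈ J ∧ p.2 - b0 ∈ J := by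
    unfold cl
    rw [Prod.mk.injEq, Ideal.Quotient.eq, Ideal.Quotient.eq]
  rw [hcl]
  constructor
  · rintro ⟨⟨-, h1, h2⟩, h3, h4⟩
    exact ⟨⟨h1, h3⟩, ⟨h2, h4⟩⟩
  · rintro ⟨⟨h1, h3⟩, ⟨h2, h4⟩⟩
    exact ⟨⟨(hT p.1 p.2 a0 b0 h3 h4).2 hab, h1, h2⟩, h3, h4⟩

end DNKM

open scoped Classical in
/-- **DNK.** -/
theorem specDNK : SpecDNK := by
  intro R _ J T A B U V hJ hT hA hB hU hV
  have hXfin : {p : R × R | p ∈ T ∧ p.1 ∈ A ∧ p.2 ∈ B}.Finite :=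
    (hA.prod hB).subset fun p hp => ⟨hp.2.1, hp.2.2⟩
  have hCfin : (Clm J T).Finite := Set.toFinite _
  set X := hXfin.toFinset with hXd
  have hX : ∀ p, p ∈ X ↔ p ∈ T ∧ p.1 ∈ A ∧ p.2 ∈ B := by
    intro p
    rw [hXd, Set.Finite.mem_toFinset]
    rfl
  have hcard : {p : R × R | p ∈ T ∧ p.1 ∈ A ∧ p.2 ∈ B}.ncard = X.card :=
    Set.ncard_eq_toFinset_card _ hXfin
  have hsum : X.card = ∑ κ ∈ hCfin.toFinset, (X.filter fun p => DNKM.cl J p = κ).card := by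
    apply Finset.card_eq_sum_card_fiberwise
    intro p hp
    rw [Finset.mem_coe, Set.Finite.mem_toFinset]
    exact ⟨p, ((hX p).1 hp).1, rfl⟩
  have hC : (Clm J T).ncard = hCfin.toFinset.card := Set.ncard_eq_toFinset_card _ hCfin
  rw [hcard, hsum, hC]
  push_cast
  constructor
  · intro h1 h2
    rw [← nsmul_eq_mul]
    apply Finset.sum_le_card_nsmul
    intro κ hκ
    rw [Set.Finite.mem_toFinset] at hκ
    obtain ⟨a0, b0, h⟩ := DNKM.fiber hT hX hκ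
    rw [h]
    push_cast
    exact mul_le_mul (h1 a0) (h2 b0) (Nat.cast_nonneg _) hU
  · intro h1 h2
    rw [← nsmul_eq_mul]
    apply Finset.card_nsmul_le_sum
    intro κ hκ
    rw [Set.Finite.mem_toFinset] at hκ
    obtain ⟨a0, b0, h⟩ := DNKM.fiber hT hX hκ
    rw [h]
    push_cast
    exact mul_le_mul (h1 a0) (h2 b0) hV (Nat.cast_nonneg _)

end Pool.Agent.Lib.MP_8cb858_nt.PF
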