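import Pool.Agent.Lib.MP_8cb858_nt.PF.SpecDN

/-!
# DNP: the number of irreducible `x^3 + a x + b` over a finite field
-/

namespace Pool.Agent.Lib.MP_8cb858_nt.PF

namespace DNPM

open Finset
open scoped Classical

variable {k : Type} [Field k]

/-- `t` is a root of `x^3 + p.1 x + p.2` -/
def Rt (p : k × k) (t : k) : Prop := t ^ 3 + p.1 * t + p.2 = 0

lemma two_roots {p : k × k} {t s : k} (hts : t ≠ s) :
    (Rt p t ∧ Rt p s) ↔ p = (-(t ^ 2 + t * s + s ^ 2), t * s * (t + s)) := by
  obtain ⟨a, b⟩ := p
  unfold Rt
  simp only [Prod.mk.injEq]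
  constructor
  · rintro ⟨h1, h2⟩
    have h3 : t - s ≠ 0 := sub_ne_zero.2 hts
    have h4 : a = -(t ^ 2 + t * s + s ^ 2) := by
      apply mul_left_cancel₀ h3
      linear_combination h1 - h2
    refine ⟨h4, ?_⟩
    rw [h4] at h1
    linear_combination h1
  · rintro ⟨rfl, rfl⟩
    constructor <;> ring

lemma third {p : k × k} {t s x : k} (hts : t ≠ s) (ht : Rt p t) (hs : Rt p s) :
    Rt p x ↔ x = t ∨ x = s ∨ x = -t - s := by
  have h := (two_roots hts).1 ⟨ht, hs⟩
  unfold Rt
  rw [h]
  have e : x ^ 3 + -(t ^ 2 + t * s + s ^ 2) * x + t * s * (t + s) =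
      (x - t) * ((x - s) * (x - (-t - s))) := by ring
  show x ^ 3 + -(t ^ 2 + t * s + s ^ 2) * x + t * s * (t + s) = 0 ↔ _
  rw [e, mul_eq_zero, mul_eq_zero, sub_eq_zero, sub_eq_zero, sub_eq_zero]

variable [Fintype k]

/-- pairs of different roots -/
noncomputable def G2 (p : k × k) : Finset (k × k) :=
  univ.filter fun x => x.1 ≠ x.2 ∧ Rt p x.1 ∧ Rt p x.2

/-- pairs of different roots with different third root -/
noncomputable def G3 (p : k × k) : Finset (k × k) :=
  univ.filter fun x => (x.1 ≠ x.2 ∧ -x.1 - x.2 ≠ x.1 ∧ -x.1 - x.2 ≠ x.2) ∧ Rt p x.1 ∧ Rt p x.2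

/-- the roots -/
noncomputable def R1 (p : k × k) : Finset k := univ.filter fun t => Rt p t

lemma G2_card (p : k × k) : (G2 p).card = (R1 p).card * (R1 p).card - (R1 p).card := by
  rw [← Finset.offDiag_card]
  congr 1
  ext x
  simp only [G2, R1, mem_filter, mem_univ, true_and, mem_offDiag]
  tauto

lemma point (p : k × k) : 6 * (if ∀ x, ¬ Rt p x then 1 else 0) + 6 * (R1 p).card + (G3 p).card =
    6 + 3 * (G2 p).card := by
  by_cases h : ∀ x, ¬ Rt p x
  · have h1 : R1 p = ∅ := by
      ext x; simp [R1, h x]
    have h3 : G3 p = ∅ := by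
      ext x; simp [G3, h x.1]
    rw [if_pos h, G2_card, h1, h3]
    simp
  · rw [if_neg h]
    push Not at h
    obtain ⟨t, ht⟩ := h
    by_cases h2 : ∃ s, s ≠ t ∧ Rt p s
    · obtain ⟨s, hst, hs⟩ := h2
      have hR : ∀ x, Rt p x ↔ x = t ∨ x = s ∨ x = -t - s := fun x => third hst.symm ht hs
      by_cases hu : -t - s = t ∨ -t - s = s
      · have hR' : R1 p = {t, s} := by
          ext x
          simp only [R1, mem_filter, mem_univ, true_and, mem_insert, mem_singleton, hR]
          rcases hu with h | h <;> rw [h] <;> tauto
        have h3 : G3 p = ∅ := by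
          ext ⟨x, y⟩
          simp only [G3, mem_filter, mem_univ, true_and, notMem_empty, iff_false, hR]
          rintro ⟨⟨k1, k2, k3⟩, k4, k5⟩
          have k4' : x = t ∨ x = s := by
            rcases hu with h | h <;> rw [h] at k4 <;> tauto
          have k5' : y = t ∨ y = s := by
            rcases hu with h | h <;> rw [h] at k5 <;> tauto
          rcases k4' with rfl | rfl <;> rcases k5' with rfl | rfl
          · exact k1 rfl
          · tauto
          · have e : -x - y = -y - x := by ring
            rw [e] at k2 k3
            tauto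
          · exact k1 rfl
        rw [G2_card, h3, hR', card_pair hst.symm]
        simp
      · push Not at hu
        have hR' : R1 p = {t, s, -t - s} := by
          ext x
          simp only [R1, mem_filter, mem_univ, true_and, mem_insert, mem_singleton, hR]
        have hc : (R1 p).card = 3 := by
          rw [hR', card_insert_of_notMem, card_pair hu.2.symm]
          simp only [mem_insert, mem_singleton, not_or]
          exact ⟨hst.symm, hu.1.symm⟩
        have h3 : G3 p = G2 p := by
          ext ⟨x, y⟩
          simp only [G3, G2, mem_filter, mem_univ, true_and]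
          constructor
          · rintro ⟨⟨k1, -, -⟩, k4⟩
            exact ⟨k1, k4⟩
          · rintro ⟨k1, k4, k5⟩
            refine ⟨⟨k1, ?_⟩, k4, k5⟩
            rw [hR] at k4 k5
            have e1 : -t - (-t - s) = s := by ring
            have e2 : -s - t = -t - s := by ring
            have e3 : -s - (-t - s) = t := by ring
            have e4 : -(-t - s) - t = s := by ring
            have e5 : -(-t - s) - s = t := by ring
            have n1 := hst
            have n2 := hst.symm
            have n3 := hu.1
            have n4 := hu.2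
            have n5 := hu.1.symm
            have n6 := hu.2.symm
            rcases k4 with rfl | rfl | rfl <;> rcases k5 with rfl | rfl | rfl
            · exact absurd rfl k1
            · exact ⟨n3, n4⟩
            · rw [e1]; exact ⟨n1, n6⟩
            · rw [e2]; exact ⟨n4, n3⟩
            · exact absurd rfl k1
            · rw [e3]; exact ⟨n2, n5⟩
            · rw [e4]; exact ⟨n6, n1⟩
            · rw [e5]; exact ⟨n5, n2⟩
            · exact absurd rfl k1
        rw [h3, G2_card, hc]
    · push Not at h2
      have hR' : R1 p = {t} := by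
        ext x
        simp only [R1, mem_filter, mem_univ, true_and, mem_singleton]
        constructor
        · intro hx
          by_contra hxt
          exact h2 x hxt hx
        · rintro rfl; exact ht
      have h3 : G3 p = ∅ := by
        ext ⟨x, y⟩
        simp only [G3, mem_filter, mem_univ, true_and, notMem_empty, iff_false]
        rintro ⟨⟨k1, -, -⟩, k4, k5⟩
        have hx : x = t := by
          by_contra hxt
          exact h2 x hxt k4
        have hy : y = t := by
          by_contra hxt
          exact h2 y hxt k5
        exact k1 (hx.trans hy.symm)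
      rw [G2_card, h3, hR']
      simp

lemma dbl {α β : Type*} [Fintype α] [Fintype β] (r : α → β → Prop)
    [∀ a b, Decidable (r a b)] :
    ∑ a, (univ.filter (fun b => r a b)).card = ∑ b, (univ.filter (fun a => r a b)).card := by
  simp_rw [Finset.card_filter]
  exact Finset.sum_comm

lemma sumR : ∑ p : k × k, (R1 p).card = Fintype.card k ^ 2 := by
  unfold R1
  rw [dbl]
  have : ∀ t : k, (univ.filter (fun p : k × k => Rt p t)).card = Fintype.card k := by
    intro t
    have e : univ.filter (fun p : k × k => Rt p t) =
        (univ : Finset k).image fun a => (a, -(t ^ 3 + a * t)) := by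
      ext ⟨a, b⟩
      simp only [mem_filter, mem_univ, true_and, mem_image, Prod.mk.injEq]
      unfold Rt
      constructor
      · intro h
        exact ⟨a, rfl, by linear_combination -h⟩
      · rintro ⟨a', rfl, rfl⟩
        ring
    rw [e, card_image_of_injective _ (fun a a' h => congrArg Prod.fst h), card_univ]
  rw [sum_congr rfl fun t _ => this t, sum_const, card_univ, smul_eq_mul, pow_two]

lemma sumC (C : k × k → Prop) [DecidablePred C] (hC : ∀ x, C x → x.1 ≠ x.2) :
    ∑ p : k × k, (univ.filter fun x : k × k => C x ∧ Rt p x.1 ∧ Rt p x.2).card =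
      (univ.filter C).card := by
  rw [dbl, card_filter]
  refine sum_congr rfl fun x _ => ?_
  by_cases h : C x
  · rw [if_pos h]
    have : univ.filter (fun p : k × k => C x ∧ Rt p x.1 ∧ Rt p x.2) =
        {(-(x.1 ^ 2 + x.1 * x.2 + x.2 ^ 2), x.1 * x.2 * (x.1 + x.2))} := by
      ext p
      simp only [mem_filter, mem_univ, true_and, mem_singleton, h, two_roots (hC x h)]
    rw [this, card_singleton]
  · rw [if_neg h]
    simp [h]

omit [Field k] in
lemma cardC2 : (univ.filter fun x : k × k => x.1 ≠ x.2).card =
    Fintype.card k * Fintype.card k - Fintype.card k := by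
  rw [← card_univ, ← Finset.offDiag_card]
  congr 1
  ext x
  simp [mem_offDiag]

lemma main_sum (n3 : ℕ)
    (h3 : (univ.filter fun x : k × k =>
      x.1 ≠ x.2 ∧ -x.1 - x.2 ≠ x.1 ∧ -x.1 - x.2 ≠ x.2).card = n3) :
    6 * {p : k × k | ∀ x : k, x ^ 3 + p.1 * x + p.2 ≠ 0}.ncard + n3 =
      3 * (Fintype.card k * Fintype.card k - Fintype.card k) := by
  have e0 : {p : k × k | ∀ x : k, x ^ 3 + p.1 * x + p.2 ≠ 0}.ncard =
      ∑ p : k × k, if ∀ x, ¬ Rt p x then 1 else 0 := by
    rw [← card_filter, ← Set.ncard_coe_finset]
    congr 1
    ext p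
    simp only [Set.mem_setOf_eq, coe_filter, mem_univ, true_and]
    exact Iff.rfl
  have e1 : ∑ p : k × k, (G3 p).card = n3 := by
    rw [← h3]
    exact sumC (fun x : k × k => x.1 ≠ x.2 ∧ -x.1 - x.2 ≠ x.1 ∧ -x.1 - x.2 ≠ x.2)
      (fun x hx => hx.1)
  have e2 : ∑ p : k × k, (G2 p).card = Fintype.card k * Fintype.card k - Fintype.card k := by
    rw [← cardC2]
    exact sumC (fun x : k × k => x.1 ≠ x.2) (fun x hx => hx)
  have hs := Finset.sum_congr (rfl : (univ : Finset (k × k)) = univ) fun p _ => point p
  rw [sum_add_distrib, sum_add_distrib, ← mul_sum, ← mul_sum, sum_add_distrib, ← mul_sum, ← e0,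
    e1, e2, sumR, sum_const, card_univ, Fintype.card_prod, smul_eq_mul] at hs
  have : Fintype.card k ^ 2 = Fintype.card k * Fintype.card k := pow_two _
  rw [this] at hs
  omega

end DNPM

open DNPM Finset

open scoped Classical in
theorem specDNP : SpecDNP := by
  intro k _ _
  have := Fintype.ofFinite k
  refine ⟨?_, ?_, ?_⟩
  · intro a b h
    by_cases h3 : (3 : k) = 0
    · have ha : a = 0 := by
        have : a ^ 3 = 0 := by
          have e : a ^ 3 = (4 * a ^ 3 + 27 * b ^ 2) - 3 * (a ^ 3 + 9 * b ^ 2) := by ring
          rw [e, h, h3]; ring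
        exact pow_eq_zero_iff (by norm_num) |>.1 this
      have hinj : Function.Injective (fun x : k => x ^ 3) := by
        intro x y hxy
        simp only at hxy
        have : (x - y) ^ 3 = 0 := by
          have e : (x - y) ^ 3 = (x ^ 3 - y ^ 3) - 3 * (x ^ 2 * y - x * y ^ 2) := by ring
          rw [e, hxy, h3]; ring
        exact sub_eq_zero.1 (pow_eq_zero_iff (by norm_num) |>.1 this)
      obtain ⟨x, hx⟩ := Finite.injective_iff_surjective.1 hinj (-b)
      refine ⟨x, ?_⟩
      simp only at hx
      rw [hx, ha]; ring
    · by_cases h2 : (2 : k) = 0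
      · have hb : b = 0 := by
          have : b ^ 2 = 0 := by
            have e : b ^ 2 = (4 * a ^ 3 + 27 * b ^ 2) - 2 * (2 * a ^ 3 + 13 * b ^ 2) := by ring
            rw [e, h, h2]; ring
          exact pow_eq_zero_iff (by norm_num) |>.1 this
        exact ⟨0, by rw [hb]; ring⟩
      · have h27 : (27 : k) ≠ 0 := by
          have : (27 : k) = 3 ^ 3 := by norm_num
          rw [this]; exact pow_ne_zero _ h3
        by_cases ha : a = 0
        · have hb : b = 0 := by
            rw [ha] at h
            have : 27 * b ^ 2 = 0 := by linear_combination h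
            rcases mul_eq_zero.1 this with h' | h'
            · exact absurd h' h27
            · exact pow_eq_zero_iff (by norm_num) |>.1 h'
          exact ⟨0, by rw [hb]; ring⟩
        · refine ⟨-(3 * b) / (2 * a), ?_⟩
          have e : (-(3 * b) / (2 * a)) ^ 3 + a * (-(3 * b) / (2 * a)) + b =
              -b * (4 * a ^ 3 + 27 * b ^ 2) / (8 * a ^ 3) := by
            have h8 : (8 : k) ≠ 0 := by
              have : (8 : k) = 2 ^ 3 := by norm_num
              rw [this]; exact pow_ne_zero _ h2
            field_simp
            ring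
          rw [e, h, mul_zero, zero_div]
  · intro h3
    rw [Nat.card_eq_fintype_card]
    set q := Fintype.card k with hq
    have hq1 : 1 ≤ q := Fintype.card_pos
    -- the two lines
    have hA : ((univ : Finset k).erase 0).card = q - 1 := by
      rw [card_erase_of_mem (mem_univ _), card_univ]
    have key : (univ.filter fun x : k × k =>
        x.1 ≠ x.2 ∧ -x.1 - x.2 ≠ x.1 ∧ -x.1 - x.2 ≠ x.2).card + ((q - 1) + (q - 1)) =
        q * q - q := by
      have e1 : (((univ : Finset k).erase 0).image fun t => (t, -2 * t)).card = q - 1 := by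
        rw [card_image_of_injective _ fun a b h => congrArg Prod.fst h, hA]
      have e2 : (((univ : Finset k).erase 0).image fun t => (-2 * t, t)).card = q - 1 := by
        rw [card_image_of_injective _ fun a b h => congrArg Prod.snd h, hA]
      rw [hq, ← cardC2, ← hq]
      nth_rewrite 1 [← e1]
      rw [← e2, ← card_union_of_disjoint, ← card_union_of_disjoint]
      · congr 1
        ext ⟨x, y⟩
        simp only [mem_union, mem_filter, mem_univ, true_and, mem_image, mem_erase, ne_eq,
          and_true, Prod.mk.injEq]
        constructor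
        · rintro (h | ⟨t, ht, rfl, rfl⟩ | ⟨t, ht, rfl, rfl⟩)
          · exact h.1
          · intro h
            have : 3 * t = 0 := by linear_combination h
            exact (mul_ne_zero h3 ht) this
          · intro h
            have : 3 * t = 0 := by linear_combination -h
            exact (mul_ne_zero h3 ht) this
        · intro hxy
          by_cases k1 : -x - y = x
          · refine Or.inr (Or.inl ⟨x, ?_, rfl, by linear_combination k1⟩)
            rintro rfl
            apply hxy
            linear_combination k1
          · by_cases k2 : -x - y = y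
            · refine Or.inr (Or.inr ⟨y, ?_, by linear_combination k2, rfl⟩)
              rintro rfl
              apply hxy
              linear_combination -k2
            · exact Or.inl ⟨hxy, k1, k2⟩
      · rw [disjoint_left]
        rintro ⟨x, y⟩ hx hy
        simp only [mem_union, mem_filter, mem_univ, true_and, mem_image, mem_erase, ne_eq,
          and_true, Prod.mk.injEq] at hx hy
        obtain ⟨k1, k2, k3⟩ := hx
        rcases hy with ⟨t, ht, rfl, rfl⟩ | ⟨t, ht, rfl, rfl⟩
        · exact k2 (by ring)
        · exact k3 (by ring)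
      · rw [disjoint_left]
        rintro ⟨x, y⟩ hx hy
        simp only [mem_image, mem_erase, ne_eq, mem_univ, and_true, Prod.mk.injEq] at hx hy
        obtain ⟨t, ht, rfl, rfl⟩ := hx
        obtain ⟨s, hs, h1, h2⟩ := hy
        have : 3 * t = 0 := by linear_combination h1 + 2 * h2
        exact (mul_ne_zero h3 ht) this
    have h := main_sum _ rfl (k := k)
    rw [← hq] at h
    rw [pow_two]
    have hqq : q ≤ q * q := Nat.le_mul_self q
    have hq2 : q * q ≥ 1 := by nlinarith
    omega
  · intro h3
    rw [Nat.card_eq_fintype_card]
    set q := Fintype.card k with hq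
    have key : (univ.filter fun x : k × k =>
        x.1 ≠ x.2 ∧ -x.1 - x.2 ≠ x.1 ∧ -x.1 - x.2 ≠ x.2).card = q * q - q := by
      rw [← cardC2]
      congr 1
      ext ⟨x, y⟩
      simp only [mem_filter, mem_univ, true_and]
      constructor
      · exact fun h => h.1
      · intro hxy
        refine ⟨hxy, ?_, ?_⟩
        · intro h
          apply hxy
          linear_combination h + x * h3
        · intro h
          apply hxy
          linear_combination -h - y * h3
    have h := main_sum _ key
    rw [← hq] at h
    rw [Nat.mul_sub_one]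
    omega

end Pool.Agent.Lib.MP_8cb858_nt.PF
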