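import Pool.Agent.Lib.MP_8cb858_nt.PF.SpecDN
import Pool.Agent.Lib.MP_8cb858_nt.SEL.LO1

section
/-!
# DNC: the Chinese remainder theorem for pairs
-/
namespace Pool.Agent.Lib.MP_8cb858_nt.PF

namespace DNCM

variable {R : Type} [CommRing R]

/-- reduction of pairs -/
def red {J1 J2 : Ideal R} (h : J1 ≤ J2) (p : (R ⧸ J1) × (R ⧸ J1)) : (R ⧸ J2) × (R ⧸ J2) :=
  (Ideal.Quotient.factor h p.1, Ideal.Quotient.factor h p.2)

lemma two {J1 J2 : Ideal R} {T1 T2 : Set (R × R)} (h1 : Per J1 T1) (h2 : Per J2 T2)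
    (hc : IsCoprime J1 J2) :
    (Clm (J1 * J2) (T1 ∩ T2)).ncard = (Clm J1 T1).ncard * (Clm J2 T2).ncard := by
  have hl : J1 * J2 ≤ J1 := Ideal.mul_le_left
  have hr : J1 * J2 ≤ J2 := Ideal.mul_le_right
  set φ : (R ⧸ (J1 * J2)) × (R ⧸ (J1 * J2)) → ((R ⧸ J1) × (R ⧸ J1)) × ((R ⧸ J2) × (R ⧸ J2)) :=
    fun p => (red hl p, red hr p) with hφ
  have hval : ∀ a b : R, φ (Ideal.Quotient.mk _ a, Ideal.Quotient.mk _ b) =
      ((Ideal.Quotient.mk J1 a, Ideal.Quotient.mk J1 b),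
        (Ideal.Quotient.mk J2 a, Ideal.Quotient.mk J2 b)) := fun a b => rfl
  have hcop : J1 ⊔ J2 = ⊤ := Ideal.isCoprime_iff_sup_eq.1 hc
  have hinf : J1 * J2 = J1 ⊓ J2 := Ideal.mul_eq_inf_of_coprime hcop
  have hinj : Function.Injective φ := by
    rintro ⟨x, y⟩ ⟨x', y'⟩ h
    obtain ⟨a, rfl⟩ := Ideal.Quotient.mk_surjective x
    obtain ⟨b, rfl⟩ := Ideal.Quotient.mk_surjective y
    obtain ⟨a', rfl⟩ := Ideal.Quotient.mk_surjective x'
    obtain ⟨b', rfl⟩ := Ideal.Quotient.mk_surjective y'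
    rw [hval, hval] at h
    simp only [Prod.mk.injEq, Ideal.Quotient.eq] at h
    obtain ⟨⟨e1, e2⟩, e3, e4⟩ := h
    have hm : ∀ z : R, z ∈ J1 → z ∈ J2 → z ∈ J1 * J2 := by
      intro z hz1 hz2
      rw [hinf]
      exact ⟨hz1, hz2⟩
    exact Prod.ext (Ideal.Quotient.eq.2 (hm _ e1 e3)) (Ideal.Quotient.eq.2 (hm _ e2 e4))
  have himg : φ '' (Clm (J1 * J2) (T1 ∩ T2)) = (Clm J1 T1) ×ˢ (Clm J2 T2) := by
    ext q
    constructor
    · rintro ⟨_, ⟨⟨a, b⟩, ⟨hab1, hab2⟩, rfl⟩, rfl⟩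
      exact ⟨⟨(a, b), hab1, rfl⟩, ⟨(a, b), hab2, rfl⟩⟩
    · rintro ⟨⟨⟨a1, b1⟩, hab1, e1⟩, ⟨⟨a2, b2⟩, hab2, e2⟩⟩
      obtain ⟨x, hx, y, hy, hxy⟩ := Submodule.mem_sup.1
        (by rw [hcop]; trivial : (1 : R) ∈ J1 ⊔ J2)
      have k1 : ∀ u v : R, (u * y + v * x) - u ∈ J1 := by
        intro u v
        have : (u * y + v * x) - u = (v - u) * x := by linear_combination (-u) * hxy + 2 * u * hxy
        rw [this]
        exact J1.mul_mem_left _ hx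
      have k2 : ∀ u v : R, (u * y + v * x) - v ∈ J2 := by
        intro u v
        have : (u * y + v * x) - v = (u - v) * y := by linear_combination v * hxy
        rw [this]
        exact J2.mul_mem_left _ hy
      refine ⟨_, ⟨(a1 * y + a2 * x, b1 * y + b2 * x), ⟨?_, ?_⟩, rfl⟩, ?_⟩
      · exact (h1 _ _ _ _ (k1 _ _) (k1 _ _)).2 hab1
      · exact (h2 _ _ _ _ (k2 _ _) (k2 _ _)).2 hab2
      · change φ (Ideal.Quotient.mk _ _, Ideal.Quotient.mk _ _) = q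
        rw [hval]
        refine Prod.ext ?_ ?_
        · rw [← e1]
          exact Prod.ext (Ideal.Quotient.eq.2 (k1 _ _)) (Ideal.Quotient.eq.2 (k1 _ _))
        · rw [← e2]
          exact Prod.ext (Ideal.Quotient.eq.2 (k2 _ _)) (Ideal.Quotient.eq.2 (k2 _ _))
  rw [← Set.ncard_image_of_injective _ hinj, himg, Set.ncard_prod]

end DNCM

/-- **DNC.** -/
theorem specDNC : SpecDNC := by
  intro R _ ι s J T
  classical
  induction s using Finset.induction_on with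
  | empty =>
    intro _ _
    refine ⟨fun a b a' b' _ _ => by simp, ?_⟩
    rw [Finset.prod_empty, Finset.prod_empty, Ideal.one_eq_top]
    have hsub : Subsingleton (R ⧸ (⊤ : Ideal R)) := Ideal.Quotient.subsingleton_iff.2 rfl
    rw [Set.ncard_eq_one]
    refine ⟨(Ideal.Quotient.mk _ 0, Ideal.Quotient.mk _ 0), ?_⟩
    ext q
    constructor
    · intro _
      exact Set.mem_singleton_iff.2 (Subsingleton.elim _ _)
    · intro _
      exact ⟨(0, 0), by simp, Subsingleton.elim _ _⟩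
  | insert i s hi ih =>
    intro hT hJ
    obtain ⟨ih1, ih2⟩ := ih (fun j hj => hT j (Finset.mem_insert_of_mem hj))
      (fun j hj k hk => hJ j (Finset.mem_insert_of_mem hj) k (Finset.mem_insert_of_mem hk))
    have hTi := hT i (Finset.mem_insert_self i s)
    have hset : {p : R × R | ∀ j ∈ insert i s, p ∈ T j} = T i ∩ {p | ∀ j ∈ s, p ∈ T j} := by
      ext p
      simp [Finset.mem_insert]
    have hc : IsCoprime (J i) (∏ j ∈ s, J j) := by
      apply IsCoprime.prod_right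
      intro j hj
      exact hJ i (Finset.mem_insert_self i s) j (Finset.mem_insert_of_mem hj)
        (by rintro rfl; exact hi hj)
    rw [hset, Finset.prod_insert hi, Finset.prod_insert hi]
    constructor
    · intro a b a' b' ha hb
      have hl : J i * ∏ j ∈ s, J j ≤ J i := Ideal.mul_le_left
      have hr : J i * ∏ j ∈ s, J j ≤ ∏ j ∈ s, J j := Ideal.mul_le_right
      exact and_congr (hTi a b a' b' (hl ha) (hl hb)) (ih1 a b a' b' (hr ha) (hr hb))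
    · rw [DNCM.two hTi ih1 hc, ih2]

end Pool.Agent.Lib.MP_8cb858_nt.PF
end

section
/-!
# Module DNI: the numbers of classes
-/
namespace Pool.Agent.Lib.MP_8cb858_nt.PF

open NumberField IsDedekindDomain Pool.Agent.Lib.MP_8cb858_nt.SEL
open scoped Classical

namespace DNIM

variable {F : Type} [Field F] [NumberField F]

lemma card_k (v : HeightOneSpectrum (𝓞 F)) : Nat.card (𝓞 F ⧸ v.asIdeal) = nv v := by
  rw [nv, Ideal.absNorm_apply, Submodule.cardQuot_apply]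

lemma nv_pos (v : HeightOneSpectrum (𝓞 F)) : 0 < nv v :=
  Nat.pos_of_ne_zero fun h => v.ne_bot (Ideal.absNorm_eq_zero_iff.1 h)

lemma finite_k (v : HeightOneSpectrum (𝓞 F)) : Finite (𝓞 F ⧸ v.asIdeal) := by
  apply Nat.finite_of_card_ne_zero
  rw [card_k]
  exact (nv_pos v).ne'

lemma card_sq (v : HeightOneSpectrum (𝓞 F)) : Nat.card (𝓞 F ⧸ v.asIdeal ^ 2) = nv v ^ 2 := by
  have h : Ideal.absNorm (v.asIdeal ^ 2) = nv v ^ 2 := by rw [map_pow, nv]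
  rw [← h, Ideal.absNorm_apply, Submodule.cardQuot_apply]

/-- The classes of a set defined modulo `J`. -/
lemma cls_eq {R : Type} [CommRing R] {J : Ideal R} {T : Set (R × R)}
    {U : Set ((R ⧸ J) × (R ⧸ J))}
    (h : ∀ a b : R, (a, b) ∈ T ↔ (Ideal.Quotient.mk J a, Ideal.Quotient.mk J b) ∈ U) :
    Clm J T = U := by
  ext ⟨α, β⟩
  constructor
  · rintro ⟨⟨a, b⟩, hab, e⟩
    rw [← e]
    exact (h a b).1 hab
  · intro hU
    obtain ⟨a, rfl⟩ := Ideal.Quotient.mk_surjective α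
    obtain ⟨b, rfl⟩ := Ideal.Quotient.mk_surjective β
    exact ⟨(a, b), (h a b).2 hU, rfl⟩

omit [NumberField F] in
lemma num_mk (J : Ideal (𝓞 F)) (n : ℕ) [n.AtLeastTwo] :
    Ideal.Quotient.mk J (OfNat.ofNat n : 𝓞 F) = (OfNat.ofNat n : 𝓞 F ⧸ J) :=
  map_ofNat _ n

end DNIM

open DNIM

theorem specDNI (hDNQ : SpecDNQ) (hDNP : SpecDNP) (hDNZ : SpecDNZ) : SpecDNI := by
  intro F _ _ v
  have hmax : v.asIdeal.IsMaximal := v.isMaximal
  have hfin := finite_k v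
  let _ : Field (𝓞 F ⧸ v.asIdeal) := Ideal.Quotient.field v.asIdeal
  have hz : ∀ x : 𝓞 F, x ∈ v.asIdeal ↔ Ideal.Quotient.mk v.asIdeal x = 0 := fun x =>
    Ideal.Quotient.eq_zero_iff_mem.symm
  have hdsc : ∀ a b : 𝓞 F, Ideal.Quotient.mk v.asIdeal (dsc a b) =
      4 * (Ideal.Quotient.mk v.asIdeal a) ^ 3 + 27 * (Ideal.Quotient.mk v.asIdeal b) ^ 2 := by
    intro a b
    unfold dsc
    rw [map_add, map_mul, map_mul, map_pow, map_pow, num_mk, num_mk]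
  have hcub : ∀ a b x : 𝓞 F, Ideal.Quotient.mk v.asIdeal (x ^ 3 + a * x + b) =
      (Ideal.Quotient.mk v.asIdeal x) ^ 3 +
        Ideal.Quotient.mk v.asIdeal a * Ideal.Quotient.mk v.asIdeal x +
        Ideal.Quotient.mk v.asIdeal b := by
    intro a b x
    rw [map_add, map_add, map_mul, map_pow]
  have hsurj : Function.Surjective (Ideal.Quotient.mk v.asIdeal) := Ideal.Quotient.mk_surjective
  have hcube : Clm v.asIdeal {p : 𝓞 F × 𝓞 F | ∀ x : 𝓞 F, x ^ 3 + p.1 * x + p.2 ∉ v.asIdeal} =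
      {p : (𝓞 F ⧸ v.asIdeal) × (𝓞 F ⧸ v.asIdeal) |
        ∀ x : 𝓞 F ⧸ v.asIdeal, x ^ 3 + p.1 * x + p.2 ≠ 0} := by
    apply cls_eq
    intro a b
    constructor
    · intro h x
      obtain ⟨y, rfl⟩ := hsurj x
      have := h y
      rw [hz, hcub] at this
      exact this
    · intro h x hx
      rw [hz, hcub] at hx
      exact h _ hx
  obtain ⟨hP1, hP2, hP3⟩ := hDNP (𝓞 F ⧸ v.asIdeal)
  rw [card_k] at hP2 hP3
  refine ⟨fun h6 => ?_, fun h3 => ?_, fun h3 => ?_, fun a b h hd => ?_, fun h6 => ?_⟩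
  · have h2' : (2 : 𝓞 F ⧸ v.asIdeal) ≠ 0 := by
      intro h
      apply h6
      have e : (6 : 𝓞 F) = 3 * 2 := by norm_num
      rw [e]
      exact Ideal.mul_mem_left _ _ ((hz 2).2 (by rw [num_mk]; exact h))
    have h3' : (3 : 𝓞 F ⧸ v.asIdeal) ≠ 0 := by
      intro h
      apply h6
      have e : (6 : 𝓞 F) = 2 * 3 := by norm_num
      rw [e]
      exact Ideal.mul_mem_left _ _ ((hz 3).2 (by rw [num_mk]; exact h))
    have hQ := hDNQ (𝓞 F ⧸ v.asIdeal) h2' h3'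
    rw [card_k] at hQ
    rw [← hQ]
    congr 2
    apply cls_eq
    intro a b
    constructor
    · rintro h ⟨r, hr⟩
      obtain ⟨y, rfl⟩ := hsurj r
      apply h y
      rw [hz, map_add, map_pow, hdsc]
      change _ = Ideal.Quotient.mk v.asIdeal y * Ideal.Quotient.mk v.asIdeal y at hr
      rw [pow_two, ← hr]
      ring
    · intro h x hx
      rw [hz, map_add, map_pow, hdsc] at hx
      apply h
      refine ⟨Ideal.Quotient.mk v.asIdeal x, ?_⟩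
      change -(4 * (Ideal.Quotient.mk v.asIdeal a) ^ 3 +
        27 * (Ideal.Quotient.mk v.asIdeal b) ^ 2) = _
      rw [← pow_two]
      exact (eq_neg_of_add_eq_zero_left hx).symm
  · rw [hcube]
    exact hP2 (by rw [← num_mk]; exact fun h => h3 ((hz 3).2 h))
  · rw [hcube]
    exact hP3 (by rw [← num_mk]; exact (hz 3).1 h3)
  · rw [hz, hdsc] at hd
    obtain ⟨x, hx⟩ := hP1 _ _ hd
    obtain ⟨y, rfl⟩ := hsurj x
    apply h y
    rw [hz, hcub]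
    exact hx
  · have hc := (hDNZ F v h6).2.2
    have hfin2 : Finite (𝓞 F ⧸ v.asIdeal ^ 2) := by
      apply Nat.finite_of_card_ne_zero
      rw [card_sq]
      exact (pow_pos (nv_pos v) 2).ne'
    have hfp : Finite ((𝓞 F ⧸ v.asIdeal ^ 2) × (𝓞 F ⧸ v.asIdeal ^ 2)) := inferInstance
    have hu : Clm (v.asIdeal ^ 2) {p : 𝓞 F × 𝓞 F | dsc p.1 p.2 ∉ v.asIdeal ^ 2} ∪
        Clm (v.asIdeal ^ 2) {p : 𝓞 F × 𝓞 F | dsc p.1 p.2 ∈ v.asIdeal ^ 2} = Set.univ := by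
      rw [Set.eq_univ_iff_forall]
      rintro ⟨α, β⟩
      obtain ⟨a, rfl⟩ := Ideal.Quotient.mk_surjective α
      obtain ⟨b, rfl⟩ := Ideal.Quotient.mk_surjective β
      by_cases h : dsc a b ∈ v.asIdeal ^ 2
      · exact Or.inr ⟨(a, b), h, rfl⟩
      · exact Or.inl ⟨(a, b), h, rfl⟩
    have h1 := Set.ncard_union_le
      (Clm (v.asIdeal ^ 2) {p : 𝓞 F × 𝓞 F | dsc p.1 p.2 ∉ v.asIdeal ^ 2})
      (Clm (v.asIdeal ^ 2) {p : 𝓞 F × 𝓞 F | dsc p.1 p.2 ∈ v.asIdeal ^ 2})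
    rw [hu, Set.ncard_univ, Nat.card_prod, card_sq] at h1
    have e : nv v ^ 2 * nv v ^ 2 = nv v ^ 4 := by ring
    rw [e] at h1
    exact h1.trans (Nat.add_le_add_left hc _)

end Pool.Agent.Lib.MP_8cb858_nt.PF
end

section
/-!
# DNW: the local conditions, upper bound
-/
namespace Pool.Agent.Lib.MP_8cb858_nt.PF

open NumberField IsDedekindDomain Pool.Agent.Lib.MP_8cb858_nt.SEL
open scoped Classical

namespace DNWM

section per

variable {R : Type} [CommRing R]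

theorem per_of {J : Ideal R} (T : Set (R × R))
    (h : ∀ a b a' b' : R, a - a' ∈ J → b - b' ∈ J → (a, b) ∈ T → (a', b') ∈ T) : Per J T := by
  intro a b a' b' h1 h2
  refine ⟨h a b a' b' h1 h2, h a' b' a b ?_ ?_⟩
  · rw [← neg_sub]
    exact J.neg_mem h1
  · rw [← neg_sub]
    exact J.neg_mem h2

/-- The condition at the places of `P`. -/
def TP (J : Ideal R) : Set (R × R) := {p | ∀ x : R, x ^ 3 + p.1 * x + p.2 ∉ J}

/-- The condition at the places of `Q`. -/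
def TQ (J : Ideal R) : Set (R × R) := {p | ∀ x : R, x ^ 2 + dsc p.1 p.2 ∉ J}

/-- The squarefree condition. -/
def TS (J : Ideal R) : Set (R × R) := {p | dsc p.1 p.2 ∉ J}

theorem dsc_sub {J : Ideal R} {a b a' b' : R} (h1 : a - a' ∈ J) (h2 : b - b' ∈ J) :
    dsc a b - dsc a' b' ∈ J := by
  have e : dsc a b - dsc a' b' =
      (4 * (a ^ 2 + a * a' + a' ^ 2)) * (a - a') + (27 * (b + b')) * (b - b') := by
    unfold dsc
    ring
  rw [e]
  exact J.add_mem (J.mul_mem_left _ h1) (J.mul_mem_left _ h2)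

theorem perP (J : Ideal R) : Per J (TP J) := by
  refine per_of _ fun a b a' b' h1 h2 h x hx => h x ?_
  simp only at hx ⊢
  have e : x ^ 3 + a * x + b = (x ^ 3 + a' * x + b') + (x * (a - a') + (b - b')) := by ring
  rw [e]
  exact J.add_mem hx (J.add_mem (J.mul_mem_left _ h1) h2)

theorem perQ (J : Ideal R) : Per J (TQ J) := by
  refine per_of _ fun a b a' b' h1 h2 h x hx => h x ?_
  simp only at hx ⊢
  have e : x ^ 2 + dsc a b = (x ^ 2 + dsc a' b') + (dsc a b - dsc a' b') := by ring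
  rw [e]
  exact J.add_mem hx (dsc_sub h1 h2)

theorem perS (J : Ideal R) : Per J (TS J) := by
  refine per_of _ fun a b a' b' h1 h2 h hx => h ?_
  simp only at hx ⊢
  have e : dsc a b = dsc a' b' + (dsc a b - dsc a' b') := by ring
  rw [e]
  exact J.add_mem hx (dsc_sub h1 h2)

end per

variable {F : Type} [Field F] [NumberField F]

theorem cop {v w : HeightOneSpectrum (𝓞 F)} (h : v ≠ w) : IsCoprime v.asIdeal w.asIdeal := by
  rw [Ideal.isCoprime_iff_sup_eq]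
  have hv := v.isMaximal
  have hw := w.isMaximal
  exact hv.coprime_of_ne hw fun e => h (HeightOneSpectrum.ext e)

theorem two_le (v : HeightOneSpectrum (𝓞 F)) : (2 : ℝ) ≤ nv v := by
  have h0 : nv v ≠ 0 := by
    unfold nv
    rw [Ne, Ideal.absNorm_eq_zero_iff]
    exact v.ne_bot
  have h1 : nv v ≠ 1 := by
    unfold nv
    rw [Ne, Ideal.absNorm_eq_one_iff]
    exact v.isPrime.ne_top
  have h2 : 2 ≤ nv v := by omega
  exact_mod_cast h2

/-- The number of classes at a place of `Q`. -/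
theorem cQ (hDNI : SpecDNI) (v : HeightOneSpectrum (𝓞 F)) (h6 : (6 : 𝓞 F) ∉ v.asIdeal) :
    ((Clm v.asIdeal (TQ v.asIdeal)).ncard : ℝ) = dQ v * (nv v : ℝ) ^ 2 := by
  have h := (hDNI F v).1 h6
  have h2 := two_le v
  have h3 : ((nv v - 1 : ℕ) : ℝ) = (nv v : ℝ) - 1 := by
    have : 2 ≤ nv v := by exact_mod_cast h2
    rw [Nat.cast_sub (by omega), Nat.cast_one]
  have h4 : (2 : ℝ) * ((Clm v.asIdeal (TQ v.asIdeal)).ncard : ℝ) = nv v * (nv v - 1) := by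
    rw [← h3]
    exact_mod_cast h
  have h5 : (nv v : ℝ) ≠ 0 := by linarith
  unfold dQ
  field_simp
  linarith

/-- The number of classes at a place of `P`. -/
theorem cP (hDNI : SpecDNI) (v : HeightOneSpectrum (𝓞 F)) :
    ((Clm v.asIdeal (TP v.asIdeal)).ncard : ℝ) ≤ dP v * (nv v : ℝ) ^ 2 ∧
    (if (3 : 𝓞 F) ∈ v.asIdeal then (1 / 2 : ℝ) else 1) * (dP v * (nv v : ℝ) ^ 2) ≤
      ((Clm v.asIdeal (TP v.asIdeal)).ncard : ℝ) := by
  have h2 := two_le v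
  have h5 : (nv v : ℝ) ≠ 0 := by linarith
  have e : dP v * (nv v : ℝ) ^ 2 = ((nv v : ℝ) ^ 2 - 1) / 3 := by
    unfold dP
    field_simp
  rw [e]
  by_cases h3 : (3 : 𝓞 F) ∈ v.asIdeal
  · have h := (hDNI F v).2.2.1 h3
    rw [if_pos h3]
    have h6 : ((nv v - 1 : ℕ) : ℝ) = (nv v : ℝ) - 1 := by
      have : 2 ≤ nv v := by exact_mod_cast h2
      rw [Nat.cast_sub (by omega), Nat.cast_one]
    have h4 : (3 : ℝ) * ((Clm v.asIdeal (TP v.asIdeal)).ncard : ℝ) = nv v * (nv v - 1) := by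
      rw [← h6]
      exact_mod_cast h
    constructor <;> nlinarith
  · have h := (hDNI F v).2.1 h3
    rw [if_neg h3]
    have h4 : (3 : ℝ) * ((Clm v.asIdeal (TP v.asIdeal)).ncard : ℝ) + 1 = (nv v : ℝ) ^ 2 := by
      exact_mod_cast h
    constructor <;> linarith

theorem dQ_nonneg (v : HeightOneSpectrum (𝓞 F)) : 0 ≤ dQ v := by
  have h2 := two_le v
  unfold dQ
  have : 1 / (nv v : ℝ) ≤ 1 := by
    rw [div_le_one (by linarith)]
    linarith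
  linarith

theorem dP_nonneg (v : HeightOneSpectrum (𝓞 F)) : 0 ≤ dP v := by
  have h2 := two_le v
  unfold dP
  have : 1 / (nv v : ℝ) ^ 2 ≤ 1 := by
    rw [div_le_one (by positivity)]
    nlinarith
  linarith

end DNWM

open DNWM in
theorem specDNW (hDNC : SpecDNC) (hDNI : SpecDNI) : SpecDNW := by
  intro F _ _ Q P h6 hdis
  have hd : Disjoint Q P := Finset.disjoint_left.2 hdis
  obtain ⟨T, hT⟩ : ∃ T : HeightOneSpectrum (𝓞 F) → Set (𝓞 F × 𝓞 F),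
      T = fun v => if v ∈ Q then TQ v.asIdeal else TP v.asIdeal := ⟨_, rfl⟩
  have hTQ : ∀ v ∈ Q, T v = TQ v.asIdeal := fun v hv => by rw [hT]; exact if_pos hv
  have hTP : ∀ v ∈ P, T v = TP v.asIdeal := fun v hv => by
    rw [hT]
    exact if_neg fun h => hdis v h hv
  have hper : ∀ v ∈ Q ∪ P, Per v.asIdeal (T v) := by
    intro v hv
    rcases Finset.mem_union.1 hv with h | h
    · rw [hTQ v h]
      exact perQ _
    · rw [hTP v h]
      exact perP _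
  obtain ⟨h1, h2⟩ := hDNC (𝓞 F) (HeightOneSpectrum (𝓞 F)) (Q ∪ P) (fun v => v.asIdeal) T hper
    (fun v _ w _ hvw => cop hvw)
  have e : {p : 𝓞 F × 𝓞 F | ∀ v ∈ Q ∪ P, p ∈ T v} =
      {q : 𝓞 F × 𝓞 F | (∀ w ∈ P, ∀ x : 𝓞 F, x ^ 3 + q.1 * x + q.2 ∉ w.asIdeal) ∧
        ∀ v ∈ Q, ∀ x : 𝓞 F, x ^ 2 + dsc q.1 q.2 ∉ v.asIdeal} := by
    ext q
    constructor
    · intro h
      refine ⟨fun w hw => ?_, fun v hv => ?_⟩
      · have := h w (Finset.mem_union_right _ hw)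
        rw [hTP w hw] at this
        exact this
      · have := h v (Finset.mem_union_left _ hv)
        rw [hTQ v hv] at this
        exact this
    · intro h v hv
      rcases Finset.mem_union.1 hv with h' | h'
      · rw [hTQ v h']
        exact h.2 v h'
      · rw [hTP v h']
        exact h.1 v h'
  rw [e] at h1 h2
  refine ⟨∏ v ∈ Q ∪ P, v.asIdeal, ?_, h1, ?_⟩
  · rw [← Ideal.zero_eq_bot]
    exact Finset.prod_ne_zero_iff.2 fun v _ => v.ne_bot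
  · rw [h2, map_prod]
    push_cast
    rw [Finset.prod_union hd, Finset.prod_union hd]
    have a1 : ∏ v ∈ Q, ((Clm v.asIdeal (T v)).ncard : ℝ) =
        (∏ v ∈ Q, dQ v) * (∏ v ∈ Q, (Ideal.absNorm v.asIdeal : ℝ)) ^ 2 := by
      rw [← Finset.prod_pow, ← Finset.prod_mul_distrib]
      refine Finset.prod_congr rfl fun v hv => ?_
      rw [hTQ v hv]
      exact cQ hDNI v (h6 v hv)
    have a2 : ∏ v ∈ P, ((Clm v.asIdeal (T v)).ncard : ℝ) ≤
        (∏ v ∈ P, dP v) * (∏ v ∈ P, (Ideal.absNorm v.asIdeal : ℝ)) ^ 2 := by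
      rw [← Finset.prod_pow, ← Finset.prod_mul_distrib]
      refine Finset.prod_le_prod (fun v _ => Nat.cast_nonneg _) fun v hv => ?_
      rw [hTP v hv]
      exact (cP hDNI v).1
    rw [a1]
    have a3 : 0 ≤ (∏ v ∈ Q, dQ v) * (∏ v ∈ Q, (Ideal.absNorm v.asIdeal : ℝ)) ^ 2 :=
      mul_nonneg (Finset.prod_nonneg fun v _ => dQ_nonneg v) (sq_nonneg _)
    refine (mul_le_mul_of_nonneg_left a2 a3).trans (le_of_eq ?_)
    ring

end Pool.Agent.Lib.MP_8cb858_nt.PF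
end

section
/-!
# DNR: the local conditions, lower bound
-/
namespace Pool.Agent.Lib.MP_8cb858_nt.PF

open NumberField IsDedekindDomain Pool.Agent.Lib.MP_8cb858_nt.SEL
open scoped Classical

namespace DNRM

open DNWM

variable {F : Type} [Field F] [NumberField F]

/-- The number of classes for the squarefree condition. -/
theorem cS (hDNI : SpecDNI) (v : HeightOneSpectrum (𝓞 F)) (h6 : (6 : 𝓞 F) ∉ v.asIdeal) :
    (1 - 3 / (nv v : ℝ) ^ 2) * (Ideal.absNorm (v.asIdeal ^ 2) : ℝ) ^ 2 ≤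
      ((Clm (v.asIdeal ^ 2) (TS (v.asIdeal ^ 2))).ncard : ℝ) := by
  have h := (hDNI F v).2.2.2.2 h6
  have h2 := two_le v
  have h4 : (nv v : ℝ) ^ 4 ≤ ((Clm (v.asIdeal ^ 2) (TS (v.asIdeal ^ 2))).ncard : ℝ) +
      3 * (nv v : ℝ) ^ 2 := by
    exact_mod_cast h
  have h5 : (nv v : ℝ) ≠ 0 := by linarith
  have e : (Ideal.absNorm (v.asIdeal ^ 2) : ℝ) = (nv v : ℝ) ^ 2 := by
    rw [map_pow]
    push_cast
    rfl
  rw [e]
  have e2 : (1 - 3 / (nv v : ℝ) ^ 2) * ((nv v : ℝ) ^ 2) ^ 2 = (nv v : ℝ) ^ 4 - 3 * (nv v : ℝ) ^ 2 := by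
    field_simp
  rw [e2]
  linarith

/-- The class modulo `k`. -/
theorem perC (k : ℕ) (cl : 𝓞 F × 𝓞 F) : Per (Ideal.span {(k : 𝓞 F)}) (Cls k cl) := by
  refine per_of _ fun a b a' b' h1 h2 h => ⟨?_, ?_⟩
  · have e : a' - cl.1 = (a - cl.1) - (a - a') := by ring
    simp only
    rw [e]
    exact Ideal.sub_mem _ h.1 h1
  · have e : b' - cl.2 = (b - cl.2) - (b - b') := by ring
    simp only
    rw [e]
    exact Ideal.sub_mem _ h.2 h2

theorem oneC (k : ℕ) (cl : 𝓞 F × 𝓞 F) :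
    (Clm (Ideal.span {(k : 𝓞 F)}) (Cls k cl)).ncard = 1 := by
  rw [Set.ncard_eq_one]
  refine ⟨(Ideal.Quotient.mk _ cl.1, Ideal.Quotient.mk _ cl.2), ?_⟩
  ext x
  rw [Set.mem_singleton_iff]
  constructor
  · rintro ⟨q, hq, rfl⟩
    exact Prod.ext (Ideal.Quotient.eq.2 hq.1) (Ideal.Quotient.eq.2 hq.2)
  · rintro rfl
    refine ⟨cl, ⟨?_, ?_⟩, rfl⟩
    · rw [sub_self]
      exact Ideal.zero_mem _
    · rw [sub_self]
      exact Ideal.zero_mem _

theorem copk {k : ℕ} {v : HeightOneSpectrum (𝓞 F)} (h : (k : 𝓞 F) ∉ v.asIdeal) :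
    IsCoprime (Ideal.span {(k : 𝓞 F)}) v.asIdeal := by
  rw [Ideal.isCoprime_iff_sup_eq]
  refine v.isMaximal.1.2 _ (lt_of_le_of_ne le_sup_right fun e => h ?_)
  rw [e]
  exact Ideal.mem_sup_left (Ideal.mem_span_singleton_self _)

theorem normk (k : ℕ) : (Ideal.absNorm (Ideal.span {(k : 𝓞 F)}) : ℝ) =
    (k : ℝ) ^ Module.finrank ℚ F := by
  have e : (k : 𝓞 F) = algebraMap ℤ (𝓞 F) (k : ℤ) := by simp
  rw [Ideal.absNorm_span_singleton, e, Algebra.norm_algebraMap, RingOfIntegers.rank,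
    Int.natAbs_pow, Int.natAbs_natCast]
  push_cast
  rfl

theorem six_of {k : ℕ} (hk : 6 ∣ k) {v : HeightOneSpectrum (𝓞 F)} (h : (k : 𝓞 F) ∉ v.asIdeal) :
    (6 : 𝓞 F) ∉ v.asIdeal := by
  obtain ⟨m, rfl⟩ := hk
  intro h6
  apply h
  push_cast
  exact Ideal.mul_mem_right _ _ h6

theorem three_of {v : HeightOneSpectrum (𝓞 F)} (h : (6 : 𝓞 F) ∉ v.asIdeal) :
    (3 : 𝓞 F) ∉ v.asIdeal := by
  intro h3
  apply h
  have e : (6 : 𝓞 F) = 2 * 3 := by norm_num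
  rw [e]
  exact Ideal.mul_mem_left _ _ h3

end DNRM

open DNWM DNRM in
theorem specDNR (hDNC : SpecDNC) (hDNV : SpecDNV) (hDNI : SpecDNI) : SpecDNR := by
  intro F _ _ k hk hk6
  obtain ⟨-, hV2, hV3, -, -, hV6, hV7⟩ := hDNV F
  have hkR : (0 : ℝ) < k := by exact_mod_cast hk
  refine ⟨(2 / 5) ^ Module.finrank ℚ F / ((k : ℝ) ^ Module.finrank ℚ F) ^ 2, by positivity,
    fun cl Q P M hQP hdis => ?_⟩
  obtain ⟨S, hS⟩ : ∃ S : Finset (HeightOneSpectrum (𝓞 F)),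
      ∀ v, v ∈ S ↔ (nv v ≤ M ∧ v ∉ Q ∧ v ∉ P ∧ (k : 𝓞 F) ∉ v.asIdeal) := by
    have hfin : {v : HeightOneSpectrum (𝓞 F) |
        nv v ≤ M ∧ v ∉ Q ∧ v ∉ P ∧ (k : 𝓞 F) ∉ v.asIdeal}.Finite := by
      refine (hV3 (M : ℝ)).subset fun v hv => ?_
      exact_mod_cast hv.1
    exact ⟨hfin.toFinset, fun v => by rw [Set.Finite.mem_toFinset]; rfl⟩
  have hd1 : Disjoint Q P := Finset.disjoint_left.2 hdis
  have hd2 : Disjoint (Q ∪ P) S := by
    refine Finset.disjoint_left.2 fun v hv hv' => ?_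
    have := (hS v).1 hv'
    rcases Finset.mem_union.1 hv with h | h
    · exact this.2.1 h
    · exact this.2.2.1 h
  have hk0 : ∀ v ∈ (Q ∪ P) ∪ S, (k : 𝓞 F) ∉ v.asIdeal := by
    intro v hv
    rcases Finset.mem_union.1 hv with h | h
    · exact hQP v h
    · exact ((hS v).1 h).2.2.2
  have h6 : ∀ v ∈ (Q ∪ P) ∪ S, (6 : 𝓞 F) ∉ v.asIdeal := fun v hv => six_of hk6 (hk0 v hv)
  have hS6 : ∀ v ∈ S, (6 : 𝓞 F) ∉ v.asIdeal := fun v hv => h6 v (Finset.mem_union_right _ hv)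
  have hQ6 : ∀ v ∈ Q, (6 : 𝓞 F) ∉ v.asIdeal := fun v hv =>
    h6 v (Finset.mem_union_left _ (Finset.mem_union_left _ hv))
  have hP6 : ∀ v ∈ P, (6 : 𝓞 F) ∉ v.asIdeal := fun v hv =>
    h6 v (Finset.mem_union_left _ (Finset.mem_union_right _ hv))
  obtain ⟨T, hT⟩ : ∃ T : HeightOneSpectrum (𝓞 F) → Set (𝓞 F × 𝓞 F),
      T = fun v => if v ∈ Q then TQ v.asIdeal else if v ∈ P then TP v.asIdeal else
        TS (v.asIdeal ^ 2) := ⟨_, rfl⟩
  obtain ⟨J, hJ⟩ : ∃ J : HeightOneSpectrum (𝓞 F) → Ideal (𝓞 F),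
      J = fun v => if v ∈ Q then v.asIdeal else if v ∈ P then v.asIdeal else
        v.asIdeal ^ 2 := ⟨_, rfl⟩
  have hTQ : ∀ v ∈ Q, T v = TQ v.asIdeal := fun v hv => by rw [hT]; exact if_pos hv
  have hTP : ∀ v ∈ P, T v = TP v.asIdeal := fun v hv => by
    rw [hT]
    simp only
    rw [if_neg fun h => hdis v h hv, if_pos hv]
  have hTS : ∀ v ∈ S, T v = TS (v.asIdeal ^ 2) := fun v hv => by
    rw [hT]
    simp only
    rw [if_neg ((hS v).1 hv).2.1, if_neg ((hS v).1 hv).2.2.1]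
  have hJQ : ∀ v ∈ Q, J v = v.asIdeal := fun v hv => by rw [hJ]; exact if_pos hv
  have hJP : ∀ v ∈ P, J v = v.asIdeal := fun v hv => by
    rw [hJ]
    simp only
    rw [if_neg fun h => hdis v h hv, if_pos hv]
  have hJS : ∀ v ∈ S, J v = v.asIdeal ^ 2 := fun v hv => by
    rw [hJ]
    simp only
    rw [if_neg ((hS v).1 hv).2.1, if_neg ((hS v).1 hv).2.2.1]
  have hJe : ∀ v, ∃ e : ℕ, J v = v.asIdeal ^ e := by
    intro v
    rw [hJ]
    simp only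
    split_ifs
    · exact ⟨1, (pow_one _).symm⟩
    · exact ⟨1, (pow_one _).symm⟩
    · exact ⟨2, rfl⟩
  obtain ⟨T', hT'⟩ : ∃ T' : Option (HeightOneSpectrum (𝓞 F)) → Set (𝓞 F × 𝓞 F),
      T' none = Cls k cl ∧ ∀ v, T' (some v) = T v :=
    ⟨fun o => o.elim (Cls k cl) T, rfl, fun v => rfl⟩
  obtain ⟨J', hJ'⟩ : ∃ J' : Option (HeightOneSpectrum (𝓞 F)) → Ideal (𝓞 F),
      J' none = Ideal.span {(k : 𝓞 F)} ∧ ∀ v, J' (some v) = J v :=
    ⟨fun o => o.elim (Ideal.span {(k : 𝓞 F)}) J, rfl, fun v => rfl⟩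
  have hper : ∀ o ∈ Finset.insertNone ((Q ∪ P) ∪ S), Per (J' o) (T' o) := by
    intro o ho
    rcases o with _ | v
    · rw [hJ'.1, hT'.1]
      exact perC k cl
    · have hv : v ∈ (Q ∪ P) ∪ S := Finset.some_mem_insertNone.1 ho
      rw [hJ'.2, hT'.2]
      rcases Finset.mem_union.1 hv with h | h
      · rcases Finset.mem_union.1 h with h | h
        · rw [hTQ v h, hJQ v h]
          exact perQ _
        · rw [hTP v h, hJP v h]
          exact perP _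
      · rw [hTS v h, hJS v h]
        exact perS _
  have hcop : ∀ o ∈ Finset.insertNone ((Q ∪ P) ∪ S), ∀ o' ∈ Finset.insertNone ((Q ∪ P) ∪ S),
      o ≠ o' → IsCoprime (J' o) (J' o') := by
    intro o ho o' ho' hoo
    rcases o with _ | v
    · rcases o' with _ | w
      · exact absurd rfl hoo
      · have hw : w ∈ (Q ∪ P) ∪ S := Finset.some_mem_insertNone.1 ho'
        rw [hJ'.1, hJ'.2]
        obtain ⟨f, hf⟩ := hJe w
        rw [hf]
        exact (copk (hk0 w hw)).pow_right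
    · have hv : v ∈ (Q ∪ P) ∪ S := Finset.some_mem_insertNone.1 ho
      rcases o' with _ | w
      · rw [hJ'.1, hJ'.2]
        obtain ⟨e, he⟩ := hJe v
        rw [he]
        exact (copk (hk0 v hv)).symm.pow_left
      · rw [hJ'.2, hJ'.2]
        obtain ⟨e, he⟩ := hJe v
        obtain ⟨f, hf⟩ := hJe w
        rw [he, hf]
        exact (cop fun h => hoo (by rw [h])).pow
  obtain ⟨h1, h2⟩ := hDNC (𝓞 F) (Option (HeightOneSpectrum (𝓞 F)))
    (Finset.insertNone ((Q ∪ P) ∪ S)) J' T' hper hcop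
  refine ⟨∏ o ∈ Finset.insertNone ((Q ∪ P) ∪ S), J' o,
    {p | ∀ i ∈ Finset.insertNone ((Q ∪ P) ∪ S), p ∈ T' i}, ?_, h1, ?_, ?_⟩
  · rw [← Ideal.zero_eq_bot]
    refine Finset.prod_ne_zero_iff.2 fun o _ => ?_
    rcases o with _ | v
    · rw [hJ'.1, Ideal.zero_eq_bot, Ne, Ideal.span_singleton_eq_bot]
      exact_mod_cast hk.ne'
    · obtain ⟨e, he⟩ := hJe v
      rw [hJ'.2, he]
      exact pow_ne_zero _ v.ne_bot
  · rw [h2, map_prod, Finset.prod_insertNone, Finset.prod_insertNone, hT'.1, hJ'.1, oneC]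
    push_cast
    rw [normk]
    have hce : ∀ v, (Clm (J' (some v)) (T' (some v))).ncard = (Clm (J v) (T v)).ncard := by
      intro v
      rw [hJ'.2, hT'.2]
    simp only [hce, hJ'.2]
    rw [Finset.prod_union hd2, Finset.prod_union hd1, Finset.prod_union hd2,
      Finset.prod_union hd1]
    have a1 : ∏ v ∈ Q, ((Clm (J v) (T v)).ncard : ℝ) =
        (∏ v ∈ Q, dQ v) * (∏ v ∈ Q, (Ideal.absNorm (J v) : ℝ)) ^ 2 := by
      rw [← Finset.prod_pow, ← Finset.prod_mul_distrib]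
      refine Finset.prod_congr rfl fun v hv => ?_
      rw [hTQ v hv, hJQ v hv]
      exact cQ hDNI v (hQ6 v hv)
    have a2 : (∏ v ∈ P, dP v) * (∏ v ∈ P, (Ideal.absNorm (J v) : ℝ)) ^ 2 ≤
          ∏ v ∈ P, ((Clm (J v) (T v)).ncard : ℝ) := by
      rw [← Finset.prod_pow, ← Finset.prod_mul_distrib]
      refine Finset.prod_le_prod (fun v _ => mul_nonneg (dP_nonneg v) (sq_nonneg _))
        fun v hv => ?_
      rw [hTP v hv, hJP v hv]
      have h := (cP hDNI v).2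
      rw [if_neg (three_of (hP6 v hv)), one_mul] at h
      exact h
    have a3 : (2 / 5 : ℝ) ^ Module.finrank ℚ F * (∏ v ∈ S, (Ideal.absNorm (J v) : ℝ)) ^ 2 ≤
        ∏ v ∈ S, ((Clm (J v) (T v)).ncard : ℝ) := by
      refine le_trans (mul_le_mul_of_nonneg_right (hV7 S hS6) (sq_nonneg _)) ?_
      rw [← Finset.prod_pow, ← Finset.prod_mul_distrib]
      refine Finset.prod_le_prod (fun v hv => ?_) fun v hv => ?_
      · have h5 : (5 : ℝ) ≤ nv v := by exact_mod_cast hV6 v (hS6 v hv)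
        refine mul_nonneg ?_ (sq_nonneg _)
        rw [sub_nonneg, div_le_one (by positivity)]
        nlinarith
      · rw [hTS v hv, hJS v hv]
        exact cS hDNI v (hS6 v hv)
    rw [a1]
    have q0 : 0 ≤ (∏ v ∈ Q, dQ v) * (∏ v ∈ Q, (Ideal.absNorm (J v) : ℝ)) ^ 2 :=
      mul_nonneg (Finset.prod_nonneg fun v _ => dQ_nonneg v) (sq_nonneg _)
    have p0 : 0 ≤ (∏ v ∈ P, dP v) * (∏ v ∈ P, (Ideal.absNorm (J v) : ℝ)) ^ 2 :=
      mul_nonneg (Finset.prod_nonneg fun v _ => dP_nonneg v) (sq_nonneg _)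
    have s0 : 0 ≤ (2 / 5 : ℝ) ^ Module.finrank ℚ F *
        (∏ v ∈ S, (Ideal.absNorm (J v) : ℝ)) ^ 2 := by positivity
    have m1 := mul_le_mul_of_nonneg_left a2 q0
    have m2 := mul_le_mul m1 a3 s0 (mul_nonneg q0 (p0.trans a2))
    rw [one_mul]
    refine le_trans (le_of_eq ?_) m2
    have hkn : (k : ℝ) ^ Module.finrank ℚ F ≠ 0 := by positivity
    obtain ⟨κ, hκ⟩ : ∃ κ, κ = (k : ℝ) ^ Module.finrank ℚ F := ⟨_, rfl⟩
    rw [← hκ] at hkn ⊢
    field_simp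
  · intro q hq
    have mC : q ∈ Cls k cl := by
      rw [← hT'.1]
      exact hq none (by simp)
    have mem : ∀ v ∈ (Q ∪ P) ∪ S, q ∈ T v := fun v hv => by
      rw [← hT'.2]
      exact hq (some v) (Finset.some_mem_insertNone.2 hv)
    have mQ : ∀ v ∈ Q, q ∈ TQ v.asIdeal := fun v hv => by
      rw [← hTQ v hv]
      exact mem v (Finset.mem_union_left _ (Finset.mem_union_left _ hv))
    have mP : ∀ v ∈ P, q ∈ TP v.asIdeal := fun v hv => by
      rw [← hTP v hv]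
      exact mem v (Finset.mem_union_left _ (Finset.mem_union_right _ hv))
    have mS : ∀ v ∈ S, q ∈ TS (v.asIdeal ^ 2) := fun v hv => by
      rw [← hTS v hv]
      exact mem v (Finset.mem_union_right _ hv)
    refine ⟨mC, mP, mQ, fun v hvk hv => ?_⟩
    by_cases hvQ : v ∈ Q
    · intro h
      refine mQ v hvQ 0 ?_
      have e : (0 : 𝓞 F) ^ 2 + dsc q.1 q.2 = dsc q.1 q.2 := by ring
      rw [e]
      exact Ideal.pow_le_self two_ne_zero h
    · by_cases hvP : v ∈ P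
      · intro h
        exact (hDNI F v).2.2.2.1 q.1 q.2 (mP v hvP) (Ideal.pow_le_self two_ne_zero h)
      · refine mS v ((hS v).2 ⟨?_, hvQ, hvP, hvk⟩)
        rcases hv with h | h | h
        · exact h
        · exact absurd h hvQ
        · exact absurd h hvP

end Pool.Agent.Lib.MP_8cb858_nt.PF
end

section
/-!
# DNL: lower bound for the size of the family
-/
namespace Pool.Agent.Lib.MP_8cb858_nt.PF

open NumberField IsDedekindDomain Pool.Agent.Lib.MP_8cb858_nt.SEL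
open scoped Classical

namespace DNLM

open DNWM

variable {F : Type} [Field F] [NumberField F]

theorem dQ_pos (v : HeightOneSpectrum (𝓞 F)) : 0 < dQ v := by
  have h2 := two_le v
  unfold dQ
  have : 1 / (nv v : ℝ) < 1 := by
    rw [div_lt_one (by linarith)]
    linarith
  linarith

theorem dP_pos (v : HeightOneSpectrum (𝓞 F)) : 0 < dP v := by
  have h2 := two_le v
  unfold dP
  have : 1 / (nv v : ℝ) ^ 2 < 1 := by
    rw [div_lt_one (by positivity)]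
    nlinarith
  linarith

variable (F) in
/-- There is a place over every prime number. -/
theorem exists_place (p : ℕ) (hp : p.Prime) : ∃ w : HeightOneSpectrum (𝓞 F), (p : 𝓞 F) ∈ w.asIdeal := by
  have h6 : ¬ IsUnit (p : 𝓞 F) := by
    intro h
    have h1 : IsUnit (Algebra.norm ℤ (algebraMap ℤ (𝓞 F) (p : ℤ))) := by
      have e : algebraMap ℤ (𝓞 F) (p : ℤ) = (p : 𝓞 F) := by simp
      rw [e]
      exact h.map _
    rw [Algebra.norm_algebraMap] at h1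
    have h2 : Module.finrank ℤ (𝓞 F) ≠ 0 := by
      rw [RingOfIntegers.rank]
      exact Module.finrank_pos.ne'
    rw [isUnit_pow_iff h2] at h1
    exact (Nat.prime_iff_prime_int.1 hp).not_unit h1
  have h1 : Ideal.span {(p : 𝓞 F)} ≠ ⊤ := by
    rw [Ne, Ideal.span_singleton_eq_top]
    exact h6
  obtain ⟨m, hm, hle⟩ := Ideal.exists_le_maximal _ h1
  have h2 : (p : 𝓞 F) ∈ m := hle (Ideal.mem_span_singleton_self _)
  refine ⟨⟨m, hm.isPrime, ?_⟩, h2⟩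
  rintro rfl
  rw [Ideal.mem_bot] at h2
  exact hp.ne_zero (by exact_mod_cast h2)

variable (F) in
/-- There is a place not containing `k`. -/
theorem exists_not_mem (k : ℕ) (hk : 0 < k) :
    ∃ w : HeightOneSpectrum (𝓞 F), (k : 𝓞 F) ∉ w.asIdeal := by
  obtain ⟨p, hpk, hp⟩ := Nat.exists_infinite_primes (k + 1)
  obtain ⟨w, hw⟩ := exists_place F p hp
  refine ⟨w, fun h => w.isPrime.ne_top ?_⟩
  have hc : Nat.Coprime k p := by
    rw [Nat.coprime_comm, hp.coprime_iff_not_dvd]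
    intro hd
    have := Nat.le_of_dvd hk hd
    omega
  rw [Ideal.eq_top_iff_one]
  have h1 : IsCoprime ((k : ℤ) : 𝓞 F) ((p : ℤ) : 𝓞 F) :=
    (Nat.isCoprime_iff_coprime.2 hc).map (Int.castRingHom (𝓞 F))
  obtain ⟨x, y, hxy⟩ := h1
  rw [← hxy]
  refine Ideal.add_mem _ (Ideal.mul_mem_left _ _ ?_) (Ideal.mul_mem_left _ _ ?_)
  · exact_mod_cast h
  · exact_mod_cast hw

/-- The box, positive at the real places. -/
def PB (s : InfinitePlace F → ℝ) : Set (𝓞 F) :=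
  {x | ∀ v : InfinitePlace F, v (x : F) ≤ s v ∧ (v.IsReal → 0 < (v.embedding (x : F)).re)}

theorem PB_fin (s : InfinitePlace F → ℝ) : (PB s).Finite :=
  (CNUM.box_finite s).subset fun _ hx v => (hx v).1

theorem le_pow_of {x y : ℝ} (k : ℕ) (hk : k ≠ 0) (h1 : 1 ≤ x) (h : y ≤ x) : y ≤ x ^ k :=
  h.trans (le_self_pow₀ h1 hk)

end DNLM

open DNWM DNLM in
theorem specDNL (hDNB : SpecDNB) (hDNK : SpecDNK) (hDNR : SpecDNR) (hDNT : SpecDNT)
    (hDNY : SpecDNY) : SpecDNL := by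
  intro F _ _ k hk hk6
  obtain ⟨c0, hc0, hR⟩ := hDNR F k hk hk6
  obtain ⟨v0, hv0⟩ := exists_not_mem F k hk
  obtain ⟨c1, hc1, hB⟩ := hDNB F
  obtain ⟨CT, hCT, hT⟩ := hDNT F
  obtain ⟨CY, hCY, hY⟩ := hDNY F
  refine ⟨c0 * c1 ^ 2 / 2, by positivity, fun cl Q P hQP hdis => ?_⟩
  obtain ⟨dq, hdq⟩ : ∃ dq, dq = ∏ v ∈ Q, dQ v := ⟨_, rfl⟩
  obtain ⟨dp, hdp⟩ : ∃ dp, dp = ∏ v ∈ P, dP v := ⟨_, rfl⟩
  have hdq0 : 0 < dq := by rw [hdq]; exact Finset.prod_pos fun v _ => dQ_pos v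
  have hdp0 : 0 < dp := by rw [hdp]; exact Finset.prod_pos fun v _ => dP_pos v
  rw [← hdq, ← hdp]
  obtain ⟨δ, hδ⟩ : ∃ δ, δ = c0 * c1 ^ 2 * dq * dp := ⟨_, rfl⟩
  have hδ0 : 0 < δ := by rw [hδ]; positivity
  obtain ⟨M, hM0, hMv, hM⟩ : ∃ M : ℕ, 0 < M ∧ nv v0 ≤ M ∧
      CT / (M : ℝ) + CY / (M : ℝ) ≤ δ / 8 := by
    refine ⟨max (nv v0 + 1) ⌈8 * (CT + CY) / δ⌉₊,
      lt_of_lt_of_le (Nat.succ_pos _) (le_max_left _ _),
      (Nat.le_succ _).trans (le_max_left _ _), ?_⟩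
    have h1 : 8 * (CT + CY) / δ ≤ ((max (nv v0 + 1) ⌈8 * (CT + CY) / δ⌉₊ : ℕ) : ℝ) :=
      (Nat.le_ceil _).trans (by exact_mod_cast le_max_right _ _)
    have h2 : (0 : ℝ) < ((max (nv v0 + 1) ⌈8 * (CT + CY) / δ⌉₊ : ℕ) : ℝ) := by
      have : 0 < max (nv v0 + 1) ⌈8 * (CT + CY) / δ⌉₊ :=
        lt_of_lt_of_le (Nat.succ_pos _) (le_max_left _ _)
      exact_mod_cast this
    rw [← add_div, div_le_iff₀ h2]
    rw [div_le_iff₀ hδ0] at h1
    linarith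
  obtain ⟨R1, hR1⟩ := hT M (δ / 8) hM0 (by positivity)
  obtain ⟨R2, hR2⟩ := hY M (δ / 8) hM0 (by positivity)
  obtain ⟨J, T, hJ0, hper, hcard, hTm⟩ := hR cl Q P M hQP hdis
  obtain ⟨S0, hS⟩ := hB J hJ0
  rw [← hdq, ← hdp] at hcard
  refine ⟨max (max R1 R2) (max 1 S0), fun ρ hρ => ?_⟩
  have k1 : ∀ v, R1 ≤ ρ v := fun v => (le_max_left _ _).trans ((le_max_left _ _).trans (hρ v))
  have k2 : ∀ v, R2 ≤ ρ v := fun v => (le_max_right _ _).trans ((le_max_left _ _).trans (hρ v))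
  have k3 : ∀ v, 1 ≤ ρ v := fun v => (le_max_left _ _).trans ((le_max_right _ _).trans (hρ v))
  have k4 : ∀ v, S0 ≤ ρ v := fun v => (le_max_right _ _).trans ((le_max_right _ _).trans (hρ v))
  have hY1 : 1 ≤ vol ρ := CNUM.one_le_vol k3
  obtain ⟨Y, hYe⟩ : ∃ Y, Y = vol ρ := ⟨_, rfl⟩
  obtain ⟨N, hN⟩ : ∃ N : ℝ, N = (Ideal.absNorm J : ℝ) := ⟨_, rfl⟩
  have hN0 : 0 < N := by
    rw [hN]
    have h : Ideal.absNorm J ≠ 0 := by
      rw [Ne, Ideal.absNorm_eq_zero_iff]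
      exact hJ0
    exact_mod_cast Nat.pos_of_ne_zero h
  have hY0 : 0 < Y := by rw [hYe]; linarith
  -- one class
  have hA : ∀ x0 : 𝓞 F, c1 * (Y ^ 2 / N) ≤
      ({x : 𝓞 F | x ∈ PB (fun v => ρ v ^ 2) ∧ x - x0 ∈ J}.ncard : ℝ) := by
    intro x0
    have h := hS x0 (fun v => ρ v ^ 2) (fun v => le_pow_of 2 two_ne_zero (k3 v) (k4 v))
    rw [CNUM.vol_pow, ← hYe, ← hN] at h
    refine h.trans (le_of_eq ?_)
    congr 2
    ext x
    exact and_comm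
  have hB' : ∀ x0 : 𝓞 F, c1 * (Y ^ 3 / N) ≤
      ({x : 𝓞 F | x ∈ PB (fun v => ρ v ^ 3) ∧ x - x0 ∈ J}.ncard : ℝ) := by
    intro x0
    have h := hS x0 (fun v => ρ v ^ 3) (fun v => le_pow_of 3 three_ne_zero (k3 v) (k4 v))
    rw [CNUM.vol_pow, ← hYe, ← hN] at h
    refine h.trans (le_of_eq ?_)
    congr 2
    ext x
    exact and_comm
  have hfin : Finite (𝓞 F ⧸ J) := Ideal.finiteQuotientOfFreeOfNeBot J hJ0
  have hK := (hDNK (𝓞 F) J T (PB (fun v => ρ v ^ 2)) (PB (fun v => ρ v ^ 3)) (c1 * (Y ^ 2 / N))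
    (c1 * (Y ^ 3 / N)) hfin hper (PB_fin _) (PB_fin _) (by positivity) (by positivity)).2 hA hB'
  obtain ⟨X, hX⟩ : ∃ X : Set (𝓞 F × 𝓞 F), X = {p : 𝓞 F × 𝓞 F | p ∈ T ∧
      p.1 ∈ PB (fun v => ρ v ^ 2) ∧ p.2 ∈ PB (fun v => ρ v ^ 3)} := ⟨_, rfl⟩
  rw [← hX] at hK
  have hmain : δ * Y ^ 5 ≤ (X.ncard : ℝ) := by
    refine le_trans ?_ hK
    have h1 : c0 * dq * dp * N ^ 2 * (c1 * (Y ^ 2 / N) * (c1 * (Y ^ 3 / N))) ≤
        ((Clm J T).ncard : ℝ) * (c1 * (Y ^ 2 / N) * (c1 * (Y ^ 3 / N))) := by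
      rw [hN] at hK ⊢
      exact mul_le_mul_of_nonneg_right hcard (by rw [← hN]; positivity)
    refine le_trans (le_of_eq ?_) h1
    rw [hδ]
    field_simp
  -- the tails
  obtain ⟨XT, hXT⟩ : ∃ X : Set (𝓞 F × 𝓞 F), X = {q : 𝓞 F × 𝓞 F | q ∈ Bx F ρ ∧
      ∃ v : HeightOneSpectrum (𝓞 F), (6 : 𝓞 F) ∉ v.asIdeal ∧
        M < nv v ∧ q.1 ∉ v.asIdeal ∧ dsc q.1 q.2 ∈ v.asIdeal ^ 2} := ⟨_, rfl⟩
  obtain ⟨XY, hXY⟩ : ∃ X : Set (𝓞 F × 𝓞 F), X = {q : 𝓞 F × 𝓞 F | q ∈ Bx F ρ ∧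
      ∃ v : HeightOneSpectrum (𝓞 F), (6 : 𝓞 F) ∉ v.asIdeal ∧
        M < nv v ∧ q.1 ∈ v.asIdeal ∧ dsc q.1 q.2 ∈ v.asIdeal ^ 2} := ⟨_, rfl⟩
  have tT := hR1 ρ k1
  have tY := hR2 ρ k2
  rw [← hXT, ← hYe] at tT
  rw [← hXY, ← hYe] at tY
  have hbx : (Bx F ρ).Finite := by
    refine ((CNUM.box_finite (fun v => ρ v ^ 2)).prod
      (CNUM.box_finite (fun v => ρ v ^ 3))).subset ?_
    rintro ⟨a, b⟩ h
    exact ⟨fun v => (h.2 v).1, fun v => (h.2 v).2⟩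
  have fT : XT.Finite := by
    rw [hXT]
    exact hbx.subset fun q hq => hq.1
  have fY : XY.Finite := by
    rw [hXY]
    exact hbx.subset fun q hq => hq.1
  have fF : (Fam k cl Q P ∩ Bx F ρ).Finite := hbx.subset fun q hq => hq.2
  have hsub : X ⊆ ((Fam k cl Q P ∩ Bx F ρ) ∪ XT) ∪ XY := by
    intro q hq
    rw [hX] at hq
    obtain ⟨h1, h2, h3⟩ := hq
    obtain ⟨g0, g1, g2, g3⟩ := hTm q h1
    have hq0 : q ∈ Bx F ρ := by
      refine ⟨?_, fun v => ⟨(h2 v).1, (h3 v).1⟩⟩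
      intro h0
      refine g3 v0 hv0 (Or.inl hMv) ?_
      have e : dsc q.1 q.2 = 0 := h0
      rw [e]
      exact Ideal.zero_mem _
    by_cases hx : q ∈ XT
    · exact Or.inl (Or.inr hx)
    by_cases hy : q ∈ XY
    · exact Or.inr hy
    refine Or.inl (Or.inl ⟨⟨fun v => (h2 v).2, g0, g1, g2, fun v hvk hv => ?_⟩, hq0⟩)
    by_cases hc : nv v ≤ M ∨ v ∈ Q ∨ v ∈ P
    · exact g3 v hvk hc hv
    · have hM' : M < nv v := by
        by_contra h
        exact hc (Or.inl (not_lt.1 h))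
      have h6' : (6 : 𝓞 F) ∉ v.asIdeal := DNRM.six_of hk6 hvk
      by_cases ha : q.1 ∈ v.asIdeal
      · apply hy
        rw [hXY]
        exact ⟨hq0, v, h6', hM', ha, hv⟩
      · apply hx
        rw [hXT]
        exact ⟨hq0, v, h6', hM', ha, hv⟩
  have hcount : (X.ncard : ℝ) ≤ ((Fam k cl Q P ∩ Bx F ρ).ncard : ℝ) + (XT.ncard : ℝ) +
      (XY.ncard : ℝ) := by
    have h1 := Set.ncard_le_ncard hsub ((fF.union fT).union fY)
    have h2 := Set.ncard_union_le ((Fam k cl Q P ∩ Bx F ρ) ∪ XT) XY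
    have h3 := Set.ncard_union_le (Fam k cl Q P ∩ Bx F ρ) XT
    have h4 : X.ncard ≤ (Fam k cl Q P ∩ Bx F ρ).ncard + XT.ncard + XY.ncard := by omega
    exact_mod_cast h4
  rw [← hYe]
  have hY5 : 0 < Y ^ 5 := by positivity
  have e1 : c0 * c1 ^ 2 / 2 * dq * dp * Y ^ 5 = δ / 2 * Y ^ 5 := by
    rw [hδ]
    ring
  rw [e1]
  have e2 : (CT / (M : ℝ) + δ / 8) * Y ^ 5 + (CY / (M : ℝ) + δ / 8) * Y ^ 5 ≤
      3 / 8 * δ * Y ^ 5 := by
    rw [← add_mul]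
    refine mul_le_mul_of_nonneg_right ?_ hY5.le
    linarith
  have e3 : 0 < δ * Y ^ 5 := by positivity
  linarith

end Pool.Agent.Lib.MP_8cb858_nt.PF
end

section
/-!
# DNU: the family in an annulus, upper bound
-/
namespace Pool.Agent.Lib.MP_8cb858_nt.PF

open NumberField IsDedekindDomain Pool.Agent.Lib.MP_8cb858_nt.SEL
open scoped Classical

namespace DNUM

lemma dQ_nonneg {F : Type} [Field F] [NumberField F] (v : HeightOneSpectrum (𝓞 F)) : 0 ≤ dQ v := by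
  unfold dQ
  rcases Nat.eq_zero_or_pos (nv v) with h | h
  · rw [h]; norm_num
  · have h1 : (1 : ℝ) ≤ nv v := by exact_mod_cast h
    have h2 : 1 / (nv v : ℝ) ≤ 1 := by rw [div_le_one (by linarith)]; exact h1
    linarith

lemma dP_nonneg {F : Type} [Field F] [NumberField F] (v : HeightOneSpectrum (𝓞 F)) : 0 ≤ dP v := by
  unfold dP
  rcases Nat.eq_zero_or_pos (nv v) with h | h
  · rw [h]; norm_num
  · have h1 : (1 : ℝ) ≤ nv v := by exact_mod_cast h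
    have h2 : 1 / (nv v : ℝ) ^ 2 ≤ 1 := by
      rw [div_le_one (by positivity)]; exact one_le_pow₀ h1
    linarith

variable {F : Type} [Field F] [NumberField F]

/-- the number of elements of a class in a box -/
lemma dna_box {C1 : ℝ} {I : Ideal (𝓞 F)}
    (h : ∀ (x0 : 𝓞 F) (c : InfinitePlace F → ℂ) (s : InfinitePlace F → ℝ), (∀ v, 0 < s v) →
      {x : 𝓞 F | x - x0 ∈ I ∧ ∀ v : InfinitePlace F, ‖v.embedding (x : F) - c v‖ ≤ s v}.Finite ∧
      ({x : 𝓞 F | x - x0 ∈ I ∧ ∀ v : InfinitePlace F, ‖v.embedding (x : F) - c v‖ ≤ s v}.ncard : ℝ) ≤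
        C1 * max 1 (vol s / Ideal.absNorm I))
    (x0 : 𝓞 F) (s : InfinitePlace F → ℝ) (hs : ∀ v, 0 < s v) :
    ({x : 𝓞 F | x ∈ CNUM.box F s ∧ x - x0 ∈ I}.ncard : ℝ) ≤
      C1 * max 1 (vol s / Ideal.absNorm I) := by
  have h1 := (h x0 0 s hs).2
  have h2 : {x : 𝓞 F | x ∈ CNUM.box F s ∧ x - x0 ∈ I} =
      {x : 𝓞 F | x - x0 ∈ I ∧ ∀ v : InfinitePlace F,
        ‖v.embedding (x : F) - (0 : InfinitePlace F → ℂ) v‖ ≤ s v} := by
    ext x
    simp only [Set.mem_ofPred_eq, Pi.zero_apply, sub_zero, InfinitePlace.norm_embedding_eq,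
      CNUM.box]
    tauto
  rw [h2]
  exact h1

lemma card_place_le : (Fintype.card (InfinitePlace F) : ℝ) ≤ Module.finrank ℚ F := by
  have h1 : Fintype.card (InfinitePlace F) ≤ Module.finrank ℚ F := by
    rw [← InfinitePlace.sum_mult_eq (K := F), Fintype.card, Finset.card_eq_sum_ones]
    exact Finset.sum_le_sum fun v _ => Nat.one_le_iff_ne_zero.2 InfinitePlace.mult_ne_zero
  exact_mod_cast h1

end DNUM

open DNUM in
theorem specDNU (hDNA : SpecDNA) (hDNS : SpecDNS) (hDNK : SpecDNK) (hDNW : SpecDNW) : SpecDNU := by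
  intro F _ _
  obtain ⟨C1, hC1, hA⟩ := hDNA F
  obtain ⟨C2, hC2, hS⟩ := hDNS F
  set n := Module.finrank ℚ F with hn
  have hn0 : 0 < n := Module.finrank_pos
  have hn1 : (1 : ℝ) ≤ n := by exact_mod_cast hn0
  have hC10 : 0 < C1 := by linarith
  refine ⟨10 * n * C1 * C2 * 8 ^ n, by positivity, ?_⟩
  intro k cl Q P ε l _ hk6 hkQP hQP hε hl1 hl2
  have hQ6 : ∀ v ∈ Q, (6 : 𝓞 F) ∉ v.asIdeal := by
    intro v hv h6
    obtain ⟨m, hm⟩ := hk6
    apply hkQP v (Finset.mem_union_left _ hv)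
    rw [hm]
    push_cast
    exact Ideal.mul_mem_right _ _ h6
  obtain ⟨J, hJ, hPer, hCls⟩ := hDNW F Q P hQ6 hQP
  set T : Set (𝓞 F × 𝓞 F) := {q : 𝓞 F × 𝓞 F | (∀ w ∈ P, ∀ x : 𝓞 F,
    x ^ 3 + q.1 * x + q.2 ∉ w.asIdeal) ∧ ∀ v ∈ Q, ∀ x : 𝓞 F, x ^ 2 + dsc q.1 q.2 ∉ v.asIdeal} with hT
  have hfinJ : Finite (𝓞 F ⧸ J) := Ideal.finiteQuotientOfFreeOfNeBot J hJ
  set N : ℕ := Ideal.absNorm J with hN
  have hN0 : 0 < N := by
    rw [hN, Nat.pos_iff_ne_zero, Ne, Ideal.absNorm_eq_zero_iff]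
    exact hJ
  have hN1 : (1 : ℝ) ≤ N := by exact_mod_cast hN0
  have hl0 : 0 < l := by linarith
  have hl2' : l ^ 2 ≤ 4 := by nlinarith
  have hl3' : l ^ 3 ≤ 8 := by nlinarith [sq_nonneg l]
  set ε' : ℝ := ε / (2 * n * C1 * 8 ^ n) with hε'
  have hε'0 : 0 < ε' := by positivity
  obtain ⟨S2, hS2⟩ := hS J ε' (l ^ 2) hJ hε'0 (one_le_pow₀ hl1) (by linarith)
  obtain ⟨S3, hS3⟩ := hS J ε' (l ^ 3) hJ hε'0 (one_le_pow₀ hl1) hl3'
  refine ⟨max (N : ℝ) (max S2 S3), ?_⟩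
  intro ρ hρ
  have hρN : ∀ v, (N : ℝ) ≤ ρ v := fun v => (le_max_left _ _).trans (hρ v)
  have hρ1 : ∀ v, 1 ≤ ρ v := fun v => hN1.trans (hρN v)
  have hρ0 : ∀ v, 0 < ρ v := fun v => by linarith [hρ1 v]
  have hρ2 : ∀ v, S2 ≤ ρ v ^ 2 := fun v =>
    ((le_max_left _ _).trans (le_max_right _ _)).trans ((hρ v).trans
      (le_self_pow₀ (hρ1 v) (by norm_num)))
  have hρ3 : ∀ v, S3 ≤ ρ v ^ 3 := fun v =>
    ((le_max_right _ _).trans (le_max_right _ _)).trans ((hρ v).trans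
      (le_self_pow₀ (hρ1 v) (by norm_num)))
  set Y : ℝ := vol ρ with hY
  have hY1 : 1 ≤ Y := CNUM.one_le_vol hρ1
  have hYN : (N : ℝ) ≤ Y := by
    have h1 := CNUM.vol_mono (r := fun _ : InfinitePlace F => (N : ℝ)) (s := ρ)
      (fun _ => by positivity) hρN
    rw [CNUM.vol_const] at h1
    exact (le_self_pow₀ hN1 hn0.ne').trans h1
  have hY0 : 0 < Y := by linarith
  -- the shapes
  set sA : InfinitePlace F → ℝ := fun v => l ^ 2 * ρ v ^ 2 with hsA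
  set sB : InfinitePlace F → ℝ := fun v => l ^ 3 * ρ v ^ 3 with hsB
  have hsA0 : ∀ v, 0 < sA v := fun v => by have := hρ0 v; positivity
  have hsB0 : ∀ v, 0 < sB v := fun v => by have := hρ0 v; positivity
  have hvA : vol sA = (l ^ 2) ^ n * Y ^ 2 := by
    rw [hsA, CNUM.vol_mul (fun _ => l ^ 2) (fun v => ρ v ^ 2), CNUM.vol_const, CNUM.vol_pow]
  have hvB : vol sB = (l ^ 3) ^ n * Y ^ 3 := by
    rw [hsB, CNUM.vol_mul (fun _ => l ^ 3) (fun v => ρ v ^ 3), CNUM.vol_const, CNUM.vol_pow]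
  have hN0' : (0 : ℝ) < N := by linarith
  have hUA : max 1 (vol sA / N) ≤ 8 ^ n * (Y ^ 2 / N) := by
    have h8 : (1 : ℝ) ≤ 8 ^ n := one_le_pow₀ (by norm_num)
    have hYY : 1 ≤ Y ^ 2 / N := by
      rw [one_le_div hN0']
      nlinarith
    refine max_le (one_le_mul_of_one_le_of_one_le h8 hYY) ?_
    rw [hvA, mul_div_assoc]
    refine mul_le_mul_of_nonneg_right (pow_le_pow_left₀ (by positivity) (by linarith) _)
      (by positivity)
  have hUB : max 1 (vol sB / N) ≤ 8 ^ n * (Y ^ 3 / N) := by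
    have h8 : (1 : ℝ) ≤ 8 ^ n := one_le_pow₀ (by norm_num)
    have hYY : 1 ≤ Y ^ 3 / N := by
      rw [one_le_div hN0']
      exact hYN.trans (le_self_pow₀ hY1 (by norm_num))
    refine max_le (one_le_mul_of_one_le_of_one_le h8 hYY) ?_
    rw [hvB, mul_div_assoc]
    refine mul_le_mul_of_nonneg_right (pow_le_pow_left₀ (by positivity) hl3' _)
      (by positivity)
  set UA : ℝ := C1 * (8 ^ n * (Y ^ 2 / N)) with hUAd
  set UB : ℝ := C1 * (8 ^ n * (Y ^ 3 / N)) with hUBd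
  set WA : ℝ := (C2 * (l ^ 2 - 1) + ε') * (Y ^ 2 / N) with hWAd
  set WB : ℝ := (C2 * (l ^ 3 - 1) + ε') * (Y ^ 3 / N) with hWBd
  have hl21 : 0 ≤ l ^ 2 - 1 := by nlinarith
  have hl31 : 0 ≤ l ^ 3 - 1 := by nlinarith [sq_nonneg l, one_le_pow₀ hl1 (n := 3)]
  have hUA0 : 0 ≤ UA := by positivity
  have hUB0 : 0 ≤ UB := by positivity
  have hWA0 : 0 ≤ WA := by positivity
  have hWB0 : 0 ≤ WB := by positivity
  have bA : ∀ x0 : 𝓞 F, ({x : 𝓞 F | x ∈ CNUM.box F sA ∧ x - x0 ∈ J}.ncard : ℝ) ≤ UA := fun x0 =>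
    (dna_box (fun x0 c s hs => hA J x0 c s hJ hs) x0 sA hsA0).trans
      (mul_le_mul_of_nonneg_left hUA hC10.le)
  have bB : ∀ x0 : 𝓞 F, ({x : 𝓞 F | x ∈ CNUM.box F sB ∧ x - x0 ∈ J}.ncard : ℝ) ≤ UB := fun x0 =>
    (dna_box (fun x0 c s hs => hA J x0 c s hJ hs) x0 sB hsB0).trans
      (mul_le_mul_of_nonneg_left hUB hC10.le)
  let rA : InfinitePlace F → Set (𝓞 F) := fun u =>
    {x | x ∈ CNUM.box F sA ∧ ρ u ^ 2 < u (x : F)}
  let rB : InfinitePlace F → Set (𝓞 F) := fun u =>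
    {x | x ∈ CNUM.box F sB ∧ ρ u ^ 3 < u (x : F)}
  have cA : ∀ u, ∀ x0 : 𝓞 F, ({x : 𝓞 F | x ∈ rA u ∧ x - x0 ∈ J}.ncard : ℝ) ≤ WA := by
    intro u x0
    have h1 := hS2 x0 (fun v => ρ v ^ 2) u hρ2
    rw [CNUM.vol_pow] at h1
    refine le_trans (le_of_eq ?_) h1
    congr 2
    ext x
    simp only [rA, CNUM.box, hsA, Set.mem_ofPred_eq]
    tauto
  have cB : ∀ u, ∀ x0 : 𝓞 F, ({x : 𝓞 F | x ∈ rB u ∧ x - x0 ∈ J}.ncard : ℝ) ≤ WB := by
    intro u x0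
    have h1 := hS3 x0 (fun v => ρ v ^ 3) u hρ3
    rw [CNUM.vol_pow] at h1
    refine le_trans (le_of_eq ?_) h1
    congr 2
    ext x
    simp only [rB, CNUM.box, hsB, Set.mem_ofPred_eq]
    tauto
  have fA : (CNUM.box F sA).Finite := CNUM.box_finite sA
  have fB : (CNUM.box F sB).Finite := CNUM.box_finite sB
  have frA : ∀ u, (rA u).Finite := fun u => fA.subset fun x hx => hx.1
  have frB : ∀ u, (rB u).Finite := fun u => fB.subset fun x hx => hx.1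
  have k1 : ∀ u, ({p : 𝓞 F × 𝓞 F | p ∈ T ∧ p.1 ∈ rA u ∧ p.2 ∈ CNUM.box F sB}.ncard : ℝ) ≤
      (Clm J T).ncard * (WA * UB) := fun u =>
    (hDNK (𝓞 F) J T (rA u) (CNUM.box F sB) WA UB hfinJ hPer (frA u) fB hWA0 hUB0).1 (cA u) bB
  have k2 : ∀ u, ({p : 𝓞 F × 𝓞 F | p ∈ T ∧ p.1 ∈ CNUM.box F sA ∧ p.2 ∈ rB u}.ncard : ℝ) ≤
      (Clm J T).ncard * (UA * WB) := fun u =>
    (hDNK (𝓞 F) J T (CNUM.box F sA) (rB u) UA WB hfinJ hPer fA (frB u) hUA0 hWB0).1 bA (cB u)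
  let Z : InfinitePlace F → Set (𝓞 F × 𝓞 F) := fun u =>
    {p : 𝓞 F × 𝓞 F | p ∈ T ∧ p.1 ∈ rA u ∧ p.2 ∈ CNUM.box F sB} ∪
    {p : 𝓞 F × 𝓞 F | p ∈ T ∧ p.1 ∈ CNUM.box F sA ∧ p.2 ∈ rB u}
  have hZfin : ∀ u, (Z u).Finite := by
    intro u
    refine Set.Finite.union ?_ ?_
    · exact ((frA u).prod fB).subset fun p hp => Set.mk_mem_prod hp.2.1 hp.2.2
    · exact (fA.prod (frB u)).subset fun p hp => Set.mk_mem_prod hp.2.1 hp.2.2
  have hsub : (Fam k cl Q P ∩ (Bx F (fun v => l * ρ v) \ Bx F ρ)) ⊆ ⋃ u, Z u := by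
    rintro ⟨a, b⟩ ⟨hfam, hbig, hsmall⟩
    have hTm : (a, b) ∈ T := ⟨hfam.2.2.1, hfam.2.2.2.1⟩
    have hab : ∀ v : InfinitePlace F, v (a : F) ≤ sA v ∧ v (b : F) ≤ sB v := by
      intro v
      have h1 := hbig.2 v
      simp only [mul_pow] at h1
      exact h1
    have h2 : ∃ u : InfinitePlace F, ρ u ^ 2 < u (a : F) ∨ ρ u ^ 3 < u (b : F) := by
      by_contra hcon
      push Not at hcon
      exact hsmall ⟨hbig.1, fun v => hcon v⟩
    obtain ⟨u, hu⟩ := h2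
    refine Set.mem_iUnion.2 ⟨u, ?_⟩
    rcases hu with hu | hu
    · exact Or.inl ⟨hTm, ⟨fun v => (hab v).1, hu⟩, fun v => (hab v).2⟩
    · exact Or.inr ⟨hTm, fun v => (hab v).1, ⟨fun v => (hab v).2, hu⟩⟩
  have hcard : ((Fam k cl Q P ∩ (Bx F (fun v => l * ρ v) \ Bx F ρ)).ncard : ℝ) ≤
      (n : ℝ) * ((Clm J T).ncard * (WA * UB) + (Clm J T).ncard * (UA * WB)) := by
    have h1 : (Fam k cl Q P ∩ (Bx F (fun v => l * ρ v) \ Bx F ρ)).ncard ≤ ∑ u, (Z u).ncard :=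
      (Set.ncard_le_ncard hsub (Set.finite_iUnion hZfin)).trans (Set.ncard_iUnion_le_of_fintype Z)
    have h2 : ∀ u, ((Z u).ncard : ℝ) ≤
        (Clm J T).ncard * (WA * UB) + (Clm J T).ncard * (UA * WB) := by
      intro u
      have h3 := Set.ncard_union_le
        {p : 𝓞 F × 𝓞 F | p ∈ T ∧ p.1 ∈ rA u ∧ p.2 ∈ CNUM.box F sB}
        {p : 𝓞 F × 𝓞 F | p ∈ T ∧ p.1 ∈ CNUM.box F sA ∧ p.2 ∈ rB u}
      have h4 : ((Z u).ncard : ℝ) ≤
          (({p : 𝓞 F × 𝓞 F | p ∈ T ∧ p.1 ∈ rA u ∧ p.2 ∈ CNUM.box F sB}.ncard +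
          {p : 𝓞 F × 𝓞 F | p ∈ T ∧ p.1 ∈ CNUM.box F sA ∧ p.2 ∈ rB u}.ncard : ℕ) : ℝ) := by
        exact_mod_cast h3
      rw [Nat.cast_add] at h4
      exact h4.trans (add_le_add (k1 u) (k2 u))
    calc ((Fam k cl Q P ∩ (Bx F (fun v => l * ρ v) \ Bx F ρ)).ncard : ℝ)
        ≤ ((∑ u, (Z u).ncard : ℕ) : ℝ) := by exact_mod_cast h1
      _ = ∑ u, ((Z u).ncard : ℝ) := by push_cast; rfl
      _ ≤ ∑ _u : InfinitePlace F,
          ((Clm J T).ncard * (WA * UB) + (Clm J T).ncard * (UA * WB)) :=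
          Finset.sum_le_sum fun u _ => h2 u
      _ = (Fintype.card (InfinitePlace F) : ℝ) *
          ((Clm J T).ncard * (WA * UB) + (Clm J T).ncard * (UA * WB)) := by
          rw [Finset.sum_const, nsmul_eq_mul, Finset.card_univ]
      _ ≤ _ := mul_le_mul_of_nonneg_right card_place_le (by positivity)
  set D : ℝ := (∏ v ∈ Q, dQ v) * (∏ v ∈ P, dP v) with hD
  have hD0 : 0 ≤ D := mul_nonneg (Finset.prod_nonneg fun v _ => dQ_nonneg v)
    (Finset.prod_nonneg fun v _ => dP_nonneg v)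
  have hsum : WA * UB + UA * WB =
      C1 * 8 ^ n * (C2 * (l ^ 2 - 1) + C2 * (l ^ 3 - 1) + 2 * ε') * (Y ^ 5 / (N : ℝ) ^ 2) := by
    rw [hWAd, hUBd, hUAd, hWBd]
    field_simp
    ring
  have hfin : (n : ℝ) * ((Clm J T).ncard * (WA * UB) + (Clm J T).ncard * (UA * WB)) ≤
      (n : ℝ) * (D * (C1 * 8 ^ n * (C2 * (l ^ 2 - 1) + C2 * (l ^ 3 - 1) + 2 * ε') * Y ^ 5)) := by
    refine mul_le_mul_of_nonneg_left ?_ (by positivity)
    rw [← mul_add, hsum]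
    refine (mul_le_mul_of_nonneg_right hCls (by positivity)).trans (le_of_eq ?_)
    field_simp
  refine hcard.trans (hfin.trans ?_)
  have hE : (n : ℝ) * (C1 * 8 ^ n * (2 * ε')) = ε := by
    rw [hε']
    field_simp
  have hlast : (n : ℝ) * (C1 * 8 ^ n * (C2 * (l ^ 2 - 1) + C2 * (l ^ 3 - 1) + 2 * ε')) ≤
      10 * n * C1 * C2 * 8 ^ n * (l - 1) + ε := by
    rw [← hE]
    have h1 : l ^ 2 - 1 + (l ^ 3 - 1) ≤ 10 * (l - 1) := by
      have e : 10 * (l - 1) - (l ^ 2 - 1 + (l ^ 3 - 1)) = (l - 1) * ((2 - l) * (l + 4)) := by ring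
      have : 0 ≤ (l - 1) * ((2 - l) * (l + 4)) :=
        mul_nonneg (by linarith) (mul_nonneg (by linarith) (by linarith))
      linarith
    have h2 : 0 ≤ (n : ℝ) * (C1 * 8 ^ n * C2) := by positivity
    nlinarith [mul_le_mul_of_nonneg_left h1 h2]
  calc (n : ℝ) * (D * (C1 * 8 ^ n * (C2 * (l ^ 2 - 1) + C2 * (l ^ 3 - 1) + 2 * ε') * Y ^ 5))
      = ((n : ℝ) * (C1 * 8 ^ n * (C2 * (l ^ 2 - 1) + C2 * (l ^ 3 - 1) + 2 * ε'))) * (D * Y ^ 5) := by
        ring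
    _ ≤ (10 * n * C1 * C2 * 8 ^ n * (l - 1) + ε) * (D * Y ^ 5) :=
        mul_le_mul_of_nonneg_right hlast (by positivity)
    _ = _ := by rw [hD]; ring

end Pool.Agent.Lib.MP_8cb858_nt.PF
end
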