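import Pool.Agent.Lib.MP_8cb858_nt.PF.SpecDN

/-!
# Module DNZ: discriminants in the square of a prime
-/

namespace Pool.Agent.Lib.MP_8cb858_nt.PF

open NumberField IsDedekindDomain Pool.Agent.Lib.MP_8cb858_nt.SEL
open scoped Classical

namespace DNZM

variable {F : Type} [Field F] [NumberField F]

omit [NumberField F] in
lemma two_nmem {v : HeightOneSpectrum (𝓞 F)} (h : (6 : 𝓞 F) ∉ v.asIdeal) :
    (2 : 𝓞 F) ∉ v.asIdeal := fun h2 => h (by
  have : (6 : 𝓞 F) = 3 * 2 := by norm_num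
  rw [this]; exact Ideal.mul_mem_left _ _ h2)

omit [NumberField F] in
lemma three_nmem {v : HeightOneSpectrum (𝓞 F)} (h : (6 : 𝓞 F) ∉ v.asIdeal) :
    (3 : 𝓞 F) ∉ v.asIdeal := fun h2 => h (by
  have : (6 : 𝓞 F) = 2 * 3 := by norm_num
  rw [this]; exact Ideal.mul_mem_left _ _ h2)

omit [NumberField F] in
lemma t27_nmem {v : HeightOneSpectrum (𝓞 F)} (h : (6 : 𝓞 F) ∉ v.asIdeal) :
    (27 : 𝓞 F) ∉ v.asIdeal := fun h2 => three_nmem h (by
  have : (27 : 𝓞 F) = 3 ^ 3 := by norm_num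
  rw [this] at h2
  exact v.isPrime.mem_of_pow_mem _ h2)

omit [NumberField F] in
lemma four_nmem {v : HeightOneSpectrum (𝓞 F)} (h : (6 : 𝓞 F) ∉ v.asIdeal) :
    (4 : 𝓞 F) ∉ v.asIdeal := fun h2 => two_nmem h (by
  have : (4 : 𝓞 F) = 2 ^ 2 := by norm_num
  rw [this] at h2
  exact v.isPrime.mem_of_pow_mem _ h2)

/-- The number of classes modulo `v^2`. -/
lemma card_sq (v : HeightOneSpectrum (𝓞 F)) : Nat.card (𝓞 F ⧸ v.asIdeal ^ 2) = nv v ^ 2 := by
  have h : Ideal.absNorm (v.asIdeal ^ 2) = nv v ^ 2 := by rw [map_pow, nv]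
  rw [← h, Ideal.absNorm_apply, Submodule.cardQuot_apply]

lemma nv_pos (v : HeightOneSpectrum (𝓞 F)) : 0 < nv v :=
  Nat.pos_of_ne_zero fun h => v.ne_bot (Ideal.absNorm_eq_zero_iff.1 h)

lemma finite_sq (v : HeightOneSpectrum (𝓞 F)) : Finite (𝓞 F ⧸ v.asIdeal ^ 2) := by
  apply Nat.finite_of_card_ne_zero
  rw [card_sq]
  exact (pow_pos (nv_pos v) 2).ne'

/-- The classes of the elements of `v` modulo `v^2`. -/
noncomputable def W (v : HeightOneSpectrum (𝓞 F)) : Ideal (𝓞 F ⧸ v.asIdeal ^ 2) :=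
  v.asIdeal.map (Ideal.Quotient.mk (v.asIdeal ^ 2))

lemma card_W (v : HeightOneSpectrum (𝓞 F)) : Nat.card (W v) = nv v := by
  have h1 := Submodule.card_eq_card_quotient_mul_card (W v)
  have hle : v.asIdeal ^ 2 ≤ v.asIdeal := Ideal.pow_le_self two_ne_zero
  have h2 : Nat.card ((𝓞 F ⧸ v.asIdeal ^ 2) ⧸ W v) = nv v := by
    rw [nv, Ideal.absNorm_apply, Submodule.cardQuot_apply]
    exact Nat.card_congr (DoubleQuot.quotQuotEquivQuotOfLE hle).toEquiv
  rw [h2, card_sq, sq] at h1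
  exact Nat.eq_of_mul_eq_mul_right (nv_pos v) h1.symm

omit [NumberField F] in
lemma mk_mem_W {v : HeightOneSpectrum (𝓞 F)} {a : 𝓞 F} (h : a ∈ v.asIdeal) :
    Ideal.Quotient.mk (v.asIdeal ^ 2) a ∈ (W v : Set (𝓞 F ⧸ v.asIdeal ^ 2)) :=
  Ideal.mem_map_of_mem _ h

omit [NumberField F] in
lemma dsc_congr {J : Ideal (𝓞 F)} {a a' b b' : 𝓞 F} (ha : a - a' ∈ J) (hb : b - b' ∈ J)
    (h : dsc a b ∈ J) : dsc a' b' ∈ J := by
  have e : dsc a' b' = dsc a b -
      ((a - a') * (4 * (a ^ 2 + a * a' + a' ^ 2)) + (b - b') * (27 * (b + b'))) := by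
    unfold dsc; ring
  rw [e]
  exact J.sub_mem h (J.add_mem (J.mul_mem_right _ ha) (J.mul_mem_right _ hb))

end DNZM

open DNZM

theorem specDNZ : SpecDNZ := by
  intro F _ _ v h6
  have hp := v.isPrime
  have hle : v.asIdeal ^ 2 ≤ v.asIdeal := Ideal.pow_le_self two_ne_zero
  have p1 : ∀ a b : 𝓞 F, a ∈ v.asIdeal → dsc a b ∈ v.asIdeal ^ 2 → b ∈ v.asIdeal := by
    intro a b ha h
    have h1 : 27 * b ^ 2 ∈ v.asIdeal := by
      have e : 27 * b ^ 2 = dsc a b - a * (4 * a ^ 2) := by unfold dsc; ring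
      rw [e]
      exact v.asIdeal.sub_mem (hle h) (v.asIdeal.mul_mem_right _ ha)
    rcases hp.mem_or_mem h1 with h2 | h2
    · exact absurd h2 (t27_nmem h6)
    · exact hp.mem_of_pow_mem _ h2
  have p2 : ∀ a : 𝓞 F, a ∉ v.asIdeal → ∃ r s : 𝓞 F, ∀ b : 𝓞 F, dsc a b ∈ v.asIdeal ^ 2 →
      b - r ∈ v.asIdeal ^ 2 ∨ b - s ∈ v.asIdeal ^ 2 := by
    intro a ha
    by_cases hex : ∃ b0 : 𝓞 F, dsc a b0 ∈ v.asIdeal ^ 2
    · obtain ⟨b0, hb0⟩ := hex
      refine ⟨b0, -b0, fun b hb => ?_⟩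
      have hb0v : b0 ∉ v.asIdeal := by
        intro h
        have h1 : 4 * a ^ 3 ∈ v.asIdeal := by
          have e : 4 * a ^ 3 = dsc a b0 - b0 * (27 * b0) := by unfold dsc; ring
          rw [e]
          exact v.asIdeal.sub_mem (hle hb0) (v.asIdeal.mul_mem_right _ h)
        rcases hp.mem_or_mem h1 with h2 | h2
        · exact four_nmem h6 h2
        · exact ha (hp.mem_of_pow_mem _ h2)
      have h1 : 27 * ((b - b0) * (b + b0)) ∈ v.asIdeal ^ 2 := by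
        have e : 27 * ((b - b0) * (b + b0)) = dsc a b - dsc a b0 := by unfold dsc; ring
        rw [e]
        exact (v.asIdeal ^ 2).sub_mem hb hb0
      have h2 : (b - b0) * (b + b0) ∈ v.asIdeal ^ 2 := by
        rcases hp.mul_mem_pow _ h1 with h | h
        · exact absurd h (t27_nmem h6)
        · exact h
      rw [sub_neg_eq_add]
      rcases hp.mul_mem_pow _ h2 with h | h
      · rw [mul_comm] at h2
        rcases hp.mul_mem_pow _ h2 with h' | h'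
        · exfalso
          have h3 : 2 * b0 ∈ v.asIdeal := by
            have e : 2 * b0 = (b + b0) - (b - b0) := by ring
            rw [e]
            exact v.asIdeal.sub_mem h' h
          rcases hp.mem_or_mem h3 with h4 | h4
          · exact two_nmem h6 h4
          · exact hb0v h4
        · exact Or.inl h'
      · exact Or.inr h
    · exact ⟨0, 0, fun b hb => absurd ⟨b, hb⟩ hex⟩
  refine ⟨p1, p2, ?_⟩
  have hfin := finite_sq v
  have hfinp : Finite ((𝓞 F ⧸ v.asIdeal ^ 2) × (𝓞 F ⧸ v.asIdeal ^ 2)) := inferInstance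
  have p2' : ∀ α : 𝓞 F ⧸ v.asIdeal ^ 2, ∃ r s : 𝓞 F, Quotient.out α ∉ v.asIdeal →
      ∀ b : 𝓞 F, dsc (Quotient.out α) b ∈ v.asIdeal ^ 2 →
      b - r ∈ v.asIdeal ^ 2 ∨ b - s ∈ v.asIdeal ^ 2 := by
    intro α
    by_cases h : Quotient.out α ∈ v.asIdeal
    · exact ⟨0, 0, fun h' => absurd h h'⟩
    · obtain ⟨r, s, h'⟩ := p2 _ h
      exact ⟨r, s, fun _ => h'⟩
  choose r s hrs using p2'
  have hsub : Clm (v.asIdeal ^ 2) {p : 𝓞 F × 𝓞 F | dsc p.1 p.2 ∈ v.asIdeal ^ 2} ⊆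
      ((W v : Set (𝓞 F ⧸ v.asIdeal ^ 2)) ×ˢ (W v : Set (𝓞 F ⧸ v.asIdeal ^ 2))) ∪
      (Set.range (fun α => (α, Ideal.Quotient.mk (v.asIdeal ^ 2) (r α))) ∪
        Set.range (fun α => (α, Ideal.Quotient.mk (v.asIdeal ^ 2) (s α)))) := by
    rintro _ ⟨⟨a, b⟩, h, rfl⟩
    have h : dsc a b ∈ v.asIdeal ^ 2 := h
    by_cases ha : a ∈ v.asIdeal
    · exact Or.inl ⟨mk_mem_W ha, mk_mem_W (p1 a b ha h)⟩
    · right
      have e : Ideal.Quotient.mk (v.asIdeal ^ 2)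
          (Quotient.out (Ideal.Quotient.mk (v.asIdeal ^ 2) a)) =
          Ideal.Quotient.mk (v.asIdeal ^ 2) a := Quotient.out_eq _
      have e1 : a - Quotient.out (Ideal.Quotient.mk (v.asIdeal ^ 2) a) ∈ v.asIdeal ^ 2 :=
        Ideal.Quotient.eq.1 e.symm
      have h1 : Quotient.out (Ideal.Quotient.mk (v.asIdeal ^ 2) a) ∉ v.asIdeal := by
        intro h'
        apply ha
        have := v.asIdeal.add_mem (hle e1) h'
        rwa [sub_add_cancel] at this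
      have h2 := dsc_congr e1 (b := b) (b' := b) (by rw [sub_self]; exact Ideal.zero_mem _) h
      rcases hrs _ h1 b h2 with h3 | h3
      · left
        exact ⟨_, Prod.ext rfl (Ideal.Quotient.eq.2 h3).symm⟩
      · right
        exact ⟨_, Prod.ext rfl (Ideal.Quotient.eq.2 h3).symm⟩
  have hc := Set.ncard_le_ncard hsub (Set.toFinite _)
  refine hc.trans ((Set.ncard_union_le _ _).trans ?_)
  have c1 : ((W v : Set (𝓞 F ⧸ v.asIdeal ^ 2)) ×ˢ (W v : Set (𝓞 F ⧸ v.asIdeal ^ 2))).ncard =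
      nv v ^ 2 := by
    have : (W v : Set (𝓞 F ⧸ v.asIdeal ^ 2)).ncard = nv v := by
      rw [← card_W v]; rfl
    rw [Set.ncard_prod, this]
    exact (pow_two _).symm
  have c2 : ∀ f : (𝓞 F ⧸ v.asIdeal ^ 2) → (𝓞 F ⧸ v.asIdeal ^ 2) × (𝓞 F ⧸ v.asIdeal ^ 2),
      (Set.range f).ncard ≤ nv v ^ 2 := by
    intro f
    rw [← card_sq, ← Set.image_univ, ← Set.ncard_univ]
    exact Set.ncard_image_le (Set.toFinite _)
  have c3 := (Set.ncard_union_le
    (Set.range (fun α => (α, Ideal.Quotient.mk (v.asIdeal ^ 2) (r α))))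
    (Set.range (fun α => (α, Ideal.Quotient.mk (v.asIdeal ^ 2) (s α)))))
  have c4 := c2 (fun α => (α, Ideal.Quotient.mk (v.asIdeal ^ 2) (r α)))
  have c5 := c2 (fun α => (α, Ideal.Quotient.mk (v.asIdeal ^ 2) (s α)))
  rw [c1]
  omega

end Pool.Agent.Lib.MP_8cb858_nt.PF
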