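import Pool.Agent.Lib.MP_8cb858_nt.PR.Defs

/-!
# Poonen-Rains up to epsilon (p = 2) over every number field: auxiliary definitions

`F` is a number field, `f = X^3 + a X + b`. The generic notions `PR.Hyp` (hyperbolic plane) and
`PR.law` of the case `F = ℚ` are used again.
-/

namespace Pool.Agent.Lib.MP_8cb858_nt.PF

open Polynomial NumberField IsDedekindDomain Pool.Agent.Lib.MP_8cb858_nt.SEL
open scoped Classical WithZero

/-! ## The cubic algebra -/

/-- The polynomial `X^3 + a X + b`. -/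
noncomputable def fpol {R : Type} [CommRing R] (a b : R) : R[X] := X ^ 3 + C a * X + C b

theorem fpol_monic {R : Type} [CommRing R] (a b : R) : (fpol a b).Monic := by
  unfold fpol
  have h : (C a * X + C b).degree < ((3 : ℕ) : WithBot ℕ) :=
    lt_of_le_of_lt degree_linear_le (by norm_num)
  rw [add_assoc]
  exact monic_X_pow_add h

theorem eval₂_fpol {R T : Type} [CommRing R] [CommRing T] (a b : R) (ψ : R →+* T) (t : T) :
    eval₂ ψ t (fpol a b) = t ^ 3 + ψ a * t + ψ b := by
  rw [fpol, eval₂_add, eval₂_add, eval₂_mul, eval₂_pow, eval₂_X, eval₂_C, eval₂_C]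

/-- The algebra `R[X]/(X^3 + a X + b)`. -/
abbrev Lk {R : Type} [CommRing R] (a b : R) : Type := AdjoinRoot (fpol a b)

section ring

variable {R S : Type} [CommRing R] [CommRing S] {a b : R}

/-- The class `θ` of `X`. -/
noncomputable def th (a b : R) : Lk a b := AdjoinRoot.root _

/-- The element `x + y θ + z θ^2`. -/
noncomputable def el (a b x y z : R) : Lk a b :=
  AdjoinRoot.of _ x + AdjoinRoot.of _ y * th a b + AdjoinRoot.of _ z * th a b ^ 2

/-- The `i`-th coordinate, `i = 0, 1, 2` (zero for other `i`). -/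
noncomputable def cf (i : ℕ) (α : Lk a b) : R :=
  (AdjoinRoot.modByMonicHom (fpol_monic a b) α).coeff i

/-- The value at `t` (meaningful if `t` is a root). -/
noncomputable def ev (φ : R →+* S) (t : S) (α : Lk a b) : S :=
  φ (cf 0 α) + φ (cf 1 α) * t + φ (cf 2 α) * t ^ 2

/-- Change of the base ring. -/
noncomputable def upr (φ : R →+* S) (a b : R) : Lk a b →+* Lk (φ a) (φ b) :=
  AdjoinRoot.lift ((AdjoinRoot.of (fpol (φ a) (φ b))).comp φ) (AdjoinRoot.root (fpol (φ a) (φ b)))
    (by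
      have h := AdjoinRoot.eval₂_root (fpol (φ a) (φ b))
      rw [eval₂_fpol] at h ⊢
      exact h)

/-- Units of square norm: they represent the classes in `H^1(K, E[2])`. -/
def InV (α : Lk a b) : Prop := IsUnit α ∧ IsSquare (Algebra.norm R α)

/-- `4 a^3 + 27 b^2`. -/
def dsc (a b : R) : R := 4 * a ^ 3 + 27 * b ^ 2

end ring

section field

variable {K : Type} [Field K] {a b : K}

/-- The class of `α` is in the image of the Kummer map of `E^D : y^2 = x^3 + a D^2 x + b D^3`:
there is `x` with `D (x^3 + a x + b)` a nonzero square and `α D (x - θ)` a square. -/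
def Aff (D : K) (α : Lk a b) : Prop :=
  ∃ x y : K, y ≠ 0 ∧ y ^ 2 = D * (x ^ 3 + a * x + b) ∧
    IsSquare (α * (AdjoinRoot.of _ D * (AdjoinRoot.of _ x - th a b)))

/-- The ternary form `ξ ↦ (coefficient of θ^2 in α ξ^2)` is isotropic. -/
def Iso (α : Lk a b) : Prop := ∃ ξ : Lk a b, ξ ≠ 0 ∧ cf 2 (α * ξ ^ 2) = 0

end field

/-- From a field `F` to an extension `K`. -/
noncomputable def up {F : Type} [Field F] (K : Type) [Field K] [Algebra F K] {a b : F} (α : Lk a b) :
    Lk (algebraMap F K a) (algebraMap F K b) := upr (algebraMap F K) a b α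

/-! ## Local fields -/

/-- `(K, w)` is a nonarchimedean local field: a complete discretely valued field with finite residue
field (`w` takes all values `exp n`, `n : ℤ`). -/
structure IsLF {K : Type} [Field K] (w : Valuation K ℤᵐ⁰) : Prop where
  surj : Function.Surjective w
  fin : Finite (IsLocalRing.ResidueField w.valuationSubring)
  comp : ∀ s : ℕ → K, (∀ n : ℕ, w (s (n + 1) - s n) ≤ WithZero.exp (-(n : ℤ))) →
    ∃ x : K, ∀ n : ℕ, w (x - s n) ≤ WithZero.exp (-(n : ℤ))

section loc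

variable {K : Type} [Field K] (w : Valuation K ℤᵐ⁰) {a b : K}

/-- Integral coordinates. -/
def Itg (h : Lk a b) : Prop := ∀ i : ℕ, w (cf i h) ≤ 1

/-- `α` is a unit of the order `O[θ]` times a square. -/
def Ev (α : Lk a b) : Prop :=
  ∃ g h h' : Lk a b, IsUnit g ∧ Itg w h ∧ Itg w h' ∧ h * h' = 1 ∧ α * g ^ 2 = h

/-- `X^3 + a X + b` has no root modulo the maximal ideal. -/
def T3 (a b : K) : Prop := ∀ x : K, w x ≤ 1 → w (x ^ 3 + a * x + b) = 1

/-- `-(4 a^3 + 27 b^2)` is not a square modulo the maximal ideal. -/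
def T12 (a b : K) : Prop := ∀ x : K, w x ≤ 1 → w (x ^ 2 + dsc a b) = 1

/-- The number of elements of `O / 2 O`. -/
noncomputable def two : ℕ := Nat.card (w.valuationSubring ⧸ Ideal.span {(2 : w.valuationSubring)})

end loc

/-! ## Number fields -/

section glob

variable {F : Type} [Field F]

/-- The curve `E^D : y^2 = x^3 + a D^2 x + b D^3`. -/
noncomputable def cur (a b D : F) : WeierstrassCurve F := curve (a * D ^ 2) (b * D ^ 3)

/-- The cocycle `c` with values in `E^D[2]` corresponds to `α`: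
`σ (√α_i) = e_2(c σ, T_{σ i}) √α_{σ i}`. -/
def Rel {a b : F} (D : F) (α : Lk a b) (c : Gal F → Pt (cur a b D) (AlgebraicClosure F)) : Prop :=
  ∃ t s : Fin 3 → AlgebraicClosure F,
    IsRoots (algebraMap F (AlgebraicClosure F) a) (algebraMap F (AlgebraicClosure F) b) t ∧
    (∀ i, s i ≠ 0 ∧ s i ^ 2 = ev (algebraMap F (AlgebraicClosure F)) (t i) α) ∧
    ∀ (σ : Gal F) (i k : Fin 3), σ (t i) = t k →
      σ (s i) = (sg (fun j => algebraMap F (AlgebraicClosure F) D * t j) (c σ) k :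
        AlgebraicClosure F) * s k

variable [NumberField F]

instance (v : HeightOneSpectrum (𝓞 F)) : CharZero (v.adicCompletion F) :=
  charZero_of_injective_algebraMap (algebraMap F (v.adicCompletion F)).injective

instance (v : InfinitePlace F) : CharZero v.Completion :=
  charZero_of_injective_algebraMap (algebraMap F v.Completion).injective

/-- The valuation of the completion `F_v`. -/
noncomputable abbrev vv (v : HeightOneSpectrum (𝓞 F)) : Valuation (v.adicCompletion F) ℤᵐ⁰ :=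
  Valued.v

/-- The norm of a place. -/
noncomputable def nv (v : HeightOneSpectrum (𝓞 F)) : ℕ := Ideal.absNorm v.asIdeal

/-- `α` represents the Selmer class `z`. -/
def Rep {a b : F} (D : F) (α : Lk a b) (z : Sel 2 (cur a b D)) : Prop :=
  InV α ∧ ∃ c : Cocycles 2 (cur a b D), Rel D α c.1 ∧ QuotientAddGroup.mk c = z

/-- The localisation of the Selmer class `z` at `v` is trivial, for `v` such that `f` has exactly one
root in `F_v` (and the class is a unit class). -/
def Triv {a b : F} (D : F) (v : HeightOneSpectrum (𝓞 F)) (z : Sel 2 (cur a b D)) : Prop :=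
  ∃ (α : Lk a b) (t : v.adicCompletion F), Rep D α z ∧
    t ^ 3 + algebraMap F (v.adicCompletion F) a * t + algebraMap F (v.adicCompletion F) b = 0 ∧
    IsSquare (ev (algebraMap F (v.adicCompletion F)) t α)

/-- The elements satisfying the local conditions of the 2-Selmer group of `E^D`. -/
def SelSet (a b D : F) : Set (Lk a b) :=
  {α | InV α ∧
    (∀ v : HeightOneSpectrum (𝓞 F),
      Aff (algebraMap F (v.adicCompletion F) D) (up (v.adicCompletion F) α)) ∧
    ∀ v : InfinitePlace F, Aff (algebraMap F v.Completion D) (up v.Completion α)}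

/-! ## Families -/

/-- The places of `Q` (active places) are of degree one, unramified, their norms are different prime
numbers `≡ 1 mod 8k`. -/
structure Act (k : ℕ) (Q : Finset (HeightOneSpectrum (𝓞 F))) : Prop where
  prime : ∀ v ∈ Q, (nv v).Prime
  modk : ∀ v ∈ Q, nv v % (8 * k) = 1
  unr : ∀ v ∈ Q, (nv v : 𝓞 F) ∉ v.asIdeal ^ 2
  inj : ∀ v ∈ Q, ∀ w ∈ Q, nv v = nv w → v = w

/-- `P` is not empty, prime to `k`, and contains the other places over the norms of the elements
of `Q`. -/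
structure Cmp (k : ℕ) (Q P : Finset (HeightOneSpectrum (𝓞 F))) : Prop where
  ne : P.Nonempty
  cop : ∀ w ∈ P, (k : 𝓞 F) ∉ w.asIdeal
  dis : ∀ v ∈ Q, v ∉ P
  oth : ∀ v ∈ Q, ∀ w : HeightOneSpectrum (𝓞 F), (nv v : 𝓞 F) ∈ w.asIdeal → w = v ∨ w ∈ P

/-- `m` is neutral: `m ≡ 1 mod 8k` and all places dividing `m` are in `P`. -/
structure Neu (k : ℕ) (P : Finset (HeightOneSpectrum (𝓞 F))) (m : ℕ) : Prop where
  pos : 0 < m
  modk : m % (8 * k) = 1
  mem : ∀ w : HeightOneSpectrum (𝓞 F), (m : 𝓞 F) ∈ w.asIdeal → w ∈ P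

/-- The residue class of the pair `c` modulo `k`. -/
def Cls (k : ℕ) (c : 𝓞 F × 𝓞 F) : Set (𝓞 F × 𝓞 F) :=
  {q | q.1 - c.1 ∈ Ideal.span {(k : 𝓞 F)} ∧ q.2 - c.2 ∈ Ideal.span {(k : 𝓞 F)}}

/-- The family: `a > 0` at the real places, `(a, b) ≡ c mod k`, `f` irreducible at the places of `P`,
`-(4a^3+27b^2)` a nonsquare at the places of `Q`, `4 a^3 + 27 b^2` squarefree outside `k`. -/
def Fam (k : ℕ) (c : 𝓞 F × 𝓞 F) (Q P : Finset (HeightOneSpectrum (𝓞 F))) : Set (𝓞 F × 𝓞 F) :=
  {q | (∀ v : InfinitePlace F, v.IsReal → 0 < (v.embedding (q.1 : F)).re) ∧ q ∈ Cls k c ∧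
    (∀ w ∈ P, ∀ x : 𝓞 F, x ^ 3 + q.1 * x + q.2 ∉ w.asIdeal) ∧
    (∀ v ∈ Q, ∀ x : 𝓞 F, x ^ 2 + dsc q.1 q.2 ∉ v.asIdeal) ∧
    ∀ v : HeightOneSpectrum (𝓞 F), (k : 𝓞 F) ∉ v.asIdeal → dsc q.1 q.2 ∉ v.asIdeal ^ 2}

/-- The number of roots of `f` in the completion `F_v`. -/
noncomputable def nr (a b : 𝓞 F) (v : HeightOneSpectrum (𝓞 F)) : ℕ :=
  Nat.card {t : v.adicCompletion F // t ^ 3 + algebraMap F (v.adicCompletion F) (a : F) * t +
    algebraMap F (v.adicCompletion F) (b : F) = 0}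

/-- The product of the norms of the places of `T`. -/
noncomputable def pr (T : Finset (HeightOneSpectrum (𝓞 F))) : ℕ := ∏ v ∈ T, nv v

/-- The relative density of the condition at `v ∈ Q`: `(q^2 - q)/2` classes of pairs modulo `v`. -/
noncomputable def dQ (v : HeightOneSpectrum (𝓞 F)) : ℝ := (1 - 1 / (nv v : ℝ)) / 2

/-- The relative density of the condition at `v ∈ P`: `(q^2 - 1)/3` classes of pairs modulo `v`. -/
noncomputable def dP (v : HeightOneSpectrum (𝓞 F)) : ℝ := (1 - 1 / (nv v : ℝ) ^ 2) / 3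

variable (F) in
/-- The family given by `a > 0` at the real places, a set of classes of pairs modulo `N`, and
`v^2 ∤ 4 a^3 + 27 b^2` for all primes `v` of `F` prime to `N`. -/
def Cong (N : ℕ) (R : Set ((𝓞 F ⧸ Ideal.span {(N : 𝓞 F)}) × (𝓞 F ⧸ Ideal.span {(N : 𝓞 F)}))) :
    Set (𝓞 F × 𝓞 F) :=
  {q | (∀ v : InfinitePlace F, v.IsReal → 0 < (v.embedding (q.1 : F)).re) ∧
    (Ideal.Quotient.mk (Ideal.span {(N : 𝓞 F)}) q.1,
      Ideal.Quotient.mk (Ideal.span {(N : 𝓞 F)}) q.2) ∈ R ∧
    ∀ v : HeightOneSpectrum (𝓞 F), (N : 𝓞 F) ∉ v.asIdeal →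
      4 * q.1 ^ 3 + 27 * q.2 ^ 2 ∉ v.asIdeal ^ 2}

variable (F) in
/-- The pairs `(a, b)` such that the curve `y^2 = x^3 + a x + b` over `F` has `dim Sel_2 = d`. -/
def Rk (d : ℕ) : Set (𝓞 F × 𝓞 F) :=
  {q | Nat.card (Sel 2 (curve (q.1 : F) (q.2 : F))) = 2 ^ d}

end glob

end Pool.Agent.Lib.MP_8cb858_nt.PF
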