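import Pool.Agent.Lib.MP_8cb858_nt.PF.SpecF

/-!
# FATT: the invariants of an attached integral pair
-/

namespace Pool.Agent.Lib.MP_8cb858_nt.PF

open Polynomial NumberField IsDedekindDomain Pool.Agent.Lib.MP_8cb858_nt.SEL Matrix
open scoped Classical

namespace FATTM

variable {F : Type} [Field F] [NumberField F]

variable (F) in
/-- the inclusion of the integers in the algebraic closure -/
noncomputable def io : 𝓞 F →+* AlgebraicClosure F :=
  (algebraMap F (AlgebraicClosure F)).comp (algebraMap (𝓞 F) F)

theorem io_inj : Function.Injective (io F) :=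
  (algebraMap F (AlgebraicClosure F)).injective.comp (RingOfIntegers.coe_injective)

variable (F) in
/-- integral matrices over the algebraic closure -/
noncomputable def emb : MO F →+* Matrix (Fin 3) (Fin 3) (AlgebraicClosure F) := (io F).mapMatrix

theorem emb_inj : Function.Injective (emb F) := by
  intro A B h
  ext1 i j
  have := congrFun (congrFun h i) j
  exact io_inj this

theorem inc_map (A : MO F) : (inc A).map (algebraMap F (AlgebraicClosure F)) = emb F A := by
  ext i j
  rfl

theorem emb_det (A : MO F) : (emb F A).det = io F A.det := ((io F).map_det A).symm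

theorem emb_adj (A : MO F) : (emb F A).adjugate = emb F A.adjugate :=
  ((io F).map_adjugate A).symm

theorem emb_trace (A : MO F) : (emb F A).trace = io F A.trace := by
  simp [Matrix.trace, emb]

theorem emb_symm {A : MO F} (h : (emb F A).IsSymm) : A.IsSymm := by
  refine emb_inj ?_
  rw [← h.eq]
  ext i j
  simp [emb]

end FATTM

open FATTM in
theorem specFATT (hDET : SpecDET.{0}) (hFID : PR.SpecFID) : SpecFATT := by
  intro F _ _ a b a' b' c P ha hb hatt
  obtain ⟨th, hr, Z, hZ, hA, hB⟩ := hatt
  rw [inc_map] at hA hB
  obtain ⟨-, -, hsA, hsB, hdet, hchar, htr⟩ := hDET (AlgebraicClosure F) _ _ th Z hr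
  rw [hA] at hsA hdet htr
  rw [hB] at hsB htr
  rw [hA, hB] at hchar
  have hd0 : (emb F P.1).det ≠ 0 := by
    intro h0
    rw [h0, zero_mul] at hdet
    exact hZ.1 (pow_eq_zero_iff two_ne_zero |>.1 (neg_eq_zero.1 hdet.symm))
  subst ha hb
  have hcp := fun x : AlgebraicClosure F => hFID.cp (emb F P.1) (emb F P.2) x
  simp only [hchar, htr] at hcp
  have h0 := hcp 0
  have h1 := hcp 1
  have e0 : -(emb F P.2).det = io F b * (emb F P.1).det := by
    show _ = algebraMap F (AlgebraicClosure F) (b : F) * _
    linear_combination -h0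
  have e1 : (emb F P.1 * (emb F P.2).adjugate).trace = io F a * (emb F P.1).det := by
    show _ = algebraMap F (AlgebraicClosure F) (a : F) * _
    linear_combination -h1 + h0
  refine ⟨emb_symm hsA, ?_, emb_symm hsB, ?_, ?_, ?_⟩
  · intro h
    rw [emb_det, h] at hd0
    exact hd0 (map_zero _)
  · apply io_inj
    rw [← emb_trace, map_mul, ← emb_adj, htr, map_zero]
  · apply io_inj
    rw [← emb_trace, map_mul, ← emb_adj, e1, emb_det, map_mul]
  · apply io_inj
    rw [map_neg, ← emb_det, e0, emb_det, map_mul]

end Pool.Agent.Lib.MP_8cb858_nt.PF
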