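import Pool.Agent.Lib.MP_8cb858_nt.PF.SpecF
import Pool.Agent.Lib.MP_8cb858_nt.SEL.BX1

/-!
# FI1: the number of `B` in a class, first type
-/

namespace Pool.Agent.Lib.MP_8cb858_nt.PF

open Polynomial NumberField IsDedekindDomain Pool.Agent.Lib.MP_8cb858_nt.SEL Matrix
open scoped Classical WithZero

namespace FI1M

open BX1M

variable {F : Type} [Field F] [NumberField F]

/-- The integers in a class and in a box. -/
def cl (I : Ideal (𝓞 F)) (r : 𝓞 F) (s : InfinitePlace F → ℝ) : Set (𝓞 F) :=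
  {x | x - r ∈ I ∧ ∀ v : InfinitePlace F, v (x : F) ≤ s v}

/-- Counting symmetric matrices in a class with one linear relation. -/
theorem count5 {C : ℝ} (hC : ∀ (I : Ideal (𝓞 F)) (x0 : 𝓞 F) (c : InfinitePlace F → ℂ)
      (s : InfinitePlace F → ℝ), I ≠ ⊥ → (∀ v, 0 < s v) →
      {x : 𝓞 F | x - x0 ∈ I ∧ ∀ v : InfinitePlace F, ‖v.embedding (x : F) - c v‖ ≤ s v}.Finite ∧
      ({x : 𝓞 F | x - x0 ∈ I ∧ ∀ v : InfinitePlace F, ‖v.embedding (x : F) - c v‖ ≤ s v}.ncard : ℝ) ≤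
        C * max 1 (vol s / Ideal.absNorm I))
    (I : Ideal (𝓞 F)) (hI : I ≠ ⊥) (a : MO F) (ha : a.IsSymm) (p : Fin 6)
    (hp : a (e p).1 (e p).2 ≠ 0) (R : MO F) (t : Fin 6 → InfinitePlace F → ℝ)
    (ht : ∀ q v, 0 < t q v) (S : Set (MO F))
    (hS : ∀ B ∈ S, B.IsSymm ∧ (a * B).trace = 0 ∧
      (∀ (q : Fin 6) (v : InfinitePlace F), v (B (e q).1 (e q).2 : F) ≤ t q v) ∧
      ∀ i j, B i j - R i j ∈ I) :
    S.Finite ∧ (S.ncard : ℝ) ≤
      ∏ k : Fin 5, (C * max 1 (vol (t (p.succAbove k)) / Ideal.absNorm I)) := by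
  have hcl : ∀ (r : 𝓞 F) (s : InfinitePlace F → ℝ), (∀ v, 0 < s v) → (cl I r s).Finite ∧
      ((cl I r s).ncard : ℝ) ≤ C * max 1 (vol s / Ideal.absNorm I) := by
    intro r s hs
    have h := hC I r (fun _ => 0) s hI hs
    have e1 : {x : 𝓞 F | x - r ∈ I ∧ ∀ v : InfinitePlace F, ‖v.embedding (x : F) - 0‖ ≤ s v} =
        cl I r s := by
      ext x
      simp only [Set.mem_ofPred_eq, sub_zero, InfinitePlace.norm_embedding_eq, cl]
    rw [e1] at h
    exact h
  let T : Fin 5 → Finset (𝓞 F) := fun k =>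
    (hcl (R (e (p.succAbove k)).1 (e (p.succAbove k)).2) (t (p.succAbove k))
      (ht _)).1.toFinset
  let Ψ : MO F → (Fin 5 → 𝓞 F) := fun B k => B (e (p.succAbove k)).1 (e (p.succAbove k)).2
  have hmaps : Set.MapsTo Ψ S (Fintype.piFinset T : Set _) := by
    intro B hB
    obtain ⟨h1, h2, h3, h4⟩ := hS B hB
    rw [Finset.mem_coe, Fintype.mem_piFinset]
    intro k
    rw [Set.Finite.mem_toFinset]
    exact ⟨h4 _ _, fun v => h3 _ v⟩
  have hinj : Set.InjOn Ψ S := by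
    intro B hB B' hB' h
    obtain ⟨h1, h2, h3, h4⟩ := hS B hB
    obtain ⟨h1', h2', h3', h4'⟩ := hS B' hB'
    have hD : (B - B').IsSymm := by
      rw [Matrix.IsSymm, Matrix.transpose_sub, h1.eq, h1'.eq]
    have htr : (a * (B - B')).trace = 0 := by
      rw [Matrix.mul_sub, Matrix.trace_sub, h2, h2', sub_zero]
    have h0 := det_relation ha hD htr p hp (by
      intro q hq
      obtain ⟨k, rfl⟩ := Fin.exists_succAbove_eq hq
      have h5 : B (e (p.succAbove k)).1 (e (p.succAbove k)).2 =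
          B' (e (p.succAbove k)).1 (e (p.succAbove k)).2 := congrFun h k
      rw [Matrix.sub_apply, h5, sub_self])
    exact sub_eq_zero.1 h0
  have hfin : S.Finite :=
    Set.Finite.of_finite_image ((Finset.finite_toSet _).subset (Set.image_subset_iff.2 hmaps)) hinj
  refine ⟨hfin, ?_⟩
  have hc := Set.ncard_le_ncard_of_injOn Ψ hmaps hinj (Finset.finite_toSet _)
  rw [Set.ncard_coe_finset, Fintype.card_piFinset] at hc
  have hc' : (S.ncard : ℝ) ≤ ∏ k : Fin 5, ((T k).card : ℝ) := by exact_mod_cast hc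
  refine hc'.trans (Finset.prod_le_prod (fun _ _ => Nat.cast_nonneg _) fun k _ => ?_)
  have h6 := hcl (R (e (p.succAbove k)).1 (e (p.succAbove k)).2) (t (p.succAbove k)) (ht _)
  have h7 := Set.ncard_eq_toFinset_card _ h6.1
  rw [h7] at h6
  exact h6.2

end FI1M

open FI1M BX1M in
theorem specFI1 (hDNA : SpecDNA) : SpecFI1 := by
  intro F _ _
  obtain ⟨C, hC1, hC⟩ := hDNA F
  refine ⟨C, hC1, fun I s A R hI hs hA hdet => ?_⟩
  have hs' : A.adjugate.IsSymm := by
    rw [Matrix.IsSymm, Matrix.adjugate_transpose, hA.eq]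
  have hne : A.adjugate ≠ 0 := by
    intro h0
    have h6 := Matrix.mul_adjugate A
    rw [h0, Matrix.mul_zero] at h6
    have h7 := congrFun (congrFun h6 0) 0
    apply hdet
    simpa using h7.symm
  obtain ⟨p, hp⟩ := exists_e hs' hne
  have h := count5 hC I hI A.adjugate hs' p hp R (fun _ => s) (fun _ v => hs v)
    {B : MO F | B.IsSymm ∧ (A.adjugate * B).trace = 0 ∧
      (∀ (v : InfinitePlace F) (i j : Fin 3), v (B i j : F) ≤ s v) ∧
      ∀ i j, B i j - R i j ∈ I} (fun B hB => ⟨hB.1, hB.2.1, fun q v => hB.2.2.1 v _ _, hB.2.2.2⟩)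
  refine ⟨h.1, h.2.trans (le_of_eq ?_)⟩
  rw [Finset.prod_const, Finset.card_univ, Fintype.card_fin]

end Pool.Agent.Lib.MP_8cb858_nt.PF
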