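import Pool.Agent.Lib.MP_8cb858_nt.PF.SpecF

namespace Pool.Agent.Lib.MP_8cb858_nt.PF

open Polynomial NumberField IsDedekindDomain Pool.Agent.Lib.MP_8cb858_nt.SEL Matrix
open scoped Classical WithZero

namespace FL2M

variable {F : Type} [Field F] [NumberField F]

lemma gd_of (hFATT : SpecFATT) {v : HeightOneSpectrum (𝓞 F)} {a b : 𝓞 F} {D : ℕ}
    {c : Gal F → Pt (cN a b D) (AlgebraicClosure F)} {X : MO F × MO F}
    (hD : (D : 𝓞 F) ∉ v.asIdeal) (hns : ∀ x : 𝓞 F, x ^ 2 + dsc a b ∉ v.asIdeal)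
    (hatt : Att ((a : F) * (D : F) ^ 2) ((b : F) * (D : F) ^ 3) c (inc X.1) (inc X.2)) :
    X.1.IsSymm ∧
    Gd (Ideal.Quotient.mk v.asIdeal (a * D ^ 2)) (Ideal.Quotient.mk v.asIdeal (b * D ^ 3))
      (md v.asIdeal X.1) (md v.asIdeal X.2) := by
  obtain ⟨h1, -, h2, h4, h5, h6⟩ := hFATT F (a * D ^ 2) (b * D ^ 3) _ _ c X (by push_cast; rfl)
    (by push_cast; rfl) hatt
  have := v.isMaximal
  let _ := Ideal.Quotient.field v.asIdeal
  have hD0 : Ideal.Quotient.mk v.asIdeal (D : 𝓞 F) ≠ 0 := by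
    rwa [Ne, Ideal.Quotient.eq_zero_iff_mem]
  refine ⟨h1, ⟨?_, ?_, ?_, ?_⟩, ?_⟩
  · exact md_symm _ _ h2
  · rw [md_adj, md_mul, md_trace, h4, map_zero]
  · rw [md_adj, md_mul, md_trace, h5, md_det, ← map_mul]
  · rw [md_det, md_det, ← map_neg, h6, ← map_mul]
  · rintro ⟨r, hr⟩
    obtain ⟨x, hx⟩ := Ideal.Quotient.mk_surjective (r / (Ideal.Quotient.mk v.asIdeal (D : 𝓞 F)) ^ 3)
    apply hns x
    rw [← Ideal.Quotient.eq_zero_iff_mem, map_add, map_pow, hx]
    have hr' : -(4 * (Ideal.Quotient.mk v.asIdeal a * Ideal.Quotient.mk v.asIdeal (D : 𝓞 F) ^ 2) ^ 3 +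
        27 * (Ideal.Quotient.mk v.asIdeal b * Ideal.Quotient.mk v.asIdeal (D : 𝓞 F) ^ 3) ^ 2) =
          r * r := by
      rw [← hr, map_mul, map_mul, map_pow, map_pow]
    have hd : Ideal.Quotient.mk v.asIdeal (dsc a b) =
        4 * (Ideal.Quotient.mk v.asIdeal a) ^ 3 + 27 * (Ideal.Quotient.mk v.asIdeal b) ^ 2 := by
      rw [dsc, map_add, map_mul, map_mul, map_pow, map_pow, map_ofNat, map_ofNat]
    rw [hd, div_pow]
    generalize Ideal.Quotient.mk v.asIdeal (D : 𝓞 F) = d at *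
    generalize Ideal.Quotient.mk v.asIdeal a = a' at *
    generalize Ideal.Quotient.mk v.asIdeal b = b' at *
    field_simp
    linear_combination -hr'

/-- the map from the integers to the valuation ring -/
noncomputable def io (hNF : SpecNF) (v : HeightOneSpectrum (𝓞 F)) :
    𝓞 F →+* (vv v).valuationSubring where
  toFun x := ⟨algebraMap F (v.adicCompletion F) (x : F), (hNF.int F v x 0).1⟩
  map_one' := by ext; simp
  map_zero' := by ext; simp
  map_mul' x y := by ext; simp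
  map_add' x y := by ext; simp

lemma io_coe (hNF : SpecNF) (v : HeightOneSpectrum (𝓞 F)) (x : 𝓞 F) :
    ((io hNF v x : (vv v).valuationSubring) : v.adicCompletion F) =
      algebraMap F (v.adicCompletion F) (x : F) := rfl

lemma cmul {v : HeightOneSpectrum (𝓞 F)} (x y : (vv v).valuationSubring) :
    ((x * y : (vv v).valuationSubring) : v.adicCompletion F) =
      (x : v.adicCompletion F) * (y : v.adicCompletion F) := rfl

lemma cadd {v : HeightOneSpectrum (𝓞 F)} (x y : (vv v).valuationSubring) :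
    ((x + y : (vv v).valuationSubring) : v.adicCompletion F) =
      (x : v.adicCompletion F) + (y : v.adicCompletion F) := rfl

lemma cpow {v : HeightOneSpectrum (𝓞 F)} (x : (vv v).valuationSubring) (n : ℕ) :
    ((x ^ n : (vv v).valuationSubring) : v.adicCompletion F) =
      (x : v.adicCompletion F) ^ n := rfl

lemma cthree {v : HeightOneSpectrum (𝓞 F)} :
    ((3 : (vv v).valuationSubring) : v.adicCompletion F) = 3 := rfl

/-- a root of an integral monic cubic is integral -/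
lemma int_root {K : Type} [Field K] (w : Valuation K ℤᵐ⁰) {a b t : K} (ha : w a ≤ 1) (hb : w b ≤ 1)
    (ht : t ^ 3 + a * t + b = 0) : w t ≤ 1 := by
  by_contra h
  rw [not_le] at h
  have h0 : w t ≠ 0 := fun h0 => by rw [h0] at h; exact absurd h (by simp)
  have h1 : t ^ 3 = -(a * t + b) := by linear_combination ht
  have h2 : w t ^ 3 ≤ w t := by
    rw [← map_pow, h1, Valuation.map_neg]
    refine (w.map_add _ _).trans (max_le ?_ (hb.trans h.le))
    rw [map_mul]
    exact mul_le_of_le_one_left' ha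
  have h3 : w t < w t ^ 3 := by
    calc w t = w t * 1 := (mul_one _).symm
      _ < w t * (w t ^ 2) := by
        apply mul_lt_mul_of_pos_left _ (zero_lt_iff.2 h0)
        exact one_lt_pow' h (by norm_num)
      _ = w t ^ 3 := (pow_succ' _ _).symm
  exact absurd h2 (not_le.2 h3)

/-- the claim -/
lemma claim (hNF : SpecNF) (hFATI : SpecFATI) (hFL1 : SpecFL1) (hFSQ : SpecFSQ) (hFEI : SpecFEI)
    {v : HeightOneSpectrum (𝓞 F)} {a b : 𝓞 F} {D : ℕ} (c : Cocycles 2 (cN a b D)) (X : MO F × MO F)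
    (r : (vv v).valuationSubring →+* 𝓞 F ⧸ v.asIdeal) (hr : IsRed v r)
    (h6 : (6 : 𝓞 F) ∉ v.asIdeal) (hdsc : dsc (a : F) (b : F) ≠ 0) (hD0 : (D : F) ≠ 0)
    (hPd : X.1.det ∉ v.asIdeal)
    (hatt : Att ((a : F) * (D : F) ^ 2) ((b : F) * (D : F) ^ 3) c.1 (inc X.1) (inc X.2))
    (hsym : X.1.IsSymm)
    (hGd : Gd (Ideal.Quotient.mk v.asIdeal (a * D ^ 2)) (Ideal.Quotient.mk v.asIdeal (b * D ^ 3))
      (md v.asIdeal X.1) (md v.asIdeal X.2))
    (α : Lk (a : F) (b : F)) (t : (vv v).valuationSubring)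
    (hrep : Rep (D : F) α (QuotientAddGroup.mk c : Sel 2 (cN a b D)))
    (ht : (t : v.adicCompletion F) ^ 3 +
      algebraMap F (v.adicCompletion F) (a : F) * (t : v.adicCompletion F) +
        algebraMap F (v.adicCompletion F) (b : F) = 0) :
    IsSquare (ev (algebraMap F (v.adicCompletion F)) (t : v.adicCompletion F) α) ↔
      Sm (Ideal.Quotient.mk v.asIdeal (a * D ^ 2)) (md v.asIdeal X.1) (md v.asIdeal X.2) := by
  have := v.isMaximal
  have := finite_quot v
  obtain ⟨hInV, c1, hrel, hmk⟩ := hrep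
  have hdiff : c.1 - c1.1 ∈ Coboundaries 2 (cN a b D) := by
    rw [QuotientAddGroup.eq, AddSubgroup.mem_addSubgroupOf] at hmk
    have : c.1 - c1.1 = (-c1 + c).1 := by
      rw [AddSubgroup.coe_add, AddSubgroup.coe_neg]; abel
    rw [this]; exact hmk
  have hatt1 := hFATI F _ _ c.1 c1.1 (inc X.1) (inc X.2) c.2.2.1 c1.2.2.1 hdiff hatt
  obtain ⟨w, ζ, hw, hζ, hev1, hev2⟩ := hFL1 F (v.adicCompletion F) (a : F) (b : F) (D : F) α c1.1
    (inc X.1) (inc X.2) (t : v.adicCompletion F) hdsc hD0 c1.2.2.1 hrel hatt1 ht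
  obtain ⟨-, hsq, -, hscale⟩ := hFSQ F v r h6 hr
  obtain ⟨s, w', hs, hw', i0, hi0⟩ := hscale w hw
  -- the matrices over the local field
  have hmv : ∀ M : MO F, ∀ i, (((inc M).map (algebraMap F (v.adicCompletion F))).mulVec
      (fun i => (w' i : v.adicCompletion F))) i =
      ((∑ j, io hNF v (M i j) * w' j : (vv v).valuationSubring) : v.adicCompletion F) := by
    intro M i
    rw [Matrix.mulVec, dotProduct, Fin.sum_univ_three, Fin.sum_univ_three, cadd, cadd, cmul, cmul,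
      cmul, io_coe, io_coe, io_coe]
    rfl
  have hmz : ∀ M : MO F, ∀ i, ((md v.asIdeal M).mulVec (fun i => r (w' i))) i =
      r (∑ j, io hNF v (M i j) * w' j : (vv v).valuationSubring) := by
    intro M i
    rw [Matrix.mulVec, dotProduct, map_sum]
    refine Finset.sum_congr rfl fun j _ => ?_
    rw [map_mul, hr.cst (M i j) (io hNF v (M i j)) (io_coe hNF v _)]
    rfl
  have hww : (fun i => (w' i : v.adicCompletion F)) = s • w := by
    ext i; simp [hw' i]
  -- integral eigenvector equation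
  have hDio : ((io hNF v (D : 𝓞 F) : (vv v).valuationSubring) : v.adicCompletion F) =
      algebraMap F (v.adicCompletion F) (D : F) := by
    rw [io_coe]; simp
  have heq : ∀ i, (∑ j, io hNF v (X.2 i j) * w' j : (vv v).valuationSubring) =
      (io hNF v (D : 𝓞 F) * t) * (∑ j, io hNF v (X.1 i j) * w' j : (vv v).valuationSubring) := by
    intro i
    apply Subtype.ext
    rw [← hmv, cmul, cmul, ← hmv, hww, Matrix.mulVec_smul, Matrix.mulVec_smul, hev1, hDio]
    simp only [Pi.smul_apply, smul_eq_mul]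
    ring
  set wb : Fin 3 → 𝓞 F ⧸ v.asIdeal := fun i => r (w' i) with hwb
  set tb : 𝓞 F ⧸ v.asIdeal := r (io hNF v (D : 𝓞 F)) * r t with htb
  have hwb0 : wb ≠ 0 := fun h => hi0 (congrFun h i0)
  have heqb : (md v.asIdeal X.2).mulVec wb = tb • (md v.asIdeal X.1).mulVec wb := by
    ext i
    rw [Pi.smul_apply, hmz, hmz, heq, map_mul, map_mul, smul_eq_mul]
  have hdetb : (md v.asIdeal X.1).det ≠ 0 := by
    rw [md_det, Ne, Ideal.Quotient.eq_zero_iff_mem]
    exact hPd
  have hsymb : (md v.asIdeal X.1).IsSymm := md_symm _ _ hsym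
  have h2 : (2 : 𝓞 F ⧸ v.asIdeal) ≠ 0 := by
    intro h0
    apply h6
    have h1 : (2 : 𝓞 F) ∈ v.asIdeal := by
      rw [← Ideal.Quotient.eq_zero_iff_mem]; exact h0
    have := v.asIdeal.mul_mem_left 3 h1
    norm_num at this
    exact this
  have h3 : (3 : 𝓞 F ⧸ v.asIdeal) ≠ 0 := by
    intro h0
    apply h6
    have h1 : (3 : 𝓞 F) ∈ v.asIdeal := by
      rw [← Ideal.Quotient.eq_zero_iff_mem]; exact h0
    have := v.asIdeal.mul_mem_left 2 h1
    norm_num at this
    exact this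
  have hfei := by
    let _ := Ideal.Quotient.field v.asIdeal
    exact (hFEI (𝓞 F ⧸ v.asIdeal) _ _ (md v.asIdeal X.1) (md v.asIdeal X.2) h2 h3 hsymb hdetb hGd).2
      tb wb hwb0 heqb
  obtain ⟨-, h3, h4, h5⟩ := hfei
  rw [h5]
  -- the integral number u
  set u : (vv v).valuationSubring := (3 * (io hNF v (D : 𝓞 F) * t) ^ 2 +
    io hNF v (a * D ^ 2)) * (∑ i, w' i * ∑ j, io hNF v (X.1 i j) * w' j) with hu
  have hub : r u = (3 * tb ^ 2 + Ideal.Quotient.mk v.asIdeal (a * D ^ 2)) *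
      (wb ⬝ᵥ (md v.asIdeal X.1).mulVec wb) := by
    rw [hu, map_mul, map_add, map_mul, map_ofNat, map_pow, map_mul, hr.cst (a * D ^ 2) (io hNF v (a * D ^ 2)) (io_coe hNF v _),
      map_sum]
    congr 1
    rw [dotProduct]
    refine Finset.sum_congr rfl fun i _ => ?_
    rw [map_mul, hmz]
  have hub0 : r u ≠ 0 := by
    rw [hub]
    let _ := Ideal.Quotient.field v.asIdeal
    exact mul_ne_zero h3 h4
  rw [← hub, ← hsq u hub0]
  have huQ : (u : v.adicCompletion F) =
      ev (algebraMap F (v.adicCompletion F)) (t : v.adicCompletion F) α * (s * ζ) ^ 2 := by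
    have e1 : ((∑ i, w' i * ∑ j, io hNF v (X.1 i j) * w' j : (vv v).valuationSubring) :
        v.adicCompletion F) =
        (s • w) ⬝ᵥ ((inc X.1).map (algebraMap F (v.adicCompletion F))).mulVec (s • w) := by
      have e0 : ∀ q : Fin 3 → (vv v).valuationSubring,
          ((∑ i, w' i * q i : (vv v).valuationSubring) : v.adicCompletion F) =
            (w' 0 : v.adicCompletion F) * (q 0 : v.adicCompletion F) +
            (w' 1 : v.adicCompletion F) * (q 1 : v.adicCompletion F) +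
            (w' 2 : v.adicCompletion F) * (q 2 : v.adicCompletion F) := by
        intro q
        rw [Fin.sum_univ_three, cadd, cadd, cmul, cmul, cmul]
      rw [e0 (fun i => ∑ j, io hNF v (X.1 i j) * w' j), ← hww, dotProduct,
        Fin.sum_univ_three (fun i => (w' i : v.adicCompletion F) * _), hmv, hmv, hmv]
    have e2 : ((io hNF v (a * D ^ 2) : (vv v).valuationSubring) : v.adicCompletion F) =
        algebraMap F (v.adicCompletion F) (a : F) *
          algebraMap F (v.adicCompletion F) (D : F) ^ 2 := by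
      rw [io_coe]; simp
    have e3 : (u : v.adicCompletion F) = (3 * (algebraMap F (v.adicCompletion F) (D : F) * t) ^ 2 +
        algebraMap F (v.adicCompletion F) (a : F) *
          algebraMap F (v.adicCompletion F) (D : F) ^ 2) *
        ((s • w) ⬝ᵥ ((inc X.1).map (algebraMap F (v.adicCompletion F))).mulVec (s • w)) := by
      rw [← e1, ← e2, ← hDio, hu, cmul, cadd, cmul, cpow, cmul, cthree]
    rw [e3, Matrix.mulVec_smul, dotProduct_smul, smul_dotProduct]
    simp only [smul_eq_mul]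
    linear_combination s ^ 2 * hev2
  rw [huQ]
  have hrz : s * ζ ≠ 0 := mul_ne_zero hs hζ
  constructor
  · rintro ⟨x, hx⟩
    exact ⟨x * (s * ζ), by rw [hx]; ring⟩
  · rintro ⟨x, hx⟩
    refine ⟨x / (s * ζ), ?_⟩
    rw [div_mul_div_comm, ← hx, sq, mul_div_assoc, div_self (mul_ne_zero hrz hrz), mul_one]

end FL2M

open FL2M in
theorem specFL2 (hNF : SpecNF) (hFRD : SpecFRD) (hFATT : SpecFATT) (hFATI : SpecFATI)
    (hFL1 : SpecFL1) (hFSQ : SpecFSQ) (hFEI : SpecFEI) (hFRT : SpecFRT) (hBR : SpecBR) :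
    SpecFL2 := by
  intro F _ _ v a b D c X h6 hD hns hPd hatt
  obtain ⟨hs1, hGd⟩ := gd_of hFATT hD hns hatt
  refine ⟨hGd, ?_⟩
  have hdsc0 : dsc a b ≠ 0 := by
    intro h0
    apply hns 0
    rw [h0]; simp
  have hdsc : dsc (a : F) (b : F) ≠ 0 := by
    intro h0
    apply hdsc0
    apply RingOfIntegers.coe_injective
    rw [dsc] at h0
    have e : algebraMap (𝓞 F) F (dsc a b) = 4 * (a : F) ^ 3 + 27 * (b : F) ^ 2 := by
      rw [dsc, map_add, map_mul, map_mul, map_pow, map_pow, map_ofNat, map_ofNat]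
    rw [e, h0, map_zero]
  have hD0 : (D : F) ≠ 0 := by
    intro h0
    apply hD
    have : D = 0 := by exact_mod_cast h0
    rw [this]; simp
  obtain ⟨r, hr⟩ := hFRD F v
  have hclaim := claim hNF hFATI hFL1 hFSQ hFEI c X r hr h6 hdsc hD0 hPd hatt hs1 hGd
  constructor
  · rintro ⟨α, t, hrep, ht, hsq⟩
    have hti : (vv v) t ≤ 1 := int_root (vv v) (hNF.int F v a 0).1 (hNF.int F v b 0).1 ht
    exact (hclaim α ⟨t, hti⟩ hrep ht).1 hsq
  · intro hSm
    obtain ⟨α, hα⟩ := hBR.surj hdsc hD0 (QuotientAddGroup.mk c : Sel 2 (cN a b D))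
    obtain ⟨-, hns'⟩ := hGd
    have := v.isMaximal
    have := finite_quot v
    have hDp : Ideal.Quotient.mk v.asIdeal (D : 𝓞 F) ≠ 0 := by
      rwa [Ne, Ideal.Quotient.eq_zero_iff_mem]
    obtain ⟨x, hx, hx3⟩ : ∃ x : 𝓞 F ⧸ v.asIdeal,
        x ^ 3 + Ideal.Quotient.mk v.asIdeal a * x + Ideal.Quotient.mk v.asIdeal b = 0 ∧
        3 * x ^ 2 + Ideal.Quotient.mk v.asIdeal a ≠ 0 := by
      let _ := Ideal.Quotient.field v.asIdeal
      obtain ⟨⟨x, hx⟩, -, h3⟩ := hFRT (𝓞 F ⧸ v.asIdeal) _ _ hns'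
      have hx3 := h3 x hx
      have e1 : Ideal.Quotient.mk v.asIdeal (a * D ^ 2) =
        Ideal.Quotient.mk v.asIdeal a * Ideal.Quotient.mk v.asIdeal (D : 𝓞 F) ^ 2 := by
        rw [map_mul, map_pow]
      have e2 : Ideal.Quotient.mk v.asIdeal (b * D ^ 3) =
        Ideal.Quotient.mk v.asIdeal b * Ideal.Quotient.mk v.asIdeal (D : 𝓞 F) ^ 3 := by
        rw [map_mul, map_pow]
      rw [e1] at hx hx3
      rw [e2] at hx
      generalize Ideal.Quotient.mk v.asIdeal (D : 𝓞 F) = d at *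
      generalize Ideal.Quotient.mk v.asIdeal a = a' at *
      generalize Ideal.Quotient.mk v.asIdeal b = b' at *
      refine ⟨x / d, ?_, ?_⟩
      · field_simp
        linear_combination hx
      · intro h0
        apply hx3
        field_simp at h0
        linear_combination h0
    obtain ⟨-, -, hcub, -⟩ := hFSQ F v r h6 hr
    obtain ⟨t, ht, -⟩ := hcub a b x hx hx3
    exact ⟨α, t, hα, ht, (hclaim α t hα ht).2 hSm⟩

end Pool.Agent.Lib.MP_8cb858_nt.PF
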