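import Pool.Agent.Lib.MP_8cb858_nt.PF.SpecF
import Pool.Agent.Lib.MP_8cb858_nt.PF.TOC

/-!
# FRD: the reduction map (helper73)
-/

set_option autoImplicit false

namespace Pool.Agent.Lib.MP_8cb858_nt.PF

open Polynomial NumberField IsDedekindDomain Pool.Agent.Lib.MP_8cb858_nt.SEL Matrix
open scoped Classical WithZero

namespace FRDM

variable {F : Type} [Field F] [NumberField F] {v : HeightOneSpectrum (𝓞 F)}

/-- the embedding of the integers -/
noncomputable def io (v : HeightOneSpectrum (𝓞 F)) : 𝓞 F →+* v.adicCompletion F :=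
  (algebraMap F (v.adicCompletion F)).comp (algebraMap (𝓞 F) F)

theorem mem_iff (hNF : SpecNF) (y : 𝓞 F) :
    y ∈ v.asIdeal ↔ vv v (algebraMap F (v.adicCompletion F) (y : F)) < 1 := by
  have h := (hNF.int F v y 1).2
  rw [pow_one] at h
  rw [h, specVAL.lt]
  norm_num

theorem le_one (hNF : SpecNF) (y : 𝓞 F) :
    vv v (algebraMap F (v.adicCompletion F) (y : F)) ≤ 1 := (hNF.int F v y 0).1

theorem mk_eq (hNF : SpecNF) {x : v.adicCompletion F} {y y' : 𝓞 F}
    (h : vv v (x - algebraMap F (v.adicCompletion F) (y : F)) < 1)
    (h' : vv v (x - algebraMap F (v.adicCompletion F) (y' : F)) < 1) :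
    Ideal.Quotient.mk v.asIdeal y = Ideal.Quotient.mk v.asIdeal y' := by
  rw [Ideal.Quotient.eq, mem_iff hNF]
  have e : algebraMap F (v.adicCompletion F) ((y - y' : 𝓞 F) : F) =
      (x - algebraMap F (v.adicCompletion F) (y' : F)) -
        (x - algebraMap F (v.adicCompletion F) (y : F)) := by
    show io v (y - y') = (x - io v y') - (x - io v y)
    rw [map_sub]
    ring
  rw [e]
  exact lt_of_le_of_lt (Valuation.map_sub _ _ _) (max_lt h' h)

end FRDM

open FRDM in
/-- **FRD** -/
theorem specFRD (hNF : SpecNF) : SpecFRD := by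
  intro F _ _ v
  have hd : ∀ x : (vv v).valuationSubring, ∃ y : 𝓞 F,
      vv v ((x : v.adicCompletion F) - algebraMap F (v.adicCompletion F) (y : F)) < 1 :=
    fun x => hNF.dense F v x x.2
  choose f hf using hd
  have key : ∀ (x : (vv v).valuationSubring) (y : 𝓞 F),
      vv v ((x : v.adicCompletion F) - algebraMap F (v.adicCompletion F) (y : F)) < 1 →
      Ideal.Quotient.mk v.asIdeal (f x) = Ideal.Quotient.mk v.asIdeal y :=
    fun x y h => mk_eq hNF (hf x) h
  refine ⟨⟨⟨⟨fun x => Ideal.Quotient.mk v.asIdeal (f x), ?_⟩, ?_⟩, ?_, ?_⟩, ?_, ?_⟩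
  · rw [key 1 1, map_one]
    have e : (((1 : (vv v).valuationSubring) : v.adicCompletion F) -
        algebraMap F (v.adicCompletion F) ((1 : 𝓞 F) : F)) = 0 := by
      show (1 : v.adicCompletion F) - io v 1 = 0
      rw [map_one, sub_self]
    rw [e, map_zero]
    exact zero_lt_one
  · intro x x'
    show Ideal.Quotient.mk v.asIdeal (f (x * x')) =
      Ideal.Quotient.mk v.asIdeal (f x) * Ideal.Quotient.mk v.asIdeal (f x')
    rw [key (x * x') (f x * f x'), map_mul]
    have e : (((x * x' : (vv v).valuationSubring) : v.adicCompletion F) -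
        algebraMap F (v.adicCompletion F) ((f x * f x' : 𝓞 F) : F)) =
        (x : v.adicCompletion F) * ((x' : v.adicCompletion F) -
          algebraMap F (v.adicCompletion F) (f x' : F)) +
        algebraMap F (v.adicCompletion F) (f x' : F) *
          ((x : v.adicCompletion F) - algebraMap F (v.adicCompletion F) (f x : F)) := by
      show (x : v.adicCompletion F) * (x' : v.adicCompletion F) - io v (f x * f x') =
        (x : v.adicCompletion F) * ((x' : v.adicCompletion F) - io v (f x')) +
          io v (f x') * ((x : v.adicCompletion F) - io v (f x))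
      rw [map_mul]
      ring
    rw [e]
    refine lt_of_le_of_lt (Valuation.map_add _ _ _) (max_lt ?_ ?_)
    · rw [map_mul]
      exact mul_lt_one_of_nonneg_of_lt_one_right x.2 zero_le (hf x')
    · rw [map_mul]
      exact mul_lt_one_of_nonneg_of_lt_one_right (le_one hNF (f x')) zero_le (hf x)
  · show Ideal.Quotient.mk v.asIdeal (f 0) = 0
    rw [key 0 0, map_zero]
    have e : (((0 : (vv v).valuationSubring) : v.adicCompletion F) -
        algebraMap F (v.adicCompletion F) ((0 : 𝓞 F) : F)) = 0 := by
      show (0 : v.adicCompletion F) - io v 0 = 0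
      rw [map_zero, sub_self]
    rw [e, map_zero]
    exact zero_lt_one
  · intro x x'
    show Ideal.Quotient.mk v.asIdeal (f (x + x')) =
      Ideal.Quotient.mk v.asIdeal (f x) + Ideal.Quotient.mk v.asIdeal (f x')
    rw [key (x + x') (f x + f x'), map_add]
    have e : (((x + x' : (vv v).valuationSubring) : v.adicCompletion F) -
        algebraMap F (v.adicCompletion F) ((f x + f x' : 𝓞 F) : F)) =
        ((x' : v.adicCompletion F) - algebraMap F (v.adicCompletion F) (f x' : F)) +
          ((x : v.adicCompletion F) - algebraMap F (v.adicCompletion F) (f x : F)) := by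
      show (x : v.adicCompletion F) + (x' : v.adicCompletion F) - io v (f x + f x') =
        ((x' : v.adicCompletion F) - io v (f x')) + ((x : v.adicCompletion F) - io v (f x))
      rw [map_add]
      ring
    rw [e]
    exact lt_of_le_of_lt (Valuation.map_add _ _ _) (max_lt (hf x') (hf x))
  · intro y x hx
    apply key x y
    rw [hx, sub_self, map_zero]
    exact zero_lt_one
  · intro x
    show Ideal.Quotient.mk v.asIdeal (f x) = 0 ↔ _
    rw [Ideal.Quotient.eq_zero_iff_mem, mem_iff hNF]
    constructor
    · intro h
      have e : (x : v.adicCompletion F) = ((x : v.adicCompletion F) -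
          algebraMap F (v.adicCompletion F) (f x : F)) +
          algebraMap F (v.adicCompletion F) (f x : F) := by ring
      rw [e]
      exact lt_of_le_of_lt (Valuation.map_add _ _ _) (max_lt (hf x) h)
    · intro h
      have e : algebraMap F (v.adicCompletion F) (f x : F) = (x : v.adicCompletion F) -
          ((x : v.adicCompletion F) - algebraMap F (v.adicCompletion F) (f x : F)) := by ring
      rw [e]
      exact lt_of_le_of_lt (Valuation.map_sub _ _ _) (max_lt h (hf x))

end Pool.Agent.Lib.MP_8cb858_nt.PF
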