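import Pool.Agent.Lib.MP_8cb858_nt.PF.SpecB

/-!
# HNS: Hensel's lemma
-/

set_option autoImplicit false

namespace Pool.Agent.Lib.MP_8cb858_nt.PF

open Polynomial NumberField IsDedekindDomain Pool.Agent.Lib.MP_8cb858_nt.SEL
open scoped Classical WithZero

namespace HNSM

variable {K : Type} [Field K] {w : Valuation K ℤᵐ⁰}

theorem lt_exp {x : ℤᵐ⁰} (h : x < 1) : x ≤ WithZero.exp (-1 : ℤ) := by
  by_cases h0 : x = 0
  · rw [h0]
    exact zero_le
  · rw [← WithZero.exp_log h0, ← WithZero.exp_zero, WithZero.exp_lt_exp] at h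
    rw [← WithZero.exp_log h0, WithZero.exp_le_exp]
    omega

theorem exp_neg_lt : (WithZero.exp (-1 : ℤ) : ℤᵐ⁰) < 1 := by
  rw [← WithZero.exp_zero, WithZero.exp_lt_exp]
  norm_num

theorem zero_of_le {x : ℤᵐ⁰} (h : ∀ n : ℕ, x ≤ WithZero.exp (-(n : ℤ))) : x = 0 := by
  by_contra h0
  have h1 := h ((-(WithZero.log x)).toNat + 1)
  rw [← WithZero.exp_log h0, WithZero.exp_le_exp] at h1
  push_cast at h1
  have := Int.self_le_toNat (-(WithZero.log x))
  rw [WithZero.log_exp] at h1
  omega

/-- valuation on the valuation ring -/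
theorem le_one (x : w.valuationSubring) : w (x : K) ≤ 1 := x.2

theorem mul_le_left (z y : w.valuationSubring) : w ((z * y : w.valuationSubring) : K) ≤ w (y : K) := by
  have h : ((z * y : w.valuationSubring) : K) = (z : K) * y := rfl
  rw [h, map_mul]
  exact mul_le_of_le_one_left' z.2

/-- `y` is an approximate root of level `n` -/
def Good (P : Polynomial w.valuationSubring) (n : ℕ) (y : w.valuationSubring) : Prop :=
  w ((P.eval y : w.valuationSubring) : K) ≤ WithZero.exp (-((n : ℤ) + 1)) ∧
    w ((P.derivative.eval y : w.valuationSubring) : K) = 1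

theorem exists_inv {u : w.valuationSubring} (hu : w (u : K) = 1) :
    ∃ g : w.valuationSubring, u * g = 1 := by
  have hu0 : (u : K) ≠ 0 := by
    intro h
    rw [h, map_zero] at hu
    exact zero_ne_one hu
  refine ⟨⟨(u : K)⁻¹, ?_⟩, ?_⟩
  · show w _ ≤ 1
    rw [map_inv₀, hu, inv_one]
  · exact Subtype.ext (mul_inv_cancel₀ hu0)

theorem unit_add {x y : K} (hx : w x = 1) (hy : w y < 1) : w (x + y) = 1 := by
  rw [Valuation.map_add_eq_of_lt_left w (by rw [hx]; exact hy), hx]

/-- one step of Newton's iteration -/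
theorem step (P : Polynomial w.valuationSubring) (n : ℕ) (y : w.valuationSubring)
    (h : Good P n y) : ∃ y' : w.valuationSubring, Good P (n + 1) y' ∧
      w ((y' - y : w.valuationSubring) : K) ≤ WithZero.exp (-((n : ℤ) + 1)) := by
  obtain ⟨h1, h2⟩ := h
  obtain ⟨g, hg⟩ := exists_inv h2
  set hh : w.valuationSubring := -(g * P.eval y) with hhd
  have hw : w (hh : K) ≤ WithZero.exp (-((n : ℤ) + 1)) := by
    have e : (hh : K) = -((g * P.eval y : w.valuationSubring) : K) := rfl
    rw [e, Valuation.map_neg]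
    exact (mul_le_left _ _).trans h1
  obtain ⟨k, hk⟩ := Polynomial.binomExpansion P y hh
  obtain ⟨z, hz⟩ := Polynomial.evalSubFactor P.derivative (y + hh) y
  refine ⟨y + hh, ⟨?_, ?_⟩, ?_⟩
  · have e : P.eval (y + hh) = k * hh ^ 2 := by
      rw [hk, hhd]
      linear_combination (-(P.eval y)) * hg
    rw [e]
    refine (mul_le_left _ _).trans ?_
    have e2 : ((hh ^ 2 : w.valuationSubring) : K) = (hh : K) ^ 2 := rfl
    rw [e2, map_pow]
    calc w (hh : K) ^ 2 ≤ (WithZero.exp (-((n : ℤ) + 1))) ^ 2 := pow_le_pow_left' hw 2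
      _ = WithZero.exp (2 • (-((n : ℤ) + 1))) := (WithZero.exp_nsmul _ _).symm
      _ ≤ WithZero.exp (-(((n + 1 : ℕ) : ℤ) + 1)) := by
        rw [WithZero.exp_le_exp, two_nsmul]
        push_cast
        omega
  · have e : P.derivative.eval (y + hh) = P.derivative.eval y + z * hh := by
      have e1 : y + hh - y = hh := by ring
      rw [e1] at hz
      linear_combination hz
    rw [e]
    have e2 : ((P.derivative.eval y + z * hh : w.valuationSubring) : K) =
        ((P.derivative.eval y : w.valuationSubring) : K) + ((z * hh : w.valuationSubring) : K) := rfl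
    rw [e2]
    refine unit_add h2 (((mul_le_left _ _).trans hw).trans_lt ?_)
    rw [← WithZero.exp_zero, WithZero.exp_lt_exp]
    omega
  · have e1 : y + hh - y = hh := by ring
    rw [e1]
    exact hw

/-- Hensel's lemma in the valuation ring -/
theorem hensel (hw : IsLF w) (P : Polynomial w.valuationSubring) (x : w.valuationSubring)
    (h1 : w ((P.eval x : w.valuationSubring) : K) < 1)
    (h2 : w ((P.derivative.eval x : w.valuationSubring) : K) = 1) :
    ∃ y : w.valuationSubring, P.eval y = 0 ∧ w ((y - x : w.valuationSubring) : K) < 1 := by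
  have h0 : Good P 0 x := ⟨by simpa using lt_exp h1, h2⟩
  let s : ∀ n : ℕ, {y : w.valuationSubring // Good P n y} := fun n =>
    Nat.rec (motive := fun n => {y : w.valuationSubring // Good P n y}) ⟨x, h0⟩
      (fun n y => ⟨Classical.choose (step P n y.1 y.2),
        (Classical.choose_spec (step P n y.1 y.2)).1⟩) n
  have hs0 : (s 0).1 = x := rfl
  have hs : ∀ n : ℕ, w (((s (n + 1)).1 - (s n).1 : w.valuationSubring) : K) ≤
      WithZero.exp (-((n : ℤ) + 1)) := fun n =>
    (Classical.choose_spec (step P n (s n).1 (s n).2)).2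
  obtain ⟨Y, hY⟩ := hw.comp (fun n => ((s n).1 : K)) (fun n => by
    refine (hs n).trans ?_
    rw [WithZero.exp_le_exp]
    omega)
  have hYi : w Y ≤ 1 := by
    have e : Y = (Y - ((s 0).1 : K)) + ((s 0).1 : K) := by ring
    rw [e]
    refine Valuation.map_add_le w ?_ (le_one _)
    have := hY 0
    simpa using this
  let y : w.valuationSubring := ⟨Y, hYi⟩
  refine ⟨y, ?_, ?_⟩
  · have h3 : w ((P.eval y : w.valuationSubring) : K) = 0 := by
      apply zero_of_le
      intro n
      obtain ⟨z, hz⟩ := Polynomial.evalSubFactor P y (s n).1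
      have e : P.eval y = z * (y - (s n).1) + P.eval (s n).1 := by linear_combination hz
      rw [e]
      have e2 : ((z * (y - (s n).1) + P.eval (s n).1 : w.valuationSubring) : K) =
        ((z * (y - (s n).1) : w.valuationSubring) : K) +
          ((P.eval (s n).1 : w.valuationSubring) : K) := rfl
      rw [e2]
      refine Valuation.map_add_le w ((mul_le_left _ _).trans (hY n)) ((s n).2.1.trans ?_)
      rw [WithZero.exp_le_exp]
      omega
    have h4 := (Valuation.zero_iff w).1 h3
    exact Subtype.ext h4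
  · have e : ((y - x : w.valuationSubring) : K) = (Y - ((s 1).1 : K)) +
        (((s (0 + 1)).1 - (s 0).1 : w.valuationSubring) : K) := by
      have e1 : ((y - x : w.valuationSubring) : K) = Y - (x : K) := rfl
      have e2 : (((s (0 + 1)).1 - (s 0).1 : w.valuationSubring) : K) =
        ((s 1).1 : K) - (x : K) := rfl
      rw [e1, e2]
      ring
    rw [e]
    refine Valuation.map_add_lt w ?_ ?_
    · refine (hY 1).trans_lt ?_
      rw [← WithZero.exp_zero, WithZero.exp_lt_exp]
      norm_num
    · refine (hs 0).trans_lt ?_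
      rw [← WithZero.exp_zero, WithZero.exp_lt_exp]
      norm_num

theorem pol (P : K[X]) (x : K) (hw : IsLF w) (hP : ∀ i, w (P.coeff i) ≤ 1) (hx : w x ≤ 1)
    (h1 : w (P.eval x) < 1) (h2 : w (P.derivative.eval x) = 1) :
    ∃ y, w y ≤ 1 ∧ P.eval y = 0 ∧ w (y - x) < 1 := by
  have hl : P ∈ Polynomial.lifts (algebraMap w.valuationSubring K) := by
    rw [Polynomial.lifts_iff_coeff_lifts]
    intro i
    exact ⟨⟨P.coeff i, hP i⟩, rfl⟩
  obtain ⟨Q, rfl⟩ := (Polynomial.mem_lifts _).1 hl
  have hev : ∀ (R : Polynomial w.valuationSubring) (y : w.valuationSubring),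
      (R.map (algebraMap w.valuationSubring K)).eval (y : K) =
        ((R.eval y : w.valuationSubring) : K) := by
    intro R y
    have h := Polynomial.eval_map_apply (f := algebraMap w.valuationSubring K) (p := R) (x := y)
    exact h
  obtain ⟨y, hy1, hy2⟩ := hensel hw Q ⟨x, hx⟩ (by
    rw [← hev]; exact h1) (by
    rw [← hev, ← Polynomial.derivative_map]; exact h2)
  refine ⟨y, y.2, ?_, hy2⟩
  rw [hev, hy1]
  rfl

end HNSM

open HNSM in
/-- **HNS.** -/
theorem specHNS : SpecHNS := by
  have sqr : ∀ {K : Type} [Field K] {w : Valuation K ℤᵐ⁰} (u x : K), IsLF w → w 2 = 1 → w u = 1 →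
      w x ≤ 1 → w (x ^ 2 - u) < 1 → ∃ y, w y = 1 ∧ y ^ 2 = u ∧ w (y - x) < 1 := by
    intro K _ w u x hw h2 hu hx h
    have hx1 : w x = 1 := by
      have h3 : w (u + (x ^ 2 - u)) = 1 := unit_add hu h
      rw [add_sub_cancel, map_pow] at h3
      exact (pow_eq_one_iff.1 h3).resolve_right two_ne_zero
    obtain ⟨y, hy1, hy2, hy3⟩ := pol (w := w) (X ^ 2 - C u) x hw (by
      intro i
      rw [coeff_sub, coeff_X_pow, coeff_C]
      refine Valuation.map_sub_le w ?_ ?_
      · split_ifs
        · rw [map_one]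
        · rw [map_zero]; exact zero_le
      · split_ifs
        · exact hu.le
        · rw [map_zero]; exact zero_le) hx (by
      simpa using h) (by
      have e : (derivative (X ^ 2 - C u : K[X])).eval x = 2 * x := by
        simp
        left
        norm_num
      rw [e, map_mul, h2, hx1, one_mul])
    have hy4 : y ^ 2 = u := by
      have : y ^ 2 - u = 0 := by simpa using hy2
      exact sub_eq_zero.1 this
    refine ⟨y, ?_, hy4, hy3⟩
    have h3 : w y ^ 2 = 1 := by rw [← map_pow, hy4, hu]
    exact (pow_eq_one_iff.1 h3).resolve_right two_ne_zero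
  refine ⟨?_, sqr, ?_, ?_⟩
  · intro K _ w P x hw hP hx h1 h2
    exact pol P x hw hP hx h1 h2
  · intro K _ w a b x hw ha hb hx h1 h2
    obtain ⟨y, hy1, hy2, hy3⟩ := pol (w := w) (X ^ 3 + C a * X + C b) x hw (by
      intro i
      rw [coeff_add, coeff_add, coeff_X_pow, coeff_C, coeff_C_mul, coeff_X]
      refine Valuation.map_add_le w (Valuation.map_add_le w ?_ ?_) ?_
      · split_ifs
        · rw [map_one]
        · rw [map_zero]; exact zero_le
      · split_ifs
        · rw [mul_one]; exact ha
        · rw [mul_zero, map_zero]; exact zero_le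
      · split_ifs
        · exact hb
        · rw [map_zero]; exact zero_le) hx (by
      simpa using h1) (by
      have e : (derivative (X ^ 3 + C a * X + C b : K[X])).eval x = 3 * x ^ 2 + a := by
        simp
        left
        norm_num
      rw [e, h2])
    exact ⟨y, hy1, by simpa using hy2, hy3⟩
  · intro K _ w u hw h2 hu
    constructor
    · rintro ⟨y, hy⟩ hns
      have h3 : w y * w y = 1 := by rw [← map_mul, ← hy, hu]
      have h4 : w y = 1 := (pow_eq_one_iff.1 (by rw [pow_two]; exact h3 : w y ^ 2 = 1)).resolve_right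
        two_ne_zero
      have h1 := hns y h4.le
      have h5 : y ^ 2 - u = 0 := by rw [hy]; ring
      rw [h5, map_zero] at h1
      exact zero_ne_one h1
    · intro hns
      unfold NS at hns
      push Not at hns
      obtain ⟨x, hx, hxu⟩ := hns
      have h3 : w (x ^ 2 - u) ≤ 1 := by
        refine Valuation.map_sub_le w ?_ hu.le
        rw [map_pow]
        exact pow_le_one' hx 2
      obtain ⟨y, -, hy, -⟩ := sqr u x hw h2 hu hx (lt_of_le_of_ne h3 hxu)
      exact ⟨y, by rw [← hy, pow_two]⟩

end Pool.Agent.Lib.MP_8cb858_nt.PF
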