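import Pool.Agent.Lib.MP_8cb858_nt.PF.FRD
import Pool.Agent.Lib.MP_8cb858_nt.PF.HNS

/-!
# FSQ: Hensel's lemma at `v` in terms of the reduction map (helper73)
-/

set_option autoImplicit false

namespace Pool.Agent.Lib.MP_8cb858_nt.PF

open Polynomial NumberField IsDedekindDomain Pool.Agent.Lib.MP_8cb858_nt.SEL Matrix
open scoped Classical WithZero

namespace FSQM

variable {F : Type} [Field F] [NumberField F] {v : HeightOneSpectrum (𝓞 F)}

omit [NumberField F] in
theorem not_mem (h6 : (6 : 𝓞 F) ∉ v.asIdeal) : (2 : 𝓞 F) ∉ v.asIdeal ∧ (3 : 𝓞 F) ∉ v.asIdeal := by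
  constructor
  · intro h
    apply h6
    have h2 := v.asIdeal.mul_mem_left 3 h
    norm_num at h2
    exact h2
  · intro h
    apply h6
    have h2 := v.asIdeal.mul_mem_left 2 h
    norm_num at h2
    exact h2

theorem unit_of (hNF : SpecNF) {y : 𝓞 F} (h : y ∉ v.asIdeal) : vv v (FRDM.io v y) = 1 := by
  refine le_antisymm (FRDM.le_one hNF y) (not_lt.1 fun h1 => h ?_)
  exact (FRDM.mem_iff hNF y).2 h1

/-- the integer `y` in `O_v` -/
noncomputable def il (hNF : SpecNF) (v : HeightOneSpectrum (𝓞 F)) (y : 𝓞 F) :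
    (vv v).valuationSubring := ⟨FRDM.io v y, FRDM.le_one hNF y⟩

theorem r_il (hNF : SpecNF) {r : (vv v).valuationSubring →+* 𝓞 F ⧸ v.asIdeal} (hr : IsRed v r)
    (y : 𝓞 F) : r (il hNF v y) = Ideal.Quotient.mk v.asIdeal y := hr.cst y _ rfl

theorem surj (hNF : SpecNF) {r : (vv v).valuationSubring →+* 𝓞 F ⧸ v.asIdeal} (hr : IsRed v r) :
    Function.Surjective r := by
  intro x
  obtain ⟨y, rfl⟩ := Ideal.Quotient.mk_surjective x
  exact ⟨il hNF v y, r_il hNF hr y⟩

/-- the inclusion of `O_v` -/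
noncomputable def su (v : HeightOneSpectrum (𝓞 F)) : (vv v).valuationSubring →+* v.adicCompletion F :=
  (vv v).valuationSubring.subtype

theorem su_il (hNF : SpecNF) (y : 𝓞 F) : su v (il hNF v y) = FRDM.io v y := rfl

theorem ker' {r : (vv v).valuationSubring →+* 𝓞 F ⧸ v.asIdeal} (hr : IsRed v r)
    (x : (vv v).valuationSubring) : r x = 0 ↔ vv v (su v x) < 1 := hr.ker x

theorem ne' {r : (vv v).valuationSubring →+* 𝓞 F ⧸ v.asIdeal} (hr : IsRed v r)
    (x : (vv v).valuationSubring) : r x ≠ 0 ↔ vv v (su v x) = 1 := by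
  rw [Ne, ker' hr]
  constructor
  · intro h
    exact le_antisymm x.2 (not_lt.1 h)
  · intro h h1
    rw [h] at h1
    exact lt_irrefl _ h1

theorem r_ne {r : (vv v).valuationSubring →+* 𝓞 F ⧸ v.asIdeal} (hr : IsRed v r)
    (x : (vv v).valuationSubring) : r x ≠ 0 ↔ vv v (x : v.adicCompletion F) = 1 := by
  rw [Ne, hr.ker]
  constructor
  · intro h
    exact le_antisymm x.2 (not_lt.1 h)
  · intro h h1
    rw [h] at h1
    exact lt_irrefl _ h1

end FSQM

open FSQM in
/-- **FSQ** -/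
theorem specFSQ (hNF : SpecNF) (hHNS : SpecHNS) : SpecFSQ := by
  intro F _ _ v r h6 hr
  have hlf := hNF.lf F v
  obtain ⟨h2, h3⟩ := not_mem h6
  have h2' : vv v (2 : v.adicCompletion F) = 1 := by
    have h := unit_of hNF h2
    rwa [map_ofNat] at h
  have hs := surj hNF hr
  refine ⟨hs, ?_, ?_, ?_⟩
  · intro u hu
    have hu1 := (r_ne hr u).1 hu
    constructor
    · rintro ⟨y, hy⟩
      have hy1 : vv v y = 1 := by
        have h : vv v y ^ 2 = 1 := by rw [← map_pow, pow_two, ← hy, hu1]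
        exact (pow_eq_one_iff_of_nonneg zero_le (by norm_num)).1 h
      refine ⟨r ⟨y, hy1.le⟩, ?_⟩
      rw [← map_mul]
      congr 1
      exact Subtype.ext hy
    · rintro ⟨c, hc⟩
      obtain ⟨y, rfl⟩ := hs c
      have h4 : vv v (su v y ^ 2 - su v u) < 1 := by
        have h5 : r (y ^ 2 - u) = 0 := by
          rw [map_sub, map_pow, hc]
          ring
        rw [ker' hr, map_sub, map_pow] at h5
        exact h5
      obtain ⟨z, -, hz, -⟩ := hHNS.sqr (su v u) (su v y) hlf h2' hu1 y.2 h4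
      exact ⟨z, by rw [← pow_two]; exact hz.symm⟩
  · intro a b x hx hx'
    obtain ⟨y, rfl⟩ := hs x
    have h4 : vv v (su v y ^ 3 + FRDM.io v a * su v y + FRDM.io v b) < 1 := by
      have h5 : r (y ^ 3 + il hNF v a * y + il hNF v b) = 0 := by
        rw [map_add, map_add, map_mul, map_pow, r_il hNF hr, r_il hNF hr]
        exact hx
      have h8 : su v (y ^ 3 + il hNF v a * y + il hNF v b) =
          su v y ^ 3 + FRDM.io v a * su v y + FRDM.io v b := by
        rw [map_add, map_add, map_mul, map_pow, su_il, su_il]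
      rw [ker' hr, h8] at h5
      exact h5
    have h7 : vv v (3 * su v y ^ 2 + FRDM.io v a) = 1 := by
      have h5 : r (3 * y ^ 2 + il hNF v a) ≠ 0 := by
        rw [map_add, map_mul, map_pow, r_il hNF hr, map_ofNat]
        exact hx'
      have h8 : su v (3 * y ^ 2 + il hNF v a) = 3 * su v y ^ 2 + FRDM.io v a := by
        rw [map_add, map_mul, map_pow, su_il, map_ofNat]
      rw [ne' hr, h8] at h5
      exact h5
    obtain ⟨t, ht, ht0, hty⟩ := hHNS.cub (FRDM.io v a) (FRDM.io v b) (su v y) hlf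
      (FRDM.le_one hNF a) (FRDM.le_one hNF b) y.2 h4 h7
    refine ⟨⟨t, ht⟩, ht0, ?_⟩
    have h8 : r (⟨t, ht⟩ - y) = 0 := by
      rw [ker' hr, map_sub]
      exact hty
    rw [map_sub, sub_eq_zero] at h8
    exact h8
  · intro w hw
    obtain ⟨π, hπ⟩ := specVAL.uni hlf
    obtain ⟨k, y, hy, i, hi⟩ := specVAL.pri hπ 3 w hw
    have hπ0 := VALM.pi_ne hπ
    refine ⟨π ^ (-k), fun j => ⟨y j, (hy j).1⟩, zpow_ne_zero _ hπ0, fun j => ?_, i, ?_⟩
    · show y j = π ^ (-k) * w j
      rw [(hy j).2, ← mul_assoc, ← zpow_add₀ hπ0]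
      simp
    · exact (r_ne hr _).2 hi

end Pool.Agent.Lib.MP_8cb858_nt.PF
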