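import Pool.Agent.Lib.MP_8cb858_nt.PF.SpecF
import Pool.Agent.Lib.MP_8cb858_nt.SEL.LO1
import Pool.Agent.Lib.MP_8cb858_nt.PF.FI1

section
/-!
# Row 187, module FAD (helper74): bounded matrices
-/
set_option autoImplicit false

namespace Pool.Agent.Lib.MP_8cb858_nt.PF

open Polynomial NumberField IsDedekindDomain Pool.Agent.Lib.MP_8cb858_nt.SEL Matrix
open scoped Classical WithZero

namespace FADM

variable {F : Type} [Field F] [NumberField F]

theorem le_of_mem (v : HeightOneSpectrum (𝓞 F)) {x : 𝓞 F} (hx : x ≠ 0) (h : x ∈ v.asIdeal) :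
    nv v ≤ Ideal.absNorm (Ideal.span {x}) := by
  have h1 : v.asIdeal ∣ Ideal.span {x} := by
    rw [Ideal.dvd_iff_le, Ideal.span_singleton_le_iff_mem]
    exact h
  have h2 : Ideal.absNorm (Ideal.span {x}) ≠ 0 := by
    rw [Ne, Ideal.absNorm_eq_zero_iff, Ideal.span_singleton_eq_bot]
    exact hx
  exact Nat.le_of_dvd (Nat.pos_of_ne_zero h2) (Ideal.absNorm_dvd_absNorm_of_le (Ideal.le_of_dvd h1))

end FADM

open FADM in
theorem specFAD : SpecFAD := by
  intro F _ _ C
  have hfin : {A : MO F | ∀ (v : InfinitePlace F) (i j : Fin 3), v (A i j : F) ≤ C}.Finite := by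
    have h1 := CNUM.box_finite (F := F) (fun _ => C)
    refine (Set.Finite.pi' fun _ : Fin 3 => Set.Finite.pi' fun _ : Fin 3 => h1).subset ?_
    intro A hA i j v
    exact hA v i j
  refine ⟨hfin, Ideal.absNorm (Ideal.span {(6 : 𝓞 F)}) +
    ∑ A ∈ hfin.toFinset, Ideal.absNorm (Ideal.span {(A.det : 𝓞 F)}), fun v hv => ⟨fun h => ?_, ?_⟩⟩
  · have := le_of_mem v (by norm_num) h
    omega
  · intro A hA hdet h
    have h1 := le_of_mem v hdet h
    have h2 : Ideal.absNorm (Ideal.span {(A.det : 𝓞 F)}) ≤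
        ∑ A ∈ hfin.toFinset, Ideal.absNorm (Ideal.span {(A.det : 𝓞 F)}) :=
      Finset.single_le_sum (f := fun A : MO F => Ideal.absNorm (Ideal.span {(A.det : 𝓞 F)}))
        (fun _ _ => Nat.zero_le _) (hfin.mem_toFinset.2 hA)
    omega

end Pool.Agent.Lib.MP_8cb858_nt.PF
end

section
/-!
# FAL: product of the local counts
-/
namespace Pool.Agent.Lib.MP_8cb858_nt.PF

open Polynomial NumberField IsDedekindDomain Pool.Agent.Lib.MP_8cb858_nt.SEL Matrix
open scoped Classical

namespace FALM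

variable {F : Type} [Field F] [NumberField F]

theorem nv_pos (v : HeightOneSpectrum (𝓞 F)) : 0 < nv v := by
  have := finite_quot v
  rw [← card_quot v]
  exact Nat.card_pos

theorem one (hFCB : SpecFCB) (hFC3 : SpecFC3) (Q Q' P z : Finset (HeightOneSpectrum (𝓞 F)))
    (A : MO F) (hQ : Q' ⊆ Q) (hQP : ∀ v ∈ Q, v ∉ P)
    (hz : z ⊆ Q') (hA : A.IsSymm) (v : HeightOneSpectrum (𝓞 F))
    (hv : v ∈ Q ∪ P)
    (h6 : (6 : 𝓞 F) ∉ v.asIdeal) (hd : A.det ∉ v.asIdeal) :
    ((AL Q Q' z A v).ncard : ℝ) ≤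
      (nv v : ℝ) ^ 5 * ((if v ∈ Q' then 1 / 2 else 1) *
        ((if v ∈ Q then (1 + 1 / (nv v : ℝ)) ^ 2 / 2 else 1) *
        (if v ∈ P then (1 + 1 / (nv v : ℝ)) ^ 2 / 3 else 1))) := by
  obtain ⟨h1, h2, h3⟩ := fcb_at hFCB hFC3 v A h6 hA hd
  have hp0 : (0 : ℝ) < nv v := by exact_mod_cast nv_pos v
  have h1' : 4 * ((BT (md v.asIdeal A)).ncard : ℝ) ≤ (nv v : ℝ) ^ 3 * ((nv v : ℝ) + 1) ^ 2 := by
    exact_mod_cast h1
  have h2' : 4 * ((BN (md v.asIdeal A)).ncard : ℝ) ≤ (nv v : ℝ) ^ 3 * ((nv v : ℝ) + 1) ^ 2 := by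
    exact_mod_cast h2
  have h3' : 3 * ((B3 (md v.asIdeal A)).ncard : ℝ) ≤ (nv v : ℝ) ^ 5 := by
    exact_mod_cast h3
  have h4 : (nv v : ℝ) ^ 3 * ((nv v : ℝ) + 1) ^ 2 = (nv v : ℝ) ^ 5 * (1 + 1 / (nv v : ℝ)) ^ 2 := by
    field_simp
  rw [h4] at h1' h2'
  unfold AL
  by_cases hq : v ∈ Q
  · rw [if_pos hq, if_neg (hQP v hq), if_pos hq]
    by_cases hz' : v ∈ z
    · rw [if_pos hz', if_pos (hz hz')]
      linarith
    · rw [if_neg hz']
      by_cases hq' : v ∈ Q'
      · rw [if_pos hq', if_pos hq']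
        linarith
      · rw [if_neg hq', if_neg hq']
        have h4 : ((BT (md v.asIdeal A) ∪ BN (md v.asIdeal A)).ncard : ℝ) ≤
            (BT (md v.asIdeal A)).ncard + (BN (md v.asIdeal A)).ncard := by
          exact_mod_cast Set.ncard_union_le _ _
        linarith
  · have hvP : v ∈ P := (Finset.mem_union.1 hv).resolve_left hq
    have hq' : v ∉ Q' := fun h => hq (hQ h)
    have hz' : v ∉ z := fun h => hq' (hz h)
    rw [if_neg hz', if_neg hq', if_neg hq, if_neg hq', if_neg hq, if_pos hvP]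
    have h5 : (nv v : ℝ) ^ 5 ≤ (nv v : ℝ) ^ 5 * (1 + 1 / (nv v : ℝ)) ^ 2 := by
      apply le_mul_of_one_le_right (by positivity)
      apply one_le_pow₀
      have : (0 : ℝ) < 1 / (nv v : ℝ) := by positivity
      linarith
    linarith

end FALM

theorem specFAL (hFCB : SpecFCB) (hFC3 : SpecFC3) : SpecFAL := by
  intro F _ _ Q Q' P z A hQP hQ' hz hA hd
  have h1 : ∀ v ∈ Q ∪ P, ((AL Q Q' z A v).ncard : ℝ) ≤
      (nv v : ℝ) ^ 5 * ((if v ∈ Q' then 1 / 2 else 1) *
        ((if v ∈ Q then (1 + 1 / (nv v : ℝ)) ^ 2 / 2 else 1) *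
        (if v ∈ P then (1 + 1 / (nv v : ℝ)) ^ 2 / 3 else 1))) := fun v hv =>
    FALM.one hFCB hFC3 Q Q' P z A hQ' hQP hz hA v hv (hd v hv).1 (hd v hv).2
  refine (Finset.prod_le_prod (fun v _ => Nat.cast_nonneg _) h1).trans (le_of_eq ?_)
  rw [Finset.prod_mul_distrib, Finset.prod_mul_distrib, Finset.prod_mul_distrib, Finset.prod_pow,
    Finset.prod_ite_mem, Finset.prod_ite_mem, Finset.prod_ite_mem,
    Finset.inter_eq_right.2 (hQ'.trans Finset.subset_union_left),
    Finset.inter_eq_right.2 Finset.subset_union_left,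
    Finset.inter_eq_right.2 Finset.subset_union_right, Finset.prod_const, one_div, one_div,
    inv_pow, mul_assoc]

end Pool.Agent.Lib.MP_8cb858_nt.PF
end

section
/-!
# Module FCON: points of a conic
-/
namespace Pool.Agent.Lib.MP_8cb858_nt.PF

namespace FCONM

variable {κ : Type} [Field κ] [DecidableEq κ]

theorem circ (h2 : (2 : κ) ≠ 0) {k u v u' v' : κ} (hk : k ≠ 0) (h : u ^ 2 + k * v ^ 2 = 1)
    (h' : u' ^ 2 + k * v' ^ 2 = 1)
    (he : (if u = -1 then none else some (v / (1 + u))) =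
      (if u' = -1 then none else some (v' / (1 + u')))) : u = u' ∧ v = v' := by
  by_cases hu : u = -1
  · by_cases hu' : u' = -1
    · have hv : v = 0 := by
        rw [hu] at h
        have : k * v ^ 2 = 0 := by linear_combination h
        rcases mul_eq_zero.1 this with h3 | h3
        · exact absurd h3 hk
        · exact pow_eq_zero_iff (two_ne_zero) |>.1 h3
      have hv' : v' = 0 := by
        rw [hu'] at h'
        have : k * v' ^ 2 = 0 := by linear_combination h'
        rcases mul_eq_zero.1 this with h3 | h3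
        · exact absurd h3 hk
        · exact pow_eq_zero_iff (two_ne_zero) |>.1 h3
      exact ⟨by rw [hu, hu'], by rw [hv, hv']⟩
    · rw [if_pos hu, if_neg hu'] at he
      exact absurd he (by simp)
  · by_cases hu' : u' = -1
    · rw [if_neg hu, if_pos hu'] at he
      exact absurd he (by simp)
    · rw [if_neg hu, if_neg hu'] at he
      have n1 : 1 + u ≠ 0 := fun e => hu (by linear_combination e)
      have n2 : 1 + u' ≠ 0 := fun e => hu' (by linear_combination e)
      have hs := Option.some.inj he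
      set s := v / (1 + u) with hsd
      have hv : v = s * (1 + u) := by rw [hsd]; field_simp
      have hv' : v' = s * (1 + u') := by rw [hs]; field_simp
      have e1 : u * (1 + k * s ^ 2) = 1 - k * s ^ 2 := by
        have : (1 + u) * (u * (1 + k * s ^ 2) - (1 - k * s ^ 2)) = 0 := by
          rw [hv] at h
          linear_combination h
        rcases mul_eq_zero.1 this with h3 | h3
        · exact absurd h3 n1
        · linear_combination h3
      have e2 : u' * (1 + k * s ^ 2) = 1 - k * s ^ 2 := by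
        have : (1 + u') * (u' * (1 + k * s ^ 2) - (1 - k * s ^ 2)) = 0 := by
          rw [hv'] at h'
          linear_combination h'
        rcases mul_eq_zero.1 this with h3 | h3
        · exact absurd h3 n2
        · linear_combination h3
      have n3 : 1 + k * s ^ 2 ≠ 0 := by
        intro e
        rw [e, mul_zero] at e1
        apply h2
        linear_combination e - e1
      have huu : u = u' := by
        have : (u - u') * (1 + k * s ^ 2) = 0 := by linear_combination e1 - e2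
        rcases mul_eq_zero.1 this with h3 | h3
        · linear_combination h3
        · exact absurd h3 n3
      exact ⟨huu, by rw [hv, hv', huu]⟩

end FCONM

open FCONM in
theorem specFCON : SpecFCON := by
  classical
  intro κ _ _ k δ hp hk hδ
  rcases Set.eq_empty_or_nonempty {z : κ × κ | z.1 ^ 2 + k * z.2 ^ 2 = δ} with h | h
  · rw [h, Set.ncard_empty]
    omega
  · obtain ⟨⟨x0, y0⟩, h0⟩ := h
    have h0' : x0 ^ 2 + k * y0 ^ 2 = δ := h0
    let U : κ × κ → κ := fun z => (z.1 * x0 + k * z.2 * y0) / δ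
    let V : κ × κ → κ := fun z => (z.1 * y0 - z.2 * x0) / δ
    let f : κ × κ → Option (κ) := fun z =>
      if U z = -1 then none else some (V z / (1 + U z))
    have key : ∀ z : κ × κ, z.1 ^ 2 + k * z.2 ^ 2 = δ →
        U z ^ 2 + k * V z ^ 2 = 1 ∧ z.1 = U z * x0 + k * V z * y0 ∧
          z.2 = U z * y0 - V z * x0 := by
      intro z hz
      refine ⟨?_, ?_, ?_⟩
      · show ((z.1 * x0 + k * z.2 * y0) / δ) ^ 2 + k * ((z.1 * y0 - z.2 * x0) / δ) ^ 2 = 1
        field_simp
        have e : (z.1 * x0 + k * z.2 * y0) ^ 2 + k * (z.1 * y0 - z.2 * x0) ^ 2 =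
          (z.1 ^ 2 + k * z.2 ^ 2) * (x0 ^ 2 + k * y0 ^ 2) := by ring
        rw [hz, h0'] at e
        linear_combination e
      · show z.1 = (z.1 * x0 + k * z.2 * y0) / δ * x0 + k * ((z.1 * y0 - z.2 * x0) / δ) * y0
        field_simp
        linear_combination (-z.1) * h0'
      · show z.2 = (z.1 * x0 + k * z.2 * y0) / δ * y0 - (z.1 * y0 - z.2 * x0) / δ * x0
        field_simp
        linear_combination (-z.2) * h0'
    have hinj : Set.InjOn f {z : κ × κ | z.1 ^ 2 + k * z.2 ^ 2 = δ} := by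
      intro z hz z' hz' he
      obtain ⟨a1, a2, a3⟩ := key z hz
      obtain ⟨b1, b2, b3⟩ := key z' hz'
      obtain ⟨e1, e2⟩ := circ hp hk a1 b1 he
      apply Prod.ext
      · rw [a2, b2, e1, e2]
      · rw [a3, b3, e1, e2]
    have hle := Set.ncard_le_ncard_of_injOn (t := Set.univ) f (fun _ _ => Set.mem_univ _) hinj
    rw [Set.ncard_univ, Finite.card_option] at hle
    exact hle

end Pool.Agent.Lib.MP_8cb858_nt.PF
end

section
/-!
# MP_8cb858_nt, Poonen-Rains up to epsilon over number fields, block F, module FEI (helper43)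

Eigenvectors over a finite field.
-/
set_option autoImplicit false

namespace Pool.Agent.Lib.MP_8cb858_nt.PF

open Matrix
open Pool.Agent.Lib.MP_8cb858_nt.PR (SpecFID)

namespace FEIM

variable {k : Type} [Field k]

theorem cp (hFID : SpecFID) {a b : k} {A B : Matrix (Fin 3) (Fin 3) k} (h : Gd a b A B) (x : k) :
    (x • A - B).det = A.det * (x ^ 3 + a * x + b) := by
  obtain ⟨⟨-, h1, h2, h3⟩, -⟩ := h
  rw [hFID.cp, h1, h2]
  linear_combination h3

theorem dr (hFID : SpecFID) {a b : k} {A B : Matrix (Fin 3) (Fin 3) k} (h : Gd a b A B) (x : k) :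
    ((x • A - B).adjugate * A).trace = (3 * x ^ 2 + a) * A.det := by
  obtain ⟨⟨-, h1, h2, -⟩, -⟩ := h
  rw [hFID.dr, h1, h2]
  ring

theorem ker {A B : Matrix (Fin 3) (Fin 3) k} {t : k} {w : Fin 3 → k} :
    B.mulVec w = t • A.mulVec w ↔ (t • A - B).mulVec w = 0 := by
  rw [Matrix.sub_mulVec, Matrix.smul_mulVec, sub_eq_zero]
  exact eq_comm

/-- the fundamental relation -/
theorem rel (hFID : SpecFID) {a b : k} {A B : Matrix (Fin 3) (Fin 3) k} (hA : A.IsSymm) (h : Gd a b A B)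
    {t : k} {w : Fin 3 → k} (hw : B.mulVec w = t • A.mulVec w) (i : Fin 3) :
    (3 * t ^ 2 + a) * A.det * (w i) ^ 2 = (t • A - B).adjugate i i * (w ⬝ᵥ A.mulVec w) := by
  have hC : (t • A - B).IsSymm := (hA.smul t).sub h.1.1
  have := hFID.kr A (t • A - B) w i i hC (ker.1 hw)
  rw [dr hFID h] at this
  rw [← this]
  ring

end FEIM

open FEIM in
/-- **FEI** -/
theorem specFEI (hFRT : SpecFRT) (hFID : SpecFID) : SpecFEI := by
  intro k _ _ a b A B _ _ hA hdet hG
  obtain ⟨hex, huniq, hsimp⟩ := hFRT k a b hG.2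
  have hroot : ∀ (t : k) (w : Fin 3 → k), w ≠ 0 → B.mulVec w = t • A.mulVec w →
      t ^ 3 + a * t + b = 0 := by
    intro t w hw0 hw
    have h1 : (t • A - B).det = 0 :=
      Matrix.exists_mulVec_eq_zero_iff.1 ⟨w, hw0, ker.1 hw⟩
    rw [cp hFID hG] at h1
    exact (mul_eq_zero.1 h1).resolve_left hdet
  refine ⟨?_, ?_⟩
  · obtain ⟨t, ht⟩ := hex
    have h1 : (t • A - B).det = 0 := by rw [cp hFID hG, ht, mul_zero]
    obtain ⟨w, hw0, hw⟩ := Matrix.exists_mulVec_eq_zero_iff.2 h1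
    exact ⟨t, w, hw0, ker.2 hw⟩
  · intro t w hw0 hw
    have ht := hroot t w hw0 hw
    have hs := hsimp t ht
    obtain ⟨i, hi⟩ : ∃ i, w i ≠ 0 := by
      by_contra hcon
      push Not at hcon
      exact hw0 (funext hcon)
    have hri := rel hFID hA hG hw i
    have hX : (3 * t ^ 2 + a) * A.det * (w i) ^ 2 ≠ 0 :=
      mul_ne_zero (mul_ne_zero hs hdet) (pow_ne_zero 2 hi)
    have hAw : w ⬝ᵥ A.mulVec w ≠ 0 := by
      intro h0
      rw [h0, mul_zero] at hri
      exact hX hri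
    have hadj : (t • A - B).adjugate i i ≠ 0 := by
      intro h0
      rw [h0, zero_mul] at hri
      exact hX hri
    refine ⟨ht, hs, hAw, ?_, ?_⟩
    · rintro ⟨t', w', hw0', hw', hsq⟩
      have ht' := hroot t' w' hw0' hw'
      have htt : t' = t := huniq t' t ht' ht
      subst htt
      have hri' := rel hFID hA hG hw' i
      -- the Gram values differ by the square of `w' i / w i`
      have hval : (w ⬝ᵥ A.mulVec w) * (w' i) ^ 2 = (w' ⬝ᵥ A.mulVec w') * (w i) ^ 2 := by
        have : (t' • A - B).adjugate i i * ((w ⬝ᵥ A.mulVec w) * (w' i) ^ 2) =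
            (t' • A - B).adjugate i i * ((w' ⬝ᵥ A.mulVec w') * (w i) ^ 2) := by
          linear_combination (-(w' i) ^ 2) * hri + (w i) ^ 2 * hri'
        exact mul_left_cancel₀ hadj this
      have hw'i : w' i ≠ 0 := by
        intro h0
        obtain ⟨j, hj⟩ : ∃ j, w' j ≠ 0 := by
          by_contra hcon
          push Not at hcon
          exact hw0' (funext hcon)
        have hrj := rel hFID hA hG hw' j
        have hX' : (3 * t' ^ 2 + a) * A.det * (w' j) ^ 2 ≠ 0 :=
          mul_ne_zero (mul_ne_zero hs hdet) (pow_ne_zero 2 hj)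
        have hAw' : w' ⬝ᵥ A.mulVec w' ≠ 0 := by
          intro h1
          rw [h1, mul_zero] at hrj
          exact hX' hrj
        rw [h0] at hval
        have : (w' ⬝ᵥ A.mulVec w') * (w i) ^ 2 = 0 := by rw [← hval]; ring
        exact (mul_ne_zero hAw' (pow_ne_zero 2 hi)) this
      obtain ⟨r, hr⟩ := hsq
      refine ⟨r * (w i / w' i), ?_⟩
      have e1 : w ⬝ᵥ A.mulVec w = (w' ⬝ᵥ A.mulVec w') * (w i / w' i) ^ 2 := by
        rw [div_pow, mul_div_assoc', ← hval, mul_div_assoc, div_self (pow_ne_zero 2 hw'i), mul_one]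
      rw [e1]
      linear_combination (w i / w' i) ^ 2 * hr
    · intro hsq
      exact ⟨t, w, hw0, hw, hsq⟩

end Pool.Agent.Lib.MP_8cb858_nt.PF
end

section
/-!
# FI2: the number of `B` in a class, second type
-/
namespace Pool.Agent.Lib.MP_8cb858_nt.PF

open Polynomial NumberField IsDedekindDomain Pool.Agent.Lib.MP_8cb858_nt.SEL Matrix
open scoped Classical WithZero

namespace FI2M

variable {F : Type} [Field F] [NumberField F]

lemma vol_scale (s : InfinitePlace F → ℝ) (c : ℝ) :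
    vol (fun v => s v * c) = vol s * c ^ Module.finrank ℚ F := by
  rw [CNUM.vol_mul s (fun _ => c), CNUM.vol_const]

end FI2M

open FI1M FI2M BX1M in
theorem specFI2 (hDNA : SpecDNA) : SpecFI2 := by
  intro F _ _
  obtain ⟨C, hC1, hC⟩ := hDNA F
  refine ⟨C, hC1, fun I s k A R hI hs hA hdet h00 h01 h12 h22 => ?_⟩
  set n := Module.finrank ℚ F with hn
  have hs' : A.adjugate.IsSymm := by
    rw [Matrix.IsSymm, Matrix.adjugate_transpose, hA.eq]
  have h10 : A 1 0 = 0 := by rw [hA.apply 0 1, h01]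
  have h20 : A 2 0 = A 0 2 := hA.apply 0 2
  have h21 : A 2 1 = 0 := by rw [hA.apply 1 2, h12]
  have hadj : A.adjugate 1 1 = -(A 0 2 * A 0 2) := by
    rw [Matrix.adjugate_fin_three]
    simp only [Matrix.of_apply, Matrix.cons_val', Matrix.cons_val_one, Matrix.cons_val_zero,
      Matrix.cons_val_fin_one]
    rw [h00, h22, h20]
    ring
  have h02 : A 0 2 ≠ 0 := by
    intro h0
    apply hdet
    rw [Matrix.det_fin_three, h00, h01, h10, h12, h20, h21, h22, h0]
    ring
  have hp : A.adjugate (e 3).1 (e 3).2 ≠ 0 := by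
    show A.adjugate 1 1 ≠ 0
    rw [hadj]
    exact neg_ne_zero.2 (mul_ne_zero h02 h02)
  have h2 : (0 : ℝ) < 2 := two_pos
  have h := count5 hC I hI A.adjugate hs' 3 hp R
    (fun q v => s v * (2 : ℝ) ^ ((k : ℤ) * (((e q).1 : ℕ) + ((e q).2 : ℕ) - 2 : ℤ)))
    (fun q v => mul_pos (hs v) (zpow_pos h2 _))
    {B : MO F | B.IsSymm ∧ (A.adjugate * B).trace = 0 ∧
      (∀ (v : InfinitePlace F) (i j : Fin 3), v (B i j : F) ≤
        s v * (2 : ℝ) ^ ((k : ℤ) * ((i : ℕ) + (j : ℕ) - 2 : ℤ))) ∧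
      ∀ i j, B i j - R i j ∈ I} (fun B hB => ⟨hB.1, hB.2.1, fun q v => hB.2.2.1 v _ _, hB.2.2.2⟩)
  refine ⟨h.1, h.2.trans (le_of_eq ?_)⟩
  rw [Finset.prod_mul_distrib, Finset.prod_const, Finset.card_univ, Fintype.card_fin]
  congr 1
  have e0 : (3 : Fin 6).succAbove 0 = 0 := rfl
  have e1 : (3 : Fin 6).succAbove 1 = 1 := rfl
  have e2 : (3 : Fin 6).succAbove 2 = 2 := rfl
  have e3 : (3 : Fin 6).succAbove 3 = 4 := rfl
  have e4 : (3 : Fin 6).succAbove 4 = 5 := rfl
  rw [Fin.prod_univ_five, e0, e1, e2, e3, e4]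
  have hz : ∀ m : ℤ, ((2 : ℝ) ^ ((k : ℤ) * m)) ^ n = (2 : ℝ) ^ (((k * n : ℕ) : ℤ) * m) := by
    intro m
    rw [← zpow_natCast ((2 : ℝ) ^ ((k : ℤ) * m)) n, ← _root_.zpow_mul]
    congr 1
    push_cast
    ring
  have hv : ∀ q : Fin 6, vol (fun v : InfinitePlace F =>
      s v * (2 : ℝ) ^ ((k : ℤ) * (((e q).1 : ℕ) + ((e q).2 : ℕ) - 2 : ℤ))) =
      vol s * (2 : ℝ) ^ (((k * n : ℕ) : ℤ) * (((e q).1 : ℕ) + ((e q).2 : ℕ) - 2 : ℤ)) := by
    intro q
    rw [vol_scale, hz]
  simp only [hv]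
  have x0 : ((((e 0).1 : ℕ) : ℤ) + (((e 0).2 : ℕ) : ℤ) - 2) = -2 := by simp [e]
  have x1 : ((((e 1).1 : ℕ) : ℤ) + (((e 1).2 : ℕ) : ℤ) - 2) = -1 := by simp [e]
  have x2 : ((((e 2).1 : ℕ) : ℤ) + (((e 2).2 : ℕ) : ℤ) - 2) = 0 := by simp [e]
  have x4 : ((((e 4).1 : ℕ) : ℤ) + (((e 4).2 : ℕ) : ℤ) - 2) = 1 := by simp [e]
  have x5 : ((((e 5).1 : ℕ) : ℤ) + (((e 5).2 : ℕ) : ℤ) - 2) = 2 := by simp [e]
  rw [x0, x1, x2, x4, x5]
  have f4 : (4 : ℝ) ^ (k * n) = (2 : ℝ) ^ (k * n) * (2 : ℝ) ^ (k * n) := by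
    rw [← mul_pow]
    norm_num
  have hx : (2 : ℝ) ^ (k * n) ≠ 0 := by positivity
  have y0 : (2 : ℝ) ^ (((k * n : ℕ) : ℤ) * (-2)) = ((4 : ℝ) ^ (k * n))⁻¹ := by
    rw [_root_.zpow_mul, zpow_natCast, f4, _root_.zpow_neg]
    congr 1
    rw [zpow_ofNat, sq]
  have y1 : (2 : ℝ) ^ (((k * n : ℕ) : ℤ) * (-1)) = ((2 : ℝ) ^ (k * n))⁻¹ := by
    rw [_root_.zpow_mul, zpow_natCast, _root_.zpow_neg, zpow_one]
  have y2 : (2 : ℝ) ^ (((k * n : ℕ) : ℤ) * 0) = 1 := by
    rw [mul_zero, zpow_zero]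
  have y4 : (2 : ℝ) ^ (((k * n : ℕ) : ℤ) * 1) = (2 : ℝ) ^ (k * n) := by
    rw [mul_one, zpow_natCast]
  have y5 : (2 : ℝ) ^ (((k * n : ℕ) : ℤ) * 2) = (4 : ℝ) ^ (k * n) := by
    rw [_root_.zpow_mul, zpow_natCast, f4, zpow_ofNat, sq]
  rw [y0, y1, y2, y4, y5]
  have z0 : vol s * ((4 : ℝ) ^ (k * n))⁻¹ / (Ideal.absNorm I : ℝ) =
      vol s / Ideal.absNorm I / 4 ^ (k * n) := by
    rw [div_eq_mul_inv, div_eq_mul_inv, div_eq_mul_inv]
    ring
  have z1 : vol s * ((2 : ℝ) ^ (k * n))⁻¹ / (Ideal.absNorm I : ℝ) =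
      vol s / Ideal.absNorm I / 2 ^ (k * n) := by
    rw [div_eq_mul_inv, div_eq_mul_inv, div_eq_mul_inv]
    ring
  have z4 : vol s * (2 : ℝ) ^ (k * n) / (Ideal.absNorm I : ℝ) =
      vol s / Ideal.absNorm I * 2 ^ (k * n) := by
    rw [div_eq_mul_inv, div_eq_mul_inv]
    ring
  have z5 : vol s * (4 : ℝ) ^ (k * n) / (Ideal.absNorm I : ℝ) =
      vol s / Ideal.absNorm I * 4 ^ (k * n) := by
    rw [div_eq_mul_inv, div_eq_mul_inv]
    ring
  rw [z0, z1, z4, z5, mul_one]

end Pool.Agent.Lib.MP_8cb858_nt.PF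
end

section
/-!
# Module FTRI: counting triples
-/
namespace Pool.Agent.Lib.MP_8cb858_nt.PF

open scoped Classical

namespace FTRIM

variable {κ : Type} [Field κ] [Fintype κ]

theorem mul_sq {a b : κ} (ha : ¬ IsSquare a) (hb : ¬ IsSquare b) :
    IsSquare (a * b) := by
  have ha0 : a ≠ 0 := fun h => ha (by rw [h]; exact IsSquare.zero)
  have hb0 : b ≠ 0 := fun h => hb (by rw [h]; exact IsSquare.zero)
  rw [← quadraticChar_one_iff_isSquare (mul_ne_zero ha0 hb0), map_mul,
    (quadraticChar_neg_one_iff_not_isSquare).2 ha, (quadraticChar_neg_one_iff_not_isSquare).2 hb]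
  norm_num

/-- twice the number of nonsquares -/
theorem card_nonsq (hr : ringChar κ ≠ 2) :
    2 * (Finset.univ.filter fun d : κ => ¬ IsSquare d).card = Fintype.card κ - 1 := by
  have h := quadraticChar_sum_zero (F := κ) hr
  have h1 : ∀ a : κ, quadraticChar (κ) a =
      (if a = 0 then (-1 : ℤ) else 0) + 1 - 2 * (if ¬ IsSquare a then (1 : ℤ) else 0) := by
    intro a
    by_cases ha : a = 0
    · subst ha
      simp
    · by_cases hs : IsSquare a
      · rw [(quadraticChar_one_iff_isSquare ha).2 hs]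
        simp [ha, hs]
      · rw [(quadraticChar_neg_one_iff_not_isSquare).2 hs]
        simp [ha, hs]
  rw [Finset.sum_congr rfl (fun a _ => h1 a), Finset.sum_sub_distrib, Finset.sum_add_distrib,
    ← Finset.mul_sum, Finset.sum_ite_eq', Finset.sum_boole] at h
  simp only [Finset.mem_univ, if_true, Finset.sum_const, Finset.card_univ,
    nsmul_eq_mul, mul_one] at h
  have hp1 : 1 ≤ Fintype.card κ := Fintype.card_pos
  zify [hp1]
  linarith

/-- the possible third entries -/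
theorem card_third (hFCON : SpecFCON) (h2 : (2 : κ) ≠ 0) (hr : ringChar κ ≠ 2) {n d : κ} (e : Prop) (hn : n ≠ 0)
    (hd : ¬ IsSquare d) :
    2 * (Finset.univ.filter fun c : κ => (IsSquare ((c ^ 2 - d) * n) ↔ e)).card ≤ Fintype.card κ + 1 := by
  have hd0 : d ≠ 0 := fun h => hd (by rw [h]; exact IsSquare.zero)
  obtain ⟨ν, hν0, hν⟩ : ∃ ν : κ, ν ≠ 0 ∧ ∀ c, (IsSquare ((c ^ 2 - d) * n) ↔ e) →
      ∃ z, z ≠ 0 ∧ (c ^ 2 - d) * n = ν * z ^ 2 := by
    have hne : ∀ c : κ, (c ^ 2 - d) * n ≠ 0 := by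
      intro c h
      rcases mul_eq_zero.1 h with h3 | h3
      · exact hd ⟨c, by linear_combination -h3⟩
      · exact hn h3
    by_cases he : e
    · refine ⟨1, one_ne_zero, fun c hc => ?_⟩
      obtain ⟨z, hz⟩ := hc.2 he
      refine ⟨z, fun h => hne c (by rw [hz, h, mul_zero]), by rw [hz]; ring⟩
    · refine ⟨d, hd0, fun c hc => ?_⟩
      have h3 : ¬ IsSquare ((c ^ 2 - d) * n) := fun h => he (hc.1 h)
      obtain ⟨w, hw⟩ := mul_sq h3 hd
      refine ⟨w / d, fun h => ?_, ?_⟩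
      · have hw0 : w = 0 := by
          rcases div_eq_zero_iff.1 h with h4 | h4
          · exact h4
          · exact absurd h4 hd0
        rw [hw0, mul_zero] at hw
        exact mul_ne_zero (hne c) hd0 hw
      · field_simp
        linear_combination hw
  choose! z hz0 hz using hν
  have hcon := hFCON κ (-ν / n) d h2 (div_ne_zero (neg_ne_zero.2 hν0) hn) hd0
  rw [Nat.card_eq_fintype_card] at hcon
  set S : Finset (κ) := Finset.univ.filter fun c : κ => (IsSquare ((c ^ 2 - d) * n) ↔ e)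
    with hS
  have hfin : ({z : κ × κ | z.1 ^ 2 + (-ν / n) * z.2 ^ 2 = d}).Finite := Set.toFinite _
  let f : κ × Bool → κ × κ := fun q => (q.1, if q.2 then z q.1 else - z q.1)
  have hmap : ∀ q ∈ S ×ˢ (Finset.univ : Finset Bool), f q ∈ hfin.toFinset := by
    rintro ⟨c, b⟩ hq
    have hc : (IsSquare ((c ^ 2 - d) * n) ↔ e) := by
      have := (Finset.mem_product.1 hq).1
      rw [hS, Finset.mem_filter] at this
      exact this.2
    rw [Set.Finite.mem_toFinset]
    have h3 := hz c hc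
    show c ^ 2 + (-ν / n) * (if b then z c else - z c) ^ 2 = d
    have h4 : (if b then z c else - z c) ^ 2 = z c ^ 2 := by
      cases b <;> simp
    rw [h4]
    field_simp
    linear_combination h3
  have hinj : Set.InjOn f (S ×ˢ (Finset.univ : Finset Bool) : Finset (κ × Bool)) := by
    rintro ⟨c, b⟩ hq ⟨c', b'⟩ hq' h
    have hc : (IsSquare ((c ^ 2 - d) * n) ↔ e) := by
      have := (Finset.mem_product.1 (Finset.mem_coe.1 hq)).1
      rw [hS, Finset.mem_filter] at this
      exact this.2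
    have h3 : c = c' := congrArg Prod.fst h
    subst h3
    have h4 : (if b then z c else - z c) = (if b' then z c else - z c) := congrArg Prod.snd h
    have h5 := hz0 c hc
    have h6 : z c ≠ - z c := by
      intro h7
      have : 2 * z c = 0 := by linear_combination h7
      rcases mul_eq_zero.1 this with h8 | h8
      · exact h2 h8
      · exact h5 h8
    have h7 : b = b' := by
      cases b <;> cases b'
      · rfl
      · exact absurd h4.symm (by simpa using h6)
      · exact absurd h4 (by simpa using h6)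
      · rfl
    rw [h7]
  have hcard := Finset.card_le_card_of_injOn f hmap hinj
  rw [Finset.card_product, Finset.card_univ, Fintype.card_bool,
    ← Set.ncard_eq_toFinset_card _ hfin] at hcard
  omega

end FTRIM

open FTRIM in
theorem specFTRI (hFCON : SpecFCON) : SpecFTRI := by
  intro κ _ _ k n e h2 hk hn
  let _ := Fintype.ofFinite κ
  have hr : ringChar κ ≠ 2 := fun h => h2 (by
    have := CharP.cast_eq_zero κ (ringChar κ)
    rw [h] at this
    exact_mod_cast this)
  rw [Nat.card_eq_fintype_card]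
  set T : Finset (κ × κ × κ) := Finset.univ.filter fun z =>
    ¬ IsSquare (z.1 ^ 2 + k * z.2.1 ^ 2) ∧
      (IsSquare ((z.2.2 ^ 2 - (z.1 ^ 2 + k * z.2.1 ^ 2)) * n) ↔ e) with hT
  have hTn : {z : κ × κ × κ | ¬ IsSquare (z.1 ^ 2 + k * z.2.1 ^ 2) ∧
      (IsSquare ((z.2.2 ^ 2 - (z.1 ^ 2 + k * z.2.1 ^ 2)) * n) ↔ e)}.ncard = T.card := by
    rw [← Set.ncard_coe_finset]
    congr 1
    ext z
    simp [hT]
  rw [hTn]
  set N : Finset (κ) := Finset.univ.filter fun d : κ => ¬ IsSquare d with hN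
  have h1 : T.card = ∑ d ∈ N, (T.filter fun z => z.1 ^ 2 + k * z.2.1 ^ 2 = d).card := by
    apply Finset.card_eq_sum_card_fiberwise
    intro z hz
    rw [Finset.mem_coe, hT, Finset.mem_filter] at hz
    rw [Finset.mem_coe, hN, Finset.mem_filter]
    exact ⟨Finset.mem_univ _, hz.2.1⟩
  have h2 : ∀ d ∈ N, 2 * (T.filter fun z => z.1 ^ 2 + k * z.2.1 ^ 2 = d).card ≤
      (Fintype.card κ + 1) * (Fintype.card κ + 1) := by
    intro d hd
    rw [hN, Finset.mem_filter] at hd
    have hd0 : d ≠ 0 := fun h => hd.2 (by rw [h]; exact IsSquare.zero)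
    have hP := hFCON κ k d h2 hk hd0
    rw [Nat.card_eq_fintype_card] at hP
    have hC := card_third hFCON h2 hr e hn hd.2
    have hfin : ({z : κ × κ | z.1 ^ 2 + k * z.2 ^ 2 = d}).Finite := Set.toFinite _
    have hle : (T.filter fun z => z.1 ^ 2 + k * z.2.1 ^ 2 = d).card ≤
        (hfin.toFinset ×ˢ (Finset.univ.filter fun c : κ =>
          (IsSquare ((c ^ 2 - d) * n) ↔ e))).card := by
      refine Finset.card_le_card_of_injOn (fun z => ((z.1, z.2.1), z.2.2)) ?_ ?_
      · intro z hz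
        rw [Finset.mem_coe, Finset.mem_filter, hT, Finset.mem_filter] at hz
        rw [Finset.mem_coe, Finset.mem_product, Set.Finite.mem_toFinset, Finset.mem_filter]
        refine ⟨hz.2, Finset.mem_univ _, ?_⟩
        have h4 := hz.1.2.2
        rw [hz.2] at h4
        exact h4
      · rintro ⟨a, b, c⟩ _ ⟨a', b', c'⟩ _ h
        simp only [Prod.mk.injEq] at h
        obtain ⟨⟨h5, h6⟩, h7⟩ := h
        rw [h5, h6, h7]
    rw [Finset.card_product, ← Set.ncard_eq_toFinset_card _ hfin] at hle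
    calc 2 * (T.filter fun z => z.1 ^ 2 + k * z.2.1 ^ 2 = d).card
        ≤ 2 * ({z : κ × κ | z.1 ^ 2 + k * z.2 ^ 2 = d}.ncard *
          (Finset.univ.filter fun c : κ => (IsSquare ((c ^ 2 - d) * n) ↔ e)).card) :=
          Nat.mul_le_mul_left 2 hle
      _ = {z : κ × κ | z.1 ^ 2 + k * z.2 ^ 2 = d}.ncard *
          (2 * (Finset.univ.filter fun c : κ => (IsSquare ((c ^ 2 - d) * n) ↔ e)).card) := by
          ring
      _ ≤ (Fintype.card κ + 1) * (Fintype.card κ + 1) := Nat.mul_le_mul hP hC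
  have h3 : 2 * T.card ≤ N.card * ((Fintype.card κ + 1) * (Fintype.card κ + 1)) := by
    rw [h1, Finset.mul_sum]
    calc _ ≤ ∑ d ∈ N, (Fintype.card κ + 1) * (Fintype.card κ + 1) := Finset.sum_le_sum h2
      _ = _ := by rw [Finset.sum_const, smul_eq_mul]
  have h4 := card_nonsq hr
  rw [← hN] at h4
  calc 4 * T.card = 2 * (2 * T.card) := by ring
    _ ≤ 2 * (N.card * ((Fintype.card κ + 1) * (Fintype.card κ + 1))) := Nat.mul_le_mul_left 2 h3
    _ = (2 * N.card) * (Fintype.card κ + 1) ^ 2 := by ring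
    _ = (Fintype.card κ - 1) * (Fintype.card κ + 1) ^ 2 := by rw [h4]

end Pool.Agent.Lib.MP_8cb858_nt.PF
end
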