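import Pool.Agent.Lib.MP_8cb858_nt.PR.SpecG
import Pool.Agent.Lib.MP_8cb858_nt.PF.SpecG

section
/-!
# Block F, module FMQ (helper57): the first moment in the family `Fam Q`
-/
set_option autoImplicit false

namespace Pool.Agent.Lib.MP_8cb858_nt.PR

open Pool.Agent.Lib.MP_8cb858_nt.SEL
open scoped Classical

namespace FMQM

theorem ge17 {p : ℕ} (hp : p.Prime) (h : p % 8 = 1) : 17 ≤ p := by
  by_contra hlt
  have h2 : p = 1 ∨ p = 9 := by omega
  rcases h2 with rfl | rfl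
  · exact absurd hp (by norm_num)
  · exact absurd hp (by norm_num)

theorem key {x : ℝ} (h0 : 0 ≤ x) (h1 : x ≤ 1 / 2) :
    (1 + x) ^ 2 / 2 ≤ (1 - x) / 2 * Real.exp (4 * x) := by
  have e1 : x + 1 ≤ Real.exp x := Real.add_one_le_exp x
  have e2 : 2 * x + 1 ≤ Real.exp (2 * x) := Real.add_one_le_exp (2 * x)
  have e3 : Real.exp (2 * x) = Real.exp x * Real.exp x := by
    rw [← Real.exp_add]; congr 1; ring
  have e4 : Real.exp (4 * x) = Real.exp (2 * x) * Real.exp (2 * x) := by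
    rw [← Real.exp_add]; congr 1; ring
  have e5 : (1 + x) ^ 2 ≤ Real.exp (2 * x) := by
    rw [e3, pow_two, add_comm 1 x]
    exact mul_le_mul e1 e1 (by linarith) (Real.exp_pos x).le
  have e6 : 1 ≤ (1 - x) * Real.exp (2 * x) := by
    calc (1 : ℝ) ≤ (1 - x) * (2 * x + 1) := by nlinarith
      _ ≤ _ := mul_le_mul_of_nonneg_left e2 (by linarith)
  have e7 : Real.exp (2 * x) ≤ (1 - x) * Real.exp (4 * x) := by
    rw [e4, ← mul_assoc]
    have := mul_le_mul_of_nonneg_right e6 (Real.exp_pos (2 * x)).le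
    linarith
  linarith

theorem dl_ge {p : ℕ} (hp : 3 ≤ p) : 1 / 3 ≤ dl p := by
  have h : (3 : ℝ) ≤ p := by exact_mod_cast hp
  have h2 : 1 / (p : ℝ) ≤ 1 / 3 := one_div_le_one_div_of_le (by norm_num) h
  unfold dl
  linarith

theorem prod_le {Q T : Finset ℕ} (hQ : ∀ p ∈ Q, p.Prime ∧ p % 8 = 1)
    (hs : ∑ p ∈ Q, 1 / (p : ℝ) ≤ 1) (hT : T ⊆ Q) :
    ∏ p ∈ Q \ T, (1 + 1 / (p : ℝ)) ^ 2 / 2 ≤ Real.exp 4 * (3 ^ T.card * ∏ p ∈ Q, dl p) := by
  have h17 : ∀ p ∈ Q, 17 ≤ p := fun p hp => ge17 (hQ p hp).1 (hQ p hp).2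
  have h1 : ∏ p ∈ Q \ T, (1 + 1 / (p : ℝ)) ^ 2 / 2 ≤
      ∏ p ∈ Q \ T, dl p * Real.exp (4 * (1 / (p : ℝ))) := by
    refine Finset.prod_le_prod (fun p _ => by positivity) (fun p hp => ?_)
    have hp' := h17 p (Finset.mem_sdiff.mp hp).1
    have h : (17 : ℝ) ≤ p := by exact_mod_cast hp'
    have h2 : 1 / (p : ℝ) ≤ 1 / 17 := one_div_le_one_div_of_le (by norm_num) h
    exact key (by positivity) (by linarith)
  have h2 : ∏ p ∈ Q \ T, dl p * Real.exp (4 * (1 / (p : ℝ))) =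
      (∏ p ∈ Q \ T, dl p) * Real.exp (4 * ∑ p ∈ Q \ T, 1 / (p : ℝ)) := by
    rw [Finset.prod_mul_distrib, ← Real.exp_sum, Finset.mul_sum]
  have h3 : ∑ p ∈ Q \ T, 1 / (p : ℝ) ≤ 1 :=
    (Finset.sum_le_sum_of_subset_of_nonneg Finset.sdiff_subset (fun _ _ _ => by positivity)).trans hs
  have hdl : ∀ p ∈ Q, 1 / 3 ≤ dl p := fun p hp => dl_ge ((by norm_num : 3 ≤ 17).trans (h17 p hp))
  have h4 : 0 ≤ ∏ p ∈ Q \ T, dl p := Finset.prod_nonneg fun p hp =>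
    (by norm_num : (0 : ℝ) ≤ 1 / 3).trans (hdl p (Finset.mem_sdiff.mp hp).1)
  have h5 : ∏ p ∈ Q, dl p = (∏ p ∈ Q \ T, dl p) * ∏ p ∈ T, dl p :=
    (Finset.prod_sdiff hT).symm
  have h6 : (1 / 3 : ℝ) ^ T.card ≤ ∏ p ∈ T, dl p := by
    rw [← Finset.prod_const]
    exact Finset.prod_le_prod (fun _ _ => by norm_num) (fun p hp => hdl p (hT hp))
  have h7 : ∏ p ∈ Q \ T, dl p ≤ 3 ^ T.card * ∏ p ∈ Q, dl p := by
    rw [h5]
    have h8 : (1 : ℝ) ≤ 3 ^ T.card * ∏ p ∈ T, dl p := by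
      have h9 : (3 : ℝ) ^ T.card * (1 / 3) ^ T.card = 1 := by
        rw [← mul_pow]; norm_num
      rw [← h9]
      exact mul_le_mul_of_nonneg_left h6 (by positivity)
    calc ∏ p ∈ Q \ T, dl p = (∏ p ∈ Q \ T, dl p) * 1 := (mul_one _).symm
      _ ≤ (∏ p ∈ Q \ T, dl p) * (3 ^ T.card * ∏ p ∈ T, dl p) := mul_le_mul_of_nonneg_left h8 h4
      _ = _ := by ring
  have h10 : Real.exp (4 * ∑ p ∈ Q \ T, 1 / (p : ℝ)) ≤ Real.exp 4 :=
    Real.exp_le_exp.mpr (by linarith)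
  calc _ ≤ (∏ p ∈ Q \ T, dl p) * Real.exp (4 * ∑ p ∈ Q \ T, 1 / (p : ℝ)) := h1.trans h2.le
    _ ≤ (∏ p ∈ Q \ T, dl p) * Real.exp 4 := mul_le_mul_of_nonneg_left h10 h4
    _ ≤ (3 ^ T.card * ∏ p ∈ Q, dl p) * Real.exp 4 :=
        mul_le_mul_of_nonneg_right h7 (Real.exp_pos 4).le
    _ = _ := by ring

theorem pr_pos {T : Finset ℕ} (hT : ∀ p ∈ T, p.Prime) : 0 < pr T :=
  Finset.prod_pos fun p hp => by exact_mod_cast (hT p hp).pos

theorem not_dvd {T : Finset ℕ} (hT : ∀ p ∈ T, p.Prime) {σ : ℤ} (hσ : σ = 1 ∨ σ = -1) {p : ℕ}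
    (hp : p.Prime) (hpT : p ∉ T) : ¬ (p : ℤ) ∣ σ * pr T := by
  intro h
  have hp' : Prime (p : ℤ) := Nat.prime_iff_prime_int.mp hp
  have h1 : (p : ℤ) ∣ pr T := by
    rcases hσ with rfl | rfl
    · simpa using h
    · rw [neg_one_mul, Int.dvd_neg] at h
      exact h
  obtain ⟨q, hq, hpq⟩ := (Prime.dvd_finsetProd_iff hp' _).mp h1
  have h2 : p ∣ q := by exact_mod_cast hpq
  have h3 : p = q := (Nat.prime_dvd_prime_iff_eq hp (hT q hq)).mp h2
  exact hpT (h3 ▸ hq)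

end FMQM

open FMQM in
/-- Module FMQ. -/
theorem specFMQ (hFM : SpecFM) : SpecFMQ := by
  obtain ⟨CF, P0, hCF, hF⟩ := hFM
  refine ⟨CF * Real.exp 4, P0, mul_pos hCF (Real.exp_pos 4), ?_⟩
  intro Q Q' T σ Z hσ hQ hs hT hQ' hd hZ
  have hTp : ∀ p ∈ T, p.Prime := fun p hp => (hQ p (hT hp)).1
  have hpos : 0 < pr T := pr_pos hTp
  have hposR : (0 : ℝ) < (pr T : ℝ) := by exact_mod_cast hpos
  obtain ⟨X0, hX0⟩ := hF (Q \ T) Q' (σ * pr T) Z
    (fun p hp => by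
      rw [Finset.mem_sdiff] at hp
      exact ⟨(hQ p hp.1).1, (hQ p hp.1).2.2, not_dvd hTp hσ (hQ p hp.1).1 hp.2⟩)
    (by
      rcases hσ with rfl | rfl
      · rw [one_mul]; exact hpos.ne'
      · rw [neg_one_mul]; exact neg_ne_zero.mpr hpos.ne')
    (fun p hp => Finset.mem_sdiff.mpr ⟨hQ' hp, fun h => Finset.disjoint_left.mp hd hp h⟩) hZ
  refine ⟨max X0 0, fun Y hY => ?_⟩
  obtain ⟨hfin, hcard⟩ := hX0 Y ((le_max_left _ _).trans hY)
  have hY0 : 0 ≤ Y := (le_max_right _ _).trans hY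
  have hsub : {z : (Σ q : ℤ × ℤ, Sel 2 (cur q.1 q.2 (σ * pr T))) | z.1 ∈ Fam Q ∩ Ht Y ∧ z.2 ≠ 0 ∧
        Q'.filter (fun p => ¬ Triv (σ * pr T) p z.2) ∈ Z} ⊆
      {z : (Σ q : ℤ × ℤ, Sel 2 (cur q.1 q.2 (σ * pr T))) | z.1 ∈ Ht Y ∧ dsc z.1.1 z.1.2 ≠ 0 ∧
        (∀ p ∈ Q \ T, ¬ IsSquare ((-dsc z.1.1 z.1.2 : ℤ) : ZMod p)) ∧ z.2 ≠ 0 ∧
        Q'.filter (fun p => ¬ Triv (σ * pr T) p z.2) ∈ Z} := by
    rintro z ⟨⟨h1, h2⟩, h3, h4⟩
    refine ⟨h2, ?_, fun p hp => h1.2.2.2.2.2.2 p (Finset.mem_sdiff.mp hp).1, h3, h4⟩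
    have hA : 0 < z.1.1 := h1.1
    have h5 : 0 < dsc z.1.1 z.1.2 := by
      unfold dsc
      have : 0 < z.1.1 ^ 3 := pow_pos hA 3
      nlinarith [sq_nonneg z.1.2]
    exact h5.ne'
  refine ⟨hfin.subset hsub, ?_⟩
  have h1 : (({z : (Σ q : ℤ × ℤ, Sel 2 (cur q.1 q.2 (σ * pr T))) | z.1 ∈ Fam Q ∩ Ht Y ∧ z.2 ≠ 0 ∧
        Q'.filter (fun p => ¬ Triv (σ * pr T) p z.2) ∈ Z}.ncard : ℕ) : ℝ) ≤ _ :=
    (Nat.cast_le.mpr (Set.ncard_le_ncard hsub hfin)).trans hcard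
  refine h1.trans ?_
  have habs : |((σ * pr T : ℤ) : ℝ)| = (pr T : ℝ) := by
    rcases hσ with rfl | rfl
    · rw [one_mul, abs_of_pos hposR]
    · rw [neg_one_mul, Int.cast_neg, abs_neg, abs_of_pos hposR]
  rw [habs]
  have h2 := prod_le (fun p hp => ⟨(hQ p hp).1, (hQ p hp).2.1⟩) hs hT
  have h3 : 0 ≤ CF * (pr T : ℝ) ^ 5 * ((Z.card : ℝ) / 2 ^ Q'.card) := by positivity
  have h4 : 0 ≤ Y ^ (5 / 6 : ℝ) := Real.rpow_nonneg hY0 _
  calc _ ≤ CF * (pr T : ℝ) ^ 5 * ((Z.card : ℝ) / 2 ^ Q'.card) *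
        (Real.exp 4 * (3 ^ T.card * ∏ p ∈ Q, dl p)) * Y ^ (5 / 6 : ℝ) :=
        mul_le_mul_of_nonneg_right (mul_le_mul_of_nonneg_left h2 h3) h4
    _ = _ := by ring

end Pool.Agent.Lib.MP_8cb858_nt.PR
end

section
/-!
# FMQ (helper60): the first moment in the family
-/
set_option autoImplicit false

namespace Pool.Agent.Lib.MP_8cb858_nt.PF

open NumberField IsDedekindDomain Pool.Agent.Lib.MP_8cb858_nt.SEL
open scoped Classical

namespace FMQM

theorem key3 {x : ℝ} (h0 : 0 ≤ x) (h1 : x ≤ 1 / 2) :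
    (1 + x) ^ 2 / 3 ≤ (1 - x ^ 2) / 3 * Real.exp (4 * x) := by
  have h := PR.FMQM.key h0 h1
  have h2 : (1 + x) ≤ (1 - x) * Real.exp (4 * x) := by nlinarith
  have h3 : (1 + x) * (1 + x) ≤ (1 + x) * ((1 - x) * Real.exp (4 * x)) :=
    mul_le_mul_of_nonneg_left h2 (by linarith)
  nlinarith

theorem prod_le {ι : Type} {S U : Finset ι} (hSU : S ⊆ U) {g d x : ι → ℝ} {B c : ℝ} (hc : 0 < c)
    (hg0 : ∀ w ∈ S, 0 ≤ g w) (hg : ∀ w ∈ S, g w ≤ d w * Real.exp (4 * x w))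
    (hd : ∀ w ∈ U, c ≤ d w) (hB : ∑ w ∈ S, x w ≤ B) :
    ∏ w ∈ S, g w ≤ Real.exp (4 * B) * (c⁻¹ ^ (U \ S).card * ∏ w ∈ U, d w) := by
  have h1 : ∏ w ∈ S, g w ≤ ∏ w ∈ S, d w * Real.exp (4 * x w) := Finset.prod_le_prod hg0 hg
  have h2 : ∏ w ∈ S, d w * Real.exp (4 * x w) =
      (∏ w ∈ S, d w) * Real.exp (4 * ∑ w ∈ S, x w) := by
    rw [Finset.prod_mul_distrib, ← Real.exp_sum, Finset.mul_sum]
  have h4 : 0 ≤ ∏ w ∈ S, d w := Finset.prod_nonneg fun w hw => hc.le.trans (hd w (hSU hw))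
  have h5 : ∏ w ∈ U, d w = (∏ w ∈ U \ S, d w) * ∏ w ∈ S, d w := (Finset.prod_sdiff hSU).symm
  have h6 : c ^ (U \ S).card ≤ ∏ w ∈ U \ S, d w := by
    rw [← Finset.prod_const]
    exact Finset.prod_le_prod (fun _ _ => hc.le) (fun w hw => hd w (Finset.mem_sdiff.mp hw).1)
  have h7 : ∏ w ∈ S, d w ≤ c⁻¹ ^ (U \ S).card * ∏ w ∈ U, d w := by
    rw [h5]
    have h8 : (1 : ℝ) ≤ c⁻¹ ^ (U \ S).card * ∏ w ∈ U \ S, d w := by
      have h9 : c⁻¹ ^ (U \ S).card * c ^ (U \ S).card = 1 := by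
        rw [← mul_pow, inv_mul_cancel₀ hc.ne', one_pow]
      rw [← h9]
      exact mul_le_mul_of_nonneg_left h6 (by positivity)
    calc ∏ w ∈ S, d w = 1 * (∏ w ∈ S, d w) := (one_mul _).symm
      _ ≤ (c⁻¹ ^ (U \ S).card * ∏ w ∈ U \ S, d w) * (∏ w ∈ S, d w) :=
        mul_le_mul_of_nonneg_right h8 h4
      _ = _ := by ring
  have h10 : Real.exp (4 * ∑ w ∈ S, x w) ≤ Real.exp (4 * B) :=
    Real.exp_le_exp.mpr (by linarith)
  calc _ ≤ (∏ w ∈ S, d w) * Real.exp (4 * ∑ w ∈ S, x w) := h1.trans h2.le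
    _ ≤ (∏ w ∈ S, d w) * Real.exp (4 * B) := mul_le_mul_of_nonneg_left h10 h4
    _ ≤ (c⁻¹ ^ (U \ S).card * ∏ w ∈ U, d w) * Real.exp (4 * B) :=
        mul_le_mul_of_nonneg_right h7 (Real.exp_pos _).le
    _ = _ := by ring

section fld

variable {F : Type} [Field F] [NumberField F]

/-- the places of `P` over `p` -/
theorem card_ov (hPLC : SpecPLC) (P : Finset (HeightOneSpectrum (𝓞 F))) {p : ℕ} (hp : p.Prime) :
    (P.filter fun w => (p : 𝓞 F) ∈ w.asIdeal).card ≤ Module.finrank ℚ F := by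
  have hp0 : (p : 𝓞 F) ≠ 0 := Nat.cast_ne_zero.2 hp.ne_zero
  refine le_trans ?_ (hPLC.ovr F p hp)
  rw [← Set.ncard_coe_finset]
  exact Set.ncard_le_ncard (fun w hw => (Finset.mem_filter.1 hw).2) (hPLC.fin F _ hp0)

theorem card_le (hPLC : SpecPLC) (P : Finset (HeightOneSpectrum (𝓞 F))) (I : Finset ℕ)
    (hI : ∀ p ∈ I, p.Prime) (hP : ∀ w ∈ P, ∃ p ∈ I, (p : 𝓞 F) ∈ w.asIdeal) :
    P.card ≤ Module.finrank ℚ F * I.card := by
  have h1 : P ⊆ I.biUnion fun p => P.filter fun w => (p : 𝓞 F) ∈ w.asIdeal := by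
    intro w hw
    obtain ⟨p, hp, hpw⟩ := hP w hw
    exact Finset.mem_biUnion.2 ⟨p, hp, Finset.mem_filter.2 ⟨hw, hpw⟩⟩
  refine (Finset.card_le_card h1).trans (Finset.card_biUnion_le.trans ?_)
  rw [mul_comm, ← smul_eq_mul]
  exact Finset.sum_le_card_nsmul _ _ _ fun p hp => card_ov hPLC P (hI p hp)

theorem sum_le (hPLC : SpecPLC) (P : Finset (HeightOneSpectrum (𝓞 F))) (I : Finset ℕ)
    (hI : ∀ p ∈ I, p.Prime) (hP : ∀ w ∈ P, ∃ p ∈ I, (p : 𝓞 F) ∈ w.asIdeal) :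
    ∑ w ∈ P, 1 / (nv w : ℝ) ≤ Module.finrank ℚ F * ∑ p ∈ I, 1 / (p : ℝ) := by
  have hnn : ∀ w : HeightOneSpectrum (𝓞 F), 0 ≤ 1 / (nv w : ℝ) := fun w => by positivity
  calc ∑ w ∈ P, 1 / (nv w : ℝ)
      ≤ ∑ w ∈ P, ∑ p ∈ I, if (p : 𝓞 F) ∈ w.asIdeal then 1 / (nv w : ℝ) else 0 := by
        refine Finset.sum_le_sum fun w hw => ?_
        obtain ⟨p, hp, hpw⟩ := hP w hw
        have h2 := Finset.single_le_sum
          (f := fun p : ℕ => if (p : 𝓞 F) ∈ w.asIdeal then 1 / (nv w : ℝ) else 0)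
          (fun q _ => by
            show (0 : ℝ) ≤ if (q : 𝓞 F) ∈ w.asIdeal then 1 / (nv w : ℝ) else 0
            split_ifs
            · exact hnn w
            · exact le_rfl) hp
        simp only [if_pos hpw] at h2
        exact h2
    _ = ∑ p ∈ I, ∑ w ∈ P.filter fun w => (p : 𝓞 F) ∈ w.asIdeal, 1 / (nv w : ℝ) := by
        rw [Finset.sum_comm]
        exact Finset.sum_congr rfl fun p _ => (Finset.sum_filter _ _).symm
    _ ≤ ∑ p ∈ I, Module.finrank ℚ F * (1 / (p : ℝ)) := by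
        refine Finset.sum_le_sum fun p hp => ?_
        have hp' := hI p hp
        have h2 : ∀ w ∈ P.filter fun w => (p : 𝓞 F) ∈ w.asIdeal,
            1 / (nv w : ℝ) ≤ 1 / (p : ℝ) := by
          intro w hw
          have h3 := hPLC.low F w p hp' (Finset.mem_filter.1 hw).2
          exact one_div_le_one_div_of_le (by exact_mod_cast hp'.pos) (by exact_mod_cast h3)
        refine (Finset.sum_le_card_nsmul _ _ _ h2).trans ?_
        rw [nsmul_eq_mul]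
        exact mul_le_mul_of_nonneg_right (by exact_mod_cast card_ov hPLC P hp') (by positivity)
    _ = _ := (Finset.mul_sum _ _ _).symm

theorem mem_of (w : HeightOneSpectrum (𝓞 F)) {m e : ℕ} {T : Finset (HeightOneSpectrum (𝓞 F))}
    (he : e = 1 ∨ e = m) (h : ((e * pr T : ℕ) : 𝓞 F) ∈ w.asIdeal) :
    ∃ p ∈ insert m (T.image nv), (p : 𝓞 F) ∈ w.asIdeal := by
  rw [Nat.cast_mul] at h
  rcases w.isPrime.mem_or_mem h with h | h
  · rcases he with rfl | rfl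
    · exact absurd ((Ideal.eq_top_iff_one _).2 (by simpa using h)) w.isPrime.ne_top
    · exact ⟨_, Finset.mem_insert_self _ _, h⟩
  · unfold pr at h
    rw [Nat.cast_prod] at h
    obtain ⟨v, hv, hvw⟩ := w.isPrime.prod_mem_iff.1 h
    exact ⟨nv v, Finset.mem_insert_of_mem (Finset.mem_image_of_mem _ hv), hvw⟩

variable {k P0 m : ℕ} {Q P T : Finset (HeightOneSpectrum (𝓞 F))}

theorem pri (hS : Sys k P0 Q P m) (hT : T ⊆ Q) : ∀ p ∈ insert m (T.image nv), p.Prime := by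
  intro p hp
  rcases Finset.mem_insert.1 hp with rfl | hp
  · exact hS.mpr
  · obtain ⟨v, hv, rfl⟩ := Finset.mem_image.1 hp
    exact hS.act.prime v (hT hv)

theorem card_T : (insert m (T.image nv)).card ≤ T.card + 1 :=
  (Finset.card_insert_le _ _).trans (Nat.succ_le_succ Finset.card_image_le)

theorem sum_Q (hS : Sys k P0 Q P m) :
    ∑ p ∈ insert m (Q.image nv), 1 / (p : ℝ) ≤ 2 := by
  have h1 : m ∉ Q.image nv := fun h => by
    obtain ⟨v, hv, hvm⟩ := Finset.mem_image.1 h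
    exact hS.mne v hv hvm
  rw [Finset.sum_insert h1, Finset.sum_image fun v hv w hw h => hS.act.inj v hv w hw h]
  have h2 : (1 : ℝ) ≤ m := by exact_mod_cast hS.mpr.one_le
  have h3 : 1 / (m : ℝ) ≤ 1 := by
    rw [div_le_one (by linarith)]
    exact h2
  linarith [hS.sum]

theorem sum_P (hPLC : SpecPLC) (hS : Sys k P0 Q P m) {P' : Finset (HeightOneSpectrum (𝓞 F))}
    (hP' : P' ⊆ P) : ∑ w ∈ P', 1 / (nv w : ℝ) ≤ Module.finrank ℚ F * 2 := by
  refine (sum_le hPLC P' (insert m (Q.image nv)) (pri hS (Finset.Subset.refl Q)) fun w hw => ?_).trans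
    (mul_le_mul_of_nonneg_left (sum_Q hS) (Nat.cast_nonneg _))
  exact mem_of w (Or.inr rfl) ((hS.mem w).1 (hP' hw)).1

theorem half {v : HeightOneSpectrum (𝓞 F)} (h : 17 ≤ nv v) : 1 / (nv v : ℝ) ≤ 1 / 2 := by
  have h2 : (2 : ℝ) ≤ nv v := by
    have : (17 : ℝ) ≤ nv v := by exact_mod_cast h
    linarith
  exact one_div_le_one_div_of_le (by norm_num) h2

theorem dQ_ge {v : HeightOneSpectrum (𝓞 F)} (h : 17 ≤ nv v) : 1 / 3 ≤ dQ v := by
  have h1 : (17 : ℝ) ≤ nv v := by exact_mod_cast h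
  have h2 : 1 / (nv v : ℝ) ≤ 1 / 17 := one_div_le_one_div_of_le (by norm_num) h1
  unfold dQ
  linarith

theorem dP_ge {v : HeightOneSpectrum (𝓞 F)} (h : 17 ≤ nv v) : 1 / 4 ≤ dP v := by
  have h1 := half h
  have h0 : 0 ≤ 1 / (nv v : ℝ) := by positivity
  have h2 : dP v = (1 - (1 / (nv v : ℝ)) ^ 2) / 3 := by
    unfold dP
    rw [one_div_pow]
  rw [h2]
  nlinarith

theorem consts {A : ℝ} (hA : 1 ≤ A) (n t : ℕ) :
    A * (3 ^ t * 4 ^ (n * (t + 1))) ≤ (A * (3 * 4 ^ n)) ^ (t + 1) := by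
  rw [mul_pow, mul_pow, ← pow_mul]
  have h1 : A ≤ A ^ (t + 1) := le_self_pow₀ hA (Nat.succ_ne_zero t)
  have h2 : (3 : ℝ) ^ t ≤ 3 ^ (t + 1) := pow_le_pow_right₀ (by norm_num) (Nat.le_succ t)
  have h3 : (0 : ℝ) ≤ 4 ^ (n * (t + 1)) := by positivity
  exact mul_le_mul h1 (mul_le_mul_of_nonneg_right h2 h3) (by positivity) (by positivity)

end fld

end FMQM

open FMQM in
/-- Module FMQ. -/
theorem specFMQ (hFM : SpecFM) (hPLC : SpecPLC) (hSYS : SpecSYS) : SpecFMQ := by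
  intro F _ _ k cl hk0 hk
  obtain ⟨CF, P0, hCF, hF⟩ := hFM F
  set n := Module.finrank ℚ F with hn
  set A : ℝ := max 1 CF * (Real.exp 4 * Real.exp (4 * (n * 2))) with hA
  have hA1 : 1 ≤ A := by
    have h1 : (1 : ℝ) ≤ Real.exp 4 := Real.one_le_exp (by norm_num)
    have h2 : (1 : ℝ) ≤ Real.exp (4 * (n * 2)) := Real.one_le_exp (by positivity)
    have h3 : (1 : ℝ) ≤ max 1 CF := le_max_left _ _
    rw [hA]
    exact one_le_mul_of_one_le_of_one_le h3 (one_le_mul_of_one_le_of_one_le h1 h2)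
  have hC1 : (1 : ℝ) ≤ A * (3 * 4 ^ n) := by
    have h1 : (1 : ℝ) ≤ 4 ^ n := one_le_pow₀ (by norm_num)
    exact one_le_mul_of_one_le_of_one_le hA1 (by linarith)
  refine ⟨A * (3 * 4 ^ n), P0, hC1, ?_⟩
  intro Q P Q' T m e Z hS he hT hQ' hd hZ
  obtain ⟨hCmp, -, -, hkk, hbig, -, -, hmem⟩ := hSYS F k P0 Q P m hk0 hk hS
  set D := e * pr T with hD
  have hprT : 0 < pr T := Finset.prod_pos fun v hv => (hS.act.prime v (hT hv)).pos
  have hDpos : 0 < D := by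
    rcases he with h | h
    · rw [hD, h, one_mul]; exact hprT
    · rw [hD, h]; exact mul_pos hS.mpr.pos hprT
  set P' := P.filter fun w => (D : 𝓞 F) ∉ w.asIdeal with hP'
  have hP'P : P' ⊆ P := Finset.filter_subset _ _
  have hQT : Q \ T ⊆ Q := Finset.sdiff_subset
  obtain ⟨R0, hR0⟩ := hF (Q \ T) Q' P' D Z hDpos
    (fun v hv h => hCmp.dis v (hQT hv) (hP'P h))
    (fun v hv => by
      rcases Finset.mem_union.1 hv with hv | hv
      · obtain ⟨h1, h2⟩ := Finset.mem_sdiff.1 hv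
        refine ⟨(hbig v (Finset.mem_union_left _ h1)).2, fun h => h2 ?_⟩
        rcases he with h3 | h3
        · rw [hD, h3, one_mul] at h
          exact (hmem T hT v h1).1.1 h
        · rw [hD, h3] at h
          exact (hmem T hT v h1).2.1 h
      · exact ⟨(hbig v (Finset.mem_union_right _ (hP'P hv))).2, (Finset.mem_filter.1 hv).2⟩)
    (fun v hv => Finset.mem_sdiff.2 ⟨hQ' hv, fun h => Finset.disjoint_left.1 hd hv h⟩) hZ
  refine ⟨max R0 0, fun ρ hρ => ?_⟩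
  obtain ⟨hfin, hcard⟩ := hR0 ρ fun v => (le_max_left _ _).trans (hρ v)
  have hρ0 : ∀ v, 0 ≤ ρ v := fun v => (le_max_right _ _).trans (hρ v)
  have hsub : {z : (Σ q : 𝓞 F × 𝓞 F, Sel 2 (cN q.1 q.2 D)) | z.1 ∈ Fam k cl Q P ∩ Bx F ρ ∧
        z.2 ≠ 0 ∧ Q'.filter (fun v => ¬ TrN D v z.2) ∈ Z} ⊆
      {z : (Σ q : 𝓞 F × 𝓞 F, Sel 2 (cN q.1 q.2 D)) | z.1 ∈ Bx F ρ ∧
        (∀ w ∈ P', ∀ x : 𝓞 F, x ^ 3 + z.1.1 * x + z.1.2 ∉ w.asIdeal) ∧
        (∀ v ∈ Q \ T, ∀ x : 𝓞 F, x ^ 2 + dsc z.1.1 z.1.2 ∉ v.asIdeal) ∧ z.2 ≠ 0 ∧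
        Q'.filter (fun v => ¬ TrN D v z.2) ∈ Z} := by
    rintro z ⟨⟨h1, h2⟩, h3, h4⟩
    exact ⟨h2, fun w hw => h1.2.2.1 w (hP'P hw), fun v hv => h1.2.2.2.1 v (hQT hv), h3, h4⟩
  refine ⟨hfin.subset hsub, ?_⟩
  refine ((Nat.cast_le.mpr (Set.ncard_le_ncard hsub hfin)).trans hcard).trans ?_
  have hvol : 0 ≤ vol ρ ^ 5 := pow_nonneg (Finset.prod_nonneg fun v _ => pow_nonneg (hρ0 v) _) _
  have hbQ : ∀ v ∈ Q, 17 ≤ nv v := fun v hv => (hbig v (Finset.mem_union_left _ hv)).1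
  have hbP : ∀ v ∈ P, 17 ≤ nv v := fun v hv => (hbig v (Finset.mem_union_right _ hv)).1
  have e1 : ∏ v ∈ Q \ T, (1 + 1 / (nv v : ℝ)) ^ 2 / 2 ≤
      Real.exp 4 * (3 ^ T.card * ∏ v ∈ Q, dQ v) := by
    have h := prod_le (S := Q \ T) (U := Q) hQT
      (g := fun v => (1 + 1 / (nv v : ℝ)) ^ 2 / 2) (d := dQ) (x := fun v => 1 / (nv v : ℝ))
      (B := 1) (c := 1 / 3) (by norm_num) (fun v _ => by positivity)
      (fun v hv => PR.FMQM.key (by positivity) (half (hbQ v (hQT hv))))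
      (fun v hv => dQ_ge (hbQ v hv))
      ((Finset.sum_le_sum_of_subset_of_nonneg hQT (fun _ _ _ => by positivity)).trans hS.sum)
    rw [Finset.sdiff_sdiff_eq_self hT] at h
    norm_num at h ⊢
    exact h
  have e2 : ∏ w ∈ P', (1 + 1 / (nv w : ℝ)) ^ 2 / 3 ≤
      Real.exp (4 * (n * 2)) * (4 ^ (n * (T.card + 1)) * ∏ w ∈ P, dP w) := by
    have h := prod_le (S := P') (U := P) hP'P
      (g := fun w => (1 + 1 / (nv w : ℝ)) ^ 2 / 3) (d := dP) (x := fun w => 1 / (nv w : ℝ))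
      (B := n * 2) (c := 1 / 4) (by norm_num) (fun v _ => by positivity)
      (fun w hw => by
        have h1 := key3 (x := 1 / (nv w : ℝ)) (by positivity) (half (hbP w (hP'P hw)))
        have h2 : dP w = (1 - (1 / (nv w : ℝ)) ^ 2) / 3 := by
          unfold dP
          rw [one_div_pow]
        rw [h2]
        exact h1)
      (fun v hv => dP_ge (hbP v hv)) (sum_P hPLC hS hP'P)
    have hcard : (P \ P').card ≤ n * (T.card + 1) := by
      refine (card_le hPLC (P \ P') (insert m (T.image nv)) (pri hS hT) fun w hw => ?_).trans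
        (Nat.mul_le_mul_left _ card_T)
      obtain ⟨h1, h2⟩ := Finset.mem_sdiff.1 hw
      refine mem_of w he ?_
      by_contra h3
      exact h2 (Finset.mem_filter.2 ⟨h1, h3⟩)
    have h4 : ((1 : ℝ) / 4)⁻¹ = 4 := by norm_num
    rw [h4] at h
    have h5 : (0 : ℝ) ≤ ∏ w ∈ P, dP w :=
      Finset.prod_nonneg fun w hw => le_trans (by norm_num) (dP_ge (hbP w hw))
    refine h.trans (mul_le_mul_of_nonneg_left (mul_le_mul_of_nonneg_right ?_ h5)
      (Real.exp_pos _).le)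
    exact pow_le_pow_right₀ (by norm_num) hcard
  have hq0 : (0 : ℝ) ≤ ∏ v ∈ Q, dQ v :=
    Finset.prod_nonneg fun w hw => le_trans (by norm_num) (dQ_ge (hbQ w hw))
  have hp0 : (0 : ℝ) ≤ ∏ w ∈ P, dP w :=
    Finset.prod_nonneg fun w hw => le_trans (by norm_num) (dP_ge (hbP w hw))
  have hD0 : (0 : ℝ) ≤ (D : ℝ) ^ (5 * n) * ((Z.card : ℝ) / 2 ^ Q'.card) := by positivity
  have hCF1 : CF ≤ max 1 CF := le_max_right _ _
  calc CF * (D : ℝ) ^ (5 * n) * ((Z.card : ℝ) / 2 ^ Q'.card) *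
          (∏ v ∈ Q \ T, (1 + 1 / (nv v : ℝ)) ^ 2 / 2) *
          (∏ v ∈ P', (1 + 1 / (nv v : ℝ)) ^ 2 / 3) * vol ρ ^ 5
      = (CF * ((∏ v ∈ Q \ T, (1 + 1 / (nv v : ℝ)) ^ 2 / 2) *
          (∏ v ∈ P', (1 + 1 / (nv v : ℝ)) ^ 2 / 3))) *
          ((D : ℝ) ^ (5 * n) * ((Z.card : ℝ) / 2 ^ Q'.card) * vol ρ ^ 5) := by ring
    _ ≤ (max 1 CF * ((Real.exp 4 * (3 ^ T.card * ∏ v ∈ Q, dQ v)) *
          (Real.exp (4 * (n * 2)) * (4 ^ (n * (T.card + 1)) * ∏ w ∈ P, dP w)))) *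
          ((D : ℝ) ^ (5 * n) * ((Z.card : ℝ) / 2 ^ Q'.card) * vol ρ ^ 5) := by
        refine mul_le_mul_of_nonneg_right ?_ (mul_nonneg hD0 hvol)
        refine mul_le_mul hCF1 (mul_le_mul e1 e2 ?_ ?_) ?_ (by positivity)
        · exact Finset.prod_nonneg fun w _ => by positivity
        · exact mul_nonneg (Real.exp_pos _).le (mul_nonneg (by positivity) hq0)
        · exact mul_nonneg (Finset.prod_nonneg fun w _ => by positivity)
            (Finset.prod_nonneg fun w _ => by positivity)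
    _ = (A * (3 ^ T.card * 4 ^ (n * (T.card + 1)))) *
          ((D : ℝ) ^ (5 * n) * ((Z.card : ℝ) / 2 ^ Q'.card) * vol ρ ^ 5 *
            ((∏ v ∈ Q, dQ v) * ∏ w ∈ P, dP w)) := by
        rw [hA]; ring
    _ ≤ (A * (3 * 4 ^ n)) ^ (T.card + 1) *
          ((D : ℝ) ^ (5 * n) * ((Z.card : ℝ) / 2 ^ Q'.card) * vol ρ ^ 5 *
            ((∏ v ∈ Q, dQ v) * ∏ w ∈ P, dP w)) :=
        mul_le_mul_of_nonneg_right (consts hA1 n T.card)
          (mul_nonneg (mul_nonneg hD0 hvol) (mul_nonneg hq0 hp0))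
    _ = _ := by ring

end Pool.Agent.Lib.MP_8cb858_nt.PF
end

section
/-!
# Module SYS: consequences of `Sys`
-/
set_option autoImplicit false

namespace Pool.Agent.Lib.MP_8cb858_nt.PF

open NumberField IsDedekindDomain Pool.Agent.Lib.MP_8cb858_nt.SEL
open scoped Classical

namespace SYSM

variable {F : Type} [Field F] [NumberField F]

lemma coprime_of_mod {k p : ℕ} (h : p % (8 * k) = 1) : Nat.Coprime k p := by
  have h1 : p = 8 * k * (p / (8 * k)) + 1 := by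
    have := Nat.div_add_mod p (8 * k)
    omega
  rw [Nat.Coprime, h1, show 8 * k * (p / (8 * k)) + 1 = 1 + k * (8 * (p / (8 * k))) by ring]
  simp

omit [NumberField F] in
lemma one_notMem (w : HeightOneSpectrum (𝓞 F)) : (1 : 𝓞 F) ∉ w.asIdeal := by
  intro h
  exact w.isPrime.ne_top ((Ideal.eq_top_iff_one _).2 h)

omit [NumberField F] in
lemma not_both {k p : ℕ} (h : p % (8 * k) = 1) (w : HeightOneSpectrum (𝓞 F))
    (hk : (k : 𝓞 F) ∈ w.asIdeal) (hp : (p : 𝓞 F) ∈ w.asIdeal) : False := by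
  have hc : Nat.gcd k p = 1 := coprime_of_mod h
  have hb := Nat.gcd_eq_gcd_ab k p
  rw [hc] at hb
  have h1 : (1 : 𝓞 F) = (k : 𝓞 F) * ((Nat.gcdA k p : ℤ) : 𝓞 F)
      + (p : 𝓞 F) * ((Nat.gcdB k p : ℤ) : 𝓞 F) := by
    have := congrArg (fun z : ℤ => (z : 𝓞 F)) hb
    push_cast at this
    exact this
  apply one_notMem w
  rw [h1]
  exact w.asIdeal.add_mem (w.asIdeal.mul_mem_right _ hk) (w.asIdeal.mul_mem_right _ hp)

lemma prime_big {k p : ℕ} (hk0 : 0 < k) (hk : 6 ∣ k) (hp : p.Prime) (h : p % (8 * k) = 1) :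
    17 ≤ p := by
  obtain ⟨c, rfl⟩ := hk
  have hc : 1 ≤ c := by omega
  have h1 := Nat.div_add_mod p (8 * (6 * c))
  rw [h] at h1
  have h2 := hp.two_le
  have h3 : p / (8 * (6 * c)) ≠ 0 := by
    intro h0
    rw [h0] at h1
    omega
  have h4 : 1 ≤ p / (8 * (6 * c)) := Nat.one_le_iff_ne_zero.2 h3
  have h5 : 48 ≤ 8 * (6 * c) := by omega
  nlinarith [Nat.mul_le_mul h5 h4]

/-- A natural number in `w` has a prime factor in `w`, for products. -/
lemma ovrM {m : ℕ} (Q : Finset (HeightOneSpectrum (𝓞 F))) (w : HeightOneSpectrum (𝓞 F))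
    (h : ((m * pr Q : ℕ) : 𝓞 F) ∈ w.asIdeal) :
    (m : 𝓞 F) ∈ w.asIdeal ∨ ∃ v ∈ Q, (nv v : 𝓞 F) ∈ w.asIdeal := by
  have h1 : (m : 𝓞 F) * ∏ v ∈ Q, (nv v : 𝓞 F) ∈ w.asIdeal := by
    unfold pr at h
    push_cast at h
    exact h
  rcases w.isPrime.mem_or_mem h1 with h2 | h2
  · exact Or.inl h2
  · exact Or.inr ((Ideal.IsPrime.prod_mem_iff).1 h2)

lemma dvd_pr {Q : Finset (HeightOneSpectrum (𝓞 F))} {v : HeightOneSpectrum (𝓞 F)} (hv : v ∈ Q) :
    nv v ∣ pr Q := Finset.dvd_prod_of_mem _ hv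

omit [NumberField F] in
lemma nat_mem_of_dvd {a b : ℕ} (w : HeightOneSpectrum (𝓞 F)) (h : a ∣ b)
    (ha : (a : 𝓞 F) ∈ w.asIdeal) : (b : 𝓞 F) ∈ w.asIdeal := by
  obtain ⟨c, rfl⟩ := h
  push_cast
  exact w.asIdeal.mul_mem_right _ ha

lemma dvd_pr_iff {k : ℕ} {Q T : Finset (HeightOneSpectrum (𝓞 F))} (hQ : Act k Q) (hT : T ⊆ Q)
    {v : HeightOneSpectrum (𝓞 F)} (hv : v ∈ Q) : nv v ∣ pr T ↔ v ∈ T := by
  constructor
  · intro h
    obtain ⟨t, ht, hd⟩ := (Prime.dvd_finsetProd_iff (hQ.prime v hv).prime _).1 h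
    have he : nv v = nv t := (Nat.prime_dvd_prime_iff_eq (hQ.prime v hv) (hQ.prime t (hT ht))).1 hd
    rw [hQ.inj v hv t (hT ht) he]
    exact ht
  · exact fun h => dvd_pr h

lemma sqf_pr {k m : ℕ} {Q : Finset (HeightOneSpectrum (𝓞 F))} (hQ : Act k Q) (hm : m.Prime)
    (hne : ∀ v ∈ Q, nv v ≠ m) : Squarefree (m * pr Q) := by
  have h1 : Squarefree (pr Q) := by
    unfold pr
    refine Finset.squarefree_prod_of_pairwise_isCoprime (fun v hv w hw hne ↦ ?_)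
      fun v hv ↦ (hQ.prime v hv).squarefree
    simp only [Function.onFun, ← Nat.coprime_iff_isRelPrime]
    exact (Nat.coprime_primes (hQ.prime v hv) (hQ.prime w hw)).2 fun h => hne (hQ.inj v hv w hw h)
  rw [Nat.squarefree_mul_iff]
  refine ⟨?_, hm.squarefree, h1⟩
  unfold pr
  exact Nat.Coprime.prod_right fun v hv => (Nat.coprime_primes hm (hQ.prime v hv)).2 (hne v hv).symm

lemma mod_pr {k : ℕ} (hk : 0 < k) (Q : Finset (HeightOneSpectrum (𝓞 F)))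
    (h : ∀ v ∈ Q, nv v % (8 * k) = 1) : pr Q % (8 * k) = 1 := by
  have h1 : 1 % (8 * k) = 1 := Nat.mod_eq_of_lt (by omega)
  unfold pr
  have : (∏ v ∈ Q, nv v) ≡ ∏ _v ∈ Q, 1 [MOD (8 * k)] := by
    apply Nat.ModEq.prod
    intro v hv
    unfold Nat.ModEq
    rw [h v hv, h1]
  unfold Nat.ModEq at this
  rw [this, Finset.prod_const_one, h1]

end SYSM

open SYSM

theorem specSYS (hPLC : SpecPLC) : SpecSYS := by
  intro F _ _ k P0 Q P m hk0 hk6 hS
  have h1 : 1 % (8 * k) = 1 := Nat.mod_eq_of_lt (by omega)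
  -- places over `m` are not in `Q`
  have hmQ : ∀ w : HeightOneSpectrum (𝓞 F), (m : 𝓞 F) ∈ w.asIdeal → w ∉ Q := by
    intro w hw hQ
    have h2 := (hPLC.dvd F w m (hS.act.prime w hQ)).1 hw
    exact hS.mne w hQ ((Nat.prime_dvd_prime_iff_eq (hS.act.prime w hQ) hS.mpr).1 h2)
  have hmP : ∀ w : HeightOneSpectrum (𝓞 F), (m : 𝓞 F) ∈ w.asIdeal → w ∈ P := by
    intro w hw
    exact (hS.mem w).2 ⟨nat_mem_of_dvd w (Dvd.intro _ rfl) hw, hmQ w hw⟩
  -- the prime under a place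
  have hov : ∀ w ∈ Q ∪ P, ∃ p : ℕ, p.Prime ∧ p % (8 * k) = 1 ∧ P0 < p ∧ (p : 𝓞 F) ∈ w.asIdeal := by
    intro w hw
    rcases Finset.mem_union.1 hw with hw | hw
    · exact ⟨nv w, hS.act.prime w hw, hS.act.modk w hw, hS.big w hw, hPLC.mem F w⟩
    · rcases ovrM Q w ((hS.mem w).1 hw).1 with h2 | ⟨v, hv, h2⟩
      · exact ⟨m, hS.mpr, hS.mmod, hS.mbig, h2⟩
      · exact ⟨nv v, hS.act.prime v hv, hS.act.modk v hv, hS.big v hv, h2⟩
  have hk : ∀ w ∈ Q ∪ P, (k : 𝓞 F) ∉ w.asIdeal := by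
    intro w hw hkw
    obtain ⟨p, -, hp, -, hpw⟩ := hov w hw
    exact not_both hp w hkw hpw
  refine ⟨⟨?_, ?_, ?_, ?_⟩, ⟨hS.mpr.pos, hS.mmod, hmP⟩, ⟨one_pos, h1, ?_⟩, hk, ?_, ?_, ?_, ?_⟩
  · obtain ⟨w, hw⟩ := hPLC.ex F m hS.mpr
    exact ⟨w, hmP w hw⟩
  · exact fun w hw => hk w (Finset.mem_union_right _ hw)
  · exact fun v hv hP => ((hS.mem v).1 hP).2 hv
  · intro v hv w hw
    by_cases hQ : w ∈ Q
    · left
      have h2 := (hPLC.dvd F w (nv v) (hS.act.prime w hQ)).1 hw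
      exact hS.act.inj w hQ v hv
        ((Nat.prime_dvd_prime_iff_eq (hS.act.prime w hQ) (hS.act.prime v hv)).1 h2)
    · right
      exact (hS.mem w).2 ⟨nat_mem_of_dvd w ((dvd_pr hv).mul_left m) hw, hQ⟩
  · intro w hw
    rw [Nat.cast_one] at hw
    exact absurd hw (one_notMem w)
  · intro w hw
    obtain ⟨p, hpp, hp, hp0, hpw⟩ := hov w hw
    have h2 := hPLC.low F w p hpp hpw
    have h3 := prime_big hk0 hk6 hpp hp
    exact ⟨h3.trans h2, hp0.trans_le h2⟩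
  · exact sqf_pr hS.act hS.mpr hS.mne
  · rw [Nat.mul_mod, hS.mmod, mod_pr hk0 Q hS.act.modk, one_mul, h1]
  · intro T hT v hv
    have h2 : nv v ∣ m * pr T ↔ v ∈ T := by
      rw [(hS.act.prime v hv).dvd_mul, dvd_pr_iff hS.act hT hv]
      constructor
      · rintro (h3 | h3)
        · exact absurd ((Nat.prime_dvd_prime_iff_eq (hS.act.prime v hv) hS.mpr).1 h3) (hS.mne v hv)
        · exact h3
      · exact Or.inr
    exact ⟨(hPLC.dvd F v _ (hS.act.prime v hv)).trans (dvd_pr_iff hS.act hT hv),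
      (hPLC.dvd F v _ (hS.act.prime v hv)).trans h2⟩

end Pool.Agent.Lib.MP_8cb858_nt.PF
end

section
/-!
# Module IJD: the twists are different
-/
set_option autoImplicit false

namespace Pool.Agent.Lib.MP_8cb858_nt.PF

open NumberField IsDedekindDomain Pool.Agent.Lib.MP_8cb858_nt.SEL
open scoped Classical

namespace IJDM

variable {F : Type} [Field F] [NumberField F]

lemma pr_dvd {S Q : Finset (HeightOneSpectrum (𝓞 F))} (h : S ⊆ Q) : pr S ∣ pr Q :=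
  Finset.prod_dvd_prod_of_subset _ _ _ h

lemma not_dvd {k P0 m : ℕ} {Q P S : Finset (HeightOneSpectrum (𝓞 F))} (hS : Sys k P0 Q P m)
    (h : S ⊆ Q) : ¬ m ∣ pr S := by
  intro hd
  obtain ⟨t, ht, hd⟩ := (Prime.dvd_finsetProd_iff hS.mpr.prime _).1 hd
  exact hS.mne t (h ht)
    ((Nat.prime_dvd_prime_iff_eq hS.mpr (hS.act.prime t (h ht))).1 hd).symm

lemma pr_inj {k : ℕ} {Q S S' : Finset (HeightOneSpectrum (𝓞 F))} (hQ : Act k Q)
    (h : S ⊆ Q) (h' : S' ⊆ Q) (he : pr S = pr S') : S = S' := by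
  ext v
  constructor
  · intro hv
    have h1 : nv v ∣ pr S' := he ▸ SYSM.dvd_pr hv
    exact (SYSM.dvd_pr_iff hQ h' (h hv)).1 h1
  · intro hv
    have h1 : nv v ∣ pr S := he ▸ SYSM.dvd_pr hv
    exact (SYSM.dvd_pr_iff hQ h (h' hv)).1 h1

lemma twt (m : ℕ) (v0 : HeightOneSpectrum (𝓞 F)) (T : Finset (HeightOneSpectrum (𝓞 F))) :
    tw m v0 true T = m * pr T := by simp [tw]

lemma twf (m : ℕ) (v0 : HeightOneSpectrum (𝓞 F)) (T : Finset (HeightOneSpectrum (𝓞 F))) :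
    tw m v0 false T = pr (insert v0 T) := by simp [tw]

lemma twf' (m : ℕ) {v0 : HeightOneSpectrum (𝓞 F)} {T : Finset (HeightOneSpectrum (𝓞 F))}
    (h : v0 ∉ T) : tw m v0 false T = nv v0 * pr T := by
  rw [twf]
  unfold pr
  rw [Finset.prod_insert h]

end IJDM

open IJDM

theorem specIJD (hTSF : SpecTSF) : SpecIJD := by
  intro F _ _ k P0 δ n m v0 L P hk0 hk6 hδ hL
  have hS := hL.sys
  set Q := insert v0 (Un L n) with hQ
  have hsub : ∀ T ∈ Ts L n, T ⊆ Un L n := fun T hT => (hTSF.sub hL.lay n le_rfl T hT).1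
  have hv0 : ∀ T ∈ Ts L n, v0 ∉ T := fun T hT h => hL.v0n (hsub T hT h)
  have hTQ : ∀ T ∈ Ts L n, T ⊆ Q := fun T hT => (hsub T hT).trans (Finset.subset_insert _ _)
  have hTQ' : ∀ T ∈ Ts L n, insert v0 T ⊆ Q := fun T hT => Finset.insert_subset_insert _ (hsub T hT)
  have h1 : 1 % (8 * k) = 1 := Nat.mod_eq_of_lt (by omega)
  have hmodS : ∀ S ⊆ Q, pr S % (8 * k) = 1 := fun S hSQ =>
    SYSM.mod_pr hk0 S fun v hv => hS.act.modk v (hSQ hv)
  have hinj : Set.InjOn (fun x : Finset (HeightOneSpectrum (𝓞 F)) × Bool => tw m v0 x.2 x.1)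
      ((Ts L n ×ˢ (Finset.univ : Finset Bool) : Finset _) : Set _) := by
    rintro ⟨T, c⟩ hx ⟨T', c'⟩ hx' he
    have hT : T ∈ Ts L n := (Finset.mem_product.1 (Finset.mem_coe.1 hx)).1
    have hT' : T' ∈ Ts L n := (Finset.mem_product.1 (Finset.mem_coe.1 hx')).1
    cases c <;> cases c'
    · simp only [twf] at he
      have h2 := pr_inj hS.act (hTQ' T hT) (hTQ' T' hT') he
      have h3 : T = T' := by
        have := congrArg (fun S => S.erase v0) h2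
        simpa [Finset.erase_insert (hv0 T hT), Finset.erase_insert (hv0 T' hT')] using this
      rw [h3]
    · simp only [twf, twt] at he
      exact absurd (he ▸ Dvd.intro _ rfl) (not_dvd hS (hTQ' T hT))
    · simp only [twf, twt] at he
      exact absurd (he ▸ Dvd.intro _ rfl) (not_dvd hS (hTQ' T' hT'))
    · simp only [twt] at he
      have h2 := Nat.eq_of_mul_eq_mul_left hS.mpr.pos he
      rw [pr_inj hS.act (hTQ T hT) (hTQ T' hT') h2]
  refine ⟨(Ts L n ×ˢ (Finset.univ : Finset Bool)).image fun x => tw m v0 x.2 x.1, ?_, ?_, ?_, ?_⟩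
  · intro D
    simp only [Finset.mem_image, Finset.mem_product, Finset.mem_univ, and_true, Prod.exists]
    constructor
    · rintro ⟨T, c, hT, rfl⟩
      exact ⟨T, hT, c, rfl⟩
    · rintro ⟨T, hT, c, rfl⟩
      exact ⟨T, c, hT, rfl⟩
  · intro D hD
    simp only [Finset.mem_image, Finset.mem_product, Finset.mem_univ, and_true, Prod.exists] at hD
    obtain ⟨T, c, hT, rfl⟩ := hD
    cases c
    · rw [twf]
      exact ⟨(pr_dvd (hTQ' T hT)).mul_left _, hmodS _ (hTQ' T hT)⟩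
    · rw [twt]
      refine ⟨Nat.mul_dvd_mul_left _ (pr_dvd (hTQ T hT)), ?_⟩
      rw [Nat.mul_mod, hS.mmod, hmodS _ (hTQ T hT), one_mul, h1]
  · intro g
    rw [Finset.sum_image hinj, Finset.sum_product]
  · intro T hT T' hT' c c'
    have hr := hTSF.rat hδ hL.lay T hT T' hT'
    have hr' : (pr T : ℝ) ≤ (1 + δ) ^ n * (pr T' : ℝ) := hr
    have e : ∀ (c : Bool) (T : Finset (HeightOneSpectrum (𝓞 F))), T ∈ Ts L n →
        (tw m v0 c T : ℝ) = (if c then (m : ℝ) else (nv v0 : ℝ)) * (pr T : ℝ) := by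
      intro c T hT
      cases c
      · rw [twf' m (hv0 T hT)]
        simp
      · rw [twt]
        simp
    rw [e c T hT, e c' T' hT']
    have hm0 : (0 : ℝ) ≤ (m : ℝ) := Nat.cast_nonneg _
    have hn0 : (0 : ℝ) ≤ (nv v0 : ℝ) := Nat.cast_nonneg _
    have hA : (if c then (m : ℝ) else (nv v0 : ℝ)) ≤
        (1 + δ) * (if c' then (m : ℝ) else (nv v0 : ℝ)) := by
      have hh := hL.sh0
      cases c <;> cases c' <;> simp only [if_true, if_false, Bool.false_eq_true]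
      · nlinarith
      · exact hh.2
      · exact hh.1
      · nlinarith
    have hB : (0 : ℝ) ≤ (if c' then (m : ℝ) else (nv v0 : ℝ)) := by
      cases c' <;> simp [hm0, hn0]
    calc (if c then (m : ℝ) else (nv v0 : ℝ)) * (pr T : ℝ)
        ≤ ((1 + δ) * (if c' then (m : ℝ) else (nv v0 : ℝ))) * ((1 + δ) ^ n * (pr T' : ℝ)) := by
          apply mul_le_mul hA hr' (Nat.cast_nonneg _)
          exact mul_nonneg (by linarith) hB
      _ = (1 + δ) ^ (n + 1) * ((if c' then (m : ℝ) else (nv v0 : ℝ)) * (pr T' : ℝ)) := by ring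

end Pool.Agent.Lib.MP_8cb858_nt.PF
end

section
/-!
# TSF: facts on the choices of one element per layer
-/
set_option autoImplicit false

namespace Pool.Agent.Lib.MP_8cb858_nt.PF

open scoped Classical

namespace TSFM

variable {ι : Type} {w : ι → ℕ} {δ : ℝ} {n : ℕ} {L : ℕ → Finset ι}

theorem mem_succ {j : ℕ} {T : Finset ι} :
    T ∈ Ts L (j + 1) ↔ ∃ T0 ∈ Ts L j, ∃ p ∈ L j, insert p T0 = T := by
  simp only [Ts, Finset.mem_image, Finset.mem_product, Prod.exists]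
  constructor
  · rintro ⟨a, b, ⟨h1, h2⟩, h3⟩
    exact ⟨a, h1, b, h2, h3⟩
  · rintro ⟨a, h1, b, h2, h3⟩
    exact ⟨a, b, ⟨h1, h2⟩, h3⟩

theorem mem_Un {j : ℕ} {p : ι} : p ∈ Un L j ↔ ∃ i < j, p ∈ L i := by
  simp [Un]

theorem Un_mono {i j : ℕ} (h : i ≤ j) : Un L i ⊆ Un L j := by
  intro p hp
  obtain ⟨k, hk, hp⟩ := mem_Un.1 hp
  exact mem_Un.2 ⟨k, lt_of_lt_of_le hk h, hp⟩

theorem sub_Un : ∀ (j : ℕ), ∀ T ∈ Ts L j, T ⊆ Un L j := by
  intro j
  induction j with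
  | zero =>
    intro T hT
    have : T = ∅ := by simpa [Ts] using hT
    rw [this]
    exact Finset.empty_subset _
  | succ j ih =>
    intro T hT
    obtain ⟨T0, hT0, p, hp, rfl⟩ := mem_succ.1 hT
    intro q hq
    rcases Finset.mem_insert.1 hq with rfl | hq
    · exact mem_Un.2 ⟨j, Nat.lt_succ_self j, hp⟩
    · exact Un_mono (Nat.le_succ j) (ih T0 hT0 hq)

theorem disj_Un (h : LayG w δ n L) {i j : ℕ} (hji : j ≤ i) (hin : i < n) :
    Disjoint (L i) (Un L j) := by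
  rw [Finset.disjoint_left]
  intro p hp hp2
  obtain ⟨k, hk, hpk⟩ := mem_Un.1 hp2
  exact Finset.disjoint_left.1 (h.dis k i (lt_of_lt_of_le hk hji) hin) hpk hp

theorem notMem (h : LayG w δ n L) {j : ℕ} (hj : j < n) {T : Finset ι} (hT : T ∈ Ts L j) {p : ι}
    (hp : p ∈ L j) : p ∉ T := fun hpT =>
  Finset.disjoint_left.1 (disj_Un h le_rfl hj) hp (sub_Un j T hT hpT)

theorem inj (h : LayG w δ n L) {j : ℕ} (hj : j < n) :
    Set.InjOn (fun x : Finset ι × ι => insert x.2 x.1) ((Ts L j ×ˢ L j : Finset _) : Set _) := by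
  rintro ⟨T, p⟩ h1 ⟨T', p'⟩ h2 he
  rw [Finset.mem_coe, Finset.mem_product] at h1 h2
  dsimp only at h1 h2 he
  have a1 := notMem h hj h1.1 h1.2
  have a2 := notMem h hj h2.1 h2.2
  have b1 := notMem h hj h2.1 h1.2
  have b2 := notMem h hj h1.1 h2.2
  have hp : p = p' := by
    have : p ∈ insert p' T' := he ▸ Finset.mem_insert_self p T
    rcases Finset.mem_insert.1 this with h3 | h3
    · exact h3
    · exact absurd h3 b1
  subst hp
  have : T = T' := by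
    rw [← Finset.erase_insert a1, he, Finset.erase_insert a2]
  rw [this]

theorem sub (h : LayG w δ n L) : ∀ j ≤ n, ∀ T ∈ Ts L j, T ⊆ Un L j ∧ T.card = j ∧ T ⊆ Un L n ∧
    ∀ i, j ≤ i → i < n → Disjoint (L i) T := by
  intro j hj T hT
  have h1 := sub_Un j T hT
  refine ⟨h1, ?_, h1.trans (Un_mono hj), fun i hji hin =>
    Finset.disjoint_of_subset_right h1 (disj_Un h hji hin)⟩
  clear h1
  induction j generalizing T with
  | zero =>
    have : T = ∅ := by simpa [Ts] using hT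
    rw [this]
    rfl
  | succ j ih =>
    obtain ⟨T0, hT0, p, hp, rfl⟩ := mem_succ.1 hT
    rw [Finset.card_insert_of_notMem (notMem h hj hT0 hp), ih (Nat.le_of_succ_le hj) T0 hT0]

theorem rat (hδ : 0 < δ) (h : LayG w δ n L) : ∀ j ≤ n, ∀ T ∈ Ts L j, ∀ T' ∈ Ts L j,
    ((∏ v ∈ T, w v : ℕ) : ℝ) ≤ (1 + δ) ^ j * ((∏ v ∈ T', w v : ℕ) : ℝ) := by
  intro j
  induction j with
  | zero =>
    intro _ T hT T' hT'
    have h1 : T = ∅ := by simpa [Ts] using hT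
    have h2 : T' = ∅ := by simpa [Ts] using hT'
    rw [h1, h2]
    simp
  | succ j ih =>
    intro hj T hT T' hT'
    obtain ⟨T0, hT0, p, hp, rfl⟩ := mem_succ.1 hT
    obtain ⟨T1, hT1, q, hq, rfl⟩ := mem_succ.1 hT'
    have h2 := ih (Nat.le_of_succ_le hj) T0 hT0 T1 hT1
    obtain ⟨y, hy, hyp⟩ := h.sht j hj
    rw [Finset.prod_insert (notMem h hj hT0 hp), Finset.prod_insert (notMem h hj hT1 hq),
      Nat.cast_mul, Nat.cast_mul]
    have h4 : (w p : ℝ) ≤ (1 + δ) * w q :=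
      (hyp p hp).2.trans (mul_le_mul_of_nonneg_left (hyp q hq).1 (by linarith))
    calc (w p : ℝ) * ((∏ v ∈ T0, w v : ℕ) : ℝ)
        ≤ ((1 + δ) * w q) * ((1 + δ) ^ j * ((∏ v ∈ T1, w v : ℕ) : ℝ)) :=
          mul_le_mul h4 h2 (Nat.cast_nonneg _) (by positivity)
      _ = _ := by ring

end TSFM

/-- **TSF.** -/
theorem specTSF : SpecTSF where
  sum := by
    intro ι w δ n L h j hj g
    show ∑ T ∈ (Ts L j ×ˢ L j).image (fun x => insert x.2 x.1), g T = _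
    rw [Finset.sum_image (fun x hx y hy => TSFM.inj h hj hx hy), Finset.sum_product]
  card := by
    intro ι w δ n L h j hj
    show ((Ts L j ×ˢ L j).image (fun x => insert x.2 x.1)).card = _
    rw [Finset.card_image_of_injOn (TSFM.inj h hj), Finset.card_product]
  pos := by
    intro ι w δ n L h j
    induction j with
    | zero => intro _; exact ⟨∅, by simp [Ts]⟩
    | succ j ih =>
      intro hj
      obtain ⟨T, hT⟩ := ih (Nat.le_of_succ_le hj)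
      obtain ⟨p, hp⟩ := h.ne j hj
      exact ⟨insert p T, TSFM.mem_succ.2 ⟨T, hT, p, hp, rfl⟩⟩
  sub := by
    intro ι w δ n L h
    exact TSFM.sub h
  rat := by
    intro ι w δ n L hδ h T hT T' hT'
    exact TSFM.rat hδ h n le_rfl T hT T' hT'

end Pool.Agent.Lib.MP_8cb858_nt.PF
end

section
/-!
# LYR (helper60): existence of layers
-/
set_option autoImplicit false

namespace Pool.Agent.Lib.MP_8cb858_nt.PF

open NumberField IsDedekindDomain Pool.Agent.Lib.MP_8cb858_nt.SEL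
open scoped Classical

namespace LYRM

section gen

variable {ι : Type}

theorem Un_congr {L L' : ℕ → Finset ι} {n : ℕ} (h : ∀ i < n, L i = L' i) : Un L n = Un L' n := by
  unfold Un
  exact Finset.biUnion_congr rfl fun i hi => h i (Finset.mem_range.1 hi)

theorem Ts_congr {L L' : ℕ → Finset ι} {n : ℕ} (h : ∀ i < n, L i = L' i) : Ts L n = Ts L' n := by
  induction n with
  | zero => rfl
  | succ n ih =>
    show (Ts L n ×ˢ L n).image _ = (Ts L' n ×ˢ L' n).image _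
    rw [ih fun i hi => h i (Nat.lt_succ_of_lt hi), h n (Nat.lt_succ_self n)]

theorem Un_succ (L : ℕ → Finset ι) (n : ℕ) : Un L (n + 1) = Un L n ∪ L n := by
  ext p
  rw [TSFM.mem_Un, Finset.mem_union, TSFM.mem_Un]
  constructor
  · rintro ⟨i, hi, hp⟩
    rcases Nat.lt_succ_iff_lt_or_eq.1 hi with h | rfl
    · exact Or.inl ⟨i, h, hp⟩
    · exact Or.inr hp
  · rintro (⟨i, hi, hp⟩ | hp)
    · exact ⟨i, Nat.lt_succ_of_lt hi, hp⟩
    · exact ⟨n, Nat.lt_succ_self n, hp⟩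

end gen

variable {F : Type} [Field F] [NumberField F]

/-- The inductive form. -/
structure Lay2 (k P0 : ℕ) (δ A η : ℝ) (d m : ℕ) (v0 : HeightOneSpectrum (𝓞 F)) (n : ℕ)
    (L : ℕ → Finset (HeightOneSpectrum (𝓞 F))) : Prop where
  pri : ∀ v ∈ Un L n, (nv v).Prime ∧ nv v % (8 * k) = 1 ∧ (nv v : 𝓞 F) ∉ v.asIdeal ^ 2 ∧
    P0 < nv v ∧ nv v ≠ m ∧ nv v ≠ nv v0
  inj : ∀ v ∈ Un L n, ∀ w ∈ Un L n, nv v = nv w → v = w
  ne : ∀ j < n, (L j).Nonempty
  dis : ∀ i j, i < j → j < n → Disjoint (L i) (L j)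
  sht : ∀ j < n, ∃ y : ℝ, 0 < y ∧ ∀ v ∈ L j, y ≤ nv v ∧ (nv v : ℝ) ≤ (1 + δ) * y
  sum : ∑ v ∈ Un L n, 1 / (nv v : ℝ) ≤ 1 / 2 * (1 - (1 / 2) ^ n)
  big : ∀ j < n, ∀ T ∈ Ts L j, ∀ c : Bool, A * (tw m v0 c T : ℝ) ^ d ≤ η * (L j).card

theorem step (hPRM : SpecPRM) (k P0 : ℕ) (hk : 0 < k) {δ A η : ℝ} (hδ : 0 < δ) (hη : 0 < η)
    (d m : ℕ) (v0 : HeightOneSpectrum (𝓞 F)) (n : ℕ)
    (L : ℕ → Finset (HeightOneSpectrum (𝓞 F))) (h : Lay2 k P0 δ A η d m v0 n L) :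
    ∃ L', Lay2 k P0 δ A η d m v0 (n + 1) L' := by
  have : Nonempty (HeightOneSpectrum (𝓞 F)) := ⟨v0⟩
  obtain ⟨K, hK⟩ := exists_nat_ge (∑ T ∈ Ts L n, ∑ c : Bool, |A * (tw m v0 c T : ℝ) ^ d| / η)
  set N := K + 1 with hN
  set B := P0 + 1 + m + nv v0 + (∑ v ∈ Un L n, nv v) + 2 ^ (n + 2) * N with hB
  obtain ⟨S, y, hS, hBy, hSp⟩ := hPRM F k δ N B hk hδ
  choose! f hf using fun (p : ℕ) (hp : p ∈ S) => (hSp p hp).2.2.2.2
  have hBpos : (0 : ℝ) < B := by rw [hB]; positivity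
  have hy : 0 < y := hBpos.trans_le hBy
  set Q : Finset (HeightOneSpectrum (𝓞 F)) := S.image f with hQ
  have hQS : ∀ v ∈ Q, nv v ∈ S ∧ f (nv v) = v := by
    intro v hv
    obtain ⟨p, hp, rfl⟩ := Finset.mem_image.1 hv
    rw [(hf p hp).1]
    exact ⟨hp, rfl⟩
  have hcardQ : Q.card = N := by
    rw [hQ, Finset.card_image_of_injOn, hS]
    intro p hp q hq hpq
    rw [← (hf p hp).1, ← (hf q hq).1, hpq]
  have hge : ∀ v ∈ Q, B ≤ nv v := fun v hv => by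
    exact_mod_cast hBy.trans (hSp _ (hQS v hv).1).2.2.1
  have hQinj : ∀ v ∈ Q, ∀ w ∈ Q, nv v = nv w → v = w := fun v hv w hw hvw => by
    rw [← (hQS v hv).2, ← (hQS w hw).2, hvw]
  set L' : ℕ → Finset (HeightOneSpectrum (𝓞 F)) := fun i => if i = n then Q else L i with hL'
  have hL'n : L' n = Q := by simp [hL']
  have hL'i : ∀ i < n, L' i = L i := fun i hi => by simp [hL', hi.ne]
  have hUn : Un L' n = Un L n := Un_congr hL'i
  have hUn' : Un L' (n + 1) = Un L n ∪ Q := by rw [Un_succ, hUn, hL'n]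
  have hlt : ∀ v ∈ Un L n, ∀ w ∈ Q, nv v < nv w := by
    intro v hv w hw
    have h1 : nv v ≤ ∑ v ∈ Un L n, nv v :=
      Finset.single_le_sum (f := fun v : HeightOneSpectrum (𝓞 F) => nv v)
        (fun _ _ => Nat.zero_le _) hv
    have h2 := hge w hw
    omega
  have hdis : Disjoint (Un L n) Q := by
    rw [Finset.disjoint_left]
    intro v hv hvQ
    exact lt_irrefl _ (hlt v hv v hvQ)
  refine ⟨L', ?_, ?_, ?_, ?_, ?_, ?_, ?_⟩
  · intro v hv
    rw [hUn', Finset.mem_union] at hv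
    rcases hv with hv | hv
    · exact h.pri v hv
    · have h1 := hSp _ (hQS v hv).1
      have h2 := hge v hv
      have h3 := (hf _ (hQS v hv).1).2
      rw [(hQS v hv).2] at h3
      exact ⟨h1.1, h1.2.1, h3, by omega, by omega, by omega⟩
  · intro v hv w hw hvw
    rw [hUn', Finset.mem_union] at hv hw
    rcases hv with hv | hv <;> rcases hw with hw | hw
    · exact h.inj v hv w hw hvw
    · exact absurd hvw (hlt v hv w hw).ne
    · exact absurd hvw (hlt w hw v hv).ne'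
    · exact hQinj v hv w hw hvw
  · intro j hj
    rcases Nat.lt_succ_iff_lt_or_eq.1 hj with hj | rfl
    · rw [hL'i j hj]
      exact h.ne j hj
    · rw [hL'n, ← Finset.card_pos, hcardQ]
      omega
  · intro i j hij hj
    rcases Nat.lt_succ_iff_lt_or_eq.1 hj with hj | rfl
    · rw [hL'i j hj, hL'i i (hij.trans hj)]
      exact h.dis i j hij hj
    · rw [hL'n, hL'i i hij]
      refine Finset.disjoint_of_subset_left ?_ hdis
      intro p hp
      exact TSFM.mem_Un.2 ⟨i, hij, hp⟩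
  · intro j hj
    rcases Nat.lt_succ_iff_lt_or_eq.1 hj with hj | rfl
    · rw [hL'i j hj]
      exact h.sht j hj
    · rw [hL'n]
      exact ⟨y, hy, fun v hv => ⟨(hSp _ (hQS v hv).1).2.2.1, (hSp _ (hQS v hv).1).2.2.2.1⟩⟩
  · rw [hUn', Finset.sum_union hdis]
    have h1 : ∑ v ∈ Q, 1 / (nv v : ℝ) ≤ 1 / 2 * (1 / 2) ^ (n + 1) := by
      have h2 : ∀ v ∈ Q, 1 / (nv v : ℝ) ≤ 1 / B := by
        intro v hv
        have : (B : ℝ) ≤ nv v := by exact_mod_cast hge v hv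
        exact one_div_le_one_div_of_le hBpos this
      have h3 := Finset.sum_le_card_nsmul Q _ _ h2
      rw [hcardQ, nsmul_eq_mul] at h3
      refine h3.trans ?_
      rw [mul_one_div, div_le_iff₀ hBpos]
      have h4 : (2 : ℝ) ^ (n + 2) * N ≤ B := by
        rw [hB]
        push_cast
        have : (0 : ℝ) ≤ ∑ v ∈ Un L n, (nv v : ℝ) := Finset.sum_nonneg fun _ _ => Nat.cast_nonneg _
        have h0 : (0 : ℝ) ≤ P0 := Nat.cast_nonneg _
        have h01 : (0 : ℝ) ≤ m := Nat.cast_nonneg _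
        have h02 : (0 : ℝ) ≤ nv v0 := Nat.cast_nonneg _
        linarith
      have h5 : (1 : ℝ) / 2 * (1 / 2) ^ (n + 1) * 2 ^ (n + 2) = 1 := by
        rw [show (2 : ℝ) ^ (n + 2) = 2 * 2 ^ (n + 1) by ring]
        rw [show (1 : ℝ) / 2 * (1 / 2) ^ (n + 1) * (2 * 2 ^ (n + 1)) =
          ((1 / 2) * 2) ^ (n + 1) by rw [mul_pow]; ring]
        norm_num
      calc (N : ℝ) = 1 / 2 * (1 / 2) ^ (n + 1) * 2 ^ (n + 2) * N := by rw [h5, one_mul]
        _ = 1 / 2 * (1 / 2) ^ (n + 1) * (2 ^ (n + 2) * N) := by ring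
        _ ≤ 1 / 2 * (1 / 2) ^ (n + 1) * B := mul_le_mul_of_nonneg_left h4 (by positivity)
    have h6 := h.sum
    have h7 : ((1 : ℝ) / 2) ^ (n + 1) = (1 / 2) ^ n / 2 := by rw [pow_succ]; ring
    linarith
  · intro j hj T hT c
    rcases Nat.lt_succ_iff_lt_or_eq.1 hj with hj | rfl
    · rw [hL'i j hj]
      rw [Ts_congr (L' := L) fun i hi => hL'i i (hi.trans hj)] at hT
      exact h.big j hj T hT c
    · rw [hL'n, hcardQ]
      rw [Ts_congr (L' := L) fun i hi => hL'i i hi] at hT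
      have h0 : ∀ (T : Finset (HeightOneSpectrum (𝓞 F))) (c : Bool),
          0 ≤ |A * (tw m v0 c T : ℝ) ^ d| / η := fun T c => div_nonneg (abs_nonneg _) hη.le
      have h1 : |A * (tw m v0 c T : ℝ) ^ d| / η ≤
          ∑ T ∈ Ts L j, ∑ c : Bool, |A * (tw m v0 c T : ℝ) ^ d| / η :=
        (Finset.single_le_sum (f := fun c => |A * (tw m v0 c T : ℝ) ^ d| / η)
          (fun _ _ => h0 _ _) (Finset.mem_univ c)).trans
        (Finset.single_le_sum
          (f := fun T => ∑ c : Bool, |A * (tw m v0 c T : ℝ) ^ d| / η)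
          (fun _ _ => Finset.sum_nonneg fun _ _ => h0 _ _) hT)
      have h2 : |A * (tw m v0 c T : ℝ) ^ d| / η ≤ N := by
        rw [hN]
        push_cast
        linarith
      rw [div_le_iff₀ hη] at h2
      calc A * (tw m v0 c T : ℝ) ^ d ≤ |A * (tw m v0 c T : ℝ) ^ d| := le_abs_self _
        _ ≤ N * η := h2
        _ = η * N := mul_comm _ _

theorem all (hPRM : SpecPRM) (k P0 : ℕ) (hk : 0 < k) {δ A η : ℝ} (hδ : 0 < δ) (hη : 0 < η)
    (d m : ℕ) (v0 : HeightOneSpectrum (𝓞 F)) (n : ℕ) : ∃ L, Lay2 k P0 δ A η d m v0 n L := by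
  induction n with
  | zero =>
    refine ⟨fun _ => ∅, ?_, ?_, fun j hj => absurd hj (Nat.not_lt_zero j),
      fun i j _ hj => absurd hj (Nat.not_lt_zero j),
      fun j hj => absurd hj (Nat.not_lt_zero j), ?_, fun j hj => absurd hj (Nat.not_lt_zero j)⟩
    · intro v hv
      simp [Un] at hv
    · intro v hv
      simp [Un] at hv
    · simp [Un]
  | succ n ih =>
    obtain ⟨L, hL⟩ := ih
    exact step hPRM k P0 hk hδ hη d m v0 n L hL

end LYRM

/-- **LYR.** -/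
theorem specLYR (hPRM : SpecPRM) (hPLC : SpecPLC) : SpecLYR := by
  intro F _ _ k P0 n δ A η hk hδ hη _
  obtain ⟨S, y, hS, hy, hSp⟩ := hPRM F k δ 2 (P0 + 9) hk hδ
  obtain ⟨m, q, hmq, rfl⟩ := Finset.card_eq_two.1 hS
  obtain ⟨m1, m2, m3, m4, -⟩ := hSp m (by simp)
  obtain ⟨q1, q2, q3, q4, v0, q5, q6⟩ := hSp q (by simp)
  have hy9 : (P0 : ℝ) + 9 ≤ y := by exact_mod_cast hy
  have hy0 : 0 < y := by
    have : (0 : ℝ) ≤ P0 := Nat.cast_nonneg _
    linarith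
  have hmP : P0 + 9 ≤ m := by exact_mod_cast hy.trans m3
  have hqP : P0 + 9 ≤ q := by exact_mod_cast hy.trans q3
  obtain ⟨L, h⟩ := LYRM.all (A := A) hPRM k P0 hk hδ hη (5 * Module.finrank ℚ F) m v0 n
  have hv0 : v0 ∉ Un L n := fun hv => (h.pri v0 hv).2.2.2.2.2 rfl
  subst q5
  set Q := insert v0 (Un L n) with hQ
  have hact : Act k Q := by
    refine ⟨?_, ?_, ?_, ?_⟩
    · intro v hv
      rcases Finset.mem_insert.1 hv with rfl | hv
      · exact q1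
      · exact (h.pri v hv).1
    · intro v hv
      rcases Finset.mem_insert.1 hv with rfl | hv
      · exact q2
      · exact (h.pri v hv).2.1
    · intro v hv
      rcases Finset.mem_insert.1 hv with rfl | hv
      · exact q6
      · exact (h.pri v hv).2.2.1
    · intro v hv w hw hvw
      rcases Finset.mem_insert.1 hv with hv' | hv' <;> rcases Finset.mem_insert.1 hw with hw' | hw'
      · rw [hv', hw']
      · rw [hv'] at hvw
        exact absurd hvw.symm (h.pri w hw').2.2.2.2.2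
      · rw [hw'] at hvw
        exact absurd hvw (h.pri v hv').2.2.2.2.2
      · exact h.inj v hv' w hw' hvw
  have hM : ((m * pr Q : ℕ) : 𝓞 F) ≠ 0 := by
    have h1 : 0 < pr Q := Finset.prod_pos fun v hv => (hact.prime v hv).pos
    exact Nat.cast_ne_zero.2 (mul_pos m1.pos h1).ne'
  refine ⟨m, v0, L, (hPLC.fin F _ hM).toFinset.filter (fun w => w ∉ Q), ⟨⟨hact, ?_, m1, m2, ?_, ?_,
    ?_, ?_⟩, hv0, ⟨h.ne, h.dis, h.sht⟩, ?_, ?_⟩, ?_⟩
  · intro v hv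
    rcases Finset.mem_insert.1 hv with rfl | hv
    · omega
    · exact (h.pri v hv).2.2.2.1
  · omega
  · intro v hv
    rcases Finset.mem_insert.1 hv with rfl | hv
    · exact fun h => hmq h.symm
    · exact (h.pri v hv).2.2.2.2.1
  · intro w
    rw [Finset.mem_filter, Set.Finite.mem_toFinset]
    rfl
  · rw [Finset.sum_insert hv0]
    have h1 := h.sum
    have h2 : (0 : ℝ) ≤ (1 / 2) ^ n := by positivity
    have h3 : 1 / (nv v0 : ℝ) ≤ 1 / 4 := by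
      refine one_div_le_one_div_of_le (by norm_num) ?_
      have : ((4 : ℕ) : ℝ) ≤ nv v0 := by exact_mod_cast (by omega : 4 ≤ nv v0)
      simpa using this
    linarith
  · exact m4.trans (mul_le_mul_of_nonneg_left q3 (by linarith))
  · exact q4.trans (mul_le_mul_of_nonneg_left m3 (by linarith))
  · exact h.big

end Pool.Agent.Lib.MP_8cb858_nt.PF
end
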