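import Pool.Agent.Lib.MP_8cb858_nt.PF.SpecA

/-!
# NFC: the number of elements of `O_v / 2 O_v` over the places above 2
-/

namespace Pool.Agent.Lib.MP_8cb858_nt.PF

open Polynomial NumberField IsDedekindDomain Pool.Agent.Lib.MP_8cb858_nt.SEL
open scoped Classical WithZero

namespace NFCM

variable {F : Type} [Field F] [NumberField F]

/-- The exponent of `v` in `(2)`. -/
noncomputable def ex (v : HeightOneSpectrum (𝓞 F)) : ℕ :=
  (Associates.mk v.asIdeal).count (Associates.mk (Ideal.span {(2 : 𝓞 F)})).factors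

theorem vv_two (v : HeightOneSpectrum (𝓞 F)) :
    vv v (2 : v.adicCompletion F) = WithZero.exp (-(ex v : ℤ)) := by
  have h1 : (2 : v.adicCompletion F) = ((2 : F) : v.adicCompletion F) := by
    have h := map_ofNat (algebraMap F (v.adicCompletion F)) 2
    exact h.symm
  have h2 : (2 : F) = algebraMap (𝓞 F) F (2 : 𝓞 F) := (map_ofNat (algebraMap (𝓞 F) F) 2).symm
  have h3 : (2 : 𝓞 F) ≠ 0 := two_ne_zero
  show Valued.v (2 : v.adicCompletion F) = _
  rw [h1, HeightOneSpectrum.valuedAdicCompletion_eq_valuation', h2,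
    HeightOneSpectrum.valuation_of_algebraMap, HeightOneSpectrum.intValuation_if_neg _ h3]
  rfl

/-- The natural map to the ring of integers of the completion. -/
noncomputable def toO (hNFB : SpecNFB) (v : HeightOneSpectrum (𝓞 F)) :
    𝓞 F →+* (vv v).valuationSubring :=
  ((algebraMap F (v.adicCompletion F)).comp (algebraMap (𝓞 F) F)).codRestrict
    (vv v).valuationSubring.toSubring (fun x => (hNFB.int F v x 0).1)

theorem two_eq (hNFB : SpecNFB) (v : HeightOneSpectrum (𝓞 F)) :
    two (vv v) = Ideal.absNorm (v.asIdeal ^ ex v) := by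
  set φ : 𝓞 F →+* ((vv v).valuationSubring ⧸ Ideal.span {(2 : (vv v).valuationSubring)}) :=
    (Ideal.Quotient.mk _).comp (toO hNFB v) with hφ
  have hmem : ∀ z : (vv v).valuationSubring, z ∈ Ideal.span {(2 : (vv v).valuationSubring)} ↔
      vv v (z : v.adicCompletion F) ≤ WithZero.exp (-(ex v : ℤ)) := by
    intro z
    rw [Ideal.mem_span_singleton, ← vv_two]
    constructor
    · rintro ⟨y, rfl⟩
      have hy : vv v (y : v.adicCompletion F) ≤ 1 := y.2
      have : (((2 : (vv v).valuationSubring) * y : (vv v).valuationSubring) :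
          v.adicCompletion F) = 2 * (y : v.adicCompletion F) := rfl
      rw [this, map_mul]
      exact mul_le_of_le_one_right' hy
    · intro h
      have h2 : (2 : v.adicCompletion F) ≠ 0 := two_ne_zero
      have h3 : vv v (2 : v.adicCompletion F) ≠ 0 := (Valuation.ne_zero_iff _).2 h2
      refine ⟨⟨(z : v.adicCompletion F) / 2, ?_⟩, ?_⟩
      · show vv v ((z : v.adicCompletion F) / 2) ≤ 1
        rw [map_div₀]
        exact (div_le_one₀ (zero_lt_iff.2 h3)).2 h
      · apply Subtype.ext
        show (z : v.adicCompletion F) = 2 * ((z : v.adicCompletion F) / 2)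
        field_simp
  have hsurj : Function.Surjective φ := by
    intro q
    obtain ⟨x, rfl⟩ := Ideal.Quotient.mk_surjective q
    obtain ⟨y, hy⟩ := hNFB.dense F v (x : v.adicCompletion F) (ex v) x.2
    refine ⟨y, ?_⟩
    show Ideal.Quotient.mk _ (toO hNFB v y) = Ideal.Quotient.mk _ x
    apply Ideal.Quotient.eq.2
    rw [hmem]
    have e : ((toO hNFB v y - x : (vv v).valuationSubring) : v.adicCompletion F) =
        -((x : v.adicCompletion F) - algebraMap F (v.adicCompletion F) (y : F)) := by
      show algebraMap F (v.adicCompletion F) (y : F) - (x : v.adicCompletion F) = _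
      ring
    rw [e, Valuation.map_neg]
    exact hy
  have hker : RingHom.ker φ = v.asIdeal ^ ex v := by
    ext y
    rw [RingHom.mem_ker]
    show Ideal.Quotient.mk _ (toO hNFB v y) = 0 ↔ _
    rw [Ideal.Quotient.eq_zero_iff_mem, hmem, (hNFB.int F v y (ex v)).2]
    rfl
  have e := RingHom.quotientKerEquivOfSurjective hsurj
  rw [two, Ideal.absNorm_apply, Submodule.cardQuot_apply, ← hker]
  exact (Nat.card_congr e.toEquiv).symm

theorem absNorm_two : Ideal.absNorm (Ideal.span {(2 : 𝓞 F)}) = 2 ^ Module.finrank ℚ F := by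
  rw [Ideal.absNorm_span_singleton]
  have h := Algebra.norm_algebraMap_of_basis (RingOfIntegers.basis F) (2 : ℤ)
  have h2 : (algebraMap ℤ (𝓞 F)) 2 = (2 : 𝓞 F) := by simp
  rw [h2] at h
  rw [h, Int.natAbs_pow, ← RingOfIntegers.rank, Module.finrank_eq_card_basis (RingOfIntegers.basis F)]
  rfl

end NFCM

open NFCM in
theorem specNFC (hNFB : SpecNFB) : SpecNFC := by
  intro F _ _
  have hI : Ideal.span {(2 : 𝓞 F)} ≠ 0 := by
    rw [Ne, Ideal.zero_eq_bot, Ideal.span_singleton_eq_bot]
    exact two_ne_zero
  have hfin := Ideal.finite_factors hI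
  refine ⟨hfin.toFinset, ?_, ?_⟩
  · intro v
    rw [Set.Finite.mem_toFinset]
    show v.asIdeal ∣ _ ↔ _
    rw [Ideal.dvd_span_singleton]
  · have key : Ideal.absNorm (∏ᶠ v : HeightOneSpectrum (𝓞 F),
        v.maxPowDividing (Ideal.span {(2 : 𝓞 F)})) = 2 ^ Module.finrank ℚ F := by
      rw [Ideal.finprod_heightOneSpectrum_factorization hI, absNorm_two]
    rw [← key]
    rw [finprod_eq_prod_of_mulSupport_subset (s := hfin.toFinset), map_prod]
    · exact Finset.prod_congr rfl fun v _ => two_eq hNFB v
    · intro v hv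
      rw [Function.mem_mulSupport] at hv
      rw [Finset.mem_coe, Set.Finite.mem_toFinset]
      show v.asIdeal ∣ _
      by_contra hcon
      apply hv
      rw [HeightOneSpectrum.maxPowDividing]
      have h0 : (Associates.mk v.asIdeal).count (Associates.mk (Ideal.span {(2 : 𝓞 F)})).factors = 0 := by
        by_contra h1
        exact hcon ((Associates.count_ne_zero_iff_dvd hI v.irreducible).1 h1)
      rw [h0, pow_zero]

end Pool.Agent.Lib.MP_8cb858_nt.PF
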