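import Pool.Agent.Lib.MP_8cb858_nt.PF.SGL
import Pool.Agent.Lib.MP_8cb858_nt.PR.LAW

/-!
# POP: the distribution in the population of all twists
-/

set_option autoImplicit false

namespace Pool.Agent.Lib.MP_8cb858_nt.PF

open NumberField IsDedekindDomain Pool.Agent.Lib.MP_8cb858_nt.SEL Filter
open scoped Classical

namespace POPM

open AVGM
open PR.POPM (card_log count_ex count_sum pow_inj num_unb num_ngd cnt num_fin)

variable {F : Type} [Field F] [NumberField F] {k : ℕ} {cl : 𝓞 F × 𝓞 F}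

/-- the places -/
abbrev Pl (F : Type) [Field F] [NumberField F] : Type := HeightOneSpectrum (𝓞 F)

/-- the set of FMQ -/
def FS (k : ℕ) (cl : 𝓞 F × 𝓞 F) (Q P Q' T : Finset (Pl F)) (e : ℕ) (Z : Finset (Finset (Pl F)))
    (ρ : InfinitePlace F → ℝ) : Set (Σ q : 𝓞 F × 𝓞 F, Sel 2 (cN q.1 q.2 (e * pr T))) :=
  {z | z.1 ∈ Fam k cl Q P ∩ Bx F ρ ∧ z.2 ≠ 0 ∧ Q'.filter (fun v => ¬ TrN (e * pr T) v z.2) ∈ Z}

theorem pr_empty : pr (∅ : Finset (Pl F)) = 1 := by simp [pr]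

/-- the neutral factor -/
def me (m : ℕ) (c : Bool) : ℕ := if c then m else 1

/-- the active places -/
noncomputable def Tt (v0 : Pl F) (c : Bool) (T : Finset (Pl F)) : Finset (Pl F) :=
  if c then T else insert v0 T

theorem tw_eq (m : ℕ) (v0 : Pl F) (c : Bool) (T : Finset (Pl F)) :
    tw m v0 c T = me m c * pr (Tt v0 c T) := rfl

theorem Tt_insert (v0 : Pl F) (c : Bool) (v : Pl F) (T : Finset (Pl F)) :
    Tt v0 c (insert v T) = insert v (Tt v0 c T) := by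
  unfold Tt
  cases c
  · simp only [Bool.false_eq_true, if_false]
    exact Finset.insert_comm _ _ _
  · simp

theorem Tt_sub {v0 : Pl F} {c : Bool} {T Q : Finset (Pl F)} (hT : T ⊆ Q) (hv : v0 ∈ Q) :
    Tt v0 c T ⊆ Q := by
  unfold Tt
  cases c
  · simp only [Bool.false_eq_true, if_false]
    exact Finset.insert_subset hv hT
  · simpa using hT

/-- the unbalanced subsets -/
noncomputable def Zs (P : Finset (Pl F)) (η : ℝ) : Finset (Finset (Pl F)) :=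
  P.powerset.filter (fun z => η * P.card < |(P.card : ℝ) - 2 * z.card|)

/-- the members with an unbalanced element -/
def Unb (m : ℕ) (v0 : Pl F) (L : ℕ → Finset (Pl F)) (η : ℝ) (j : ℕ) (T : Finset (Pl F)) (c : Bool)
    (q : 𝓞 F × 𝓞 F) : Prop :=
  ∃ z : Sel 2 (cN q.1 q.2 (me m c * pr (Tt v0 c T))), z ≠ 0 ∧
    (L j).filter (fun v => ¬ TrN (me m c * pr (Tt v0 c T)) v z) ∈ Zs (L j) η

/-- structure of the Selmer groups -/
theorem sel_card (hTRA : SpecTRA) (hk : 0 < k) (h6 : 6 ∣ k) {Q P T : Finset (Pl F)} {e : ℕ} {q : 𝓞 F × 𝓞 F}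
    (hA : Act k Q) (hC : Cmp k Q P) (hN : Neu k P e) (hq : q ∈ Fam k cl Q P) (hT : T ⊆ Q) :
    Nat.card (Sel 2 (cN q.1 q.2 (e * pr T))) = 2 ^ sd q (e * pr T) := by
  obtain ⟨h1, h2, _⟩ := hTRA F k cl Q P T e q.1 q.2 hk h6 hA hC hN hq hT
  exact card_log h2

/-- the step of the chain -/
theorem step (hTRA : SpecTRA) (hk : 0 < k) (h6 : 6 ∣ k) (hSTP : SpecSTP) (hSGL : SpecSGL) {Q P T Lj : Finset (Pl F)} {e : ℕ}
    {q : 𝓞 F × 𝓞 F} (hA : Act k Q) (hC : Cmp k Q P) (hN : Neu k P e) (hq : q ∈ Fam k cl Q P) (hT : T ⊆ Q)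
    (hL : Lj ⊆ Q) (hLT : Disjoint Lj T)
    (hgood : ∀ z : Sel 2 (cN q.1 q.2 1), (∀ v ∈ Q, TrN 1 v z) → z = 0) {η : ℝ} (hη : 0 ≤ η)
    (hbal : ∀ z : Sel 2 (cN q.1 q.2 (e * pr T)), z ≠ 0 → |(Lj.card : ℝ) -
      2 * ((Lj.filter (fun v => ¬ TrN (e * pr T) v z)).card : ℝ)| ≤ η * Lj.card)
    (f : ℕ → ℝ) (hf : ∀ k, |f k| ≤ 1) :
    |∑ v ∈ Lj, f (sd q (e * pr (insert v T))) - Lj.card * PR.Mop f (sd q (e * pr T))| ≤
      2 * η * Lj.card := by
  obtain ⟨h1, h2, h3⟩ := hTRA F k cl Q P T e q.1 q.2 hk h6 hA hC hN hq hT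
  have hcard := sel_card hTRA hk h6 hA hC hN hq hT
  have hstp := (hSTP F k cl Q P e q.1 q.2 hk h6 hA hC hN hq hgood).2 T hT
  have hins : ∀ v ∈ Lj, Nat.card (Sel 2 (cN q.1 q.2 (e * pr (insert v T)))) =
      2 ^ sd q (e * pr (insert v T)) := fun v hv =>
    sel_card hTRA hk h6 hA hC hN hq (Finset.insert_subset (hL hv) hT)
  have hnot : ∀ v ∈ Lj, v ∉ T := fun v hv => Finset.disjoint_left.1 hLT hv
  refine hSGL (Pl F) (Sel 2 (cN q.1 q.2 (e * pr T))) Lj (fun v z => TrN (e * pr T) v z)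
    (sd q (e * pr T)) (fun v => sd q (e * pr (insert v T))) η f hη h2 hcard ?_ ?_ ?_ ?_ hf
  · intro v hv z w
    exact h3 v (hL hv) (hnot v hv) z w
  · intro v hv h
    have := (hstp v (hL hv) (hnot v hv)).1 h
    rw [hins v hv, hcard] at this
    exact this
  · intro v hv h
    have := (hstp v (hL hv) (hnot v hv)).2 h
    rw [hins v hv, hcard] at this
    exact this
  · intro z hz
    convert hbal z hz

/-- the start: the neutral twist -/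
theorem start_m (hTRA : SpecTRA) (hk : 0 < k) (h6 : 6 ∣ k) (hSTP : SpecSTP) {Q P : Finset (Pl F)} {m : ℕ}
    {q : 𝓞 F × 𝓞 F} (hA : Act k Q) (hC : Cmp k Q P) (hN : Neu k P m) (hN1 : Neu k P 1)
    (hq : q ∈ Fam k cl Q P) (hgood : ∀ z : Sel 2 (cN q.1 q.2 1), (∀ v ∈ Q, TrN 1 v z) → z = 0) :
    sd q (m * pr (F := F) ∅) = sd q (1 * pr (F := F) ∅) := by
  have h1 := sel_card hTRA hk h6 hA hC hN hq (Finset.empty_subset Q)
  have h2 := sel_card hTRA hk h6 hA hC hN1 hq (Finset.empty_subset Q)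
  have h3 := (hSTP F k cl Q P m q.1 q.2 hk h6 hA hC hN hq hgood).1 ∅ (Finset.empty_subset Q)
  rw [h1, h2] at h3
  exact pow_inj h3

/-- the start: the active place `v0` -/
theorem start_v (hTRA : SpecTRA) (hk : 0 < k) (h6 : 6 ∣ k) (hSTP : SpecSTP) {Q P : Finset (Pl F)} {v0 : Pl F}
    {q : 𝓞 F × 𝓞 F} (hA : Act k Q) (hC : Cmp k Q P) (hN1 : Neu k P 1) (hv : v0 ∈ Q)
    (hq : q ∈ Fam k cl Q P) (hgood : ∀ z : Sel 2 (cN q.1 q.2 1), (∀ v ∈ Q, TrN 1 v z) → z = 0) :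
    sd q (1 * pr (insert v0 ∅)) = sd q (1 * pr (F := F) ∅) + 1 ∨
      sd q (1 * pr (F := F) ∅) = sd q (1 * pr (insert v0 ∅)) + 1 := by
  have h1 := sel_card hTRA hk h6 hA hC hN1 hq (Finset.empty_subset Q)
  have h2 := sel_card hTRA hk h6 hA hC hN1 hq (T := insert v0 ∅)
    (Finset.insert_subset hv (Finset.empty_subset Q))
  obtain ⟨h3, h4⟩ := (hSTP F k cl Q P 1 q.1 q.2 hk h6 hA hC hN1 hq hgood).2 ∅ (Finset.empty_subset Q) v0 hv
    (Finset.notMem_empty _)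
  rw [h1, h2] at h3 h4
  by_cases h : ∀ z : Sel 2 (cN q.1 q.2 (1 * pr (F := F) ∅)), TrN (1 * pr (F := F) ∅) v0 z
  · left
    refine pow_inj ?_
    rw [h3 h, pow_succ, mul_comm]
  · right
    refine pow_inj ?_
    rw [← h4 h, pow_succ, mul_comm]

theorem num_mom {C c W g : ℝ} (hC : 0 < C) (hc : 0 < c) (h : c * W ≤ 2 * g) :
    C * W ≤ 2 * C / c * g := by
  rw [div_mul_eq_mul_div, le_div_iff₀ hc]
  nlinarith

theorem good_tr {q : 𝓞 F × 𝓞 F} {Q Q' : Finset (Pl F)} (hQ' : Q' ⊆ Q)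
    (h : ¬ ∃ z : Sel 2 (cN q.1 q.2 (1 * pr (F := F) ∅)), z ≠ 0 ∧
      Q'.filter (fun v => ¬ TrN (1 * pr (F := F) ∅) v z) ∈ ({∅} : Finset (Finset (Pl F)))) :
    ∀ z : Sel 2 (cN q.1 q.2 1), (∀ v ∈ Q, TrN 1 v z) → z = 0 := by
  have e : 1 * pr (∅ : Finset (Pl F)) = 1 := by rw [pr_empty, mul_one]
  rw [e] at h
  intro z hz
  by_contra hne
  refine h ⟨z, hne, ?_⟩
  rw [Finset.mem_singleton, Finset.filter_eq_empty_iff]
  intro v hv
  rw [not_not]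
  exact hz v (hQ' hv)

/-- the moment -/
theorem moment (hTRA : SpecTRA) (hk : 0 < k) (h6 : 6 ∣ k) {Q P : Finset (Pl F)} (hA : Act k Q) (hC : Cmp k Q P) (hN1 : Neu k P 1)
    {ρ : InfinitePlace F → ℝ} {b : ℝ} {Fi G : Finset (𝓞 F × 𝓞 F)}
    (hF : (Fi : Set (𝓞 F × 𝓞 F)) = Fam k cl Q P ∩ Bx F ρ) (hGF : G ⊆ Fi)
    (hfin : (FS k cl Q P ∅ ∅ 1 {∅} ρ).Finite) (hb : ((FS k cl Q P ∅ ∅ 1 {∅} ρ).ncard : ℝ) ≤ b) :
    ∑ q ∈ G, (2 : ℝ) ^ sd q (1 * pr (F := F) ∅) ≤ G.card + b := by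
  have hFm : ∀ q ∈ Fi, q ∈ Fam k cl Q P := fun q hq => by
    have : q ∈ (Fi : Set (𝓞 F × 𝓞 F)) := hq
    rw [hF] at this
    exact this.1
  have hset : FS k cl Q P ∅ ∅ 1 {∅} ρ =
      {z : Σ q : 𝓞 F × 𝓞 F, Sel 2 (cN q.1 q.2 (1 * pr (F := F) ∅)) |
        z.1 ∈ (Fi : Set (𝓞 F × 𝓞 F)) ∧ z.2 ≠ 0} := by
    ext z
    rw [hF]
    simp [FS]
  rw [hset] at hfin hb
  have h1 := count_sum (S := fun q : 𝓞 F × 𝓞 F => Sel 2 (cN q.1 q.2 (1 * pr (F := F) ∅))) Fi (fun q => 0)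
    (fun q hq => (hTRA F k cl Q P ∅ 1 q.1 q.2 hk h6 hA hC hN1 (hFm q hq) (Finset.empty_subset _)).1) hfin
  have h2 : ∑ q ∈ G, (Nat.card (Sel 2 (cN q.1 q.2 (1 * pr (F := F) ∅))) - 1) ≤
      ∑ q ∈ Fi, (Nat.card (Sel 2 (cN q.1 q.2 (1 * pr (F := F) ∅))) - 1) :=
    Finset.sum_le_sum_of_subset hGF
  have h3 : ∀ q ∈ G, (2 : ℝ) ^ sd q (1 * pr (F := F) ∅) =
      1 + ((Nat.card (Sel 2 (cN q.1 q.2 (1 * pr (F := F) ∅))) - 1 : ℕ) : ℝ) := by
    intro q hq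
    rw [sel_card hTRA hk h6 hA hC hN1 (hFm q (hGF hq)) (Finset.empty_subset _)]
    have h4 : 1 ≤ 2 ^ sd q (1 * pr (F := F) ∅) := Nat.one_le_two_pow
    rw [Nat.cast_sub h4]
    push_cast
    ring
  rw [Finset.sum_congr rfl h3, Finset.sum_add_distrib, Finset.sum_const, nsmul_eq_mul, mul_one]
  have h5 : ((∑ q ∈ G, (Nat.card (Sel 2 (cN q.1 q.2 (1 * pr (F := F) ∅))) - 1) : ℕ) : ℝ) ≤ b :=
    le_trans (by exact_mod_cast h2.trans h1) hb
  push_cast at h5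
  linarith

theorem sum_diff {ι : Type} (U : Finset ι) (N s : ι → Bool → ℝ) (b : ℝ)
    (h : ∀ T ∈ U, ∀ c : Bool, |N T c - s T c| ≤ b) :
    |∑ T ∈ U, ∑ c : Bool, N T c - ∑ T ∈ U, ∑ c : Bool, s T c| ≤ 2 * U.card * b := by
  rw [← Finset.sum_sub_distrib]
  calc |∑ T ∈ U, (∑ c : Bool, N T c - ∑ c : Bool, s T c)|
      ≤ ∑ T ∈ U, ∑ c : Bool, b := by
        refine (Finset.abs_sum_le_sum_abs _ _).trans (Finset.sum_le_sum fun T hT => ?_)
        rw [← Finset.sum_sub_distrib]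
        exact (Finset.abs_sum_le_sum_abs _ _).trans
          (Finset.sum_le_sum fun c _ => h T hT c)
    _ = 2 * U.card * b := by
        rw [Finset.sum_const, Fintype.sum_bool, nsmul_eq_mul]
        ring

/-- the average in the population of the good members -/
theorem mainav (hTRA : SpecTRA) (hk : 0 < k) (h6 : 6 ∣ k) (hSTP : SpecSTP) (hSGL : SpecSGL) (hTSF : SpecTSF)
    (hLAW : PR.SpecLAW) {P0 : ℕ} {δ : ℝ} {n m : ℕ} {v0 : Pl F} {L : ℕ → Finset (Pl F)}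
    {P : Finset (Pl F)} (hL : Lay k P0 δ n m v0 L P)
    (hC : Cmp k (insert v0 (Un L n)) P) (hN : Neu k P m) (hN1 : Neu k P 1)
    {G : Finset (𝓞 F × 𝓞 F)} (hGpos : 0 < G.card)
    (hFm : ∀ q ∈ G, q ∈ Fam k cl (insert v0 (Un L n)) P)
    (hgood : ∀ q ∈ G, ∀ z : Sel 2 (cN q.1 q.2 1), (∀ v ∈ insert v0 (Un L n), TrN 1 v z) → z = 0)
    {η C1 : ℝ} (hη : 0 ≤ η)
    (hm1 : ∑ q ∈ G, (2 : ℝ) ^ sd q (1 * pr (F := F) ∅) ≤ G.card + C1 * G.card)
    (hunb : ∀ j < n, ∀ T ∈ Ts L j, ∀ c : Bool,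
      ∃ B : Finset (𝓞 F × 𝓞 F), (∀ q ∈ G, Unb m v0 L η j T c q → q ∈ B) ∧
        (B.card : ℝ) ≤ η * G.card)
    (d : ℕ) :
    |∑ T ∈ Ts L n, ∑ c : Bool, ∑ q ∈ G,
        (if sd q (me m c * pr (Tt v0 c T)) = d then (1 : ℝ) else 0) -
          PR.law d * (2 * (Ts L n).card * G.card)| ≤
      (n * (4 * η) + (1 / 2) ^ n * (2 * (3 / 2 * (1 + C1) + 3))) *
        (2 * (Ts L n).card * G.card) := by
  have hLQ : ∀ j < n, L j ⊆ insert v0 (Un L n) := fun j hj => by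
    unfold Un
    exact (Finset.subset_biUnion_of_mem L (Finset.mem_range.2 hj)).trans
      (Finset.subset_insert _ _)
  have hv0Q : v0 ∈ insert v0 (Un L n) := Finset.mem_insert_self _ _
  have hNe : ∀ c, Neu k P (me m c) := fun c => by
    unfold me
    cases c
    · simpa using hN1
    · simpa using hN
  have hv : ∀ q ∈ G, _ := fun q hq => start_v hTRA hk h6 hSTP hL.sys.act hC hN1 hv0Q (hFm q hq)
    (hgood q hq)
  have hm : ∀ q ∈ G, _ := fun q hq => start_m hTRA hk h6 hSTP hL.sys.act hC hN hN1 (hFm q hq)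
    (hgood q hq)
  have et : ∀ q : 𝓞 F × 𝓞 F, sd q (me m true * pr (Tt v0 true ∅)) = sd q (m * pr (F := F) ∅) :=
    fun q => rfl
  have ef : ∀ q : 𝓞 F × 𝓞 F, sd q (me m false * pr (Tt v0 false ∅)) =
      sd q (1 * pr (insert v0 ∅)) := fun q => rfl
  have hav := average hTSF hL.lay G hGpos (fun q c T => sd q (me m c * pr (Tt v0 c T)))
    (η := η) (C0 := 3 / 2 * (1 + C1)) hη
    (by
      intro q hq
      show (-1 : ℝ) ^ sd q (me m true * pr (Tt v0 true ∅)) +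
        (-1 : ℝ) ^ sd q (me m false * pr (Tt v0 false ∅)) = 0
      rw [et, ef, hm q hq]
      rcases hv q hq with h | h
      · rw [h, pow_succ]
        ring
      · rw [h, pow_succ]
        ring)
    (by
      have h1 : ∀ q ∈ G, (2 : ℝ) ^ sd q (me m true * pr (Tt v0 true ∅)) +
          (2 : ℝ) ^ sd q (me m false * pr (Tt v0 false ∅)) ≤ 3 * (2 : ℝ) ^ sd q (1 * pr (F := F) ∅) := by
        intro q hq
        rw [et, ef, hm q hq]
        rcases hv q hq with h | h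
        · rw [h, pow_succ]
          linarith
        · rw [h, pow_succ]
          have : (0 : ℝ) < 2 ^ sd q (1 * pr (insert v0 ∅)) := by positivity
          linarith
      refine (Finset.sum_le_sum h1).trans ?_
      rw [← Finset.mul_sum]
      linarith)
    (Unb m v0 L η)
    (by
      intro j hj T hT c q hq hnu f hf
      have hTs := hTSF.sub hL.lay j hj.le T hT
      have hTQ : Tt v0 c T ⊆ insert v0 (Un L n) :=
        Tt_sub (hTs.2.2.1.trans (Finset.subset_insert _ _)) hv0Q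
      have hdis : Disjoint (L j) (Tt v0 c T) := by
        have h1 := hTs.2.2.2 j le_rfl hj
        have h2 : v0 ∉ L j := fun h => hL.v0n (by
          unfold Un
          exact Finset.mem_biUnion.2 ⟨j, Finset.mem_range.2 hj, h⟩)
        unfold Tt
        cases c
        · simp only [Bool.false_eq_true, if_false]
          exact Finset.disjoint_insert_right.2 ⟨h2, h1⟩
        · simpa using h1
      have hstep := step hTRA hk h6 hSTP hSGL hL.sys.act hC (hNe c) (hFm q hq) hTQ (hLQ j hj) hdis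
        (hgood q hq) hη (by
          intro z hz
          by_contra hcon
          refine hnu ⟨z, hz, ?_⟩
          unfold Zs
          rw [Finset.mem_filter, Finset.mem_powerset]
          exact ⟨Finset.filter_subset _ _, not_le.1 hcon⟩) f hf
      simp only [Tt_insert]
      exact hstep)
    hunb
    (fun k => if k = d then 1 else 0) (by intro k; split_ifs <;> simp)
  have hlaw : ∑' k, PR.C2 k * (if k = d then (1 : ℝ) else 0) = PR.law d := by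
    rw [hLAW]
    simp [tsum_ite_eq]
  rw [hlaw] at hav
  exact hav

/-- the members with an unbalanced element are few -/
theorem unbcount {Q P : Finset (Pl F)} {m : ℕ} {v0 : Pl F} {L : ℕ → Finset (Pl F)} {η : ℝ}
    {ρ : InfinitePlace F → ℝ} {Fi : Finset (𝓞 F × 𝓞 F)}
    (hF : (Fi : Set (𝓞 F × 𝓞 F)) = Fam k cl Q P ∩ Bx F ρ) {j : ℕ} {T : Finset (Pl F)} {c : Bool}
    (hfin : (FS k cl Q P (L j) (Tt v0 c T) (me m c) (Zs (L j) η) ρ).Finite) :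
    ∃ B : Finset (𝓞 F × 𝓞 F), (∀ q ∈ Fi, Unb m v0 L η j T c q → q ∈ B) ∧
      B.card ≤ (FS k cl Q P (L j) (Tt v0 c T) (me m c) (Zs (L j) η) ρ).ncard := by
  obtain ⟨B', hB1', _, hB3'⟩ := count_ex
    (S := fun q : 𝓞 F × 𝓞 F => Sel 2 (cN q.1 q.2 (me m c * pr (Tt v0 c T)))) Fi
    (fun z => z.2 ≠ 0 ∧ (L j).filter (fun v => ¬ TrN (me m c * pr (Tt v0 c T)) v z.2) ∈
      Zs (L j) η)
    (by rw [hF]; exact hfin)
  rw [hF] at hB3'
  exact ⟨B', fun q hq h => hB1' q hq h, hB3'⟩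

theorem badcount {Q P Q' : Finset (Pl F)} {ρ : InfinitePlace F → ℝ} {Fi : Finset (𝓞 F × 𝓞 F)}
    (hF : (Fi : Set (𝓞 F × 𝓞 F)) = Fam k cl Q P ∩ Bx F ρ) (hfin : (FS k cl Q P Q' ∅ 1 {∅} ρ).Finite) :
    ∃ B : Finset (𝓞 F × 𝓞 F), (∀ q ∈ Fi, (∃ z : Sel 2 (cN q.1 q.2 (1 * pr (F := F) ∅)), z ≠ 0 ∧
      Q'.filter (fun v => ¬ TrN (1 * pr (F := F) ∅) v z) ∈ ({∅} : Finset (Finset (Pl F)))) → q ∈ B) ∧
      B ⊆ Fi ∧ B.card ≤ (FS k cl Q P Q' ∅ 1 {∅} ρ).ncard := by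
  obtain ⟨B, hB1, hB2, hB3⟩ := count_ex
    (S := fun q : 𝓞 F × 𝓞 F => Sel 2 (cN q.1 q.2 (1 * pr (F := F) ∅))) Fi
    (fun z => z.2 ≠ 0 ∧ Q'.filter (fun v => ¬ TrN (1 * pr (F := F) ∅) v z.2) ∈
      ({∅} : Finset (Finset (Pl F)))) (by rw [hF]; exact hfin)
  rw [hF] at hB3
  exact ⟨B, hB1, hB2, hB3⟩

/-- counting one term -/
theorem cntterm (hTRA : SpecTRA) (hk : 0 < k) (h6 : 6 ∣ k) {Q P T : Finset (Pl F)} {e : ℕ} (hA : Act k Q) (hC : Cmp k Q P)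
    (hN : Neu k P e) {ρ : InfinitePlace F → ℝ} {Fi B G : Finset (𝓞 F × 𝓞 F)}
    (hF : (Fi : Set (𝓞 F × 𝓞 F)) = Fam k cl Q P ∩ Bx F ρ) (hG : G = Fi \ B)
    (hB : B ⊆ Fi) (hFm : ∀ q ∈ Fi, q ∈ Fam k cl Q P) (hT : T ⊆ Q) (d : ℕ) :
    |({q ∈ Fam k cl Q P ∩ Bx F ρ | Nat.card (Sel 2 (cN q.1 q.2 (e * pr T))) = 2 ^ d}.ncard : ℝ) -
        ∑ q ∈ G, (if sd q (e * pr T) = d then (1 : ℝ) else 0)| ≤ B.card := by
  have e1 : {q ∈ Fam k cl Q P ∩ Bx F ρ | Nat.card (Sel 2 (cN q.1 q.2 (e * pr T))) = 2 ^ d} =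
      (Fi.filter (fun q => Nat.card (Sel 2 (cN q.1 q.2 (e * pr T))) = 2 ^ d) :
        Set (𝓞 F × 𝓞 F)) := by
    rw [Finset.coe_filter, ← hF]
    rfl
  rw [e1, Set.ncard_coe_finset]
  refine cnt hG hB (fun q => Nat.card (Sel 2 (cN q.1 q.2 (e * pr T))) = 2 ^ d)
    (fun q => sd q (e * pr T)) fun q hq => ?_
  have hqF : q ∈ Fi := by
    rw [hG] at hq
    exact (Finset.mem_sdiff.1 hq).1
  rw [sel_card hTRA hk h6 hA hC hN (hFm q hqF) hT]
  exact ⟨fun h => pow_inj h, fun h => by rw [h]⟩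

theorem partB {m C c η N W f : ℝ} (hC : 1 ≤ C) (hc : 0 < c) (hη : 0 < η) (hη1 : η ≤ 1)
    {n k : ℕ} (hN : N = k) (h : m ≤ C * (1 / 2 ^ k) * W) (hW : 0 < W) (hf : c * W ≤ f)
    (h2 : 2 * C * C ^ n / (c * η ^ 2) ≤ η * N) : m ≤ η / 2 * f := by
  have h3 : N ≤ 2 ^ k := by
    rw [hN]
    exact_mod_cast (Nat.lt_two_pow_self (n := k)).le
  have h4 : (1 : ℝ) ≤ C ^ n := one_le_pow₀ hC
  have h5 : (0 : ℝ) < 2 ^ k := by positivity
  have h6 : C / 2 ^ k ≤ η / 2 * c := num_ngd (by linarith) hc hη hη1 h4 h3 h5 h2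
  calc m ≤ C * (1 / 2 ^ k) * W := h
    _ = C / 2 ^ k * W := by ring
    _ ≤ η / 2 * c * W := by gcongr
    _ = η / 2 * (c * W) := by ring
    _ ≤ η / 2 * f := by gcongr

theorem partU {m C c η N W g x z : ℝ} {t n k : ℕ} (hC : 1 ≤ C) (hc : 0 < c) (hη : 0 < η)
    (hN : 0 < N) (hx : 0 ≤ x) (ht : t ≤ n) (hW : 0 < W) (hg : c * W ≤ 2 * g)
    (h : m ≤ C ^ (t + 1) * x * (z / 2 ^ k) * W) (h2 : z / 2 ^ k ≤ 1 / (η ^ 2 * N))
    (h3 : 2 * C * C ^ n / (c * η ^ 2) * x ≤ η * N) : m ≤ η * g := by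
  have h4 : C ^ (t + 1) ≤ C * C ^ n := by
    rw [← pow_succ']
    exact pow_le_pow_right₀ hC (by omega)
  have h5 : C * C ^ n * x * (1 / (η ^ 2 * N)) ≤ η / 2 * c := num_unb hc hη hN h3
  have hC0 : 0 ≤ C := by linarith
  calc m ≤ C ^ (t + 1) * x * (z / 2 ^ k) * W := h
    _ ≤ C ^ (t + 1) * x * (1 / (η ^ 2 * N)) * W := by gcongr
    _ ≤ C * C ^ n * x * (1 / (η ^ 2 * N)) * W := by gcongr
    _ ≤ η / 2 * c * W := by gcongr
    _ = η / 2 * (c * W) := by ring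
    _ ≤ η / 2 * (2 * g) := by gcongr
    _ = η * g := by ring

/-- everything for one `ρ` -/
theorem fixed (hTRA : SpecTRA) (hk : 0 < k) (h6 : 6 ∣ k) (hSTP : SpecSTP) (hSGL : SpecSGL) (hCHB : SpecCHB)
    (hTSF : SpecTSF) (hLAW : PR.SpecLAW) {P0 : ℕ} {δ : ℝ} {n m : ℕ} {v0 : Pl F}
    {L : ℕ → Finset (Pl F)} {P : Finset (Pl F)} (hL : Lay k P0 δ n m v0 L P) (hn1 : 1 ≤ n)
    (hCm : Cmp k (insert v0 (Un L n)) P) (hN : Neu k P m) (hN1 : Neu k P 1)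
    {C c η ε W : ℝ} {ρ : InfinitePlace F → ℝ} (hC : 1 ≤ C) (hc : 0 < c) (hη0 : 0 < η)
    (hη1 : η ≤ 1) (hηε : η * (8 * (n + 1)) ≤ ε)
    (hn : (1 / 2 : ℝ) ^ n * (2 * (3 / 2 * (1 + 2 * C / c) + 3)) ≤ ε / 4)
    (hLA : ∀ j < n, ∀ T ∈ Ts L j, ∀ c' : Bool,
      2 * C * C ^ n / (c * η ^ 2) * (tw m v0 c' T : ℝ) ^ (5 * Module.finrank ℚ F) ≤
        η * (L j).card)
    (hfin : (Fam k cl (insert v0 (Un L n)) P ∩ Bx F ρ).Finite) (hW : 0 < W)
    (hE0 : c * W ≤ (Fam k cl (insert v0 (Un L n)) P ∩ Bx F ρ).ncard)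
    (hE1 : (FS k cl (insert v0 (Un L n)) P (L 0) ∅ 1 {∅} ρ).Finite ∧
      ((FS k cl (insert v0 (Un L n)) P (L 0) ∅ 1 {∅} ρ).ncard : ℝ) ≤
        C * (1 / 2 ^ (L 0).card) * W)
    (hE2 : (FS k cl (insert v0 (Un L n)) P ∅ ∅ 1 {∅} ρ).Finite ∧
      ((FS k cl (insert v0 (Un L n)) P ∅ ∅ 1 {∅} ρ).ncard : ℝ) ≤ C * W)
    (hE3 : ∀ j < n, ∀ T ∈ Ts L j, ∀ c' : Bool,
      (FS k cl (insert v0 (Un L n)) P (L j) (Tt v0 c' T) (me m c') (Zs (L j) η) ρ).Finite ∧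
      ((FS k cl (insert v0 (Un L n)) P (L j) (Tt v0 c' T) (me m c') (Zs (L j) η) ρ).ncard : ℝ) ≤
        C ^ ((Tt v0 c' T).card + 1) * (tw m v0 c' T : ℝ) ^ (5 * Module.finrank ℚ F) *
          ((Zs (L j) η).card / 2 ^ (L j).card) * W)
    (d : ℕ) :
    |∑ T ∈ Ts L n, ∑ c' : Bool, ({q ∈ Fam k cl (insert v0 (Un L n)) P ∩ Bx F ρ |
          Nat.card (Sel 2 (cN q.1 q.2 (tw m v0 c' T))) = 2 ^ d}.ncard : ℝ) -
        PR.law d * (2 * (Ts L n).card * (Fam k cl (insert v0 (Un L n)) P ∩ Bx F ρ).ncard)| ≤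
      ε * (2 * (Ts L n).card * (Fam k cl (insert v0 (Un L n)) P ∩ Bx F ρ).ncard) := by
  obtain ⟨Fi, hF⟩ : ∃ Fi : Finset (𝓞 F × 𝓞 F),
      (Fi : Set (𝓞 F × 𝓞 F)) = Fam k cl (insert v0 (Un L n)) P ∩ Bx F ρ :=
    ⟨hfin.toFinset, hfin.coe_toFinset⟩
  have hFm : ∀ q ∈ Fi, q ∈ Fam k cl (insert v0 (Un L n)) P := fun q hq => by
    have : q ∈ (Fi : Set (𝓞 F × 𝓞 F)) := hq
    rw [hF] at this
    exact this.1
  have hcardF : ((Fam k cl (insert v0 (Un L n)) P ∩ Bx F ρ).ncard : ℝ) = Fi.card := by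
    rw [← hF, Set.ncard_coe_finset]
  have hFW : c * W ≤ Fi.card := by rw [← hcardF]; exact hE0
  have hLQ : ∀ j < n, L j ⊆ insert v0 (Un L n) := fun j hj => by
    unfold Un
    exact (Finset.subset_biUnion_of_mem L (Finset.mem_range.2 hj)).trans
      (Finset.subset_insert _ _)
  have hv0Q : v0 ∈ insert v0 (Un L n) := Finset.mem_insert_self _ _
  have hC0 : 0 < C := by linarith
  -- the members which are not good
  obtain ⟨B, hB1, hB2, hB3⟩ := badcount hF hE1.1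
  have hB4 : (B.card : ℝ) ≤ η / 2 * Fi.card := by
    have h2 := hLA 0 (by omega) ∅ (Finset.mem_singleton_self ∅) true
    have h3 : (1 : ℝ) ≤ (tw m v0 true ∅ : ℝ) := by
      rw [tw_eq]
      unfold me Tt
      simp only [if_true, pr_empty, mul_one]
      exact_mod_cast hL.sys.mpr.one_lt.le
    have h4 : 2 * C * C ^ n / (c * η ^ 2) ≤ 2 * C * C ^ n / (c * η ^ 2) *
        (tw m v0 true ∅ : ℝ) ^ (5 * Module.finrank ℚ F) := by
      have h5 : (1 : ℝ) ≤ (tw m v0 true ∅ : ℝ) ^ (5 * Module.finrank ℚ F) := one_le_pow₀ h3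
      have h6 : 0 ≤ 2 * C * C ^ n / (c * η ^ 2) := by positivity
      nlinarith
    exact partB (n := n) hC hc hη0 hη1 rfl (le_trans (by exact_mod_cast hB3) hE1.2) hW hFW
      (h4.trans h2)
  -- the good ones
  obtain ⟨G, hG⟩ : ∃ G : Finset (𝓞 F × 𝓞 F), G = Fi \ B := ⟨_, rfl⟩
  have hGF : G ⊆ Fi := hG ▸ Finset.sdiff_subset
  have hGc : (G.card : ℝ) = Fi.card - B.card := by
    rw [hG, Finset.card_sdiff_of_subset hB2, Nat.cast_sub (Finset.card_le_card hB2)]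
  have hFpos : (0 : ℝ) < Fi.card := lt_of_lt_of_le (by positivity) hFW
  have hGhalf : (Fi.card : ℝ) ≤ 2 * G.card := by
    rw [hGc]
    nlinarith
  have hGpos : (0 : ℝ) < G.card := by linarith
  have hgood : ∀ q ∈ G, ∀ z : Sel 2 (cN q.1 q.2 1),
      (∀ v ∈ insert v0 (Un L n), TrN 1 v z) → z = 0 := by
    intro q hq
    rw [hG, Finset.mem_sdiff] at hq
    refine good_tr (Q' := L 0) (hLQ 0 (by omega)) fun hex => hq.2 (hB1 q hq.1 hex)
  have hNe : ∀ c, Neu k P (me m c) := fun c => by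
    unfold me
    cases c
    · simpa using hN1
    · simpa using hN
  have hb : ((FS k cl (insert v0 (Un L n)) P ∅ ∅ 1 {∅} ρ).ncard : ℝ) ≤ 2 * C / c * G.card :=
    hE2.2.trans (num_mom hC0 hc (hFW.trans hGhalf))
  have hav := mainav hTRA hk h6 hSTP hSGL hTSF hLAW hL hCm hN hN1 (by exact_mod_cast hGpos)
    (fun q hq => hFm q (hGF hq)) hgood (C1 := 2 * C / c) hη0.le
    (moment hTRA hk h6 hL.sys.act hCm hN1 hF hGF hE2.1 hb)
    (by
      intro j hj T hT c'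
      have hTs := hTSF.sub hL.lay j hj.le T hT
      obtain ⟨hE4, hE5⟩ := hE3 j hj T hT c'
      obtain ⟨B', hB1', hB3'⟩ := unbcount hF hE4
      refine ⟨B', fun q hq h => hB1' q (hGF hq) h, ?_⟩
      have hN : (0 : ℝ) < (L j).card := by exact_mod_cast (hL.lay.ne j hj).card_pos
      have hcard : (Tt v0 c' T).card ≤ n := by
        have h1 : (Tt v0 c' T).card ≤ T.card + 1 := by
          unfold Tt
          cases c'
          · simp only [Bool.false_eq_true, if_false]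
            exact Finset.card_insert_le _ _
          · simp
        rw [hTs.2.1] at h1
        omega
      exact partU (n := n) hC hc hη0 hN (by positivity) hcard hW
        (hFW.trans hGhalf) (le_trans (by exact_mod_cast hB3') hE5)
        (hCHB (Pl F) (L j) η hη0 (hL.lay.ne j hj)) (hLA j hj T hT c'))
    d
  have hl0 : 0 ≤ PR.law d := by rw [hLAW]; exact (PR.MKM.C2_pos d).le
  have hl1 : PR.law d ≤ 1 := by
    rw [hLAW]
    exact le_hasSum PR.C2_sum d fun k _ => (PR.MKM.C2_pos k).le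
  rw [hcardF]
  have hdiff := sum_diff (Ts L n) (fun T c' => ({q ∈ Fam k cl (insert v0 (Un L n)) P ∩ Bx F ρ |
          Nat.card (Sel 2 (cN q.1 q.2 (tw m v0 c' T))) = 2 ^ d}.ncard : ℝ))
    (fun T c' => ∑ q ∈ G, (if sd q (me m c' * pr (Tt v0 c' T)) = d then (1 : ℝ) else 0)) B.card
    (fun T hT c' => cntterm hTRA hk h6 hL.sys.act hCm (hNe c') hF hG hB2 hFm
      (Tt_sub ((hTSF.sub hL.lay n le_rfl T hT).1.trans (Finset.subset_insert _ _)) hv0Q) d)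
  have hfinal : η + (n * (4 * η) + (1 / 2) ^ n * (2 * (3 / 2 * (1 + 2 * C / c) + 3))) ≤ ε := by
    have h1 : (n : ℝ) * (4 * η) + η ≤ ε / 2 := by nlinarith
    have hε : 0 ≤ ε := le_trans (by positivity) hηε
    linarith
  exact num_fin (Nat.cast_nonneg _) (Nat.cast_nonneg _) (Nat.cast_nonneg _) hl0 hl1 hdiff hav
    hGc hB4 (by positivity) hfinal

end POPM

open POPM

/-- POP -/
theorem specPOP (hTRA : SpecTRA) (hSTP : SpecSTP) (hFMQ : SpecFMQ) (hDEN : SpecDEN)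
    (hSGL : SpecSGL) (hCHB : SpecCHB) (hTSF : SpecTSF) (hLYR : SpecLYR) (hSYS : SpecSYS)
    (hLAW : PR.SpecLAW) : SpecPOP := by
  intro F _ _ k cl ε hk h6k hε
  obtain ⟨C, P0, hC, hFM⟩ := hFMQ F k cl hk h6k
  obtain ⟨c, hc, hlow⟩ := hDEN.low F k hk h6k
  have hHfin := hDEN.fin F
  have hC0 : 0 < C := by linarith
  -- the number of layers
  obtain ⟨n, hn1, hn⟩ : ∃ n : ℕ, 1 ≤ n ∧
      (1 / 2 : ℝ) ^ n * (2 * (3 / 2 * (1 + 2 * C / c) + 3)) ≤ ε / 4 := by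
    have hK : 0 < 2 * (3 / 2 * (1 + 2 * C / c) + 3) := by positivity
    obtain ⟨k, hk⟩ := exists_pow_lt_of_lt_one
      (show 0 < ε / 4 / (2 * (3 / 2 * (1 + 2 * C / c) + 3)) by positivity)
      (show (1 / 2 : ℝ) < 1 by norm_num)
    refine ⟨k + 1, by omega, ?_⟩
    rw [lt_div_iff₀ hK] at hk
    have h1 : (1 / 2 : ℝ) ^ (k + 1) ≤ (1 / 2) ^ k :=
      pow_le_pow_of_le_one (by norm_num) (by norm_num) (by omega)
    nlinarith
  refine ⟨n, fun δ hδ => ?_⟩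
  obtain ⟨η, hη0, hη1, hηε⟩ : ∃ η : ℝ, 0 < η ∧ η ≤ 1 ∧ η * (8 * (n + 1)) ≤ ε := by
    refine ⟨min 1 (ε / (8 * (n + 1))), by positivity, min_le_left _ _, ?_⟩
    have h1 : min 1 (ε / (8 * ((n : ℝ) + 1))) ≤ ε / (8 * (n + 1)) := min_le_right _ _
    have h2 : (0 : ℝ) < 8 * (n + 1) := by positivity
    rwa [le_div_iff₀ h2] at h1
  obtain ⟨m, v0, L, P, hL, hLA⟩ := hLYR F k (max P0 3) n δ (2 * C * C ^ n / (c * η ^ 2)) η hk hδ
    hη0
    (by positivity)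
  have hsys := hL.sys
  have hsys3 : Sys k 3 (insert v0 (Un L n)) P m := ⟨hsys.act,
    fun v hv => (le_max_right _ _).trans_lt (hsys.big v hv), hsys.mpr, hsys.mmod,
    (le_max_right _ _).trans_lt hsys.mbig, hsys.mne, hsys.mem, hsys.sum⟩
  have hsysP : Sys k P0 (insert v0 (Un L n)) P m := ⟨hsys.act,
    fun v hv => (le_max_left _ _).trans_lt (hsys.big v hv), hsys.mpr, hsys.mmod,
    (le_max_left _ _).trans_lt hsys.mbig, hsys.mne, hsys.mem, hsys.sum⟩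
  refine ⟨m, v0, L, P, ⟨hsys3, hL.v0n, hL.lay, hL.sh0⟩, ?_⟩
  obtain ⟨hCm, hN, hN1, hkn, h17, _, _⟩ := hSYS F k P0 _ P m hk h6k hsysP
  have hLQ : ∀ j < n, L j ⊆ insert v0 (Un L n) := fun j hj => by
    unfold Un
    exact (Finset.subset_biUnion_of_mem L (Finset.mem_range.2 hj)).trans
      (Finset.subset_insert _ _)
  have hv0Q : v0 ∈ insert v0 (Un L n) := Finset.mem_insert_self _ _
  have hdQ : 0 < ∏ v ∈ insert v0 (Un L n), dQ v := Finset.prod_pos fun v hv => by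
    unfold dQ
    have h1 : (17 : ℝ) ≤ nv v := by exact_mod_cast (h17 v (Finset.mem_union_left _ hv)).1
    have h2 : 1 / (nv v : ℝ) < 1 := by rw [div_lt_one (by linarith)]; linarith
    linarith
  have hdP : 0 < ∏ v ∈ P, dP v := Finset.prod_pos fun v hv => by
    unfold dP
    have h1 : (1 : ℝ) < nv v := by
      have h0 : nv v ≠ 0 := fun h => v.ne_bot (Ideal.absNorm_eq_zero_iff.1 h)
      have h1 : nv v ≠ 1 := fun h => v.isPrime.ne_top (Ideal.absNorm_eq_one_iff.1 h)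
      have : 1 < nv v := by omega
      exact_mod_cast this
    have h2 : 1 / (nv v : ℝ) ^ 2 < 1 := by
      rw [div_lt_one (by positivity)]
      nlinarith
    linarith
  -- the constants
  obtain ⟨R1, hR1⟩ := hlow cl (insert v0 (Un L n)) P hkn hCm.dis
  have hFM' : ∀ (Q' T : Finset (Pl F)) (e : ℕ) (Z : Finset (Finset (Pl F))),
      (e = 1 ∨ e = m) → T ⊆ insert v0 (Un L n) → Q' ⊆ insert v0 (Un L n) → Disjoint Q' T →
      (∀ z ∈ Z, z ⊆ Q') → ∃ R0 : ℝ, ∀ ρ : InfinitePlace F → ℝ, (∀ v, R0 ≤ ρ v) →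
      (FS k cl (insert v0 (Un L n)) P Q' T e Z ρ).Finite ∧
      ((FS k cl (insert v0 (Un L n)) P Q' T e Z ρ).ncard : ℝ) ≤
        C ^ (T.card + 1) * ((e * pr T : ℕ) : ℝ) ^ (5 * Module.finrank ℚ F) *
          ((Z.card : ℝ) / 2 ^ Q'.card) * (∏ v ∈ insert v0 (Un L n), dQ v) *
            (∏ v ∈ P, dP v) * vol ρ ^ 5 :=
    fun Q' T e Z he hT hQ' hd hZ => hFM _ P Q' T m e Z hsysP he hT hQ' hd hZ
  obtain ⟨R2, hR2⟩ := hFM' (L 0) ∅ 1 {∅} (Or.inl rfl) (Finset.empty_subset _)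
    (hLQ 0 (by omega)) (Finset.disjoint_empty_right _) (by simp)
  obtain ⟨R3, hR3⟩ := hFM' ∅ ∅ 1 {∅} (Or.inl rfl) (Finset.empty_subset _)
    (Finset.empty_subset _) (Finset.disjoint_empty_right _) (by simp)
  have ev3 : ∀ᶠ R : ℝ in atTop, ∀ j ∈ Finset.range n, ∀ T ∈ Ts L j,
      ∀ c' ∈ (Finset.univ : Finset Bool), ∀ ρ : InfinitePlace F → ℝ, (∀ v, R ≤ ρ v) →
      (FS k cl (insert v0 (Un L n)) P (L j) (Tt v0 c' T) (me m c') (Zs (L j) η) ρ).Finite ∧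
      ((FS k cl (insert v0 (Un L n)) P (L j) (Tt v0 c' T) (me m c') (Zs (L j) η) ρ).ncard : ℝ) ≤
        C ^ ((Tt v0 c' T).card + 1) *
          ((me m c' * pr (Tt v0 c' T) : ℕ) : ℝ) ^ (5 * Module.finrank ℚ F) *
          (((Zs (L j) η).card : ℝ) / 2 ^ (L j).card) * (∏ v ∈ insert v0 (Un L n), dQ v) *
            (∏ v ∈ P, dP v) * vol ρ ^ 5 := by
    rw [Filter.eventually_all_finset]
    intro j hj
    rw [Filter.eventually_all_finset]
    intro T hT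
    rw [Filter.eventually_all_finset]
    intro c' _
    have hj' := Finset.mem_range.1 hj
    have hTs := hTSF.sub hL.lay j hj'.le T hT
    have hdis : Disjoint (L j) (Tt v0 c' T) := by
      have h1 := hTs.2.2.2 j le_rfl hj'
      have h2 : v0 ∉ L j := fun h => hL.v0n (by
        unfold Un
        exact Finset.mem_biUnion.2 ⟨j, Finset.mem_range.2 hj', h⟩)
      unfold Tt
      cases c'
      · simp only [Bool.false_eq_true, if_false]
        exact Finset.disjoint_insert_right.2 ⟨h2, h1⟩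
      · simpa using h1
    obtain ⟨R, hR⟩ := hFM' (L j) (Tt v0 c' T) (me m c') (Zs (L j) η)
      (by unfold me; cases c' <;> simp)
      (Tt_sub (hTs.2.2.1.trans (Finset.subset_insert _ _)) hv0Q) (hLQ j hj') hdis (by
        intro z hz
        unfold Zs at hz
        exact Finset.mem_powerset.1 (Finset.mem_filter.1 hz).1)
    exact eventually_atTop.2 ⟨R, fun R' hR' ρ hρ => hR ρ fun v => hR'.trans (hρ v)⟩
  obtain ⟨R4, hR4⟩ := eventually_atTop.1 ev3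
  refine ⟨max 1 (max R1 (max R2 (max R3 R4))), fun ρ hρ d => ?_⟩
  have hρ0 : ∀ v, 1 ≤ ρ v := fun v => (le_max_left _ _).trans (hρ v)
  have hρ1 : ∀ v, R1 ≤ ρ v := fun v =>
    (le_max_left _ _).trans ((le_max_right _ _).trans (hρ v))
  have hρ2 : ∀ v, R2 ≤ ρ v := fun v =>
    (le_max_left _ _).trans ((le_max_right _ _).trans ((le_max_right _ _).trans (hρ v)))
  have hρ3 : ∀ v, R3 ≤ ρ v := fun v => (le_max_left _ _).trans ((le_max_right _ _).trans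
    ((le_max_right _ _).trans ((le_max_right _ _).trans (hρ v))))
  have hρ4 : ∀ v, R4 ≤ ρ v := fun v => (le_max_right _ _).trans ((le_max_right _ _).trans
    ((le_max_right _ _).trans ((le_max_right _ _).trans (hρ v))))
  have hvol : 0 < vol ρ := by
    unfold vol
    exact Finset.prod_pos fun v _ => by
      have := hρ0 v
      positivity
  have hE0 := hR1 ρ hρ1
  have hE1 := hR2 ρ hρ2
  have hE2 := hR3 ρ hρ3
  refine fixed hTRA hk h6k hSTP hSGL hCHB hTSF hLAW hL hn1 hCm hN hN1 hC hc hη0 hη1 hηε hn hLA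
    ((hHfin ρ).inter_of_right _)
    (W := (∏ v ∈ insert v0 (Un L n), dQ v) * (∏ v ∈ P, dP v) * vol ρ ^ 5)
    (by positivity) ?_ ?_ ?_ ?_ d
  · rw [← mul_assoc, ← mul_assoc]
    exact hE0
  · refine ⟨hE1.1, hE1.2.trans_eq ?_⟩
    rw [pr_empty, Finset.card_empty, Finset.card_singleton]
    push_cast
    ring
  · refine ⟨hE2.1, hE2.2.trans_eq ?_⟩
    rw [pr_empty, Finset.card_empty, Finset.card_singleton]
    push_cast
    ring
  · intro j hj T hT c'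
    obtain ⟨h1, h2⟩ := hR4 R4 le_rfl j (Finset.mem_range.2 hj) T hT c' (Finset.mem_univ _) ρ hρ4
    rw [← mul_assoc, ← mul_assoc, tw_eq]
    exact ⟨h1, h2⟩

end Pool.Agent.Lib.MP_8cb858_nt.PF
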