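import Pool.Agent.Lib.MP_8cb858_nt.PF.Top
import Pool.Agent.Lib.MP_5b6025_nt.RP.FieldSum

/-!
# Module PRM: many primes `1` mod `8k` with an unramified place of degree one in short intervals
-/

namespace Pool.Agent.Lib.MP_8cb858_nt.PF

open NumberField IsDedekindDomain
open scoped Classical

namespace PRMM

variable (F : Type) [Field F] [NumberField F] (k : ℕ)

/-- the good primes -/
def PS : Set ℕ := {p | p.Prime ∧ p % (8 * k) = 1 ∧
  ∃ v : HeightOneSpectrum (𝓞 F), nv v = p ∧ (p : 𝓞 F) ∉ v.asIdeal ^ 2}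

/-- the weight -/
noncomputable def wt (n : ℕ) : ℝ := if n ∈ PS F k then Real.log n / n else 0

/-- the place below an ideal of prime norm -/
theorem below {K : Type} [Field K] [NumberField K] [Algebra F K] {I : Ideal (𝓞 K)} {p : ℕ}
    (hp : p.Prime) (hI : Ideal.absNorm I = p) (hd : (discr F).natAbs < p) :
    ∃ v : HeightOneSpectrum (𝓞 F), nv v = p ∧ (p : 𝓞 F) ∉ v.asIdeal ^ 2 := by
  have hpr : I.IsPrime := Ideal.isPrime_of_irreducible_absNorm (by rw [hI]; exact hp)
  have hmem : (p : 𝓞 K) ∈ I := by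
    rw [← hI]
    exact Ideal.absNorm_mem I
  have hpv : (p : 𝓞 F) ∈ I.comap (algebraMap (𝓞 F) (𝓞 K)) := by
    rw [Ideal.mem_comap, map_natCast]
    exact hmem
  have hne : I.comap (algebraMap (𝓞 F) (𝓞 K)) ≠ ⊥ := by
    intro h
    rw [h, Ideal.mem_bot] at hpv
    exact hp.ne_zero (by exact_mod_cast hpv)
  have hprv : (I.comap (algebraMap (𝓞 F) (𝓞 K))).IsPrime := Ideal.IsPrime.comap _
  have hnv : Ideal.absNorm (I.comap (algebraMap (𝓞 F) (𝓞 K))) = p := by
    have h1 : Nat.card (𝓞 F ⧸ I.comap (algebraMap (𝓞 F) (𝓞 K))) ∣ Nat.card (𝓞 K ⧸ I) :=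
      AddSubgroup.card_dvd_of_injective
        (Ideal.quotientMap I (algebraMap (𝓞 F) (𝓞 K)) le_rfl).toAddMonoidHom
        (Ideal.quotientMap_injective)
    have h2 : Ideal.absNorm (I.comap (algebraMap (𝓞 F) (𝓞 K))) ∣ Ideal.absNorm I := h1
    rw [hI] at h2
    rcases (Nat.dvd_prime hp).1 h2 with h3 | h3
    · exact absurd (Ideal.absNorm_eq_one_iff.1 h3) hprv.ne_top
    · exact h3
  refine ⟨⟨_, hprv, hne⟩, hnv, fun h => ?_⟩
  have hmax : (Ideal.span {(p : ℤ)}).IsMaximal :=
    PrincipalIdealRing.isMaximal_of_irreducible (Nat.prime_iff_prime_int.1 hp).irreducible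
  have h1 : (I.comap (algebraMap (𝓞 F) (𝓞 K))) ^ 2 ∣
      (Ideal.span {(p : ℤ)}).map (algebraMap ℤ (𝓞 F)) := by
    rw [Ideal.dvd_iff_le, Ideal.map_span, Set.image_singleton, Ideal.span_singleton_le_iff_mem]
    simpa using h
  have h2 := pow_sub_one_dvd_differentIdeal ℤ (I.comap (algebraMap (𝓞 F) (𝓞 K))) 2
    (by rw [Ne, Ideal.span_singleton_eq_bot]; exact_mod_cast hp.ne_zero) h1
  rw [show 2 - 1 = 1 from rfl, pow_one] at h2
  have h3 := Ideal.absNorm_dvd_absNorm_of_le (Ideal.dvd_iff_le.1 h2)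
  rw [hnv, absNorm_differentIdeal F] at h3
  have h4 := Nat.le_of_dvd (Int.natAbs_pos.2 (discr_ne_zero F)) h3
  omega

variable {F k}

/-- the prime is `1` modulo the order of a root of unity -/
theorem modEq {K : Type} [Field K] [NumberField K] {I : Ideal (𝓞 K)} {p n : ℕ}
    (hp : p.Prime) (hI : Ideal.absNorm I = p) (hn : 1 < n) (hnp : n < p) {ζ : 𝓞 K}
    (hζ : IsPrimitiveRoot ζ n) : p % n = 1 := by
  have hpr : I.IsPrime := Ideal.isPrime_of_irreducible_absNorm (by rw [hI]; exact hp)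
  have hne : I ≠ ⊥ := by
    intro h
    rw [h, Ideal.absNorm_bot] at hI
    exact hp.ne_zero hI.symm
  have hmax : I.IsMaximal := hpr.isMaximal hne
  have : NeZero n := ⟨by omega⟩
  have h1 : IsPrimitiveRoot (Ideal.Quotient.mk I ζ) n := hζ.idealQuotient_mk
    (by rw [hI]; exact hp.one_lt.ne')
    (by
      rw [hI]
      exact (Nat.Prime.coprime_iff_not_dvd hp).2 (Nat.not_dvd_of_pos_of_lt (by omega) hnp))
  let _ := Ideal.Quotient.field I
  have h2 : IsPrimitiveRoot (h1.isUnit (by omega)).unit n := h1.isUnit_unit (by omega)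
  have h3 : n ∣ Nat.card (𝓞 K ⧸ I)ˣ := by
    rw [h2.eq_orderOf]
    exact orderOf_dvd_natCard _
  rw [Nat.card_units] at h3
  have h4 : Nat.card (𝓞 K ⧸ I) = p := hI
  rw [h4] at h3
  obtain ⟨c, hc⟩ := h3
  have h5 : p = 1 + n * c := by
    have := hp.one_lt
    omega
  rw [h5, Nat.add_mul_mod_self_left, Nat.mod_eq_of_lt hn]

variable (F k)

theorem wt_nonneg (n : ℕ) : 0 ≤ wt F k n := by
  unfold wt
  split_ifs
  · exact div_nonneg (Real.log_natCast_nonneg n) (Nat.cast_nonneg n)
  · exact le_rfl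

theorem wt_zero {n : ℕ} (h : n ∉ PS F k) : wt F k n = 0 := if_neg h

theorem wt_le (n : ℕ) : wt F k n ≤ Real.log n / n := by
  unfold wt
  split_ifs
  · exact le_rfl
  · exact div_nonneg (Real.log_natCast_nonneg n) (Nat.cast_nonneg n)

theorem wt_not_summable (hk : 0 < k) : ¬ Summable (wt F k) := by
  intro hs
  have h8 : 0 < 8 * k := by omega
  have : NeZero (8 * k) := ⟨h8.ne'⟩
  have : NeZero ((8 * k : ℕ) : F) := ⟨by exact_mod_cast h8.ne'⟩
  have hζ := (IsCyclotomicExtension.zeta_spec (8 * k) F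
    (CyclotomicField (8 * k) F)).toInteger_isPrimitiveRoot
  obtain ⟨C, hC, hM⟩ := Pool.Agent.Lib.MP5b6025.RP.FieldM.mertens_field
    (CyclotomicField (8 * k) F) (ε := 1 / 2) (by norm_num)
  set d : ℕ := Module.finrank ℤ (𝓞 (CyclotomicField (8 * k) F)) with hd
  set B : ℕ := (discr F).natAbs + 8 * k with hB
  have hcard : ∀ p : ℕ, p.Prime →
      (((Pool.Agent.Lib.MP5b6025.RP.FieldM.ids (CyclotomicField (8 * k) F) p).card : ℕ) : ℝ) ≤ d := by
    intro p hp
    have h1 := Pool.Agent.Lib.MP5b6025.RP.FieldM.gK_le (CyclotomicField (8 * k) F) p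
    rw [Pool.Agent.Lib.MP5b6025.RP.FieldM.gK_prime _ hp,
      ArithmeticFunction.vonMangoldt_apply_prime hp] at h1
    exact le_of_mul_le_mul_right h1 (Real.log_pos (by exact_mod_cast hp.one_lt))
  have hterm : ∀ p : ℕ, p.Prime →
      (((Pool.Agent.Lib.MP5b6025.RP.FieldM.ids (CyclotomicField (8 * k) F) p).card : ℕ) : ℝ) *
        (Real.log p / p) ≤ d * wt F k p + if p ≤ B then (d : ℝ) * (Real.log p / p) else 0 := by
    intro p hp
    have hlog : 0 ≤ Real.log p / p := div_nonneg (Real.log_natCast_nonneg p) (Nat.cast_nonneg p)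
    by_cases hpB : p ≤ B
    · rw [if_pos hpB]
      have h1 := mul_le_mul_of_nonneg_right (hcard p hp) hlog
      have h2 : 0 ≤ (d : ℝ) * wt F k p := mul_nonneg (Nat.cast_nonneg d) (wt_nonneg F k p)
      linarith
    · rw [if_neg hpB, add_zero]
      rcases (Pool.Agent.Lib.MP5b6025.RP.FieldM.ids (CyclotomicField (8 * k) F) p).eq_empty_or_nonempty
        with he | ⟨I, hI⟩
      · rw [he, Finset.card_empty, Nat.cast_zero, zero_mul]
        exact mul_nonneg (Nat.cast_nonneg d) (wt_nonneg F k p)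
      · rw [Pool.Agent.Lib.MP5b6025.RP.FieldM.mem_ids] at hI
        have h1 : p ∈ PS F k := ⟨hp, modEq hp hI (by omega) (by omega) hζ,
          below F hp hI (by omega)⟩
        have h2 : wt F k p = Real.log p / p := if_pos h1
        rw [h2]
        exact mul_le_mul_of_nonneg_right (hcard p hp) hlog
  set A : ℝ := d * ∑' n, wt F k n + ∑ p ∈ Finset.range (B + 1), (d : ℝ) * (Real.log p / p) with hA
  have hbound : ∀ N : ℕ, 1 ≤ N → Real.log N ≤ 2 * (A + C) := by
    intro N hN
    have h1 := hM N hN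
    have h2 : ∑ p ∈ (Finset.Ioc 0 N).filter Nat.Prime,
        (((Pool.Agent.Lib.MP5b6025.RP.FieldM.ids (CyclotomicField (8 * k) F) p).card : ℕ) : ℝ) *
        (Real.log p / p) ≤ A := by
      calc _ ≤ ∑ p ∈ (Finset.Ioc 0 N).filter Nat.Prime,
            (d * wt F k p + if p ≤ B then (d : ℝ) * (Real.log p / p) else 0) :=
            Finset.sum_le_sum fun p hp => hterm p (Finset.mem_filter.1 hp).2
        _ = d * ∑ p ∈ (Finset.Ioc 0 N).filter Nat.Prime, wt F k p +
            ∑ p ∈ (Finset.Ioc 0 N).filter Nat.Prime,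
              (if p ≤ B then (d : ℝ) * (Real.log p / p) else 0) := by
            rw [Finset.sum_add_distrib, Finset.mul_sum]
        _ ≤ A := by
            rw [hA]
            refine add_le_add (mul_le_mul_of_nonneg_left
              (hs.sum_le_tsum _ fun n _ => wt_nonneg F k n) (Nat.cast_nonneg d)) ?_
            rw [← Finset.sum_filter]
            refine Finset.sum_le_sum_of_subset_of_nonneg ?_ ?_
            · intro p hp
              rw [Finset.mem_filter] at hp
              exact Finset.mem_range.2 (by omega)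
            · intro p _ _
              exact mul_nonneg (Nat.cast_nonneg d)
                (div_nonneg (Real.log_natCast_nonneg p) (Nat.cast_nonneg p))
    rw [abs_le] at h1
    linarith [h1.1]
  have htop := Filter.Tendsto.comp Real.tendsto_log_atTop (tendsto_natCast_atTop_atTop (R := ℝ))
  obtain ⟨N, hN⟩ := (htop.eventually (Filter.eventually_gt_atTop (2 * (A + C)))).exists_forall_of_atTop
  have h1 := hN (max N 1) (le_max_left _ _)
  have h2 := hbound (max N 1) (le_max_right _ _)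
  simp only [Function.comp_apply] at h1
  linarith

theorem summable_b {L : ℝ} (hL : 1 < L) :
    Summable (fun k : ℕ => ((k : ℝ) + 1) * Real.log L * (L⁻¹) ^ k) := by
  have h0 : ‖L⁻¹‖ < 1 := by
    rw [Real.norm_of_nonneg (inv_nonneg.mpr (by linarith))]
    exact inv_lt_one_of_one_lt₀ hL
  have h1 := summable_pow_mul_geometric_of_norm_lt_one 1 h0
  have h2 := summable_geometric_of_norm_lt_one h0
  have h3 := (h1.add h2).mul_left (Real.log L)
  refine h3.congr (fun k => ?_)
  rw [pow_one]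
  ring

theorem block {L : ℝ} (hL : 1 < L) {n j : ℕ} (h1 : L ^ j ≤ n) (h2 : (n : ℝ) < L ^ (j + 1)) :
    wt F k n ≤ ((j : ℝ) + 1) * Real.log L * (L⁻¹) ^ j := by
  have h0 : 0 < L ^ j := pow_pos (by linarith) j
  have hn : 0 < (n : ℝ) := lt_of_lt_of_le h0 h1
  refine (wt_le F k n).trans ?_
  have h3 : Real.log n ≤ ((j : ℝ) + 1) * Real.log L := by
    have h4 := Real.log_le_log hn h2.le
    rw [Real.log_pow] at h4
    push_cast at h4
    exact h4
  have h5 : 0 ≤ ((j : ℝ) + 1) * Real.log L :=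
    mul_nonneg (by positivity) (Real.log_nonneg hL.le)
  rw [inv_pow, ← div_eq_mul_inv]
  exact div_le_div₀ h5 h3 h0 h1

/-- if every window contains less than `N` elements the weights are summable -/
theorem summable_of_few {L : ℝ} (hL : 1 < L) (N : ℕ) (P : ℝ) (hP : 1 ≤ P)
    (h : ∀ y : ℝ, P ≤ y → ∀ Q : Finset ℕ, (∀ p ∈ Q, p ∈ PS F k ∧ y ≤ p ∧ (p : ℝ) ≤ L * y) →
      Q.card < N) :
    Summable (wt F k) := by
  have hex : ∀ n : ℕ, 1 ≤ n → ∃ j : ℕ, L ^ j ≤ n ∧ (n : ℝ) < L ^ (j + 1) := by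
    intro n hn
    exact exists_nat_pow_near (by exact_mod_cast hn) hL
  choose! κ hκ1 hκ2 using hex
  set b : ℕ → ℝ := fun j => ((j : ℝ) + 1) * Real.log L * (L⁻¹) ^ j with hb
  have hbs : Summable b := summable_b hL
  have hb0 : ∀ j, 0 ≤ b j := by
    intro j
    refine mul_nonneg (mul_nonneg (by positivity) (Real.log_nonneg hL.le)) ?_
    exact pow_nonneg (inv_nonneg.mpr (by linarith)) j
  obtain ⟨M, hM⟩ := exists_nat_gt (L * P)
  have hM1 : 1 ≤ M := by
    have h1 : (1 : ℝ) < M := lt_of_le_of_lt (by nlinarith) hM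
    exact_mod_cast h1.le
  refine summable_of_sum_le (wt_nonneg F k)
    (c := ∑ n ∈ Finset.range M, wt F k n + N * ∑' j, b j) ?_
  intro s
  have hsplit : ∑ n ∈ s, wt F k n ≤ ∑ n ∈ Finset.range M, wt F k n +
      ∑ n ∈ s.filter (fun n => n ∈ PS F k ∧ M ≤ n), wt F k n := by
    have h1 : ∑ n ∈ s, wt F k n = ∑ n ∈ s.filter (fun n => n ∈ PS F k ∧ M ≤ n), wt F k n +
        ∑ n ∈ s.filter (fun n => ¬ (n ∈ PS F k ∧ M ≤ n)), wt F k n :=
      (Finset.sum_filter_add_sum_filter_not s _ _).symm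
    have h2 : ∑ n ∈ s.filter (fun n => ¬ (n ∈ PS F k ∧ M ≤ n)), wt F k n ≤
        ∑ n ∈ Finset.range M, wt F k n := by
      have h3 : ∑ n ∈ s.filter (fun n => ¬ (n ∈ PS F k ∧ M ≤ n)), wt F k n =
          ∑ n ∈ (s.filter (fun n => ¬ (n ∈ PS F k ∧ M ≤ n))).filter (fun n => n < M),
            wt F k n := by
        symm
        apply Finset.sum_filter_of_ne
        intro n hn hne
        by_contra h4
        push Not at h4
        rw [Finset.mem_filter] at hn
        apply hne
        apply wt_zero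
        intro h5
        exact hn.2 ⟨h5, h4⟩
      rw [h3]
      apply Finset.sum_le_sum_of_subset_of_nonneg
      · intro n hn
        rw [Finset.mem_filter] at hn
        exact Finset.mem_range.mpr hn.2
      · intro n _ _
        exact wt_nonneg F k n
    linarith
  refine hsplit.trans (add_le_add le_rfl ?_)
  set T := s.filter (fun n => n ∈ PS F k ∧ M ≤ n) with hT
  have hfib : ∑ n ∈ T, wt F k n =
      ∑ j ∈ T.image κ, ∑ n ∈ T.filter (fun n => κ n = j), wt F k n :=
    (Finset.sum_fiberwise_of_maps_to (fun n hn => Finset.mem_image_of_mem κ hn) _).symm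
  rw [hfib]
  have hbd : ∀ j ∈ T.image κ, ∑ n ∈ T.filter (fun n => κ n = j), wt F k n ≤ N * b j := by
    intro j hj
    have hmem : ∀ n ∈ T.filter (fun n => κ n = j), n ∈ PS F k ∧ L ^ j ≤ n ∧
        (n : ℝ) < L ^ (j + 1) ∧ L * P < n := by
      intro n hn
      rw [Finset.mem_filter, hT, Finset.mem_filter] at hn
      obtain ⟨⟨-, h1, h2⟩, rfl⟩ := hn
      have h3 : 1 ≤ n := hM1.trans h2
      exact ⟨h1, hκ1 n h3, hκ2 n h3, lt_of_lt_of_le hM (by exact_mod_cast h2)⟩
    have hcard : (T.filter (fun n => κ n = j)).card < N := by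
      apply h (L ^ j)
      · obtain ⟨n, hn, hnk⟩ := Finset.mem_image.mp hj
        obtain ⟨-, -, h3, h4⟩ := hmem n (Finset.mem_filter.mpr ⟨hn, hnk⟩)
        have h5 : L * P < L * L ^ j := by
          rw [← pow_succ']
          exact h4.trans h3
        exact (lt_of_mul_lt_mul_left h5 (by linarith)).le
      · intro p hp
        obtain ⟨h1, h2, h3, -⟩ := hmem p hp
        refine ⟨h1, h2, ?_⟩
        rw [← pow_succ']
        exact h3.le
    calc ∑ n ∈ T.filter (fun n => κ n = j), wt F k n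
        ≤ ∑ n ∈ T.filter (fun n => κ n = j), b j := by
          apply Finset.sum_le_sum
          intro n hn
          obtain ⟨-, h2, h3, -⟩ := hmem n hn
          exact block F k hL h2 h3
      _ = (T.filter (fun n => κ n = j)).card * b j := by rw [Finset.sum_const, nsmul_eq_mul]
      _ ≤ N * b j := mul_le_mul_of_nonneg_right (by exact_mod_cast hcard.le) (hb0 j)
  refine (Finset.sum_le_sum hbd).trans ?_
  rw [← Finset.mul_sum]
  exact mul_le_mul_of_nonneg_left (hbs.sum_le_tsum _ (fun j _ => hb0 j)) (Nat.cast_nonneg N)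

end PRMM

theorem specPRM : SpecPRM := by
  intro F _ _ k δ N P0 hk hδ
  by_contra hcon
  push Not at hcon
  apply PRMM.wt_not_summable F k hk
  refine PRMM.summable_of_few F k (L := 1 + δ) (by linarith) N (max 1 P0) (le_max_left _ _) ?_
  intro y hy Q hQ
  by_contra hlt
  push Not at hlt
  obtain ⟨Q', hQ', hcard⟩ := Finset.exists_subset_card_eq hlt
  obtain ⟨p, hp, hp'⟩ := hcon Q' y hcard ((le_max_right _ _).trans hy)
  obtain ⟨⟨h1, h2, v, h6, h7⟩, h3, h4⟩ := hQ p (hQ' hp)
  exact h7 (hp' h1 h2 h3 h4 v h6)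

end Pool.Agent.Lib.MP_8cb858_nt.PF
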