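import Pool.Agent.Lib.MP_8cb858_nt.PR.SpecC
import Pool.Agent.Lib.MP_8cb858_nt.PF.SpecS

section
/-!
# Module CNT: many elements whose ideals are squares up to the `J k`
-/
namespace Pool.Agent.Lib.MP_8cb858_nt.PR

open Polynomial NumberField IsDedekindDomain Pool.Agent.Lib.MP_8cb858_nt.SEL
open scoped Classical nonZeroDivisors

namespace CNTM

variable {L : Type} [Field L] [NumberField L]

/-- The multiplicity of `w` in `I`. -/
noncomputable def mu (w : HeightOneSpectrum (𝓞 L)) (I : Ideal (𝓞 L)) : ℕ :=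
  (Associates.mk w.asIdeal).count (Associates.mk I).factors

theorem mk_ne {I : Ideal (𝓞 L)} (hI : I ≠ ⊥) : Associates.mk I ≠ 0 :=
  Associates.mk_ne_zero.2 hI

theorem mul_ne {I J : Ideal (𝓞 L)} (hI : I ≠ ⊥) (hJ : J ≠ ⊥) : I * J ≠ ⊥ :=
  mul_ne_zero hI hJ

theorem pow_ne {I : Ideal (𝓞 L)} (hI : I ≠ ⊥) (n : ℕ) : I ^ n ≠ ⊥ :=
  pow_ne_zero n hI

theorem prod_ne {ι : Type} (s : Finset ι) (J : ι → Ideal (𝓞 L)) (hJ : ∀ k, J k ≠ ⊥) :
    ∏ k ∈ s, J k ≠ ⊥ :=
  Finset.prod_ne_zero_iff.2 fun k _ => hJ k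

theorem span_ne {x : 𝓞 L} (hx : x ≠ 0) : Ideal.span {x} ≠ ⊥ := by
  intro h
  exact hx (Ideal.span_singleton_eq_bot.1 h)

theorem mu_mul (w : HeightOneSpectrum (𝓞 L)) {I J : Ideal (𝓞 L)} (hI : I ≠ ⊥) (hJ : J ≠ ⊥) :
    mu w (I * J) = mu w I + mu w J := by
  unfold mu
  rw [← Associates.mk_mul_mk]
  exact Associates.count_mul (mk_ne hI) (mk_ne hJ) w.associates_irreducible

theorem mu_pow (w : HeightOneSpectrum (𝓞 L)) {I : Ideal (𝓞 L)} (hI : I ≠ ⊥) (n : ℕ) :
    mu w (I ^ n) = n * mu w I := by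
  unfold mu
  rw [Associates.mk_pow]
  exact Associates.count_pow (mk_ne hI) w.associates_irreducible n

theorem mu_one (w : HeightOneSpectrum (𝓞 L)) : mu w (1 : Ideal (𝓞 L)) = 0 := by
  unfold mu
  rw [Associates.mk_one, Associates.factors_one]
  exact Associates.count_zero w.associates_irreducible

theorem mu_prod {ι : Type} (w : HeightOneSpectrum (𝓞 L)) (J : ι → Ideal (𝓞 L))
    (hJ : ∀ k, J k ≠ ⊥) (s : Finset ι) :
    mu w (∏ k ∈ s, J k) = ∑ k ∈ s, mu w (J k) := by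
  induction s using Finset.induction_on with
  | empty => rw [Finset.prod_empty, Finset.sum_empty, mu_one]
  | insert a s ha ih =>
    rw [Finset.prod_insert ha, Finset.sum_insert ha, mu_mul w (hJ a) (prod_ne s J hJ), ih]

theorem le_mu_iff (w : HeightOneSpectrum (𝓞 L)) {I : Ideal (𝓞 L)} (hI : I ≠ ⊥) (n : ℕ) :
    n ≤ mu w I ↔ I ≤ w.asIdeal ^ n := by
  unfold mu
  rw [← Associates.prime_pow_dvd_iff_le (mk_ne hI) w.associates_irreducible, ← Associates.mk_pow,
    Associates.mk_le_mk_iff_dvd, Ideal.dvd_iff_le]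

theorem mu_eq_zero (w : HeightOneSpectrum (𝓞 L)) {I : Ideal (𝓞 L)} (hI : I ≠ ⊥)
    (h : ¬ I ≤ w.asIdeal) : mu w I = 0 := by
  by_contra h0
  apply h
  have h1 := (le_mu_iff w hI 1).1 (Nat.one_le_iff_ne_zero.2 h0)
  rwa [pow_one] at h1

theorem mu_eq_one (w : HeightOneSpectrum (𝓞 L)) {I : Ideal (𝓞 L)} (hI : I ≠ ⊥)
    (h : I ≤ w.asIdeal) (h2 : ¬ I ≤ w.asIdeal ^ 2) : mu w I = 1 := by
  have h1 : 1 ≤ mu w I := (le_mu_iff w hI 1).2 (by rwa [pow_one])
  have h3 : ¬ 2 ≤ mu w I := fun h3 => h2 ((le_mu_iff w hI 2).1 h3)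
  omega

theorem eq_of_sq {I J : Ideal (𝓞 L)} (hI : I ≠ ⊥) (hJ : J ≠ ⊥) (h : I ^ 2 = J ^ 2) : I = J := by
  apply Associates.mk_injective
  apply Associates.eq_of_eq_counts (mk_ne hI) (mk_ne hJ)
  intro p hp
  have h1 : p.count (Associates.mk (I ^ 2)).factors = p.count (Associates.mk (J ^ 2)).factors := by
    rw [h]
  rw [Associates.mk_pow, Associates.mk_pow, Associates.count_pow (mk_ne hI) hp,
    Associates.count_pow (mk_ne hJ) hp] at h1
  omega

theorem val_eq (w : HeightOneSpectrum (𝓞 L)) {x : 𝓞 L} (hx : x ≠ 0) :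
    w.valuation L (x : L) = WithZero.exp (-(mu w (Ideal.span {x}) : ℤ)) := by
  have h := w.valuation_of_algebraMap (K := L) x
  have h2 := w.intValuation_if_neg hx
  exact h.trans h2

theorem isSquare_exp (n : ℤ) : IsSquare (WithZero.exp (2 * n) : WithZero (Multiplicative ℤ)) :=
  ⟨WithZero.exp n, by rw [two_mul, WithZero.exp_add]⟩

theorem isSquare_val (w : HeightOneSpectrum (𝓞 L)) {x y : 𝓞 L} (hx : x ≠ 0) (hy : y ≠ 0)
    (h : mu w (Ideal.span {x}) % 2 = mu w (Ideal.span {y}) % 2) :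
    IsSquare (w.valuation L ((y : L) / (x : L))) := by
  rw [map_div₀, val_eq w hx, val_eq w hy, ← WithZero.exp_sub]
  obtain ⟨n, hn⟩ : ∃ n : ℤ, -(mu w (Ideal.span {y}) : ℤ) - -(mu w (Ideal.span {x}) : ℤ) = 2 * n := by
    refine ⟨(-(mu w (Ideal.span {y}) : ℤ) - -(mu w (Ideal.span {x}) : ℤ)) / 2, ?_⟩
    omega
  rw [hn]
  exact isSquare_exp n

theorem norm_abs (x : 𝓞 L) :
    |Algebra.norm ℚ (x : L)| = ((Ideal.absNorm (Ideal.span {x}) : ℕ) : ℚ) := by
  rw [Ideal.absNorm_span_singleton]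
  have h : Algebra.norm ℚ (x : L) = ((Algebra.norm ℤ x : ℤ) : ℚ) :=
    (Algebra.coe_norm_int x).symm
  rw [h, Nat.cast_natAbs, Int.cast_abs]

end CNTM

open CNTM

theorem specCNT (hPGN : SpecPGN) : SpecCNT := by
  intro L _ _ m q J v hq hinj hmem hnorm hle hnle
  have hq0 : ∀ k, (q k : 𝓞 L) ≠ 0 := fun k => by
    exact_mod_cast (hq k).ne_zero
  have hJ : ∀ k, J k ≠ ⊥ := by
    intro k h
    have h1 := hmem k
    rw [h] at h1
    exact hq0 k (by simpa using h1)
  obtain ⟨T, I, x, y, T0, I0, hI0, hxy, hdist⟩ := hPGN L m J hJ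
  have hI : ∀ i, I i ≠ ⊥ := fun i => (hxy i).1
  have hx : ∀ i, x i ≠ 0 := fun i => (hxy i).2.1
  have hy : ∀ i, y i ≠ 0 := fun i => (hxy i).2.2.1
  have heq := fun i => (hxy i).2.2.2
  have hxL : ∀ i, (x i : L) ≠ 0 := fun i => by
    have := hx i
    exact (NumberField.RingOfIntegers.coe_ne_zero_iff).2 this
  have hyL : ∀ i, (y i : L) ≠ 0 := fun i => by
    have := hy i
    exact (NumberField.RingOfIntegers.coe_ne_zero_iff).2 this
  have hM : ∀ i, (∏ k ∈ T i, J k) * I i ^ 2 ≠ ⊥ := fun i =>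
    mul_ne (prod_ne _ J hJ) (pow_ne (hI i) 2)
  have hM0 : (∏ k ∈ T0, J k) * I0 ^ 2 ≠ ⊥ := mul_ne (prod_ne _ J hJ) (pow_ne hI0 2)
  have hmuM : ∀ (w : HeightOneSpectrum (𝓞 L)) (S : Finset (Fin m)) (I' : Ideal (𝓞 L)), I' ≠ ⊥ →
      mu w ((∏ k ∈ S, J k) * I' ^ 2) = (∑ k ∈ S, mu w (J k)) + 2 * mu w I' := by
    intro w S I' hI'
    rw [mu_mul w (prod_ne _ J hJ) (pow_ne hI' 2), mu_prod w J hJ, mu_pow w hI']
  refine ⟨fun i => (y i : L) / (x i : L), fun i => div_ne_zero (hyL i) (hxL i), ?_, ?_, ?_⟩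
  · -- norms
    intro i
    have h1 := congrArg (fun K => ((Ideal.absNorm K : ℕ) : ℚ)) (heq i)
    simp only [map_mul, map_pow, map_prod, hnorm, Nat.cast_mul, Nat.cast_pow, Nat.cast_prod,
      Finset.prod_pow] at h1
    rw [← norm_abs, ← norm_abs] at h1
    have hA : ∀ K : Ideal (𝓞 L), K ≠ ⊥ → ((Ideal.absNorm K : ℕ) : ℚ) ≠ 0 := by
      intro K hK h
      apply hK
      have : Ideal.absNorm K = 0 := by exact_mod_cast h
      exact Ideal.absNorm_eq_zero_iff.1 this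
    have hP : ∀ S : Finset (Fin m), (∏ k ∈ S, (q k : ℚ)) ≠ 0 := by
      intro S
      refine Finset.prod_ne_zero_iff.2 fun k _ => ?_
      exact_mod_cast (hq k).ne_zero
    have hN : Algebra.norm ℚ (x i : L) ≠ 0 := by
      rw [Algebra.norm_ne_zero_iff]
      exact hxL i
    have e5 : |Algebra.norm ℚ (x i : L)| ≠ 0 := abs_ne_zero.2 hN
    have hdiv : |Algebra.norm ℚ ((y i : L) / (x i : L))| =
        |Algebra.norm ℚ (y i : L)| / |Algebra.norm ℚ (x i : L)| := by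
      rw [eq_div_iff e5, ← abs_mul, ← map_mul, div_mul_cancel₀ _ (hxL i)]
    rw [hdiv]
    refine ⟨((∏ k ∈ T i, (q k : ℚ)) * (Ideal.absNorm (I i) : ℚ)) /
      ((∏ k ∈ T0, (q k : ℚ)) * (Ideal.absNorm I0 : ℚ)), ?_⟩
    have e1 := hP (T i)
    have e2 := hP T0
    have e3 := hA (I i) (hI i)
    have e4 := hA I0 hI0
    field_simp
    linear_combination -h1
  · -- valuations
    intro i w hw
    apply isSquare_val w (hx i) (hy i)
    have hz : ∀ k, mu w (J k) = 0 := fun k => mu_eq_zero w (hJ k) fun h => hw k (h (hmem k))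
    have h1 := congrArg (mu w) (heq i)
    rw [mu_mul w (span_ne (hx i)) (hM i), mu_mul w (span_ne (hy i)) hM0, hmuM w _ _ (hI i),
      hmuM w _ _ hI0] at h1
    simp only [hz, Finset.sum_const_zero, zero_add] at h1
    omega
  · -- distinctness
    intro i j hij u γ hα
    obtain ⟨g, h, hh, rfl⟩ := IsFractionRing.div_surjective (A := 𝓞 L) γ
    have hh0 : h ≠ 0 := nonZeroDivisors.ne_zero hh
    have hhL : (algebraMap (𝓞 L) L) h ≠ 0 := by
      intro h0
      exact hh0 ((NumberField.RingOfIntegers.coe_eq_zero_iff).1 h0)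
    have hg0 : g ≠ 0 := by
      rintro rfl
      rw [map_zero, zero_div, zero_pow two_ne_zero, mul_zero] at hα
      exact div_ne_zero (hyL i) (hxL i) hα
    have hmain : y i * x j * h ^ 2 = ((u : 𝓞 L)) * (y j * x i * g ^ 2) := by
      apply NumberField.RingOfIntegers.coe_injective
      have hxi := hxL i
      have hxj := hxL j
      simp only [map_mul, map_pow]
      have hα' : (algebraMap (𝓞 L) L) (y i) / (algebraMap (𝓞 L) L) (x i) =
          (algebraMap (𝓞 L) L) (u : 𝓞 L) *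
            ((algebraMap (𝓞 L) L) (y j) / (algebraMap (𝓞 L) L) (x j)) *
              ((algebraMap (𝓞 L) L) g / (algebraMap (𝓞 L) L) h) ^ 2 := hα
      have hxi' : (algebraMap (𝓞 L) L) (x i) ≠ 0 := hxi
      have hxj' : (algebraMap (𝓞 L) L) (x j) ≠ 0 := hxj
      field_simp at hα'
      linear_combination hα'
    have hid : Ideal.span {y i} * Ideal.span {x j} * Ideal.span {h} ^ 2 =
        Ideal.span {y j} * Ideal.span {x i} * Ideal.span {g} ^ 2 := by
      rw [Ideal.span_singleton_pow, Ideal.span_singleton_pow, Ideal.span_singleton_mul_span_singleton,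
        Ideal.span_singleton_mul_span_singleton, Ideal.span_singleton_mul_span_singleton,
        Ideal.span_singleton_mul_span_singleton, hmain]
      exact Ideal.span_singleton_mul_left_unit u.isUnit _
    have hcan : ((∏ k ∈ T i, J k) * I i ^ 2) * Ideal.span {h} ^ 2 =
        ((∏ k ∈ T j, J k) * I j ^ 2) * Ideal.span {g} ^ 2 := by
      have hne : Ideal.span {x i} * Ideal.span {x j} ≠ (0 : Ideal (𝓞 L)) :=
        mul_ne_zero (span_ne (hx i)) (span_ne (hx j))
      apply mul_left_cancel₀ hne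
      calc Ideal.span {x i} * Ideal.span {x j} *
            (((∏ k ∈ T i, J k) * I i ^ 2) * Ideal.span {h} ^ 2)
          = (Ideal.span {x i} * ((∏ k ∈ T i, J k) * I i ^ 2)) * Ideal.span {x j} *
              Ideal.span {h} ^ 2 := by ring
        _ = (Ideal.span {y i} * ((∏ k ∈ T0, J k) * I0 ^ 2)) * Ideal.span {x j} *
              Ideal.span {h} ^ 2 := by rw [heq i]
        _ = (Ideal.span {y i} * Ideal.span {x j} * Ideal.span {h} ^ 2) *
              ((∏ k ∈ T0, J k) * I0 ^ 2) := by ring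
        _ = (Ideal.span {y j} * Ideal.span {x i} * Ideal.span {g} ^ 2) *
              ((∏ k ∈ T0, J k) * I0 ^ 2) := by rw [hid]
        _ = (Ideal.span {y j} * ((∏ k ∈ T0, J k) * I0 ^ 2)) * Ideal.span {x i} *
              Ideal.span {g} ^ 2 := by ring
        _ = (Ideal.span {x j} * ((∏ k ∈ T j, J k) * I j ^ 2)) * Ideal.span {x i} *
              Ideal.span {g} ^ 2 := by rw [heq j]
        _ = _ := by ring
    have hmuJ : ∀ k l, mu (v k) (J l) = if l = k then 1 else 0 := by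
      intro k l
      split_ifs with hlk
      · subst hlk
        exact mu_eq_one _ (hJ l) (hle l) (hnle l)
      · apply mu_eq_zero _ (hJ l)
        intro hl
        have h1 : (q l : 𝓞 L) ∈ (v k).asIdeal := hl (hmem l)
        have h2 : (q k : 𝓞 L) ∈ (v k).asIdeal := hle k (hmem k)
        have hcop : Nat.Coprime (q l) (q k) :=
          (Nat.coprime_primes (hq l) (hq k)).2 fun h => hlk (hinj h)
        have hc := Nat.isCoprime_iff_coprime.2 hcop
        obtain ⟨a, b, hab⟩ := hc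
        have h3 : (1 : 𝓞 L) ∈ (v k).asIdeal := by
          have h4 : (1 : 𝓞 L) = (a : 𝓞 L) * (q l : 𝓞 L) + (b : 𝓞 L) * (q k : 𝓞 L) := by
            have h5 := congrArg (Int.cast : ℤ → 𝓞 L) hab
            push_cast at h5
            exact h5.symm
          rw [h4]
          exact Ideal.add_mem _ (Ideal.mul_mem_left _ _ h1) (Ideal.mul_mem_left _ _ h2)
        exact (v k).isPrime.ne_top ((Ideal.eq_top_iff_one _).2 h3)
    have hT : T i = T j := by
      ext k
      have h1 := congrArg (mu (v k)) hcan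
      rw [mu_mul _ (hM i) (pow_ne (span_ne hh0) 2), mu_mul _ (hM j) (pow_ne (span_ne hg0) 2),
        hmuM _ _ _ (hI i), hmuM _ _ _ (hI j), mu_pow _ (span_ne hh0), mu_pow _ (span_ne hg0)] at h1
      simp only [hmuJ, Finset.sum_ite_eq'] at h1
      by_cases ha : k ∈ T i <;> by_cases hb : k ∈ T j <;> simp only [ha, hb, if_true, if_false] at h1 ⊢ <;>
        omega
    have hc2 : (Ideal.span {h} * I i) ^ 2 = (Ideal.span {g} * I j) ^ 2 := by
      rw [hT] at hcan
      apply mul_left_cancel₀ (prod_ne (T j) J hJ : (∏ k ∈ T j, J k) ≠ 0)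
      calc (∏ k ∈ T j, J k) * (Ideal.span {h} * I i) ^ 2
          = ((∏ k ∈ T j, J k) * I i ^ 2) * Ideal.span {h} ^ 2 := by ring
        _ = ((∏ k ∈ T j, J k) * I j ^ 2) * Ideal.span {g} ^ 2 := hcan
        _ = _ := by ring
    exact hdist i j hij hT h g hh0 hg0
      (eq_of_sq (mul_ne (span_ne hh0) (hI i)) (mul_ne (span_ne hg0) (hI j)) hc2)

end Pool.Agent.Lib.MP_8cb858_nt.PR
end

section
/-!
# Module SCT: many elements whose ideals are squares up to the `J k` and ideals of `F`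
-/
namespace Pool.Agent.Lib.MP_8cb858_nt.PF

open Polynomial NumberField IsDedekindDomain Pool.Agent.Lib.MP_8cb858_nt.SEL
open Pool.Agent.Lib.MP_8cb858_nt.PR.CNTM
open scoped Classical nonZeroDivisors WithZero

namespace SCTM

variable {F L : Type} [Field F] [NumberField F] [Field L] [NumberField L] [Algebra F L]

omit [NumberField F] [NumberField L] in
theorem inj_alg : Function.Injective (algebraMap (𝓞 F) (𝓞 L)) :=
  FaithfulSMul.algebraMap_injective (𝓞 F) (𝓞 L)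

theorem xt_ne {A : Ideal (𝓞 F)} (hA : A ≠ ⊥) : xt L A ≠ ⊥ := by
  intro h
  exact hA ((Ideal.map_eq_bot_iff_of_injective inj_alg).1 h)

theorem xt_mul (A B : Ideal (𝓞 F)) : xt L (A * B) = xt L A * xt L B := Ideal.map_mul _ _ _

theorem xt_pow (A : Ideal (𝓞 F)) (n : ℕ) : xt L (A ^ n) = xt L A ^ n := Ideal.map_pow _ _ _

theorem xt_span (x : 𝓞 F) : xt L (Ideal.span {x}) = Ideal.span {algebraMap (𝓞 F) (𝓞 L) x} := by
  rw [xt, Ideal.map_span, Set.image_singleton]

theorem rel_xt (h : Module.finrank F L = 3) (A : Ideal (𝓞 F)) :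
    Ideal.relNorm (𝓞 F) (xt L A) = A ^ 3 := by
  have h1 : Module.finrank (𝓞 F) (𝓞 L) = 3 := by
    rw [← IsFractionRing.finrank_eq (𝓞 F) F (𝓞 L) L]
    exact h
  rw [← h1]
  exact Ideal.relNorm_algebraMap (𝓞 L) A

theorem rel_span (x : 𝓞 L) :
    Ideal.relNorm (𝓞 F) (Ideal.span {x}) = Ideal.span {Algebra.intNorm (𝓞 F) (𝓞 L) x} :=
  Ideal.relNorm_singleton (𝓞 F) x

theorem coe_intNorm (x : 𝓞 L) :
    ((Algebra.intNorm (𝓞 F) (𝓞 L) x : 𝓞 F) : F) = Algebra.norm F (x : L) :=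
  Algebra.algebraMap_intNorm (A := 𝓞 F) (K := F) (L := L) (B := 𝓞 L) x

theorem intNorm_ne {x : 𝓞 L} (hx : x ≠ 0) : Algebra.intNorm (𝓞 F) (𝓞 L) x ≠ 0 := by
  intro h
  exact hx (Algebra.intNorm_eq_zero.1 h)

/-- If `B^2` times something square ... : `A B X^2 = Y^2` gives `A B = t^2`. -/
theorem sq_quot {C X Y : Ideal (𝓞 F)} (hX : X ≠ ⊥) (h : C * X ^ 2 = Y ^ 2) :
    ∃ t : Ideal (𝓞 F), C = t ^ 2 := by
  have h1 : X ^ 2 ∣ Y ^ 2 := ⟨C, by rw [← h, mul_comm]⟩
  have h2 : X ∣ Y := (UniqueFactorizationMonoid.pow_dvd_pow_iff_dvd two_ne_zero).1 h1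
  obtain ⟨t, rfl⟩ := h2
  refine ⟨t, ?_⟩
  have hX' : X ^ 2 ≠ 0 := pow_ne_zero 2 hX
  apply mul_left_cancel₀ hX'
  calc X ^ 2 * C = C * X ^ 2 := mul_comm _ _
    _ = (X * t) ^ 2 := h
    _ = X ^ 2 * t ^ 2 := by ring

end SCTM

open SCTM

theorem specSCT (hSPG : SpecSPG) : SpecSCT := by
  intro F L _ _ _ _ _ m q J v hfr hind hmem hnorm hle hnle
  have hJ : ∀ k, J k ≠ ⊥ := by
    intro k h
    have h1 := hmem k
    rw [h, le_bot_iff] at h1
    exact xt_ne (q k).ne_bot h1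
  obtain ⟨T, I, x, y, C, T0, I0, hI0, hxy, hdist⟩ := hSPG F L m J hJ
  have hI : ∀ i, I i ≠ ⊥ := fun i => (hxy i).1
  have hx : ∀ i, x i ≠ 0 := fun i => (hxy i).2.1
  have hy : ∀ i, y i ≠ 0 := fun i => (hxy i).2.2.1
  have hC : ∀ i, C i ≠ ⊥ := fun i => (hxy i).2.2.2.1
  have heq := fun i => (hxy i).2.2.2.2
  have hxL : ∀ i, (x i : L) ≠ 0 := fun i => (NumberField.RingOfIntegers.coe_ne_zero_iff).2 (hx i)
  have hyL : ∀ i, (y i : L) ≠ 0 := fun i => (NumberField.RingOfIntegers.coe_ne_zero_iff).2 (hy i)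
  have hM : ∀ i, (∏ k ∈ T i, J k) * I i ^ 2 ≠ ⊥ := fun i =>
    mul_ne (prod_ne _ J hJ) (pow_ne (hI i) 2)
  have hM0 : (∏ k ∈ T0, J k) * I0 ^ 2 ≠ ⊥ := mul_ne (prod_ne _ J hJ) (pow_ne hI0 2)
  have hmuM : ∀ (w : HeightOneSpectrum (𝓞 L)) (S : Finset (Fin m)) (I' : Ideal (𝓞 L)), I' ≠ ⊥ →
      mu w ((∏ k ∈ S, J k) * I' ^ 2) = (∑ k ∈ S, mu w (J k)) + 2 * mu w I' := by
    intro w S I' hI'
    rw [mu_mul w (prod_ne _ J hJ) (pow_ne hI' 2), mu_prod w J hJ, mu_pow w hI']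
  -- relative norms
  have hRn : ∀ (S : Finset (Fin m)) (I' : Ideal (𝓞 L)),
      Ideal.relNorm (𝓞 F) ((∏ k ∈ S, J k) * I' ^ 2) =
        ((∏ k ∈ S, (q k).asIdeal) * Ideal.relNorm (𝓞 F) I') ^ 2 := by
    intro S I'
    rw [map_mul, map_pow, map_prod, mul_pow]
    congr 1
    rw [← Finset.prod_pow]
    exact Finset.prod_congr rfl fun k _ => hnorm k
  have hR0 : ∀ (S : Finset (Fin m)) (I' : Ideal (𝓞 L)), I' ≠ ⊥ →
      (∏ k ∈ S, (q k).asIdeal) * Ideal.relNorm (𝓞 F) I' ≠ ⊥ := by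
    intro S I' hI' h
    have h1 : Ideal.relNorm (𝓞 F) ((∏ k ∈ S, J k) * I' ^ 2) = ⊥ := by
      rw [hRn, h, pow_two, Ideal.bot_mul]
    rw [Ideal.relNorm_eq_bot_iff] at h1
    exact mul_ne (prod_ne _ J hJ) (pow_ne hI' 2) h1
  refine ⟨fun i => (y i : L) / (x i : L), fun i => div_ne_zero (hyL i) (hxL i), ?_, ?_⟩
  · -- valuations
    intro i w hw
    have hz : ∀ k, mu w (J k) = 0 := fun k => mu_eq_zero w (hJ k) fun h => hw k ((hmem k).trans h)
    have h1 := congrArg (mu w) (heq i)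
    rw [mu_mul w (span_ne (hx i)) (hM i), mu_mul w (span_ne (hy i)) (mul_ne (xt_ne (hC i)) hM0),
      mu_mul w (xt_ne (hC i)) hM0, hmuM w _ _ (hI i), hmuM w _ _ hI0] at h1
    simp only [hz, Finset.sum_const_zero, zero_add] at h1
    have h2 := congrArg (fun K => mu w (xt L (Ideal.relNorm (𝓞 F) K))) (heq i)
    simp only [map_mul (Ideal.relNorm (𝓞 F)) (Ideal.span _)] at h2
    rw [map_mul (Ideal.relNorm (𝓞 F)) (xt L (C i)), hRn, hRn, rel_xt hfr, rel_span, rel_span,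
      xt_mul, xt_mul, xt_mul, xt_pow, xt_pow, xt_pow,
      mu_mul w (xt_ne (span_ne (intNorm_ne (hx i)))) (pow_ne (xt_ne (hR0 _ _ (hI i))) 2),
      mu_mul w (xt_ne (span_ne (intNorm_ne (hy i))))
        (mul_ne (pow_ne (xt_ne (hC i)) 3) (pow_ne (xt_ne (hR0 _ _ hI0)) 2)),
      mu_mul w (pow_ne (xt_ne (hC i)) 3) (pow_ne (xt_ne (hR0 _ _ hI0)) 2),
      mu_pow w (xt_ne (hR0 _ _ (hI i))), mu_pow w (xt_ne (hC i)), mu_pow w (xt_ne (hR0 _ _ hI0)),
      xt_span, xt_span] at h2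
    have hx0 : algebraMap (𝓞 F) (𝓞 L) (Algebra.intNorm (𝓞 F) (𝓞 L) (x i)) ≠ 0 := fun h =>
      intNorm_ne (hx i) (inj_alg (by rw [h, map_zero]))
    have hy0 : algebraMap (𝓞 F) (𝓞 L) (Algebra.intNorm (𝓞 F) (𝓞 L) (y i)) ≠ 0 := fun h =>
      intNorm_ne (hy i) (inj_alg (by rw [h, map_zero]))
    have hval := isSquare_val w (mul_ne_zero (hx i) hx0) (mul_ne_zero (hy i) hy0) (by
      rw [← Ideal.span_singleton_mul_span_singleton, ← Ideal.span_singleton_mul_span_singleton,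
        mu_mul w (span_ne (hx i)) (span_ne hx0), mu_mul w (span_ne (hy i)) (span_ne hy0)]
      omega)
    have hcoe : ∀ z : 𝓞 L, ((algebraMap (𝓞 F) (𝓞 L) (Algebra.intNorm (𝓞 F) (𝓞 L) z) : 𝓞 L) : L) =
        algebraMap F L (Algebra.norm F (z : L)) := by
      intro z
      rw [← coe_intNorm]
      rfl
    have e : (y i : L) / (x i : L) * algebraMap F L (Algebra.norm F ((y i : L) / (x i : L))) =
        ((y i * algebraMap (𝓞 F) (𝓞 L) (Algebra.intNorm (𝓞 F) (𝓞 L) (y i)) : 𝓞 L) : L) /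
          ((x i * algebraMap (𝓞 F) (𝓞 L) (Algebra.intNorm (𝓞 F) (𝓞 L) (x i)) : 𝓞 L) : L) := by
      have hnx : Algebra.norm F (x i : L) ≠ 0 := Algebra.norm_ne_zero_iff.2 (hxL i)
      have hdiv : Algebra.norm F ((y i : L) / (x i : L)) =
          Algebra.norm F (y i : L) / Algebra.norm F (x i : L) := by
        rw [eq_div_iff hnx, ← map_mul, div_mul_cancel₀ _ (hxL i)]
      have hmc : ∀ c d : 𝓞 L, ((c * d : 𝓞 L) : L) = (c : L) * (d : L) := fun c d => rfl
      rw [hdiv, map_div₀, hmc, hmc, hcoe, hcoe]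
      exact div_mul_div_comm _ _ _ _
    rw [e]
    exact hval
  · -- distinctness
    intro i j hij u c γ hα
    obtain ⟨g, h, hh, rfl⟩ := IsFractionRing.div_surjective (A := 𝓞 L) γ
    obtain ⟨r, s, hs, rfl⟩ := IsFractionRing.div_surjective (A := 𝓞 F) c
    have hh0 : h ≠ 0 := nonZeroDivisors.ne_zero hh
    have hs0 : s ≠ 0 := nonZeroDivisors.ne_zero hs
    have hhL : (algebraMap (𝓞 L) L) h ≠ 0 := by
      intro h0
      exact hh0 ((NumberField.RingOfIntegers.coe_eq_zero_iff).1 h0)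
    have hg0 : g ≠ 0 := by
      rintro rfl
      rw [map_zero, zero_div, zero_pow two_ne_zero, mul_zero] at hα
      exact div_ne_zero (hyL i) (hxL i) hα
    have hr0 : r ≠ 0 := by
      rintro rfl
      rw [map_zero, zero_div, map_zero, mul_zero, zero_mul, zero_mul] at hα
      exact div_ne_zero (hyL i) (hxL i) hα
    have hsL : (algebraMap (𝓞 L) L) (algebraMap (𝓞 F) (𝓞 L) s) ≠ 0 := by
      intro h0
      have h1 := (NumberField.RingOfIntegers.coe_eq_zero_iff).1 h0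
      exact hs0 (inj_alg (by rw [h1, map_zero]))
    have hmain : y i * x j * algebraMap (𝓞 F) (𝓞 L) s * h ^ 2 =
        ((u : 𝓞 L)) * (algebraMap (𝓞 F) (𝓞 L) r * (y j * x i * g ^ 2)) := by
      apply NumberField.RingOfIntegers.coe_injective
      have hxi := hxL i
      have hxj := hxL j
      simp only [map_mul, map_pow]
      have hα' : (algebraMap (𝓞 L) L) (y i) / (algebraMap (𝓞 L) L) (x i) =
          (algebraMap (𝓞 L) L) (u : 𝓞 L) *
            ((algebraMap (𝓞 L) L) (algebraMap (𝓞 F) (𝓞 L) r) /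
              (algebraMap (𝓞 L) L) (algebraMap (𝓞 F) (𝓞 L) s)) *
            ((algebraMap (𝓞 L) L) (y j) / (algebraMap (𝓞 L) L) (x j)) *
              ((algebraMap (𝓞 L) L) g / (algebraMap (𝓞 L) L) h) ^ 2 := by
        refine hα.trans ?_
        rw [map_div₀ (algebraMap F L)]
        rfl
      have hxi' : (algebraMap (𝓞 L) L) (x i) ≠ 0 := hxi
      have hxj' : (algebraMap (𝓞 L) L) (x j) ≠ 0 := hxj
      field_simp at hα'
      linear_combination hα'
    have hid : Ideal.span {y i} * Ideal.span {x j} * xt L (Ideal.span {s}) * Ideal.span {h} ^ 2 =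
        xt L (Ideal.span {r}) *
          (Ideal.span {y j} * Ideal.span {x i} * Ideal.span {g} ^ 2) := by
      rw [xt_span, xt_span, Ideal.span_singleton_pow, Ideal.span_singleton_pow,
        Ideal.span_singleton_mul_span_singleton, Ideal.span_singleton_mul_span_singleton,
        Ideal.span_singleton_mul_span_singleton, Ideal.span_singleton_mul_span_singleton,
        Ideal.span_singleton_mul_span_singleton, Ideal.span_singleton_mul_span_singleton, hmain]
      exact Ideal.span_singleton_mul_left_unit u.isUnit _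
    have hsr : Ideal.span {s} ≠ (⊥ : Ideal (𝓞 F)) := span_ne hs0
    have hrr : Ideal.span {r} ≠ (⊥ : Ideal (𝓞 F)) := span_ne hr0
    have hA0 : C j * Ideal.span {s} ≠ ⊥ := mul_ne (hC j) hsr
    have hB0 : C i * Ideal.span {r} ≠ ⊥ := mul_ne (hC i) hrr
    have hcan : ((∏ k ∈ T i, J k) * I i ^ 2) * (xt L (C j * Ideal.span {s}) *
        Ideal.span {h} ^ 2) =
        ((∏ k ∈ T j, J k) * I j ^ 2) * (xt L (C i * Ideal.span {r}) * Ideal.span {g} ^ 2) := by
      have hne : Ideal.span {x i} * Ideal.span {x j} ≠ (0 : Ideal (𝓞 L)) :=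
        mul_ne_zero (span_ne (hx i)) (span_ne (hx j))
      apply mul_left_cancel₀ hne
      rw [xt_mul, xt_mul]
      calc Ideal.span {x i} * Ideal.span {x j} *
            (((∏ k ∈ T i, J k) * I i ^ 2) * (xt L (C j) * xt L (Ideal.span {s}) *
              Ideal.span {h} ^ 2))
          = (Ideal.span {x i} * ((∏ k ∈ T i, J k) * I i ^ 2)) * (Ideal.span {x j} *
              xt L (C j) * xt L (Ideal.span {s}) * Ideal.span {h} ^ 2) := by ring
        _ = (Ideal.span {y i} * (xt L (C i) * ((∏ k ∈ T0, J k) * I0 ^ 2))) * (Ideal.span {x j} *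
              xt L (C j) * xt L (Ideal.span {s}) * Ideal.span {h} ^ 2) := by rw [heq i]
        _ = (Ideal.span {y i} * Ideal.span {x j} * xt L (Ideal.span {s}) * Ideal.span {h} ^ 2) *
              (xt L (C i) * xt L (C j) * ((∏ k ∈ T0, J k) * I0 ^ 2)) := by ring
        _ = (xt L (Ideal.span {r}) *
              (Ideal.span {y j} * Ideal.span {x i} * Ideal.span {g} ^ 2)) *
              (xt L (C i) * xt L (C j) * ((∏ k ∈ T0, J k) * I0 ^ 2)) := by rw [hid]
        _ = (Ideal.span {y j} * (xt L (C j) * ((∏ k ∈ T0, J k) * I0 ^ 2))) *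
              (Ideal.span {x i} * xt L (C i) * xt L (Ideal.span {r}) * Ideal.span {g} ^ 2) := by
            ring
        _ = (Ideal.span {x j} * ((∏ k ∈ T j, J k) * I j ^ 2)) *
              (Ideal.span {x i} * xt L (C i) * xt L (Ideal.span {r}) * Ideal.span {g} ^ 2) := by
            rw [heq j]
        _ = _ := by ring
    set A := C j * Ideal.span {s} with hAdef
    set B := C i * Ideal.span {r} with hBdef
    set RI := (∏ k ∈ T i, (q k).asIdeal) * Ideal.relNorm (𝓞 F) (I i) with hRI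
    set RJ := (∏ k ∈ T j, (q k).asIdeal) * Ideal.relNorm (𝓞 F) (I j) with hRJ
    set H := Ideal.relNorm (𝓞 F) (Ideal.span {h}) with hHdef
    set G := Ideal.relNorm (𝓞 F) (Ideal.span {g}) with hGdef
    have hH0 : H ≠ ⊥ := by
      rw [hHdef, Ne, Ideal.relNorm_eq_bot_iff]
      exact span_ne hh0
    have hN : RI ^ 2 * (A ^ 3 * H ^ 2) = RJ ^ 2 * (B ^ 3 * G ^ 2) := by
      have h1 := congrArg (Ideal.relNorm (𝓞 F)) hcan
      rwa [map_mul (Ideal.relNorm (𝓞 F)) ((∏ k ∈ T i, J k) * I i ^ 2),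
        map_mul (Ideal.relNorm (𝓞 F)) ((∏ k ∈ T j, J k) * I j ^ 2), hRn, hRn,
        map_mul (Ideal.relNorm (𝓞 F)) (xt L A), map_mul (Ideal.relNorm (𝓞 F)) (xt L B),
        map_pow, map_pow, rel_xt hfr, rel_xt hfr] at h1
    obtain ⟨t, ht⟩ := sq_quot (F := F) (C := A * B) (X := A * RI * H) (Y := B ^ 2 * RJ * G)
      (mul_ne (mul_ne hA0 (hR0 _ _ (hI i))) hH0) (by
        calc A * B * (A * RI * H) ^ 2 = B * (RI ^ 2 * (A ^ 3 * H ^ 2)) := by ring
          _ = B * (RJ ^ 2 * (B ^ 3 * G ^ 2)) := by rw [hN]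
          _ = _ := by ring)
    have ht0 : t ≠ ⊥ := by
      rintro rfl
      rw [pow_two, Ideal.bot_mul] at ht
      exact mul_ne hA0 hB0 ht
    have hcan2 : ((∏ k ∈ T i, J k) * I i ^ 2) * (xt L t * Ideal.span {h}) ^ 2 =
        ((∏ k ∈ T j, J k) * I j ^ 2) * (xt L B * Ideal.span {g}) ^ 2 := by
      calc ((∏ k ∈ T i, J k) * I i ^ 2) * (xt L t * Ideal.span {h}) ^ 2
          = ((∏ k ∈ T i, J k) * I i ^ 2) * (xt L t ^ 2 * Ideal.span {h} ^ 2) := by ring
        _ = ((∏ k ∈ T i, J k) * I i ^ 2) * (xt L (A * B) * Ideal.span {h} ^ 2) := by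
            rw [ht, xt_pow]
        _ = ((∏ k ∈ T i, J k) * I i ^ 2) * (xt L A * xt L B * Ideal.span {h} ^ 2) := by
            rw [xt_mul]
        _ = ((∏ k ∈ T i, J k) * I i ^ 2) * (xt L A * Ideal.span {h} ^ 2) * xt L B := by ring
        _ = ((∏ k ∈ T j, J k) * I j ^ 2) * (xt L B * Ideal.span {g} ^ 2) * xt L B := by
            rw [hcan]
        _ = _ := by ring
    have hU0 : xt L t * Ideal.span {h} ≠ ⊥ := mul_ne (xt_ne ht0) (span_ne hh0)
    have hV0 : xt L B * Ideal.span {g} ≠ ⊥ := mul_ne (xt_ne hB0) (span_ne hg0)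
    have hmuJ : ∀ k l, mu (v k) (J l) = if l = k then 1 else 0 := by
      intro k l
      split_ifs with hlk
      · subst hlk
        exact mu_eq_one _ (hJ l) (hle l) (hnle l)
      · exact mu_eq_zero _ (hJ l) (hind k l (Ne.symm hlk))
    have hT : T i = T j := by
      ext k
      have h1 := congrArg (mu (v k)) hcan2
      rw [mu_mul _ (hM i) (pow_ne hU0 2), mu_mul _ (hM j) (pow_ne hV0 2),
        hmuM _ _ _ (hI i), hmuM _ _ _ (hI j), mu_pow _ hU0, mu_pow _ hV0] at h1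
      simp only [hmuJ, Finset.sum_ite_eq'] at h1
      by_cases ha : k ∈ T i <;> by_cases hb : k ∈ T j <;> simp only [ha, hb, if_true, if_false] at h1 ⊢ <;>
        omega
    have hc2 : (Ideal.span {h} * (xt L t * I i)) ^ 2 = (Ideal.span {g} * (xt L B * I j)) ^ 2 := by
      rw [hT] at hcan2
      apply mul_left_cancel₀ (prod_ne (T j) J hJ : (∏ k ∈ T j, J k) ≠ 0)
      calc (∏ k ∈ T j, J k) * (Ideal.span {h} * (xt L t * I i)) ^ 2
          = ((∏ k ∈ T j, J k) * I i ^ 2) * (xt L t * Ideal.span {h}) ^ 2 := by ring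
        _ = ((∏ k ∈ T j, J k) * I j ^ 2) * (xt L B * Ideal.span {g}) ^ 2 := hcan2
        _ = _ := by ring
    exact hdist i j hij hT h g t B hh0 hg0 ht0 hB0
      (eq_of_sq (mul_ne (span_ne hh0) (mul_ne (xt_ne ht0) (hI i)))
        (mul_ne (span_ne hg0) (mul_ne (xt_ne hB0) (hI j))) hc2)

end Pool.Agent.Lib.MP_8cb858_nt.PF
end
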