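import Pool.Agent.Lib.MP_8cb858_nt.PF.SpecS

/-!
# SEJ: the ideals over a place with 0, 1 or 3 roots
-/

namespace Pool.Agent.Lib.MP_8cb858_nt.PF

open Polynomial NumberField IsDedekindDomain Pool.Agent.Lib.MP_8cb858_nt.SEL
open scoped Classical WithZero

namespace SEJM

theorem natDegree3 {R : Type} [CommRing R] [Nontrivial R] (a b : R) :
    (fpol a b).natDegree = 3 := by
  have h : (C a * X + C b).degree < ((X : R[X]) ^ 3).degree := by
    rw [degree_X_pow]
    exact lt_of_le_of_lt degree_linear_le (by norm_num)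
  unfold fpol
  rw [add_assoc, natDegree_add_eq_left_of_degree_lt h, natDegree_X_pow]

theorem finrank3 {F : Type} [Field F] (a b : F) : Module.finrank F (Lk a b) = 3 := by
  rw [(AdjoinRoot.powerBasis' (fpol_monic a b)).finrank]
  exact natDegree3 a b

/-- The embedding given by a root. -/
noncomputable def emb {F K : Type} [Field F] [Field K] [Algebra F K] {a b : F} (t : K)
    (ht : t ^ 3 + algebraMap F K a * t + algebraMap F K b = 0) : Lk a b →+* K :=
  AdjoinRoot.lift (algebraMap F K) t (by rw [eval₂_fpol]; exact ht)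

theorem emb_of {F K : Type} [Field F] [Field K] [Algebra F K] {a b : F} (t : K)
    (ht : t ^ 3 + algebraMap F K a * t + algebraMap F K b = 0) (x : F) :
    emb t ht (algebraMap F (Lk a b) x) = algebraMap F K x := by
  rw [AdjoinRoot.algebraMap_eq]
  exact AdjoinRoot.lift_of _

theorem emb_root {F K : Type} [Field F] [Field K] [Algebra F K] {a b : F} (t : K)
    (ht : t ^ 3 + algebraMap F K a * t + algebraMap F K b = 0) :
    emb t ht (AdjoinRoot.root (fpol a b)) = t := AdjoinRoot.lift_root _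

/-- The number of roots is 0, 1 or 3. -/
theorem roots {K : Type} [Field K] [CharZero K] (a b : K) (h : dsc a b ≠ 0) :
    (∀ t : K, t ^ 3 + a * t + b ≠ 0) ∨
    (∃ t : K, t ^ 3 + a * t + b = 0 ∧ ∀ s : K, s ^ 3 + a * s + b = 0 → s = t) ∨
    ∃ t : Fin 3 → K, Function.Injective t ∧ (∀ i, t i ^ 3 + a * t i + b = 0) ∧
      ∀ s : K, s ^ 3 + a * s + b = 0 → ∃ i, s = t i := by
  by_cases h0 : ∀ t : K, t ^ 3 + a * t + b ≠ 0
  · exact Or.inl h0
  right
  push Not at h0
  obtain ⟨t, ht⟩ := h0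
  by_cases h1 : ∀ s : K, s ^ 3 + a * s + b = 0 → s = t
  · exact Or.inl ⟨t, ht, h1⟩
  right
  push Not at h1
  obtain ⟨s, hs, hst⟩ := h1
  have hst' : s - t ≠ 0 := sub_ne_zero.2 hst
  have ha : a = t * s - (t + s) ^ 2 := by
    have e : (s - t) * (a - (t * s - (t + s) ^ 2)) = 0 := by linear_combination hs - ht
    exact sub_eq_zero.1 ((mul_eq_zero.1 e).resolve_left hst')
  have hb : b = t * s * (t + s) := by
    rw [ha] at ht
    linear_combination ht
  have h3 : (-(t + s)) ^ 3 + a * (-(t + s)) + b = 0 := by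
    rw [ha, hb]; ring
  have hd : dsc a b = -((t - s) ^ 2 * (2 * t + s) ^ 2 * (t + 2 * s) ^ 2) := by
    rw [dsc, ha, hb]; ring
  have n1 : 2 * t + s ≠ 0 := fun e => h (by rw [hd, e]; ring)
  have n2 : t + 2 * s ≠ 0 := fun e => h (by rw [hd, e]; ring)
  refine ⟨![t, s, -(t + s)], ?_, ?_, ?_⟩
  · intro i j hij
    fin_cases i <;> fin_cases j <;> simp at hij ⊢
    · exact hst hij.symm
    · exact n1 (by linear_combination hij)
    · exact hst hij
    · exact n2 (by linear_combination hij)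
    · exact n1 (by linear_combination -hij)
    · exact n2 (by linear_combination -hij)
  · intro i
    fin_cases i
    exacts [ht, hs, h3]
  · intro r hr
    have e : (r - t) * (r - s) * (r + (t + s)) = 0 := by
      rw [ha, hb] at hr
      linear_combination hr
    rcases mul_eq_zero.1 e with e | e
    · rcases mul_eq_zero.1 e with e | e
      · exact ⟨0, sub_eq_zero.1 e⟩
      · exact ⟨1, sub_eq_zero.1 e⟩
    · exact ⟨2, eq_neg_of_add_eq_zero_left e⟩

section ideals

variable {F L : Type} [Field F] [NumberField F] [Field L] [NumberField L] [Algebra F L]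

theorem rel_xt (h : Module.finrank F L = 3) (A : Ideal (𝓞 F)) :
    Ideal.relNorm (𝓞 F) (xt L A) = A ^ 3 := by
  have h1 : Module.finrank (𝓞 F) (𝓞 L) = 3 := by
    rw [← IsFractionRing.finrank_eq (𝓞 F) F (𝓞 L) L]
    exact h
  rw [← h1]
  exact Ideal.relNorm_algebraMap (𝓞 L) A

/-- Two different places of `L`. -/
theorem not_le_of_ne {w w' : HeightOneSpectrum (𝓞 L)} (h : w ≠ w') : ¬ w.asIdeal ≤ w'.asIdeal :=
  fun h' => h (HeightOneSpectrum.ext (w.isMaximal.eq_of_le w'.isPrime.ne_top h'))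

/-- One root: the data for SPX. -/
theorem one (h3 : Module.finrank F L = 3) {v : HeightOneSpectrum (𝓞 F)}
    {w : HeightOneSpectrum (𝓞 L)} (h1 : xt L v.asIdeal ≤ w.asIdeal)
    (h2 : ¬ xt L v.asIdeal ≤ w.asIdeal ^ 2) (hN : Ideal.relNorm (𝓞 F) w.asIdeal = v.asIdeal) :
    ∃ P Q : Ideal (𝓞 L), P * Q = xt L v.asIdeal ∧ P ⊔ Q = ⊤ ∧
      Ideal.relNorm (𝓞 F) Q = v.asIdeal ^ 2 := by
  obtain ⟨Q, hQ⟩ := Ideal.dvd_iff_le.2 h1
  refine ⟨w.asIdeal, Q, hQ.symm, ?_, ?_⟩
  · have hne : ¬ Q ≤ w.asIdeal := by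
      intro h
      apply h2
      rw [hQ, sq]
      exact Ideal.mul_mono_right h
    apply w.isMaximal.out.2
    refine lt_of_le_of_ne le_sup_left ?_
    intro h
    exact hne (h ▸ le_sup_right)
  · have h4 := congrArg (Ideal.relNorm (𝓞 F)) hQ
    rw [rel_xt h3, map_mul, hN, pow_succ'] at h4
    have hv : v.asIdeal ≠ 0 := v.ne_bot
    exact (mul_left_cancel₀ hv h4).symm

/-- Two places: an ideal of relative norm `v^2`. -/
theorem two' {v : HeightOneSpectrum (𝓞 F)} {w w' : HeightOneSpectrum (𝓞 L)} (hne : w ≠ w')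
    (h1 : xt L v.asIdeal ≤ w.asIdeal) (h1' : xt L v.asIdeal ≤ w'.asIdeal)
    (hN : Ideal.relNorm (𝓞 F) w.asIdeal = v.asIdeal)
    (hN' : Ideal.relNorm (𝓞 F) w'.asIdeal = v.asIdeal) :
    xt L v.asIdeal ≤ w.asIdeal * w'.asIdeal ∧
      Ideal.relNorm (𝓞 F) (w.asIdeal * w'.asIdeal) = v.asIdeal ^ 2 ∧
      w.asIdeal * w'.asIdeal ≤ w'.asIdeal ∧ ¬ w.asIdeal * w'.asIdeal ≤ w'.asIdeal ^ 2 := by
  have hcop : w.asIdeal ⊔ w'.asIdeal = ⊤ := by
    apply w.isMaximal.out.2
    refine lt_of_le_of_ne le_sup_left ?_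
    intro h
    exact not_le_of_ne hne.symm (h ▸ le_sup_right)
  refine ⟨?_, ?_, Ideal.mul_le_right, ?_⟩
  · rw [Ideal.mul_eq_inf_of_isCoprime (Ideal.isCoprime_iff_sup_eq.2 hcop)]
    exact le_inf h1 h1'
  · rw [map_mul, hN, hN', sq]
  · intro h
    rw [sq] at h
    have h5 := Ideal.dvd_iff_le.2 h
    have h6 : w'.asIdeal ∣ w.asIdeal := (mul_dvd_mul_iff_right (show w'.asIdeal ≠ 0 from w'.ne_bot)).1 h5
    exact not_le_of_ne hne (Ideal.dvd_iff_le.1 h6)

/-- A product of two other places is not in a place. -/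
theorem not_le_mul {w w' w'' : HeightOneSpectrum (𝓞 L)} (h : w ≠ w'') (h' : w' ≠ w'') :
    ¬ w.asIdeal * w'.asIdeal ≤ w''.asIdeal := by
  intro h1
  rcases (Ideal.IsPrime.mul_le w''.isPrime).1 h1 with h2 | h2
  · exact not_le_of_ne h h2
  · exact not_le_of_ne h' h2

end ideals

end SEJM

open SEJM

theorem specSEJ (hSEM : SpecSEM) (hSED : SpecSED) (hSPX : SpecSPX) : SpecSEJ := by
  intro F _ _ a b _ v hd
  have hdK : dsc (algebraMap F (v.adicCompletion F) (a : F))
      (algebraMap F (v.adicCompletion F) (b : F)) ≠ 0 := by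
    have e : dsc (algebraMap F (v.adicCompletion F) (a : F))
        (algebraMap F (v.adicCompletion F) (b : F)) =
        algebraMap F (v.adicCompletion F) ((dsc a b : 𝓞 F) : F) := by
      have e4 : ((dsc a b : 𝓞 F) : F) = 4 * (a : F) ^ 3 + 27 * (b : F) ^ 2 := by
        unfold dsc
        push_cast
        rfl
      rw [e4, dsc, map_add, map_mul, map_mul, map_pow, map_pow, map_ofNat, map_ofNat]
    rw [e]
    intro h
    apply hd
    have h1 := (algebraMap F (v.adicCompletion F)).injective (h.trans (map_zero _).symm)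
    exact RingOfIntegers.coe_eq_zero_iff.1 h1
  have h3 := finrank3 (a : F) (b : F)
  rcases roots _ _ hdK with h0 | ⟨t, ht, h1⟩ | ⟨t, hti, ht, hts⟩
  · refine ⟨0, Fin.elim0, Fin.elim0, ?_, fun k => k.elim0, fun k => k.elim0, fun k => k.elim0,
      fun k => k.elim0, fun k => k.elim0⟩
    have : IsEmpty {t : v.adicCompletion F // t ^ 3 + algebraMap F (v.adicCompletion F) (a : F) * t +
        algebraMap F (v.adicCompletion F) (b : F) = 0} := ⟨fun t => h0 t.1 t.2⟩
    rw [nr, Nat.card_of_isEmpty]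
    rfl
  · obtain ⟨w, g1, g2, g3, -⟩ := hSEM F (Lk (a : F) (b : F)) v (emb t ht) (emb_of t ht)
    obtain ⟨P, Q, e1, e2, e3⟩ := one h3 g1 g2 g3
    obtain ⟨J, w', f1, f2, f3, f4⟩ := hSPX F _ v P Q h3 e1 e2 e3
    refine ⟨1, fun _ => J, fun _ => w', ?_, fun _ => f1, fun _ => f2, fun _ => f3, fun _ => f4,
      fun k l hkl => absurd (Subsingleton.elim k l) hkl⟩
    have : Unique {t : v.adicCompletion F // t ^ 3 + algebraMap F (v.adicCompletion F) (a : F) * t +
        algebraMap F (v.adicCompletion F) (b : F) = 0} :=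
      ⟨⟨⟨t, ht⟩⟩, fun s => Subtype.ext (h1 s.1 s.2)⟩
    rw [nr, Nat.card_unique]
    rfl
  · choose w g1 g2 g3 g4 using fun i =>
      hSEM F (Lk (a : F) (b : F)) v (emb (t i) (ht i)) (emb_of (t i) (ht i))
    have hw : ∀ i j, i ≠ j → w i ≠ w j := by
      intro i j hij h
      have h5 := hSED F (Lk (a : F) (b : F)) v _ _ (w i) (emb_of (t i) (ht i))
        (emb_of (t j) (ht j)) (g4 i) (h ▸ g4 j)
      have h6 := congrArg (fun ψ : Lk (a : F) (b : F) →+* v.adicCompletion F =>
        ψ (AdjoinRoot.root (fpol (a : F) (b : F)))) h5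
      simp only [emb_root] at h6
      exact hij (hti h6)
    have h01 := two' (hw 0 1 (by decide)) (g1 0) (g1 1) (g3 0) (g3 1)
    have h02 := two' (hw 0 2 (by decide)) (g1 0) (g1 2) (g3 0) (g3 2)
    refine ⟨2, ![(w 0).asIdeal * (w 1).asIdeal, (w 0).asIdeal * (w 2).asIdeal], ![w 1, w 2], ?_,
      ?_, ?_, ?_, ?_, ?_⟩
    · have e : {t : v.adicCompletion F // t ^ 3 + algebraMap F (v.adicCompletion F) (a : F) * t +
          algebraMap F (v.adicCompletion F) (b : F) = 0} ≃ Fin 3 :=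
        (Equiv.ofBijective (fun i : Fin 3 => ⟨t i, ht i⟩)
          ⟨fun i j h => hti (congrArg Subtype.val h), fun s => by
            obtain ⟨i, hi⟩ := hts s.1 s.2
            exact ⟨i, Subtype.ext hi.symm⟩⟩).symm
      rw [nr, Nat.card_congr e, Nat.card_eq_fintype_card, Fintype.card_fin]
      rfl
    · intro k
      fin_cases k
      exacts [h01.1, h02.1]
    · intro k
      fin_cases k
      exacts [h01.2.1, h02.2.1]
    · intro k
      fin_cases k
      exacts [h01.2.2.1, h02.2.2.1]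
    · intro k
      fin_cases k
      exacts [h01.2.2.2, h02.2.2.2]
    · intro k l hkl
      fin_cases k <;> fin_cases l
      · exact absurd rfl hkl
      · exact not_le_mul (hw 0 1 (by decide)) (hw 2 1 (by decide))
      · exact not_le_mul (hw 0 2 (by decide)) (hw 1 2 (by decide))
      · exact absurd rfl hkl

end Pool.Agent.Lib.MP_8cb858_nt.PF
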