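import Pool.Agent.Lib.MP_8cb858_nt.PF.SpecS

section
/-!
# SAP: an element with even valuations in a finite set of places is a square times a unit there
-/
namespace Pool.Agent.Lib.MP_8cb858_nt.PF

open Polynomial NumberField IsDedekindDomain Pool.Agent.Lib.MP_8cb858_nt.SEL
open scoped Classical nonZeroDivisors

namespace SAPM

/-- Local uniformisers which are units at finitely many other primes. -/
theorem unif {R : Type} [CommRing R] [IsDedekindDomain R]
    (W : Finset (HeightOneSpectrum R)) (w : HeightOneSpectrum R) (hw : w ∈ W) :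
    ∃ π : R, w.intValuation π = WithZero.exp (-1 : ℤ) ∧
      ∀ w' ∈ W, w' ≠ w → w'.intValuation π = 1 := by
  obtain ⟨u, hu⟩ := w.intValuation_exists_uniformizer
  obtain ⟨y, hy⟩ := IsDedekindDomain.exists_forall_sub_mem_ideal (s := W)
    (fun v : HeightOneSpectrum R => v.asIdeal) (fun _ => 2) (fun v _ => v.prime)
    (fun v _ v' _ h h' => h (HeightOneSpectrum.ext h')) (fun v => if v.1 = w then u else 1)
  refine ⟨y, ?_, ?_⟩
  · have h1 := hy w hw
    simp only [if_true] at h1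
    have h2 : w.intValuation (y - u) ≤ WithZero.exp (-((2 : ℕ) : ℤ)) :=
      (w.intValuation_le_pow_iff_mem _ _).2 h1
    have h3 : w.intValuation (y - u) < w.intValuation u := by
      rw [hu]
      refine lt_of_le_of_lt h2 ?_
      rw [WithZero.exp_lt_exp]
      norm_num
    have h4 := Valuation.map_add_eq_of_lt_left w.intValuation h3
    rw [add_sub_cancel, hu] at h4
    exact h4
  · intro w' hw' hne
    have h1 := hy w' hw'
    simp only [if_neg hne] at h1
    rw [HeightOneSpectrum.intValuation_eq_one_iff]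
    intro h2
    have h3 : y - 1 ∈ w'.asIdeal := Ideal.pow_le_self (by norm_num) h1
    have h4 : (1 : R) ∈ w'.asIdeal := by
      have := w'.asIdeal.sub_mem h2 h3
      simpa using this
    exact w'.isPrime.ne_top ((Ideal.eq_top_iff_one _).2 h4)

end SAPM

open SAPM in
theorem specSAP : SpecSAP := by
  intro L _ _ W α hα hsq
  have hπ : ∀ w : HeightOneSpectrum (𝓞 L), ∃ π : 𝓞 L, w ∈ W →
      w.intValuation π = WithZero.exp (-1 : ℤ) ∧ ∀ w' ∈ W, w' ≠ w → w'.intValuation π = 1 := by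
    intro w
    by_cases hw : w ∈ W
    · obtain ⟨π, h⟩ := unif W w hw
      exact ⟨π, fun _ => h⟩
    · exact ⟨0, fun h => absurd h hw⟩
  choose π hπ using hπ
  have hr : ∀ w : HeightOneSpectrum (𝓞 L), ∃ n : ℤ, w ∈ W →
      w.valuation L α = WithZero.exp n * WithZero.exp n := by
    intro w
    by_cases hw : w ∈ W
    · obtain ⟨r, h⟩ := hsq w hw
      have hr0 : r ≠ 0 := by
        intro h0
        rw [h0, mul_zero] at h
        exact (Valuation.ne_zero_iff _).2 hα h
      refine ⟨WithZero.log r, fun _ => ?_⟩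
      rw [WithZero.exp_log hr0, h]
    · exact ⟨0, fun h => absurd h hw⟩
  choose n hn using hr
  have hπ0 : ∀ w ∈ W, (algebraMap (𝓞 L) L (π w)) ≠ 0 := by
    intro w hw h0
    have h1 : π w = 0 := by
      simpa using h0
    have h2 := (hπ w hw).1
    rw [h1, map_zero] at h2
    exact WithZero.exp_ne_zero h2.symm
  refine ⟨∏ w ∈ W, (algebraMap (𝓞 L) L (π w)) ^ (n w), ?_, ?_⟩
  · exact Finset.prod_ne_zero_iff.2 fun w hw => zpow_ne_zero _ (hπ0 w hw)
  · intro w hwW
    have key : w.valuation L (∏ w' ∈ W, (algebraMap (𝓞 L) L (π w')) ^ (n w')) =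
        WithZero.exp (-(n w)) := by
      rw [map_prod, Finset.prod_eq_single w]
      · rw [map_zpow₀, HeightOneSpectrum.valuation_of_algebraMap, (hπ w hwW).1, ← WithZero.exp_zsmul]
        simp
      · intro w' hw' hne
        rw [map_zpow₀, HeightOneSpectrum.valuation_of_algebraMap, (hπ w' hw').2 w hwW hne.symm,
          one_zpow]
      · intro h
        exact absurd hwW h
    rw [map_mul, map_pow, key, hn w hwW, ← WithZero.exp_add, ← WithZero.exp_nsmul,
      ← WithZero.exp_add]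
    rw [← WithZero.exp_zero]
    congr 1
    simp
    ring

end Pool.Agent.Lib.MP_8cb858_nt.PF
end

section
/-!
# SDN: a denominator prime to `v`
-/
namespace Pool.Agent.Lib.MP_8cb858_nt.PF

open Polynomial NumberField IsDedekindDomain Pool.Agent.Lib.MP_8cb858_nt.SEL
open scoped Classical nonZeroDivisors

namespace SDNM

/-- The ideal of denominators. -/
def den {R K : Type} [CommRing R] [Field K] [Algebra R K] (β : K) : Ideal R where
  carrier := {r | ∃ z : R, algebraMap R K z = algebraMap R K r * β}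
  add_mem' := by
    rintro a b ⟨x, hx⟩ ⟨y, hy⟩
    exact ⟨x + y, by rw [map_add, map_add, hx, hy, add_mul]⟩
  zero_mem' := ⟨0, by simp⟩
  smul_mem' := by
    rintro c a ⟨x, hx⟩
    exact ⟨c * x, by rw [smul_eq_mul, map_mul, map_mul, hx, mul_assoc]⟩

/-- If `β` is integral at `w` then the ideal of denominators is not contained in `w`. -/
theorem not_le {R K : Type} [CommRing R] [IsDedekindDomain R] [Field K] [Algebra R K]
    [IsFractionRing R K] (β : K) (w : HeightOneSpectrum R) (h : w.valuation K β ≤ 1) :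
    ∃ r ∈ den (R := R) β, r ∉ w.asIdeal := by
  obtain ⟨a, b, hb, rfl⟩ := IsFractionRing.div_surjective (A := R) β
  have hb0 : b ≠ 0 := nonZeroDivisors.ne_zero hb
  have hsb : (Ideal.span {b} : Ideal R) ≠ 0 := by
    rw [Ideal.zero_eq_bot, Ne, Ideal.span_singleton_eq_bot]
    exact hb0
  have hfm : FiniteMultiplicity w.asIdeal (Ideal.span {b}) :=
    FiniteMultiplicity.of_prime_left w.prime hsb
  obtain ⟨J, hJ, hJw⟩ := hfm.exists_eq_pow_mul_and_not_dvd
  have hvb := w.intValuation_eq_exp_neg_multiplicity hb0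
  rw [map_div₀, HeightOneSpectrum.valuation_of_algebraMap,
    HeightOneSpectrum.valuation_of_algebraMap, div_le_one₀
      (lt_of_le_of_ne zero_le (w.intValuation_ne_zero b hb0).symm), hvb,
    HeightOneSpectrum.intValuation_le_pow_iff_mem] at h
  have hJ' : ¬ J ≤ w.asIdeal := fun h' => hJw (Ideal.dvd_iff_le.2 h')
  obtain ⟨r, hr, hrw⟩ := SetLike.not_le_iff_exists.1 hJ'
  refine ⟨r, ?_, hrw⟩
  have h1 : r * a ∈ Ideal.span {b} := by
    rw [hJ, mul_comm r a]
    exact Ideal.mul_mem_mul h hr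
  obtain ⟨z, hz⟩ := Ideal.mem_span_singleton'.1 h1
  refine ⟨z, ?_⟩
  have hbK : algebraMap R K b ≠ 0 := by
    simpa using hb0
  rw [← mul_div_assoc, eq_div_iff hbK, ← map_mul, ← map_mul, hz]

end SDNM

open SDNM in
theorem specSDN : SpecSDN := by
  intro F L _ _ _ _ _ v β hβ
  have hnle : ¬ (den (R := 𝓞 L) β).comap (algebraMap (𝓞 F) (𝓞 L)) ≤ v.asIdeal := by
    intro hle
    have := v.isPrime
    obtain ⟨Q, hQD, hQp, hQv⟩ :=
      Ideal.exists_ideal_over_prime_of_isIntegral v.asIdeal (den (R := 𝓞 L) β) hle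
    have hQx : xt L v.asIdeal ≤ Q := Ideal.map_le_iff_le_comap.2 hQv.ge
    have hQbot : Q ≠ ⊥ := by
      rintro rfl
      obtain ⟨x, hx, hx0⟩ := Submodule.exists_mem_ne_zero_of_ne_bot v.ne_bot
      have h1 : algebraMap (𝓞 F) (𝓞 L) x ∈ (⊥ : Ideal (𝓞 L)) :=
        hQx (Ideal.mem_map_of_mem _ hx)
      rw [Ideal.mem_bot] at h1
      exact hx0 (FaithfulSMul.algebraMap_injective (𝓞 F) (𝓞 L) (by rw [h1, map_zero]))
    obtain ⟨r, hr, hrQ⟩ := not_le β ⟨Q, hQp, hQbot⟩ (hβ ⟨Q, hQp, hQbot⟩ hQx)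
    exact hrQ (hQD hr)
  obtain ⟨n, hn, hnv⟩ := SetLike.not_le_iff_exists.1 hnle
  refine ⟨n, hnv, ?_⟩
  obtain ⟨z, hz⟩ := Ideal.mem_comap.1 hn
  have h2 : algebraMap (𝓞 L) L (algebraMap (𝓞 F) (𝓞 L) n) = algebraMap F L (n : F) := rfl
  rw [h2] at hz
  rw [← hz]
  exact z.isIntegral_coe

end Pool.Agent.Lib.MP_8cb858_nt.PF
end

section
/-!
# SED: different embeddings give different places
-/
set_option autoImplicit false

namespace Pool.Agent.Lib.MP_8cb858_nt.PF

open Polynomial NumberField IsDedekindDomain Pool.Agent.Lib.MP_8cb858_nt.SEL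
open scoped Classical WithZero

namespace SEDM

variable {F : Type} [Field F] [NumberField F] (v : HeightOneSpectrum (𝓞 F))

theorem isOpen_ball_one : IsOpen {z : v.adicCompletion F | vv v z < 1} := by
  have := Valued.isOpen_ball (v.adicCompletion F) 1
  simpa only [Valuation.restrict_lt_one_iff] using this

/-- `F` is dense in `F_v` -/
theorem dens (x g : v.adicCompletion F) (hg : g ≠ 0) :
    ∃ c : F, vv v (x - algebraMap F (v.adicCompletion F) c) < vv v g := by
  have hopen : IsOpen {z : v.adicCompletion F | vv v ((x - z) * g⁻¹) < 1} :=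
    (isOpen_ball_one v).preimage ((continuous_const.sub continuous_id).mul continuous_const)
  obtain ⟨c, hc⟩ := (HeightOneSpectrum.denseRange_algebraMap (K := F) v).exists_mem_open hopen
    ⟨x, by simp⟩
  refine ⟨c, ?_⟩
  have h1 : vv v ((x - algebraMap F (v.adicCompletion F) c) * g⁻¹) < 1 := hc
  have hg0 : 0 < vv v g := zero_lt_iff.2 ((Valuation.ne_zero_iff _).2 hg)
  rw [map_mul, map_inv₀] at h1
  have h2 := mul_lt_mul_of_pos_right h1 hg0
  rwa [one_mul, mul_assoc, inv_mul_cancel₀ hg0.ne', mul_one] at h2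

end SEDM

/-- **SED.** -/
theorem specSED : SpecSED := by
  intro F L _ _ _ _ _ v ψ ψ' w hψ hψ' hw hw'
  by_contra hne
  obtain ⟨y, hy⟩ : ∃ y, ψ y ≠ ψ' y := by
    by_contra h
    push Not at h
    exact hne (RingHom.ext h)
  have hg : ψ y - ψ' y ≠ 0 := sub_ne_zero.2 hy
  obtain ⟨c, hc⟩ := SEDM.dens v (ψ y) _ hg
  have h1 : w.valuation L (y - algebraMap F L c) =
      vv v (ψ y - algebraMap F (v.adicCompletion F) c) := by
    rw [hw, map_sub, hψ]
  have h2 : w.valuation L (y - algebraMap F L c) =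
      vv v (ψ' y - algebraMap F (v.adicCompletion F) c) := by
    rw [hw', map_sub, hψ']
  have h3 : vv v (ψ' y - algebraMap F (v.adicCompletion F) c) = vv v (ψ y - ψ' y) := by
    have e : ψ' y - algebraMap F (v.adicCompletion F) c =
        (ψ y - algebraMap F (v.adicCompletion F) c) - (ψ y - ψ' y) := by ring
    rw [e, Valuation.map_sub_eq_of_lt_right _ hc]
  rw [← h1, h2, h3] at hc
  exact lt_irrefl _ hc

end Pool.Agent.Lib.MP_8cb858_nt.PF
end

section
/-!
# Module SEV: from even valuations above `v` to a unit class at `v`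
-/
namespace Pool.Agent.Lib.MP_8cb858_nt.PF

open Polynomial NumberField IsDedekindDomain Pool.Agent.Lib.MP_8cb858_nt.SEL
open scoped Classical WithZero nonZeroDivisors

namespace SEVM

/-- the places over a place form a finite set -/
theorem fin_over (F L : Type) [Field F] [NumberField F] [Field L] [NumberField L] [Algebra F L]
    (v : HeightOneSpectrum (𝓞 F)) :
    {w : HeightOneSpectrum (𝓞 L) | xt L v.asIdeal ≤ w.asIdeal}.Finite := by
  have h0 : xt L v.asIdeal ≠ ⊥ := by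
    intro h
    apply v.ne_bot
    rw [Ideal.map_eq_bot_iff_of_injective] at h
    · exact h
    · exact FaithfulSMul.algebraMap_injective _ _
  refine (Ideal.finite_factors h0).subset ?_
  intro w hw
  exact Ideal.dvd_iff_le.2 hw

/-- coordinates are linear -/
theorem cf_mul (hCOO : SpecCOO) {K : Type} [Field K] {a b : K} (c : K) (z : Lk a b) (i : ℕ) :
    cf i (AdjoinRoot.of (fpol a b) c * z) = c * cf i z := by
  have h1 : AdjoinRoot.of (fpol a b) c * z = el a b (c * cf 0 z) (c * cf 1 z) (c * cf 2 z) := by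
    conv_lhs => rw [hCOO.ext z, hCOO.ofv, hCOO.mul]
    congr 1 <;> ring
  obtain ⟨c0, c1, c2⟩ := hCOO.co (a := a) (b := b) (c * cf 0 z) (c * cf 1 z) (c * cf 2 z)
  rcases i with _ | _ | _ | i
  · rw [h1, c0]
  · rw [h1, c1]
  · rw [h1, c2]
  · rw [hCOO.big _ _ (by omega), hCOO.big _ _ (by omega), mul_zero]

end SEVM

open SEVM in
theorem specSEV (hSAP : SpecSAP) (hSDN : SpecSDN) (hSOR : SpecSOR) (hCOO : SpecCOO) : SpecSEV := by
  intro F _ _ a b _ v α hα hd hw

  have hfin := fin_over F (Lk (a : F) (b : F)) v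
  obtain ⟨γ, hγ, hγv⟩ := hSAP _ hfin.toFinset α hα (fun w h => hw w (hfin.mem_toFinset.1 h))
  set β : Lk (a : F) (b : F) := α * γ ^ 2 with hβ
  have hβ0 : β ≠ 0 := mul_ne_zero hα (pow_ne_zero 2 hγ)
  have hβv : ∀ w : HeightOneSpectrum (𝓞 (Lk (a : F) (b : F))),
      xt (Lk (a : F) (b : F)) v.asIdeal ≤ w.asIdeal → w.valuation (Lk (a : F) (b : F)) β = 1 :=
    fun w h => hγv w (hfin.mem_toFinset.2 h)
  -- coordinates are integral at `v`
  have lft : ∀ δ : Lk (a : F) (b : F), (∀ w : HeightOneSpectrum (𝓞 (Lk (a : F) (b : F))),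
      xt (Lk (a : F) (b : F)) v.asIdeal ≤ w.asIdeal →
      w.valuation (Lk (a : F) (b : F)) δ ≤ 1) → Itg (vv v) (up (v.adicCompletion F) δ) := by
    intro δ hδ i
    obtain ⟨n, hn, hint⟩ := hSDN F _ v δ hδ
    obtain ⟨c, hc⟩ := hSOR F a b _ hint i
    have h1 : algebraMap F (Lk (a : F) (b : F)) (n : F) = AdjoinRoot.of (fpol (a : F) (b : F)) (n : F) := rfl
    rw [h1, cf_mul hCOO] at hc
    have hval : ∀ x : 𝓞 F, x ∉ v.asIdeal → v.valuation F (x : F) = 1 := by
      intro x hx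
      rw [v.valuation_of_algebraMap, v.intValuation_eq_one_iff]
      exact hx
    have h2 : v.valuation F (cf i δ) ≤ 1 := by
      have h3 := congrArg (v.valuation F) hc
      rw [map_mul, map_mul, hval _ hd, hval _ hn, one_mul, one_mul] at h3
      rw [h3]
      exact v.valuation_le_one c
    have h4 : cf i (up (v.adicCompletion F) δ) = algebraMap F (v.adicCompletion F) (cf i δ) :=
      hCOO.cfu _ _ _
    rw [h4]
    have h5 : vv v (algebraMap F (v.adicCompletion F) (cf i δ)) = v.valuation F (cf i δ) :=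
      v.valuedAdicCompletion_eq_valuation' _
    rw [h5]
    exact h2
  refine ⟨up (v.adicCompletion F) γ, up (v.adicCompletion F) β, up (v.adicCompletion F) β⁻¹, ?_,
    lft β (fun w h => (hβv w h).le), lft β⁻¹ (fun w h => by rw [map_inv₀, hβv w h, inv_one]), ?_, ?_⟩
  · unfold up
    exact (IsUnit.mk0 γ hγ).map _
  · unfold up
    rw [← map_mul, mul_inv_cancel₀ hβ0, map_one]
  · unfold up
    rw [hβ, map_mul, map_pow]

end Pool.Agent.Lib.MP_8cb858_nt.PF
end

section
/-!
# Module SIR: irreducibility of the cubic polynomial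
-/
namespace Pool.Agent.Lib.MP_8cb858_nt.PF

open Polynomial NumberField IsDedekindDomain Pool.Agent.Lib.MP_8cb858_nt.SEL

namespace SIRM

theorem natDegree {R : Type} [CommRing R] [Nontrivial R] (a b : R) :
    (fpol a b).natDegree = 3 := by
  have h : (C a * X + C b).degree < ((X : R[X]) ^ 3).degree := by
    rw [degree_X_pow]
    exact lt_of_le_of_lt degree_linear_le (by norm_num)
  unfold fpol
  rw [add_assoc, natDegree_add_eq_left_of_degree_lt h, natDegree_X_pow]

theorem eval_fpol {R : Type} [CommRing R] (a b x : R) :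
    (fpol a b).eval x = x ^ 3 + a * x + b := by
  unfold fpol
  simp

end SIRM

theorem specSIR : SpecSIR := by
  intro F _ _ a b w h
  have hroot : ∀ r : F, (fpol (a : F) (b : F)).eval r ≠ 0 := by
    intro r hr
    rw [SIRM.eval_fpol] at hr
    have hint : IsIntegral (𝓞 F) r :=
      ⟨fpol a b, fpol_monic a b, by rw [eval₂_fpol]; exact hr⟩
    obtain ⟨x, hx⟩ := IsIntegrallyClosed.isIntegral_iff.1 hint
    apply h x
    have h2 : x ^ 3 + a * x + b = 0 := by
      apply RingOfIntegers.coe_injective (K := F)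
      rw [← hx] at hr
      simpa using hr
    rw [h2]
    exact w.asIdeal.zero_mem
  have hQ : Irreducible (fpol (a : F) (b : F)) := by
    rw [(fpol_monic (a : F) (b : F)).irreducible_iff_roots_eq_zero_of_degree_le_three
      (by rw [SIRM.natDegree]; norm_num) (by rw [SIRM.natDegree])]
    apply Multiset.eq_zero_of_forall_notMem
    intro x hx
    rw [mem_roots (fpol_monic (a : F) (b : F)).ne_zero, IsRoot.def] at hx
    exact hroot x hx
  refine ⟨hQ, ?_⟩
  have h4 := (AdjoinRoot.powerBasis' (fpol_monic (a : F) (b : F))).finrank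
  rw [h4]
  show (fpol (a : F) (b : F)).natDegree = 3
  exact SIRM.natDegree (a : F) (b : F)

end Pool.Agent.Lib.MP_8cb858_nt.PF
end

section
/-!
# Module SOR: `D'` times an integer of `L` has integral coordinates
-/
namespace Pool.Agent.Lib.MP_8cb858_nt.PF

open Polynomial NumberField IsDedekindDomain Pool.Agent.Lib.MP_8cb858_nt.SEL

namespace SORM

theorem natDegree {R : Type} [CommRing R] [Nontrivial R] (a b : R) :
    (fpol a b).natDegree = 3 := by
  have h : (C a * X + C b).degree < ((X : R[X]) ^ 3).degree := by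
    rw [degree_X_pow]
    exact lt_of_le_of_lt degree_linear_le (by norm_num)
  unfold fpol
  rw [add_assoc, natDegree_add_eq_left_of_degree_lt h, natDegree_X_pow]

theorem th_eq {R : Type} [CommRing R] (a b : R) :
    th a b ^ 3 + AdjoinRoot.of (fpol a b) a * th a b + AdjoinRoot.of (fpol a b) b = 0 := by
  have h := AdjoinRoot.eval₂_root (fpol a b)
  rw [eval₂_fpol] at h
  exact h

theorem aeval_der {R S : Type} [CommRing R] [CommRing S] [Algebra R S] (a b : R) (t : S) :
    aeval t (fpol a b).derivative = 3 * t ^ 2 + algebraMap R S a := by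
  have h : (fpol a b).derivative = C 3 * X ^ 2 + C a := by
    unfold fpol
    simp only [derivative_add, derivative_X_pow, derivative_C_mul, derivative_X, derivative_C,
      mul_one, add_zero]
    norm_num
  rw [h]
  simp only [map_add, map_mul, map_pow, aeval_C, aeval_X]
  have h3 : (algebraMap R S) 3 = 3 := by
    have := map_natCast (algebraMap R S) 3
    simpa using this
  rw [h3]

variable {F : Type} [Field F] [NumberField F]

theorem mem_el (hCOO : SpecCOO) (a b : 𝓞 F) (z : Lk (a : F) (b : F))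
    (hz : z ∈ Algebra.adjoin (𝓞 F) ({th (a : F) (b : F)} : Set (Lk (a : F) (b : F)))) :
    ∃ x y w : 𝓞 F, z = el (a : F) (b : F) (x : F) (y : F) (w : F) := by
  induction hz using Algebra.adjoin_induction with
  | mem x hx =>
    rw [Set.mem_singleton_iff] at hx
    exact ⟨0, 1, 0, by rw [hx, hCOO.thv]; simp⟩
  | algebraMap r =>
    refine ⟨r, 0, 0, ?_⟩
    have h1 := hCOO.ofv (a := (a : F)) (b := (b : F)) (r : F)
    have h2 : (algebraMap (𝓞 F) (Lk (a : F) (b : F))) r =
        AdjoinRoot.of (fpol (a : F) (b : F)) (r : F) := rfl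
    rw [h2, h1]
    simp
  | add x y _ _ hx hy =>
    obtain ⟨x1, y1, z1, h1⟩ := hx
    obtain ⟨x2, y2, z2, h2⟩ := hy
    refine ⟨x1 + x2, y1 + y2, z1 + z2, ?_⟩
    rw [h1, h2, hCOO.add]
    push_cast
    rfl
  | mul x y _ _ hx hy =>
    obtain ⟨x1, y1, z1, h1⟩ := hx
    obtain ⟨x2, y2, z2, h2⟩ := hy
    refine ⟨x1 * x2 - b * (y1 * z2 + z1 * y2),
      x1 * y2 + y1 * x2 - a * (y1 * z2 + z1 * y2) - b * (z1 * z2),
      x1 * z2 + y1 * y2 + z1 * x2 - a * (z1 * z2), ?_⟩
    rw [h1, h2, hCOO.mul]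
    push_cast
    rfl

theorem cf_smul (hCOO : SpecCOO) {K : Type} [CommRing K] {a b : K} (c : K) (z : Lk a b) (i : ℕ) :
    cf i (AdjoinRoot.of (fpol a b) c * z) = c * cf i z := by
  have h : AdjoinRoot.of (fpol a b) c * z = c • z := by
    rw [Algebra.smul_def]
    rfl
  rw [h]
  unfold cf
  rw [map_smul]
  simp

theorem neg_sgn (hCOO : SpecCOO) {K : Type} [CommRing K] {a b : K} (z : Lk a b) (i : ℕ) :
    cf i (-z) = -cf i z := by
  unfold cf
  rw [map_neg, coeff_neg]

end SORM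

theorem specSOR (hCOO : SpecCOO) (hNRM : SpecNRM) : SpecSOR := by
  intro F _ _ a b _ z hz i
  have hm := fpol_monic (a : F) (b : F)
  have h0 : fpol (a : F) (b : F) ≠ 0 := hm.ne_zero
  have hgen : (AdjoinRoot.powerBasis h0).gen = th (a : F) (b : F) := AdjoinRoot.powerBasis_gen h0
  have hint : IsIntegral (𝓞 F) (AdjoinRoot.powerBasis h0).gen := by
    rw [hgen]
    refine ⟨fpol a b, fpol_monic a b, ?_⟩
    rw [eval₂_fpol]
    exact SORM.th_eq (a : F) (b : F)
  have hz' : IsIntegral (𝓞 F) z := hz.tower_top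
  have hmem := Algebra.discr_mul_isIntegral_mem_adjoin F hint hz'
  rw [hgen] at hmem
  have hrank : Module.finrank F (Lk (a : F) (b : F)) = 3 := by
    rw [(AdjoinRoot.powerBasis h0).finrank]
    show (fpol (a : F) (b : F)).natDegree = 3
    exact SORM.natDegree (a : F) (b : F)
  have hdisc : Algebra.discr F (AdjoinRoot.powerBasis h0).basis = -(dsc (a : F) (b : F)) := by
    refine (Algebra.discr_powerBasis_eq_norm (K := F) (L := Lk (a : F) (b : F))
      (AdjoinRoot.powerBasis h0)).trans ?_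
    rw [hrank, AdjoinRoot.minpoly_powerBasis_gen_of_monic hm, hgen]
    have h1 : aeval (th (a : F) (b : F)) (fpol (a : F) (b : F)).derivative =
        el (a : F) (b : F) (a : F) 0 3 := by
      rw [SORM.aeval_der]
      unfold el
      have h3 : AdjoinRoot.of (fpol (a : F) (b : F)) 3 = 3 := by
        have := map_natCast (AdjoinRoot.of (fpol (a : F) (b : F))) 3
        simpa using this
      rw [h3, map_zero]
      show 3 * th (a : F) (b : F) ^ 2 + AdjoinRoot.of (fpol (a : F) (b : F)) (a : F) = _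
      ring
    have h2 : Algebra.norm F (aeval (th (a : F) (b : F)) (fpol (a : F) (b : F)).derivative) =
        dsc (a : F) (b : F) := by
      rw [h1]
      refine (hNRM.frm (a := (a : F)) (b := (b : F)) (a : F) 0 3).trans ?_
      unfold dsc
      ring
    refine (congrArg (fun y : F => (-1 : F) ^ (3 * (3 - 1) / 2) * y) h2).trans ?_
    norm_num
  obtain ⟨x1, y1, z1, h⟩ := SORM.mem_el hCOO a b _ hmem
  have h2 : (Algebra.discr F (AdjoinRoot.powerBasis h0).basis) • z =
      -(AdjoinRoot.of (fpol (a : F) (b : F)) (dsc (a : F) (b : F)) * z) := by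
    rw [hdisc, neg_smul, Algebra.smul_def]
    rfl
  have h := h2.symm.trans h
  have h4 : (((dsc a b : 𝓞 F) : F)) = dsc (a : F) (b : F) := by
    unfold dsc
    push_cast
    rfl
  have h3 : (dsc (a : F) (b : F)) * cf i z =
      -(cf i (el (a : F) (b : F) (x1 : F) (y1 : F) (z1 : F))) := by
    rw [← SORM.cf_smul hCOO, ← h, SORM.neg_sgn hCOO, neg_neg]
  rw [h4, h3]
  have hco := hCOO.co (a := (a : F)) (b := (b : F)) (x1 : F) (y1 : F) (z1 : F)
  match i with
  | 0 => exact ⟨-x1, by rw [hco.1]; push_cast; rfl⟩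
  | 1 => exact ⟨-y1, by rw [hco.2.1]; push_cast; rfl⟩
  | 2 => exact ⟨-z1, by rw [hco.2.2]; push_cast; rfl⟩
  | (n + 3) => exact ⟨0, by rw [hCOO.big _ _ (by omega)]; simp⟩

end Pool.Agent.Lib.MP_8cb858_nt.PF
end

section
/-!
# MP_8cb858_nt, Poonen-Rains up to epsilon over number fields, part C, module SPG (helper43)

Pigeonhole in the relative class group.
-/
set_option autoImplicit false

namespace Pool.Agent.Lib.MP_8cb858_nt.PF

open Polynomial NumberField IsDedekindDomain Pool.Agent.Lib.MP_8cb858_nt.SEL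
open scoped Classical nonZeroDivisors

namespace SPGM

variable {F : Type} (L : Type) [Field F] [NumberField F] [Field L] [NumberField L] [Algebra F L]

theorem xt_ne {A : Ideal (𝓞 F)} (hA : A ≠ ⊥) : xt L A ≠ ⊥ := by
  intro h
  apply hA
  have hinj : Function.Injective (algebraMap (𝓞 F) (𝓞 L)) :=
    FaithfulSMul.algebraMap_injective (𝓞 F) (𝓞 L)
  exact (Ideal.map_eq_bot_iff_of_injective hinj).1 h

theorem xt_mul (A B : Ideal (𝓞 F)) : xt L (A * B) = xt L A * xt L B :=
  Ideal.map_mul _ A B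

theorem xt_one : xt L (1 : Ideal (𝓞 F)) = 1 := by
  rw [Ideal.one_eq_top, Ideal.one_eq_top]
  exact Ideal.map_top _

/-- The extended ideal as a nonzero ideal. -/
noncomputable def xt0 (A : (Ideal (𝓞 F))⁰) : (Ideal (𝓞 L))⁰ :=
  ⟨xt L (A : Ideal (𝓞 F)), mem_nonZeroDivisors_of_ne_zero (xt_ne L (nonZeroDivisors.coe_ne_zero A))⟩

/-- The homomorphism `A ↦` class of the extended ideal. -/
noncomputable def cls : (Ideal (𝓞 F))⁰ →* ClassGroup (𝓞 L) where
  toFun A := ClassGroup.mk0 (xt0 L A)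
  map_one' := by
    have : xt0 L (1 : (Ideal (𝓞 F))⁰) = 1 := Subtype.ext (xt_one L)
    rw [this, map_one]
  map_mul' A B := by
    have : xt0 L (A * B) = xt0 L A * xt0 L B := Subtype.ext (xt_mul L A.1 B.1)
    rw [this, map_mul]

variable (F) in
/-- The classes of extended ideals. -/
noncomputable def H : Subgroup (ClassGroup (𝓞 L)) where
  carrier := Set.range (cls (F := F) L)
  one_mem' := ⟨1, map_one _⟩
  mul_mem' := by
    rintro _ _ ⟨A, rfl⟩ ⟨B, rfl⟩
    exact ⟨A * B, map_mul _ _ _⟩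
  inv_mem' := by
    rintro _ ⟨A, rfl⟩
    refine ⟨A ^ (Fintype.card (ClassGroup (𝓞 L)) - 1), ?_⟩
    rw [map_pow]
    apply eq_inv_of_mul_eq_one_left
    rw [← pow_succ, Nat.sub_add_cancel Fintype.card_pos, pow_card_eq_one]

end SPGM

open SPGM in
/-- **SPG** -/
theorem specSPG : SpecSPG := by
  intro F L _ _ _ _ _ m J hJ
  let Q := ClassGroup (𝓞 L) ⧸ H F L
  have hsurj : ∀ c : Q, ∃ I : (Ideal (𝓞 L))⁰, (QuotientGroup.mk (ClassGroup.mk0 I) : Q) = c := by
    intro c
    obtain ⟨d, rfl⟩ := QuotientGroup.mk_surjective c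
    obtain ⟨I, rfl⟩ := ClassGroup.mk0_surjective (R := 𝓞 L) d
    exact ⟨I, rfl⟩
  choose R hR using hsurj
  have : Fintype Q := Fintype.ofFinite Q
  have hJ' : ∀ k, J k ∈ (Ideal (𝓞 L))⁰ := fun k => mem_nonZeroDivisors_of_ne_zero (hJ k)
  let J' : Fin m → (Ideal (𝓞 L))⁰ := fun k => ⟨J k, hJ' k⟩
  let M : Finset (Fin m) × Q → (Ideal (𝓞 L))⁰ := fun q => (∏ k ∈ q.1, J' k) * (R q.2) ^ 2
  let G : Finset (Fin m) × Q → Q := fun q => QuotientGroup.mk (ClassGroup.mk0 (M q))
  obtain ⟨c, hc⟩ := Fintype.exists_le_card_fiber_of_mul_le_card G (n := 2 ^ m) (by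
     rw [Fintype.card_prod, Fintype.card_finset, Fintype.card_fin, mul_comm])
  obtain ⟨e⟩ : Nonempty (Fin (2 ^ m) ↪ {q // G q = c}) := by
    apply Function.Embedding.nonempty_of_card_le
    rw [Fintype.card_fin, Fintype.card_subtype]
    exact hc
  have hcoe : ∀ q : Finset (Fin m) × Q,
      ((M q : (Ideal (𝓞 L))⁰) : Ideal (𝓞 L)) =
        (∏ k ∈ q.1, J k) * (R q.2 : Ideal (𝓞 L)) ^ 2 := by
    intro q
    rw [Submonoid.coe_mul, Submonoid.coe_finsetProd, SubmonoidClass.coe_pow]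
  set q0 := (e ⟨0, Nat.two_pow_pos m⟩) with hq0
  have hne : ∀ c, (R c : Ideal (𝓞 L)) ≠ ⊥ := fun c => nonZeroDivisors.coe_ne_zero (R c)
  have key : ∀ i, ∃ (x y : 𝓞 L) (C : Ideal (𝓞 F)), x ≠ 0 ∧ y ≠ 0 ∧ C ≠ ⊥ ∧
      Ideal.span {x} * ((∏ k ∈ (e i).1.1, J k) * (R (e i).1.2 : Ideal (𝓞 L)) ^ 2) =
      Ideal.span {y} * (xt L C * ((∏ k ∈ q0.1.1, J k) * (R q0.1.2 : Ideal (𝓞 L)) ^ 2)) := by
    intro i
    have h1 : G q0.1 = G (e i).1 := q0.2.trans (e i).2.symm
    obtain ⟨C, hC⟩ : (ClassGroup.mk0 (M q0.1))⁻¹ * ClassGroup.mk0 (M (e i).1) ∈ H F L :=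
      QuotientGroup.eq.1 h1
    have h3 : ClassGroup.mk0 (xt0 L C) =
        (ClassGroup.mk0 (M q0.1))⁻¹ * ClassGroup.mk0 (M (e i).1) := hC
    have h4 : ClassGroup.mk0 (xt0 L C * M q0.1) =
        ClassGroup.mk0 (xt0 L C) * ClassGroup.mk0 (M q0.1) := map_mul _ _ _
    have h2 : ClassGroup.mk0 (M (e i).1) = ClassGroup.mk0 (xt0 L C * M q0.1) := by
      rw [h4, h3, mul_comm _ (ClassGroup.mk0 (M (e i).1)), inv_mul_cancel_right]
    obtain ⟨x, y, hx, hy, h⟩ := ClassGroup.mk0_eq_mk0_iff.1 h2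
    have h5 : ((xt0 L C * M q0.1 : (Ideal (𝓞 L))⁰) : Ideal (𝓞 L)) =
        xt L (C : Ideal (𝓞 F)) * ((M q0.1 : (Ideal (𝓞 L))⁰) : Ideal (𝓞 L)) :=
      Submonoid.coe_mul _ _ _
    rw [h5, hcoe, hcoe] at h
    exact ⟨x, y, C, hx, hy, nonZeroDivisors.coe_ne_zero C, h⟩
  choose x y C hx hy hC hxy using key
  refine ⟨fun i => (e i).1.1, fun i => (R (e i).1.2 : Ideal (𝓞 L)), x, y, C, q0.1.1,
    (R q0.1.2 : Ideal (𝓞 L)), hne _, fun i => ⟨hne _, hx i, hy i, hC i, hxy i⟩, ?_⟩
  intro i j hij hT g h A B hg hh hA hB heq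
  apply hij
  apply e.injective
  apply Subtype.ext
  refine Prod.ext hT ?_
  let A' : (Ideal (𝓞 F))⁰ := ⟨A, mem_nonZeroDivisors_of_ne_zero hA⟩
  let B' : (Ideal (𝓞 F))⁰ := ⟨B, mem_nonZeroDivisors_of_ne_zero hB⟩
  have h1 : ClassGroup.mk0 (xt0 L A' * R (e i).1.2) = ClassGroup.mk0 (xt0 L B' * R (e j).1.2) :=
    ClassGroup.mk0_eq_mk0_iff.2 ⟨g, h, hg, hh, heq⟩
  rw [map_mul, map_mul] at h1
  rw [← hR (e i).1.2, ← hR (e j).1.2]
  apply QuotientGroup.eq.2
  have h2 : (ClassGroup.mk0 (R (e i).1.2))⁻¹ * ClassGroup.mk0 (R (e j).1.2) =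
      ClassGroup.mk0 (xt0 L A') * (ClassGroup.mk0 (xt0 L B'))⁻¹ := by
    rw [inv_mul_eq_iff_eq_mul, ← mul_assoc, mul_comm (ClassGroup.mk0 (R (e i).1.2)), h1,
      mul_comm (ClassGroup.mk0 (xt0 L B')), mul_inv_cancel_right]
  rw [h2]
  exact (H F L).mul_mem ⟨A', rfl⟩ ((H F L).inv_mem ⟨B', rfl⟩)

end Pool.Agent.Lib.MP_8cb858_nt.PF
end

section
/-!
# Module SPQ: the two coprime factors of a place with a simple root
-/
namespace Pool.Agent.Lib.MP_8cb858_nt.PF

open Polynomial NumberField IsDedekindDomain Pool.Agent.Lib.MP_8cb858_nt.SEL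

namespace SPQM

theorem exists_inv {R : Type} [CommRing R] {I : Ideal R} (hI : I.IsMaximal) {d : R}
    (hd : d ∉ I) : ∃ m ∈ I, ∃ c : R, m + c * d = 1 := by
  have h := hI.out.2 (I ⊔ Ideal.span {d}) (lt_of_le_of_ne le_sup_left (by
    intro h
    apply hd
    rw [h]
    exact (le_sup_right : Ideal.span {d} ≤ I ⊔ Ideal.span {d}) (Ideal.mem_span_singleton_self d)))
  have h1 : (1 : R) ∈ I ⊔ Ideal.span {d} := by
    rw [h]
    trivial
  obtain ⟨m, hm, e, he, hme⟩ := Submodule.mem_sup.1 h1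
  obtain ⟨c, rfl⟩ := Ideal.mem_span_singleton'.1 he
  exact ⟨m, hm, c, hme⟩

theorem core {R S : Type} [CommRing R] [IsDedekindDomain R] [CommRing S] [IsDedekindDomain S]
    [Algebra R S] (N : Ideal S → Ideal R) (hmul : ∀ I J : Ideal S, N (I * J) = N I * N J)
    (hN : ∀ I : Ideal R, N (I.map (algebraMap R S)) = I ^ 3)
    (hmono : ∀ I J : Ideal S, I ≤ J → N I ≤ N J)
    (v : HeightOneSpectrum R) (y d : R) (s g u : S)
    (h1 : s * g = -algebraMap R S y) (h2 : g = algebraMap R S d + s * u)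
    (hy1 : y ∈ v.asIdeal) (hy2 : y ∉ v.asIdeal ^ 2) (hd : d ∉ v.asIdeal)
    (hs : N (Ideal.span {s}) = Ideal.span {y}) :
    ∃ P Q : Ideal S, P * Q = v.asIdeal.map (algebraMap R S) ∧ P ⊔ Q = ⊤ ∧
      N Q = v.asIdeal ^ 2 := by
  obtain ⟨V, hV⟩ : ∃ V : Ideal S, V = v.asIdeal.map (algebraMap R S) := ⟨_, rfl⟩
  have hyV : algebraMap R S y ∈ V := by
    rw [hV]
    exact Ideal.mem_map_of_mem _ hy1
  have hv0 : v.asIdeal ≠ 0 := by
    rw [Ideal.zero_eq_bot]
    exact v.ne_bot
  have hy0 : y ≠ 0 := by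
    intro h
    apply hy2
    rw [h]
    exact Ideal.zero_mem _
  refine ⟨V ⊔ Ideal.span {s}, V ⊔ Ideal.span {g}, ?_⟩
  obtain ⟨P, hP⟩ : ∃ P : Ideal S, P = V ⊔ Ideal.span {s} := ⟨_, rfl⟩
  obtain ⟨Q, hQ⟩ : ∃ Q : Ideal S, Q = V ⊔ Ideal.span {g} := ⟨_, rfl⟩
  rw [← hP, ← hQ, ← hV]
  have hVP : V ≤ P := by rw [hP]; exact le_sup_left
  have hVQ : V ≤ Q := by rw [hQ]; exact le_sup_left
  have hsP : Ideal.span {s} ≤ P := by rw [hP]; exact le_sup_right
  have hgQ : Ideal.span {g} ≤ Q := by rw [hQ]; exact le_sup_right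
  have htop : P ⊔ Q = ⊤ := by
    obtain ⟨m, hm, c, hmc⟩ := exists_inv v.isMaximal hd
    rw [Ideal.eq_top_iff_one]
    have h3 : (1 : S) = algebraMap R S m + (-(algebraMap R S c * u)) * s +
        algebraMap R S c * g := by
      have h4 : algebraMap R S m + algebraMap R S c * algebraMap R S d = 1 := by
        rw [← map_mul, ← map_add, hmc, map_one]
      linear_combination -h4 - algebraMap R S c * h2
    rw [h3]
    apply Ideal.add_mem
    · apply Ideal.add_mem
      · exact (hVP.trans le_sup_left) (by rw [hV]; exact Ideal.mem_map_of_mem _ hm)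
      · exact Ideal.mul_mem_left _ _
          ((hsP.trans le_sup_left) (Ideal.mem_span_singleton_self s))
    · exact Ideal.mul_mem_left _ _
        ((hgQ.trans le_sup_right) (Ideal.mem_span_singleton_self g))
  have hPQ : P * Q = V := by
    apply le_antisymm
    · rw [hP, hQ, Ideal.sup_mul, Ideal.mul_sup, Ideal.mul_sup]
      refine sup_le (sup_le Ideal.mul_le_right Ideal.mul_le_left) (sup_le Ideal.mul_le_right ?_)
      rw [Ideal.span_singleton_mul_span_singleton, h1, Ideal.span_singleton_neg,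
        Ideal.span_singleton_le_iff_mem]
      exact hyV
    · have h3 : V = V * (P ⊔ Q) := by rw [htop, Ideal.mul_top]
      rw [h3, Ideal.mul_sup]
      refine sup_le ?_ (Ideal.mul_mono_left hVP)
      rw [mul_comm]
      exact Ideal.mul_mono_right hVQ
  refine ⟨hPQ, htop, ?_⟩
  have hprime : Prime v.asIdeal := v.prime
  have hNPQ : N P * N Q = v.asIdeal ^ 3 := by rw [← hmul, hPQ, hV, hN]
  obtain ⟨i, hi3, hi⟩ := (dvd_prime_pow hprime 3).1 (Dvd.intro _ hNPQ)
  obtain ⟨j, hj3, hj⟩ := (dvd_prime_pow hprime 3).1 (Dvd.intro_left _ hNPQ)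
  rw [associated_iff_eq] at hi hj
  have hij : i + j = 3 := by
    rw [hi, hj, ← pow_add] at hNPQ
    exact pow_injective_of_not_isUnit hprime.not_isUnit hv0 hNPQ
  have hi1 : i ≤ 1 := by
    by_contra hi2
    apply hy2
    have h3 : Ideal.span {y} ≤ v.asIdeal ^ i := by
      rw [← hs, ← hi]
      exact hmono _ _ hsP
    have h4 : v.asIdeal ^ i ≤ v.asIdeal ^ 2 := Ideal.pow_le_pow_right (by omega)
    exact h4 (h3 (Ideal.mem_span_singleton_self y))
  have hj2 : j ≤ 2 := by
    by_contra hj3'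
    have hj4 : j = 3 := by omega
    have hgN : N (Ideal.span {g}) = Ideal.span {y} ^ 2 := by
      have h5 : N (Ideal.span {s}) * N (Ideal.span {g}) = Ideal.span {y} ^ 3 := by
        rw [← hmul, Ideal.span_singleton_mul_span_singleton, h1, Ideal.span_singleton_neg,
          ← hN, Ideal.map_span, Set.image_singleton]
      rw [hs] at h5
      have h6 : Ideal.span {y} * N (Ideal.span {g}) = Ideal.span {y} * Ideal.span {y} ^ 2 := by
        rw [h5]; ring
      exact mul_left_cancel₀ (by rw [Ideal.zero_eq_bot, Ne, Ideal.span_singleton_eq_bot]; exact hy0) h6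
    obtain ⟨C, hC⟩ : v.asIdeal ∣ Ideal.span {y} := by
      rw [Ideal.dvd_iff_le, Ideal.span_singleton_le_iff_mem]
      exact hy1
    have hCv : ¬ v.asIdeal ∣ C := by
      rintro ⟨D, hD⟩
      apply hy2
      have h7 : Ideal.span {y} ≤ v.asIdeal ^ 2 := by
        rw [hC, hD, ← mul_assoc, ← pow_two]
        exact Ideal.mul_le_left
      exact h7 (Ideal.mem_span_singleton_self y)
    apply hCv
    apply hprime.dvd_of_dvd_pow (n := 2)
    have h8 : v.asIdeal ^ 3 ∣ Ideal.span {y} ^ 2 := by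
      rw [Ideal.dvd_iff_le, ← hgN, ← hj4, ← hj]
      exact hmono _ _ hgQ
    rw [hC, mul_pow] at h8
    have h9 : v.asIdeal ^ 2 * v.asIdeal ∣ v.asIdeal ^ 2 * C ^ 2 := by
      rw [← pow_succ]
      exact h8
    exact (mul_dvd_mul_iff_left (pow_ne_zero 2 hv0)).1 h9
  have hj5 : j = 2 := by omega
  rw [hj, hj5]

/-- the prime may be taken with `f x` not in `v ^ 2` -/
theorem exists_x {R : Type} [CommRing R] [IsDedekindDomain R] (v : HeightOneSpectrum R)
    (a b x : R) (h1 : x ^ 3 + a * x + b ∈ v.asIdeal) (h2 : 3 * x ^ 2 + a ∉ v.asIdeal) :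
    ∃ y : R, y ^ 3 + a * y + b ∈ v.asIdeal ∧ y ^ 3 + a * y + b ∉ v.asIdeal ^ 2 ∧
      3 * y ^ 2 + a ∉ v.asIdeal := by
  by_cases h3 : x ^ 3 + a * x + b ∈ v.asIdeal ^ 2
  · obtain ⟨π, hπ, hπ2⟩ : ∃ π ∈ v.asIdeal, π ∉ v.asIdeal ^ 2 := by
      by_contra h
      push Not at h
      have h4 : v.asIdeal ∣ 1 := by
        have h5 : v.asIdeal * v.asIdeal ∣ v.asIdeal * 1 := by
          rw [mul_one, ← pow_two, Ideal.dvd_iff_le]
          exact h
        exact (mul_dvd_mul_iff_left (by rw [Ideal.zero_eq_bot]; exact v.ne_bot)).1 h5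
      exact v.prime.not_isUnit (isUnit_of_dvd_one h4)
    have hππ : π * π ∈ v.asIdeal ^ 2 := by
      rw [pow_two]
      exact Ideal.mul_mem_mul hπ hπ
    refine ⟨x + π, ?_, ?_, ?_⟩
    · have h4 : (x + π) ^ 3 + a * (x + π) + b =
          (x ^ 3 + a * x + b) + (3 * x ^ 2 + 3 * x * π + π ^ 2 + a) * π := by ring
      rw [h4]
      exact Ideal.add_mem _ h1 (Ideal.mul_mem_left _ _ hπ)
    · intro h4
      have h5 : (3 * x ^ 2 + a) * π ∈ v.asIdeal ^ 2 := by
        have h6 : (3 * x ^ 2 + a) * π = ((x + π) ^ 3 + a * (x + π) + b) -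
            (x ^ 3 + a * x + b) - (3 * x + π) * (π * π) := by ring
        rw [h6]
        exact Ideal.sub_mem _ (Ideal.sub_mem _ h4 h3) (Ideal.mul_mem_left _ _ hππ)
      obtain ⟨m, hm, c, hmc⟩ := exists_inv v.isMaximal h2
      apply hπ2
      have h7 : π = m * π + c * ((3 * x ^ 2 + a) * π) := by
        linear_combination (-π) * hmc
      rw [h7]
      refine Ideal.add_mem _ ?_ (Ideal.mul_mem_left _ _ h5)
      rw [pow_two]
      exact Ideal.mul_mem_mul hm hπ
    · intro h4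
      apply h2
      have h5 : 3 * x ^ 2 + a = (3 * (x + π) ^ 2 + a) - (6 * x + 3 * π) * π := by ring
      rw [h5]
      exact Ideal.sub_mem _ h4 (Ideal.mul_mem_left _ _ hπ)
  · exact ⟨x, h1, h3, h2⟩

theorem isInt {F L : Type} [Field F] [NumberField F] [Field L] [NumberField L] [Algebra F L]
    (a b : 𝓞 F) (t : L)
    (ht : t ^ 3 + algebraMap F L (a : F) * t + algebraMap F L (b : F) = 0) : IsIntegral ℤ t := by
  have h : IsIntegral (𝓞 F) t := by
    refine ⟨fpol a b, fpol_monic a b, ?_⟩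
    rw [eval₂_fpol]
    rw [IsScalarTower.algebraMap_apply (𝓞 F) F L, IsScalarTower.algebraMap_apply (𝓞 F) F L]
    exact ht
  exact isIntegral_trans t h

theorem main {F L : Type} [Field F] [NumberField F] [Field L] [NumberField L] [Algebra F L]
    (hfin : Module.finrank F L = 3) (a b y : 𝓞 F) (t : L)
    (ht : t ^ 3 + algebraMap F L (a : F) * t + algebraMap F L (b : F) = 0)
    (hn : Algebra.norm F (t - algebraMap F L (y : F)) = -((y ^ 3 + a * y + b : 𝓞 F) : F))
    (v : HeightOneSpectrum (𝓞 F)) (hy1 : y ^ 3 + a * y + b ∈ v.asIdeal)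
    (hy2 : y ^ 3 + a * y + b ∉ v.asIdeal ^ 2) (hy3 : 3 * y ^ 2 + a ∉ v.asIdeal) :
    ∃ P Q : Ideal (𝓞 L), P * Q = xt L v.asIdeal ∧ P ⊔ Q = ⊤ ∧
      Ideal.relNorm (𝓞 F) Q = v.asIdeal ^ 2 := by
  have hrk : Module.finrank (𝓞 F) (𝓞 L) = 3 := by
    rw [← hfin]
    exact (IsFractionRing.finrank_eq (𝓞 F) F (𝓞 L) L).symm
  obtain ⟨T, hT⟩ : ∃ T : 𝓞 L, (T : L) = t := ⟨⟨t, isInt a b t ht⟩, rfl⟩
  have hT3 : T ^ 3 + algebraMap (𝓞 F) (𝓞 L) a * T + algebraMap (𝓞 F) (𝓞 L) b = 0 := by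
    apply RingOfIntegers.coe_injective (K := L)
    rw [← hT] at ht
    simp only [map_add, map_mul, map_pow, map_zero]
    exact ht
  refine SPQM.core (fun I => Ideal.relNorm (𝓞 F) I) (fun I J => map_mul _ _ _)
    (fun I => ?_) (fun I J h => Ideal.relNorm_mono _ h) v (y ^ 3 + a * y + b) (3 * y ^ 2 + a)
    (T - algebraMap (𝓞 F) (𝓞 L) y)
    (T ^ 2 + algebraMap (𝓞 F) (𝓞 L) y * T + (algebraMap (𝓞 F) (𝓞 L) y ^ 2 +
      algebraMap (𝓞 F) (𝓞 L) a)) (T + 2 * algebraMap (𝓞 F) (𝓞 L) y) ?_ ?_ hy1 hy2 hy3 ?_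
  · show Ideal.relNorm (𝓞 F) (I.map (algebraMap (𝓞 F) (𝓞 L))) = I ^ 3
    rw [Ideal.relNorm_algebraMap, hrk]
  · simp only [map_add, map_mul, map_pow]
    linear_combination hT3
  · simp only [map_add, map_mul, map_pow, map_ofNat]
    ring
  · show Ideal.relNorm (𝓞 F) (Ideal.span {T - algebraMap (𝓞 F) (𝓞 L) y}) = _
    rw [Ideal.relNorm_singleton, ← Ideal.span_singleton_neg (y ^ 3 + a * y + b)]
    congr 2
    apply RingOfIntegers.coe_injective (K := F)
    refine (Algebra.algebraMap_intNorm (A := 𝓞 F) (K := F) (L := L) (B := 𝓞 L) _).trans ?_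
    have h5 : algebraMap (𝓞 L) L (T - algebraMap (𝓞 F) (𝓞 L) y) =
        t - algebraMap F L (y : F) := by
      rw [map_sub, ← hT]
      rfl
    rw [h5, hn]
    simp

end SPQM

theorem specSPQ (hNRM : SpecNRM) : SpecSPQ := by
  intro F _ _ a b _ v x hx1 hx2
  obtain ⟨y, hy1, hy2, hy3⟩ := SPQM.exists_x v a b x hx1 hx2
  have hfin : Module.finrank F (Lk (a : F) (b : F)) = 3 := by
    have h4 := (AdjoinRoot.powerBasis' (fpol_monic (a : F) (b : F))).finrank
    rw [h4]
    show (fpol (a : F) (b : F)).natDegree = 3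
    have h : (C (a : F) * X + C (b : F)).degree < ((X : F[X]) ^ 3).degree := by
      rw [degree_X_pow]
      exact lt_of_le_of_lt degree_linear_le (by norm_num)
    unfold fpol
    rw [add_assoc, natDegree_add_eq_left_of_degree_lt h, natDegree_X_pow]
  have hth : th (a : F) (b : F) ^ 3 + algebraMap F (Lk (a : F) (b : F)) (a : F) *
      th (a : F) (b : F) + algebraMap F (Lk (a : F) (b : F)) (b : F) = 0 := by
    have h := AdjoinRoot.eval₂_root (fpol (a : F) (b : F))
    rw [eval₂_fpol] at h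
    exact h
  have hn : Algebra.norm F (th (a : F) (b : F) - algebraMap F (Lk (a : F) (b : F)) (y : F)) =
      -((y ^ 3 + a * y + b : 𝓞 F) : F) := by
    have h1 := hNRM.lin (a := (a : F)) (b := (b : F)) (-1) (y : F)
    have h2 : AdjoinRoot.of (fpol (a : F) (b : F)) (-1) *
        (AdjoinRoot.of (fpol (a : F) (b : F)) (y : F) - th (a : F) (b : F)) =
        th (a : F) (b : F) - algebraMap F (Lk (a : F) (b : F)) (y : F) := by
      rw [map_neg, map_one, neg_one_mul, neg_sub]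
      rfl
    refine (congrArg (Algebra.norm F) h2.symm).trans (h1.trans ?_)
    push_cast
    ring
  exact SPQM.main hfin a b y _ hth hn v hy1 hy2 hy3

end Pool.Agent.Lib.MP_8cb858_nt.PF
end

section
/-!
# SPX: an ideal of relative norm `v^2` which is not a square
-/
set_option autoImplicit false

namespace Pool.Agent.Lib.MP_8cb858_nt.PF

open Polynomial NumberField IsDedekindDomain Pool.Agent.Lib.MP_8cb858_nt.SEL
open scoped Classical WithZero

/-- **SPX.** -/
theorem specSPX : SpecSPX := by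
  intro F L _ _ _ _ _ v P Q h3 hPQ hco hQ
  have hvne : v.asIdeal ≠ ⊥ := v.ne_bot
  have hvp : Prime v.asIdeal := v.prime
  have hvt : v.asIdeal ≠ ⊤ := v.isPrime.ne_top
  have hxt : xt L v.asIdeal ≠ ⊥ := by
    intro h
    apply hvne
    rw [← le_bot_iff]
    intro x hx
    have h1 : algebraMap (𝓞 F) (𝓞 L) x ∈ xt L v.asIdeal := Ideal.mem_map_of_mem _ hx
    rw [h, Ideal.mem_bot] at h1
    rw [Ideal.mem_bot]
    exact (map_eq_zero_iff _ (FaithfulSMul.algebraMap_injective (𝓞 F) (𝓞 L))).1 h1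
  have hfr : Module.finrank (𝓞 F) (𝓞 L) = 3 := by
    rw [← h3]
    exact (IsFractionRing.finrank_eq (𝓞 F) F (𝓞 L) L).symm
  have hxtn : Ideal.relNorm (𝓞 F) (xt L v.asIdeal) = v.asIdeal ^ 3 := by
    rw [Ideal.relNorm_algebraMap, hfr]
  have hPn : Ideal.relNorm (𝓞 F) P = v.asIdeal := by
    have h1 := congrArg (Ideal.relNorm (𝓞 F)) hPQ
    rw [map_mul, hQ, hxtn] at h1
    have h2 : v.asIdeal ^ 3 = v.asIdeal * v.asIdeal ^ 2 := by ring
    rw [h2] at h1
    exact mul_right_cancel₀ (pow_ne_zero 2 hvne) h1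
  have hQt : Q ≠ ⊤ := by
    intro h
    rw [h, Ideal.relNorm_top] at hQ
    have h1 : v.asIdeal ^ 2 ≤ v.asIdeal := Ideal.pow_le_self two_ne_zero
    rw [← hQ] at h1
    exact hvt (top_le_iff.1 h1)
  obtain ⟨W, hW, hQW⟩ := Ideal.exists_le_maximal Q hQt
  have hxQ : xt L v.asIdeal ≤ Q := by
    rw [← hPQ]
    exact Ideal.mul_le_right
  have hxP : xt L v.asIdeal ≤ P := by
    rw [← hPQ]
    exact Ideal.mul_le_left
  have hWne : W ≠ ⊥ := by
    rintro rfl
    exact hxt (le_bot_iff.1 (hxQ.trans hQW))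
  set w : HeightOneSpectrum (𝓞 L) := ⟨W, hW.isPrime, hWne⟩ with hw
  have hWp : Prime W := w.prime
  -- `W` lies over `v`
  have hcomap : W.comap (algebraMap (𝓞 F) (𝓞 L)) = v.asIdeal := by
    have h1 : v.asIdeal ≤ W.comap (algebraMap (𝓞 F) (𝓞 L)) := by
      rw [← Ideal.map_le_iff_le_comap]
      exact hxQ.trans hQW
    have h2 : W.comap (algebraMap (𝓞 F) (𝓞 L)) ≠ ⊤ := by
      intro h
      exact hW.isPrime.ne_top ((Ideal.comap_eq_top_iff).1 h)
    exact (v.isMaximal.eq_of_le h2 h1).symm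
  have hover : W.LiesOver v.asIdeal := ⟨hcomap.symm⟩
  have hWprime : W.IsPrime := hW.isPrime
  obtain ⟨s, hs⟩ := Ideal.exists_relNorm_eq_pow_of_isPrime W v.asIdeal
  have hs2 : s ≤ 2 := by
    have h1 : v.asIdeal ^ 2 ≤ v.asIdeal ^ s := by
      rw [← hQ, ← hs]
      exact Ideal.relNorm_mono (𝓞 F) hQW
    rw [← Ideal.dvd_iff_le] at h1
    exact (pow_dvd_pow_iff hvne hvp.not_isUnit).1 h1
  have hs0 : s ≠ 0 := by
    rintro rfl
    rw [pow_zero, Ideal.one_eq_top] at hs
    have h1 := Ideal.relNorm_le_comap (𝓞 F) W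
    rw [hs, hcomap] at h1
    exact hvt (top_le_iff.1 h1)
  have hW2 : ¬ W ≤ W ^ 2 := by
    intro h
    rw [← Ideal.dvd_iff_le] at h
    have h1 : W ^ 2 ∣ W ^ 1 := by rwa [pow_one]
    have := (pow_dvd_pow_iff hWne hWp.not_isUnit).1 h1
    omega
  rcases (by omega : s = 2 ∨ s = 1) with rfl | rfl
  · exact ⟨W, w, hxQ.trans hQW, hs, le_rfl, hW2⟩
  · refine ⟨P * W, w, ?_, ?_, Ideal.mul_le_right, ?_⟩
    · rw [← hPQ]
      exact Ideal.mul_mono_right hQW
    · rw [map_mul, hPn, hs, pow_one, pow_two]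
    · intro h
      have h1 : W ^ 2 ∣ P * W := Ideal.dvd_iff_le.2 h
      rw [pow_two] at h1
      have h2 : W ∣ P := (mul_dvd_mul_iff_right hWne).1 h1
      have h4 : P ⊔ Q ≤ W := sup_le (Ideal.dvd_iff_le.1 h2) hQW
      rw [hco] at h4
      exact hW.isPrime.ne_top (top_le_iff.1 h4)

end Pool.Agent.Lib.MP_8cb858_nt.PF
end

section
/-!
# Module SRP: the number of infinite places of a cubic extension
-/
namespace Pool.Agent.Lib.MP_8cb858_nt.PF

open Polynomial NumberField IsDedekindDomain Pool.Agent.Lib.MP_8cb858_nt.SEL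

namespace SRPM

theorem isReal_ofReal {K : Type} [Field K] (ψ : K →+* ℝ) :
    ComplexEmbedding.IsReal (Complex.ofRealHom.comp ψ) := by
  rw [ComplexEmbedding.isReal_iff]
  ext x
  rw [ComplexEmbedding.conjugate_coe_eq]
  show (starRingEnd ℂ) ((ψ x : ℝ) : ℂ) = ((ψ x : ℝ) : ℂ)
  exact Complex.conj_ofReal _

theorem real_le (F L : Type) [Field F] [NumberField F] [Field L] [NumberField L] [Algebra F L]
    (hext : ∀ φ : F →+* ℝ, ∃ ψ : L →+* ℝ, ∀ x : F, ψ (algebraMap F L x) = φ x) :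
    InfinitePlace.nrRealPlaces F ≤ InfinitePlace.nrRealPlaces L := by
  classical
  rw [← InfinitePlace.card_real_embeddings, ← InfinitePlace.card_real_embeddings]
  choose g hg using hext
  refine Fintype.card_le_of_injective
    (fun φ : {φ : F →+* ℂ // ComplexEmbedding.IsReal φ} =>
      (⟨Complex.ofRealHom.comp (g φ.2.embedding), isReal_ofReal _⟩ :
        {φ : L →+* ℂ // ComplexEmbedding.IsReal φ})) ?_
  intro φ φ' h
  apply Subtype.ext
  ext x
  have h1 := congrArg (fun ψ : {φ : L →+* ℂ // ComplexEmbedding.IsReal φ} =>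
    ψ.1 (algebraMap F L x)) h
  simp only [RingHom.comp_apply, hg] at h1
  rw [← ComplexEmbedding.IsReal.coe_embedding_apply φ.2 x,
    ← ComplexEmbedding.IsReal.coe_embedding_apply φ'.2 x]
  exact h1

end SRPM

theorem specSRP : SpecSRP := by
  intro F L _ _ _ _ _ h3 hext
  have hF := InfinitePlace.card_add_two_mul_card_eq_rank F
  have hL := InfinitePlace.card_add_two_mul_card_eq_rank L
  have hF2 := InfinitePlace.card_eq_nrRealPlaces_add_nrComplexPlaces F
  have hL2 := InfinitePlace.card_eq_nrRealPlaces_add_nrComplexPlaces L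
  have hdeg : Module.finrank ℚ L = Module.finrank ℚ F * 3 := by
    rw [← Module.finrank_mul_finrank ℚ F L, h3]
  have hle := SRPM.real_le F L hext
  omega

end Pool.Agent.Lib.MP_8cb858_nt.PF
end

section
/-!
# Module SRR: a real embedding extends to the cubic algebra
-/
namespace Pool.Agent.Lib.MP_8cb858_nt.PF

open Polynomial NumberField IsDedekindDomain Pool.Agent.Lib.MP_8cb858_nt.SEL

namespace SRRM

theorem root (A B : ℝ) : ∃ t : ℝ, t ^ 3 + A * t + B = 0 := by
  have hA1 := le_abs_self A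
  have hA2 := neg_abs_le A
  have hB1 := le_abs_self B
  have hB2 := neg_abs_le B
  have hA0 := abs_nonneg A
  have hB0 := abs_nonneg B
  obtain ⟨M, hM⟩ : ∃ M : ℝ, M = 1 + |A| + |B| := ⟨_, rfl⟩
  have hM1 : 1 ≤ M := by linarith
  have hM0 : 0 < M := by linarith
  have h1 : M ^ 2 ≤ M ^ 3 := by
    have : M ^ 3 - M ^ 2 = M ^ 2 * (M - 1) := by ring
    have h2 : 0 ≤ M ^ 2 * (M - 1) := mul_nonneg (sq_nonneg M) (by linarith)
    linarith
  have h3 : |A| * M + |B| ≤ M ^ 2 := by
    have h4 : M ^ 2 = M + |A| * M + |B| * M := by rw [pow_two]; nth_rewrite 1 [hM]; ring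
    have h5 : |B| ≤ |B| * M := le_mul_of_one_le_right hB0 hM1
    linarith
  have h6 : -(|A| * M) ≤ A * M := by
    have := mul_le_mul_of_nonneg_right hA2 hM0.le
    linarith
  have h7 : A * (-M) ≤ |A| * M := by
    have := mul_le_mul_of_nonneg_right hA2 hM0.le
    linarith
  have hmem := mem_range_of_exists_le_of_exists_ge (c := (0 : ℝ))
    (f := fun t : ℝ => t ^ 3 + A * t + B) (by fun_prop)
    ⟨-M, by show (-M) ^ 3 + A * (-M) + B ≤ 0; nlinarith⟩
    ⟨M, by show 0 ≤ M ^ 3 + A * M + B; nlinarith⟩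
  obtain ⟨t, ht⟩ := hmem
  exact ⟨t, ht⟩

end SRRM

theorem specSRR : SpecSRR := by
  intro F _ a b φ
  obtain ⟨t, ht⟩ := SRRM.root (φ a) (φ b)
  exact ⟨AdjoinRoot.lift φ t (by rw [eval₂_fpol]; exact ht), fun x => AdjoinRoot.lift_of _⟩

end Pool.Agent.Lib.MP_8cb858_nt.PF
end

section
/-!
# SU: many global classes which are unit classes outside a finite set of places of `F`
-/
namespace Pool.Agent.Lib.MP_8cb858_nt.PF

open Polynomial NumberField IsDedekindDomain Pool.Agent.Lib.MP_8cb858_nt.SEL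
open scoped Classical WithZero

namespace SUM

set_option linter.unusedSectionVars false

variable {F L : Type} [Field F] [NumberField F] [Field L] [NumberField L] [Algebra F L]

/-- The projection to the classes of square norm. -/
noncomputable def pj (x : L) : L := x * algebraMap F L (Algebra.norm F x)

theorem pj_ne {x : L} (hx : x ≠ 0) : pj (F := F) x ≠ 0 := by
  have h0 : Algebra.norm F x ≠ 0 := Algebra.norm_ne_zero_iff.mpr hx
  exact mul_ne_zero hx ((_root_.map_ne_zero _).mpr h0)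

theorem norm_pj (h3 : Module.finrank F L = 3) (x : L) :
    Algebra.norm F (pj (F := F) x) = (Algebra.norm F x ^ 2) ^ 2 := by
  unfold pj
  rw [map_mul, Algebra.norm_algebraMap, h3]
  ring

/-- the place under a place is unique -/
theorem over_eq {v v' : HeightOneSpectrum (𝓞 F)} {w : HeightOneSpectrum (𝓞 L)}
    (h : xt L v.asIdeal ≤ w.asIdeal) (h' : xt L v'.asIdeal ≤ w.asIdeal) : v = v' := by
  have h1 : v.asIdeal ≤ w.asIdeal.comap (algebraMap (𝓞 F) (𝓞 L)) :=
    Ideal.map_le_iff_le_comap.mp h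
  have h2 : v'.asIdeal ≤ w.asIdeal.comap (algebraMap (𝓞 F) (𝓞 L)) :=
    Ideal.map_le_iff_le_comap.mp h'
  have h3 : w.asIdeal.comap (algebraMap (𝓞 F) (𝓞 L)) ≠ ⊤ := by
    intro h
    exact w.isPrime.ne_top (Ideal.comap_eq_top_iff.mp h)
  have h4 := v.isMaximal.eq_of_le h3 h1
  have h5 := v'.isMaximal.eq_of_le h3 h2
  exact HeightOneSpectrum.ext (h4.trans h5.symm)

theorem dist_aux {x y c e U g : L} (hy : y ≠ 0) (hc : c ≠ 0) (hU : U * e = 1)
    (hG : g ^ 2 = (x * y) * c * e) : x = U * c⁻¹ * y * (g / y) ^ 2 := by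
  have h1 : U * c⁻¹ * y * (g / y) ^ 2 = (U * e) * x := by
    rw [div_pow, hG]
    field_simp
  rw [h1, hU, one_mul]

end SUM

open SUM

theorem specSU (hSIR : SpecSIR) (hSRR : SpecSRR) (hSRP : SpecSRP) (hSUE : SpecSUE)
    (hSPQ : SpecSPQ) (hSPX : SpecSPX) (hSEJ : SpecSEJ) (hSCT : SpecSCT) (hSEV : SpecSEV) :
    SpecSU := by
  intro F _ _ a b S M _ hdsc hw _ hSM hD hS
  obtain ⟨w0, hw0⟩ := hw
  obtain ⟨hirr, hfin⟩ := hSIR F a b w0 hw0
  have : Fact (Irreducible (fpol (a : F) (b : F))) := ⟨hirr⟩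
  set L := Lk (a : F) (b : F) with hL
  set n := Module.finrank ℚ F with hn
  obtain ⟨E, hEN, hEd⟩ := hSUE F L (hSRP F L hfin (fun φ => by
    obtain ⟨ψ, hψ⟩ := hSRR F (a : F) (b : F) φ
    exact ⟨ψ, fun x => hψ x⟩))
  -- the ideals over the places of `S` and `M`
  have hexS : ∀ k : S, ∃ (J : Ideal (𝓞 L)) (w : HeightOneSpectrum (𝓞 L)), xt L k.1.asIdeal ≤ J ∧
      Ideal.relNorm (𝓞 F) J = k.1.asIdeal ^ 2 ∧ J ≤ w.asIdeal ∧ ¬ J ≤ w.asIdeal ^ 2 := by
    rintro ⟨k, hk⟩
    obtain ⟨x, hx, hx'⟩ := hS k hk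
    obtain ⟨P, Q, h1, h2, h3⟩ := hSPQ F a b k x hx hx'
    exact hSPX F L k P Q hfin h1 h2 h3
  choose JS wS hS1 hS2 hS3 hS4 using hexS
  have hexM : ∀ k : M, _ := fun k => hSEJ F a b k.1 hdsc
  choose d JM wM hM0 hM1 hM2 hM3 hM4 hM5 using hexM
  let I : Type := S ⊕ (Σ k : M, Fin (d k))
  let qI : I → HeightOneSpectrum (𝓞 F) := Sum.elim (fun k => k.1) (fun z => z.1.1)
  let JI : I → Ideal (𝓞 L) := Sum.elim JS (fun z => JM z.1 z.2)
  let wI : I → HeightOneSpectrum (𝓞 L) := Sum.elim wS (fun z => wM z.1 z.2)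
  have hI1 : ∀ k, xt L (qI k).asIdeal ≤ JI k := by
    rintro (k | ⟨k, i⟩)
    exacts [hS1 k, hM1 k i]
  have hI2 : ∀ k, Ideal.relNorm (𝓞 F) (JI k) = (qI k).asIdeal ^ 2 := by
    rintro (k | ⟨k, i⟩)
    exacts [hS2 k, hM2 k i]
  have hI3 : ∀ k, JI k ≤ (wI k).asIdeal := by
    rintro (k | ⟨k, i⟩)
    exacts [hS3 k, hM3 k i]
  have hI4 : ∀ k, ¬ JI k ≤ (wI k).asIdeal ^ 2 := by
    rintro (k | ⟨k, i⟩)
    exacts [hS4 k, hM4 k i]
  have hI5 : ∀ k l, k ≠ l → ¬ JI l ≤ (wI k).asIdeal := by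
    intro k l hkl h
    have hq : qI k = qI l := over_eq ((hI1 k).trans (hI3 k)) ((hI1 l).trans h)
    rcases k with k | ⟨k, i⟩ <;> rcases l with l | ⟨l, j⟩
    · exact hkl (congrArg Sum.inl (Subtype.ext hq))
    · exact hSM k.1 k.2 ((show k.1 = l.1 from hq) ▸ l.2)
    · exact hSM l.1 l.2 ((show k.1 = l.1 from hq) ▸ k.2)
    · have hkl' : k = l := Subtype.ext hq
      subst hkl'
      exact hM5 k i j (fun e => hkl (by rw [e])) h
  have hIS : ∀ k, qI k ∈ S ∨ qI k ∈ M := by
    rintro (k | ⟨k, i⟩)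
    exacts [Or.inl k.2, Or.inr k.2]
  set m := Fintype.card I with hm
  have hmc : 2 ^ m = 2 ^ S.card * ∏ v ∈ M, (1 + nr a b v) := by
    rw [hm, Fintype.card_sum, Fintype.card_coe, Fintype.card_sigma, pow_add, ← Finset.prod_coe_sort,
      ← Finset.prod_pow_eq_pow_sum]
    congr 1
    refine Finset.prod_congr rfl fun k _ => ?_
    rw [Fintype.card_fin]
    exact hM0 k
  let e : Fin m ≃ I := (Fintype.equivFin I).symm
  let q : Fin m → HeightOneSpectrum (𝓞 F) := fun k => qI (e k)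
  obtain ⟨α, hα0, hαv, hαd⟩ := hSCT F L m q (fun k => JI (e k)) (fun k => wI (e k)) hfin
    (fun k l hkl => hI5 _ _ (fun h => hkl (e.injective h))) (fun k => hI1 _) (fun k => hI2 _)
    (fun k => hI3 _) (fun k => hI4 _)
  have hE0 : ∀ j, ((E j : 𝓞 L) : L) ≠ 0 := by
    intro j h
    have : (E j : 𝓞 L) = 0 := by
      exact_mod_cast (NumberField.RingOfIntegers.coe_eq_zero_iff).mp h
    exact (E j).ne_zero this
  -- the family
  let β : Fin (2 ^ m) × Fin (2 ^ n) → L := fun z => pj (F := F) (α z.1) * ((E z.2 : 𝓞 L) : L)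
  have hβ0 : ∀ z, β z ≠ 0 := fun z => mul_ne_zero (pj_ne (hα0 _)) (hE0 _)
  have key : ∀ z z', z ≠ z' → ¬ IsSquare (β z * β z') := by
    rintro ⟨i, s⟩ ⟨j, t⟩ hzw ⟨γ, hγ⟩
    have hij : i = j := by
      by_contra hij
      have hi := hα0 i
      have hj := hα0 j
      have hNi : Algebra.norm F (α i) ≠ 0 := Algebra.norm_ne_zero_iff.mpr hi
      have hNj : Algebra.norm F (α j) ≠ 0 := Algebra.norm_ne_zero_iff.mpr hj
      refine hαd i j hij ((E s) * (E t))⁻¹ (Algebra.norm F (α i) * Algebra.norm F (α j))⁻¹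
        (γ / α j) ?_
      have hU : ((((E s * E t)⁻¹ : (𝓞 L)ˣ) : 𝓞 L) : L) * (((E s : 𝓞 L) : L) * ((E t : 𝓞 L) : L)) = 1 := by
        rw [← map_mul, ← map_mul, ← Units.val_mul, ← Units.val_mul, inv_mul_cancel, Units.val_one,
          map_one]
      have hG : γ ^ 2 = (α i * α j) * (algebraMap F L (Algebra.norm F (α i)) *
          algebraMap F L (Algebra.norm F (α j))) * (((E s : 𝓞 L) : L) * ((E t : 𝓞 L) : L)) := by
        rw [sq, ← hγ]
        simp only [β, pj]
        ring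
      rw [map_inv₀, map_mul (algebraMap F L)]
      exact dist_aux hj (mul_ne_zero ((_root_.map_ne_zero _).mpr hNi) ((_root_.map_ne_zero _).mpr hNj))
        hU hG
    subst hij
    have hst : s ≠ t := fun h => hzw (by rw [h])
    apply hEd s t hst
    have hai := pj_ne (F := F) (hα0 i)
    refine ⟨γ / pj (F := F) (α i), ?_⟩
    have hG : γ * γ = (pj (F := F) (α i) * pj (F := F) (α i)) *
        (((E s : 𝓞 L) : L) * ((E t : 𝓞 L) : L)) := by
      rw [← hγ]
      simp only [β]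
      ring
    rw [div_mul_div_comm, hG, mul_div_cancel_left₀ _ (mul_ne_zero hai hai)]
  have hinj : Function.Injective β := by
    intro z z' h
    by_contra hzw
    exact key z z' hzw ⟨β z, by rw [← h]⟩
  refine ⟨Finset.univ.image β, ?_, ?_, ?_⟩
  · rw [Finset.card_image_of_injective _ hinj, Finset.card_univ, Fintype.card_prod,
      Fintype.card_fin, Fintype.card_fin, hmc, pow_add]
    apply le_of_eq
    ring
  · intro x hx
    obtain ⟨⟨i, s⟩, -, rfl⟩ := Finset.mem_image.mp hx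
    refine ⟨⟨(hβ0 _).isUnit, ?_⟩, ?_⟩
    · have h1 : Algebra.norm F (β (i, s)) = (Algebra.norm F (α i) ^ 2) ^ 2 *
          Algebra.norm F ((E s : 𝓞 L) : L) := by
        simp only [β]
        rw [map_mul, norm_pj hfin]
      have h2 : IsSquare (Algebra.norm F (β (i, s))) := by
        rw [h1]
        exact (IsSquare.sq _).mul (hEN s)
      exact h2
    · intro v hvS hvM
      refine hSEV F a b v _ (hβ0 _) (fun h => (hD v h).elim hvS hvM) ?_
      intro w hw
      have hqw : ∀ k, ¬ xt L (q k).asIdeal ≤ w.asIdeal := by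
        intro k hk
        have hne : q k ≠ v := fun h => (hIS (e k)).elim (fun h' => hvS (h ▸ h')) (fun h' => hvM (h ▸ h'))
        exact hne (over_eq hk hw)
      have hηw : w.valuation L ((E s : 𝓞 L) : L) = 1 := by
        refine (w.valuation_eq_one_iff_notMem (K := L) (r := (E s : 𝓞 L))).mpr ?_
        intro h
        exact w.isPrime.ne_top (Ideal.eq_top_of_isUnit_mem _ h (E s).isUnit)
      have h6 : w.valuation L (β (i, s)) = w.valuation L (pj (F := F) (α i)) := by
        simp only [β]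
        rw [map_mul, hηw, mul_one]
      rw [h6]
      exact hαv i w hqw
  · intro x hx y hy hxy
    obtain ⟨z, -, rfl⟩ := Finset.mem_image.mp hx
    obtain ⟨z', -, rfl⟩ := Finset.mem_image.mp hy
    exact key z z' (fun h => hxy (by rw [h]))

end Pool.Agent.Lib.MP_8cb858_nt.PF
end

section
/-!
# Module SUE: units of square norm
-/
namespace Pool.Agent.Lib.MP_8cb858_nt.PF

open Polynomial NumberField IsDedekindDomain
open scoped Classical

namespace SUEM

/-- an integral square root of a unit is a unit -/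
theorem exists_unit {L : Type} [Field L] [NumberField L] (u : (𝓞 L)ˣ) (γ : L)
    (h : ((u : 𝓞 L) : L) = γ * γ) : ∃ g : (𝓞 L)ˣ, ((g : 𝓞 L) : L) = γ ∧ u = g ^ 2 := by
  have hi : IsIntegral ℤ γ := by
    have h1 : IsIntegral ℤ (γ ^ 2) := by
      rw [sq, ← h]
      exact RingOfIntegers.isIntegral_coe _
    exact IsIntegral.of_pow (by norm_num) h1
  obtain ⟨c, hc⟩ : ∃ c : 𝓞 L, (c : L) = γ := ⟨⟨γ, hi⟩, rfl⟩
  have h2 : (u : 𝓞 L) = c * c := by
    apply RingOfIntegers.coe_injective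
    rw [map_mul]
    change ((u : 𝓞 L) : L) = (c : L) * (c : L)
    rw [hc, h]
  have hcu : IsUnit c := isUnit_of_mul_isUnit_left (h2 ▸ u.isUnit)
  obtain ⟨g, hg⟩ := hcu
  refine ⟨g, by rw [hg, hc], ?_⟩
  apply Units.ext
  rw [h2, Units.val_pow_eq_pow_val, hg, sq]

end SUEM

theorem specSUE (hSUI : SpecSUI) : SpecSUE := by
  intro F L _ _ _ _ _ hle
  have hF := hSUI F
  have hL := hSUI L
  set SL : Subgroup (𝓞 L)ˣ := (powMonoidHom 2 : (𝓞 L)ˣ →* (𝓞 L)ˣ).range with hSL
  set SF : Subgroup (𝓞 F)ˣ := (powMonoidHom 2 : (𝓞 F)ˣ →* (𝓞 F)ˣ).range with hSF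
  set N : (𝓞 L)ˣ →* (𝓞 F)ˣ := Units.map (RingOfIntegers.norm F) with hN
  set G : Subgroup (𝓞 L)ˣ := SF.comap N with hG
  have hSG : SL ≤ G := by
    rintro _ ⟨x, rfl⟩
    refine ⟨N x, ?_⟩
    simp only [powMonoidHom_apply, map_pow]
  have h1 : SL.relIndex G * G.index = SL.index := Subgroup.relIndex_mul_index hSG
  have h2 : G.index ∣ SF.index := by
    rw [hG, Subgroup.index_comap]
    exact Subgroup.relIndex_dvd_index_of_normal _ _
  have h3 : G.index ≤ 2 ^ Fintype.card (InfinitePlace F) := by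
    rw [← hF]
    exact Nat.le_of_dvd (by rw [hF]; positivity) h2
  have h4 : 2 ^ Module.finrank ℚ F ≤ SL.relIndex G := by
    have h5 : 2 ^ Module.finrank ℚ F * 2 ^ Fintype.card (InfinitePlace F) ≤
        SL.relIndex G * 2 ^ Fintype.card (InfinitePlace F) := by
      calc 2 ^ Module.finrank ℚ F * 2 ^ Fintype.card (InfinitePlace F)
          = 2 ^ (Module.finrank ℚ F + Fintype.card (InfinitePlace F)) := (pow_add _ _ _).symm
        _ ≤ 2 ^ Fintype.card (InfinitePlace L) := Nat.pow_le_pow_right (by norm_num) hle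
        _ = SL.relIndex G * G.index := by rw [h1, hL]
        _ ≤ _ := Nat.mul_le_mul_left _ h3
    exact Nat.le_of_mul_le_mul_right h5 (by positivity)
  -- representatives
  have h6 : 2 ^ Module.finrank ℚ F ≤ Nat.card (G ⧸ SL.subgroupOf G) := h4
  have h7 : Finite (G ⧸ SL.subgroupOf G) := by
    apply Nat.finite_of_card_ne_zero
    have : 0 < 2 ^ Module.finrank ℚ F := by positivity
    omega
  obtain ⟨f⟩ : Nonempty (Fin (2 ^ Module.finrank ℚ F) ↪ G ⧸ SL.subgroupOf G) := by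
    have e := (Finite.equivFin (G ⧸ SL.subgroupOf G))
    exact ⟨(Fin.castLEEmb h6).trans e.symm.toEmbedding⟩
  refine ⟨fun i => ((f i).out : G), ?_, ?_⟩
  · intro i
    obtain ⟨v, hv⟩ := (f i).out.2
    refine ⟨((v : 𝓞 F) : F), ?_⟩
    have h8 := congrArg (fun z : (𝓞 F)ˣ => ((z : 𝓞 F) : F)) hv
    simp only [powMonoidHom_apply, Units.val_pow_eq_pow_val] at h8
    rw [← sq]
    have h9 : ((((v : 𝓞 F)) ^ 2 : 𝓞 F) : F) = ((v : 𝓞 F) : F) ^ 2 := map_pow _ _ _
    rw [← h9, h8]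
    rfl
  · intro i j hij ⟨γ, hγ⟩
    apply hij
    apply f.injective
    have h8 : (((((f i).out : (𝓞 L)ˣ) * ((f j).out : (𝓞 L)ˣ) : (𝓞 L)ˣ) : 𝓞 L) : L) = γ * γ := by
      rw [← hγ, Units.val_mul]
      exact map_mul _ _ _
    obtain ⟨g, -, hg⟩ := SUEM.exists_unit _ _ h8
    rw [← (f i).out_eq', ← (f j).out_eq']
    refine QuotientGroup.eq.2 ?_
    rw [Subgroup.mem_subgroupOf]
    refine ⟨((f i).out : (𝓞 L)ˣ)⁻¹ * g, ?_⟩
    simp only [powMonoidHom_apply]
    rw [mul_pow, ← hg, Subgroup.coe_mul, Subgroup.coe_inv, sq]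
    group

end Pool.Agent.Lib.MP_8cb858_nt.PF
end

section
/-!
# MP_8cb858_nt, Poonen-Rains up to epsilon over number fields, part C, module SUI (helper43)

The index of the squares in the unit group of a number field.
-/
set_option autoImplicit false

namespace Pool.Agent.Lib.MP_8cb858_nt.PF

open Polynomial NumberField IsDedekindDomain Pool.Agent.Lib.MP_8cb858_nt.SEL
open scoped Classical

/-- **SUI** -/
theorem specSUI : SpecSUI := by
  intro K _ _
  set S := (powMonoidHom 2 : (𝓞 K)ˣ →* (𝓞 K)ˣ).range with hS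
  set T := Units.torsion K with hT
  have e1 : S.relIndex (S ⊔ T) = 2 := by
    rw [Subgroup.relIndex_sup_left]
    have h : S.subgroupOf T = (powMonoidHom 2 : T →* T).range := by
      ext x
      rw [Subgroup.mem_subgroupOf]
      constructor
      · rintro ⟨y, hy⟩
        have hy' : y ^ 2 = (x : (𝓞 K)ˣ) := hy
        have hyT : y ∈ T := by
          rw [hT, Units.torsion, CommGroup.mem_torsion]
          have hx : (x : (𝓞 K)ˣ) ∈ Units.torsion K := x.2
          rw [Units.torsion, CommGroup.mem_torsion, ← hy'] at hx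
          exact hx.of_pow (by norm_num)
        exact ⟨⟨y, hyT⟩, Subtype.ext hy'⟩
      · rintro ⟨y, rfl⟩
        exact ⟨(y : (𝓞 K)ˣ), rfl⟩
    rw [Subgroup.relIndex, h, IsCyclic.index_powMonoidHom_range]
    exact Nat.gcd_eq_right (Units.even_torsionOrder K).two_dvd
  have e2 : (S ⊔ T).index = 2 ^ Units.rank K := by
    have h1 := Subgroup.index_map S (QuotientGroup.mk' T)
    rw [QuotientGroup.ker_mk', QuotientGroup.range_mk', Subgroup.index_top, mul_one] at h1
    rw [← h1]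
    have h2 : S.map (QuotientGroup.mk' T) =
        (powMonoidHom (α := (𝓞 K)ˣ ⧸ T) 2).range := by
      ext x
      constructor
      · rintro ⟨_, ⟨y, rfl⟩, rfl⟩
        exact ⟨QuotientGroup.mk' T y, (map_pow (QuotientGroup.mk' T) y 2).symm⟩
      · rintro ⟨y, rfl⟩
        obtain ⟨z, rfl⟩ := QuotientGroup.mk'_surjective T y
        exact ⟨z ^ 2, ⟨z, rfl⟩, map_pow (QuotientGroup.mk' T) z 2⟩
    rw [h2, ← Subgroup.index_toAddSubgroup]
    have h3 := AddSubgroup.index_range_nsmul (Additive ((𝓞 K)ˣ ⧸ T)) 2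
    rw [Units.finrank_modTorsion] at h3
    exact h3
  rw [← Subgroup.relIndex_mul_index (le_sup_left : S ≤ S ⊔ T), e1, e2, ← pow_succ']
  congr 1
  unfold Units.rank
  exact Nat.sub_add_cancel Fintype.card_pos

end Pool.Agent.Lib.MP_8cb858_nt.PF
end
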