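import Pool.Agent.Lib.MP_8cb858_nt.PF.SpecS
import Pool.Agent.Lib.MP_8cb858_nt.PF.SUI

/-!
# SEM: an embedding of `L` into `F_v` gives a place of relative degree one
-/

set_option autoImplicit false

namespace Pool.Agent.Lib.MP_8cb858_nt.PF

open Polynomial NumberField IsDedekindDomain Pool.Agent.Lib.MP_8cb858_nt.SEL
open scoped Classical WithZero

namespace SEMM

variable {F L : Type} [Field F] [NumberField F] [Field L] [NumberField L] [Algebra F L]
  (v : HeightOneSpectrum (𝓞 F)) (ψ : L →+* v.adicCompletion F)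

/-- the valuation of `L` induced by `ψ` -/
noncomputable def U : Valuation L ℤᵐ⁰ := (vv v).comap ψ

omit [NumberField L] [Algebra F L] in
theorem U_apply (x : L) : U v ψ x = vv v (ψ x) := rfl

omit [NumberField L] [Algebra F L] in
theorem U_le (z : 𝓞 L) : U v ψ (z : L) ≤ 1 := by
  have h1 : IsIntegral ℤ (z : L) := RingOfIntegers.isIntegral_coe z
  have h3 : IsIntegral (v.adicCompletionIntegers F) (ψ (z : L)) := by
    obtain ⟨p, hp, hp0⟩ := h1
    refine ⟨p.map (Int.castRingHom _), hp.map _, ?_⟩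
    rw [eval₂_map]
    have h4 := congrArg ψ hp0
    rw [map_zero, hom_eval₂] at h4
    rw [← h4]
    congr 1
    exact RingHom.ext_int _ _
  obtain ⟨y, hy⟩ := IsIntegrallyClosed.isIntegral_iff.1 h3
  rw [U_apply, ← hy]
  exact y.2

omit [NumberField L] [Algebra F L] in
theorem le_exp {x : L} (h : U v ψ x < 1) : U v ψ x ≤ WithZero.exp (-1 : ℤ) := by
  by_cases h0 : U v ψ x = 0
  · rw [h0]
    exact zero_le
  · rw [← WithZero.exp_log h0, ← WithZero.exp_zero, WithZero.exp_lt_exp] at h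
    rw [← WithZero.exp_log h0, WithZero.exp_le_exp]
    omega

/-- the prime ideal -/
noncomputable def P : Ideal (𝓞 L) where
  carrier := {z | U v ψ (z : L) < 1}
  zero_mem' := by
    show U v ψ ((0 : 𝓞 L) : L) < 1
    simp
  add_mem' := by
    intro a b ha hb
    show U v ψ ((a + b : 𝓞 L) : L) < 1
    have : ((a + b : 𝓞 L) : L) = (a : L) + b := rfl
    rw [this]
    exact Valuation.map_add_lt _ ha hb
  smul_mem' := by
    intro c a ha
    show U v ψ ((c * a : 𝓞 L) : L) < 1
    have : ((c * a : 𝓞 L) : L) = (c : L) * a := rfl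
    rw [this, map_mul]
    exact (mul_le_of_le_one_left' (U_le v ψ c)).trans_lt ha

omit [NumberField L] [Algebra F L] in
theorem mem_P (z : 𝓞 L) : z ∈ P v ψ ↔ U v ψ (z : L) < 1 := Iff.rfl

omit [NumberField L] [Algebra F L] in
theorem notMem_P {z : 𝓞 L} (h : z ∉ P v ψ) : U v ψ (z : L) = 1 :=
  le_antisymm (U_le v ψ z) (not_lt.1 h)

instance : (P v ψ).IsPrime where
  ne_top' := by
    rw [Ideal.ne_top_iff_one, mem_P]
    have : ((1 : 𝓞 L) : L) = 1 := rfl
    rw [this, map_one]
    exact lt_irrefl _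
  mem_or_mem' := by
    intro x y h
    by_contra hc
    push Not at hc
    rw [mem_P] at h
    have : ((x * y : 𝓞 L) : L) = (x : L) * y := rfl
    rw [this, map_mul, notMem_P v ψ hc.1, notMem_P v ψ hc.2, one_mul] at h
    exact lt_irrefl _ h

omit [NumberField L] [Algebra F L] in
theorem sq_le {z : 𝓞 L} (h : z ∈ P v ψ ^ 2) : U v ψ (z : L) ≤ WithZero.exp (-2 : ℤ) := by
  rw [pow_two] at h
  refine Submodule.mul_induction_on h ?_ ?_
  · intro a ha b hb
    have : ((a * b : 𝓞 L) : L) = (a : L) * b := rfl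
    rw [this, map_mul]
    have e : (WithZero.exp (-2 : ℤ) : ℤᵐ⁰) = WithZero.exp (-1 : ℤ) * WithZero.exp (-1 : ℤ) := by
      rw [← WithZero.exp_add]; norm_num
    rw [e]
    exact mul_le_mul' (le_exp v ψ ha) (le_exp v ψ hb)
  · intro x y hx hy
    have : ((x + y : 𝓞 L) : L) = (x : L) + y := rfl
    rw [this]
    exact Valuation.map_add_le _ hx hy

section alg

variable (hψ : ∀ x : F, ψ (algebraMap F L x) = algebraMap F (v.adicCompletion F) x)

include hψ

omit [NumberField L] in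
theorem U_alg (x : F) : U v ψ (algebraMap F L x) = v.valuation F x := by
  rw [U_apply, hψ]
  exact HeightOneSpectrum.valuedAdicCompletion_eq_valuation' (R := 𝓞 F) v x

omit [NumberField L] in
theorem U_int (x : 𝓞 F) : U v ψ ((algebraMap (𝓞 F) (𝓞 L) x : 𝓞 L) : L) = v.valuation F (x : F) :=
  U_alg v ψ hψ (x : F)

omit [NumberField L] in
theorem mem_iff (x : 𝓞 F) : algebraMap (𝓞 F) (𝓞 L) x ∈ P v ψ ↔ x ∈ v.asIdeal := by
  rw [mem_P, U_int v ψ hψ]
  exact v.valuation_lt_one_iff_mem x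

omit [NumberField L] in
theorem comap_P : (P v ψ).comap (algebraMap (𝓞 F) (𝓞 L)) = v.asIdeal := by
  ext x
  rw [Ideal.mem_comap]
  exact mem_iff v ψ hψ x

omit hψ [NumberField L] in
theorem exists_unif : ∃ π : 𝓞 F, v.valuation F (π : F) = WithZero.exp (-1 : ℤ) := by
  obtain ⟨π, hπ⟩ := v.intValuation_exists_uniformizer
  refine ⟨π, ?_⟩
  have h := v.valuation_of_algebraMap (K := F) π
  exact h.trans hπ

omit [NumberField L] in
/-- every integer of `L` is congruent to an integer of `F` -/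
theorem approx (z : 𝓞 L) : ∃ y : 𝓞 F, z - algebraMap (𝓞 F) (𝓞 L) y ∈ P v ψ := by
  obtain ⟨c, hc⟩ := SEDM.dens v (ψ (z : L)) 1 one_ne_zero
  rw [map_one] at hc
  have hc1 : v.valuation F c ≤ 1 := by
    have h1 : vv v (algebraMap F (v.adicCompletion F) c) ≤ 1 := by
      have e : algebraMap F (v.adicCompletion F) c =
          ψ (z : L) - (ψ (z : L) - algebraMap F (v.adicCompletion F) c) := by ring
      rw [e]
      exact Valuation.map_sub_le _ (U_le v ψ z) hc.le
    exact (HeightOneSpectrum.valuedAdicCompletion_eq_valuation' (R := 𝓞 F) v c).symm.trans_le h1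
  obtain ⟨a, ha⟩ := v.exists_valuation_sub_lt_of_integer hc1 1
  refine ⟨a, ?_⟩
  rw [mem_P]
  have e : ((z - algebraMap (𝓞 F) (𝓞 L) a : 𝓞 L) : L) =
      ((z : L) - algebraMap F L c) + (-(algebraMap F L ((a : F) - c))) := by
    have e1 : ((z - algebraMap (𝓞 F) (𝓞 L) a : 𝓞 L) : L) = (z : L) - algebraMap F L (a : F) := rfl
    rw [e1, map_sub]
    ring
  rw [e]
  refine Valuation.map_add_lt _ ?_ ?_
  · rw [U_apply, map_sub, hψ]
    exact hc
  · rw [Valuation.map_neg, U_alg v ψ hψ]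
    simpa using ha

theorem relNorm_P : Ideal.relNorm (𝓞 F) (P v ψ) = v.asIdeal := by
  have hover : (P v ψ).LiesOver v.asIdeal := ⟨(comap_P v ψ hψ).symm⟩
  obtain ⟨s, hs⟩ := Ideal.exists_relNorm_eq_pow_of_isPrime (P v ψ) v.asIdeal
  have h1 : Ideal.absNorm (Ideal.relNorm (𝓞 F) (P v ψ)) = Ideal.absNorm (P v ψ) :=
    Ideal.absNorm_relNorm (𝓞 F) (𝓞 L) (P v ψ)
  have h2 : Ideal.absNorm (P v ψ) ≤ Ideal.absNorm v.asIdeal := by
    rw [Ideal.absNorm_apply, Ideal.absNorm_apply, Submodule.cardQuot_apply,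
      Submodule.cardQuot_apply]
    have hfin : Finite (𝓞 F ⧸ v.asIdeal) := Ideal.finiteQuotientOfFreeOfNeBot _ v.ne_bot
    refine Nat.card_le_card_of_surjective
      (Ideal.quotientMap (P v ψ) (algebraMap (𝓞 F) (𝓞 L)) (comap_P v ψ hψ).ge) ?_
    intro z
    obtain ⟨z, rfl⟩ := Ideal.Quotient.mk_surjective z
    obtain ⟨y, hy⟩ := approx v ψ hψ z
    refine ⟨Ideal.Quotient.mk _ y, ?_⟩
    rw [Ideal.quotientMap_mk, eq_comm, Ideal.Quotient.eq]
    exact hy
  rw [hs, map_pow] at h1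
  have h3 : Ideal.absNorm v.asIdeal ≠ 1 := by
    rw [Ne, Ideal.absNorm_eq_one_iff]
    exact v.isPrime.ne_top
  have h4 : Ideal.absNorm v.asIdeal ≠ 0 := by
    rw [Ne, Ideal.absNorm_eq_zero_iff]
    exact v.ne_bot
  have h5 : 1 < Ideal.absNorm v.asIdeal := by omega
  rw [← h1] at h2
  have h6 : s ≤ 1 := by
    by_contra h
    have h7 : Ideal.absNorm v.asIdeal ^ 1 < Ideal.absNorm v.asIdeal ^ s :=
      Nat.pow_lt_pow_right h5 (by omega)
    rw [pow_one] at h7
    omega
  have h8 : s ≠ 0 := by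
    rintro rfl
    rw [pow_zero, Ideal.one_eq_top] at hs
    have h9 := Ideal.relNorm_le_comap (𝓞 F) (P v ψ)
    rw [hs, comap_P v ψ hψ] at h9
    exact v.isPrime.ne_top (top_le_iff.1 h9)
  have h10 : s = 1 := by omega
  rw [hs, h10, pow_one]

end alg

end SEMM

open SEMM in
/-- **SEM.** -/
theorem specSEM : SpecSEM := by
  intro F L _ _ _ _ _ v ψ hψ
  obtain ⟨π, hπ⟩ := exists_unif v
  set π' : 𝓞 L := algebraMap (𝓞 F) (𝓞 L) π with hπ'
  have hUπ : U v ψ (π' : L) = WithZero.exp (-1 : ℤ) := by rw [hπ', U_int v ψ hψ, hπ]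
  have hπ0 : π' ≠ 0 := by
    intro h
    rw [h] at hUπ
    have : U v ψ ((0 : 𝓞 L) : L) = 0 := by simp
    rw [this] at hUπ
    exact WithZero.exp_ne_zero hUπ.symm
  have hπP : π' ∈ P v ψ := by
    rw [mem_P, hUπ, ← WithZero.exp_zero, WithZero.exp_lt_exp]
    norm_num
  have hπP2 : π' ∉ P v ψ ^ 2 := by
    intro h
    have h1 := sq_le v ψ h
    rw [hUπ, WithZero.exp_le_exp] at h1
    norm_num at h1
  have hne : P v ψ ≠ ⊥ := by
    intro h
    rw [h] at hπP
    exact hπ0 (Ideal.mem_bot.1 hπP)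
  set w : HeightOneSpectrum (𝓞 L) := ⟨P v ψ, inferInstance, hne⟩ with hw
  have hπv : π ∈ v.asIdeal := by
    rw [← mem_iff v ψ hψ]
    exact hπP
  have hwπ : w.valuation L (π' : L) = WithZero.exp (-1 : ℤ) := by
    have h1 : w.valuation L (π' : L) = w.intValuation π' := w.valuation_of_algebraMap π'
    have h2 : w.intValuation π' ≤ WithZero.exp (-((1 : ℕ) : ℤ)) := by
      rw [HeightOneSpectrum.intValuation_le_pow_iff_mem, pow_one]
      exact hπP
    have h3 : ¬ w.intValuation π' ≤ WithZero.exp (-((2 : ℕ) : ℤ)) := by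
      rw [HeightOneSpectrum.intValuation_le_pow_iff_mem]
      exact hπP2
    have h4 : w.intValuation π' ≠ 0 := w.intValuation_ne_zero π' hπ0
    rw [h1]
    rw [← WithZero.exp_log h4] at h2 h3 ⊢
    rw [WithZero.exp_le_exp] at h2 h3
    rw [WithZero.exp_inj]
    push_cast at h2 h3
    omega
  refine ⟨w, ?_, ?_, relNorm_P v ψ hψ, ?_⟩
  · rw [Ideal.map_le_iff_le_comap]
    exact (comap_P v ψ hψ).ge
  · intro h
    exact hπP2 (h (Ideal.mem_map_of_mem _ hπv))
  · intro x
    by_cases hx : x = 0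
    · rw [hx, map_zero, map_zero, map_zero]
    have hwx : w.valuation L x ≠ 0 := (Valuation.ne_zero_iff _).2 hx
    set m := WithZero.log (w.valuation L x) with hm
    have hwm : w.valuation L x = WithZero.exp m := (WithZero.exp_log hwx).symm
    have hpow : (WithZero.exp (-1 : ℤ) : ℤᵐ⁰) ^ m = WithZero.exp (-m) := by
      rw [← WithZero.exp_zsmul]
      simp
    set y := x * (π' : L) ^ m with hy
    have hwy : w.valuation L y = 1 := by
      rw [hy, map_mul, map_zpow₀, hwπ, hwm, hpow, ← WithZero.exp_add, add_neg_cancel,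
        WithZero.exp_zero]
    obtain ⟨n, d, hnd⟩ := w.exists_primeCompl_mul_eq_of_integer y hwy.le
    have hd : ((d : 𝓞 L)) ∉ P v ψ := d.2
    have hwd : w.valuation L ((d : 𝓞 L) : L) = 1 := by
      rw [← w.valuation_eq_one_iff_notMem (K := L)] at hd
      exact hd
    have hn : n ∉ P v ψ := by
      have h1 : w.valuation L (n : L) = 1 := by
        have h2 := congrArg (w.valuation L) hnd
        rw [map_mul, hwy, one_mul] at h2
        exact h2.symm.trans hwd
      exact (w.valuation_eq_one_iff_notMem (K := L)).1 h1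
    have hUy : U v ψ y = 1 := by
      have h2 := congrArg (U v ψ) hnd
      rw [map_mul] at h2
      have h3 : U v ψ ((d : 𝓞 L) : L) = 1 := notMem_P v ψ hd
      have h4 : U v ψ (n : L) = 1 := notMem_P v ψ hn
      have h5 : U v ψ y * U v ψ ((d : 𝓞 L) : L) = U v ψ (n : L) := h2
      rw [h3, h4, mul_one] at h5
      exact h5
    rw [hy, map_mul, map_zpow₀, hUπ, hpow] at hUy
    have h6 : U v ψ x = WithZero.exp m := by
      have h7 : WithZero.exp (-m) * WithZero.exp m = (1 : ℤᵐ⁰) := by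
        rw [← WithZero.exp_add, neg_add_cancel, WithZero.exp_zero]
      calc U v ψ x = U v ψ x * (WithZero.exp (-m) * WithZero.exp m) := by rw [h7, mul_one]
        _ = (U v ψ x * WithZero.exp (-m)) * WithZero.exp m := by rw [mul_assoc]
        _ = WithZero.exp m := by rw [hUy, one_mul]
    rw [hwm, ← h6]
    rfl

end Pool.Agent.Lib.MP_8cb858_nt.PF
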