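import Pool.Agent.Lib.MP_8cb858_nt.PF.SpecG

section
/-!
# AVG: the averaging over the layers, abstractly
-/
set_option autoImplicit false

namespace Pool.Agent.Lib.MP_8cb858_nt.PF

open PR (Mop C2)
open scoped Classical

namespace AVGM

/-- the averages over the population and the choices converge to the law -/
theorem average (hTSF : SpecTSF) {κ ι : Type} {w : ι → ℕ} {δ : ℝ}
    {n : ℕ} {L : ℕ → Finset ι} (hL : LayG w δ n L) (G : Finset κ) (hG : 0 < G.card)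
    (s : κ → Bool → Finset ι → ℕ) {η C0 : ℝ} (hη : 0 ≤ η)
    (hpar : ∀ q ∈ G, (-1 : ℝ) ^ (s q true ∅) + (-1 : ℝ) ^ (s q false ∅) = 0)
    (hmom : ∑ q ∈ G, ((2 : ℝ) ^ (s q true ∅) + (2 : ℝ) ^ (s q false ∅)) ≤ C0 * (2 * G.card))
    (unb : ℕ → Finset ι → Bool → κ → Prop)
    (hstep : ∀ j < n, ∀ T ∈ Ts L j, ∀ c : Bool, ∀ q ∈ G, ¬ unb j T c q →
      ∀ f : ℕ → ℝ, (∀ k, |f k| ≤ 1) →
        |∑ p ∈ L j, f (s q c (insert p T)) - (L j).card * Mop f (s q c T)| ≤ 2 * η * (L j).card)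
    (hunb : ∀ j < n, ∀ T ∈ Ts L j, ∀ c : Bool,
      ∃ B : Finset κ, (∀ q ∈ G, unb j T c q → q ∈ B) ∧ (B.card : ℝ) ≤ η * G.card)
    (f : ℕ → ℝ) (hf : ∀ k, |f k| ≤ 1) :
    |∑ T ∈ Ts L n, ∑ c : Bool, ∑ q ∈ G, f (s q c T) -
      (∑' d, C2 d * f d) * (2 * (Ts L n).card * G.card)| ≤
      (n * (4 * η) + (1 / 2) ^ n * (2 * (C0 + 3))) * (2 * (Ts L n).card * G.card) := by
  have hg : (0 : ℝ) < G.card := by exact_mod_cast hG
  -- the averages
  let Lf : ℕ → (ℕ → ℝ) → ℝ := fun j f =>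
    (∑ T ∈ Ts L j, ∑ c : Bool, ∑ q ∈ G, f (s q c T)) /
      (2 * (Ts L j).card * G.card)
  have hMpos : ∀ j ≤ n, (0 : ℝ) < (Ts L j).card := fun j hj => by
    exact_mod_cast (hTSF.pos hL j hj).card_pos
  -- the population
  let Ω := {x : κ × Bool // x ∈ G ×ˢ (Finset.univ : Finset Bool)}
  have hΩ : Fintype.card Ω = 2 * G.card := by
    rw [Fintype.card_coe, Finset.card_product]
    simp [mul_comm]
  have hsumΩ : ∀ F : ℕ → ℝ, ∑ ω : Ω, F (s ω.1.1 ω.1.2 ∅) =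
      ∑ q ∈ G, (F (s q true ∅) + F (s q false ∅)) := by
    intro F
    rw [Finset.sum_coe_sort (G ×ˢ (Finset.univ : Finset Bool))
      (fun x => F (s x.1 x.2 ∅)), Finset.sum_product]
    refine Finset.sum_congr rfl fun q _ => ?_
    rw [Fintype.sum_bool]
  have h0 : ∀ f, Lf 0 f = (∑ ω : Ω, f (s ω.1.1 ω.1.2 ∅)) / Fintype.card Ω := by
    intro f
    rw [hsumΩ, hΩ]
    show (∑ T ∈ Ts L 0, ∑ c : Bool, ∑ q ∈ G, f (s q c T)) /
      (2 * (Ts L 0).card * G.card) = _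
    have e : Ts L 0 = {∅} := rfl
    rw [e, Finset.sum_singleton, Finset.card_singleton, Fintype.sum_bool,
      ← Finset.sum_add_distrib]
    push_cast
    ring
  have hstep' : ∀ j < n, ∀ f : ℕ → ℝ, (∀ k, |f k| ≤ 1) →
      |Lf (j + 1) f - Lf j (Mop f)| ≤ 4 * η := by
    intro j hj f hf
    have hN : (0 : ℝ) < (L j).card := by exact_mod_cast (hL.ne j hj).card_pos
    have hM := hMpos j hj.le
    have e1 : Lf (j + 1) f - Lf j (Mop f) =
        (∑ T ∈ Ts L j, ∑ c : Bool, ∑ q ∈ G,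
          (∑ p ∈ L j, f (s q c (insert p T)) -
            (L j).card * Mop f (s q c T))) /
          (2 * (Ts L j).card * G.card * (L j).card) := by
      show (∑ T ∈ Ts L (j + 1), ∑ c : Bool, ∑ q ∈ G, f (s q c T)) /
        (2 * (Ts L (j + 1)).card * G.card) -
        (∑ T ∈ Ts L j, ∑ c : Bool, ∑ q ∈ G, Mop f (s q c T)) /
        (2 * (Ts L j).card * G.card) = _
      rw [hTSF.sum hL j hj, hTSF.card hL j hj]
      have e2 : ∀ T, ∑ p ∈ L j, ∑ c : Bool, ∑ q ∈ G, f (s q c (insert p T)) =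
          ∑ c : Bool, ∑ q ∈ G, ∑ p ∈ L j, f (s q c (insert p T)) := by
        intro T
        rw [Finset.sum_comm]
        refine Finset.sum_congr rfl fun c _ => ?_
        rw [Finset.sum_comm]
      simp_rw [e2, Finset.sum_sub_distrib, ← Finset.mul_sum]
      push_cast
      field_simp
    rw [e1, abs_div, abs_of_pos (show (0 : ℝ) < 2 * (Ts L j).card * G.card * (L j).card by
      positivity), div_le_iff₀ (by positivity)]
    have hT : ∀ T ∈ Ts L j, ∀ c : Bool,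
        |∑ q ∈ G, (∑ p ∈ L j, f (s q c (insert p T)) -
            (L j).card * Mop f (s q c T))| ≤
          4 * η * (G.card * (L j).card) := by
      intro T hT c
      obtain ⟨B, hB, hBc⟩ := hunb j hj T hT c
      have h1 : ∀ q ∈ G, |∑ p ∈ L j, f (s q c (insert p T)) -
            (L j).card * Mop f (s q c T)| ≤
          2 * η * (L j).card + if q ∈ B then 2 * ((L j).card : ℝ) else 0 := by
        intro q hq
        by_cases hu : unb j T c q
        · rw [if_pos (hB q hq hu)]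
          have a : |∑ p ∈ L j, f (s q c (insert p T))| ≤ (L j).card := by
            refine (Finset.abs_sum_le_sum_abs _ _).trans ?_
            refine (Finset.sum_le_sum fun p _ => hf _).trans ?_
            simp
          have b : |((L j).card : ℝ) * Mop f (s q c T)| ≤ (L j).card := by
            rw [abs_mul, abs_of_pos hN]
            have := PR.MKM.Mop_bdd hf (s q c T)
            nlinarith
          have c' := abs_sub (∑ p ∈ L j, f (s q c (insert p T)))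
            (((L j).card : ℝ) * Mop f (s q c T))
          have d : 0 ≤ 2 * η * (L j).card := by positivity
          linarith
        · have a := hstep j hj T hT c q hq hu f hf
          split_ifs
          · linarith
          · linarith
      calc |∑ q ∈ G, (∑ p ∈ L j, f (s q c (insert p T)) -
            (L j).card * Mop f (s q c T))|
          ≤ ∑ q ∈ G, (2 * η * (L j).card + if q ∈ B then 2 * ((L j).card : ℝ) else 0) :=
            (Finset.abs_sum_le_sum_abs _ _).trans (Finset.sum_le_sum h1)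
        _ = G.card * (2 * η * (L j).card) + (G.filter (· ∈ B)).card * (2 * (L j).card) := by
            rw [Finset.sum_add_distrib, Finset.sum_const, nsmul_eq_mul, ← Finset.sum_filter,
              Finset.sum_const, nsmul_eq_mul]
        _ ≤ G.card * (2 * η * (L j).card) + (η * G.card) * (2 * (L j).card) := by
            have : ((G.filter (· ∈ B)).card : ℝ) ≤ B.card := by
              exact_mod_cast Finset.card_le_card fun x hx => (Finset.mem_filter.1 hx).2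
            have h3 := this.trans hBc
            gcongr
        _ = 4 * η * (G.card * (L j).card) := by ring
    calc |∑ T ∈ Ts L j, ∑ c : Bool, ∑ q ∈ G,
          (∑ p ∈ L j, f (s q c (insert p T)) -
            (L j).card * Mop f (s q c T))|
        ≤ ∑ T ∈ Ts L j, ∑ c : Bool, 4 * η * (G.card * (L j).card) := by
          refine (Finset.abs_sum_le_sum_abs _ _).trans (Finset.sum_le_sum fun T hT' => ?_)
          exact (Finset.abs_sum_le_sum_abs _ _).trans (Finset.sum_le_sum fun c _ => hT T hT' c)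
      _ = 4 * η * (2 * (Ts L j).card * G.card * (L j).card) := by
          rw [Finset.sum_const, Fintype.sum_bool, nsmul_eq_mul]
          ring
  have hmk := PR.mk_main (Ω := Ω) (fun ω => s ω.1.1 ω.1.2 ∅) (C0 := C0) (δ := 4 * η) n Lf h0
    (by rw [hΩ]; omega)
    (by
      have := hsumΩ (fun k => (-1 : ℝ) ^ k)
      rw [this]
      exact Finset.sum_eq_zero hpar)
    (by
      have := hsumΩ (fun k => (2 : ℝ) ^ k)
      rw [this, hΩ]
      push_cast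
      exact hmom)
    hstep' f hf
  have hpos : (0 : ℝ) < 2 * (Ts L n).card * G.card := by
    have := hMpos n le_rfl
    positivity
  have e3 : ∑ T ∈ Ts L n, ∑ c : Bool, ∑ q ∈ G, f (s q c T) =
      Lf n f * (2 * (Ts L n).card * G.card) := by
    show _ = (∑ T ∈ Ts L n, ∑ c : Bool, ∑ q ∈ G, f (s q c T)) /
      (2 * (Ts L n).card * G.card) * (2 * (Ts L n).card * G.card)
    rw [div_mul_cancel₀ _ hpos.ne']
  rw [e3, ← sub_mul, abs_mul, abs_of_pos hpos]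
  exact mul_le_mul_of_nonneg_right hmk hpos.le

end AVGM

end Pool.Agent.Lib.MP_8cb858_nt.PF
end

section
/-!
# BOX: boxes of pairs
-/
set_option autoImplicit false

namespace Pool.Agent.Lib.MP_8cb858_nt.PF

open NumberField IsDedekindDomain Pool.Agent.Lib.MP_8cb858_nt.SEL
open scoped Classical

namespace BOXM

theorem v_nat {F : Type} [Field F] [NumberField F] (v : InfinitePlace F) (D : ℕ) : v (D : F) = D := by
  rw [← InfinitePlace.norm_embedding_eq, map_natCast, Complex.norm_natCast]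

theorem rho_pow {x : ℝ} (hx : 0 ≤ x) {m : ℕ} (hm : 0 < m) :
    (x ^ (1 / (6 * (m : ℝ)))) ^ (6 * m) = x := by
  have h1 : (1 / (6 * (m : ℝ))) = ((6 * m : ℕ) : ℝ)⁻¹ := by
    push_cast
    rw [one_div]
  rw [h1, Real.rpow_inv_natCast_pow hx (by omega)]

theorem le_iff {t x : ℝ} (ht : 0 ≤ t) (hx : 0 ≤ x) {m : ℕ} (hm : 0 < m) {p q : ℕ} (hq : 0 < q)
    (h6 : p * q = 6) :
    (t ^ m) ^ q ≤ x ↔ t ≤ (x ^ (1 / (6 * (m : ℝ)))) ^ p := by
  have h0 : 0 ≤ x ^ (1 / (6 * (m : ℝ))) := Real.rpow_nonneg hx _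
  have h1 : x = (((x ^ (1 / (6 * (m : ℝ)))) ^ p) ^ m) ^ q := by
    rw [← pow_mul, ← pow_mul, show p * (m * q) = 6 * m by rw [← h6]; ring, rho_pow hx hm]
  conv_lhs => rw [h1]
  rw [pow_le_pow_iff_left₀ (by positivity) (by positivity) hq.ne',
    pow_le_pow_iff_left₀ ht (by positivity) hm.ne']

end BOXM

open BOXM in
theorem specBOX : SpecBOX := by
  intro F _ _
  refine ⟨?_, ?_, ?_, ?_⟩
  · intro X hX
    ext q
    unfold Box Bx
    simp only [Set.mem_ofPred_eq]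
    refine and_congr_right fun _ => forall_congr' fun v => ?_
    have hm : 0 < v.mult := v.mult_pos
    exact and_congr (le_iff (apply_nonneg _ _) (hX v) hm (by norm_num) (by norm_num))
      (le_iff (apply_nonneg _ _) (hX v) hm (by norm_num) (by norm_num))
  · intro ρ ρ' h0 h q hq
    exact ⟨hq.1, fun v => ⟨(hq.2 v).1.trans (pow_le_pow_left₀ (h0 v) (h v) 2),
      (hq.2 v).2.trans (pow_le_pow_left₀ (h0 v) (h v) 3)⟩⟩
  · intro ρ D a b hD
    unfold Bx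
    simp only [Set.mem_ofPred_eq]
    have hDF : ((D : 𝓞 F)) ≠ 0 := by exact_mod_cast hD.ne'
    have hD' : (0 : ℝ) < D := by exact_mod_cast hD
    refine and_congr ?_ (forall_congr' fun v => ?_)
    · have h1 : 4 * (a * (D : 𝓞 F) ^ 2) ^ 3 + 27 * (b * (D : 𝓞 F) ^ 3) ^ 2 =
          (D : 𝓞 F) ^ 6 * (4 * a ^ 3 + 27 * b ^ 2) := by ring
      rw [h1, mul_ne_zero_iff]
      exact ⟨fun h => h.2, fun h => ⟨pow_ne_zero _ hDF, h⟩⟩
    · push_cast
      rw [map_mul, map_mul, map_pow, map_pow, v_nat, div_pow, div_pow,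
        le_div_iff₀ (by positivity), le_div_iff₀ (by positivity)]
  · intro ρ D hD
    unfold vol
    simp only [div_pow]
    rw [Finset.prod_div_distrib, Finset.prod_pow_eq_pow_sum, InfinitePlace.sum_mult_eq]

end Pool.Agent.Lib.MP_8cb858_nt.PF
end

section
/-!
# CHB: Chebyshev for subsets
-/
set_option autoImplicit false

namespace Pool.Agent.Lib.MP_8cb858_nt.PF

open scoped Classical

namespace CHBM

theorem sum_sq {ι : Type} (P : Finset ι) : ∀ x : ℝ,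
    ∑ z ∈ P.powerset, (x + ((P.card : ℝ) - 2 * (z.card : ℝ))) ^ 2 =
      (x ^ 2 + P.card) * 2 ^ P.card := by
  induction P using Finset.induction_on with
  | empty => intro x; simp
  | insert a s ha ih =>
    intro x
    rw [Finset.sum_powerset_insert ha, Finset.card_insert_of_notMem ha]
    have h1 : ∑ z ∈ s.powerset, (x + (((s.card + 1 : ℕ) : ℝ) - 2 * (z.card : ℝ))) ^ 2 =
        ∑ z ∈ s.powerset, ((x + 1) + ((s.card : ℝ) - 2 * (z.card : ℝ))) ^ 2 := by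
      refine Finset.sum_congr rfl fun z _ => ?_
      push_cast
      ring
    have h2 : ∑ z ∈ s.powerset, (x + (((s.card + 1 : ℕ) : ℝ) -
          2 * ((insert a z).card : ℝ))) ^ 2 =
        ∑ z ∈ s.powerset, ((x - 1) + ((s.card : ℝ) - 2 * (z.card : ℝ))) ^ 2 := by
      refine Finset.sum_congr rfl fun z hz => ?_
      have haz : a ∉ z := fun h => ha (Finset.mem_powerset.1 hz h)
      rw [Finset.card_insert_of_notMem haz]
      push_cast
      ring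
    rw [h1, h2, ih, ih]
    push_cast
    ring

end CHBM

/-- **CHB.** -/
theorem specCHB : SpecCHB := by
  intro ι P η hη hP
  have hN : (0 : ℝ) < P.card := by exact_mod_cast hP.card_pos
  set F := P.powerset.filter (fun z => η * P.card < |(P.card : ℝ) - 2 * z.card|) with hF
  have h0 := CHBM.sum_sq P 0
  simp only [zero_add, ne_eq, OfNat.ofNat_ne_zero, not_false_eq_true, zero_pow] at h0
  have h1 : (F.card : ℝ) * (η * P.card) ^ 2 ≤ (P.card : ℝ) * 2 ^ P.card := by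
    rw [← h0, ← nsmul_eq_mul]
    calc F.card • (η * P.card) ^ 2 ≤ ∑ z ∈ F, ((P.card : ℝ) - 2 * (z.card : ℝ)) ^ 2 := by
          refine Finset.card_nsmul_le_sum _ _ _ fun z hz => ?_
          have h2 := (Finset.mem_filter.1 hz).2
          rw [← sq_abs ((P.card : ℝ) - 2 * (z.card : ℝ))]
          exact pow_le_pow_left₀ (by positivity) h2.le 2
      _ ≤ _ := Finset.sum_le_sum_of_subset_of_nonneg (Finset.filter_subset _ _)
          fun z _ _ => sq_nonneg _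
  rw [div_le_div_iff₀ (by positivity) (by positivity)]
  have h3 : (F.card : ℝ) * (η ^ 2 * P.card) * P.card ≤ (1 * 2 ^ P.card) * P.card := by
    calc (F.card : ℝ) * (η ^ 2 * P.card) * P.card = (F.card : ℝ) * (η * P.card) ^ 2 := by ring
      _ ≤ (P.card : ℝ) * 2 ^ P.card := h1
      _ = _ := by ring
  exact le_of_mul_le_mul_right h3 hN

end Pool.Agent.Lib.MP_8cb858_nt.PF
end

section
/-!
# Block G, module CN1 (helper32): the twists form a congruence family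
-/
set_option autoImplicit false

namespace Pool.Agent.Lib.MP_8cb858_nt.PF

open NumberField IsDedekindDomain Pool.Agent.Lib.MP_8cb858_nt.SEL
open scoped Classical

namespace CN1M

section

variable {R : Type} [CommRing R] {I : Ideal R}

theorem dsc_twist (a b D : R) :
    4 * (a * D ^ 2) ^ 3 + 27 * (b * D ^ 3) ^ 2 = D ^ 6 * dsc a b := by
  unfold dsc; ring

/-- congruent pairs have congruent discriminants -/
theorem dsc_sub {a b a' b' : R} (ha : a' - a ∈ I) (hb : b' - b ∈ I) : dsc a' b' - dsc a b ∈ I := by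
  have e : dsc a' b' - dsc a b = 4 * (a' ^ 2 + a' * a + a ^ 2) * (a' - a) +
      27 * (b' + b) * (b' - b) := by
    unfold dsc; ring
  rw [e]
  exact I.add_mem (I.mul_mem_left _ ha) (I.mul_mem_left _ hb)

theorem mem_of_sub {x y : R} (h : x - y ∈ I) (hx : x ∈ I) : y ∈ I := by
  have := I.sub_mem hx h
  rwa [sub_sub_cancel] at this

theorem cub_sub {a b a' b' : R} (x : R) (ha : a' - a ∈ I) (hb : b' - b ∈ I) :
    (x ^ 3 + a' * x + b') - (x ^ 3 + a * x + b) ∈ I := by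
  have e : (x ^ 3 + a' * x + b') - (x ^ 3 + a * x + b) = x * (a' - a) + (b' - b) := by ring
  rw [e]
  exact I.add_mem (I.mul_mem_left _ ha) hb

/-- a multiple of an element of an ideal -/
theorem dvd_mem {m n : ℕ} (h : m ∣ n) (hm : (m : R) ∈ I) : (n : R) ∈ I := by
  obtain ⟨k, rfl⟩ := h
  rw [Nat.cast_mul]
  exact I.mul_mem_right _ hm

end

variable {F : Type} [Field F] [NumberField F]

theorem emb_mul (v : InfinitePlace F) (a : 𝓞 F) (n : ℕ) :
    (v.embedding ((a * (n : 𝓞 F) : 𝓞 F) : F)).re = (v.embedding (a : F)).re * n := by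
  have e : ((a * (n : 𝓞 F) : 𝓞 F) : F) = (a : F) * (n : F) := by
    push_cast
    rfl
  rw [e, map_mul, map_natCast, Complex.mul_re, Complex.natCast_re, Complex.natCast_im, mul_zero,
    sub_zero]

theorem cast_sq (D : ℕ) : (D : 𝓞 F) ^ 2 = ((D ^ 2 : ℕ) : 𝓞 F) := by push_cast; rfl

/-- the twists of the members of the family -/
def Tws (k : ℕ) (c : 𝓞 F × 𝓞 F) (Q P : Finset (HeightOneSpectrum (𝓞 F))) (U : Finset ℕ) :
    Set (𝓞 F × 𝓞 F) :=
  {q | ∃ q' ∈ Fam k c Q P, ∃ D ∈ U, q = (q'.1 * (D : 𝓞 F) ^ 2, q'.2 * (D : 𝓞 F) ^ 3)}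

theorem cong {k : ℕ} {c : 𝓞 F × 𝓞 F} {Q P : Finset (HeightOneSpectrum (𝓞 F))} {M : ℕ}
    {U : Finset ℕ} (hM : 0 < M) (hk : k ∣ M) (hP : ∀ w ∈ P, (M : 𝓞 F) ∈ w.asIdeal)
    (hQ : ∀ v ∈ Q, (M : 𝓞 F) ∈ v.asIdeal) (hU : ∀ D ∈ U, D ∣ M) :
    ∃ R : Set ((𝓞 F ⧸ Ideal.span {((M ^ 5 : ℕ) : 𝓞 F)}) ×
      (𝓞 F ⧸ Ideal.span {((M ^ 5 : ℕ) : 𝓞 F)})), Cong F (M ^ 5) R = Tws k c Q P U := by
  have hU0 : ∀ D ∈ U, 0 < D := fun D hD => Nat.pos_of_dvd_of_pos (hU D hD) hM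
  refine ⟨{r | ∃ q ∈ Tws k c Q P U, r = (Ideal.Quotient.mk _ q.1, Ideal.Quotient.mk _ q.2)}, ?_⟩
  apply Set.Subset.antisymm
  · rintro ⟨a', b'⟩ ⟨hpos, ⟨_, ⟨⟨a, b⟩, hab, D, hD, rfl⟩, hr⟩, hsq⟩
    obtain ⟨hpos0, hcl, hP0, hQ0, hs0⟩ := hab
    simp only [Prod.mk.injEq] at hr
    obtain ⟨hr1, hr2⟩ := hr
    rw [Ideal.Quotient.eq, Ideal.mem_span_singleton'] at hr1 hr2
    obtain ⟨x, hx⟩ := hr1
    obtain ⟨y, hy⟩ := hr2
    obtain ⟨E, hE⟩ := hU D hD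
    have hD0 : 0 < D := hU0 D hD
    -- the quotients
    obtain ⟨a1, ha1⟩ : ∃ a1 : 𝓞 F, a1 = a + x * (((D * E ^ 3) * M ^ 2 : ℕ) : 𝓞 F) := ⟨_, rfl⟩
    obtain ⟨b1, hb1⟩ : ∃ b1 : 𝓞 F, b1 = b + y * ((E ^ 3 * M ^ 2 : ℕ) : 𝓞 F) := ⟨_, rfl⟩
    have ea : a' = a1 * (D : 𝓞 F) ^ 2 := by
      have : a' = a * (D : 𝓞 F) ^ 2 + x * ((M ^ 5 : ℕ) : 𝓞 F) := by
        rw [hx]; ring
      rw [this, ha1, show M ^ 5 = M ^ 3 * M ^ 2 by ring, show M ^ 3 = D ^ 3 * E ^ 3 by rw [hE]; ring]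
      push_cast
      ring
    have eb : b' = b1 * (D : 𝓞 F) ^ 3 := by
      have : b' = b * (D : 𝓞 F) ^ 3 + y * ((M ^ 5 : ℕ) : 𝓞 F) := by
        rw [hy]; ring
      rw [this, hb1, show M ^ 5 = M ^ 3 * M ^ 2 by ring, show M ^ 3 = D ^ 3 * E ^ 3 by rw [hE]; ring]
      push_cast
      ring
    -- congruences
    have ca : ∀ I : Ideal (𝓞 F), ((M ^ 2 : ℕ) : 𝓞 F) ∈ I → a1 - a ∈ I := by
      intro I hI
      have e : a1 - a = (x * ((D * E ^ 3 : ℕ) : 𝓞 F)) * ((M ^ 2 : ℕ) : 𝓞 F) := by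
        rw [ha1]; push_cast; ring
      rw [e]
      exact I.mul_mem_left _ hI
    have cb : ∀ I : Ideal (𝓞 F), ((M ^ 2 : ℕ) : 𝓞 F) ∈ I → b1 - b ∈ I := by
      intro I hI
      have e : b1 - b = (y * ((E ^ 3 : ℕ) : 𝓞 F)) * ((M ^ 2 : ℕ) : 𝓞 F) := by
        rw [hb1]; push_cast; ring
      rw [e]
      exact I.mul_mem_left _ hI
    have hM2 : ∀ I : Ideal (𝓞 F), (M : 𝓞 F) ∈ I → ((M ^ 2 : ℕ) : 𝓞 F) ∈ I := fun I h =>
      dvd_mem (dvd_pow_self M two_ne_zero) h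
    refine ⟨(a1, b1), ⟨?_, ⟨?_, ?_⟩, ?_, ?_, ?_⟩, D, hD, Prod.ext ea eb⟩
    · intro v hv
      have h1 := hpos v hv
      simp only [ea, cast_sq] at h1
      rw [emb_mul] at h1
      exact pos_of_mul_pos_left h1 (Nat.cast_nonneg _)
    · have h1 : a1 - a ∈ Ideal.span {(k : 𝓞 F)} :=
        ca _ (hM2 _ (dvd_mem hk (Ideal.mem_span_singleton_self _)))
      have := Ideal.add_mem _ h1 hcl.1
      simpa using this
    · have h1 : b1 - b ∈ Ideal.span {(k : 𝓞 F)} :=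
        cb _ (hM2 _ (dvd_mem hk (Ideal.mem_span_singleton_self _)))
      have := Ideal.add_mem _ h1 hcl.2
      simpa using this
    · intro w hw z hz
      exact hP0 w hw z (mem_of_sub (cub_sub z (ca _ (hM2 _ (hP w hw))) (cb _ (hM2 _ (hP w hw)))) hz)
    · intro v hv z hz
      refine hQ0 v hv z (mem_of_sub ?_ hz)
      simp only
      rw [add_sub_add_left_eq_sub]
      exact dsc_sub (ca _ (hM2 _ (hQ v hv))) (cb _ (hM2 _ (hQ v hv)))
    · intro v hkv hz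
      by_cases hMv : (M : 𝓞 F) ∈ v.asIdeal
      · have h2 : ((M ^ 2 : ℕ) : 𝓞 F) ∈ v.asIdeal ^ 2 := by
          push_cast
          exact Ideal.pow_mem_pow hMv 2
        exact hs0 v hkv (mem_of_sub (dsc_sub (ca _ h2) (cb _ h2)) hz)
      · have hN : ((M ^ 5 : ℕ) : 𝓞 F) ∉ v.asIdeal := by
          push_cast
          intro h
          exact hMv (v.isPrime.mem_of_pow_mem _ h)
        apply hsq v hN
        simp only [ea, eb]
        rw [dsc_twist]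
        exact Ideal.mul_mem_left _ _ hz
  · rintro _ hq
    have hq0 := hq
    obtain ⟨⟨a, b⟩, ⟨hpos0, hcl, hP0, hQ0, hs0⟩, D, hD, rfl⟩ := hq
    have hD0 : 0 < D := hU0 D hD
    refine ⟨?_, ⟨_, hq0, rfl⟩, ?_⟩
    · intro v hv
      have h1 := hpos0 v hv
      simp only [cast_sq]
      rw [emb_mul]
      exact mul_pos h1 (by exact_mod_cast pow_pos hD0 2)
    · intro v hNv hz
      have hMv : (M : 𝓞 F) ∉ v.asIdeal := fun h =>
        hNv (dvd_mem (dvd_pow_self M (by norm_num)) h)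
      have hkv : (k : 𝓞 F) ∉ v.asIdeal := fun h => hMv (dvd_mem hk h)
      have hDv : (D : 𝓞 F) ∉ v.asIdeal := fun h => hMv (dvd_mem (hU D hD) h)
      simp only at hz
      rw [dsc_twist] at hz
      rcases v.isPrime.mul_mem_pow _ hz with h | h
      · exact hDv (v.isPrime.mem_of_pow_mem _ h)
      · exact hs0 v hkv h

/-- the twists are in the same class -/
theorem sub_cls {k : ℕ} {c : 𝓞 F × 𝓞 F} {Q P : Finset (HeightOneSpectrum (𝓞 F))} {U : Finset ℕ}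
    (hU : ∀ D ∈ U, D % k = 1 % k) : Tws k c Q P U ⊆ Cls k c := by
  rintro _ ⟨⟨a, b⟩, ⟨_, hcl, _⟩, D, hD, rfl⟩
  have h1 : (D : 𝓞 F) - 1 ∈ Ideal.span {(k : 𝓞 F)} := by
    have h2 : (k : ℤ) ∣ (D : ℤ) - 1 := by
      have h3 : D ≡ 1 [MOD k] := hU D hD
      have h4 := (Nat.modEq_iff_dvd.1 h3.symm)
      simpa using h4
    obtain ⟨e, he⟩ := h2
    rw [Ideal.mem_span_singleton']
    refine ⟨(e : 𝓞 F), ?_⟩
    have h5 : ((D : ℤ) : 𝓞 F) - 1 = ((k : ℤ) : 𝓞 F) * (e : 𝓞 F) := by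
      rw [← Int.cast_one, ← Int.cast_sub, he, Int.cast_mul]
    rw [Int.cast_natCast, Int.cast_natCast] at h5
    rw [h5, mul_comm]
  constructor
  · have e : a * (D : 𝓞 F) ^ 2 - c.1 = a * ((D : 𝓞 F) + 1) * ((D : 𝓞 F) - 1) + (a - c.1) := by ring
    show a * (D : 𝓞 F) ^ 2 - c.1 ∈ _
    rw [e]
    exact Ideal.add_mem _ (Ideal.mul_mem_left _ _ h1) hcl.1
  · have e : b * (D : 𝓞 F) ^ 3 - c.2 = b * ((D : 𝓞 F) ^ 2 + D + 1) * ((D : 𝓞 F) - 1) + (b - c.2) := by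
      ring
    show b * (D : 𝓞 F) ^ 3 - c.2 ∈ _
    rw [e]
    exact Ideal.add_mem _ (Ideal.mul_mem_left _ _ h1) hcl.2

end CN1M

open CN1M in
/-- Module CN1. -/
theorem specCN1 : SpecCN1 := by
  intro F _ _ k P0 cl Q P m U hk _ hS hU
  have hpr : 0 < pr Q := Finset.prod_pos fun v hv => (hS.act.prime v hv).pos
  have hM : 0 < k * (m * pr Q) := Nat.mul_pos hk (Nat.mul_pos hS.mpr.pos hpr)
  have hdM : m * pr Q ∣ k * (m * pr Q) := Dvd.intro_left _ rfl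
  obtain ⟨R, hR⟩ := cong (k := k) (c := cl) (Q := Q) (P := P) (U := U) hM (Dvd.intro _ rfl)
    (fun w hw => dvd_mem hdM ((hS.mem w).1 hw).1)
    (fun v hv => by
      refine dvd_mem (m := nv v) ?_ (Ideal.absNorm_mem _)
      exact ((Finset.dvd_prod_of_mem nv hv).mul_left m).trans hdM)
    (fun D hD => (hU D hD).1.trans hdM)
  refine ⟨_, R, pow_pos hM 5, hR, ?_⟩
  rw [hR]
  refine sub_cls fun D hD => ?_
  have h1 := (hU D hD).2
  have h2 : D % (8 * k) % k = D % k := Nat.mod_mod_of_dvd _ (Dvd.intro_left _ rfl)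
  rw [← h2, h1]

end Pool.Agent.Lib.MP_8cb858_nt.PF
end

section
/-!
# Block G, module CN2 (helper32): counting the twists
-/
set_option autoImplicit false

namespace Pool.Agent.Lib.MP_8cb858_nt.PF

open NumberField IsDedekindDomain Pool.Agent.Lib.MP_8cb858_nt.SEL
open scoped Classical

namespace CN2M

section

variable {F : Type} [Field F] [NumberField F]

/-- a natural number in a place over `p` -/
theorem nat_mem {p : ℕ} (hp : p.Prime) {w : HeightOneSpectrum (𝓞 F)} (hw : (p : 𝓞 F) ∈ w.asIdeal)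
    {n : ℕ} (h : (n : 𝓞 F) ∈ w.asIdeal) : p ∣ n := by
  by_contra hn
  have hc : IsCoprime (p : ℤ) (n : ℤ) := Nat.isCoprime_iff_coprime.2 ((Nat.Prime.coprime_iff_not_dvd hp).2 hn)
  obtain ⟨x, y, hxy⟩ := hc
  apply w.isPrime.ne_top
  rw [Ideal.eq_top_iff_one]
  have e : (1 : 𝓞 F) = (x : 𝓞 F) * (p : 𝓞 F) + (y : 𝓞 F) * (n : 𝓞 F) := by
    have := congrArg (fun z : ℤ => (z : 𝓞 F)) hxy
    simp only [Int.cast_add, Int.cast_mul, Int.cast_natCast, Int.cast_one] at this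
    exact this.symm
  rw [e]
  exact w.asIdeal.add_mem (w.asIdeal.mul_mem_left _ hw) (w.asIdeal.mul_mem_left _ h)

theorem mem_of_dvd {p n : ℕ} {w : HeightOneSpectrum (𝓞 F)} (hw : (p : 𝓞 F) ∈ w.asIdeal)
    (h : p ∣ n) : (n : 𝓞 F) ∈ w.asIdeal := by
  obtain ⟨k, rfl⟩ := h
  rw [Nat.cast_mul]
  exact w.asIdeal.mul_mem_right _ hw

/-- a member of the family is not zero modulo the places of `Q` and `P` -/
theorem not_both {k : ℕ} {c : 𝓞 F × 𝓞 F} {Q P : Finset (HeightOneSpectrum (𝓞 F))}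
    {q : 𝓞 F × 𝓞 F} (hq : q ∈ Fam k c Q P) {w : HeightOneSpectrum (𝓞 F)} (hw : w ∈ P ∨ w ∈ Q)
    (h1 : q.1 ∈ w.asIdeal) (h2 : q.2 ∈ w.asIdeal) : False := by
  obtain ⟨_, _, hP, hQ, _⟩ := hq
  rcases hw with hw | hw
  · apply hP w hw 0
    simpa using h2
  · apply hQ w hw 0
    have e : (0 : 𝓞 F) ^ 2 + dsc q.1 q.2 = (4 * q.1 ^ 2) * q.1 + (27 * q.2) * q.2 := by
      unfold dsc; ring
    rw [e]
    exact w.asIdeal.add_mem (w.asIdeal.mul_mem_left _ h1) (w.asIdeal.mul_mem_left _ h2)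

/-- the twist by `D` -/
def twi (D : ℕ) (q : 𝓞 F × 𝓞 F) : 𝓞 F × 𝓞 F := (q.1 * (D : 𝓞 F) ^ 2, q.2 * (D : 𝓞 F) ^ 3)

/-- `D` divides `D'` -/
theorem dvd_of {k : ℕ} {c : 𝓞 F × 𝓞 F} {Q P : Finset (HeightOneSpectrum (𝓞 F))} {D D' : ℕ}
    (hD : Squarefree D)
    (hpl : ∀ p : ℕ, p.Prime → p ∣ D → ∃ w : HeightOneSpectrum (𝓞 F), (w ∈ P ∨ w ∈ Q) ∧
      (p : 𝓞 F) ∈ w.asIdeal) {q q' : 𝓞 F × 𝓞 F} (hq' : q' ∈ Fam k c Q P)
    (h : twi D q = twi D' q') : D ∣ D' := by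
  rw [← Nat.prod_primeFactors_of_squarefree hD]
  refine Finset.prod_primes_dvd _ (fun p hp => (Nat.prime_of_mem_primeFactors hp).prime)
    fun p hp => ?_
  have hpp := Nat.prime_of_mem_primeFactors hp
  have hpD := Nat.dvd_of_mem_primeFactors hp
  obtain ⟨w, hw, hpw⟩ := hpl p hpp hpD
  have hDw := mem_of_dvd hpw hpD
  have e1 : q.1 * (D : 𝓞 F) ^ 2 = q'.1 * (D' : 𝓞 F) ^ 2 := congrArg Prod.fst h
  have e2 : q.2 * (D : 𝓞 F) ^ 3 = q'.2 * (D' : 𝓞 F) ^ 3 := congrArg Prod.snd h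
  have m1 : q'.1 * (D' : 𝓞 F) ^ 2 ∈ w.asIdeal := by
    rw [← e1]
    exact w.asIdeal.mul_mem_left _ (Ideal.pow_mem_of_mem _ hDw 2 (by norm_num))
  have m2 : q'.2 * (D' : 𝓞 F) ^ 3 ∈ w.asIdeal := by
    rw [← e2]
    exact w.asIdeal.mul_mem_left _ (Ideal.pow_mem_of_mem _ hDw 3 (by norm_num))
  by_contra hn
  have hD'w : (D' : 𝓞 F) ∉ w.asIdeal := fun h => hn (nat_mem hpp hpw h)
  refine not_both hq' hw ?_ ?_
  · rcases w.isPrime.mem_or_mem m1 with h | h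
    · exact h
    · exact absurd (w.isPrime.mem_of_pow_mem _ h) hD'w
  · rcases w.isPrime.mem_or_mem m2 with h | h
    · exact h
    · exact absurd (w.isPrime.mem_of_pow_mem _ h) hD'w

theorem twi_inj {D : ℕ} (hD : D ≠ 0) {q q' : 𝓞 F × 𝓞 F} (h : twi D q = twi D q') : q = q' := by
  have hD' : (D : 𝓞 F) ≠ 0 := by exact_mod_cast hD
  exact Prod.ext (mul_right_cancel₀ (pow_ne_zero 2 hD') (congrArg Prod.fst h))
    (mul_right_cancel₀ (pow_ne_zero 3 hD') (congrArg Prod.snd h))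

/-- counting the twists -/
theorem count {k : ℕ} {c : 𝓞 F × 𝓞 F} {Q P : Finset (HeightOneSpectrum (𝓞 F))} {U : Finset ℕ}
    (hsq : ∀ D ∈ U, Squarefree D)
    (hpl : ∀ D ∈ U, ∀ p : ℕ, p.Prime → p ∣ D → ∃ w : HeightOneSpectrum (𝓞 F), (w ∈ P ∨ w ∈ Q) ∧
      (p : 𝓞 F) ∈ w.asIdeal)
    (B : Set (𝓞 F × 𝓞 F)) (B' : ℕ → Set (𝓞 F × 𝓞 F)) (hfin : ∀ D ∈ U, (B' D).Finite)
    (hB : ∀ D ∈ U, ∀ q, twi D q ∈ B ↔ q ∈ B' D) (S : Set (𝓞 F × 𝓞 F)) :
    ({q | ∃ q' ∈ Fam k c Q P, ∃ D ∈ U, q = twi D q'} ∩ B ∩ S).ncard =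
      ∑ D ∈ U, {q ∈ Fam k c Q P ∩ B' D | twi D q ∈ S}.ncard := by
  have hS : ∀ D ∈ U, {q ∈ Fam k c Q P ∩ B' D | twi D q ∈ S}.Finite := fun D hD =>
    (hfin D hD).subset fun q hq => hq.1.2
  have hset : {q | ∃ q' ∈ Fam k c Q P, ∃ D ∈ U, q = twi D q'} ∩ B ∩ S =
      ((U.attach.biUnion fun D => (hS D.1 D.2).toFinset.image (twi D.1) :
        Finset (𝓞 F × 𝓞 F)) : Set (𝓞 F × 𝓞 F)) := by
    ext a
    simp only [Finset.coe_biUnion, Finset.mem_coe, Set.mem_iUnion, Finset.coe_image, Set.mem_image,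
      Set.Finite.mem_toFinset]
    constructor
    · rintro ⟨⟨⟨q, hq, D, hD, rfl⟩, hX⟩, hR⟩
      exact ⟨⟨D, hD⟩, Finset.mem_attach _ _, q, ⟨⟨hq, (hB D hD q).1 hX⟩, hR⟩, rfl⟩
    · rintro ⟨⟨D, hD⟩, _, q, ⟨⟨hq, hH⟩, hR⟩, rfl⟩
      exact ⟨⟨⟨q, hq, D, hD, rfl⟩, (hB D hD q).2 hH⟩, hR⟩
  rw [hset, Set.ncard_coe_finset, Finset.card_biUnion, ← Finset.sum_attach U]
  · refine Finset.sum_congr rfl fun D _ => ?_
    rw [Finset.card_image_of_injOn, Set.ncard_eq_toFinset_card _ (hS D.1 D.2)]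
    intro q _ q' _ h
    exact twi_inj (hsq D.1 D.2).ne_zero h
  · intro D _ D' _ hne
    rw [Function.onFun, Finset.disjoint_left]
    intro a ha ha'
    obtain ⟨q, hq, rfl⟩ := Finset.mem_image.mp ha
    obtain ⟨q', hq', h⟩ := Finset.mem_image.mp ha'
    rw [Set.Finite.mem_toFinset] at hq hq'
    apply hne
    apply Subtype.ext
    exact Nat.dvd_antisymm (dvd_of (hsq _ D.2) (hpl _ D.2) hq'.1.1 h.symm)
      (dvd_of (hsq _ D'.2) (hpl _ D'.2) hq.1.1 h)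

end

end CN2M

open CN2M in
/-- Module CN2. -/
theorem specCN2 (hPLC : SpecPLC) (hSYS : SpecSYS) (hBOX : SpecBOX) : SpecCN2 := by
  intro F _ _ k P0 cl Q P m U hk h6 hS hU hfin ρ S
  have hsq0 : Squarefree (m * pr Q) := (hSYS F k P0 Q P m hk h6 hS).2.2.2.2.2.1
  have hsq : ∀ D ∈ U, Squarefree D := fun D hD => hsq0.squarefree_of_dvd (hU D hD).1
  refine count hsq ?_ (Bx F ρ) (fun D => Bx F (fun v => ρ v / D)) (fun D _ => hfin _) ?_ S
  · intro D hD p hp hpD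
    obtain ⟨w, hw⟩ := hPLC.ex F p hp
    refine ⟨w, ?_, hw⟩
    by_cases hwQ : w ∈ Q
    · exact Or.inr hwQ
    · exact Or.inl ((hS.mem w).2 ⟨mem_of_dvd hw (hpD.trans (hU D hD).1), hwQ⟩)
  · intro D hD q
    exact (hBOX F).2.2.1 ρ D q.1 q.2 (Nat.pos_of_ne_zero (hsq D hD).ne_zero)

end Pool.Agent.Lib.MP_8cb858_nt.PF
end

section
/-!
# FIN: the final theorem over number fields
-/
set_option autoImplicit false

namespace Pool.Agent.Lib.MP_8cb858_nt.PF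

open NumberField IsDedekindDomain Pool.Agent.Lib.MP_8cb858_nt.SEL Filter
open scoped Classical Topology

namespace FINM

variable {F : Type} [Field F] [NumberField F] {k : ℕ} {cl : 𝓞 F × 𝓞 F}

theorem exists_delta (n : ℕ) {θ : ℝ} (hθ : 0 < θ) : ∃ δ : ℝ, 0 < δ ∧ (1 + δ) ^ n ≤ 1 + θ := by
  have h1 : Tendsto (fun δ : ℝ => (1 + δ) ^ n) (𝓝 0) (𝓝 ((1 + 0) ^ n)) := by
    apply Continuous.tendsto
    fun_prop
  rw [add_zero, one_pow] at h1
  have h2 : ∀ᶠ δ : ℝ in 𝓝[>] 0, (1 + δ) ^ n < 1 + θ :=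
    (h1.eventually (gt_mem_nhds (by linarith))).filter_mono nhdsWithin_le_nhds
  obtain ⟨δ, hδ1, hδ2⟩ := (h2.and self_mem_nhdsWithin).exists
  exact ⟨δ, hδ2, hδ1.le⟩

omit [NumberField F] in
/-- sandwich -/
theorem sandwich {Fm By Bz Bl : Set (𝓞 F × 𝓞 F)} (hz : Bz.Finite) (hl : Bl.Finite)
    (h1 : By ⊆ Bz) (h2 : Bz ⊆ Bl) (P : 𝓞 F × 𝓞 F → Prop) :
    ({q ∈ Fm ∩ By | P q}.ncard : ℝ) ≤ {q ∈ Fm ∩ Bz | P q}.ncard ∧
      ({q ∈ Fm ∩ Bz | P q}.ncard : ℝ) ≤ {q ∈ Fm ∩ By | P q}.ncard + (Fm ∩ (Bl \ By)).ncard := by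
  have fZ : {q ∈ Fm ∩ Bz | P q}.Finite := hz.subset fun q hq => hq.1.2
  have fY : {q ∈ Fm ∩ By | P q}.Finite := (hz.subset h1).subset fun q hq => hq.1.2
  have fb : (Fm ∩ (Bl \ By)).Finite := hl.subset fun q hq => hq.2.1
  constructor
  · have h3 : {q ∈ Fm ∩ By | P q} ⊆ {q ∈ Fm ∩ Bz | P q} :=
      fun q hq => ⟨⟨hq.1.1, h1 hq.1.2⟩, hq.2⟩
    exact_mod_cast Set.ncard_le_ncard h3 fZ
  · have h3 : {q ∈ Fm ∩ Bz | P q} ⊆ {q ∈ Fm ∩ By | P q} ∪ (Fm ∩ (Bl \ By)) := by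
      intro q hq
      by_cases h : q ∈ By
      · exact Or.inl ⟨⟨hq.1.1, h⟩, hq.2⟩
      · exact Or.inr ⟨hq.1.1, h2 hq.1.2, h⟩
    exact_mod_cast (Set.ncard_le_ncard h3 (fY.union fb)).trans (Set.ncard_union_le _ _)

theorem sum_diff2 (U : Finset ℕ) (N s : ℕ → ℝ) (b : ℝ) (h : ∀ D ∈ U, |N D - s D| ≤ b) :
    |∑ D ∈ U, N D - ∑ D ∈ U, s D| ≤ U.card * b := by
  rw [← Finset.sum_sub_distrib]
  calc |∑ D ∈ U, (N D - s D)| ≤ ∑ D ∈ U, b :=
        (Finset.abs_sum_le_sum_abs _ _).trans (Finset.sum_le_sum h)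
    _ = U.card * b := by rw [Finset.sum_const, nsmul_eq_mul]

theorem num {Nd Sd G lw K Fc ε1 κ : ℝ} (hl0 : 0 ≤ lw) (hl1 : lw ≤ 1)
    (h1 : |Nd - Sd| ≤ K * κ) (h2 : |Sd - lw * (K * Fc)| ≤ ε1 * (K * Fc)) (h3 : K * Fc ≤ G)
    (h4 : G ≤ K * Fc + K * κ) (hK : 0 ≤ K) (hκ : κ ≤ ε1 * Fc) (hε : 0 ≤ ε1) :
    |Nd - lw * G| ≤ 3 * ε1 * G := by
  have h5 : K * κ ≤ ε1 * (K * Fc) := by nlinarith
  have h6 : |lw * (K * Fc) - lw * G| ≤ K * κ := by
    rw [← mul_sub, abs_mul, abs_of_nonneg hl0, abs_sub_comm, abs_of_nonneg (by linarith)]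
    have : G - K * Fc ≤ K * κ := by linarith
    have h0 : 0 ≤ G - K * Fc := by linarith
    nlinarith
  have a := abs_sub_le Nd Sd (lw * G)
  have b := abs_sub_le Sd (lw * (K * Fc)) (lw * G)
  have h7 : ε1 * (K * Fc) ≤ ε1 * G := by gcongr
  linarith

theorem rk_iff (a b : 𝓞 F) (D d : ℕ) :
    (a * (D : 𝓞 F) ^ 2, b * (D : 𝓞 F) ^ 3) ∈ Rk F d ↔ Nat.card (Sel 2 (cN a b D)) = 2 ^ d := by
  unfold Rk cN cur
  simp only [Set.mem_ofPred_eq]
  push_cast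
  rfl

/-- one `ρ` -/
theorem oneR (hfin : ∀ ρ : InfinitePlace F → ℝ, (Bx F ρ).Finite) (hCN2 : SpecCN2)
    (hBOX : SpecBOX) {P0 : ℕ} {Q P : Finset (HeightOneSpectrum (𝓞 F))} {m : ℕ} {U : Finset ℕ}
    (hk : 0 < k) (h6 : 6 ∣ k) (hS : Sys k P0 Q P m)
    (hU : ∀ D ∈ U, D ∣ m * pr Q ∧ D % (8 * k) = 1)
    {ρ ρ' : InfinitePlace F → ℝ} {l ε1 : ℝ} (hε : 0 ≤ ε1) (hρ' : ∀ v, 0 ≤ ρ' v)
    (hsw : ∀ D ∈ U, ∀ v, ρ' v ≤ ρ v / D ∧ ρ v / D ≤ l * ρ' v)
    (hb : ((Fam k cl Q P ∩ (Bx F (fun v => l * ρ' v) \ Bx F ρ')).ncard : ℝ) ≤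
      ε1 * (Fam k cl Q P ∩ Bx F ρ').ncard)
    (d : ℕ) {lw : ℝ} (hl0 : 0 ≤ lw) (hl1 : lw ≤ 1)
    (hP : |∑ D ∈ U, ({q ∈ Fam k cl Q P ∩ Bx F ρ' |
          Nat.card (Sel 2 (cN q.1 q.2 D)) = 2 ^ d}.ncard : ℝ) -
        lw * (U.card * (Fam k cl Q P ∩ Bx F ρ').ncard)| ≤
        ε1 * (U.card * (Fam k cl Q P ∩ Bx F ρ').ncard)) :
    |((Gse k cl Q P U ∩ Bx F ρ ∩ Rk F d).ncard : ℝ) -
        lw * ((Gse k cl Q P U ∩ Bx F ρ).ncard : ℝ)| ≤
      3 * ε1 * ((Gse k cl Q P U ∩ Bx F ρ).ncard : ℝ) ∧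
    U.card * ((Fam k cl Q P ∩ Bx F ρ').ncard : ℝ) ≤ ((Gse k cl Q P U ∩ Bx F ρ).ncard : ℝ) := by
  obtain ⟨_, hmono, _, _⟩ := hBOX F
  have hcn := hCN2 F k P0 cl Q P m U hk h6 hS hU hfin ρ
  have e1 : ((Gse k cl Q P U ∩ Bx F ρ).ncard : ℝ) =
      ∑ D ∈ U, ((Fam k cl Q P ∩ Bx F (fun v => ρ v / D)).ncard : ℝ) := by
    have h := hcn Set.univ
    rw [Set.inter_univ] at h
    rw [h]
    push_cast
    refine Finset.sum_congr rfl fun D _ => ?_
    simp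
  have e2 : ((Gse k cl Q P U ∩ Bx F ρ ∩ Rk F d).ncard : ℝ) = ∑ D ∈ U,
      ({q ∈ Fam k cl Q P ∩ Bx F (fun v => ρ v / D) |
        Nat.card (Sel 2 (cN q.1 q.2 D)) = 2 ^ d}.ncard : ℝ) := by
    rw [hcn (Rk F d)]
    push_cast
    refine Finset.sum_congr rfl fun D _ => ?_
    simp only [rk_iff]
  have hs1 : ∀ D ∈ U, Bx F ρ' ⊆ Bx F (fun v => ρ v / D) := fun D hD =>
    hmono _ _ hρ' fun v => (hsw D hD v).1
  have hs2 : ∀ D ∈ U, Bx F (fun v => ρ v / D) ⊆ Bx F (fun v => l * ρ' v) := fun D hD =>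
    hmono _ _ (fun v => (hρ' v).trans (hsw D hD v).1) fun v => (hsw D hD v).2
  have h3 : ∀ D ∈ U, ((Fam k cl Q P ∩ Bx F ρ').ncard : ℝ) ≤
        (Fam k cl Q P ∩ Bx F (fun v => ρ v / D)).ncard ∧
      ((Fam k cl Q P ∩ Bx F (fun v => ρ v / D)).ncard : ℝ) ≤
        (Fam k cl Q P ∩ Bx F ρ').ncard +
          (Fam k cl Q P ∩ (Bx F (fun v => l * ρ' v) \ Bx F ρ')).ncard := by
    intro D hD
    have := sandwich (Fm := Fam k cl Q P) (hfin _) (hfin _) (hs1 D hD) (hs2 D hD) (fun _ => True)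
    simpa using this
  have h4 : U.card * ((Fam k cl Q P ∩ Bx F ρ').ncard : ℝ) ≤
      ((Gse k cl Q P U ∩ Bx F ρ).ncard : ℝ) := by
    rw [e1]
    have : ∑ D ∈ U, ((Fam k cl Q P ∩ Bx F ρ').ncard : ℝ) ≤
        ∑ D ∈ U, ((Fam k cl Q P ∩ Bx F (fun v => ρ v / D)).ncard : ℝ) :=
      Finset.sum_le_sum fun D hD => (h3 D hD).1
    rwa [Finset.sum_const, nsmul_eq_mul] at this
  have h5 : ((Gse k cl Q P U ∩ Bx F ρ).ncard : ℝ) ≤
      U.card * ((Fam k cl Q P ∩ Bx F ρ').ncard : ℝ) +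
      U.card * (Fam k cl Q P ∩ (Bx F (fun v => l * ρ' v) \ Bx F ρ')).ncard := by
    rw [e1]
    have : ∑ D ∈ U, ((Fam k cl Q P ∩ Bx F (fun v => ρ v / D)).ncard : ℝ) ≤
        ∑ D ∈ U, (((Fam k cl Q P ∩ Bx F ρ').ncard : ℝ) +
          (Fam k cl Q P ∩ (Bx F (fun v => l * ρ' v) \ Bx F ρ')).ncard) :=
      Finset.sum_le_sum fun D hD => (h3 D hD).2
    rw [Finset.sum_const, nsmul_eq_mul] at this
    linarith
  refine ⟨?_, h4⟩
  refine num (K := U.card)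
    (κ := (Fam k cl Q P ∩ (Bx F (fun v => l * ρ' v) \ Bx F ρ')).ncard) hl0 hl1 ?_ hP h4 h5
    (by positivity) hb hε
  rw [e2]
  refine sum_diff2 U _ _ _ fun D hD => ?_
  have := sandwich (Fm := Fam k cl Q P) (hfin _) (hfin _) (hs1 D hD) (hs2 D hD)
    (fun q => Nat.card (Sel 2 (cN q.1 q.2 D)) = 2 ^ d)
  rw [abs_of_nonneg (by linarith [this.1])]
  linarith [this.2]

theorem vol_pos {ρ : InfinitePlace F → ℝ} (h : ∀ v, 0 < ρ v) : 0 < vol ρ := by
  unfold vol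
  exact Finset.prod_pos fun v _ => pow_pos (h v) _

/-- the final theorem in terms of `Bx` -/
theorem main (hDEN : SpecDEN) (hSYS : SpecSYS) (hBOX : SpecBOX) (hIJD : SpecIJD)
    (hCN1 : SpecCN1) (hCN2 : SpecCN2) (hTSF : SpecTSF) (hPOP : SpecPOP) (hLAW : PR.SpecLAW)
    (hk : 0 < k) (h6 : 6 ∣ k) (cl : 𝓞 F × 𝓞 F) {ε : ℝ} (hε : 0 < ε) :
    ∃ (N : ℕ) (R : Set ((𝓞 F ⧸ Ideal.span {(N : 𝓞 F)}) × (𝓞 F ⧸ Ideal.span {(N : 𝓞 F)})))
      (c R0 : ℝ), 0 < N ∧ 0 < c ∧ Cong F N R ⊆ Cls k cl ∧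
      ∀ ρ : InfinitePlace F → ℝ, (∀ v, R0 ≤ ρ v) →
        c * ((Bx F ρ).ncard : ℝ) ≤ ((Cong F N R ∩ Bx F ρ).ncard : ℝ) ∧
        ∀ d : ℕ, |((Cong F N R ∩ Bx F ρ ∩ Rk F d).ncard : ℝ) -
          PR.law d * ((Cong F N R ∩ Bx F ρ).ncard : ℝ)| ≤
            ε * ((Cong F N R ∩ Bx F ρ).ncard : ℝ) := by
  have hlpos : ∀ d, 0 < PR.law d := fun d => by rw [hLAW]; exact PR.MKM.C2_pos d
  have hl1 : ∀ d, PR.law d ≤ 1 := fun d => by
    rw [hLAW]
    exact le_hasSum PR.C2_sum d fun k _ => (PR.MKM.C2_pos k).le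
  have hfin := hDEN.fin F
  obtain ⟨CH, hCH, hall⟩ := hDEN.all F
  obtain ⟨c, hc, hlow⟩ := hDEN.low F k hk h6
  obtain ⟨CD, hCD, hup⟩ := hDEN.ann F
  obtain ⟨_, hmono, _, hvol⟩ := hBOX F
  obtain ⟨n, hn⟩ := hPOP F k cl (ε / 3) hk h6 (by positivity)
  obtain ⟨δ, hδ, hδl⟩ := exists_delta (n + 1) (θ := min 1 (c * (ε / 3) / (2 * CD)))
    (by positivity)
  obtain ⟨m, v0, L, P, hL, R1, hR1⟩ := hn δ hδ
  obtain ⟨hCm, _, _, hkn, h17, _, _⟩ := hSYS F k 3 _ P m hk h6 hL.sys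
  obtain ⟨U, hU1, hU2, hU3, hU4⟩ := hIJD F k 3 δ n m v0 L P hk h6 hδ hL
  obtain ⟨N, R, hN, hNR, hNcl⟩ := hCN1 F k 3 cl _ P m U hk h6 hL.sys hU2
  have hUne : U.Nonempty := by
    obtain ⟨T, hT⟩ := hTSF.pos hL.lay n le_rfl
    exact ⟨tw m v0 true T, (hU1 _).2 ⟨T, hT, true, rfl⟩⟩
  obtain ⟨D0, hD0, hmax⟩ := Finset.exists_max_image U (fun D => D) hUne
  have hDpos : ∀ D ∈ U, (1 : ℝ) ≤ D := fun D hD => by
    have h1 := (hU2 D hD).2
    have : 1 ≤ D := by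
      by_contra h
      have h0 : D = 0 := by omega
      rw [h0, Nat.zero_mod] at h1
      omega
    exact_mod_cast this
  have hD0p : (0 : ℝ) < D0 := by linarith [hDpos D0 hD0]
  have hratio : ∀ D ∈ U, (D0 : ℝ) ≤ (1 + δ) ^ (n + 1) * D := by
    intro D hD
    obtain ⟨T, hT, c', rfl⟩ := (hU1 D).1 hD
    obtain ⟨T', hT', c'', h⟩ := (hU1 D0).1 hD0
    rw [h]
    exact hU4 T' hT' T hT c'' c'
  have hUcard : (U.card : ℝ) = 2 * (Ts L n).card := by
    have h := hU3 (fun _ => 1)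
    rw [Finset.sum_const, nsmul_eq_mul, mul_one] at h
    rw [h]
    simp [mul_comm]
  have hdQ : 0 < ∏ v ∈ insert v0 (Un L n), dQ v := Finset.prod_pos fun v hv => by
    unfold dQ
    have h1 : (17 : ℝ) ≤ nv v := by exact_mod_cast (h17 v (Finset.mem_union_left _ hv)).1
    have h2 : 1 / (nv v : ℝ) < 1 := by rw [div_lt_one (by linarith)]; linarith
    linarith
  have hdP : 0 < ∏ v ∈ P, dP v := Finset.prod_pos fun v hv => by
    unfold dP
    have h1 : (17 : ℝ) ≤ nv v := by exact_mod_cast (h17 v (Finset.mem_union_right _ hv)).1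
    have h2 : 1 / (nv v : ℝ) ^ 2 < 1 := by
      rw [div_lt_one (by positivity)]
      nlinarith
    linarith
  have hl1' : 1 ≤ (1 + δ) ^ (n + 1) := one_le_pow₀ (by linarith)
  have hl2' : (1 + δ) ^ (n + 1) ≤ 2 := by
    have := min_le_left 1 (c * (ε / 3) / (2 * CD))
    linarith
  obtain ⟨R2, hR2⟩ := hlow cl (insert v0 (Un L n)) P hkn hCm.dis
  obtain ⟨R3, hR3⟩ := hup k cl (insert v0 (Un L n)) P (c * (ε / 3) / 2) ((1 + δ) ^ (n + 1)) hk h6
    hkn hCm.dis (by positivity) hl1' hl2'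
  have hκ : CD * ((1 + δ) ^ (n + 1) - 1) + c * (ε / 3) / 2 ≤ c * (ε / 3) := by
    have h1 := min_le_right 1 (c * (ε / 3) / (2 * CD))
    have h2 : (1 + δ) ^ (n + 1) - 1 ≤ c * (ε / 3) / (2 * CD) := by linarith
    have h3 : CD * ((1 + δ) ^ (n + 1) - 1) ≤ CD * (c * (ε / 3) / (2 * CD)) := by gcongr
    have h4 : CD * (c * (ε / 3) / (2 * CD)) = c * (ε / 3) / 2 := by field_simp
    linarith
  refine ⟨N, R, c * (∏ v ∈ insert v0 (Un L n), dQ v) * (∏ v ∈ P, dP v) /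
      (((D0 : ℝ) ^ Module.finrank ℚ F) ^ 5 * CH),
    max 1 (max 1 (max R1 (max R2 R3)) * D0), hN, by positivity, hNcl, fun ρ hρ => ?_⟩
  have hρ1 : ∀ v, 1 ≤ ρ v := fun v => (le_max_left _ _).trans (hρ v)
  obtain ⟨ρ', hρ'⟩ : ∃ ρ' : InfinitePlace F → ℝ, ρ' = fun v => ρ v / D0 := ⟨_, rfl⟩
  have hρR : ∀ v, max 1 (max R1 (max R2 R3)) ≤ ρ' v := fun v => by
    rw [hρ']
    show _ ≤ ρ v / D0
    rw [le_div_iff₀ hD0p]
    exact (le_max_right _ _).trans (hρ v)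
  have hr1 : ∀ v, 1 ≤ ρ' v := fun v => (le_max_left _ _).trans (hρR v)
  have hr2 : ∀ v, R1 ≤ ρ' v := fun v => (le_max_left _ _).trans ((le_max_right _ _).trans (hρR v))
  have hr3 : ∀ v, R2 ≤ ρ' v := fun v => (le_max_left _ _).trans ((le_max_right _ _).trans
    ((le_max_right _ _).trans (hρR v)))
  have hr4 : ∀ v, R3 ≤ ρ' v := fun v => (le_max_right _ _).trans ((le_max_right _ _).trans
    ((le_max_right _ _).trans (hρR v)))
  have hr0 : ∀ v, 0 ≤ ρ' v := fun v => by linarith [hr1 v]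
  have hvp : 0 < vol ρ' := vol_pos fun v => by linarith [hr1 v]
  have hFl := hR2 ρ' hr3
  have hD := hR3 ρ' hr4
  have hsw : ∀ D ∈ U, ∀ v, ρ' v ≤ ρ v / D ∧ ρ v / D ≤ (1 + δ) ^ (n + 1) * ρ' v := by
    intro D hDU v
    have h1 := hDpos D hDU
    have hDp : (0 : ℝ) < D := by linarith
    have hρv : 0 ≤ ρ v := by linarith [hρ1 v]
    constructor
    · rw [hρ']
      show ρ v / D0 ≤ ρ v / D
      have : (D : ℝ) ≤ D0 := by exact_mod_cast hmax D hDU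
      gcongr
    · rw [hρ']
      show ρ v / D ≤ (1 + δ) ^ (n + 1) * (ρ v / D0)
      rw [← mul_div_assoc, div_le_div_iff₀ hDp hD0p]
      have h2 := hratio D hDU
      calc ρ v * D0 ≤ ρ v * ((1 + δ) ^ (n + 1) * D) := by gcongr
        _ = (1 + δ) ^ (n + 1) * ρ v * D := by ring
  have hb : ((Fam k cl (insert v0 (Un L n)) P ∩
      (Bx F (fun v => (1 + δ) ^ (n + 1) * ρ' v) \ Bx F ρ')).ncard : ℝ) ≤
      ε / 3 * (Fam k cl (insert v0 (Un L n)) P ∩ Bx F ρ').ncard := by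
    calc ((Fam k cl (insert v0 (Un L n)) P ∩
        (Bx F (fun v => (1 + δ) ^ (n + 1) * ρ' v) \ Bx F ρ')).ncard : ℝ)
        ≤ (CD * ((1 + δ) ^ (n + 1) - 1) + c * (ε / 3) / 2) *
          (∏ v ∈ insert v0 (Un L n), dQ v) * (∏ v ∈ P, dP v) * vol ρ' ^ 5 := hD
      _ ≤ c * (ε / 3) * (∏ v ∈ insert v0 (Un L n), dQ v) * (∏ v ∈ P, dP v) * vol ρ' ^ 5 := by
          gcongr
      _ = ε / 3 * (c * (∏ v ∈ insert v0 (Un L n), dQ v) * (∏ v ∈ P, dP v) * vol ρ' ^ 5) := by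
          ring
      _ ≤ _ := by gcongr
  have hpop : ∀ d : ℕ, |∑ D ∈ U, ({q ∈ Fam k cl (insert v0 (Un L n)) P ∩ Bx F ρ' |
          Nat.card (Sel 2 (cN q.1 q.2 D)) = 2 ^ d}.ncard : ℝ) -
        PR.law d * (U.card * (Fam k cl (insert v0 (Un L n)) P ∩ Bx F ρ').ncard)| ≤
        ε / 3 * (U.card * (Fam k cl (insert v0 (Un L n)) P ∩ Bx F ρ').ncard) := by
    intro d
    rw [hU3 (fun D => ({q ∈ Fam k cl (insert v0 (Un L n)) P ∩ Bx F ρ' |
          Nat.card (Sel 2 (cN q.1 q.2 D)) = 2 ^ d}.ncard : ℝ)), hUcard]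
    exact hR1 ρ' hr2 d
  have key : ∀ d, _ := fun d => oneR hfin hCN2 hBOX hk h6 hL.sys hU2 (by positivity) hr0 hsw hb d
    (hlpos d).le (hl1 d) (hpop d)
  rw [hNR]
  refine ⟨?_, fun d => ?_⟩
  · have h1 := (key 0).2
    have hcard : (1 : ℝ) ≤ U.card := by exact_mod_cast hUne.card_pos
    have h2 : ((Fam k cl (insert v0 (Un L n)) P ∩ Bx F ρ').ncard : ℝ) ≤
        (Gse k cl (insert v0 (Un L n)) P U ∩ Bx F ρ).ncard := by
      have h0 : (0 : ℝ) ≤ (Fam k cl (insert v0 (Un L n)) P ∩ Bx F ρ').ncard := Nat.cast_nonneg _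
      nlinarith
    refine le_trans ?_ (hFl.trans h2)
    have h3 := hall ρ hρ1
    have h4 : vol ρ' = vol ρ / (D0 : ℝ) ^ Module.finrank ℚ F := by
      rw [hρ']
      exact hvol ρ D0 hD0p
    rw [h4]
    have h5 : 0 < vol ρ := vol_pos fun v => by linarith [hρ1 v]
    calc c * (∏ v ∈ insert v0 (Un L n), dQ v) * (∏ v ∈ P, dP v) /
          (((D0 : ℝ) ^ Module.finrank ℚ F) ^ 5 * CH) * ((Bx F ρ).ncard : ℝ)
        ≤ c * (∏ v ∈ insert v0 (Un L n), dQ v) * (∏ v ∈ P, dP v) /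
          (((D0 : ℝ) ^ Module.finrank ℚ F) ^ 5 * CH) * (CH * vol ρ ^ 5) := by gcongr
      _ = c * (∏ v ∈ insert v0 (Un L n), dQ v) * (∏ v ∈ P, dP v) *
          (vol ρ / (D0 : ℝ) ^ Module.finrank ℚ F) ^ 5 := by
          field_simp
  · have h1 := (key d).1
    calc _ ≤ _ := h1
      _ = ε * ((Gse k cl (insert v0 (Un L n)) P U ∩ Bx F ρ).ncard : ℝ) := by ring

end FINM

open FINM

/-- FIN -/
theorem specFIN (hDEN : SpecDEN) (hSYS : SpecSYS) (hBOX : SpecBOX) (hIJD : SpecIJD)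
    (hCN1 : SpecCN1) (hCN2 : SpecCN2) (hTSF : SpecTSF) (hPOP : SpecPOP) (hLAW : PR.SpecLAW) :
    SpecFIN := by
  intro F _ _ N0 cl hN0
  have hlpos : ∀ d, 0 < PR.law d := fun d => by rw [hLAW]; exact PR.MKM.C2_pos d
  have hfin := hDEN.fin F
  obtain ⟨hbox, _, _, _⟩ := hBOX F
  have hcls : Cls (6 * N0) cl ⊆ Cls N0 cl := by
    have h : Ideal.span {((6 * N0 : ℕ) : 𝓞 F)} ≤ Ideal.span {(N0 : 𝓞 F)} := by
      rw [Ideal.span_singleton_le_span_singleton]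
      push_cast
      exact Dvd.intro_left _ rfl
    exact fun q hq => ⟨h hq.1, h hq.2⟩
  have main' : ∀ ε : ℝ, 0 < ε → ∃ (N : ℕ)
      (R : Set ((𝓞 F ⧸ Ideal.span {(N : 𝓞 F)}) × (𝓞 F ⧸ Ideal.span {(N : 𝓞 F)}))) (c X0 : ℝ),
      0 < N ∧ 0 < c ∧ Cong F N R ⊆ Cls N0 cl ∧
      ∀ X : InfinitePlace F → ℝ, (∀ v, X0 ≤ X v) →
        c * ((Box F X).ncard : ℝ) ≤ ((Cong F N R ∩ Box F X).ncard : ℝ) ∧
        ∀ d : ℕ, |((Cong F N R ∩ Box F X ∩ Rk F d).ncard : ℝ) -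
          PR.law d * ((Cong F N R ∩ Box F X).ncard : ℝ)| ≤
            ε * ((Cong F N R ∩ Box F X).ncard : ℝ) := by
    intro ε hε
    obtain ⟨N, R, c, R0, hN, hc, hcl, h⟩ := main (F := F) (k := 6 * N0) hDEN hSYS hBOX hIJD hCN1
      hCN2 hTSF hPOP hLAW (by omega) (Dvd.intro _ rfl) cl hε
    -- a bound for all places at once
    have hex : ∃ X0 : ℝ, ∀ x : ℝ, X0 ≤ x → 0 ≤ x ∧ ∀ v : InfinitePlace F,
        R0 ≤ x ^ (1 / (6 * (v.mult : ℝ))) := by
      have hev : ∀ᶠ x : ℝ in atTop, ∀ v ∈ (Finset.univ : Finset (InfinitePlace F)),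
          R0 ≤ x ^ (1 / (6 * (v.mult : ℝ))) := by
        rw [Filter.eventually_all_finset]
        intro v _
        have hm : (0 : ℝ) < 1 / (6 * (v.mult : ℝ)) := by
          have : (0 : ℝ) < v.mult := by exact_mod_cast v.mult_pos
          positivity
        exact (tendsto_rpow_atTop hm).eventually_ge_atTop R0
      obtain ⟨X0, hX0⟩ := eventually_atTop.1 (hev.and (eventually_ge_atTop (0 : ℝ)))
      exact ⟨X0, fun x hx => ⟨(hX0 x hx).2, fun v => (hX0 x hx).1 v (Finset.mem_univ v)⟩⟩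
    obtain ⟨X0, hX0⟩ := hex
    refine ⟨N, R, c, X0, hN, hc, hcl.trans hcls, fun X hX => ?_⟩
    rw [hbox X fun v => (hX0 _ (hX v)).1]
    exact h _ fun v => (hX0 _ (hX v)).2 v
  refine ⟨main', fun d => ?_⟩
  obtain ⟨N, R, c', X0, hN, hc', hcl, h⟩ := main' (PR.law d / 2)
    (by have := hlpos d; positivity)
  refine ⟨PR.law d / 2 * c', max X0 0, by have := hlpos d; positivity, fun X hX => ?_⟩
  obtain ⟨h1, h2⟩ := h X fun v => (le_max_left _ _).trans (hX v)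
  have hbf : (Box F X).Finite := by
    rw [hbox X fun v => (le_max_right _ _).trans (hX v)]
    exact hfin _
  have h3 := (abs_le.1 (h2 d)).1
  have h6 : Cong F N R ∩ Box F X ∩ Rk F d ⊆ Cls N0 cl ∩ Box F X ∩ Rk F d :=
    fun q hq => ⟨⟨hcl hq.1.1, hq.1.2⟩, hq.2⟩
  have h7 : (Cls N0 cl ∩ Box F X ∩ Rk F d).Finite := hbf.subset fun q hq => hq.1.2
  have h4 : ((Cong F N R ∩ Box F X ∩ Rk F d).ncard : ℝ) ≤
      ((Cls N0 cl ∩ Box F X ∩ Rk F d).ncard : ℝ) := by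
    exact_mod_cast Set.ncard_le_ncard h6 h7
  have h5 : PR.law d / 2 * c' * ((Box F X).ncard : ℝ) ≤
      PR.law d / 2 * ((Cong F N R ∩ Box F X).ncard : ℝ) := by
    rw [mul_assoc]
    have := hlpos d
    gcongr
  linarith

end Pool.Agent.Lib.MP_8cb858_nt.PF
end

section
/-!
# SGL: one step of the chain
-/
set_option autoImplicit false

namespace Pool.Agent.Lib.MP_8cb858_nt.PF

open scoped Classical

namespace SGLM

/-- The sign of a character. -/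
noncomputable def chi {G : Type} (tv : G → Prop) (z : G) : ℝ := if tv z then 1 else -1

theorem tv_zero {G : Type} [AddCommGroup G] {tv : G → Prop}
    (h : ∀ z w, tv (z + w) ↔ (tv z ↔ tv w)) : tv 0 := by
  have := h 0 0
  rw [add_zero] at this
  tauto

theorem sum_chi {G : Type} [AddCommGroup G] [Fintype G] {tv : G → Prop}
    (h : ∀ z w, tv (z + w) ↔ (tv z ↔ tv w)) :
    ∑ z : G, chi tv z = if (∀ z, tv z) then (Fintype.card G : ℝ) else 0 := by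
  split_ifs with hall
  · simp [chi, hall]
  · push Not at hall
    obtain ⟨z0, hz0⟩ := hall
    have h1 : ∑ z : G, chi tv z = ∑ z : G, chi tv (z + z0) :=
      (Equiv.sum_comp (Equiv.addRight z0) (chi tv)).symm
    have h2 : ∀ z, chi tv (z + z0) = - chi tv z := by
      intro z
      unfold chi
      have h3 : tv (z + z0) ↔ ¬ tv z := by
        rw [h]
        tauto
      by_cases hz : tv z
      · rw [if_neg (by rw [h3]; exact not_not.2 hz), if_pos hz]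
      · rw [if_pos (h3.2 hz), if_neg hz, neg_neg]
    rw [Finset.sum_congr rfl (fun z _ => h2 z), Finset.sum_neg_distrib] at h1
    linarith

theorem sum_P {ι G : Type} (P : Finset ι) (tv : ι → G → Prop) (z : G) :
    ∑ p ∈ P, chi (tv p) z = (P.card : ℝ) - 2 * ((P.filter (fun p => ¬ tv p z)).card : ℝ) := by
  have h1 : (P.filter (fun p => tv p z)).card + (P.filter (fun p => ¬ tv p z)).card = P.card :=
    Finset.card_filter_add_card_filter_not _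
  have h2 : ∑ p ∈ P, chi (tv p) z =
      ((P.filter (fun p => tv p z)).card : ℝ) - ((P.filter (fun p => ¬ tv p z)).card : ℝ) := by
    unfold chi
    rw [Finset.sum_ite]
    simp [sub_eq_add_neg]
  rw [h2, ← h1]
  push_cast
  ring

end SGLM

/-- **SGL.** -/
theorem specSGL : SpecSGL := by
  intro ι G _ _ P tv s s' η f hη0 hz2 hcard hadd hM hM' hη hf
  have : Fintype G := Fintype.ofFinite G
  have hcard' : (Fintype.card G : ℝ) = 2 ^ s := by
    rw [← Nat.card_eq_fintype_card, hcard]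
    push_cast
    rfl
  set M := P.filter (fun p => ∀ z, tv p z) with hMd
  have h1 : ∑ z : G, ∑ p ∈ P, SGLM.chi (tv p) z = 2 ^ s * (M.card : ℝ) := by
    rw [Finset.sum_comm, Finset.sum_congr rfl (fun p hp => SGLM.sum_chi (hadd p hp)),
      ← Finset.sum_filter, Finset.sum_const, hcard', nsmul_eq_mul, mul_comm]
  have h2 : ∑ p ∈ P, SGLM.chi (tv p) (0 : G) = (P.card : ℝ) := by
    rw [Finset.sum_congr rfl (g := fun _ => (1 : ℝ))
      (fun p hp => by unfold SGLM.chi; rw [if_pos (SGLM.tv_zero (hadd p hp))])]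
    simp
  have h3 : |∑ z ∈ Finset.univ.erase (0 : G), ∑ p ∈ P, SGLM.chi (tv p) z| ≤
      2 ^ s * (η * P.card) := by
    calc |∑ z ∈ Finset.univ.erase (0 : G), ∑ p ∈ P, SGLM.chi (tv p) z|
        ≤ ∑ z ∈ Finset.univ.erase (0 : G), |∑ p ∈ P, SGLM.chi (tv p) z| :=
          Finset.abs_sum_le_sum_abs _ _
      _ ≤ ∑ z ∈ Finset.univ.erase (0 : G), (η * P.card) := by
          refine Finset.sum_le_sum fun z hz => ?_
          rw [SGLM.sum_P]
          exact hη z (Finset.ne_of_mem_erase hz)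
      _ = ((Finset.univ.erase (0 : G)).card : ℝ) * (η * P.card) := by
          rw [Finset.sum_const, nsmul_eq_mul]
      _ ≤ 2 ^ s * (η * P.card) := by
          have h5 : 0 ≤ η * P.card := mul_nonneg hη0 (Nat.cast_nonneg _)
          refine mul_le_mul_of_nonneg_right ?_ h5
          rw [← hcard']
          exact_mod_cast (Finset.card_le_univ _)
  have h6 : (2 : ℝ) ^ s * (M.card : ℝ) - P.card =
      ∑ z ∈ Finset.univ.erase (0 : G), ∑ p ∈ P, SGLM.chi (tv p) z := by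
    rw [← h1, ← Finset.add_sum_erase Finset.univ _ (Finset.mem_univ (0 : G)), h2]
    ring
  have h7 : (0 : ℝ) < 2 ^ s := by positivity
  have h8 : |(M.card : ℝ) - (1 / 2) ^ s * P.card| ≤ η * P.card := by
    have h9 : (2 : ℝ) ^ s * |(M.card : ℝ) - (1 / 2) ^ s * P.card| ≤ 2 ^ s * (η * P.card) := by
      calc (2 : ℝ) ^ s * |(M.card : ℝ) - (1 / 2) ^ s * P.card|
          = |(2 : ℝ) ^ s * ((M.card : ℝ) - (1 / 2) ^ s * P.card)| := by
            rw [abs_mul, abs_of_pos h7]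
        _ = |(2 : ℝ) ^ s * (M.card : ℝ) - P.card| := by
            congr 1
            have : (2 : ℝ) ^ s * (1 / 2) ^ s = 1 := by
              rw [← mul_pow]; norm_num
            linear_combination (-(P.card : ℝ)) * this
        _ ≤ _ := by rw [h6]; exact h3
    exact le_of_mul_le_mul_left h9 h7
  have hsumM : ∑ p ∈ P, f (s' p) =
      (M.card : ℝ) * f (s + 1) + ((P.card : ℝ) - M.card) * f (s - 1) := by
    have hc : (M.card : ℝ) + ((P.filter (fun p => ¬ ∀ z, tv p z)).card : ℝ) = P.card := by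
      exact_mod_cast Finset.card_filter_add_card_filter_not (s := P) (fun p => ∀ z, tv p z)
    have e1 : ∀ p ∈ M, f (s' p) = f (s + 1) := by
      intro p hp
      obtain ⟨hp1, hp2⟩ := Finset.mem_filter.1 hp
      have := hM p hp1 hp2
      rw [← pow_succ'] at this
      rw [Nat.pow_right_injective le_rfl this]
    have e2 : ∀ p ∈ P.filter (fun p => ¬ ∀ z, tv p z), f (s' p) = f (s - 1) := by
      intro p hp
      obtain ⟨hp1, hp2⟩ := Finset.mem_filter.1 hp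
      have := hM' p hp1 hp2
      rw [← pow_succ'] at this
      have h10 := Nat.pow_right_injective le_rfl this
      rw [← h10]
      rfl
    rw [← Finset.sum_filter_add_sum_filter_not P (fun p => ∀ z, tv p z),
      Finset.sum_congr rfl e1, Finset.sum_congr rfl e2, Finset.sum_const, Finset.sum_const,
      nsmul_eq_mul, nsmul_eq_mul, ← hc]
    ring
  rw [hsumM]
  unfold PR.Mop
  have h11 : (M.card : ℝ) * f (s + 1) + ((P.card : ℝ) - M.card) * f (s - 1) -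
      (P.card : ℝ) * ((1 / 2) ^ s * f (s + 1) + (1 - (1 / 2) ^ s) * f (s - 1)) =
      ((M.card : ℝ) - (1 / 2) ^ s * P.card) * (f (s + 1) - f (s - 1)) := by ring
  rw [h11, abs_mul]
  have h12 : |f (s + 1) - f (s - 1)| ≤ 2 := by
    have := abs_sub (f (s + 1)) (f (s - 1))
    linarith [hf (s + 1), hf (s - 1)]
  calc |(M.card : ℝ) - (1 / 2) ^ s * P.card| * |f (s + 1) - f (s - 1)|
      ≤ (η * P.card) * 2 := mul_le_mul h8 h12 (abs_nonneg _) (by positivity)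
    _ = _ := by ring

end Pool.Agent.Lib.MP_8cb858_nt.PF
end
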