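import Pool.Agent.Lib.MP_8cb858_nt.PF.Top

/-!
# Specs, part O: the cubic algebra `R[X]/(X^3 + a X + b)` (basics for all blocks of phase 2)

`f = X^3 + a X + b`, `L = Lk a b`, `θ = th a b`, `N` = `Algebra.norm`, `λ = cf 2`. The proofs are those
of the modules of the same name in `PR/` (with `A`, `B` integers replaced by `a`, `b` in `R`); copy
and adapt them. Module XXX = file `PF/XXX.lean`, theorem `specXXX (hYYY : SpecYYY) .. : SpecXXX`, own
lemmas in the namespace `Pool.Agent.Lib.MP_8cb858_nt.PF.XXXM`. Every Spec is a closed proposition.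
-/

namespace Pool.Agent.Lib.MP_8cb858_nt.PF

open Polynomial NumberField IsDedekindDomain Pool.Agent.Lib.MP_8cb858_nt.SEL
open scoped Classical WithZero

/-- **COO.** Coordinates in `L`. Proof: `PR/COO.lean`. `big`: the coordinates `cf i`, `i ≥ 3`, vanish. -/
structure SpecCOO : Prop where
  ext : ∀ {R : Type} [CommRing R] {a b : R} (α : Lk a b), α = el a b (cf 0 α) (cf 1 α) (cf 2 α)
  co : ∀ {R : Type} [CommRing R] {a b : R} (x y z : R),
    cf 0 (el a b x y z) = x ∧ cf 1 (el a b x y z) = y ∧ cf 2 (el a b x y z) = z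
  big : ∀ {R : Type} [CommRing R] {a b : R} (i : ℕ) (α : Lk a b), 3 ≤ i → cf i α = 0
  add : ∀ {R : Type} [CommRing R] {a b : R} (x y z x' y' z' : R),
    el a b x y z + el a b x' y' z' = el a b (x + x') (y + y') (z + z')
  mul : ∀ {R : Type} [CommRing R] {a b : R} (x y z x' y' z' : R),
    el a b x y z * el a b x' y' z' =
      el a b (x * x' - b * (y * z' + z * y')) (x * y' + y * x' - a * (y * z' + z * y') - b * (z * z'))
        (x * z' + y * y' + z * x' - a * (z * z'))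
  one : ∀ {R : Type} [CommRing R] {a b : R}, (1 : Lk a b) = el a b 1 0 0
  ofv : ∀ {R : Type} [CommRing R] {a b : R} (x : R), AdjoinRoot.of (fpol a b) x = el a b x 0 0
  thv : ∀ {R : Type} [CommRing R] {a b : R}, th a b = el a b 0 1 0
  upv : ∀ {R S : Type} [CommRing R] [CommRing S] {a b : R} (φ : R →+* S) (x y z : R),
    upr φ a b (el a b x y z) = el (φ a) (φ b) (φ x) (φ y) (φ z)
  cfu : ∀ {R S : Type} [CommRing R] [CommRing S] {a b : R} (φ : R →+* S) (α : Lk a b) (i : ℕ),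
    cf i (upr φ a b α) = φ (cf i α)
  inj : ∀ {R S : Type} [CommRing R] [CommRing S] {a b : R} (φ : R →+* S),
    Function.Injective φ → Function.Injective (upr φ a b)

/-- **EVA.** Evaluation at a root `t` is a ring homomorphism. Proof: `PR/EVA.lean`. -/
structure SpecEVA : Prop where
  elv : ∀ {R S : Type} [CommRing R] [CommRing S] {a b : R} (φ : R →+* S) (t : S) (x y z : R),
    ev φ t (el a b x y z) = φ x + φ y * t + φ z * t ^ 2
  mul : ∀ {R S : Type} [CommRing R] [CommRing S] {a b : R} (φ : R →+* S) (t : S)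
    (α β : Lk a b), t ^ 3 + φ a * t + φ b = 0 → ev φ t (α * β) = ev φ t α * ev φ t β
  add : ∀ {R S : Type} [CommRing R] [CommRing S] {a b : R} (φ : R →+* S) (t : S)
    (α β : Lk a b), ev φ t (α + β) = ev φ t α + ev φ t β
  one : ∀ {R S : Type} [CommRing R] [CommRing S] {a b : R} (φ : R →+* S) (t : S),
    ev φ t (1 : Lk a b) = 1
  upv : ∀ {R S T : Type} [CommRing R] [CommRing S] [CommRing T] {a b : R} (φ : R →+* S)
    (ψ : S →+* T) (t : T) (α : Lk a b), ev ψ t (upr φ a b α) = ev (ψ.comp φ) t α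
  unit : ∀ {R S : Type} [CommRing R] [CommRing S] {a b : R} (φ : R →+* S) (t : S)
    (α : Lk a b), t ^ 3 + φ a * t + φ b = 0 → IsUnit α → IsUnit (ev φ t α)

/-- **NRM.** The norm. Proof: `PR/NRM.lean`. -/
structure SpecNRM : Prop where
  frm : ∀ {R : Type} [CommRing R] {a b : R} (x y z : R), Algebra.norm R (el a b x y z) =
    x * ((x - a * z) ^ 2 + y * (b * z + a * y)) + b * z * (y * (x - a * z) + z * (b * z + a * y))
      - b * y * (y ^ 2 - z * (x - a * z))
  rts : ∀ {R S : Type} [CommRing R] [CommRing S] {a b : R} (φ : R →+* S) (t : Fin 3 → S)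
    (α : Lk a b), t 0 + t 1 + t 2 = 0 → t 0 * t 1 + t 0 * t 2 + t 1 * t 2 = φ a →
    t 0 * t 1 * t 2 = -φ b → φ (Algebra.norm R α) = ev φ (t 0) α * ev φ (t 1) α * ev φ (t 2) α
  bc : ∀ {R S : Type} [CommRing R] [CommRing S] {a b : R} (φ : R →+* S) (α : Lk a b),
    Algebra.norm S (upr φ a b α) = φ (Algebra.norm R α)
  unt : ∀ {R : Type} [CommRing R] {a b : R} (α : Lk a b), IsUnit α ↔ IsUnit (Algebra.norm R α)
  lin : ∀ {R : Type} [CommRing R] {a b : R} (D x : R),
    Algebra.norm R (AdjoinRoot.of (fpol a b) D * (AdjoinRoot.of _ x - th a b)) =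
      D ^ 3 * (x ^ 3 + a * x + b)
  sc : ∀ {R : Type} [CommRing R] {a b : R} (D : R),
    Algebra.norm R (AdjoinRoot.of (fpol a b) D) = D ^ 3

/-- **INV.** Formal properties of `InV`. Proof: `PR/INV.lean`. -/
structure SpecINV : Prop where
  mul : ∀ {R : Type} [CommRing R] {a b : R} (α β : Lk a b), InV α → InV β → InV (α * β)
  sqr : ∀ {R : Type} [CommRing R] {a b : R} (γ : Lk a b), IsUnit γ → InV (γ ^ 2)
  msq : ∀ {R : Type} [CommRing R] {a b : R} (α γ : Lk a b), IsUnit γ → (InV (α * γ ^ 2) ↔ InV α)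
  upv : ∀ {R S : Type} [CommRing R] [CommRing S] {a b : R} (φ : R →+* S) (α : Lk a b),
    InV α → InV (upr φ a b α)
  quo : ∀ {R : Type} [CommRing R] {a b : R} (α β : Lk a b), IsUnit α → IsUnit β →
    (IsSquare (α * β) ↔ ∃ γ, IsUnit γ ∧ α = β * γ ^ 2)
  trs : ∀ {R : Type} [CommRing R] {a b : R} (α β γ : Lk a b), IsUnit β →
    IsSquare (α * β) → IsSquare (β * γ) → IsSquare (α * γ)

/-- **AFI.** Formal properties of `Aff` and `Iso`. Proof: `PR/AFI.lean`. `pt`: the class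
`D (x - θ)` of a point (norm `D^2 y^2`). -/
structure SpecAFI : Prop where
  inv : ∀ {K : Type} [Field K] {a b : K} (D : K) (α γ : Lk a b), IsUnit γ →
    (Aff D (α * γ ^ 2) ↔ Aff D α) ∧ (Iso (α * γ ^ 2) ↔ Iso α)
  iso : ∀ {K : Type} [Field K] {a b : K} (D : K) (α : Lk a b), D ≠ 0 → IsUnit α →
    Aff D α → Iso α
  dd : ∀ {K : Type} [Field K] {a b : K} (D D' : K) (α : Lk a b), D ≠ 0 → D' ≠ 0 →
    IsSquare (D * D') → (Aff D α ↔ Aff D' α)
  pt : ∀ {K : Type} [Field K] {a b : K} (D x y : K), D ≠ 0 → y ≠ 0 →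
    y ^ 2 = D * (x ^ 3 + a * x + b) →
    InV (AdjoinRoot.of (fpol a b) D * (AdjoinRoot.of _ x - th a b)) ∧
      Aff D (AdjoinRoot.of (fpol a b) D * (AdjoinRoot.of _ x - th a b))

/-- **HYF.** A criterion for `Hyp`. Proof: `PR/HYF.lean`. -/
def SpecHYF : Prop :=
  ∀ (K : Type) [Field K] (a b : K) (E : Lk a b → Prop),
    (∀ α γ : Lk a b, InV α → IsUnit γ → (E (α * γ ^ 2) ↔ E α)) →
    (∀ α : Lk a b, InV α → IsSquare α → E α) →
    (∀ α β : Lk a b, InV α → InV β → E α → E β → E (α * β)) →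
    (∀ α β : Lk a b, InV α → InV β → ¬ E α → ¬ E β → E (α * β)) →
    (∀ α β : Lk a b, InV α → InV β → E α → E β → ¬ IsSquare α → ¬ IsSquare β →
      IsSquare (α * β)) →
    (∀ α : Lk a b, InV α → E α → Iso α) →
    (∃ α₁ ε : Lk a b, InV α₁ ∧ InV ε ∧ E ε ∧ Iso α₁ ∧ ¬ Iso (α₁ * ε)) →
    PR.Hyp (M := Lk a b) InV E Iso

end Pool.Agent.Lib.MP_8cb858_nt.PF
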