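import Pool.Agent.Lib.MP_8cb858_nt.PF.SpecO
import Pool.Agent.Lib.MP_8cb858_nt.PF.SpecB
import Pool.Agent.Lib.MP_8cb858_nt.PF.SpecA
import Pool.Agent.Lib.MP_8cb858_nt.PT.PLQ
import Pool.Agent.Lib.MP_8cb858_nt.PF.EPC

section
/-!
# HYF: a criterion for `Hyp`
-/
namespace Pool.Agent.Lib.MP_8cb858_nt.PF

open Polynomial NumberField Pool.Agent.Lib.MP_8cb858_nt.SEL
open scoped Classical

theorem specHYF (hAFI : SpecAFI) (hINV : SpecINV) : SpecHYF := by
  intro K _ a b E hinv hone hc0 hc1 hc2 hc3 hex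
  obtain ⟨α₁, ε, hα₁, hε, hEε, hI₁, hI₂⟩ := hex
  -- invariance of `Iso`
  have hIso : ∀ α β : Lk a b, IsUnit α → IsUnit β → IsSquare (α * β) → (Iso α ↔ Iso β) := by
    intro α β hα hβ h
    obtain ⟨γ, hγ, rfl⟩ := (hINV.quo α β hα hβ).1 h
    exact (hAFI.inv 0 β γ hγ).2
  have hv := hINV.mul α₁ ε hα₁ hε
  have hE₁ : ¬ E α₁ := fun h => hI₂ (hc3 _ hv (hc0 _ _ hα₁ hε h hEε))
  have hεs : ¬ IsSquare ε := by
    intro h
    apply hI₂
    refine (hIso (α₁ * ε) α₁ hv.1 hα₁.1 ?_).2 hI₁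
    obtain ⟨r, hr⟩ := h
    exact ⟨α₁ * r, by rw [hr]; ring⟩
  -- the claim
  have claim : ∀ ρ : Lk a b, InV ρ → ¬ E ρ → (Iso ρ → IsSquare (ρ * α₁)) ∧
      (¬ Iso ρ → IsSquare (ρ * (α₁ * ε))) := by
    intro ρ hρ hEρ
    have h1 := hc1 ρ α₁ hρ hα₁ hEρ hE₁
    have h2 := hINV.mul ρ α₁ hρ hα₁
    by_cases hs : IsSquare (ρ * α₁)
    · refine ⟨fun _ => hs, fun h => absurd ?_ h⟩
      exact (hIso ρ α₁ hρ.1 hα₁.1 hs).2 hI₁
    · have hs' : IsSquare (ρ * (α₁ * ε)) := by
        rw [← mul_assoc]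
        exact hc2 (ρ * α₁) ε h2 hε h1 hEε hs hεs
      refine ⟨fun h => absurd ?_ hI₂, fun _ => hs'⟩
      exact (hIso ρ (α₁ * ε) hρ.1 hv.1 hs').1 h
  refine ⟨fun α γ hα hγ => ⟨hinv α γ hα hγ, (hAFI.inv 0 α γ hγ).2⟩, hone, hc0, hc1, hc2, hc3, ?_⟩
  intro α β hα hβ hEα hEβ
  constructor
  · intro h
    by_cases hI : Iso α
    · have h3 := (claim α hα hEα).1 hI
      have h4 := (claim β hβ hEβ).1 (h.1 hI)
      rw [mul_comm β] at h4
      exact hINV.trs α α₁ β hα₁.1 h3 h4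
    · have h3 := (claim α hα hEα).2 hI
      have h4 := (claim β hβ hEβ).2 fun h5 => hI (h.2 h5)
      rw [mul_comm β] at h4
      exact hINV.trs α (α₁ * ε) β hv.1 h3 h4
  · intro h
    exact hIso α β hα.1 hβ.1 h

end Pool.Agent.Lib.MP_8cb858_nt.PF
end

section
/-!
# MP_8cb858_nt, Poonen-Rains up to epsilon over number fields, block B, module ISR (helper43)

Ramified case: an isotropic class `α₁` such that `α₁ ε` is anisotropic.
-/
set_option autoImplicit false

namespace Pool.Agent.Lib.MP_8cb858_nt.PF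

open Polynomial
open scoped WithZero

namespace ISRM

variable {K : Type} [Field K] {w : Valuation K ℤᵐ⁰}

theorem lt_of_sq {x : K} (h : w (x ^ 2) < 1) : w x < 1 := by
  by_contra hcon
  rw [not_lt] at hcon
  rw [map_pow] at h
  exact absurd h (not_lt.2 (one_le_pow₀ hcon))

theorem mul_le {x y : K} (hx : w x ≤ 1) (hy : w y ≤ 1) : w (x * y) ≤ 1 := by
  rw [map_mul]
  exact mul_le_one' hx hy

theorem mul_lt {x y : K} (hx : w x < 1) (hy : w y ≤ 1) : w (x * y) < 1 := by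
  rw [map_mul]
  exact lt_of_le_of_lt (mul_le_of_le_one_right' hy) hx

theorem prim (hVAL : SpecVAL) {π : K} (hπ : w π = WithZero.exp (-1 : ℤ)) (r x y : K)
    (h : ¬ (r = 0 ∧ x = 0 ∧ y = 0)) : ∃ (c r' x' y' : K), c ≠ 0 ∧ r = c * r' ∧ x = c * x' ∧
      y = c * y' ∧ w r' ≤ 1 ∧ w x' ≤ 1 ∧ w y' ≤ 1 ∧ (w r' = 1 ∨ w x' = 1 ∨ w y' = 1) := by
  obtain ⟨k, v, hv, i, hi⟩ := hVAL.pri hπ 3 ![r, x, y] (by
    intro h0
    apply h
    exact ⟨by simpa using congrFun h0 0, by simpa using congrFun h0 1, by simpa using congrFun h0 2⟩)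
  have hπ0 : π ≠ 0 := by
    intro h0
    rw [h0, map_zero] at hπ
    exact WithZero.exp_ne_zero hπ.symm
  refine ⟨π ^ k, v 0, v 1, v 2, zpow_ne_zero _ hπ0, by simpa using (hv 0).2,
    by simpa using (hv 1).2, by simpa using (hv 2).2, (hv 0).1, (hv 1).1, (hv 2).1, ?_⟩
  fin_cases i
  · exact Or.inl hi
  · exact Or.inr (Or.inl hi)
  · exact Or.inr (Or.inr hi)

end ISRM

open ISRM in
/-- **ISR** -/
theorem specISR (hVAL : SpecVAL) (hRES : SpecRES) (hTOC : SpecTOC) (hTOI : SpecTOI)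
    (hEVC : SpecEVC) : SpecISR := by
  intro K _ _ w a b t hLF hw2 hw3 ha hb hR
  have h2 : (2 : K) ≠ 0 := two_ne_zero
  have h3 : (3 : K) ≠ 0 := three_ne_zero
  have hrt := hR.rt
  have hf0 : 3 * t ^ 2 + a ≠ 0 := by
    intro h
    have := hR.un
    rw [h, map_zero] at this
    exact zero_ne_one this
  have ht0 : t ≠ 0 := by
    intro h
    have := hR.ti
    rw [h, map_zero] at this
    exact zero_ne_one this
  have hde := hR.de
  set d := dq a t with hd
  have hd0 : d ≠ 0 := by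
    intro h
    rw [h, map_zero] at hde
    exact WithZero.exp_ne_zero hde.symm
  have hd1 : w d < 1 := (hVAL.lt w d).2 hde.le
  obtain ⟨n, hn1, hns⟩ := hRES.ns hLF hw2
  have hn0 : n ≠ 0 := by
    intro h
    rw [h, map_zero] at hn1
    exact zero_ne_one hn1
  -- the unit class
  obtain ⟨ε, hε⟩ := hTOC.ex (b := b) (1 : K) n 0 hf0
  have hnrmε := hTOC.nrm h2 hrt hε
  have hnn : n ^ 2 - d * 0 ^ 2 = n ^ 2 := by ring
  have hεV : InV ε := by
    refine ⟨(hTOC.unt h2 hrt hε).2 ⟨one_ne_zero, ?_⟩, ⟨n, ?_⟩⟩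
    · rw [← hd, hnn]
      exact pow_ne_zero 2 hn0
    · rw [hnrmε]; ring
  have hεE : Ev w ε := by
    refine (hEVC K w a b t ε hw2 ha hR.ti.le hrt hR.un).2
      ⟨1, 1, n, 0, isUnit_one, map_one w, hn1.le, by rw [map_zero]; exact zero_le, ?_, ?_⟩
    · rw [← hd, hnn, map_pow, hn1, one_pow]
    · rw [one_pow, mul_one]
      exact hε
  -- the isotropic class
  obtain ⟨α₁, hα⟩ := hTOC.ex (b := b) (-d) 0 (-(3 * t)) hf0
  have hnrmα := hTOC.nrm h2 hrt hα
  have hαV : InV α₁ := by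
    refine ⟨(hTOC.unt h2 hrt hα).2 ⟨neg_ne_zero.2 hd0, ?_⟩, ⟨3 * t * d, ?_⟩⟩
    · have : (0 : K) ^ 2 - dq a t * (-(3 * t)) ^ 2 = -(d * (3 * t) ^ 2) := by rw [← hd]; ring
      rw [this]
      exact neg_ne_zero.2 (mul_ne_zero hd0 (pow_ne_zero 2 (mul_ne_zero h3 ht0)))
    · rw [hnrmα, ← hd]; ring
  refine ⟨α₁, ε, hαV, hεV, hεE, ?_, ?_⟩
  · refine ((hTOI K a b t α₁ _ _ _ h2 hrt hf0 hα).2).2 ⟨3 * t, 0, 1, by simp, ?_⟩
    rw [← hd]; ring
  · intro hiso
    have hmul := hTOC.mul h2 hrt hα hε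
    obtain ⟨r, x, y, hne, heq⟩ := ((hTOI K a b t _ _ _ _ h2 hrt hf0 hmul).2).1 hiso
    obtain ⟨c, r', x', y', hc, rfl, rfl, rfl, hr1, hx1, hy1, hu⟩ := prim hVAL hde r x y hne
    rw [← hd] at heq
    have heq2 : 9 * t ^ 2 * n * x' ^ 2 =
        d * (r' ^ 2 - 9 * t ^ 2 * n * y' ^ 2 - 6 * t * n * (x' * y')) := by
      apply mul_left_cancel₀ (pow_ne_zero 2 hc)
      linear_combination heq
    have ht1 : w t = 1 := hR.ti
    have h9 : w (9 : K) = 1 := by
      have : (9 : K) = 3 * 3 := by norm_num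
      rw [this, map_mul, hw3, one_mul]
    have h6 : w (6 : K) = 1 := by
      have : (6 : K) = 2 * 3 := by norm_num
      rw [this, map_mul, hw3, hw2, one_mul]
    have hint : w (r' ^ 2 - 9 * t ^ 2 * n * y' ^ 2 - 6 * t * n * (x' * y')) ≤ 1 := by
      apply Valuation.map_sub_le
      · apply Valuation.map_sub_le
        · rw [map_pow]; exact pow_le_one' hr1 2
        · rw [map_mul, map_mul, map_mul, map_pow, map_pow, h9, ht1, hn1, one_pow, one_mul, one_mul,
            one_mul]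
          exact pow_le_one' hy1 2
      · rw [map_mul, map_mul, map_mul, h6, ht1, hn1, one_mul, one_mul, one_mul]
        exact mul_le hx1 hy1
    have hxl : w x' < 1 := by
      apply lt_of_sq
      have h := congrArg w heq2
      rw [map_mul, map_mul, map_mul, map_pow w t, h9, ht1, hn1, one_pow, one_mul, one_mul,
        one_mul] at h
      rw [h]
      exact mul_lt hd1 hint
    obtain ⟨x1, rfl⟩ : ∃ x1, x' = d * x1 := ⟨x' / d, by field_simp⟩
    have hx1' : w x1 ≤ 1 := by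
      have h := (hVAL.lt w (d * x1)).1 hxl
      rw [map_mul, hde] at h
      by_contra hcon
      rw [not_le] at hcon
      have h1 : WithZero.exp (-1 : ℤ) * 1 < WithZero.exp (-1 : ℤ) * w x1 :=
        mul_lt_mul_of_pos_left hcon (WithZero.exp_pos)
      rw [mul_one] at h1
      exact absurd h (not_le.2 h1)
    have heq3 : r' ^ 2 - n * (3 * t * y') ^ 2 = d * (n * (9 * t ^ 2 * x1 ^ 2 + 6 * t * (x1 * y'))) := by
      apply mul_left_cancel₀ hd0
      linear_combination -heq2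
    have hlt : w (r' ^ 2 - n * (3 * t * y') ^ 2) < 1 := by
      rw [heq3]
      apply mul_lt hd1
      apply mul_le hn1.le
      apply Valuation.map_add_le
      · rw [map_mul, map_mul, map_pow, map_pow, h9, ht1, one_pow, one_mul, one_mul]
        exact pow_le_one' hx1' 2
      · rw [map_mul, map_mul, h6, ht1, one_mul, one_mul]
        exact mul_le hx1' hy1
    have hyl : w y' < 1 := by
      rcases lt_or_eq_of_le hy1 with h | h
      · exact h
      · exfalso
        have h3t : w (3 * t * y') = 1 := by rw [map_mul, map_mul, hw3, ht1, h, one_mul, one_mul]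
        have h3t0 : 3 * t * y' ≠ 0 := by
          intro h0
          rw [h0, map_zero] at h3t
          exact zero_ne_one h3t
        have h1 := hns (r' / (3 * t * y')) (by rw [map_div₀, h3t, div_one]; exact hr1)
        have h2 : (r' / (3 * t * y')) ^ 2 - n = (r' ^ 2 - n * (3 * t * y') ^ 2) / (3 * t * y') ^ 2 := by
          rw [div_pow, eq_div_iff (pow_ne_zero 2 h3t0), sub_mul,
            div_mul_cancel₀ _ (pow_ne_zero 2 h3t0)]
        rw [h2, map_div₀, map_pow, h3t, one_pow, div_one] at h1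
        exact absurd h1 hlt.ne
    have hrl : w r' < 1 := by
      apply lt_of_sq
      have h1 : r' ^ 2 = (r' ^ 2 - n * (3 * t * y') ^ 2) + n * (3 * t * y') ^ 2 := by ring
      rw [h1]
      apply Valuation.map_add_lt _ hlt
      rw [map_mul, hn1, one_mul, map_pow, map_mul, map_mul, hw3, ht1, one_mul, one_mul]
      exact pow_lt_one₀ zero_le hyl two_ne_zero
    rcases hu with hu | hu | hu
    · exact hrl.ne hu
    · exact hxl.ne hu
    · exact hyl.ne hu

end Pool.Agent.Lib.MP_8cb858_nt.PF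
end

section
/-!
# Module IXF: the index of the Kummer classes at an arbitrary finite place
-/
namespace Pool.Agent.Lib.MP_8cb858_nt.PF

open Polynomial NumberField IsDedekindDomain Pool.Agent.Lib.MP_8cb858_nt.SEL
open scoped Classical WithZero

namespace IXFM

variable {K : Type} [Field K] [CharZero K] {w : Valuation K ℤᵐ⁰} {a b : K}

/-- pairwise different classes modulo the Kummer classes -/
def Fam2 (s : ℕ) (α : Fin s → Lk a b) : Prop :=
  (∀ i, InV (α i)) ∧ ∀ i j, i ≠ j → ¬ Aff 1 (α i * α j)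

omit [CharZero K] in
/-- Enumeration of the roots. -/
theorem roots (a b : K) : ∃ t : Fin (Nat.card {t : K // t ^ 3 + a * t + b = 0}) → K,
    Function.Injective t ∧ ∀ i, t i ^ 3 + a * t i + b = 0 := by
  have hfin : {t : K | t ^ 3 + a * t + b = 0}.Finite := by
    refine (Polynomial.finite_setOfPred_isRoot (fpol_monic a b).ne_zero).subset fun t ht => ?_
    show (fpol a b).eval t = 0
    have h := eval₂_fpol a b (RingHom.id K) t
    rw [← Polynomial.eval] at h
    rw [h]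
    exact ht
  have : Finite {t : K // t ^ 3 + a * t + b = 0} := hfin
  exact ⟨fun i => ((Finite.equivFin _).symm i).1,
    fun i j h => (Finite.equivFin _).symm.injective (Subtype.ext h),
    fun i => ((Finite.equivFin _).symm i).2⟩

/-- there are at most `two w * (1 + r)` of them -/
theorem bound (hAFI : SpecAFI) (hINV : SpecINV) (hKMC : SpecKMC)
    (hVCT : SpecVCT) (hLFB : SpecLFB) (hKML : SpecKML) (hw : IsLF w)
    (ha : w a ≤ 1) (hb : w b ≤ 1) (hd : dsc a b ≠ 0) {s : ℕ}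
    {α : Fin s → Lk a b} (hα : Fam2 s α) :
    s ≤ two w * (1 + Nat.card {t : K // t ^ 3 + a * t + b = 0}) := by
  obtain ⟨t, ht, htr⟩ := roots a b
  obtain ⟨κ', hκ', hκn'⟩ := hKMC K w a b _ t hw ha hb hd ht htr
  set M := two w * (1 + Nat.card {t : K // t ^ 3 + a * t + b = 0}) with hM
  obtain ⟨κ, hκ, hκn⟩ : ∃ κ : Fin M → Lk a b, (∀ i, InV (κ i) ∧ Aff 1 (κ i)) ∧
      ∀ i j, i ≠ j → ¬ IsSquare (κ i * κ j) := by
    refine ⟨fun i => κ' (Fin.cast (by rw [hM, add_comm]) i), fun i => hκ' _,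
      fun i j hij => hκn' _ _ ?_⟩
    intro h
    exact hij (Fin.cast_injective _ h)
  have hinv : ∀ i j, InV (α i * κ j) := fun i j => hINV.mul _ _ (hα.1 i) (hκ j).1
  have key : ∀ (p p' : Fin s × Fin M), p ≠ p' →
      ¬ IsSquare (α p.1 * κ p.2 * (α p'.1 * κ p'.2)) := by
    rintro ⟨i, j⟩ ⟨i', j'⟩ hne hsq
    dsimp only at hsq
    have hsq' : IsSquare (α i * α i' * (κ j * κ j')) := by
      have e : α i * α i' * (κ j * κ j') = α i * κ j * (α i' * κ j') := by ring
      rw [e]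
      exact hsq
    by_cases hi : i = i'
    · subst hi
      have hj : j ≠ j' := fun h => hne (by rw [h])
      apply hκn j j' hj
      obtain ⟨v, hv⟩ := (hα.1 i).1.exists_right_inv
      obtain ⟨δ, hδ⟩ := hsq'
      refine ⟨δ * v, ?_⟩
      calc κ j * κ j' = (α i * v) ^ 2 * (κ j * κ j') := by rw [hv, one_pow, one_mul]
        _ = α i * α i * (κ j * κ j') * (v * v) := by ring
        _ = δ * v * (δ * v) := by rw [hδ]; ring
    · apply hα.2 i i' hi
      obtain ⟨γ, hγ, e⟩ := (hINV.quo (α i * α i') (κ j * κ j')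
        ((hα.1 i).1.mul (hα.1 i').1) ((hκ j).1.1.mul (hκ j').1.1)).1 hsq'
      rw [e]
      refine ((hAFI.inv 1 _ γ hγ).1).2 ?_
      exact hKML K w a b _ _ hw ha hb hd (hκ j).1 (hκ j').1 (hκ j).2 (hκ j').2
  have hn := hVCT K w a b (s * M)
    (fun q => α (finProdFinEquiv.symm q).1 * κ (finProdFinEquiv.symm q).2) hw ha hb hd
    (fun q => hinv _ _)
    (fun q q' hqq' => key _ _ fun h => hqq' (finProdFinEquiv.symm.injective h))
  rw [← hM, sq] at hn
  refine Nat.le_of_mul_le_mul_right hn ?_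
  rw [hM]
  exact Nat.mul_pos (hLFB.two hw).1 (by omega)

end IXFM

open IXFM in
theorem specIXF (hAFI : SpecAFI) (hINV : SpecINV) (hKMC : SpecKMC)
    (hVCT : SpecVCT) (hLFB : SpecLFB) (hKML : SpecKML) :
    SpecIX := by
  intro K _ _ w a b hw ha hb hd
  have hbd : ∀ s (α : Fin s → Lk a b), Fam2 s α →
      s ≤ two w * (1 + Nat.card {t : K // t ^ 3 + a * t + b = 0}) := fun s α hα =>
    bound hAFI hINV hKMC hVCT hLFB hKML hw ha hb hd hα
  have hM0 : 0 < two w * (1 + Nat.card {t : K // t ^ 3 + a * t + b = 0}) :=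
    Nat.mul_pos (hLFB.two hw).1 (by omega)
  have hex : ∃ s, (∃ α : Fin s → Lk a b, Fam2 s α) ∧ ¬ ∃ α : Fin (s + 1) → Lk a b, Fam2 (s + 1) α := by
    by_contra hcon
    push Not at hcon
    have hall : ∀ s, ∃ α : Fin s → Lk a b, Fam2 s α := by
      intro s
      induction s with
      | zero => exact ⟨fun i => i.elim0, fun i => i.elim0, fun i => i.elim0⟩
      | succ s ih => exact hcon s ih
    obtain ⟨α, hα⟩ := hall (two w * (1 + Nat.card {t : K // t ^ 3 + a * t + b = 0}) + 1)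
    have := hbd _ α hα
    omega
  obtain ⟨s, ⟨α, hα⟩, hmax⟩ := hex
  have hs := hbd s α hα
  have hcov : ∀ β : Lk a b, InV β → ∃ i, Aff 1 (β * α i) := by
    intro β hβ
    by_contra hcon
    push Not at hcon
    apply hmax
    refine ⟨Fin.cons β α, ?_, ?_⟩
    · intro i
      refine Fin.cases ?_ (fun j => ?_) i
      · exact hβ
      · exact hα.1 j
    · intro i j
      refine Fin.cases ?_ (fun i' => ?_) i
      · refine Fin.cases ?_ (fun j' => ?_) j
        · intro h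
          exact absurd rfl h
        · intro _
          exact hcon j'
      · refine Fin.cases ?_ (fun j' => ?_) j
        · intro _
          show ¬ Aff 1 (α i' * β)
          rw [mul_comm]
          exact hcon i'
        · intro h
          exact hα.2 i' j' fun e => h (by rw [e])
  refine ⟨fun β => if h : InV β then Fin.castLE hs (hcov β h).choose else ⟨0, hM0⟩, ?_⟩
  intro β β' hβ hβ' hc
  simp only [hβ, hβ', dif_pos] at hc
  have hc' : (hcov β hβ).choose = (hcov β' hβ').choose := Fin.castLE_injective hs hc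
  have e1 := (hcov β hβ).choose_spec
  have e2 := (hcov β' hβ').choose_spec
  rw [← hc'] at e2
  set i := (hcov β hβ).choose
  have h5 := hKML K w a b _ _ hw ha hb hd (hINV.mul _ _ hβ (hα.1 i))
    (hINV.mul _ _ hβ' (hα.1 i)) e1 e2
  have e : β * α i * (β' * α i) = β * β' * α i ^ 2 := by ring
  rw [e] at h5
  exact ((hAFI.inv 1 (β * β') (α i) (hα.1 i).1).1).1 h5

end Pool.Agent.Lib.MP_8cb858_nt.PF
end

section
/-!
# SQF: natural numbers `≡ 1 mod 8` are squares at the places over 2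
-/
set_option autoImplicit false

namespace Pool.Agent.Lib.MP_8cb858_nt.PF

open scoped Classical WithZero

namespace SQFM

/-- natural numbers are integral -/
theorem nat_le {K : Type} [Field K] (w : Valuation K ℤᵐ⁰) (n : ℕ) : w (n : K) ≤ 1 := by
  induction n with
  | zero => simp
  | succ n ih =>
    push_cast
    exact w.map_add_le ih (by rw [map_one])

end SQFM

/-- **SQ2** -/
theorem specSQF (hHNA : SpecHNA) : SpecSQ2 := by
  intro K _ _ w m hw h2 hm
  have e : m = 8 * (m / 8) + 1 := by omega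
  have hz : w (2 * ((m / 8 : ℕ) : K)) < 1 := by
    rw [map_mul]
    exact mul_lt_one_of_lt_of_le h2 (SQFM.nat_le w _)
  obtain ⟨y, -, hy⟩ := hHNA.one (2 * ((m / 8 : ℕ) : K)) hw hz
  refine ⟨1 + 2 * y, ?_⟩
  have h3 : (m : K) = 8 * ((m / 8 : ℕ) : K) + 1 := by exact_mod_cast congrArg (Nat.cast (R := K)) e
  rw [← pow_two, hy, h3]
  ring

end Pool.Agent.Lib.MP_8cb858_nt.PF
end

section
/-!
# KMF: the Kummer classes form a group, at an arbitrary finite place
-/
set_option autoImplicit false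

namespace Pool.Agent.Lib.MP_8cb858_nt.PF

open Polynomial Pool.Agent.Lib.MP_8cb858_nt.SEL
open scoped Classical WithZero

namespace KMFM

variable {K : Type} [Field K] [CharZero K] {w : Valuation K ℤᵐ⁰} {a b : K}

/-- points with trivial class -/
theorem point (hCOO : SpecCOO) (hHNA : SpecHNA) (hw : IsLF w) (ha : w a ≤ 1) (hb : w b ≤ 1) {ζ : K}
    (hζ0 : ζ ≠ 0) (hζ : w ζ ≤ 1) (hη : w (ζ / 2) ≤ WithZero.exp (-1 : ℤ)) :
    ∃ y : K, y ≠ 0 ∧ y ^ 2 = (1 / ζ ^ 2) ^ 3 + a * (1 / ζ ^ 2) + b ∧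
      IsSquare (AdjoinRoot.of (fpol a b) (1 / ζ ^ 2) - th a b) := by
  have h20 : (2 : K) ≠ 0 := two_ne_zero
  have hexp1 : WithZero.exp (-1 : ℤ) < 1 := by
    rw [← WithZero.exp_zero, WithZero.exp_lt_exp]; norm_num
  have hη1 : w (ζ / 2) < 1 := lt_of_le_of_lt hη hexp1
  have hη2 : w ((ζ / 2) ^ 2) ≤ WithZero.exp (-1 : ℤ) := by
    rw [map_pow, pow_two]
    calc w (ζ / 2) * w (ζ / 2) ≤ WithZero.exp (-1 : ℤ) * 1 := mul_le_mul' hη hη1.le
      _ = _ := mul_one _
  have hη2' : w ((ζ / 2) ^ 2) < 1 := lt_of_le_of_lt hη2 hexp1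
  -- the square root of `x ^ 3 + a x + b`
  have hz : w (a * ζ ^ 2 * (ζ / 2) ^ 2 + b * ζ ^ 4 * (ζ / 2) ^ 2) < 1 := by
    refine w.map_add_lt ?_ ?_
    · rw [map_mul]
      refine mul_lt_one_of_nonneg_of_lt_one_right ?_ zero_le hη2'
      rw [map_mul, map_pow]
      exact mul_le_one' ha (pow_le_one₀ zero_le hζ)
    · rw [map_mul]
      refine mul_lt_one_of_nonneg_of_lt_one_right ?_ zero_le hη2'
      rw [map_mul, map_pow]
      exact mul_le_one' hb (pow_le_one₀ zero_le hζ)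
  obtain ⟨y, -, hy⟩ := hHNA.one _ hw hz
  have h4 : w (4 : K) ≤ 1 := by
    have := SQFM.nat_le w 4
    exact_mod_cast this
  have hne : (1 + 2 * y) ≠ 0 := by
    intro h0
    rw [h0] at hy
    have h1 : w (4 * (a * ζ ^ 2 * (ζ / 2) ^ 2 + b * ζ ^ 4 * (ζ / 2) ^ 2)) < 1 := by
      rw [map_mul]
      exact mul_lt_one_of_nonneg_of_lt_one_right h4 zero_le hz
    have h2 : (4 : K) * (a * ζ ^ 2 * (ζ / 2) ^ 2 + b * ζ ^ 4 * (ζ / 2) ^ 2) = -1 := by
      linear_combination -hy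
    rw [h2, Valuation.map_neg, map_one] at h1
    exact lt_irrefl _ h1
  refine ⟨(1 / ζ ^ 3) * (1 + 2 * y), mul_ne_zero (div_ne_zero one_ne_zero (pow_ne_zero _ hζ0)) hne,
    ?_, ?_⟩
  · rw [mul_pow, hy]
    field_simp
    ring
  · -- the class
    have hzz : ∀ i, w (cf i (el a b 0 (-((ζ / 2) ^ 2)) 0)) ≤ WithZero.exp (-((1 : ℕ) : ℤ)) := by
      intro i
      obtain ⟨c0, c1, c2⟩ := hCOO.co (a := a) (b := b) 0 (-((ζ / 2) ^ 2)) 0
      rcases Nat.lt_or_ge i 3 with hi | hi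
      · interval_cases i
        · rw [c0, map_zero]; exact zero_le
        · rw [c1, Valuation.map_neg]
          simpa using hη2
        · rw [c2, map_zero]; exact zero_le
      · rw [hCOO.big i _ hi, map_zero]; exact zero_le
    obtain ⟨Y, -, hY⟩ := hHNA.sq (el a b 0 (-((ζ / 2) ^ 2)) 0) 1 hw ha hb le_rfl hzz
    refine ⟨AdjoinRoot.of (fpol a b) (1 / ζ) * (1 + 2 * Y), ?_⟩
    have e1 : (AdjoinRoot.of (fpol a b) (1 / ζ)) ^ 2 * AdjoinRoot.of (fpol a b) (ζ / 2) ^ 2 * 4 = 1 := by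
      have e2 : ((1 / ζ) ^ 2 * (ζ / 2) ^ 2 * 4 : K) = 1 := by
        field_simp
        norm_num
      have e3 := congrArg (AdjoinRoot.of (fpol a b)) e2
      simpa only [map_mul, map_pow, map_one, map_ofNat] using e3
    have e4 : AdjoinRoot.of (fpol a b) (1 / ζ ^ 2) = AdjoinRoot.of (fpol a b) (1 / ζ) ^ 2 := by
      rw [← map_pow]
      congr 1
      field_simp
    have e5 : el a b 0 (-((ζ / 2) ^ 2)) 0 = -(AdjoinRoot.of (fpol a b) (ζ / 2) ^ 2 * th a b) := by
      unfold el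
      rw [map_zero, map_neg, map_pow]
      ring
    rw [e5] at hY
    rw [e4]
    linear_combination (-(AdjoinRoot.of (fpol a b) (1 / ζ)) ^ 2) * hY + th a b * e1

/-- infinitely many points with trivial class -/
theorem points (hCOO : SpecCOO) (hHNA : SpecHNA) (hw : IsLF w) (ha : w a ≤ 1) (hb : w b ≤ 1) :
    ∃ x y : ℕ → K, Function.Injective x ∧ ∀ i, y i ≠ 0 ∧ y i ^ 2 = x i ^ 3 + a * x i + b ∧
      IsSquare (AdjoinRoot.of (fpol a b) (x i) - th a b) := by
  obtain ⟨ϖ, hϖ⟩ := hw.surj (WithZero.exp (-1 : ℤ))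
  have hϖ0 : ϖ ≠ 0 := by
    rintro rfl
    rw [map_zero] at hϖ
    exact WithZero.exp_ne_zero hϖ.symm
  obtain ⟨n, hn1, hn⟩ := KMCM.exists_e w
  have hpow : ∀ j : ℕ, w (ϖ ^ j) = WithZero.exp (-(j : ℤ)) := by
    intro j
    rw [map_pow, hϖ, ← WithZero.exp_nsmul]
    simp
  have hp : ∀ i : ℕ, ∃ y : K, y ≠ 0 ∧
      y ^ 2 = (1 / (ϖ ^ (n + 1 + i)) ^ 2) ^ 3 + a * (1 / (ϖ ^ (n + 1 + i)) ^ 2) + b ∧
      IsSquare (AdjoinRoot.of (fpol a b) (1 / (ϖ ^ (n + 1 + i)) ^ 2) - th a b) := by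
    intro i
    refine point hCOO hHNA hw ha hb (pow_ne_zero _ hϖ0) ?_ ?_
    · rw [hpow, ← WithZero.exp_zero, WithZero.exp_le_exp]
      omega
    · have h2 : w (2 : K) ≠ 0 := (Valuation.ne_zero_iff w).2 two_ne_zero
      rw [map_div₀, hpow]
      rw [div_le_iff₀ (zero_lt_iff.2 h2)]
      calc WithZero.exp (-((n + 1 + i : ℕ) : ℤ)) ≤ WithZero.exp (-1 : ℤ) * WithZero.exp (-(n : ℤ)) := by
            rw [← WithZero.exp_add, WithZero.exp_le_exp]
            push_cast
            omega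
        _ ≤ WithZero.exp (-1 : ℤ) * w 2 := mul_le_mul_right hn.le _
  choose y h1 h2 h3 using hp
  refine ⟨fun i => 1 / (ϖ ^ (n + 1 + i)) ^ 2, y, ?_, fun i => ⟨h1 i, h2 i, h3 i⟩⟩
  intro i j hij
  have h4 : w ((ϖ ^ (n + 1 + i)) ^ 2) = w ((ϖ ^ (n + 1 + j)) ^ 2) := by
    have h5 : (ϖ ^ (n + 1 + i)) ^ 2 = (ϖ ^ (n + 1 + j)) ^ 2 := by
      have := hij
      simp only [one_div, inv_inj] at this
      exact this
    rw [h5]
  rw [← pow_mul, ← pow_mul, hpow, hpow] at h4
  have h6 := WithZero.exp_injective h4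
  have : (n + 1 + i) * 2 = (n + 1 + j) * 2 := by exact_mod_cast neg_injective h6
  omega

/-- the 2-torsion is finite -/
theorem tors_fin : {T : Pt (curve a b) K | (2 : ℕ) • T = 0}.Finite := by
  let xc : Pt (curve a b) K → Option K := fun P => match P with
    | .zero => none
    | .some x _ _ => some x
  have hinj : Set.InjOn xc {T : Pt (curve a b) K | (2 : ℕ) • T = 0} := by
    intro P hP Q hQ h
    cases P with
    | zero =>
      cases Q with
      | zero => rfl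
      | some x y h' => exact absurd h (by simp [xc])
    | some x y hxy =>
      cases Q with
      | zero => exact absurd h (by simp [xc])
      | some x' y' hxy' =>
        have hx : x = x' := by simpa [xc] using h
        have hy := KMCM.y_of_dbl hxy hP
        have hy' := KMCM.y_of_dbl hxy' hQ
        subst hx hy hy'
        rfl
  refine Set.Finite.of_finite_image ?_ hinj
  refine Set.Finite.subset (Set.Finite.insert none
    ((Set.Finite.image some (Finset.finite_toSet (fpol a b).roots.toFinset)))) ?_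
  rintro _ ⟨P, hP, rfl⟩
  cases P with
  | zero => exact Or.inl rfl
  | some x y hxy =>
    right
    refine ⟨x, ?_, rfl⟩
    have hy := KMCM.y_of_dbl hxy hP
    have he := SUXM.eqn hxy
    have hne : fpol a b ≠ 0 := (fpol_monic a b).ne_zero
    simp only [Finset.mem_coe, Multiset.mem_toFinset]
    rw [Polynomial.mem_roots hne, Polynomial.IsRoot.def, fpol]
    simp only [eval_add, eval_mul, eval_pow, eval_X, eval_C]
    rw [hy] at he
    linear_combination -he

omit [CharZero K] in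
/-- a point which is not 2-torsion has `y ≠ 0` -/
theorem some_of {P : Pt (curve a b) K} (h : (2 : ℕ) • P ≠ 0) :
    ∃ (x y : K) (h' : ((curve a b).baseChange K).toAffine.Nonsingular x y),
      P = WeierstrassCurve.Affine.Point.some x y h' ∧ y ≠ 0 := by
  cases P with
  | zero => exact absurd (smul_zero 2) h
  | some x y h' =>
    exact ⟨x, y, h', rfl, fun hy => h (HALM.dbl_zero h' hy)⟩

end KMFM

open KMFM in
/-- **KML** -/
theorem specKMF (hCOO : SpecCOO) (hNRM : SpecNRM) (hHNA : SpecHNA) (hCLK : SpecCLK) : SpecKML := by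
  intro K _ _ w a b α β hw ha hb hd hα hβ hA hB
  obtain ⟨x₁, y₁, hy₁, e₁, s₁⟩ := hA
  obtain ⟨x₂, y₂, hy₂, e₂, s₂⟩ := hB
  rw [one_mul] at e₁ e₂
  rw [map_one, one_mul] at s₁ s₂
  set P : Pt (curve a b) K := WeierstrassCurve.Affine.Point.some x₁ y₁ (KMCM.nonsing hy₁ e₁) with hP
  set Q : Pt (curve a b) K := WeierstrassCurve.Affine.Point.some x₂ y₂ (KMCM.nonsing hy₂ e₂) with hQ
  obtain ⟨x, y, hinj, hxy⟩ := points (a := a) (b := b) hCOO hHNA hw ha hb
  set R : ℕ → Pt (curve a b) K := fun i => WeierstrassCurve.Affine.Point.some (x i) (y i)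
    (KMCM.nonsing (hxy i).1 (hxy i).2.1) with hR
  have hRinj : Function.Injective R := by
    intro i j hij
    simp only [hR, WeierstrassCurve.Affine.Point.some.injEq] at hij
    exact hinj hij.1
  have hfin : ((fun T => T - P) '' {T : Pt (curve a b) K | (2 : ℕ) • T = 0} ∪
      (fun T => T - P - Q) '' {T : Pt (curve a b) K | (2 : ℕ) • T = 0}).Finite :=
    (tors_fin.image _).union (tors_fin.image _)
  obtain ⟨_, ⟨i, rfl⟩, hi⟩ := (Set.infinite_range_of_injective hRinj).exists_notMem_finite hfin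
  have n1 : (2 : ℕ) • (P + R i) ≠ 0 := by
    intro h
    exact hi (Or.inl ⟨P + R i, h, show P + R i - P = R i by abel⟩)
  have n2 : (2 : ℕ) • (P + R i + Q) ≠ 0 := by
    intro h
    exact hi (Or.inr ⟨P + R i + Q, h, show P + R i + Q - P - Q = R i by abel⟩)
  obtain ⟨x₃, y₃, h₃, hS₁, hy₃⟩ := some_of n1
  obtain ⟨x₄, y₄, h₄, hS₂, hy₄⟩ := some_of n2
  have c1 := hCLK K a b hd x₁ y₁ (x i) (y i) x₃ y₃ _ _ h₃ hy₁ (hxy i).1 hS₁
  rw [hS₁] at hS₂
  have c2 := hCLK K a b hd x₃ y₃ x₂ y₂ x₄ y₄ h₃ _ h₄ hy₃ hy₂ hS₂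
  have e₃ := SUXM.eqn h₃
  have e₄ := SUXM.eqn h₄
  have hu : ∀ x y : K, y ≠ 0 → y ^ 2 = x ^ 3 + a * x + b →
      IsUnit (AdjoinRoot.of (fpol a b) x - th a b) := by
    intro x y hy he
    have := AFMM.unitB (a := a) (b := b) hNRM one_ne_zero (x := x) (by
      rw [← he]; exact pow_ne_zero 2 hy)
    rwa [map_one, one_mul] at this
  refine ⟨x₄, y₄, hy₄, by rw [one_mul]; exact e₄, ?_⟩
  rw [map_one, one_mul]
  refine AFMM.sqdiv (((hu x₁ y₁ hy₁ e₁).mul (hu x₂ y₂ hy₂ e₂)).mul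
    ((hu _ _ (hxy i).1 (hxy i).2.1).mul (hu x₃ y₃ hy₃ e₃))) ?_
  have := (((s₁.mul s₂).mul (hxy i).2.2).mul c1).mul c2
  refine (congrArg IsSquare ?_).mp this
  ring

end Pool.Agent.Lib.MP_8cb858_nt.PF
end

section
/-!
# SQL: natural numbers `≡ 1 mod 8k` are squares at the places dividing `k`
-/
set_option autoImplicit false

namespace Pool.Agent.Lib.MP_8cb858_nt.PF

open scoped Classical WithZero

/-- **SQK** -/
theorem specSQL (hHNA : SpecHNA) : SpecSQK := by
  intro K _ _ w k m hw hk hm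
  have e : m = 8 * k * (m / (8 * k)) + 1 := by
    have := Nat.div_add_mod m (8 * k)
    omega
  have hz : w (2 * ((m / (8 * k) : ℕ) : K) * (k : K)) < 1 := by
    rw [map_mul]
    refine mul_lt_one_of_nonneg_of_lt_one_right ?_ zero_le hk
    have h1 := SQFM.nat_le w (2 * (m / (8 * k)))
    push_cast at h1
    exact h1
  obtain ⟨y, -, hy⟩ := hHNA.one (2 * ((m / (8 * k) : ℕ) : K) * (k : K)) hw hz
  refine ⟨1 + 2 * y, ?_⟩
  have h3 : (m : K) = 8 * (k : K) * ((m / (8 * k) : ℕ) : K) + 1 := by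
    exact_mod_cast congrArg (Nat.cast (R := K)) e
  rw [← pow_two, hy, h3]
  ring

end Pool.Agent.Lib.MP_8cb858_nt.PF
end
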