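import Pool.Agent.Lib.MP_8cb858_nt.PT.PLQ

/-!
# TWD: reduction to `D = 1` (port of `PR/TWD.lean`)
-/

set_option autoImplicit false

namespace Pool.Agent.Lib.MP_8cb858_nt.PF

open Polynomial
open scoped Classical WithZero

namespace TWDM

open CLNM

section ring

variable {R : Type} [CommRing R] (a b D : R)

/-- `θ ↦ d θ'` where `D d = 1` -/
noncomputable def k1 (d : R) (hd : D * d = 1) :
    Lk a b →ₐ[R] Lk (a * D ^ 2) (b * D ^ 3) :=
  AdjoinRoot.liftAlgHom (fpol a b) (Algebra.ofId R _)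
    (AdjoinRoot.of _ d * th (a * D ^ 2) (b * D ^ 3)) (by
      rw [eval₂_fpol]
      have h := th_eq (a * D ^ 2) (b * D ^ 3)
      have h2 := congrArg (AdjoinRoot.of (fpol (a * D ^ 2) (b * D ^ 3))) hd
      rw [map_mul, map_one] at h2
      rw [map_mul, map_mul, map_pow, map_pow] at h
      have ea : (Algebra.ofId R (Lk (a * D ^ 2) (b * D ^ 3)) : R →+* _) a =
        AdjoinRoot.of (fpol (a * D ^ 2) (b * D ^ 3)) a := rfl
      have eb : (Algebra.ofId R (Lk (a * D ^ 2) (b * D ^ 3)) : R →+* _) b =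
        AdjoinRoot.of (fpol (a * D ^ 2) (b * D ^ 3)) b := rfl
      rw [ea, eb]
      generalize th (a * D ^ 2) (b * D ^ 3) = t at *
      generalize AdjoinRoot.of (fpol (a * D ^ 2) (b * D ^ 3)) d = e at *
      generalize AdjoinRoot.of (fpol (a * D ^ 2) (b * D ^ 3)) a = a' at *
      generalize AdjoinRoot.of (fpol (a * D ^ 2) (b * D ^ 3)) b = b' at *
      generalize AdjoinRoot.of (fpol (a * D ^ 2) (b * D ^ 3)) D = c at *
      linear_combination e ^ 3 * h - (a' * e * t * (c * e + 1) + b' * (c ^ 2 * e ^ 2 + c * e + 1)) * h2)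

/-- `θ' ↦ D θ` -/
noncomputable def k2 : Lk (a * D ^ 2) (b * D ^ 3) →ₐ[R] Lk a b :=
  AdjoinRoot.liftAlgHom (fpol (a * D ^ 2) (b * D ^ 3)) (Algebra.ofId R _)
    (AdjoinRoot.of _ D * th a b) (by
      rw [eval₂_fpol]
      have h := th_eq a b
      have e : ∀ x : R, (Algebra.ofId R (Lk a b) : R →+* _) x = AdjoinRoot.of (fpol a b) x :=
        fun _ => rfl
      rw [e, e, map_mul, map_mul, map_pow, map_pow]
      linear_combination AdjoinRoot.of (fpol a b) D ^ 3 * h)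

theorem k1_th (d : R) (hd : D * d = 1) :
    k1 a b D d hd (AdjoinRoot.root _) = AdjoinRoot.of _ d * AdjoinRoot.root _ := by
  rw [k1, AdjoinRoot.liftAlgHom_root]
  rfl

theorem k2_th : k2 a b D (AdjoinRoot.root _) = AdjoinRoot.of _ D * AdjoinRoot.root _ := by
  rw [k2, AdjoinRoot.liftAlgHom_root]
  rfl

/-- the isomorphism -/
noncomputable def kap (d : R) (hd : D * d = 1) :
    Lk a b ≃ₐ[R] Lk (a * D ^ 2) (b * D ^ 3) :=
  AlgEquiv.ofAlgHom (k1 a b D d hd) (k2 a b D)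
    (by
      apply AdjoinRoot.algHom_ext
      show k1 a b D d hd (k2 a b D (AdjoinRoot.root _)) = AdjoinRoot.root _
      rw [k2_th, map_mul, ← AdjoinRoot.algebraMap_eq, AlgHom.commutes, k1_th,
        AdjoinRoot.algebraMap_eq, ← mul_assoc, ← map_mul, hd, map_one, one_mul])
    (by
      apply AdjoinRoot.algHom_ext
      show k2 a b D (k1 a b D d hd (AdjoinRoot.root _)) = AdjoinRoot.root _
      rw [k1_th, map_mul, ← AdjoinRoot.algebraMap_eq, AlgHom.commutes, k2_th,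
        AdjoinRoot.algebraMap_eq, ← mul_assoc, ← map_mul, mul_comm d, hd, map_one, one_mul])

theorem kap_of (d : R) (hd : D * d = 1) (x : R) :
    kap a b D d hd (AdjoinRoot.of _ x) = AdjoinRoot.of _ x := by
  rw [← AdjoinRoot.algebraMap_eq, AlgEquiv.commutes, AdjoinRoot.algebraMap_eq]

theorem kap_th (d : R) (hd : D * d = 1) :
    kap a b D d hd (th a b) = AdjoinRoot.of _ d * th (a * D ^ 2) (b * D ^ 3) := by
  show k1 a b D d hd (AdjoinRoot.root _) = _
  rw [k1, AdjoinRoot.liftAlgHom_root]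

theorem kap_square (d : R) (hd : D * d = 1) (α : Lk a b) :
    IsSquare (kap a b D d hd α) ↔ IsSquare α := by
  constructor
  · rintro ⟨β, hβ⟩
    refine ⟨(kap a b D d hd).symm β, ?_⟩
    rw [← map_mul, ← hβ, AlgEquiv.symm_apply_apply]
  · rintro ⟨β, rfl⟩
    exact ⟨kap a b D d hd β, map_mul _ _ _⟩

theorem kap_unit (d : R) (hd : D * d = 1) (α : Lk a b) :
    IsUnit (kap a b D d hd α) ↔ IsUnit α :=
  MulEquiv.isUnit_map (kap a b D d hd)

theorem kap_inv (d : R) (hd : D * d = 1) (α : Lk a b) :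
    InV (kap a b D d hd α) ↔ InV α := by
  unfold InV
  rw [kap_unit, Algebra.norm_eq_of_algEquiv]

theorem kap_el (d : R) (hd : D * d = 1) (x y z : R) :
    kap a b D d hd (el a b x y z) = el (a * D ^ 2) (b * D ^ 3) x (y * d) (z * d ^ 2) := by
  unfold el
  rw [map_add, map_add, map_mul, map_mul, map_pow, kap_of, kap_of, kap_of, kap_th, map_mul,
    map_mul, map_pow]
  ring

end ring

theorem kap_aff {K : Type} [Field K] (a b D : K) (hD : D ≠ 0)
    (hd : D * D⁻¹ = 1) (α : Lk a b) :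
    Aff 1 (kap a b D D⁻¹ hd α) ↔ Aff D α := by
  have key : ∀ x : K, kap a b D D⁻¹ hd (AdjoinRoot.of _ D *
      (AdjoinRoot.of _ x - th a b)) = AdjoinRoot.of _ (1 : K) *
      (AdjoinRoot.of _ (D * x) - th (a * D ^ 2) (b * D ^ 3)) := by
    intro x
    rw [map_mul, kap_of, map_sub, kap_of, kap_th, mul_sub, ← mul_assoc, ← map_mul, ← map_mul, hd]
    simp
  constructor
  · rintro ⟨x, y, hy, hxy, hs⟩
    refine ⟨D⁻¹ * x, D⁻¹ * y, mul_ne_zero (inv_ne_zero hD) hy, ?_, ?_⟩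
    · rw [mul_pow, hxy]
      field_simp
    · rw [← kap_square a b D _ hd, map_mul, key, ← mul_assoc D, hd, one_mul]
      exact hs
  · rintro ⟨x, y, hy, hxy, hs⟩
    refine ⟨D * x, D * y, mul_ne_zero hD hy, ?_, ?_⟩
    · rw [mul_pow, hxy]
      ring
    · rw [← key, ← map_mul]
      exact (kap_square a b D _ hd _).2 hs

theorem kap_itg (hCOO : SpecCOO) {K : Type} [Field K] (w : Valuation K ℤᵐ⁰) (a b D : K)
    (hd : D * D⁻¹ = 1) (hw : w D = 1) (α : Lk a b) :
    Itg w (kap a b D D⁻¹ hd α) ↔ Itg w α := by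
  have e : kap a b D D⁻¹ hd α = el (a * D ^ 2) (b * D ^ 3) (cf 0 α) (cf 1 α * D⁻¹)
      (cf 2 α * D⁻¹ ^ 2) := by
    conv_lhs => rw [hCOO.ext α]
    exact kap_el a b D _ hd _ _ _
  obtain ⟨c0, c1, c2⟩ := hCOO.co (a := a * D ^ 2) (b := b * D ^ 3) (cf 0 α) (cf 1 α * D⁻¹)
      (cf 2 α * D⁻¹ ^ 2)
  rw [← e] at c0 c1 c2
  have hi : w D⁻¹ = 1 := by rw [map_inv₀, hw, inv_one]
  have key : ∀ i : ℕ, w (cf i (kap a b D D⁻¹ hd α)) = w (cf i α) := by
    intro i
    rcases Nat.lt_or_ge i 3 with h | h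
    · interval_cases i
      · rw [c0]
      · rw [c1, map_mul, hi, mul_one]
      · rw [c2, map_mul, map_pow, hi, one_pow, mul_one]
    · rw [hCOO.big i _ h, hCOO.big i _ h]
  unfold Itg
  simp only [key]

theorem kap_ev (hCOO : SpecCOO) {K : Type} [Field K] (w : Valuation K ℤᵐ⁰) (a b D : K)
    (hd : D * D⁻¹ = 1) (hw : w D = 1) (α : Lk a b) :
    Ev w (kap a b D D⁻¹ hd α) ↔ Ev w α := by
  constructor
  · rintro ⟨g, h, h', hg, hh, hh', h1, hgh⟩
    refine ⟨(kap a b D _ hd).symm g, (kap a b D _ hd).symm h, (kap a b D _ hd).symm h',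
      ?_, ?_, ?_, ?_, ?_⟩
    · rw [← kap_unit a b D _ hd, AlgEquiv.apply_symm_apply]
      exact hg
    · rw [← kap_itg hCOO w a b D hd hw, AlgEquiv.apply_symm_apply]
      exact hh
    · rw [← kap_itg hCOO w a b D hd hw, AlgEquiv.apply_symm_apply]
      exact hh'
    · rw [← map_mul, h1, map_one]
    · apply (kap a b D _ hd).injective
      rw [map_mul, map_pow, AlgEquiv.apply_symm_apply, hgh, AlgEquiv.apply_symm_apply]
  · rintro ⟨g, h, h', hg, hh, hh', h1, hgh⟩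
    refine ⟨kap a b D _ hd g, kap a b D _ hd h, kap a b D _ hd h', ?_, ?_, ?_, ?_, ?_⟩
    · rw [kap_unit]
      exact hg
    · rw [kap_itg hCOO w a b D hd hw]
      exact hh
    · rw [kap_itg hCOO w a b D hd hw]
      exact hh'
    · rw [← map_mul, h1, map_one]
    · rw [← map_pow, ← map_mul, hgh]

end TWDM

open TWDM in
/-- **TWD** -/
theorem specTWD (hCOO : SpecCOO) : SpecTWD := by
  refine ⟨?_, ?_⟩
  · intro K _ a b D hD
    have hd : D * D⁻¹ = 1 := mul_inv_cancel₀ hD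
    exact ⟨(kap a b D _ hd).toRingEquiv, kap_inv a b D _ hd, kap_aff a b D hD hd,
      kap_square a b D _ hd,
      fun w hw α => ⟨kap_itg hCOO w a b D hd hw α, kap_ev hCOO w a b D hd hw α⟩⟩
  · intro R _ a b D
    unfold dsc
    ring

end Pool.Agent.Lib.MP_8cb858_nt.PF
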