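import Pool.Agent.Lib.MP_8cb858_nt.PF.SpecDN
import Pool.Agent.Lib.MP_8cb858_nt.PF.SpecB
import Pool.Agent.Lib.MP_8cb858_nt.PF.SpecA

section
/-!
# DNQ: the number of pairs over a finite field with nonsquare discriminant
-/
namespace Pool.Agent.Lib.MP_8cb858_nt.PF

open scoped Classical

namespace DNQM

theorem ns_card (k : Type) [Field k] [Fintype k] (h2 : ringChar k ≠ 2) :
    1 + 2 * {v : k | ¬ IsSquare v}.ncard = Fintype.card k := by
  have h0 : ∑ a : k, (quadraticChar k a : ℤ) = 0 := quadraticChar_sum_zero h2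
  have h1 : ∑ a : k, (1 - (quadraticChar k a : ℤ)) = Fintype.card k := by
    rw [Finset.sum_sub_distrib, h0]
    simp
  have h3 : ∀ a : k, (1 - (quadraticChar k a : ℤ)) =
      (if a = 0 then 1 else 0) + 2 * (if ¬ IsSquare a then 1 else 0) := by
    intro a
    rw [quadraticChar_apply, quadraticCharFun]
    by_cases ha : a = 0
    · subst ha
      simp
    · by_cases hs : IsSquare a
      · simp [ha, hs]
      · simp [ha, hs]
  rw [Finset.sum_congr rfl (fun a _ => h3 a), Finset.sum_add_distrib, ← Finset.mul_sum] at h1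
  simp only [Finset.sum_ite_eq', Finset.mem_univ, if_true, Finset.sum_boole] at h1
  rw [Set.ncard_eq_toFinset_card']
  have h4 : ({v : k | ¬ IsSquare v} : Set k).toFinset =
      Finset.univ.filter (fun v : k => ¬ IsSquare v) := by
    ext v; simp
  rw [h4]
  exact_mod_cast h1

theorem id1 {k : Type} [Field k] (t a b : k) (hb : t ^ 3 + a * t + b = 0) :
    -(4 * a ^ 3 + 27 * b ^ 2) = (3 * t ^ 2 + a) ^ 2 * (-(3 * t ^ 2 + 4 * a)) := by
  have : b = -t ^ 3 - a * t := by linear_combination hb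
  rw [this]; ring

theorem sq_of {k : Type} [Field k] {c v : k} (hc : c ≠ 0) (h : IsSquare (c ^ 2 * v)) :
    IsSquare v := by
  obtain ⟨r, hr⟩ := h
  refine ⟨r / c, ?_⟩
  field_simp
  linear_combination hr

end DNQM

theorem specDNQ (hSTF : SpecSTF) : SpecDNQ := by
  intro k _ _ h2 h3
  haveI := Fintype.ofFinite k
  have h4 : (4 : k) ≠ 0 := by
    have : (4 : k) = 2 * 2 := by norm_num
    rw [this]
    exact mul_ne_zero h2 h2
  have hchar : ringChar k ≠ 2 := by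
    intro h
    apply h2
    have := ringChar.Nat.cast_ringChar (R := k)
    rw [h] at this
    exact_mod_cast this
  set f : k × k → k × k := fun x =>
    (-(x.2 + 3 * x.1 ^ 2) / 4, -x.1 ^ 3 - (-(x.2 + 3 * x.1 ^ 2) / 4) * x.1) with hf
  have hroot : ∀ x : k × k, x.1 ^ 3 + (f x).1 * x.1 + (f x).2 = 0 := by
    intro x; simp only [hf]; ring
  have hv : ∀ x : k × k, -(3 * x.1 ^ 2 + 4 * (f x).1) = x.2 := by
    intro x; simp only [hf]; field_simp; ring
  have hmem : ∀ x : k × k, ¬ IsSquare x.2 →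
      ¬ IsSquare (-(4 * (f x).1 ^ 3 + 27 * (f x).2 ^ 2)) := by
    intro x hx h
    rw [DNQM.id1 x.1 _ _ (hroot x), hv x] at h
    refine hx (DNQM.sq_of ?_ h)
    intro h0
    refine hx ⟨3 * x.1, ?_⟩
    have h1 := hv x
    linear_combination (-4) * h0 - h1
  have himg : {q : k × k | ¬ IsSquare (-(4 * q.1 ^ 3 + 27 * q.2 ^ 2))} =
      f '' (Set.univ ×ˢ {v : k | ¬ IsSquare v}) := by
    ext q
    constructor
    · intro hq
      obtain ⟨t, ht⟩ := hSTF k q.1 q.2 hq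
      refine ⟨(t, -(3 * t ^ 2 + 4 * q.1)), ⟨Set.mem_univ _, ?_⟩, ?_⟩
      · intro hs
        refine hq ?_
        rw [DNQM.id1 t _ _ ht]
        exact (IsSquare.sq _).mul hs
      · have ha : -(-(3 * t ^ 2 + 4 * q.1) + 3 * t ^ 2) / 4 = q.1 := by
          field_simp; ring
        apply Prod.ext
        · simp only [hf]; exact ha
        · simp only [hf]; rw [ha]; linear_combination -ht
    · rintro ⟨x, ⟨-, hx⟩, rfl⟩
      exact hmem x hx
  have hinj : Set.InjOn f (Set.univ ×ˢ {v : k | ¬ IsSquare v}) := by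
    rintro x ⟨-, hx⟩ y ⟨-, hy⟩ hxy
    have e1 := hroot x
    have e2 := hroot y
    rw [← hxy] at e2
    have ht : x.1 = y.1 := by
      by_contra hne
      have e3 : x.1 ^ 2 + x.1 * y.1 + y.1 ^ 2 + (f x).1 = 0 := by
        have : (x.1 - y.1) * (x.1 ^ 2 + x.1 * y.1 + y.1 ^ 2 + (f x).1) = 0 := by
          linear_combination e1 - e2
        exact (mul_eq_zero.1 this).resolve_left (sub_ne_zero.2 hne)
      apply hx
      show IsSquare x.2
      rw [← hv x]
      exact ⟨2 * y.1 + x.1, by linear_combination (-4) * e3⟩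
    apply Prod.ext ht
    rw [← hv x, ← hv y, hxy, ht]
  rw [himg, Set.ncard_image_of_injOn hinj, Set.ncard_prod, Set.ncard_univ]
  have h1 := DNQM.ns_card k hchar
  rw [← Nat.card_eq_fintype_card] at h1
  have h5 : 2 * {v : k | ¬ IsSquare v}.ncard = Nat.card k - 1 := by omega
  calc 2 * (Nat.card k * {v : k | ¬ IsSquare v}.ncard)
      = Nat.card k * (2 * {v : k | ¬ IsSquare v}.ncard) := by ring
    _ = Nat.card k * (Nat.card k - 1) := by rw [h5]

end Pool.Agent.Lib.MP_8cb858_nt.PF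
end

section
namespace Pool.Agent.Lib.MP_8cb858_nt.PF

open Polynomial NumberField IsDedekindDomain Pool.Agent.Lib.MP_8cb858_nt.SEL
open scoped Classical WithZero

namespace ITCM

variable {K : Type} [Field K] {w : Valuation K ℤᵐ⁰}

theorem two_ne (h2 : w 2 = 1) : (2 : K) ≠ 0 := by
  intro h
  rw [h, map_zero] at h2
  exact zero_ne_one h2

theorem ne_of_one {x : K} (h : w x = 1) : x ≠ 0 := by
  rintro rfl
  rw [map_zero] at h
  exact zero_ne_one h

theorem add_le {x y : K} (hx : w x ≤ 1) (hy : w y ≤ 1) : w (x + y) ≤ 1 := w.map_add_le hx hy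

theorem sub_le {x y : K} (hx : w x ≤ 1) (hy : w y ≤ 1) : w (x - y) ≤ 1 := w.map_sub_le hx hy

theorem mul_le {x y : K} (hx : w x ≤ 1) (hy : w y ≤ 1) : w (x * y) ≤ 1 := by
  rw [map_mul]
  exact mul_le_one' hx hy

theorem pow_le {x : K} (hx : w x ≤ 1) (n : ℕ) : w (x ^ n) ≤ 1 := by
  rw [map_pow]
  exact pow_le_one' hx n

theorem nat_le (n : ℕ) : w (n : K) ≤ 1 := by
  induction n with
  | zero => simp
  | succ n ih =>
    rw [Nat.cast_succ]
    exact add_le ih (map_one w).le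

theorem three_le : w (3 : K) ≤ 1 := by
  have := nat_le (w := w) 3
  exact_mod_cast this

theorem four_le : w (4 : K) ≤ 1 := by
  have := nat_le (w := w) 4
  exact_mod_cast this

theorem dq_le {a t : K} (ha : w a ≤ 1) (ht : w t ≤ 1) : w (dq a t) ≤ 1 := by
  have h1 : dq a t = 0 - (3 * t ^ 2 + 4 * a) := by
    simp only [dq]
    ring
  rw [h1]
  exact sub_le (by simp) (add_le (mul_le three_le (pow_le ht 2)) (mul_le four_le ha))

end ITCM

open ITCM

theorem specITC (hCOO : SpecCOO) (hTOC : SpecTOC) : SpecITC := by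
  intro K _ w a b t α r z s h2 ha ht hf hco
  have h20 : (2 : K) ≠ 0 := two_ne h2
  obtain ⟨e1, e2, e3⟩ := id hco
  constructor
  · intro h
    have c0 := h 0
    have c1 := h 1
    have c2 := h 2
    refine ⟨?_, ?_, ?_⟩
    · rw [← e1]
      exact add_le (add_le c0 (mul_le c1 ht)) (mul_le c2 (pow_le ht 2))
    · have : w (2 * z) ≤ 1 := by
        rw [← e2]
        exact sub_le (sub_le (mul_le h2.le c0) (mul_le c1 ht))
          (mul_le c2 (add_le (pow_le ht 2) (mul_le h2.le ha)))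
      rwa [map_mul, h2, one_mul] at this
    · have : w (2 * s) ≤ 1 := by
        rw [← e3]
        exact sub_le c1 (mul_le c2 ht)
      rwa [map_mul, h2, one_mul] at this
  · rintro ⟨hr, hz, hs⟩
    have c2 : w (cf 2 α) ≤ 1 := by
      have h := congrArg w (hTOC.lam h20 hco)
      rw [map_mul, hf, one_mul] at h
      rw [h]
      exact sub_le (sub_le hr hz) (mul_le (mul_le three_le ht) hs)
    have c1 : w (cf 1 α) ≤ 1 := by
      have : cf 1 α = 2 * s + cf 2 α * t := by linear_combination e3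
      rw [this]
      exact add_le (mul_le h2.le hs) (mul_le c2 ht)
    have c0 : w (cf 0 α) ≤ 1 := by
      have : cf 0 α = r - cf 1 α * t - cf 2 α * t ^ 2 := by linear_combination e1
      rw [this]
      exact sub_le (sub_le hr (mul_le c1 ht)) (mul_le c2 (pow_le ht 2))
    intro i
    rcases i with _ | _ | _ | i
    · exact c0
    · exact c1
    · exact c2
    · rw [hCOO.big _ _ (by omega), map_zero]
      exact zero_le

end Pool.Agent.Lib.MP_8cb858_nt.PF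
end

section
namespace Pool.Agent.Lib.MP_8cb858_nt.PF

open Polynomial NumberField IsDedekindDomain Pool.Agent.Lib.MP_8cb858_nt.SEL
open scoped Classical WithZero

open ITCM

namespace EVCM

variable {K : Type} [Field K] {w : Valuation K ℤᵐ⁰}

theorem unit_of_mul {x y : K} (hx : w x ≤ 1) (hy : w y ≤ 1) (h : x * y = 1) : w x = 1 := by
  have h1 : w x * w y = 1 := by rw [← map_mul, h, map_one]
  refine le_antisymm hx ?_
  calc (1 : ℤᵐ⁰) = w x * w y := h1.symm
    _ ≤ w x * 1 := mul_le_mul_right hy _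
    _ = w x := mul_one _

end EVCM

open EVCM

theorem specEVC (hTOC : SpecTOC) (hITC : SpecITC) : SpecEVC := by
  intro K _ w a b t α h2 ha ht hrt hf
  have h20 : (2 : K) ≠ 0 := two_ne h2
  have hf0 : 3 * t ^ 2 + a ≠ 0 := ne_of_one hf
  have hd : w (dq a t) ≤ 1 := dq_le ha ht
  constructor
  · rintro ⟨g, h, h', hg, hh, hh', hhh, e⟩
    obtain ⟨r, z, s, hco⟩ := hTOC.all t h h20
    obtain ⟨r', z', s', hco'⟩ := hTOC.all t h' h20
    obtain ⟨i1, i2, i3⟩ := (hITC K w a b t h r z s h2 ha ht hf hco).1 hh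
    obtain ⟨j1, j2, j3⟩ := (hITC K w a b t h' r' z' s' h2 ha ht hf hco').1 hh'
    have hm := hTOC.mul h20 hrt hco hco'
    rw [hhh] at hm
    obtain ⟨m1, m2, m3⟩ := hTOC.uni h20 hm (hTOC.one t)
    refine ⟨g, r, z, s, hg, unit_of_mul i1 j1 m1, i2, i3, ?_, by rw [e]; exact hco⟩
    refine unit_of_mul (y := z' ^ 2 - dq a t * s' ^ 2)
      (sub_le (pow_le i2 2) (mul_le hd (pow_le i3 2)))
      (sub_le (pow_le j2 2) (mul_le hd (pow_le j3 2))) ?_
    have : (z ^ 2 - dq a t * s ^ 2) * (z' ^ 2 - dq a t * s' ^ 2) =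
        (z * z' + dq a t * (s * s')) ^ 2 - dq a t * (z * s' + s * z') ^ 2 := by ring
    rw [this, m2, m3]
    ring
  · rintro ⟨γ, r, z, s, hγ, hr, hz, hs, hn, hco⟩
    set n := z ^ 2 - dq a t * s ^ 2 with hndef
    have hr0 := ne_of_one hr
    have hn0 := ne_of_one hn
    obtain ⟨h', hco'⟩ := hTOC.ex (b := b) (1 / r) (z / n) (-s / n) hf0
    refine ⟨γ, α * γ ^ 2, h', hγ, (hITC K w a b t _ r z s h2 ha ht hf hco).2 ⟨hr.le, hz, hs⟩,
      (hITC K w a b t _ _ _ _ h2 ha ht hf hco').2 ⟨?_, ?_, ?_⟩, ?_, rfl⟩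
    · rw [map_div₀, hr, map_one, div_one]
    · rw [map_div₀, hn, div_one]
      exact hz
    · rw [map_div₀, hn, div_one, Valuation.map_neg]
      exact hs
    · have hm := hTOC.mul h20 hrt hco hco'
      have e1 : r * (1 / r) = 1 := by field_simp
      have e2 : z * (z / n) + dq a t * (s * (-s / n)) = 1 := by
        field_simp
        rw [hndef]
        ring
      have e3 : z * (-s / n) + s * (z / n) = 0 := by ring
      rw [e1, e2, e3] at hm
      exact hTOC.inj h20 hf0 hm (hTOC.one t)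

end Pool.Agent.Lib.MP_8cb858_nt.PF
end

section
/-!
# EVF: formal properties of `Ev w`
-/
set_option autoImplicit false

namespace Pool.Agent.Lib.MP_8cb858_nt.PF

open Polynomial
open scoped WithZero

namespace EVFM

variable {K : Type} [Field K] {w : Valuation K ℤᵐ⁰} {a b : K}

/-- integrality of an element given by its coordinates -/
theorem itg_el (hCOO : SpecCOO) {x y z : K} (hx : w x ≤ 1) (hy : w y ≤ 1) (hz : w z ≤ 1) :
    Itg w (el a b x y z) := by
  intro i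
  obtain ⟨c0, c1, c2⟩ := hCOO.co (a := a) (b := b) x y z
  match i with
  | 0 => rw [c0]; exact hx
  | 1 => rw [c1]; exact hy
  | 2 => rw [c2]; exact hz
  | i + 3 => rw [hCOO.big (i + 3) _ (by omega), map_zero]; exact zero_le

theorem mul_le {x y : K} (hx : w x ≤ 1) (hy : w y ≤ 1) : w (x * y) ≤ 1 := by
  rw [map_mul]; exact mul_le_one' hx hy

/-- integral elements are closed under products -/
theorem itg_mul (hCOO : SpecCOO) (ha : w a ≤ 1) (hb : w b ≤ 1) {g h : Lk a b} (hg : Itg w g)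
    (hh : Itg w h) : Itg w (g * h) := by
  rw [hCOO.ext g, hCOO.ext h, hCOO.mul]
  have hadd : ∀ {x y : K}, w x ≤ 1 → w y ≤ 1 → w (x + y) ≤ 1 := fun h1 h2 => w.map_add_le h1 h2
  have hsub : ∀ {x y : K}, w x ≤ 1 → w y ≤ 1 → w (x - y) ≤ 1 := fun h1 h2 => w.map_sub_le h1 h2
  have g0 := hg 0
  have g1 := hg 1
  have g2 := hg 2
  have h0 := hh 0
  have h1 := hh 1
  have h2 := hh 2
  refine itg_el hCOO ?_ ?_ ?_
  · exact hsub (mul_le g0 h0) (mul_le hb (hadd (mul_le g1 h2) (mul_le g2 h1)))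
  · exact hsub (hsub (hadd (mul_le g0 h1) (mul_le g1 h0))
      (mul_le ha (hadd (mul_le g1 h2) (mul_le g2 h1)))) (mul_le hb (mul_le g2 h2))
  · exact hsub (hadd (hadd (mul_le g0 h2) (mul_le g1 h1)) (mul_le g2 h0)) (mul_le ha (mul_le g2 h2))

/-- `1` is integral -/
theorem itg_one (hCOO : SpecCOO) : Itg w (1 : Lk a b) := by
  rw [hCOO.one]
  exact itg_el hCOO (by rw [map_one]) (by rw [map_zero]; exact zero_le)
    (by rw [map_zero]; exact zero_le)

end EVFM

open EVFM in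
theorem specEVF (hCOO : SpecCOO) : SpecEVF := by
  intro K _ w a b α β ha hb
  refine ⟨?_, ?_, ?_⟩
  · rintro ⟨g, h, h', hg, i1, i2, i3, e⟩ ⟨g₂, h₂, h₂', hg₂, j1, j2, j3, e₂⟩
    refine ⟨g * g₂, h * h₂, h' * h₂', hg.mul hg₂, itg_mul hCOO ha hb i1 j1,
      itg_mul hCOO ha hb i2 j2, ?_, ?_⟩
    · calc h * h₂ * (h' * h₂') = (h * h') * (h₂ * h₂') := by ring
        _ = 1 := by rw [i3, j3, one_mul]
    · rw [← e, ← e₂]; ring
  · rintro ⟨u, rfl⟩
    constructor
    · rintro ⟨g, h, h', hg, i1, i2, i3, e⟩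
      refine ⟨↑u * g, h, h', u.isUnit.mul hg, i1, i2, i3, ?_⟩
      rw [← e]; ring
    · rintro ⟨g, h, h', hg, i1, i2, i3, e⟩
      refine ⟨↑u⁻¹ * g, h, h', (u⁻¹).isUnit.mul hg, i1, i2, i3, ?_⟩
      rw [← e]
      have hu : (↑u : Lk a b) * ↑u⁻¹ = 1 := u.mul_inv
      calc α * ↑u ^ 2 * (↑u⁻¹ * g) ^ 2 = α * g ^ 2 * (↑u * ↑u⁻¹) ^ 2 := by ring
        _ = α * g ^ 2 := by rw [hu]; ring
  · rintro hα ⟨d, rfl⟩
    obtain ⟨u, rfl⟩ : IsUnit d := isUnit_of_mul_isUnit_left hα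
    refine ⟨↑u⁻¹, 1, 1, (u⁻¹).isUnit, itg_one hCOO, itg_one hCOO, one_mul 1, ?_⟩
    have hu : (↑u : Lk a b) * ↑u⁻¹ = 1 := u.mul_inv
    calc (↑u : Lk a b) * ↑u * ↑u⁻¹ ^ 2 = (↑u * ↑u⁻¹) ^ 2 := by ring
      _ = 1 := by rw [hu]; ring

end Pool.Agent.Lib.MP_8cb858_nt.PF
end

section
/-!
# MP_8cb858_nt, Poonen-Rains up to epsilon over number fields, module EWR (helper51)

Ramified case: the quotient `V / (unit classes)` has order at most two.
-/
set_option autoImplicit false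

namespace Pool.Agent.Lib.MP_8cb858_nt.PF

open Polynomial NumberField IsDedekindDomain Pool.Agent.Lib.MP_8cb858_nt.SEL
open scoped Classical WithZero

namespace EWRM

variable {K : Type} [Field K] {w : Valuation K ℤᵐ⁰}

theorem exp_lt_one : (WithZero.exp (-1 : ℤ) : ℤᵐ⁰) < 1 := by
  rw [← WithZero.exp_zero, WithZero.exp_lt_exp]
  norm_num

/-- the norm form is a unit if the first variable is one -/
theorem unit_form {d z s : K} (hd : w d = WithZero.exp (-1 : ℤ)) (hz : w z = 1) (hs : w s ≤ 1) :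
    w (z ^ 2 - d * s ^ 2) = 1 := by
  have h1 : w (z ^ 2) = 1 := by rw [map_pow, hz, one_pow]
  have h2 : w (d * s ^ 2) < w (z ^ 2) := by
    rw [h1, map_mul, map_pow, hd]
    refine lt_of_le_of_lt (mul_le_of_le_one_right' (pow_le_one' hs 2)) exp_lt_one
  rw [Valuation.map_sub_eq_of_lt_left w h2, h1]

/-- claim (A) of the doc string -/
theorem evA [CharZero K] {a b t : K} (hVAL : SpecVAL) (hTOC : SpecTOC) (hEVC : SpecEVC)
    (h2w : w 2 = 1) (ha : w a ≤ 1) (hU : Ram w a b t) (α : Lk a b) (hα : InV α) (r : K)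
    (j : ℤ) (z s : K) (hz : w z = 1) (hs : w s ≤ 1)
    (hco : Co t α r (dq a t ^ j * z) (dq a t ^ j * s)) : Ev w α := by
  have h2 : (2 : K) ≠ 0 := two_ne_zero
  have hrt := hU.rt
  have hf0 : 3 * t ^ 2 + a ≠ 0 := fun h => by
    have := hU.un
    rw [h, map_zero] at this
    exact zero_ne_one this
  have hde := hU.de
  set d := dq a t with hd
  have hd0 : d ≠ 0 := fun h => by
    rw [h, map_zero] at hde
    exact WithZero.exp_ne_zero hde.symm
  have hn := unit_form hde hz hs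
  have hr0 : r ≠ 0 := ((hTOC.unt h2 hrt hco).1 hα.1).1
  obtain ⟨i, u, hu, rfl⟩ := hVAL.dec hde r hr0
  have hev : Even i := by
    have hsq := hα.2
    rw [hTOC.nrm h2 hrt hco, ← hd] at hsq
    have h1 : d ^ i * u * ((d ^ j * z) ^ 2 - d * (d ^ j * s) ^ 2) =
        d ^ (i + (j + j)) * (u * (z ^ 2 - d * s ^ 2)) := by
      rw [zpow_add₀ hd0, zpow_add₀ hd0]
      ring
    rw [h1] at hsq
    have h3 : w (u * (z ^ 2 - d * s ^ 2)) = 1 := by rw [map_mul, hu, hn, one_mul]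
    have := hVAL.par hde _ _ h3 hsq
    rw [Int.even_add] at this
    exact this.2 ⟨j, rfl⟩
  obtain ⟨k, hk⟩ := hev
  have hkk : d ^ i * (d ^ (-k) * d ^ (-k)) = 1 := by
    rw [← zpow_add₀ hd0, ← zpow_add₀ hd0, hk]
    have : k + k + (-k + -k) = 0 := by ring
    rw [this, zpow_zero]
  rcases Int.even_or_odd j with hj | hj
  · obtain ⟨l, hl⟩ := hj
    obtain ⟨γ, hγ⟩ := hTOC.ex (b := b) (d ^ (-k)) (d ^ (-l)) 0 hf0
    have hγu : IsUnit γ := (hTOC.unt h2 hrt hγ).2 ⟨zpow_ne_zero _ hd0, by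
      have : (d ^ (-l)) ^ 2 - dq a t * 0 ^ 2 = (d ^ (-l)) ^ 2 := by ring
      rw [this]
      exact pow_ne_zero 2 (zpow_ne_zero _ hd0)⟩
    have hll : d ^ j * (d ^ (-l) * d ^ (-l)) = 1 := by
      rw [← zpow_add₀ hd0, ← zpow_add₀ hd0, hl]
      have : l + l + (-l + -l) = 0 := by ring
      rw [this, zpow_zero]
    have hm := hTOC.mul h2 hrt hco (hTOC.mul h2 hrt hγ hγ)
    refine (hEVC K w a b t α h2w ha hU.ti.le hrt hU.un).2
      ⟨γ, u, z, s, hγu, hu, hz.le, hs, hn, ?_⟩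
    rw [pow_two]
    convert hm using 1
    · linear_combination (-u) * hkk
    · linear_combination (-z) * hll
    · linear_combination (-s) * hll
  · obtain ⟨l', hl'⟩ := hj
    obtain ⟨l, hl⟩ : ∃ l : ℤ, j + 1 = l + l := ⟨l' + 1, by rw [hl']; ring⟩
    obtain ⟨γ, hγ⟩ := hTOC.ex (b := b) (d ^ (-k)) 0 (d ^ (-l)) hf0
    have hγu : IsUnit γ := (hTOC.unt h2 hrt hγ).2 ⟨zpow_ne_zero _ hd0, by
      have : (0 : K) ^ 2 - dq a t * (d ^ (-l)) ^ 2 = -(d * (d ^ (-l)) ^ 2) := by rw [← hd]; ring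
      rw [this]
      exact neg_ne_zero.2 (mul_ne_zero hd0 (pow_ne_zero 2 (zpow_ne_zero _ hd0)))⟩
    have hll : d ^ j * (d ^ (-l) * d ^ (-l)) * d = 1 := by
      rw [← zpow_add₀ hd0, ← zpow_add₀ hd0, ← zpow_add_one₀ hd0]
      have : j + (-l + -l) + 1 = 0 := by linear_combination hl
      rw [this, zpow_zero]
    have hm := hTOC.mul h2 hrt hco (hTOC.mul h2 hrt hγ hγ)
    refine (hEVC K w a b t α h2w ha hU.ti.le hrt hU.un).2
      ⟨γ, u, z, s, hγu, hu, hz.le, hs, hn, ?_⟩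
    rw [pow_two]
    convert hm using 1
    · linear_combination (-u) * hkk
    · rw [← hd]
      linear_combination (-z) * hll
    · rw [← hd]
      linear_combination (-s) * hll

end EWRM

open EWRM in
/-- **EWR** -/
theorem specEWR (hVAL : SpecVAL) (hTOC : SpecTOC) (hEVC : SpecEVC) (hINV : SpecINV) : SpecEWR := by
  intro K _ _ w a b t _ h2w ha _ hU
  have h2 : (2 : K) ≠ 0 := two_ne_zero
  have hrt := hU.rt
  have hf0 : 3 * t ^ 2 + a ≠ 0 := fun h => by
    have := hU.un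
    rw [h, map_zero] at this
    exact zero_ne_one this
  have hde := hU.de
  have hd0 : dq a t ≠ 0 := fun h => by
    rw [h, map_zero] at hde
    exact WithZero.exp_ne_zero hde.symm
  obtain ⟨ϖ, hϖ⟩ := hTOC.ex (b := b) (-dq a t) 0 1 hf0
  have hnrm := hTOC.nrm h2 hrt hϖ
  have hϖV : InV ϖ := by
    refine ⟨(hTOC.unt h2 hrt hϖ).2 ⟨neg_ne_zero.2 hd0, ?_⟩, ⟨dq a t, ?_⟩⟩
    · have : (0 : K) ^ 2 - dq a t * 1 ^ 2 = -dq a t := by ring
      rw [this]
      exact neg_ne_zero.2 hd0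
    · rw [hnrm]; ring
  refine ⟨ϖ, hϖV, fun α hα => ?_⟩
  obtain ⟨r, z, s, hco⟩ := hTOC.all t α h2
  have hzs : (![z, s] : Fin 2 → K) ≠ 0 := by
    intro h0
    have hz : z = 0 := by simpa using congrFun h0 0
    have hs : s = 0 := by simpa using congrFun h0 1
    have := ((hTOC.unt h2 hrt hco).1 hα.1).2
    rw [hz, hs] at this
    exact this (by ring)
  obtain ⟨j, y, hy, i, hi⟩ := hVAL.pri hde 2 ![z, s] hzs
  have hz : z = dq a t ^ j * y 0 := by simpa using (hy 0).2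
  have hs : s = dq a t ^ j * y 1 := by simpa using (hy 1).2
  by_cases h0 : w (y 0) = 1
  · left
    rw [hz, hs] at hco
    exact evA hVAL hTOC hEVC h2w ha hU α hα r j (y 0) (y 1) h0 (hy 1).1 hco
  · right
    have h1 : w (y 1) = 1 := by
      fin_cases i
      · exact absurd hi h0
      · exact hi
    have h0' : w (y 0) ≤ WithZero.exp (-1 : ℤ) := (hVAL.lt w (y 0)).1 (lt_of_le_of_ne (hy 0).1 h0)
    have hz1 : w (y 0 / dq a t) ≤ 1 := by
      rw [map_div₀, hde]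
      exact div_le_one_of_le₀ h0' zero_le
    have hm := hTOC.mul h2 hrt hco hϖ
    refine evA hVAL hTOC hEVC h2w ha hU (α * ϖ) (hINV.mul _ _ hα hϖV)
      (r * -dq a t) (j + 1) (y 1) (y 0 / dq a t) h1 hz1 ?_
    convert hm using 1
    · rw [hs, zpow_add_one₀ hd0]
      ring
    · rw [hz, zpow_add_one₀ hd0]
      field_simp
      ring

end Pool.Agent.Lib.MP_8cb858_nt.PF
end

section
/-!
# NVU: the unramified norm form (number fields)
-/
namespace Pool.Agent.Lib.MP_8cb858_nt.PF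

open Polynomial NumberField IsDedekindDomain Pool.Agent.Lib.MP_8cb858_nt.SEL
open scoped Classical WithZero

namespace NVUM

variable {K : Type} [Field K] {w : Valuation K ℤᵐ⁰}

theorem mul_le {x y : K} (hx : w x ≤ 1) (hy : w y ≤ 1) : w (x * y) ≤ 1 := by
  rw [map_mul]
  exact mul_le_one' hx hy

theorem pow_le {x : K} (hx : w x ≤ 1) (n : ℕ) : w (x ^ n) ≤ 1 := by
  rw [map_pow]
  exact pow_le_one' hx n

theorem add_le {x y : K} (hx : w x ≤ 1) (hy : w y ≤ 1) : w (x + y) ≤ 1 :=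
  (w.map_add x y).trans (max_le hx hy)

theorem sub_le {x y : K} (hx : w x ≤ 1) (hy : w y ≤ 1) : w (x - y) ≤ 1 :=
  (w.map_sub x y).trans (max_le hx hy)

theorem mul_lt {x y : K} (hx : w x ≤ 1) (hy : w y < 1) : w (x * y) < 1 := by
  rw [map_mul]
  exact lt_of_le_of_lt (mul_le_of_le_one_left' hx) hy

theorem add_lt {x y : K} (hx : w x < 1) (hy : w y < 1) : w (x + y) < 1 :=
  lt_of_le_of_lt (w.map_add x y) (max_lt hx hy)

theorem sub_lt {x y : K} (hx : w x < 1) (hy : w y < 1) : w (x - y) < 1 :=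
  lt_of_le_of_lt (w.map_sub x y) (max_lt hx hy)

/-- a small change of a unit -/
theorem unit_sub {x y : K} (hx : w x = 1) (hy : w y < 1) : w (x - y) = 1 := by
  rw [← hx]
  exact w.map_sub_eq_of_lt_left (by rw [hx]; exact hy)

theorem unit_add {x y : K} (hx : w x = 1) (hy : w y < 1) : w (x + y) = 1 := by
  rw [← hx]
  exact w.map_add_eq_of_lt_left (by rw [hx]; exact hy)

end NVUM

open NVUM

theorem specNVU (hVAL : SpecVAL) : SpecNVU := by
  intro K _ w π d hπ hd hns z s hzs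
  have h0 : (![z, s] : Fin 2 → K) ≠ 0 := by
    intro h
    exact hzs ⟨congrFun h 0, congrFun h 1⟩
  obtain ⟨k, y, hy, i, hi⟩ := hVAL.pri hπ 2 ![z, s] h0
  refine ⟨k, y 0, y 1, (hy 0).1, (hy 1).1, (hy 0).2, (hy 1).2, ?_⟩
  rcases lt_or_eq_of_le (hy 1).1 with h1 | h1
  · have h2 : w (y 0) = 1 := by
      fin_cases i
      · exact hi
      · exact absurd hi h1.ne
    refine unit_sub (by rw [map_pow, h2, one_pow]) (mul_lt hd ?_)
    rw [pow_two]
    exact mul_lt (hy 1).1 h1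
  · have hy1 : y 1 ≠ 0 := by
      intro h
      rw [h, map_zero] at h1
      exact zero_ne_one h1
    have h2 : w ((y 0 / y 1) ^ 2 - d) = 1 := by
      refine hns _ ?_
      rw [map_div₀, h1, div_one]
      exact (hy 0).1
    have h3 : y 0 ^ 2 - d * y 1 ^ 2 = y 1 ^ 2 * ((y 0 / y 1) ^ 2 - d) := by
      field_simp
    rw [h3, map_mul, map_pow, h1, h2, one_pow, one_mul]

end Pool.Agent.Lib.MP_8cb858_nt.PF
end

section
/-!
# ISE: a nontrivial unit class, unramified case (number fields)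
-/
namespace Pool.Agent.Lib.MP_8cb858_nt.PF

open Polynomial NumberField IsDedekindDomain Pool.Agent.Lib.MP_8cb858_nt.SEL
open scoped Classical WithZero

namespace ISEM

open NVUM

variable {K : Type} [Field K] {w : Valuation K ℤᵐ⁰}

theorem w3_le (h2 : w 2 = 1) : w (3 : K) ≤ 1 := by
  have h : (3 : K) = 1 + 2 := by norm_num
  rw [h]
  exact add_le (by rw [map_one]) h2.le

theorem w4 (h2 : w 2 = 1) : w (4 : K) = 1 := by
  have h : (4 : K) = 2 * 2 := by norm_num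
  rw [h, map_mul, h2, one_mul]

theorem dq_le (h2 : w 2 = 1) {a t : K} (ha : w a ≤ 1) (ht : w t ≤ 1) : w (dq a t) ≤ 1 := by
  unfold dq
  refine sub_le (mul_le ?_ (pow_le ht 2)) (mul_le (w4 h2).le ha)
  rw [Valuation.map_neg]
  exact w3_le h2

theorem two_ne (h2 : w 2 = 1) : (2 : K) ≠ 0 := by
  intro h
  rw [h, map_zero] at h2
  exact zero_ne_one h2

theorem ne_of_w {x : K} (h : w x = 1) : x ≠ 0 := by
  rintro rfl
  rw [map_zero] at h
  exact zero_ne_one h

/-- a nonsquare modulo the maximal ideal is a unit -/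
theorem NS.unit {u : K} (h : NS w u) : w u = 1 := by
  have := h 0 (by rw [map_zero]; exact zero_le_one)
  rwa [zero_pow two_ne_zero, zero_sub, Valuation.map_neg] at this

/-- a nonsquare modulo the maximal ideal is not a square modulo the maximal ideal -/
theorem NS.ne {u x y : K} (h : NS w u) (hx : w x ≤ 1) (hy : w y = 1) :
    ¬ w (x ^ 2 - u * y ^ 2) < 1 := by
  have hy0 := ne_of_w hy
  have h1 : x ^ 2 - u * y ^ 2 = y ^ 2 * ((x / y) ^ 2 - u) := by
    field_simp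
  have h2 : w ((x / y) ^ 2 - u) = 1 := h _ (by rw [map_div₀, hy, div_one]; exact hx)
  rw [h1, map_mul, map_pow, hy, one_pow, one_mul, h2]
  exact lt_irrefl _

end ISEM

open NVUM ISEM

theorem specISE (hRES : SpecRES) (hTOC : SpecTOC) (hEVC : SpecEVC) : SpecISE := by
  intro K _ _ w a b t hK h2 ha hb hU
  have hd := dq_le h2 ha hU.ti
  obtain ⟨n, hn, hns⟩ := hRES.ns hK h2
  obtain ⟨w₀, w₁, h0, h1, hlt⟩ := hRES.nrm (dq a t) n hK h2 hd hU.ns hn.le
  have hν : w (w₀ ^ 2 - dq a t * w₁ ^ 2) = 1 := by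
    have := unit_add hn hlt
    rwa [add_sub_cancel] at this
  have hNS : NS w (w₀ ^ 2 - dq a t * w₁ ^ 2) := by
    intro x hx
    have h3 := unit_sub (hns x hx) hlt
    have h4 : x ^ 2 - n - (w₀ ^ 2 - dq a t * w₁ ^ 2 - n) = x ^ 2 - (w₀ ^ 2 - dq a t * w₁ ^ 2) := by
      ring
    rwa [h4] at h3
  have h2' := two_ne h2
  have hf0 : 3 * t ^ 2 + a ≠ 0 := ne_of_w hU.un
  have hν0 := ne_of_w hν
  obtain ⟨ε, hε⟩ := hTOC.ex (b := b) (w₀ ^ 2 - dq a t * w₁ ^ 2) w₀ w₁ hf0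
  have hnrm := hTOC.nrm h2' hU.rt hε
  have hInV : InV ε := ⟨(hTOC.unt h2' hU.rt hε).2 ⟨hν0, hν0⟩, ⟨_, hnrm⟩⟩
  refine ⟨w₀, w₁, ε, h0, h1, hν, hNS, hInV, ?_, hε⟩
  refine (hEVC K w a b t ε h2 ha hU.ti hU.rt hU.un).2
    ⟨1, _, w₀, w₁, isUnit_one, hν, h0, h1, hν, ?_⟩
  rw [one_pow, mul_one]
  exact hε

end Pool.Agent.Lib.MP_8cb858_nt.PF
end

section
/-!
# LTN: points with integral `x` do not give unit classes (number fields)
-/
namespace Pool.Agent.Lib.MP_8cb858_nt.PF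

open Polynomial NumberField IsDedekindDomain Pool.Agent.Lib.MP_8cb858_nt.SEL
open scoped Classical WithZero

open NVUM ISEM

namespace LTNM

variable {K : Type} [Field K] {w : Valuation K ℤᵐ⁰}

theorem w_zpow {π : K} (hπ : w π = WithZero.exp (-1 : ℤ)) (n : ℤ) :
    w (π ^ n) = WithZero.exp (-n) := by
  rw [map_zpow₀, hπ, ← WithZero.exp_zsmul]
  congr 1
  simp

end LTNM

open LTNM

theorem specLTN (hTOC : SpecTOC) (hEVC : SpecEVC) (hNVU : SpecNVU) : SpecLTN := by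
  intro K _ _ w a b t D x hK h2 ha hb hU hD hx hEv
  have h2' := two_ne h2
  have h4 := w4 h2
  have hD0 : D ≠ 0 := by
    rintro rfl
    rw [map_zero] at hD
    exact WithZero.exp_ne_zero hD.symm
  obtain ⟨γ, r, z, s, hγ, -, -, -, hzs, hCo⟩ := (hEVC K w a b t _ h2 ha hU.ti hU.rt hU.un).1 hEv
  obtain ⟨r₁, z₁, s₁, hCγ⟩ := hTOC.all t γ h2'
  have hCγ2 := hTOC.mul h2' hU.rt hCγ hCγ
  rw [← pow_two] at hCγ2
  have hCβ := hTOC.pnt (a := a) (b := b) t D x h2'
  have hC := hTOC.mul h2' hU.rt hCβ hCγ2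
  obtain ⟨-, hz, hs⟩ := hTOC.uni h2' hCo hC
  have hne : ¬ (z₁ = 0 ∧ s₁ = 0) := by
    rintro ⟨rfl, rfl⟩
    have := ((hTOC.unt h2' hU.rt hCγ).1 hγ).2
    simp at this
  obtain ⟨j, z', s', hz', hs', rfl, rfl, hn'⟩ := hNVU K w D (dq a t) hD (dq_le h2 ha hU.ti) hU.ns z₁ s₁ hne
  have hq : w ((2 * x + t) ^ 2 - dq a t) = 1 := hU.ns _ (add_le (mul_le h2.le hx) hU.ti)
  have key : (4 : K) * (z ^ 2 - dq a t * s ^ 2) =
      D ^ (2 + 4 * j) * (((2 * x + t) ^ 2 - dq a t) * (z' ^ 2 - dq a t * s' ^ 2) ^ 2) := by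
    have e : D ^ (2 + 4 * j) = D ^ 2 * (D ^ j) ^ 4 := by
      rw [zpow_add₀ hD0, mul_comm 4 j, zpow_mul]
      norm_cast
    rw [e, hz, hs]
    field_simp
    ring
  have hN := congrArg w key
  rw [map_mul, map_mul, map_mul, map_pow w (z' ^ 2 - dq a t * s' ^ 2), h4, hzs, hq, hn', one_pow, mul_one,
    mul_one, w_zpow hD, ← WithZero.exp_zero] at hN
  have h6 := WithZero.exp_injective hN
  omega

end Pool.Agent.Lib.MP_8cb858_nt.PF
end

section
/-!
# EWU: unramified case, `V / (unit classes)` has order at most two (number fields)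
-/
namespace Pool.Agent.Lib.MP_8cb858_nt.PF

open Polynomial NumberField IsDedekindDomain Pool.Agent.Lib.MP_8cb858_nt.SEL
open scoped Classical WithZero

open NVUM ISEM LTNM

namespace EWUM

/-- the case of even valuation -/
theorem evA (hVAL : SpecVAL) (hTOC : SpecTOC) (hEVC : SpecEVC) {K : Type} [Field K] [CharZero K]
    {w : Valuation K ℤᵐ⁰} {a b t π : K} (hπ : w π = WithZero.exp (-1 : ℤ)) (h2 : w 2 = 1)
    (ha : w a ≤ 1) (hU : Unr w a b t) (α : Lk a b) (hα : InV α) (r : K) (j : ℤ) (z s : K)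
    (hz : w z ≤ 1) (hs : w s ≤ 1) (hn : w (z ^ 2 - dq a t * s ^ 2) = 1) (hj : Even j)
    (hco : Co t α r (π ^ j * z) (π ^ j * s)) : Ev w α := by
  have h2' := two_ne h2
  have hπ0 : π ≠ 0 := by
    rintro rfl
    rw [map_zero] at hπ
    exact WithZero.exp_ne_zero hπ.symm
  have hf0 : 3 * t ^ 2 + a ≠ 0 := ne_of_w hU.un
  have hr0 : r ≠ 0 := ((hTOC.unt h2' hU.rt hco).1 hα.1).1
  obtain ⟨i, r', hr', rfl⟩ := hVAL.dec hπ r hr0
  have hev : Even i := by
    have hnrm := hTOC.nrm h2' hU.rt hco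
    have hsq := hα.2
    rw [hnrm] at hsq
    have h1 : π ^ i * r' * ((π ^ j * z) ^ 2 - dq a t * (π ^ j * s) ^ 2) =
        π ^ (i + (j + j)) * (r' * (z ^ 2 - dq a t * s ^ 2)) := by
      rw [zpow_add₀ hπ0, zpow_add₀ hπ0]
      ring
    rw [h1] at hsq
    have := hVAL.par hπ _ _ (by rw [map_mul, hr', hn, one_mul]) hsq
    rw [Int.even_add] at this
    exact this.2 ⟨j, rfl⟩
  obtain ⟨k, hk⟩ := hev
  have hkk : π ^ i * (π ^ (-k) * π ^ (-k)) = 1 := by
    rw [← zpow_add₀ hπ0, ← zpow_add₀ hπ0, hk]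
    have : k + k + (-k + -k) = 0 := by ring
    rw [this, zpow_zero]
  obtain ⟨l, hl⟩ := hj
  obtain ⟨γ, hγ⟩ := hTOC.ex (b := b) (π ^ (-k)) (π ^ (-l)) 0 hf0
  have hγu : IsUnit γ := (hTOC.unt h2' hU.rt hγ).2 ⟨zpow_ne_zero _ hπ0, by
    have : (π ^ (-l)) ^ 2 - dq a t * 0 ^ 2 = (π ^ (-l)) ^ 2 := by ring
    rw [this]
    exact pow_ne_zero 2 (zpow_ne_zero _ hπ0)⟩
  have hll : π ^ j * (π ^ (-l) * π ^ (-l)) = 1 := by
    rw [← zpow_add₀ hπ0, ← zpow_add₀ hπ0, hl]
    have : l + l + (-l + -l) = 0 := by ring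
    rw [this, zpow_zero]
  have hm := hTOC.mul h2' hU.rt hco (hTOC.mul h2' hU.rt hγ hγ)
  refine (hEVC K w a b t α h2 ha hU.ti hU.rt hU.un).2 ⟨γ, r', z, s, hγu, hr', hz, hs, hn, ?_⟩
  rw [pow_two]
  convert hm using 1
  · linear_combination (-r') * hkk
  · linear_combination (-z) * hll
  · linear_combination (-s) * hll

end EWUM

open EWUM in
theorem specEWU (hVAL : SpecVAL) (hTOC : SpecTOC) (hEVC : SpecEVC) (hINV : SpecINV)
    (hNVU : SpecNVU) : SpecEWU := by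
  intro K _ _ w a b t hK h2 ha hb hU
  obtain ⟨π, hπ⟩ := hVAL.uni hK
  have h2' := two_ne h2
  have hπ0 : π ≠ 0 := by
    rintro rfl
    rw [map_zero] at hπ
    exact WithZero.exp_ne_zero hπ.symm
  have hf0 : 3 * t ^ 2 + a ≠ 0 := ne_of_w hU.un
  obtain ⟨ϖ, hϖ⟩ := hTOC.ex (b := b) 1 π 0 hf0
  have hnrm := hTOC.nrm h2' hU.rt hϖ
  have hϖV : InV ϖ := by
    refine ⟨(hTOC.unt h2' hU.rt hϖ).2 ⟨one_ne_zero, ?_⟩, ?_⟩
    · have : π ^ 2 - dq a t * 0 ^ 2 = π ^ 2 := by ring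
      rw [this]
      exact pow_ne_zero 2 hπ0
    · refine ⟨π, ?_⟩
      rw [hnrm]; ring
  refine ⟨ϖ, hϖV, fun α hα => ?_⟩
  obtain ⟨r, z, s, hco⟩ := hTOC.all t α h2'
  have hzs : ¬ (z = 0 ∧ s = 0) := by
    rintro ⟨hz, hs⟩
    have := ((hTOC.unt h2' hU.rt hco).1 hα.1).2
    rw [hz, hs] at this
    exact this (by ring)
  obtain ⟨j, z', s', hz', hs', hz, hs, hn⟩ := hNVU K w π (dq a t) hπ (dq_le h2 ha hU.ti) hU.ns z s hzs
  rcases Int.even_or_odd j with hj | hj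
  · left
    rw [hz, hs] at hco
    exact evA hVAL hTOC hEVC hπ h2 ha hU α hα r j z' s' hz' hs' hn hj hco
  · right
    have hm := hTOC.mul h2' hU.rt hco hϖ
    refine evA hVAL hTOC hEVC hπ h2 ha hU (α * ϖ) (hINV.mul _ _ hα hϖV) r (j + 1) z' s' hz' hs' hn
      (hj.add_one) ?_
    convert hm using 1
    · ring
    · rw [hz, zpow_add_one₀ hπ0]
      ring
    · rw [hs, zpow_add_one₀ hπ0]
      ring

end Pool.Agent.Lib.MP_8cb858_nt.PF
end

section
/-!
# ISU: unramified case, an isotropic class `α₁` such that `α₁ ε` is anisotropic (number fields)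
-/
namespace Pool.Agent.Lib.MP_8cb858_nt.PF

open Polynomial NumberField IsDedekindDomain Pool.Agent.Lib.MP_8cb858_nt.SEL
open scoped Classical WithZero

open NVUM ISEM

namespace ISUM

variable {K : Type} [Field K] {w : Valuation K ℤᵐ⁰}

theorem pi_ne {π : K} (hπ : w π = WithZero.exp (-1 : ℤ)) : π ≠ 0 := by
  rintro rfl
  rw [map_zero] at hπ
  exact WithZero.exp_ne_zero hπ.symm

theorem pi_lt {π : K} (hπ : w π = WithZero.exp (-1 : ℤ)) : w π < 1 := by
  rw [hπ, ← WithZero.exp_zero]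
  exact WithZero.exp_lt_exp.2 (by norm_num)

theorem sq_lt {x : K} (h : w (x ^ 2) < 1) : w x < 1 := by
  rw [map_pow] at h
  by_contra h1
  exact absurd h (not_lt.2 (one_le_pow₀ (not_lt.1 h1)))

/-- primitive zero of a ternary homogeneous equation of degree two -/
theorem prim (hVAL : SpecVAL) {π : K} (hπ : w π = WithZero.exp (-1 : ℤ)) (r x y : K)
    (h : ¬ (r = 0 ∧ x = 0 ∧ y = 0)) :
    ∃ c r' x' y' : K, c ≠ 0 ∧ w r' ≤ 1 ∧ w x' ≤ 1 ∧ w y' ≤ 1 ∧ r = c * r' ∧ x = c * x' ∧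
      y = c * y' ∧ (w r' = 1 ∨ w x' = 1 ∨ w y' = 1) := by
  obtain ⟨k, v, hv, i, hi⟩ := hVAL.pri hπ 3 ![r, x, y] (by
    intro h0
    apply h
    exact ⟨by simpa using congrFun h0 0, by simpa using congrFun h0 1, by simpa using congrFun h0 2⟩)
  refine ⟨π ^ k, v 0, v 1, v 2, zpow_ne_zero _ (pi_ne hπ), (hv 0).1, (hv 1).1, (hv 2).1,
    by simpa using (hv 0).2, by simpa using (hv 1).2, by simpa using (hv 2).2, ?_⟩
  fin_cases i
  · exact Or.inl hi
  · exact Or.inr (Or.inl hi)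
  · exact Or.inr (Or.inr hi)

end ISUM

open ISUM

theorem specISU (hVAL : SpecVAL) (hHNS : SpecHNS) (hTOC : SpecTOC) (hTOI : SpecTOI)
    (hISE : SpecISE) : SpecISU := by
  intro K _ _ w a b t hK h2 ha hb hU
  obtain ⟨w₀, w₁, ε, h0, h1, hν, hνs, hεV, hεE, hco⟩ := hISE K w a b t hK h2 ha hb hU
  obtain ⟨π, hπ⟩ := hVAL.uni hK
  have hπ0 := pi_ne hπ
  have hπ1 := pi_lt hπ
  have h2' := two_ne h2
  have h4' : (4 : K) ≠ 0 := ne_of_w (w4 h2)
  have hf0 : 3 * t ^ 2 + a ≠ 0 := ne_of_w hU.un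
  have hd := dq_le h2 ha hU.ti
  obtain ⟨α₁, hα⟩ := hTOC.ex (b := b) (3 * t ^ 2 + a) (3 * t * π) (-π) hf0
  have hn : (3 * t * π) ^ 2 - dq a t * (-π) ^ 2 = 4 * (3 * t ^ 2 + a) * π ^ 2 := by
    simp only [dq]; ring
  have hnrm := hTOC.nrm h2' hU.rt hα
  have hαV : InV α₁ := by
    refine ⟨(hTOC.unt h2' hU.rt hα).2 ⟨hf0, ?_⟩, ?_⟩
    · rw [hn]
      exact mul_ne_zero (mul_ne_zero h4' hf0) (pow_ne_zero 2 hπ0)
    · refine ⟨2 * π * (3 * t ^ 2 + a), ?_⟩
      rw [hnrm, hn]; ring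
  refine ⟨α₁, ε, hαV, hεV, hεE, ?_, ?_, ?_⟩
  · refine ((hTOI K a b t α₁ _ _ _ h2' hU.rt hf0 hα).2).2 ⟨0, 1, 0, by simp, by ring⟩
  · intro hiso
    have hmul := hTOC.mul h2' hU.rt hα hco
    obtain ⟨r, x, y, hne, heq⟩ := ((hTOI K a b t _ _ _ _ h2' hU.rt hf0 hmul).2).1 hiso
    obtain ⟨c, r', x', y', hc, hr', hx', hy', rfl, rfl, rfl, hu⟩ := prim hVAL hπ r x y hne
    have heq3 : (w₀ ^ 2 - dq a t * w₁ ^ 2) * r' ^ 2 =
        4 * π * (w₁ * (x' ^ 2 + dq a t * y' ^ 2) + 2 * w₀ * x' * y') := by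
      have h3 : (3 * t ^ 2 + a) * c ^ 2 ≠ 0 := mul_ne_zero hf0 (pow_ne_zero 2 hc)
      apply mul_left_cancel₀ h3
      simp only [dq] at heq ⊢
      linear_combination heq
    obtain ⟨X, hX⟩ : ∃ X, X = w₁ * (x' ^ 2 + dq a t * y' ^ 2) + 2 * w₀ * x' * y' := ⟨_, rfl⟩
    rw [← hX] at heq3
    have hXi : w X ≤ 1 := by
      rw [hX]
      exact add_le (mul_le h1 (add_le (pow_le hx' 2) (mul_le hd (pow_le hy' 2))))
        (mul_le (mul_le (mul_le h2.le h0) hx') hy')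
    have hr1 : w r' < 1 := by
      apply sq_lt
      have h5 : w ((w₀ ^ 2 - dq a t * w₁ ^ 2) * r' ^ 2) < 1 := by
        rw [heq3, mul_comm]
        refine mul_lt hXi ?_
        exact mul_lt (w4 h2).le hπ1
      rwa [map_mul, hν, one_mul] at h5
    have hr2 : w (r' / π) ≤ 1 := by
      have h5 := (hVAL.lt w r').1 hr1
      rw [← hπ] at h5
      rw [map_div₀]
      have h6 : w π ≠ 0 := (Valuation.ne_zero_iff w).2 hπ0
      exact div_le_one_of_le₀ h5 zero_le
    have heq4 : (w₀ ^ 2 - dq a t * w₁ ^ 2) * (π * (r' / π) ^ 2) = 4 * X := by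
      apply mul_left_cancel₀ hπ0
      have : π * ((w₀ ^ 2 - dq a t * w₁ ^ 2) * (π * (r' / π) ^ 2)) =
          (w₀ ^ 2 - dq a t * w₁ ^ 2) * r' ^ 2 := by
        field_simp
      rw [this, heq3]
      ring
    have hX1 : w X < 1 := by
      have h5 : w (4 * X) < 1 := by
        rw [← heq4, map_mul, hν, one_mul, mul_comm]
        exact mul_lt (pow_le hr2 2) hπ1
      rwa [map_mul, w4 h2, one_mul] at h5
    have hsq : (w₁ * x' + w₀ * y') ^ 2 - (w₀ ^ 2 - dq a t * w₁ ^ 2) * y' ^ 2 = w₁ * X := by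
      rw [hX]; ring
    have hY : w y' < 1 := by
      refine lt_of_le_of_ne hy' fun h => ?_
      refine NS.ne hνs (x := w₁ * x' + w₀ * y') (add_le (mul_le h1 hx') (mul_le h0 hy')) h ?_
      rw [hsq]
      exact mul_lt h1 hX1
    have hW1 : w w₁ = 1 := by
      refine le_antisymm h1 (not_lt.1 fun h => ?_)
      have h5 := hνs w₀ h0
      have h6 : w₀ ^ 2 - (w₀ ^ 2 - dq a t * w₁ ^ 2) = dq a t * w₁ ^ 2 := by ring
      rw [h6] at h5
      have h7 : w (dq a t * w₁ ^ 2) < 1 := mul_lt hd (by rw [pow_two]; exact mul_lt h1 h)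
      exact absurd h5 h7.ne
    have hX' : w x' < 1 := by
      apply sq_lt
      have h5 : w₁ * x' ^ 2 = X - (w₁ * dq a t * y') * y' - (2 * w₀ * x') * y' := by
        rw [hX]; ring
      have h6 : w (w₁ * x' ^ 2) < 1 := by
        rw [h5]
        exact sub_lt (sub_lt hX1 (mul_lt (mul_le (mul_le h1 hd) hy') hY))
          (mul_lt (mul_le (mul_le h2.le h0) hx') hY)
      rwa [map_mul, hW1, one_mul] at h6
    rcases hu with hu | hu | hu
    · exact hr1.ne hu
    · exact hX'.ne hu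
    · exact hY.ne hu
  · intro hs
    rw [hTOC.evv hco] at hs
    exact (hHNS.iff _ hK h2 hν).1 hs hνs

end Pool.Agent.Lib.MP_8cb858_nt.PF
end

section
/-!
# SCL: scaling in the algebra `L_K`
-/
set_option autoImplicit false

namespace Pool.Agent.Lib.MP_8cb858_nt.PF

open Polynomial
open scoped WithZero

namespace SCLM

theorem irr {k : Type} [Field k] (a b : k) (h : ∀ x : k, x ^ 3 + a * x + b ≠ 0) :
    Irreducible (fpol a b) := by
  have hm := fpol_monic a b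
  have hdeg : (fpol a b).natDegree = 3 := by
    unfold fpol
    compute_degree!
  refine (hm.irreducible_iff_roots_eq_zero_of_degree_le_three (by omega) (by omega)).2 ?_
  rw [Multiset.eq_zero_iff_forall_notMem]
  intro x hx
  rw [mem_roots hm.ne_zero, IsRoot.def] at hx
  have := eval₂_fpol a b (RingHom.id k) x
  rw [eval₂_id] at this
  exact h x (this ▸ hx)

theorem unit_of_ne {k : Type} [Field k] (a b : k) (h : ∀ x : k, x ^ 3 + a * x + b ≠ 0)
    (α : Lk a b) (hα : α ≠ 0) : IsUnit α := by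
  have : Fact (Irreducible (fpol a b)) := ⟨irr a b h⟩
  exact (isUnit_iff_ne_zero (G₀ := AdjoinRoot (fpol a b))).2 hα

variable {K : Type} [Field K] {w : Valuation K ℤᵐ⁰}

theorem unit_iff (x : w.valuationSubring) : IsUnit x ↔ w (x : K) = 1 := by
  constructor
  · rintro ⟨u, rfl⟩
    have h1 : w ((u : w.valuationSubring) : K) ≤ 1 := (u : w.valuationSubring).2
    have h2 : w (((u⁻¹ : w.valuationSubringˣ) : w.valuationSubring) : K) ≤ 1 :=
      ((u⁻¹ : w.valuationSubringˣ) : w.valuationSubring).2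
    have h3 : ((u : w.valuationSubring) : K) *
        (((u⁻¹ : w.valuationSubringˣ) : w.valuationSubring) : K) = 1 := by
      exact_mod_cast congrArg (fun z : w.valuationSubring => (z : K)) u.mul_inv
    have h4 := congrArg w h3
    rw [map_mul, map_one] at h4
    exact le_antisymm h1 (by
      calc (1 : ℤᵐ⁰) = w ((u : w.valuationSubring) : K) *
            w (((u⁻¹ : w.valuationSubringˣ) : w.valuationSubring) : K) := h4.symm
        _ ≤ w ((u : w.valuationSubring) : K) * 1 := by gcongr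
        _ = _ := mul_one _)
  · intro h
    have hx0 : (x : K) ≠ 0 := by
      intro h0
      rw [h0, map_zero] at h
      exact zero_ne_one h
    have hinv : w ((x : K)⁻¹) ≤ 1 := by rw [map_inv₀, h, inv_one]
    refine IsUnit.of_mul_eq_one (⟨(x : K)⁻¹, hinv⟩ : w.valuationSubring) ?_
    apply Subtype.ext
    change (x : K) * (x : K)⁻¹ = 1
    exact mul_inv_cancel₀ hx0

/-- taking out the largest valuation -/
theorem scale (ϖ : K) (hϖ : w ϖ = WithZero.exp (-1 : ℤ)) (c : Fin 3 → K) (hc : c ≠ 0) :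
    ∃ (n : ℤ) (d : Fin 3 → K) (i : Fin 3), (∀ j, c j = ϖ ^ n * d j) ∧ (∀ j, w (d j) ≤ 1) ∧
      w (d i) = 1 := by
  have hϖ0 : ϖ ≠ 0 := by
    rintro rfl
    rw [map_zero] at hϖ
    exact WithZero.exp_ne_zero hϖ.symm
  obtain ⟨i, -, hi⟩ := Finset.exists_max_image Finset.univ (fun i => w (c i)) ⟨0, Finset.mem_univ 0⟩
  have hi0 : c i ≠ 0 := by
    intro h0
    apply hc
    funext j
    have := hi j (Finset.mem_univ j)
    rw [h0, map_zero] at this
    exact (map_eq_zero w).1 (le_zero_iff.1 this)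
  have hwi : w (c i) ≠ 0 := (map_ne_zero w).2 hi0
  obtain ⟨m, hm⟩ : ∃ m : ℤ, w (c i) = WithZero.exp m := ⟨_, (WithZero.exp_log hwi).symm⟩
  have hpn : w (ϖ ^ (-m)) = w (c i) := by
    rw [map_zpow₀, hϖ, hm, ← WithZero.exp_zsmul]
    congr 1
    simp
  have hpn0 : ϖ ^ (-m) ≠ 0 := zpow_ne_zero _ hϖ0
  refine ⟨-m, fun j => c j / ϖ ^ (-m), i, fun j => ?_, fun j => ?_, ?_⟩
  · change c j = ϖ ^ (-m) * (c j / ϖ ^ (-m))
    rw [mul_div_cancel₀ _ hpn0]
  · change w (c j / ϖ ^ (-m)) ≤ 1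
    rw [map_div₀, hpn]
    exact div_le_one_of_le₀ (hi j (Finset.mem_univ j)) zero_le
  · change w (c i / ϖ ^ (-m)) = 1
    rw [map_div₀, hpn, div_self hwi]

/-- an integral element which is not zero modulo `m` is a unit if `f` has no root modulo `m` -/
theorem norm_one (hCOO : SpecCOO) (hNRM : SpecNRM) {a b x y z : K} (ha : w a ≤ 1) (hb : w b ≤ 1)
    (hx : w x ≤ 1) (hy : w y ≤ 1) (hz : w z ≤ 1) (h1 : w x = 1 ∨ w y = 1 ∨ w z = 1)
    (h3 : T3 w a b) : w (Algebra.norm K (el a b x y z)) = 1 := by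
  set O := w.valuationSubring with hO
  let k := IsLocalRing.ResidueField O
  let ρ : O →+* k := IsLocalRing.residue O
  let a' : O := ⟨a, ha⟩
  let b' : O := ⟨b, hb⟩
  let x' : O := ⟨x, hx⟩
  let y' : O := ⟨y, hy⟩
  let z' : O := ⟨z, hz⟩
  have hres : ∀ u : O, ρ u ≠ 0 ↔ w (u : K) = 1 := by
    intro u
    rw [← unit_iff]
    exact IsLocalRing.residue_ne_zero_iff_isUnit u
  have hroot : ∀ r : k, r ^ 3 + ρ a' * r + ρ b' ≠ 0 := by
    intro r
    obtain ⟨u, rfl⟩ : ∃ u : O, ρ u = r := IsLocalRing.residue_surjective r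
    have e : ρ u ^ 3 + ρ a' * ρ u + ρ b' = ρ (u ^ 3 + a' * u + b') := by
      rw [map_add, map_add, map_mul, map_pow]
    rw [e]
    exact (hres _).2 (h3 (u : K) u.2)
  have hne : el (ρ a') (ρ b') (ρ x') (ρ y') (ρ z') ≠ 0 := by
    intro h0
    obtain ⟨c0, c1, c2⟩ := hCOO.co (a := ρ a') (b := ρ b') (ρ x') (ρ y') (ρ z')
    have hzz : ∀ i : ℕ, cf i (0 : Lk (ρ a') (ρ b')) = 0 := by
      intro i
      unfold cf
      rw [map_zero, coeff_zero]
    rw [h0, hzz] at c0 c1 c2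
    rcases h1 with h1 | h1 | h1
    · exact (hres x').2 h1 c0.symm
    · exact (hres y').2 h1 c1.symm
    · exact (hres z').2 h1 c2.symm
  have hu := ((hNRM.unt _).1 (unit_of_ne _ _ hroot _ hne)).ne_zero
  rw [hNRM.frm] at hu ⊢
  have e : ρ x' * ((ρ x' - ρ a' * ρ z') ^ 2 + ρ y' * (ρ b' * ρ z' + ρ a' * ρ y')) +
      ρ b' * ρ z' * (ρ y' * (ρ x' - ρ a' * ρ z') + ρ z' * (ρ b' * ρ z' + ρ a' * ρ y')) -
      ρ b' * ρ y' * (ρ y' ^ 2 - ρ z' * (ρ x' - ρ a' * ρ z')) =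
      ρ (x' * ((x' - a' * z') ^ 2 + y' * (b' * z' + a' * y')) +
      b' * z' * (y' * (x' - a' * z') + z' * (b' * z' + a' * y')) -
      b' * y' * (y' ^ 2 - z' * (x' - a' * z'))) := by
    simp only [map_add, map_sub, map_mul, map_pow]
  rw [e, hres] at hu
  exact hu

end SCLM

open SCLM EVFM in
theorem specSCL (hCOO : SpecCOO) (hNRM : SpecNRM) : SpecSCL := by
  intro K _ w a b ϖ α hϖ ha hb hα
  obtain ⟨n, d, i, hd, hd1, hi⟩ := scale ϖ hϖ ![cf 0 α, cf 1 α, cf 2 α] (by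
    intro h0
    apply hα
    rw [hCOO.ext α]
    have h0' : cf 0 α = 0 := congrFun h0 0
    have h1' : cf 1 α = 0 := congrFun h0 1
    have h2' : cf 2 α = 0 := congrFun h0 2
    rw [h0', h1', h2']
    unfold el
    rw [map_zero, zero_mul, zero_mul, add_zero, add_zero])
  have e0 : cf 0 α = ϖ ^ n * d 0 := hd 0
  have e1 : cf 1 α = ϖ ^ n * d 1 := hd 1
  have e2 : cf 2 α = ϖ ^ n * d 2 := hd 2
  obtain ⟨c0, c1, c2⟩ := hCOO.co (a := a) (b := b) (d 0) (d 1) (d 2)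
  have hi' : w (d 0) = 1 ∨ w (d 1) = 1 ∨ w (d 2) = 1 := by
    fin_cases i
    · exact Or.inl hi
    · exact Or.inr (Or.inl hi)
    · exact Or.inr (Or.inr hi)
  refine ⟨n, el a b (d 0) (d 1) (d 2), ?_, itg_el hCOO (hd1 0) (hd1 1) (hd1 2), ?_, fun h => ?_⟩
  · rw [hCOO.ofv, hCOO.mul, hCOO.ext α, e0, e1, e2]
    congr 1 <;> ring
  · rcases hi' with h | h | h
    · exact ⟨0, by rw [c0]; exact h⟩
    · exact ⟨1, by rw [c1]; exact h⟩
    · exact ⟨2, by rw [c2]; exact h⟩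
  · exact norm_one hCOO hNRM ha hb (hd1 0) (hd1 1) (hd1 2) hi' h

end Pool.Agent.Lib.MP_8cb858_nt.PF
end

section
/-!
# Row 187, module LFB (helper74): basic facts on local fields and the order `O[θ]`
-/
set_option autoImplicit false

namespace Pool.Agent.Lib.MP_8cb858_nt.PF

open Polynomial
open scoped WithZero

namespace LFBM

open EVFM

variable {K : Type} [Field K] {w : Valuation K ℤᵐ⁰} {a b : K}

theorem w_add {x y : K} {m : ℤᵐ⁰} (h1 : w x ≤ m) (h2 : w y ≤ m) : w (x + y) ≤ m := w.map_add_le h1 h2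

theorem w_sub {x y : K} {m : ℤᵐ⁰} (h1 : w x ≤ m) (h2 : w y ≤ m) : w (x - y) ≤ m := w.map_sub_le h1 h2

theorem norm_le (hCOO : SpecCOO) (hNRM : SpecNRM) (ha : w a ≤ 1) (hb : w b ≤ 1) {h : Lk a b}
    (hh : Itg w h) : w (Algebra.norm K h) ≤ 1 := by
  rw [hCOO.ext h, hNRM.frm]
  have h0 := hh 0
  have h1 := hh 1
  have h2 := hh 2
  have p1 : w (cf 0 h - a * cf 2 h) ≤ 1 := w_sub h0 (mul_le ha h2)
  have p2 : w (b * cf 2 h + a * cf 1 h) ≤ 1 := w_add (mul_le hb h2) (mul_le ha h1)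
  refine w_sub (w_add (mul_le h0 (w_add ?_ (mul_le h1 p2))) (mul_le (mul_le hb h2)
    (w_add (mul_le h1 p1) (mul_le h2 p2)))) (mul_le (mul_le hb h1) (w_sub ?_ (mul_le h2 p1)))
  · rw [sq]; exact mul_le p1 p1
  · rw [sq]; exact mul_le h1 h1

theorem exists_inv (hCOO : SpecCOO) (hNRM : SpecNRM) (hADJ : SpecADJ) (ha : w a ≤ 1) (hb : w b ≤ 1)
    {h : Lk a b} (hh : Itg w h) (hN : w (Algebra.norm K h) = 1) :
    ∃ h' : Lk a b, Itg w h' ∧ h * h' = 1 := by
  have hN0 : Algebra.norm K h ≠ 0 := by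
    intro h0
    rw [h0, map_zero] at hN
    exact zero_ne_one hN
  obtain ⟨x, hx⟩ : ∃ x, x = cf 0 h := ⟨_, rfl⟩
  obtain ⟨y, hy⟩ : ∃ x, x = cf 1 h := ⟨_, rfl⟩
  obtain ⟨z, hz⟩ : ∃ x, x = cf 2 h := ⟨_, rfl⟩
  have h0 : w x ≤ 1 := hx ▸ hh 0
  have h1 : w y ≤ 1 := hy ▸ hh 1
  have h2 : w z ≤ 1 := hz ▸ hh 2
  have he : h = el a b x y z := by rw [hx, hy, hz]; exact hCOO.ext h
  have p1 : w (x - a * z) ≤ 1 := w_sub h0 (mul_le ha h2)
  have p2 : w (b * z + a * y) ≤ 1 := w_add (mul_le hb h2) (mul_le ha h1)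
  have hadj := hADJ.adj (a := a) (b := b) x y z
  rw [← he] at hadj
  refine ⟨AdjoinRoot.of (fpol a b) (Algebra.norm K h)⁻¹ *
    el a b ((x - a * z) ^ 2 + y * (b * z + a * y)) (-(x * y) - b * z ^ 2)
      (y ^ 2 - z * (x - a * z)), ?_, ?_⟩
  · refine itg_mul hCOO ha hb ?_ ?_
    · rw [hCOO.ofv]
      exact itg_el hCOO (by rw [map_inv₀, hN, inv_one]) (by rw [map_zero]; exact zero_le)
        (by rw [map_zero]; exact zero_le)
    · refine itg_el hCOO (w_add ?_ (mul_le h1 p2)) (w_sub ?_ (mul_le hb ?_))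
        (w_sub ?_ (mul_le h2 p1))
      · rw [sq]; exact mul_le p1 p1
      · rw [Valuation.map_neg]; exact mul_le h0 h1
      · rw [sq]; exact mul_le h2 h2
      · rw [sq]; exact mul_le h1 h1
  · rw [mul_left_comm, hadj, ← map_mul, inv_mul_cancel₀ hN0, map_one]

theorem le_exp {n : ℤ} {x : K} (h : w x < WithZero.exp (n + 1)) : w x ≤ WithZero.exp n := by
  by_cases h0 : w x = 0
  · rw [h0]; exact zero_le
  · obtain ⟨m, hm⟩ : ∃ m : ℤ, w x = WithZero.exp m := ⟨_, (WithZero.exp_log h0).symm⟩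
    rw [hm, WithZero.exp_lt_exp] at h
    rw [hm, WithZero.exp_le_exp]
    omega

/-- finitely many classes -/
theorem fin (hK : IsLF w) (n : ℕ) : ∃ s : Finset K,
    ∀ x : K, w x ≤ 1 → ∃ y ∈ s, w (x - y) ≤ WithZero.exp (-(n : ℤ)) := by
  classical
  -- representatives of the residue field
  obtain ⟨R, hR⟩ : ∃ R : Finset K, ∀ x : K, w x ≤ 1 → ∃ y ∈ R, w (x - y) ≤ WithZero.exp (-1 : ℤ) := by
    have hfin := hK.fin
    have hsurj : Function.Surjective (IsLocalRing.residue w.valuationSubring) :=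
      IsLocalRing.residue_surjective
    obtain ⟨_⟩ := nonempty_fintype (IsLocalRing.ResidueField w.valuationSubring)
    refine ⟨Finset.univ.image fun r : IsLocalRing.ResidueField w.valuationSubring =>
      ((Function.surjInv hsurj r : w.valuationSubring) : K), fun x hx => ?_⟩
    obtain ⟨X, hX⟩ : ∃ X : w.valuationSubring, X = ⟨x, hx⟩ := ⟨_, rfl⟩
    refine ⟨_, Finset.mem_image_of_mem _ (Finset.mem_univ
      (IsLocalRing.residue w.valuationSubring X)), ?_⟩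
    obtain ⟨Y, hY⟩ : ∃ Y, Y = Function.surjInv hsurj (IsLocalRing.residue w.valuationSubring X) :=
      ⟨_, rfl⟩
    rw [← hY]
    have h1 : IsLocalRing.residue w.valuationSubring (X - Y) = 0 := by
      rw [map_sub, hY, Function.surjInv_eq hsurj, sub_self]
    have h2 : ¬ IsUnit (X - Y) := fun h => (IsLocalRing.residue_ne_zero_iff_isUnit _).2 h h1
    rw [SCLM.unit_iff] at h2
    have h3 : w ((X - Y : w.valuationSubring) : K) ≤ 1 := (X - Y).2
    have h4 : ((X - Y : w.valuationSubring) : K) = x - (Y : K) := by rw [hX]; rfl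
    rw [h4] at h2 h3
    refine le_exp (lt_of_le_of_ne ?_ ?_)
    · rw [neg_add_cancel, WithZero.exp_zero]; exact h3
    · rw [neg_add_cancel, WithZero.exp_zero]; exact h2
  obtain ⟨π, hπ⟩ := hK.surj (WithZero.exp (-1 : ℤ))
  have hπ0 : π ≠ 0 := by
    rintro rfl
    rw [map_zero] at hπ
    exact WithZero.exp_ne_zero hπ.symm
  induction n with
  | zero =>
    refine ⟨{0}, fun x hx => ⟨0, Finset.mem_singleton_self _, ?_⟩⟩
    rw [sub_zero]
    simpa using hx
  | succ n ih =>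
    obtain ⟨s, hs⟩ := ih
    refine ⟨(s ×ˢ R).image fun p => p.1 + π ^ n * p.2, fun x hx => ?_⟩
    obtain ⟨y, hy, h1⟩ := hs x hx
    have hπn : w (π ^ n) = WithZero.exp (-(n : ℤ)) := by
      rw [map_pow, hπ, ← WithZero.exp_nsmul]
      congr 1
      simp
    have h2 : w ((x - y) / π ^ n) ≤ 1 := by
      rw [map_div₀, hπn]
      exact div_le_one_of_le₀ h1 zero_le
    obtain ⟨r, hr, h3⟩ := hR _ h2
    refine ⟨y + π ^ n * r, Finset.mem_image.2 ⟨(y, r), Finset.mem_product.2 ⟨hy, hr⟩, rfl⟩, ?_⟩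
    have h4 : x - (y + π ^ n * r) = π ^ n * ((x - y) / π ^ n - r) := by
      field_simp
      ring
    rw [h4, map_mul, hπn]
    refine (mul_le_mul' le_rfl h3).trans (le_of_eq ?_)
    rw [← WithZero.exp_add]
    congr 1
    push_cast
    ring

/-- classes modulo 2 -/
theorem mem_two [CharZero K] {x y : w.valuationSubring} :
    Ideal.Quotient.mk (Ideal.span {(2 : w.valuationSubring)}) x =
      Ideal.Quotient.mk (Ideal.span {(2 : w.valuationSubring)}) y ↔
    w ((x : K) - (y : K)) ≤ w 2 := by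
  rw [Ideal.Quotient.eq, Ideal.mem_span_singleton]
  constructor
  · rintro ⟨z, hz⟩
    have h1 : (x : K) - (y : K) = 2 * (z : K) := by
      have := congrArg (fun t : w.valuationSubring => (t : K)) hz
      exact this
    rw [h1, map_mul]
    calc w 2 * w (z : K) ≤ w 2 * 1 := mul_le_mul' le_rfl z.2
      _ = w 2 := mul_one _
  · intro h
    have h2 : (2 : K) ≠ 0 := two_ne_zero
    have h3 : w 2 ≠ 0 := (map_ne_zero w).2 h2
    have h4 : w (((x : K) - (y : K)) / 2) ≤ 1 := by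
      rw [map_div₀]
      exact div_le_one_of_le₀ h zero_le
    refine ⟨⟨_, h4⟩, ?_⟩
    apply Subtype.ext
    change (x : K) - (y : K) = 2 * (((x : K) - (y : K)) / 2)
    rw [mul_div_cancel₀ _ h2]

theorem two [CharZero K] (hK : IsLF w) : 0 < two w ∧
    (w 2 = 1 → two w = 1) ∧ ∃ c : Fin (two w) → K, (∀ i, w (c i) ≤ 1) ∧
    (∀ i j, w (c i - c j) ≤ w 2 → i = j) ∧ ∀ x : K, w x ≤ 1 → ∃ i, w (x - c i) ≤ w 2 := by
  classical
  have h2 : w (2 : K) ≠ 0 := (map_ne_zero w).2 two_ne_zero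
  have h2' : w (2 : K) ≤ 1 := by
    have : (2 : K) = 1 + 1 := by norm_num
    rw [this]
    exact w_add (by rw [map_one]) (by rw [map_one])
  obtain ⟨e, he⟩ : ∃ e : ℕ, w (2 : K) = WithZero.exp (-(e : ℤ)) := by
    obtain ⟨l, hl⟩ : ∃ l : ℤ, w (2 : K) = WithZero.exp l := ⟨_, (WithZero.exp_log h2).symm⟩
    rw [hl, ← WithZero.exp_zero, WithZero.exp_le_exp] at h2'
    refine ⟨(-l).toNat, ?_⟩
    rw [hl]
    congr 1
    omega
  obtain ⟨s, hs⟩ := fin hK e
  rw [← he] at hs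
  have hfin : Finite (w.valuationSubring ⧸ Ideal.span {(2 : w.valuationSubring)}) := by
    choose σ hσ using fun x : w.valuationSubring => hs x x.2
    refine Finite.of_injective (fun q => (⟨σ q.out, (hσ q.out).1⟩ : s)) fun q q' hq => ?_
    have h3 : σ q.out = σ q'.out := Subtype.ext_iff.1 hq
    have h4 := (hσ q.out).2
    have h5 := (hσ q'.out).2
    rw [h3] at h4
    have h6 := w_sub h4 h5
    rw [sub_sub_sub_cancel_right, ← mem_two] at h6
    rwa [Ideal.Quotient.mk_out, Ideal.Quotient.mk_out] at h6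
  have hpos : 0 < PF.two w := Nat.card_pos
  obtain ⟨ε⟩ : Nonempty (w.valuationSubring ⧸ Ideal.span {(2 : w.valuationSubring)} ≃
      Fin (PF.two w)) := ⟨Finite.equivFin _⟩
  have hc : ∃ c : Fin (PF.two w) → K, (∀ i, w (c i) ≤ 1) ∧
      (∀ i j, w (c i - c j) ≤ w 2 → i = j) ∧ ∀ x : K, w x ≤ 1 → ∃ i, w (x - c i) ≤ w 2 := by
    refine ⟨fun i => ((ε.symm i).out : K), fun i => (ε.symm i).out.2, fun i j hij => ?_,
      fun x hx => ?_⟩
    · have h3 := mem_two.2 hij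
      rw [Ideal.Quotient.mk_out, Ideal.Quotient.mk_out] at h3
      exact ε.symm.injective h3
    · refine ⟨ε (Ideal.Quotient.mk _ ⟨x, hx⟩), ?_⟩
      have h3 : w (((⟨x, hx⟩ : w.valuationSubring) : K) -
          ((ε.symm (ε (Ideal.Quotient.mk _ ⟨x, hx⟩))).out : K)) ≤ w 2 := by
        rw [← mem_two, Ideal.Quotient.mk_out, Equiv.symm_apply_apply]
      exact h3
  refine ⟨hpos, fun h1 => ?_, hc⟩
  obtain ⟨c, hc1, hc2, -⟩ := hc
  have hsub : ∀ i j : Fin (PF.two w), i = j := fun i j => by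
    refine hc2 i j ?_
    rw [h1]
    exact w_sub (hc1 i) (hc1 j)
  have hss : Subsingleton (Fin (PF.two w)) := ⟨hsub⟩
  have := Fin.subsingleton_iff_le_one.1 hss
  omega

end LFBM

open EVFM LFBM in
theorem specLFB (hCOO : SpecCOO) (hNRM : SpecNRM) (hADJ : SpecADJ) : SpecLFB where
  ring := by
    intro K _ w a b ha hb
    refine ⟨fun g h hg hh => ⟨?_, itg_mul hCOO ha hb hg hh, ?_⟩, itg_one hCOO, ?_, fun x hx => ?_,
      fun h hh => norm_le hCOO hNRM ha hb hh⟩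
    · rw [hCOO.ext g, hCOO.ext h, hCOO.add]
      exact itg_el hCOO (w_add (hg 0) (hh 0)) (w_add (hg 1) (hh 1)) (w_add (hg 2) (hh 2))
    · intro i
      have : cf i (-g) = - cf i g := by simp [cf]
      rw [this, Valuation.map_neg]
      exact hg i
    · rw [hCOO.thv]
      exact itg_el hCOO (by rw [map_zero]; exact zero_le) (by rw [map_one])
        (by rw [map_zero]; exact zero_le)
    · rw [hCOO.ofv]
      exact itg_el hCOO hx (by rw [map_zero]; exact zero_le) (by rw [map_zero]; exact zero_le)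
  uni := by
    intro K _ w a b h ha hb hh
    refine ⟨?_, fun hN => exists_inv hCOO hNRM hADJ ha hb hh hN⟩
    rintro ⟨h', hh', e⟩
    have h1 := congrArg w (congrArg (Algebra.norm K) e)
    rw [map_mul, map_mul, map_one, map_one] at h1
    refine le_antisymm (norm_le hCOO hNRM ha hb hh) ?_
    calc (1 : ℤᵐ⁰) = w (Algebra.norm K h) * w (Algebra.norm K h') := h1.symm
      _ ≤ w (Algebra.norm K h) * 1 := mul_le_mul' le_rfl (norm_le hCOO hNRM ha hb hh')
      _ = _ := mul_one _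
  evu := by
    intro K _ w a b h ha hb hh hN
    obtain ⟨h', hh', e⟩ := exists_inv hCOO hNRM hADJ ha hb hh hN
    refine ⟨IsUnit.of_mul_eq_one _ e, 1, h, h', isUnit_one, hh, hh', e, ?_⟩
    rw [one_pow, mul_one]
  fin := fun hK n => LFBM.fin hK n
  two := fun hK => LFBM.two hK

end Pool.Agent.Lib.MP_8cb858_nt.PF
end

section
/-!
# LTP: an explicit point on the twist (number fields)
-/
namespace Pool.Agent.Lib.MP_8cb858_nt.PF

open Polynomial NumberField IsDedekindDomain Pool.Agent.Lib.MP_8cb858_nt.SEL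
open scoped Classical WithZero

open NVUM ISEM

theorem specLTP (hHNS : SpecHNS) : SpecLTP := by
  intro K _ _ w a b t D hK h2 ht hrt hf hD hD1
  have hδ : w (D * (3 * t ^ 2 + a)) < 1 := by
    rw [mul_comm]
    exact mul_lt hf.le hD1
  have hs : w (D * (3 * t + D * (3 * t ^ 2 + a))) < 1 := by
    rw [mul_comm]
    exact mul_lt (add_le (mul_le (w3_le h2) ht) hδ.le) hD1
  obtain ⟨u, hu⟩ : ∃ u : K, u = 1 + D * (3 * t + D * (3 * t ^ 2 + a)) := ⟨_, rfl⟩
  have hwu : w u = 1 := by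
    rw [hu]
    exact unit_add (map_one w) hs
  obtain ⟨v, hv1, hv, -⟩ := hHNS.sqr u 1 hK h2 hwu (map_one w).le (by
    rw [hu, one_pow, sub_add_cancel_left, Valuation.map_neg]
    exact hs)
  refine ⟨t + D * (3 * t ^ 2 + a), D * (3 * t ^ 2 + a) * v, add_le ht hδ.le,
    mul_ne_zero (mul_ne_zero hD (ne_of_w hf)) (ne_of_w hv1), ?_⟩
  rw [mul_pow, hv, hu]
  linear_combination (-D) * hrt

end Pool.Agent.Lib.MP_8cb858_nt.PF
end

section
/-!
# Module LTQ: points with `x` not integral give the trivial class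

`D (x - θ) = (D x) (1 - θ / x)`; both factors are squares by HNA.
-/
namespace Pool.Agent.Lib.MP_8cb858_nt.PF

open Polynomial
open scoped WithZero

theorem specLTQ (hCOO : SpecCOO) (hHNA : SpecHNA) : SpecLTQ := by
  intro K _ _ w a b t D x y hLF h2 ha hb ht hroot hf hD hy he hx
  have hx0 : x ≠ 0 := by
    rintro rfl
    rw [map_zero] at hx
    exact absurd hx (not_lt.2 zero_le)
  have hxi : w x⁻¹ < 1 := by
    rw [map_inv₀]
    exact inv_lt_one_of_one_lt₀ hx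
  have h4 : w (4 : K) = 1 := by
    have : (4 : K) = 2 ^ 2 := by norm_num
    rw [this, map_pow, h2, one_pow]
  have h40 : (4 : K) ≠ 0 := by norm_num
  have hxe : w x⁻¹ ≤ WithZero.exp (-1 : ℤ) := by
    have h0 : w x⁻¹ ≠ 0 := by
      rw [Ne, Valuation.zero_iff]
      exact inv_ne_zero hx0
    rw [← WithZero.log_le_iff_le_exp h0]
    have h1 : WithZero.log (w x⁻¹) < 0 := by
      have h3 := hxi
      rw [← WithZero.exp_zero, ← WithZero.log_lt_iff_lt_exp h0] at h3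
      exact h3
    omega
  -- the square root of `1 - θ / x`
  have hz : ∀ i, w (cf i (el a b 0 (-(x⁻¹ / 4)) 0)) ≤ WithZero.exp (-((1 : ℕ) : ℤ)) := by
    intro i
    obtain ⟨c0, c1, c2⟩ := hCOO.co (a := a) (b := b) 0 (-(x⁻¹ / 4)) 0
    rcases i with _ | _ | _ | i
    · rw [c0, map_zero]
      exact zero_le
    · rw [c1, Valuation.map_neg, map_div₀, h4, div_one]
      simpa using hxe
    · rw [c2, map_zero]
      exact zero_le
    · rw [hCOO.big _ _ (by omega), map_zero]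
      exact zero_le
  obtain ⟨s, -, hs⟩ := hHNA.sq (w := w) (a := a) (b := b) _ 1 hLF ha hb le_rfl hz
  -- the square root of `1 + a / x ^ 2 + b / x ^ 3`
  have hz2 : w ((a * x⁻¹ ^ 2 + b * x⁻¹ ^ 3) / 4) < 1 := by
    rw [map_div₀, h4, div_one]
    refine lt_of_le_of_lt (w.map_add _ _) (max_lt ?_ ?_)
    · rw [map_mul, map_pow]
      calc w a * w x⁻¹ ^ 2 ≤ 1 * w x⁻¹ ^ 2 := mul_le_mul' ha le_rfl
        _ < 1 := by rw [one_mul]; exact pow_lt_one₀ zero_le hxi (by norm_num)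
    · rw [map_mul, map_pow]
      calc w b * w x⁻¹ ^ 3 ≤ 1 * w x⁻¹ ^ 3 := mul_le_mul' hb le_rfl
        _ < 1 := by rw [one_mul]; exact pow_lt_one₀ zero_le hxi (by norm_num)
  obtain ⟨c, -, hc⟩ := hHNA.one (w := w) _ hLF hz2
  have hc' : (1 + 2 * c) ^ 2 = 1 + a * x⁻¹ ^ 2 + b * x⁻¹ ^ 3 := by
    rw [hc]
    field_simp
    ring
  have hc0 : (1 + 2 * c) ≠ 0 := by
    intro h
    rw [h] at hc'
    have e1 : w (a * x⁻¹ ^ 2 + b * x⁻¹ ^ 3) < 1 := by
      have := hz2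
      rw [map_div₀, h4, div_one] at this
      exact this
    have e2 : a * x⁻¹ ^ 2 + b * x⁻¹ ^ 3 = -1 := by linear_combination -hc'
    rw [e2, Valuation.map_neg, map_one] at e1
    exact lt_irrefl _ e1
  have hDx : D * x = (y / (x * (1 + 2 * c))) ^ 2 := by
    have h1 : (x * (1 + 2 * c)) ^ 2 * (D * x) = y ^ 2 := by
      rw [mul_pow, hc', he]
      field_simp
    rw [div_pow, eq_div_iff (pow_ne_zero 2 (mul_ne_zero hx0 hc0))]
    linear_combination h1
  refine ⟨AdjoinRoot.of _ (y / (x * (1 + 2 * c))) * (1 + 2 * s), ?_⟩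
  have h3 : AdjoinRoot.of (fpol a b) (y / (x * (1 + 2 * c))) * (1 + 2 * s) *
      (AdjoinRoot.of (fpol a b) (y / (x * (1 + 2 * c))) * (1 + 2 * s)) =
      AdjoinRoot.of (fpol a b) (D * x) * (1 + 2 * s) ^ 2 := by
    rw [hDx, map_pow]
    ring
  have h5 : (4 : Lk a b) * el a b 0 (-(x⁻¹ / 4)) 0 = -(AdjoinRoot.of (fpol a b) x⁻¹ * th a b) := by
    have e4 : (4 : Lk a b) = AdjoinRoot.of (fpol a b) (4 : K) := by rw [map_ofNat]
    have e5 : AdjoinRoot.of (fpol a b) x⁻¹ * th a b = el a b 0 x⁻¹ 0 := by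
      rw [hCOO.ofv, hCOO.thv, hCOO.mul]
      congr 1 <;> ring
    have e6 : el a b 0 (-x⁻¹) 0 + el a b 0 x⁻¹ 0 = 0 := by
      rw [hCOO.add]
      simp [el]
    rw [e5, neg_eq_of_add_eq_zero_left e6, e4, hCOO.ofv, hCOO.mul]
    congr 1 <;> field_simp <;> ring
  rw [h3, hs, h5]
  have h6 : AdjoinRoot.of (fpol a b) x * AdjoinRoot.of (fpol a b) x⁻¹ = 1 := by
    rw [← map_mul, mul_inv_cancel₀ hx0, map_one]
  rw [map_mul]
  linear_combination (AdjoinRoot.of (fpol a b) D * th a b) * h6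

end Pool.Agent.Lib.MP_8cb858_nt.PF
end

section
/-!
# Module LVF: odd residue characteristic, no root modulo the maximal ideal (helper68)
-/
namespace Pool.Agent.Lib.MP_8cb858_nt.PF

open Polynomial NumberField IsDedekindDomain Pool.Agent.Lib.MP_8cb858_nt.SEL
open scoped Classical WithZero

namespace LVFM

variable {K : Type} [Field K] {w : Valuation K ℤᵐ⁰} {a b : K}

/-- roots are integral -/
theorem root_int (ha : w a ≤ 1) (hb : w b ≤ 1) {t : K} (ht : t ^ 3 + a * t + b = 0) : w t ≤ 1 := by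
  by_contra h
  rw [not_le] at h
  have h1 : t ^ 3 = -(a * t + b) := by linear_combination ht
  have h2 : w t ^ 3 ≤ w t := by
    rw [← map_pow, h1, Valuation.map_neg]
    refine (Valuation.map_add w _ _).trans (max_le ?_ (hb.trans h.le))
    rw [map_mul]
    calc w a * w t ≤ 1 * w t := mul_le_mul_left ha _
      _ = w t := one_mul _
  have h0 : w t ≠ 0 := by
    intro h0
    rw [h0] at h
    exact absurd h (by simp)
  have h3 : w t < w t ^ 3 := by
    have h4 : 1 < w t ^ 2 := one_lt_pow₀ h two_ne_zero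
    calc w t = 1 * w t := (one_mul _).symm
      _ < w t ^ 2 * w t := mul_lt_mul_of_pos_right h4 (zero_lt_iff.2 h0)
      _ = w t ^ 3 := (pow_succ (w t) 2).symm
  exact absurd h3 (not_lt.2 h2)

theorem no_root (ha : w a ≤ 1) (hb : w b ≤ 1) (h3 : T3 w a b) (t : K) :
    t ^ 3 + a * t + b ≠ 0 := by
  intro ht
  have h1 := h3 t (root_int ha hb ht)
  rw [ht, map_zero] at h1
  exact zero_ne_one h1

theorem dsc_ne [CharZero K] (ha : w a ≤ 1) (hb : w b ≤ 1) (h3 : T3 w a b) : dsc a b ≠ 0 := by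
  intro hd
  unfold dsc at hd
  by_cases h0 : a = 0
  · rw [h0] at hd
    have h1 : b ^ 2 = 0 := by
      have : (27 : K) * b ^ 2 = 0 := by linear_combination hd
      exact (mul_eq_zero.1 this).resolve_left (by norm_num)
    have h2 : b = 0 := by simpa using h1
    exact no_root ha hb h3 0 (by rw [h2]; ring)
  · apply no_root ha hb h3 (3 * b / a)
    field_simp
    linear_combination b * hd

end LVFM

open LVFM in
theorem specLVF (hEVI : SpecEVI) (hINV : SpecINV) (hLFB : SpecLFB) (hUNG : SpecUNG)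
    (hTWT : SpecTWT) : SpecLV := by
  intro K _ _ w a b α hw h2 ha hb h3 hα
  by_contra hns
  have h1 : InV (1 : Lk a b) := by
    have := hINV.sqr (1 : Lk a b) isUnit_one
    rwa [one_pow] at this
  obtain ⟨n, β, hβi, hβ, hn⟩ := hUNG K w a b 2 ![1, α] hw ha hb (by
    intro i
    fin_cases i
    · exact ⟨h1, hEVI K w a b 1 hw ha hb h3 h1⟩
    · exact ⟨hα, hEVI K w a b α hw ha hb h3 hα⟩) (by
    intro i j hij
    fin_cases i <;> fin_cases j
    · exact absurd rfl hij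
    · simpa using hns
    · simpa using hns
    · exact absurd rfl hij)
  rw [(hLFB.two hw).2.1 h2] at hn
  obtain ⟨t, -, ht⟩ := hTWT K a b (dsc_ne ha hb h3) n β hβi hβ
  have hn0 : 0 < n := by omega
  exact no_root ha hb h3 (t ⟨0, hn0⟩) (ht ⟨0, hn0⟩)

end Pool.Agent.Lib.MP_8cb858_nt.PF
end

section
/-!
# LZF: the trivial class is in every Kummer image
-/
set_option autoImplicit false

namespace Pool.Agent.Lib.MP_8cb858_nt.PF

open Polynomial
open scoped WithZero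

namespace LZFM

variable {K : Type} [Field K] {w : Valuation K ℤᵐ⁰}

theorem exists_pow (ϖ : K) (hϖ : w ϖ = WithZero.exp (-1 : ℤ)) (x : K) :
    ∃ N : ℕ, ∀ n : ℕ, N ≤ n → w (x * ϖ ^ n) ≤ 1 := by
  by_cases hx : x = 0
  · exact ⟨0, fun n _ => by rw [hx, zero_mul, map_zero]; exact zero_le⟩
  · have hwx : w x ≠ 0 := (map_ne_zero w).2 hx
    obtain ⟨m, hm⟩ : ∃ m : ℤ, w x = WithZero.exp m := ⟨_, (WithZero.exp_log hwx).symm⟩
    refine ⟨m.natAbs, fun n hn => ?_⟩
    rw [map_mul, map_pow, hm, hϖ, ← WithZero.exp_nsmul, ← WithZero.exp_add, ← WithZero.exp_zero,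
      WithZero.exp_le_exp]
    simp only [nsmul_eq_mul]
    omega

/-- `D = 1`, `a`, `b` integral -/
theorem one (hCOO : SpecCOO) (hNRM : SpecNRM) (hHNA : SpecHNA) [CharZero K] (hw : IsLF w) {a b : K}
    (ha : w a ≤ 1) (hb : w b ≤ 1) (α : Lk a b) (hα : IsSquare α) : Aff 1 α := by
  obtain ⟨ϖ, hϖ⟩ := hw.surj (WithZero.exp (-1 : ℤ))
  have hϖ0 : ϖ ≠ 0 := by
    rintro rfl
    rw [map_zero] at hϖ
    exact WithZero.exp_ne_zero hϖ.symm
  obtain ⟨N, hN⟩ := exists_pow ϖ hϖ (1 / (4 * ϖ))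
  obtain ⟨ζ, hζ⟩ : ∃ ζ : K, ζ = ϖ ^ (N + 1) := ⟨_, rfl⟩
  have hζ0 : ζ ≠ 0 := by rw [hζ]; exact pow_ne_zero _ hϖ0
  have hζ1 : w ζ < 1 := by
    rw [hζ, map_pow, hϖ]
    refine pow_lt_one₀ zero_le ?_ (by omega)
    rw [← WithZero.exp_zero, WithZero.exp_lt_exp]
    norm_num
  have hz : w (ζ ^ 2 / 4) ≤ WithZero.exp (-((1 : ℕ) : ℤ)) := by
    have h1 := hN (2 * (N + 1)) (by omega)
    have h2 : ζ ^ 2 / 4 = ϖ * (1 / (4 * ϖ) * ϖ ^ (2 * (N + 1))) := by
      rw [hζ, ← pow_mul, mul_comm (N + 1) 2]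
      field_simp
    rw [h2, map_mul, hϖ]
    push_cast
    exact mul_le_of_le_one_right' h1
  obtain ⟨y, -, hy⟩ := hHNA.sq (a := a) (b := b) (el a b 0 (-(ζ ^ 2 / 4)) 0) 1 hw ha hb le_rfl (by
    intro i
    obtain ⟨c0, c1, c2⟩ := hCOO.co (a := a) (b := b) 0 (-(ζ ^ 2 / 4)) 0
    match i with
    | 0 => rw [c0, map_zero]; exact zero_le
    | 1 => rw [c1, Valuation.map_neg]; exact hz
    | 2 => rw [c2, map_zero]; exact zero_le
    | i + 3 => rw [hCOO.big (i + 3) _ (by omega), map_zero]; exact zero_le)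
  set ρ : Lk a b := 1 + 2 * y with hρ
  have h4 : (4 : Lk a b) = AdjoinRoot.of (fpol a b) 4 := by rw [map_ofNat]
  have key : ρ ^ 2 = 1 - AdjoinRoot.of _ (ζ ^ 2) * th a b := by
    rw [hy, h4, hCOO.ofv, hCOO.ofv, hCOO.thv, hCOO.mul, hCOO.mul, eq_sub_iff_add_eq, add_assoc,
      hCOO.add]
    have e0 : el a b (0 : K) 0 0 = 0 := by
      unfold el
      rw [map_zero, zero_mul, zero_mul, add_zero, add_zero]
    have e4 : ∀ x y z : K, x = 0 → y = 0 → z = 0 → 1 + el a b x y z = 1 := by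
      rintro x y z rfl rfl rfl
      rw [e0, add_zero]
    apply e4
    · ring
    · ring
    · ring
  have key2 : AdjoinRoot.of (fpol a b) 1 * (AdjoinRoot.of _ (1 / ζ ^ 2) - th a b) =
      (AdjoinRoot.of _ (1 / ζ) * ρ) ^ 2 := by
    have e1 : AdjoinRoot.of (fpol a b) (1 / ζ ^ 2) = AdjoinRoot.of _ (1 / ζ) ^ 2 := by
      rw [← map_pow]; congr 1; rw [div_pow, one_pow]
    have e2 : AdjoinRoot.of (fpol a b) (1 / ζ) ^ 2 * AdjoinRoot.of _ (ζ ^ 2) = 1 := by
      rw [← map_pow, ← map_mul, ← map_one (AdjoinRoot.of (fpol a b))]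
      congr 1
      field_simp
    rw [mul_pow, key, map_one, one_mul, mul_sub, mul_one, ← mul_assoc, e2, one_mul, e1]
  have hN1 := congrArg (Algebra.norm K) key2
  rw [hNRM.lin, map_pow, map_mul, hNRM.sc, one_pow, one_mul] at hN1
  have hval : w (1 + (a * ζ ^ 4 + b * ζ ^ 6)) = 1 := by
    have h1 : w (a * ζ ^ 4 + b * ζ ^ 6) < 1 := by
      refine w.map_add_lt ?_ ?_
      · rw [map_mul, map_pow]
        exact mul_lt_one_of_nonneg_of_lt_one_right ha zero_le (pow_lt_one₀ zero_le hζ1 (by norm_num))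
      · rw [map_mul, map_pow]
        exact mul_lt_one_of_nonneg_of_lt_one_right hb zero_le (pow_lt_one₀ zero_le hζ1 (by norm_num))
    have h2 := w.map_add_eq_of_lt_right (x := a * ζ ^ 4 + b * ζ ^ 6) (y := 1) (by rw [map_one]; exact h1)
    rw [add_comm, h2, map_one]
  have hne : (1 / ζ) ^ 3 * Algebra.norm K ρ ≠ 0 := by
    intro h0
    rw [h0] at hN1
    have e : (1 / ζ ^ 2) ^ 3 + a * (1 / ζ ^ 2) + b = (1 / ζ ^ 6) * (1 + (a * ζ ^ 4 + b * ζ ^ 6)) := by
      field_simp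
      try ring
    rw [e, zero_pow two_ne_zero] at hN1
    rcases mul_eq_zero.1 hN1 with h | h
    · exact div_ne_zero one_ne_zero (pow_ne_zero _ hζ0) h
    · rw [h, map_zero] at hval
      exact zero_ne_one hval
  obtain ⟨δ, hδ⟩ := hα
  refine ⟨1 / ζ ^ 2, (1 / ζ) ^ 3 * Algebra.norm K ρ, hne, ?_, ?_⟩
  · rw [one_mul]
    exact hN1.symm
  · refine ⟨δ * (AdjoinRoot.of _ (1 / ζ) * ρ), ?_⟩
    rw [key2, hδ]
    ring

end LZFM

open LZFM in
theorem specLZF (hCOO : SpecCOO) (hNRM : SpecNRM) (hHNA : SpecHNA) (hTWD : SpecTWD)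
    (hAFI : SpecAFI) : SpecLZ := by
  intro K _ _ w a b D α hw hD hα
  obtain ⟨ϖ, hϖ⟩ := hw.surj (WithZero.exp (-1 : ℤ))
  have hϖ0 : ϖ ≠ 0 := by
    rintro rfl
    rw [map_zero] at hϖ
    exact WithZero.exp_ne_zero hϖ.symm
  obtain ⟨N₁, h1⟩ := exists_pow ϖ hϖ (a * D ^ 2)
  obtain ⟨N₂, h2⟩ := exists_pow ϖ hϖ (b * D ^ 3)
  obtain ⟨c, hc⟩ : ∃ c : K, c = ϖ ^ (N₁ + N₂) := ⟨_, rfl⟩
  have hc0 : c ≠ 0 := by rw [hc]; exact pow_ne_zero _ hϖ0
  have hE : D * c ^ 2 ≠ 0 := mul_ne_zero hD (pow_ne_zero _ hc0)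
  have ha : w (a * (D * c ^ 2) ^ 2) ≤ 1 := by
    have := h1 (4 * (N₁ + N₂)) (by omega)
    have e : a * (D * c ^ 2) ^ 2 = a * D ^ 2 * ϖ ^ (4 * (N₁ + N₂)) := by
      rw [hc]; ring
    rw [e]; exact this
  have hb : w (b * (D * c ^ 2) ^ 3) ≤ 1 := by
    have := h2 (6 * (N₁ + N₂)) (by omega)
    have e : b * (D * c ^ 2) ^ 3 = b * D ^ 3 * ϖ ^ (6 * (N₁ + N₂)) := by
      rw [hc]; ring
    rw [e]; exact this
  obtain ⟨κ, -, k1, k2, -⟩ := hTWD.1 K a b (D * c ^ 2) hE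
  have h3 : Aff (D * c ^ 2) α := (k1 α).1 (one hCOO hNRM hHNA hw ha hb (κ α) ((k2 α).2 hα))
  exact (hAFI.dd D (D * c ^ 2) α hD hE ⟨D * c, by ring⟩).2 h3

end Pool.Agent.Lib.MP_8cb858_nt.PF
end

section
/-!
# Module RTS: roots when `w(D') ≥ exp(-1)` (port of `PR/RTS.lean`)
-/
namespace Pool.Agent.Lib.MP_8cb858_nt.PF

open Polynomial
open scoped WithZero

namespace RTSM

variable {K : Type} [Field K] {w : Valuation K ℤᵐ⁰} {a b : K}

lemma ident {R : Type} [CommRing R] (A B x : R) :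
    4 * A ^ 3 + 27 * B ^ 2 = (x ^ 3 + A * x + B) * (27 * (x ^ 3 + A * x + B) -
      54 * (3 * x ^ 2 + A) * x + 108 * x ^ 3) + (3 * x ^ 2 + A) ^ 2 *
        (4 * (3 * x ^ 2 + A) - 9 * x ^ 2) := by
  ring

lemma mem {x : K} : x ∈ w.valuationSubring ↔ w x ≤ 1 := w.mem_valuationSubring_iff x

lemma nat_mem (n : ℕ) : w (n : K) ≤ 1 := mem.1 (natCast_mem _ n)

lemma ofNat_le (n : ℕ) [n.AtLeastTwo] : w (OfNat.ofNat n : K) ≤ 1 := by
  have := nat_mem (w := w) (OfNat.ofNat n)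
  simpa using this

lemma lt_one_le {x : K} (h : w x < 1) : w x ≤ WithZero.exp (-1 : ℤ) := by
  by_cases h0 : w x = 0
  · rw [h0]
    exact zero_le
  · rw [← WithZero.log_le_iff_le_exp h0]
    have h1 : WithZero.log (w x) < 0 := by
      rw [← WithZero.exp_zero, ← WithZero.log_lt_iff_lt_exp h0] at h
      exact h
    omega

lemma deriv_unit (ha : w a ≤ 1) (hb : w b ≤ 1) (hD : WithZero.exp (-1 : ℤ) ≤ w (dsc a b)) {x : K}
    (hx : w x ≤ 1) (h : w (x ^ 3 + a * x + b) ≤ WithZero.exp (-2 : ℤ)) :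
    w (3 * x ^ 2 + a) = 1 := by
  set O := w.valuationSubring with hO
  have hxO : x ∈ O := mem.2 hx
  have haO : a ∈ O := mem.2 ha
  have hbO : b ∈ O := mem.2 hb
  have hn : ∀ (n : ℕ) [n.AtLeastTwo], (OfNat.ofNat n : K) ∈ O := fun n _ => mem.2 (ofNat_le n)
  have hG : (3 * x ^ 2 + a) ∈ O := add_mem (mul_mem (hn 3) (pow_mem hxO 2)) haO
  have hF : (x ^ 3 + a * x + b) ∈ O := add_mem (add_mem (pow_mem hxO 3) (mul_mem haO hxO)) hbO
  by_contra hne
  have hlt : w (3 * x ^ 2 + a) < 1 := lt_of_le_of_ne (mem.1 hG) hne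
  have hle := lt_one_le hlt
  have h1 : w ((27 * (x ^ 3 + a * x + b) - 54 * (3 * x ^ 2 + a) * x + 108 * x ^ 3)) ≤ 1 :=
    mem.1 (add_mem (sub_mem (mul_mem (hn 27) hF) (mul_mem (mul_mem (hn 54) hG) hxO))
      (mul_mem (hn 108) (pow_mem hxO 3)))
  have h2 : w (4 * (3 * x ^ 2 + a) - 9 * x ^ 2) ≤ 1 :=
    mem.1 (sub_mem (mul_mem (hn 4) hG) (mul_mem (hn 9) (pow_mem hxO 2)))
  have h3 : w (dsc a b) ≤ WithZero.exp (-2 : ℤ) := by
    have e : dsc a b = 4 * a ^ 3 + 27 * b ^ 2 := rfl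
    rw [e, ident a b x]
    refine (w.map_add _ _).trans (max_le ?_ ?_)
    · rw [map_mul]
      calc w (x ^ 3 + a * x + b) * _ ≤ WithZero.exp (-2 : ℤ) * 1 := mul_le_mul' h h1
        _ = _ := mul_one _
    · rw [map_mul, map_pow]
      calc w (3 * x ^ 2 + a) ^ 2 * _ ≤ (WithZero.exp (-1 : ℤ)) ^ 2 * 1 :=
            mul_le_mul' (pow_le_pow_left' hle 2) h2
        _ = WithZero.exp (-2 : ℤ) := by
          rw [mul_one, pow_two, ← WithZero.exp_add]
          norm_num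
  have h4 := hD.trans h3
  rw [WithZero.exp_le_exp] at h4
  omega

end RTSM

open RTSM in
theorem specRTS (hHNS : SpecHNS) : SpecRTS := by
  intro K _ _ w a b hLF ha hb hD
  have hroot : ∀ t : K, t ^ 3 + a * t + b = 0 → w t ≤ 1 := by
    intro t ht
    by_contra h
    push Not at h
    have h0 : 0 < w t := lt_of_lt_of_le zero_lt_one h.le
    have e1 : w (t ^ 3) = w (a * t + b) := by
      have : t ^ 3 = -(a * t + b) := by linear_combination ht
      rw [this, Valuation.map_neg]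
    have e2 : w (a * t + b) ≤ w t := by
      refine (w.map_add _ _).trans (max_le ?_ (hb.trans h.le))
      rw [map_mul]
      calc w a * w t ≤ 1 * w t := mul_le_mul' ha le_rfl
        _ = w t := one_mul _
    rw [← e1, map_pow] at e2
    have e3 : w t < w t ^ 3 := by
      calc w t = w t ^ 1 := (pow_one _).symm
        _ < w t ^ 3 := pow_lt_pow_right₀ h (by norm_num)
    exact absurd e2 (not_le.2 e3)
  refine ⟨?_, ?_⟩
  · intro x hx hF
    have hu := deriv_unit ha hb hD hx hF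
    have hlt : w (x ^ 3 + a * x + b) < 1 := by
      refine lt_of_le_of_lt hF ?_
      rw [← WithZero.exp_zero, WithZero.exp_lt_exp]
      norm_num
    obtain ⟨t, ht, htr, htx⟩ := hHNS.cub a b x hLF ha hb hx hlt hu
    have hxt : w (x - t) < 1 := by rw [Valuation.map_sub_swap]; exact htx
    refine ⟨t, x ^ 2 + x * t + t ^ 2 + a, ht, htr, hxt, ?_, ?_⟩
    · have e : x ^ 2 + x * t + t ^ 2 + a = (-((x - t) * (2 * x + t))) + (3 * x ^ 2 + a) := by ring
      rw [e, ← hu]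
      apply Valuation.map_add_eq_of_lt_right
      rw [hu, Valuation.map_neg, map_mul]
      have h2 : w (2 * x + t) ≤ 1 :=
        mem.1 (add_mem (mul_mem (mem.2 (ofNat_le 2)) (mem.2 hx)) (mem.2 ht))
      calc w (x - t) * w (2 * x + t) ≤ w (x - t) * 1 := mul_le_mul' le_rfl h2
        _ < 1 := by rw [mul_one]; exact hxt
    · linear_combination htr
  · intro t ht
    have h1 := hroot t ht
    refine ⟨h1, deriv_unit ha hb hD h1 ?_⟩
    rw [ht, map_zero]
    exact zero_le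

end Pool.Agent.Lib.MP_8cb858_nt.PF
end

section
namespace Pool.Agent.Lib.MP_8cb858_nt.PF

open Polynomial NumberField IsDedekindDomain Pool.Agent.Lib.MP_8cb858_nt.SEL
open scoped Classical WithZero

open ITCM

namespace TWUM

/-- Multiplying by the square of a unit does not change squareness. -/
theorem sq_msq {R : Type} [CommRing R] (α γ : R) (hγ : IsUnit γ) :
    IsSquare (α * γ ^ 2) ↔ IsSquare α := by
  obtain ⟨u, rfl⟩ := hγ
  constructor
  · rintro ⟨x, hx⟩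
    refine ⟨x * ↑u⁻¹, ?_⟩
    have h1 : (u : R) * ↑u⁻¹ = 1 := Units.mul_inv u
    calc α = α * (u : R) ^ 2 * (↑u⁻¹ * ↑u⁻¹) := by
          have : α * (u : R) ^ 2 * (↑u⁻¹ * ↑u⁻¹) = α * ((u : R) * ↑u⁻¹) * ((u : R) * ↑u⁻¹) := by
            ring
          rw [this, h1, mul_one, mul_one]
      _ = x * x * (↑u⁻¹ * ↑u⁻¹) := by rw [hx]
      _ = x * ↑u⁻¹ * (x * ↑u⁻¹) := by ring
  · rintro ⟨x, hx⟩
    exact ⟨x * u, by rw [hx]; ring⟩

theorem sq_of_mul {K : Type} [Field K] {r n : K} (hr : IsSquare r) (hr0 : r ≠ 0)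
    (h : IsSquare (r * n)) : IsSquare n := by
  obtain ⟨ρ, rfl⟩ := hr
  obtain ⟨σ, hσ⟩ := h
  have hρ : ρ ≠ 0 := by
    rintro rfl
    exact hr0 (by ring)
  refine ⟨σ / ρ, ?_⟩
  field_simp
  rw [pow_two, pow_two, ← hσ]
  ring

variable {K : Type} [Field K] {w : Valuation K ℤᵐ⁰}

theorem core (hTOC : SpecTOC) (hTOI : SpecTOI) (hSQS : SpecSQS) {a b t : K} (hL : IsLF w)
    (h2 : w 2 = 1) (ha : w a ≤ 1) (hU : Unr w a b t) {α : Lk a b} {r z s : K} (hα : InV α)
    (hr : w r = 1) (hz : w z ≤ 1) (hs : w s ≤ 1) (hn : w (z ^ 2 - dq a t * s ^ 2) = 1)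
    (hco : Co t α r z s) : IsSquare α ↔ IsSquare r := by
  have h20 : (2 : K) ≠ 0 := two_ne h2
  have hf0 : 3 * t ^ 2 + a ≠ 0 := ne_of_one hU.un
  have hT := (hTOI K a b t α r z s h20 hU.rt hf0 hco).1
  constructor
  · intro h
    exact (hT.1 h).1
  · intro h
    have hN : IsSquare (r * (z ^ 2 - dq a t * s ^ 2)) := by
      rw [← hTOC.nrm h20 hU.rt hco]
      exact hα.2
    exact hT.2 ⟨h, hSQS.unr (dq a t) z s hL h2 (dq_le ha hU.ti) hU.ns hz hs hn
      (sq_of_mul h (ne_of_one hr) hN)⟩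

end TWUM

open TWUM

theorem specTWU (hHNS : SpecHNS) (hRES : SpecRES) (hTOC : SpecTOC) (hTOI : SpecTOI)
    (hSQS : SpecSQS) (hEVC : SpecEVC) (hEVA : SpecEVA) (hINV : SpecINV) : SpecTWU := by
  intro K _ _ w a b t hL h2 ha hb hU
  have h20 : (2 : K) ≠ 0 := two_ne h2
  have hf0 : 3 * t ^ 2 + a ≠ 0 := ne_of_one hU.un
  refine ⟨?_, ?_⟩
  · intro α β hα hβ hEα hEβ hsα hsβ
    obtain ⟨γ, r, z, s, hγ, hr, hz, hs, hn, hco⟩ :=
      (hEVC K w a b t α h2 ha hU.ti hU.rt hU.un).1 hEα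
    obtain ⟨γ', r', z', s', hγ', hr', hz', hs', hn', hco'⟩ :=
      (hEVC K w a b t β h2 ha hU.ti hU.rt hU.un).1 hEβ
    have hα' := (hINV.msq α γ hγ).2 hα
    have hβ' := (hINV.msq β γ' hγ').2 hβ
    have c1 := core hTOC hTOI hSQS hL h2 ha hU hα' hr hz hs hn hco
    have c2 := core hTOC hTOI hSQS hL h2 ha hU hβ' hr' hz' hs' hn' hco'
    rw [sq_msq α γ hγ] at c1
    rw [sq_msq β γ' hγ'] at c2
    have n1 : NS w r := by
      by_contra h
      exact hsα (c1.2 ((hHNS.iff r hL h2 hr).2 h))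
    have n2 : NS w r' := by
      by_contra h
      exact hsβ (c2.2 ((hHNS.iff r' hL h2 hr').2 h))
    have hrr : w (r * r') = 1 := by rw [map_mul, hr, hr', one_mul]
    have n3 : IsSquare (r * r') :=
      (hHNS.iff (r * r') hL h2 hrr).2 (hRES.mul r r' hL h2 hr hr' n1 n2)
    have hm := hTOC.mul h20 hU.rt hco hco'
    have hd : w (dq a t) ≤ 1 := dq_le ha hU.ti
    have hnn : w ((z * z' + dq a t * (s * s')) ^ 2 - dq a t * (z * s' + s * z') ^ 2) = 1 := by
      have : (z * z' + dq a t * (s * s')) ^ 2 - dq a t * (z * s' + s * z') ^ 2 =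
          (z ^ 2 - dq a t * s ^ 2) * (z' ^ 2 - dq a t * s' ^ 2) := by ring
      rw [this, map_mul, hn, hn', one_mul]
    have c3 := core hTOC hTOI hSQS hL h2 ha hU (hINV.mul _ _ hα' hβ') hrr
      (add_le (mul_le hz hz') (mul_le hd (mul_le hs hs')))
      (add_le (mul_le hz hs') (mul_le hs hz')) hnn hm
    have h4 : α * γ ^ 2 * (β * γ' ^ 2) = α * β * (γ * γ') ^ 2 := by ring
    rw [h4, sq_msq (α * β) (γ * γ') (hγ.mul hγ')] at c3
    exact c3.2 n3
  · intro α hα hEα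
    obtain ⟨γ, r, z, s, hγ, hr, hz, hs, hn, hco⟩ :=
      (hEVC K w a b t α h2 ha hU.ti hU.rt hU.un).1 hEα
    have hα' := (hINV.msq α γ hγ).2 hα
    have c1 := core hTOC hTOI hSQS hL h2 ha hU hα' hr hz hs hn hco
    rw [sq_msq α γ hγ] at c1
    have hrt : t ^ 3 + (RingHom.id K) a * t + (RingHom.id K) b = 0 := hU.rt
    have e1 : ev (RingHom.id K) t α * (ev (RingHom.id K) t γ) ^ 2 = r := by
      rw [← hTOC.evv hco, pow_two γ, hEVA.mul _ t _ _ hrt, hEVA.mul _ t _ _ hrt, pow_two]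
    rw [c1, ← e1]
    exact sq_msq _ _ (hEVA.unit _ t γ hrt hγ)

end Pool.Agent.Lib.MP_8cb858_nt.PF
end

section
namespace Pool.Agent.Lib.MP_8cb858_nt.PF

open Polynomial NumberField IsDedekindDomain Pool.Agent.Lib.MP_8cb858_nt.SEL
open scoped Classical WithZero

open ITCM TWUM

namespace TWRM

variable {K : Type} [Field K] {w : Valuation K ℤᵐ⁰}

/-- `NS` depends only on the class modulo the maximal ideal. -/
theorem ns_congr {u v : K} (h : w (v - u) < 1) (hu : NS w u) : NS w v := by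
  intro x hx
  have h1 := hu x hx
  have h2 : x ^ 2 - v = (x ^ 2 - u) - (v - u) := by ring
  rw [h2, Valuation.map_sub_eq_of_lt_left w (by rw [h1]; exact h)]
  exact h1

theorem ns_congr_iff {u v : K} (h : w (v - u) < 1) : NS w u ↔ NS w v := by
  refine ⟨ns_congr h, ns_congr ?_⟩
  rw [Valuation.map_sub_swap]
  exact h

theorem exp_lt : (WithZero.exp (-1 : ℤ) : ℤᵐ⁰) < 1 := by
  rw [← WithZero.exp_zero, WithZero.exp_lt_exp]
  norm_num

theorem mul_lt {x y : K} (hx : w x < 1) (hy : w y ≤ 1) : w (x * y) < 1 := by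
  rw [map_mul]
  exact lt_of_le_of_lt (mul_le_of_le_one_right' hy) hx

theorem core (hHNS : SpecHNS) (hTOC : SpecTOC) (hTOI : SpecTOI) (hSQS : SpecSQS) {a b t : K}
    (hL : IsLF w) (h2 : w 2 = 1) (hU : Ram w a b t) {α : Lk a b} {r z s : K} (hα : InV α)
    (hz : w z ≤ 1) (hs : w s ≤ 1) (hn : w (z ^ 2 - dq a t * s ^ 2) = 1)
    (hco : Co t α r z s) : w z = 1 ∧ (IsSquare α ↔ ¬ NS w z) := by
  have h20 : (2 : K) ≠ 0 := two_ne h2
  have hf0 : 3 * t ^ 2 + a ≠ 0 := ne_of_one hU.un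
  have hdl : w (dq a t) < 1 := by
    rw [hU.de]
    exact exp_lt
  have hds : w (dq a t * s ^ 2) < 1 := mul_lt hdl (pow_le hs 2)
  have hz1 : w z = 1 := by
    refine le_antisymm hz (not_lt.1 fun h => ?_)
    have h3 : w (z ^ 2) < 1 := by
      rw [pow_two]
      exact mul_lt h hz
    have h4 := Valuation.map_sub_lt w h3 hds
    exact absurd hn h4.ne
  have hT := (hTOI K a b t α r z s h20 hU.rt hf0 hco).1
  have hN : IsSquare (r * (z ^ 2 - dq a t * s ^ 2)) := by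
    rw [← hTOC.nrm h20 hU.rt hco]
    exact hα.2
  have hns : IsSquare (z ^ 2 - dq a t * s ^ 2) := by
    obtain ⟨y, -, hy, -⟩ := hHNS.sqr (z ^ 2 - dq a t * s ^ 2) z hL h2 hn hz (by
      have : z ^ 2 - (z ^ 2 - dq a t * s ^ 2) = dq a t * s ^ 2 := by ring
      rw [this]
      exact hds)
    exact ⟨y, by rw [← hy]; ring⟩
  have hrs : IsSquare r := by
    refine sq_of_mul hns (ne_of_one hn) ?_
    rw [mul_comm]
    exact hN
  refine ⟨hz1, ?_⟩
  rw [hT, ← hSQS.ram (dq a t) z s hL h2 hU.de hz1 hs]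
  exact and_iff_right hrs

end TWRM

open TWRM

theorem specTWR (hHNS : SpecHNS) (hRES : SpecRES) (hTOC : SpecTOC) (hTOI : SpecTOI)
    (hSQS : SpecSQS) (hEVC : SpecEVC) (hINV : SpecINV) : SpecTWR := by
  intro K _ _ w a b t hL h2 ha hb hU α β hα hβ hEα hEβ hsα hsβ
  have h20 : (2 : K) ≠ 0 := two_ne h2
  obtain ⟨γ, r, z, s, hγ, -, hz, hs, hn, hco⟩ :=
    (hEVC K w a b t α h2 ha hU.ti.le hU.rt hU.un).1 hEα
  obtain ⟨γ', r', z', s', hγ', -, hz', hs', hn', hco'⟩ :=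
    (hEVC K w a b t β h2 ha hU.ti.le hU.rt hU.un).1 hEβ
  have hα' := (hINV.msq α γ hγ).2 hα
  have hβ' := (hINV.msq β γ' hγ').2 hβ
  obtain ⟨z1, c1⟩ := TWRM.core hHNS hTOC hTOI hSQS hL h2 hU hα' hz hs hn hco
  obtain ⟨z2, c2⟩ := TWRM.core hHNS hTOC hTOI hSQS hL h2 hU hβ' hz' hs' hn' hco'
  rw [sq_msq α γ hγ] at c1
  rw [sq_msq β γ' hγ'] at c2
  have n1 : NS w z := by
    by_contra h
    exact hsα (c1.2 h)
  have n2 : NS w z' := by
    by_contra h
    exact hsβ (c2.2 h)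
  have n3 := hRES.mul z z' hL h2 z1 z2 n1 n2
  have hm := hTOC.mul h20 hU.rt hco hco'
  have hdl : w (dq a t) < 1 := by
    rw [hU.de]
    exact exp_lt
  have hnn : w ((z * z' + dq a t * (s * s')) ^ 2 - dq a t * (z * s' + s * z') ^ 2) = 1 := by
    have : (z * z' + dq a t * (s * s')) ^ 2 - dq a t * (z * s' + s * z') ^ 2 =
        (z ^ 2 - dq a t * s ^ 2) * (z' ^ 2 - dq a t * s' ^ 2) := by ring
    rw [this, map_mul, hn, hn', one_mul]
  obtain ⟨-, c3⟩ := TWRM.core hHNS hTOC hTOI hSQS hL h2 hU (hINV.mul _ _ hα' hβ')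
    (add_le (mul_le hz hz') (mul_le hdl.le (mul_le hs hs')))
    (add_le (mul_le hz hs') (mul_le hs hz')) hnn hm
  have h4 : α * γ ^ 2 * (β * γ' ^ 2) = α * β * (γ * γ') ^ 2 := by ring
  rw [h4, sq_msq (α * β) (γ * γ') (hγ.mul hγ')] at c3
  refine c3.2 ?_
  rwa [← ns_congr_iff (u := z * z')]
  have : z * z' + dq a t * (s * s') - z * z' = dq a t * (s * s') := by ring
  rw [this]
  exact mul_lt hdl (mul_le hs hs')

end Pool.Agent.Lib.MP_8cb858_nt.PF
end

section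
/-!
# TWT (port of `PR/TWT.lean`)

The elements `β ≠ 1` of `K[X]/(X^3 + a X + b)` with `β^2 = 1`, `N β = 1` and the roots of the polynomial.
-/
set_option autoImplicit false

namespace Pool.Agent.Lib.MP_8cb858_nt.PF

open Polynomial Pool.Agent.Lib.MP_8cb858_nt.SEL

namespace TWTM

variable {K : Type} [Field K] {a b : K}

/-- the coordinates of an element determine it -/
theorem ext_cf (hCOO : SpecCOO) {α β : Lk a b} (h0 : cf 0 α = cf 0 β) (h1 : cf 1 α = cf 1 β)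
    (h2 : cf 2 α = cf 2 β) : α = β := by
  rw [hCOO.ext α, hCOO.ext β, h0, h1, h2]

/-- coordinates of the equation `β^2 = 1` -/
theorem coords (hCOO : SpecCOO) {β : Lk a b} (h : β ^ 2 = 1) :
    cf 0 β ^ 2 - 2 * b * cf 1 β * cf 2 β = 1 ∧
    2 * cf 0 β * cf 1 β - 2 * a * cf 1 β * cf 2 β - b * cf 2 β ^ 2 = 0 ∧
    2 * cf 0 β * cf 2 β + cf 1 β ^ 2 - a * cf 2 β ^ 2 = 0 := by
  rw [pow_two] at h
  have h' : el a b (cf 0 β) (cf 1 β) (cf 2 β) * el a b (cf 0 β) (cf 1 β) (cf 2 β) =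
      el a b 1 0 0 := by
    rw [← hCOO.ext β, h, hCOO.one]
  rw [hCOO.mul] at h'
  obtain ⟨b0, b1, b2⟩ := hCOO.co (a := a) (b := b) 1 0 0
  rw [← h'] at b0 b1 b2
  obtain ⟨a0, a1, a2⟩ := hCOO.co (a := a) (b := b)
    (cf 0 β * cf 0 β - b * (cf 1 β * cf 2 β + cf 2 β * cf 1 β))
    (cf 0 β * cf 1 β + cf 1 β * cf 0 β - a * (cf 1 β * cf 2 β + cf 2 β * cf 1 β)
      - b * (cf 2 β * cf 2 β))
    (cf 0 β * cf 2 β + cf 1 β * cf 1 β + cf 2 β * cf 0 β - a * (cf 2 β * cf 2 β))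
  rw [a0] at b0
  rw [a1] at b1
  rw [a2] at b2
  refine ⟨?_, ?_, ?_⟩
  · linear_combination b0
  · linear_combination b1
  · linear_combination b2

theorem norm_neg (hNRM : SpecNRM) (β : Lk a b) :
    Algebra.norm K (-β) = - Algebra.norm K β := by
  have h := hNRM.sc (a := a) (b := b) (-1 : K)
  have h1 : (-β : Lk a b) = AdjoinRoot.of (fpol a b) (-1) * β := by
    rw [map_neg, map_one]
    ring
  rw [h1, map_mul, h]
  ring

theorem cf_neg (hCOO : SpecCOO) (β : Lk a b) : cf 0 (-β) = - cf 0 β ∧ cf 1 (-β) = - cf 1 β ∧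
    cf 2 (-β) = - cf 2 β := by
  have h : -β = el a b (- cf 0 β) (- cf 1 β) (- cf 2 β) := by
    conv_lhs => rw [hCOO.ext β]
    unfold el
    rw [map_neg, map_neg, map_neg]
    ring
  obtain ⟨h0, h1, h2⟩ := hCOO.co (a := a) (b := b) (- cf 0 β) (- cf 1 β) (- cf 2 β)
  rw [← h] at h0 h1 h2
  exact ⟨h0, h1, h2⟩

/-- the leading coordinate is not zero -/
theorem lead (hCOO : SpecCOO) (hNRM : SpecNRM) {β : Lk a b} (h : β ^ 2 = 1)
    (hN : Algebra.norm K β = 1) (h1 : β ≠ 1) : cf 2 β ≠ 0 := by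
  intro hw
  obtain ⟨_, _, e2⟩ := coords hCOO h
  have hs : cf 1 β = 0 := by
    rw [hw] at e2
    have : cf 1 β ^ 2 = 0 := by linear_combination e2
    exact pow_eq_zero_iff (two_ne_zero) |>.1 this
  have hb : β = AdjoinRoot.of (fpol a b) (cf 0 β) := by
    rw [hCOO.ofv]
    conv_lhs => rw [hCOO.ext β]
    rw [hw, hs]
  have h2 : cf 0 β ^ 3 = 1 := by
    rw [← hNRM.sc (a := a) (b := b), ← hb, hN]
  have h3 : cf 0 β ^ 2 = 1 := by
    obtain ⟨e0, _, _⟩ := coords hCOO h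
    rw [hw, hs] at e0
    linear_combination e0
  have h4 : cf 0 β = 1 := by linear_combination h2 - cf 0 β * h3
  apply h1
  rw [hb, h4, map_one]

/-- the root -/
theorem root [CharZero K] (hCOO : SpecCOO) {β : Lk a b} (h : β ^ 2 = 1) (hw : cf 2 β ≠ 0) :
    (cf 1 β / cf 2 β) ^ 3 + a * (cf 1 β / cf 2 β) + b = 0 := by
  obtain ⟨e0, e1, e2⟩ := coords hCOO h
  set r := cf 0 β
  set s := cf 1 β
  set w := cf 2 β
  have h1 : s ^ 3 + a * s * w ^ 2 + b * w ^ 3 = 0 := by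
    linear_combination s * e2 - w * e1
  field_simp
  linear_combination h1

/-- the square of the leading coordinate -/
theorem lead_sq [CharZero K] (hCOO : SpecCOO) {β : Lk a b} (h : β ^ 2 = 1) (hw : cf 2 β ≠ 0) :
    cf 2 β ^ 2 * (3 * (cf 1 β / cf 2 β) ^ 2 + a) ^ 2 = 4 := by
  obtain ⟨e0, e1, e2⟩ := coords hCOO h
  have hr := root hCOO h hw
  set r := cf 0 β
  set s := cf 1 β
  set w := cf 2 β
  obtain ⟨t, ht⟩ : ∃ t, t = s / w := ⟨_, rfl⟩
  have hs : s = t * w := by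
    rw [ht]
    field_simp
  rw [← ht] at hr ⊢
  rw [hs] at e0 e2
  have h2 : 2 * r = w * (a - t ^ 2) := by
    have h3 : w * (2 * r - w * (a - t ^ 2)) = 0 := by linear_combination e2
    rcases mul_eq_zero.1 h3 with h4 | h4
    · exact absurd h4 hw
    · linear_combination h4
  linear_combination 4 * e0 - (2 * r + w * (a - t ^ 2)) * h2 + 8 * t * w ^ 2 * hr

end TWTM

open TWTM in
/-- **TWT** -/
theorem specTWT (hCOO : SpecCOO) (hNRM : SpecNRM) : SpecTWT := by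
  intro K _ _ a b _ m β hb h
  refine ⟨fun i => cf 1 (β i) / cf 2 (β i), fun i j hij => ?_, fun i => ?_⟩
  · obtain ⟨i1, i2, i3⟩ := h i
    obtain ⟨j1, j2, j3⟩ := h j
    have hwi := lead hCOO hNRM i1 i2 i3
    have hwj := lead hCOO hNRM j1 j2 j3
    have hi := lead_sq hCOO i1 hwi
    have hj := lead_sq hCOO j1 hwj
    obtain ⟨_, _, ei⟩ := coords hCOO i1
    obtain ⟨_, _, ej⟩ := coords hCOO j1
    have hij' : cf 1 (β i) / cf 2 (β i) = cf 1 (β j) / cf 2 (β j) := hij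
    obtain ⟨t, ht⟩ : ∃ t, t = cf 1 (β j) / cf 2 (β j) := ⟨_, rfl⟩
    rw [hij', ← ht] at hi
    rw [← ht] at hj
    have hsi : cf 1 (β i) = t * cf 2 (β i) := by
      rw [ht, ← hij']
      field_simp
    have hsj : cf 1 (β j) = t * cf 2 (β j) := by
      rw [ht]
      field_simp
    have hG : (3 * t ^ 2 + a) ^ 2 ≠ 0 := by
      intro h0
      rw [h0, mul_zero] at hi
      norm_num at hi
    have hww : cf 2 (β i) ^ 2 = cf 2 (β j) ^ 2 := mul_right_cancel₀ hG (hi.trans hj.symm)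
    have hri : 2 * cf 0 (β i) = cf 2 (β i) * (a - t ^ 2) := by
      have h3 : cf 2 (β i) * (2 * cf 0 (β i) - cf 2 (β i) * (a - t ^ 2)) = 0 := by
        rw [hsi] at ei
        linear_combination ei
      rcases mul_eq_zero.1 h3 with h4 | h4
      · exact absurd h4 hwi
      · linear_combination h4
    have hrj : 2 * cf 0 (β j) = cf 2 (β j) * (a - t ^ 2) := by
      have h3 : cf 2 (β j) * (2 * cf 0 (β j) - cf 2 (β j) * (a - t ^ 2)) = 0 := by
        rw [hsj] at ej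
        linear_combination ej
      rcases mul_eq_zero.1 h3 with h4 | h4
      · exact absurd h4 hwj
      · linear_combination h4
    have h2 : (2 : K) ≠ 0 := two_ne_zero
    rcases sq_eq_sq_iff_eq_or_eq_neg.1 hww with h5 | h5
    · refine hb (ext_cf hCOO ?_ ?_ h5)
      · apply mul_left_cancel₀ h2
        rw [hri, hrj, h5]
      · rw [hsi, hsj, h5]
    · exfalso
      obtain ⟨n0, n1, n2⟩ := cf_neg hCOO (β j)
      have h6 : β i = - β j := by
        refine ext_cf hCOO ?_ ?_ ?_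
        · apply mul_left_cancel₀ h2
          rw [n0, hri, h5]
          linear_combination hrj
        · rw [n1, hsi, hsj, h5]
          ring
        · rw [n2, h5]
      rw [h6, TWTM.norm_neg hNRM, j2] at i2
      norm_num at i2
  · obtain ⟨i1, i2, i3⟩ := h i
    exact root hCOO i1 (lead hCOO hNRM i1 i2 i3)

end Pool.Agent.Lib.MP_8cb858_nt.PF
end
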