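import Pool.Agent.Lib.MP_8cb858_nt.PF.Defs

/-!
# The interface between the blocks: Poonen-Rains up to epsilon over every number field, in every
# residue class

`F` is a number field, `n = [F:ℚ]`, `f = X^3 + a X + b`, `D' = dsc a b = 4 a^3 + 27 b^2`.
Plan: /team-store/MP_8cb858_F_plan.txt. Linear algebra: `PR.SpecLAL` (proved, `PR/LAL.lean`); Markov
chain: `PR/MK.lean`.
-/

namespace Pool.Agent.Lib.MP_8cb858_nt.PF

open Polynomial NumberField IsDedekindDomain Pool.Agent.Lib.MP_8cb858_nt.SEL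
open scoped Classical WithZero

/-! ## Local statements, `(K, w)` an abstract local field -/

/-- **LG** (part A). Unit classes = Kummer classes; odd residue characteristic, `w(D') ≥ exp (-1)`,
`D` a unit. -/
def SpecLG : Prop :=
  ∀ (K : Type) [Field K] [CharZero K] (w : Valuation K ℤᵐ⁰) (a b D : K) (α : Lk a b), IsLF w →
    w 2 = 1 → w a ≤ 1 → w b ≤ 1 → WithZero.exp (-1 : ℤ) ≤ w (dsc a b) → w D = 1 → InV α →
    (Ev w α ↔ Aff D α)

/-- **LV** (part A). Odd residue characteristic, `f` irreducible modulo the maximal ideal: all classes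
are trivial. -/
def SpecLV : Prop :=
  ∀ (K : Type) [Field K] [CharZero K] (w : Valuation K ℤᵐ⁰) (a b : K) (α : Lk a b), IsLF w →
    w 2 = 1 → w a ≤ 1 → w b ≤ 1 → T3 w a b → InV α → IsSquare α

/-- **LZ** (part A). The trivial class is a Kummer class. -/
def SpecLZ : Prop :=
  ∀ (K : Type) [Field K] [CharZero K] (w : Valuation K ℤᵐ⁰) (a b D : K) (α : Lk a b), IsLF w →
    D ≠ 0 → IsSquare α → Aff D α

/-- **I2** (part A). The index of the Kummer classes at a place over 2, `f` irreducible modulo the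
maximal ideal. -/
def SpecI2 : Prop :=
  ∀ (K : Type) [Field K] [CharZero K] (w : Valuation K ℤᵐ⁰) (a b : K), IsLF w →
    w 2 < 1 → w a ≤ 1 → w b ≤ 1 → T3 w a b → dsc a b ≠ 0 →
    ∃ c : Lk a b → Fin (two w), ∀ α β : Lk a b, InV α → InV β → c α = c β → Aff 1 (α * β)

/-- **IX** (part A). The index of the Kummer classes at an arbitrary finite place. -/
def SpecIX : Prop :=
  ∀ (K : Type) [Field K] [CharZero K] (w : Valuation K ℤᵐ⁰) (a b : K), IsLF w →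
    w a ≤ 1 → w b ≤ 1 → dsc a b ≠ 0 →
    ∃ c : Lk a b → Fin (two w * (1 + Nat.card {t : K // t ^ 3 + a * t + b = 0})),
      ∀ α β : Lk a b, InV α → InV β → c α = c β → Aff 1 (α * β)

/-- **KML** (part A). The Kummer classes form a group, at an arbitrary finite place. -/
def SpecKML : Prop :=
  ∀ (K : Type) [Field K] [CharZero K] (w : Valuation K ℤᵐ⁰) (a b : K) (α β : Lk a b), IsLF w →
    w a ≤ 1 → w b ≤ 1 → dsc a b ≠ 0 → InV α → InV β → Aff 1 α → Aff 1 β → Aff 1 (α * β)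

/-- **SQK** (part A). Natural numbers `≡ 1 mod 8k` are squares at the places dividing `k`. -/
def SpecSQK : Prop :=
  ∀ (K : Type) [Field K] [CharZero K] (w : Valuation K ℤᵐ⁰) (k m : ℕ), IsLF w →
    w (k : K) < 1 → m % (8 * k) = 1 → IsSquare (m : K)

/-- **SQ2** (part A). Natural numbers `≡ 1 mod 8` are squares at the places over 2. -/
def SpecSQ2 : Prop :=
  ∀ (K : Type) [Field K] [CharZero K] (w : Valuation K ℤᵐ⁰) (m : ℕ), IsLF w →
    w 2 < 1 → m % 8 = 1 → IsSquare (m : K)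

/-- **NF** (part A). The completions are local fields; the number of elements of `O/2` over 2;
roots modulo places. -/
structure SpecNF : Prop where
  lf : ∀ (F : Type) [Field F] [NumberField F] (v : HeightOneSpectrum (𝓞 F)), IsLF (vv v)
  twm : ∀ (F : Type) [Field F] [NumberField F] (M : Finset (HeightOneSpectrum (𝓞 F))),
    (∀ v : HeightOneSpectrum (𝓞 F), (2 : 𝓞 F) ∈ v.asIdeal → v ∈ M) →
    ∏ v ∈ M, two (vv v) = 2 ^ Module.finrank ℚ F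
  two : ∀ (F : Type) [Field F] [NumberField F], ∃ S : Finset (HeightOneSpectrum (𝓞 F)),
    (∀ v, v ∈ S ↔ (2 : 𝓞 F) ∈ v.asIdeal) ∧ ∏ v ∈ S, two (vv v) = 2 ^ Module.finrank ℚ F
  int : ∀ (F : Type) [Field F] [NumberField F] (v : HeightOneSpectrum (𝓞 F)) (x : 𝓞 F) (k : ℕ),
    vv v (algebraMap F (v.adicCompletion F) (x : F)) ≤ 1 ∧
    (x ∈ v.asIdeal ^ k ↔
      vv v (algebraMap F (v.adicCompletion F) (x : F)) ≤ WithZero.exp (-(k : ℤ)))
  dense : ∀ (F : Type) [Field F] [NumberField F] (v : HeightOneSpectrum (𝓞 F))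
    (x : v.adicCompletion F), vv v x ≤ 1 →
    ∃ y : 𝓞 F, vv v (x - algebraMap F (v.adicCompletion F) (y : F)) < 1
  t3 : ∀ (F : Type) [Field F] [NumberField F] (v : HeightOneSpectrum (𝓞 F)) (a b : 𝓞 F),
    T3 (vv v) (algebraMap F (v.adicCompletion F) (a : F)) (algebraMap F (v.adicCompletion F) (b : F)) ↔
      ∀ x : 𝓞 F, x ^ 3 + a * x + b ∉ v.asIdeal
  t12 : ∀ (F : Type) [Field F] [NumberField F] (v : HeightOneSpectrum (𝓞 F)) (a b : 𝓞 F),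
    T12 (vv v) (algebraMap F (v.adicCompletion F) (a : F)) (algebraMap F (v.adicCompletion F) (b : F)) ↔
      ∀ x : 𝓞 F, x ^ 2 + dsc a b ∉ v.asIdeal

/-- **LS** (part B). The local structure at the active places and at the bad places. -/
def SpecLS : Prop :=
  ∀ (K : Type) [Field K] [CharZero K] (w : Valuation K ℤᵐ⁰) (a b : K), IsLF w →
    w 2 = 1 → w 3 = 1 → w a ≤ 1 → w b ≤ 1 → dsc a b ≠ 0 →
    (T12 w a b ∨ w (dsc a b) = WithZero.exp (-1 : ℤ)) →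
    PR.Hyp (M := Lk a b) InV (Ev w) Iso

/-- **LT** (part B). The Kummer classes of a ramified twist. -/
def SpecLT : Prop :=
  ∀ (K : Type) [Field K] [CharZero K] (w : Valuation K ℤᵐ⁰) (a b D : K) (α : Lk a b), IsLF w →
    w 2 = 1 → w 3 = 1 → w a ≤ 1 → w b ≤ 1 → dsc a b ≠ 0 → T12 w a b →
    w D = WithZero.exp (-1 : ℤ) → InV α → (Aff D α ↔ IsSquare α ∨ (¬ Ev w α ∧ Iso α))

/-- **LR** (part B). A unit class is trivial iff its value at the root `t` is a square; there is a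
root, and it is simple modulo the maximal ideal. -/
def SpecLR : Prop :=
  ∀ (K : Type) [Field K] [CharZero K] (w : Valuation K ℤᵐ⁰) (a b : K), IsLF w →
    w 2 = 1 → w 3 = 1 → w a ≤ 1 → w b ≤ 1 → dsc a b ≠ 0 →
    (T12 w a b ∨ w (dsc a b) = WithZero.exp (-1 : ℤ)) →
    (∃ t : K, w t ≤ 1 ∧ t ^ 3 + a * t + b = 0 ∧ w (3 * t ^ 2 + a) = 1) ∧
    (T12 w a b → ∀ (t : K) (α : Lk a b), t ^ 3 + a * t + b = 0 → InV α → Ev w α →
      (IsSquare α ↔ IsSquare (ev (RingHom.id K) t α)))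

/-- **LI** (part B). The infinite places: all classes are trivial (`a > 0` at the real places). -/
def SpecLI : Prop :=
  ∀ (F : Type) [Field F] [NumberField F] (v : InfinitePlace F) (a b D : F)
    (α : Lk (algebraMap F v.Completion a) (algebraMap F v.Completion b)),
    (v.IsReal → 0 < (v.embedding a).re) → dsc a b ≠ 0 → D ≠ 0 → InV α →
    IsSquare α ∧ Aff (algebraMap F v.Completion D) α ∧ Iso α

/-! ## Global statements -/

/-- **REC** (block R). Reciprocity: if the ternary form of a class is isotropic at all places outside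
a finite set `Q` of unramified places of degree one over different prime numbers, it is anisotropic at
an even number of places of `Q`. -/
def SpecREC : Prop :=
  ∀ (F : Type) [Field F] [NumberField F] (a b : F) (α : Lk a b)
    (Q : Finset (HeightOneSpectrum (𝓞 F))), dsc a b ≠ 0 → InV α →
    (∀ v ∈ Q, (nv v).Prime ∧ nv v % 4 = 1 ∧ (nv v : 𝓞 F) ∉ v.asIdeal ^ 2) →
    (∀ v ∈ Q, ∀ w ∈ Q, nv v = nv w → v = w) →
    (∀ v : HeightOneSpectrum (𝓞 F), v ∉ Q → Iso (up (v.adicCompletion F) α)) →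
    (∀ v : InfinitePlace F, Iso (up v.Completion α)) →
    Even (Q.filter (fun v => ¬ Iso (up (v.adicCompletion F) α))).card

/-- **SU** (part C). Many global classes which are unit classes outside `S` and `M`. `M` contains the
places over 2; at the places of `M` nothing is assumed; `nr a b v` = number of roots of `f` in `F_v`. -/
def SpecSU : Prop :=
  ∀ (F : Type) [Field F] [NumberField F] (a b : 𝓞 F) (S M : Finset (HeightOneSpectrum (𝓞 F))),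
    (∀ v : InfinitePlace F, v.IsReal → 0 < (v.embedding (a : F)).re) → dsc a b ≠ 0 →
    (∃ w : HeightOneSpectrum (𝓞 F), ∀ x : 𝓞 F, x ^ 3 + a * x + b ∉ w.asIdeal) →
    (∀ v : HeightOneSpectrum (𝓞 F), (2 : 𝓞 F) ∈ v.asIdeal → v ∈ M) → (∀ v ∈ S, v ∉ M) →
    (∀ v : HeightOneSpectrum (𝓞 F), dsc a b ∈ v.asIdeal → v ∈ S ∨ v ∈ M) →
    (∀ v ∈ S, ∃ x : 𝓞 F, x ^ 3 + a * x + b ∈ v.asIdeal ∧ 3 * x ^ 2 + a ∉ v.asIdeal) →
    ∃ G : Finset (Lk (a : F) (b : F)),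
      2 ^ (Module.finrank ℚ F + S.card) * ∏ v ∈ M, (1 + nr a b v) ≤ G.card ∧
      (∀ α ∈ G, InV α ∧ ∀ v : HeightOneSpectrum (𝓞 F), v ∉ S → v ∉ M →
        Ev (vv v) (up (v.adicCompletion F) α)) ∧
      ∀ α ∈ G, ∀ β ∈ G, α ≠ β → ¬ IsSquare (α * β)

/-- **BR** (part D). The 2-Selmer group in terms of `L`. -/
structure SpecBR : Prop where
  sel : ∀ {F : Type} [Field F] [NumberField F] {a b D : F}, dsc a b ≠ 0 → D ≠ 0 →
    ∀ (α : Lk a b) (z : Sel 2 (cur a b D)), Rep D α z → α ∈ SelSet a b D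
  ex : ∀ {F : Type} [Field F] [NumberField F] {a b D : F}, dsc a b ≠ 0 → D ≠ 0 →
    ∀ α ∈ SelSet a b D, ∃ z : Sel 2 (cur a b D), Rep D α z
  uni : ∀ {F : Type} [Field F] [NumberField F] {a b D : F}, dsc a b ≠ 0 → D ≠ 0 →
    ∀ (α : Lk a b) (z w : Sel 2 (cur a b D)), Rep D α z → Rep D α w → z = w
  surj : ∀ {F : Type} [Field F] [NumberField F] {a b D : F}, dsc a b ≠ 0 → D ≠ 0 →
    ∀ z : Sel 2 (cur a b D), ∃ α : Lk a b, Rep D α z
  inj : ∀ {F : Type} [Field F] [NumberField F] {a b D : F}, dsc a b ≠ 0 → D ≠ 0 →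
    ∀ (α β : Lk a b) (z : Sel 2 (cur a b D)), Rep D α z → Rep D β z → IsSquare (α * β)
  mul : ∀ {F : Type} [Field F] [NumberField F] {a b D : F}, dsc a b ≠ 0 → D ≠ 0 →
    ∀ (α β : Lk a b) (z w : Sel 2 (cur a b D)), Rep D α z → Rep D β w → Rep D (α * β) (z + w)
  sqr : ∀ {F : Type} [Field F] [NumberField F] {a b D : F}, dsc a b ≠ 0 → D ≠ 0 →
    ∀ (α γ : Lk a b) (z : Sel 2 (cur a b D)), IsUnit γ → Rep D α z → Rep D (α * γ ^ 2) z

section cN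

variable {F : Type} [Field F] [NumberField F]

/-- The twist `E^D`, `D` a natural number. -/
noncomputable abbrev cN (a b : 𝓞 F) (D : ℕ) : WeierstrassCurve F := cur (a : F) (b : F) (D : F)

/-- `Triv` for `E^D`. -/
abbrev TrN {a b : 𝓞 F} (D : ℕ) (v : HeightOneSpectrum (𝓞 F)) (z : Sel 2 (cN a b D)) : Prop :=
  Triv (a := (a : F)) (b := (b : F)) (D : F) v z

end cN

/-- **TRA** (part E). Structure of the Selmer groups of the twists; `Triv` is given by a character. -/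
def SpecTRA : Prop :=
  ∀ (F : Type) [Field F] [NumberField F] (k : ℕ) (cl : 𝓞 F × 𝓞 F)
    (Q P T : Finset (HeightOneSpectrum (𝓞 F))) (m : ℕ) (a b : 𝓞 F), 0 < k → 6 ∣ k → Act k Q →
    Cmp k Q P → Neu k P m → (a, b) ∈ Fam k cl Q P → T ⊆ Q →
    Finite (Sel 2 (cN a b (m * pr T))) ∧ (∀ z : Sel 2 (cN a b (m * pr T)), z + z = 0) ∧
    ∀ v ∈ Q, v ∉ T → ∀ z w : Sel 2 (cN a b (m * pr T)),
      TrN (m * pr T) v (z + w) ↔ (TrN (m * pr T) v z ↔ TrN (m * pr T) v w)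

/-- **STP** (part E). The change of the Selmer group under twisting, for `(a, b)` such that no
nonzero Selmer class of `E` has trivial localisations at all places of `Q`. Neutral primes do not change
the Selmer group. -/
def SpecSTP : Prop :=
  ∀ (F : Type) [Field F] [NumberField F] (k : ℕ) (cl : 𝓞 F × 𝓞 F)
    (Q P : Finset (HeightOneSpectrum (𝓞 F))) (m : ℕ) (a b : 𝓞 F), 0 < k → 6 ∣ k → Act k Q →
    Cmp k Q P → Neu k P m → (a, b) ∈ Fam k cl Q P →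
    (∀ z : Sel 2 (cN a b 1), (∀ v ∈ Q, TrN 1 v z) → z = 0) →
    (∀ T ⊆ Q, Nat.card (Sel 2 (cN a b (m * pr T))) = Nat.card (Sel 2 (cN a b (1 * pr T)))) ∧
    ∀ T ⊆ Q, ∀ v ∈ Q, v ∉ T →
      ((∀ z : Sel 2 (cN a b (m * pr T)), TrN (m * pr T) v z) →
        Nat.card (Sel 2 (cN a b (m * pr (insert v T)))) = 2 * Nat.card (Sel 2 (cN a b (m * pr T)))) ∧
      (¬ (∀ z : Sel 2 (cN a b (m * pr T)), TrN (m * pr T) v z) →
        2 * Nat.card (Sel 2 (cN a b (m * pr (insert v T)))) = Nat.card (Sel 2 (cN a b (m * pr T))))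

/-- **FM** (block FM). First moment with patterns in boxes of all shapes; `C`, `P0` depend on `F`
only. `Z` is a set of patterns on `Q'`. -/
def SpecFM : Prop :=
  ∀ (F : Type) [Field F] [NumberField F], ∃ (C : ℝ) (P0 : ℕ), 0 < C ∧
    ∀ (Q Q' P : Finset (HeightOneSpectrum (𝓞 F))) (D : ℕ)
      (Z : Finset (Finset (HeightOneSpectrum (𝓞 F)))), 0 < D →
    (∀ v ∈ Q, v ∉ P) → (∀ v ∈ Q ∪ P, P0 < nv v ∧ (D : 𝓞 F) ∉ v.asIdeal) → Q' ⊆ Q →
    (∀ z ∈ Z, z ⊆ Q') →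
    ∃ R0 : ℝ, ∀ ρ : InfinitePlace F → ℝ, (∀ v, R0 ≤ ρ v) →
      {z : (Σ q : 𝓞 F × 𝓞 F, Sel 2 (cN q.1 q.2 D)) | z.1 ∈ Bx F ρ ∧
        (∀ w ∈ P, ∀ x : 𝓞 F, x ^ 3 + z.1.1 * x + z.1.2 ∉ w.asIdeal) ∧
        (∀ v ∈ Q, ∀ x : 𝓞 F, x ^ 2 + dsc z.1.1 z.1.2 ∉ v.asIdeal) ∧ z.2 ≠ 0 ∧
        Q'.filter (fun v => ¬ TrN D v z.2) ∈ Z}.Finite ∧
      ({z : (Σ q : 𝓞 F × 𝓞 F, Sel 2 (cN q.1 q.2 D)) | z.1 ∈ Bx F ρ ∧
        (∀ w ∈ P, ∀ x : 𝓞 F, x ^ 3 + z.1.1 * x + z.1.2 ∉ w.asIdeal) ∧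
        (∀ v ∈ Q, ∀ x : 𝓞 F, x ^ 2 + dsc z.1.1 z.1.2 ∉ v.asIdeal) ∧ z.2 ≠ 0 ∧
        Q'.filter (fun v => ¬ TrN D v z.2) ∈ Z}.ncard : ℝ) ≤
        C * (D : ℝ) ^ (5 * Module.finrank ℚ F) * ((Z.card : ℝ) / 2 ^ Q'.card) *
          (∏ v ∈ Q, (1 + 1 / (nv v : ℝ)) ^ 2 / 2) * (∏ v ∈ P, (1 + 1 / (nv v : ℝ)) ^ 2 / 3) *
          vol ρ ^ 5

/-- **DEN** (block DEN). The size of the family in boxes of all shapes. `c` depends on `F`, `k`; in
`ann` the constant `C` depends on `F` only. -/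
structure SpecDEN : Prop where
  fin : ∀ (F : Type) [Field F] [NumberField F] (ρ : InfinitePlace F → ℝ), (Bx F ρ).Finite
  all : ∀ (F : Type) [Field F] [NumberField F], ∃ C : ℝ, 0 < C ∧
    ∀ ρ : InfinitePlace F → ℝ, (∀ v, 1 ≤ ρ v) → ((Bx F ρ).ncard : ℝ) ≤ C * vol ρ ^ 5
  low : ∀ (F : Type) [Field F] [NumberField F] (k : ℕ), 0 < k → 6 ∣ k → ∃ c : ℝ, 0 < c ∧
    ∀ (cl : 𝓞 F × 𝓞 F) (Q P : Finset (HeightOneSpectrum (𝓞 F))),
      (∀ v ∈ Q ∪ P, (k : 𝓞 F) ∉ v.asIdeal) → (∀ v ∈ Q, v ∉ P) →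
      ∃ R0 : ℝ, ∀ ρ : InfinitePlace F → ℝ, (∀ v, R0 ≤ ρ v) →
        c * (∏ v ∈ Q, dQ v) * (∏ v ∈ P, dP v) * vol ρ ^ 5 ≤ ((Fam k cl Q P ∩ Bx F ρ).ncard : ℝ)
  ann : ∀ (F : Type) [Field F] [NumberField F], ∃ C : ℝ, 0 < C ∧
    ∀ (k : ℕ) (cl : 𝓞 F × 𝓞 F) (Q P : Finset (HeightOneSpectrum (𝓞 F))) (ε l : ℝ), 0 < k → 6 ∣ k →
      (∀ v ∈ Q ∪ P, (k : 𝓞 F) ∉ v.asIdeal) → (∀ v ∈ Q, v ∉ P) → 0 < ε → 1 ≤ l → l ≤ 2 →
      ∃ R0 : ℝ, ∀ ρ : InfinitePlace F → ℝ, (∀ v, R0 ≤ ρ v) →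
        ((Fam k cl Q P ∩ (Bx F (fun v => l * ρ v) \ Bx F ρ)).ncard : ℝ) ≤
          (C * (l - 1) + ε) * (∏ v ∈ Q, dQ v) * (∏ v ∈ P, dP v) * vol ρ ^ 5

/-- **PRM** (block PRM). Many prime numbers `≡ 1 mod 8k` with an unramified place of degree one in
short intervals. -/
def SpecPRM : Prop :=
  ∀ (F : Type) [Field F] [NumberField F] (k : ℕ) (δ : ℝ) (N P0 : ℕ), 0 < k → 0 < δ →
    ∃ (S : Finset ℕ) (y : ℝ), S.card = N ∧ (P0 : ℝ) ≤ y ∧
      ∀ p ∈ S, p.Prime ∧ p % (8 * k) = 1 ∧ y ≤ p ∧ (p : ℝ) ≤ (1 + δ) * y ∧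
        ∃ v : HeightOneSpectrum (𝓞 F), nv v = p ∧ (p : 𝓞 F) ∉ v.asIdeal ^ 2

/-- **FIN.** The final theorem, in every residue class modulo `N0`. Boxes of all shapes; `X v = X` for
all `v` is the height ordering. -/
def SpecFIN : Prop :=
  ∀ (F : Type) [Field F] [NumberField F] (N0 : ℕ) (cl : 𝓞 F × 𝓞 F), 0 < N0 →
    (∀ ε : ℝ, 0 < ε → ∃ (N : ℕ)
      (R : Set ((𝓞 F ⧸ Ideal.span {(N : 𝓞 F)}) × (𝓞 F ⧸ Ideal.span {(N : 𝓞 F)}))) (c X0 : ℝ),
      0 < N ∧ 0 < c ∧ Cong F N R ⊆ Cls N0 cl ∧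
      ∀ X : InfinitePlace F → ℝ, (∀ v, X0 ≤ X v) →
        c * ((Box F X).ncard : ℝ) ≤ ((Cong F N R ∩ Box F X).ncard : ℝ) ∧
        ∀ d : ℕ, |((Cong F N R ∩ Box F X ∩ Rk F d).ncard : ℝ) -
          PR.law d * ((Cong F N R ∩ Box F X).ncard : ℝ)| ≤
            ε * ((Cong F N R ∩ Box F X).ncard : ℝ)) ∧
    ∀ d : ℕ, ∃ c X0 : ℝ, 0 < c ∧ ∀ X : InfinitePlace F → ℝ, (∀ v, X0 ≤ X v) →
      c * ((Box F X).ncard : ℝ) ≤ ((Cls N0 cl ∩ Box F X ∩ Rk F d).ncard : ℝ)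

end Pool.Agent.Lib.MP_8cb858_nt.PF
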