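import Pool.Agent.Lib.MP_8cb858_nt.PF.SpecA

/-!
# Row 187, module UNG (helper39): the number of unit classes at a finite place
-/

set_option autoImplicit false

namespace Pool.Agent.Lib.MP_8cb858_nt.PF

open Polynomial NumberField IsDedekindDomain Pool.Agent.Lib.MP_8cb858_nt.SEL
open scoped Classical WithZero

namespace UNGM

variable {K : Type} [Field K] {w : Valuation K ℤᵐ⁰} {a b : K}

/-! ### Estimates -/

theorem wadd {p q : K} {m : ℤᵐ⁰} (hp : w p ≤ m) (hq : w q ≤ m) : w (p + q) ≤ m :=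
  w.map_add_le hp hq

theorem wsub {p q : K} {m : ℤᵐ⁰} (hp : w p ≤ m) (hq : w q ≤ m) : w (p - q) ≤ m :=
  (w.map_sub p q).trans (max_le hp hq)

theorem wmul {p q : K} {m n : ℤᵐ⁰} (hp : w p ≤ m) (hq : w q ≤ n) : w (p * q) ≤ m * n := by
  rw [map_mul]; exact mul_le_mul' hp hq

theorem wint {p q : K} {m : ℤᵐ⁰} (hp : w p ≤ 1) (hq : w q ≤ m) : w (p * q) ≤ m := by
  have := wmul hp hq
  rwa [one_mul] at this

theorem wint' {p q : K} {m : ℤᵐ⁰} (hp : w p ≤ m) (hq : w q ≤ 1) : w (p * q) ≤ m := by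
  have := wmul hp hq
  rwa [mul_one] at this

theorem w2 : w (2 : K) ≤ 1 := by
  have h : (2 : K) = 1 + 1 := by norm_num
  rw [h]; exact wadd (by simp) (by simp)

theorem w3 : w (3 : K) ≤ 1 := by
  have h : (3 : K) = 2 + 1 := by norm_num
  rw [h]; exact wadd w2 (by simp)

/-! ### Coordinates -/

theorem cf_add (i : ℕ) (x y : Lk a b) : cf i (x + y) = cf i x + cf i y := by
  simp [cf]

theorem cf_sub (i : ℕ) (x y : Lk a b) : cf i (x - y) = cf i x - cf i y := by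
  simp [cf]

theorem cf_neg (i : ℕ) (x : Lk a b) : cf i (-x) = - cf i x := by
  simp [cf]

theorem cf_zero (i : ℕ) : cf i (0 : Lk a b) = 0 := by
  simp [cf]

theorem cf_of (i : ℕ) (r : K) (x : Lk a b) :
    cf i (AdjoinRoot.of (fpol a b) r * x) = r * cf i x := by
  have h : AdjoinRoot.of (fpol a b) r * x = r • x := by
    rw [Algebra.smul_def, AdjoinRoot.algebraMap_eq]
  rw [h, cf, map_smul]
  simp [cf]

/-- all coordinates have size at most `c` -/
def Sz (w : Valuation K ℤᵐ⁰) (c : ℤᵐ⁰) (x : Lk a b) : Prop := ∀ i : ℕ, w (cf i x) ≤ c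

theorem Sz.add {c : ℤᵐ⁰} {x y : Lk a b} (hx : Sz w c x) (hy : Sz w c y) : Sz w c (x + y) :=
  fun i => by rw [cf_add]; exact wadd (hx i) (hy i)

theorem Sz.sub {c : ℤᵐ⁰} {x y : Lk a b} (hx : Sz w c x) (hy : Sz w c y) : Sz w c (x - y) :=
  fun i => by rw [cf_sub]; exact wsub (hx i) (hy i)

theorem Sz.neg {c : ℤᵐ⁰} {x : Lk a b} (hx : Sz w c x) : Sz w c (-x) :=
  fun i => by rw [cf_neg, Valuation.map_neg]; exact hx i

theorem Sz.zero {c : ℤᵐ⁰} : Sz w c (0 : Lk a b) := fun i => by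
  rw [cf_zero, map_zero]; exact zero_le

theorem Sz.mono {c d : ℤᵐ⁰} {x : Lk a b} (hx : Sz w c x) (h : c ≤ d) : Sz w d x :=
  fun i => (hx i).trans h

theorem Sz.of {c d : ℤᵐ⁰} {r : K} {x : Lk a b} (hr : w r ≤ c) (hx : Sz w d x) :
    Sz w (c * d) (AdjoinRoot.of (fpol a b) r * x) := fun i => by
  rw [cf_of]; exact wmul hr (hx i)

theorem sz_el (hCOO : SpecCOO) {c : ℤᵐ⁰} {x y z : K} (hx : w x ≤ c) (hy : w y ≤ c)
    (hz : w z ≤ c) : Sz w c (el a b x y z) := by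
  obtain ⟨h0, h1, h2⟩ := hCOO.co (a := a) (b := b) x y z
  intro i
  match i with
  | 0 => rw [h0]; exact hx
  | 1 => rw [h1]; exact hy
  | 2 => rw [h2]; exact hz
  | n + 3 => rw [hCOO.big (n + 3) _ (by omega), map_zero]; exact zero_le

theorem sz_one (hCOO : SpecCOO) : Sz w 1 (1 : Lk a b) := by
  rw [hCOO.one]
  exact sz_el hCOO (by simp) (by simp) (by simp)

theorem sz_ofv (hCOO : SpecCOO) {r : K} {c : ℤᵐ⁰} (hr : w r ≤ c) :
    Sz w c (AdjoinRoot.of (fpol a b) r) := by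
  rw [hCOO.ofv]
  exact sz_el hCOO hr (by simp) (by simp)

theorem Sz.mul (hCOO : SpecCOO) (ha : w a ≤ 1) (hb : w b ≤ 1) {c d : ℤᵐ⁰} {x y : Lk a b}
    (hx : Sz w c x) (hy : Sz w d y) : Sz w (c * d) (x * y) := by
  rw [hCOO.ext x, hCOO.ext y, hCOO.mul]
  have m : ∀ i j, w (cf i x * cf j y) ≤ c * d := fun i j => wmul (hx i) (hy j)
  refine sz_el hCOO ?_ ?_ ?_
  · exact wsub (m 0 0) (wint hb (wadd (m 1 2) (m 2 1)))
  · exact wsub (wsub (wadd (m 0 1) (m 1 0)) (wint ha (wadd (m 1 2) (m 2 1)))) (wint hb (m 2 2))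
  · exact wsub (wadd (wadd (m 0 2) (m 1 1)) (m 2 0)) (wint ha (m 2 2))

theorem Sz.mul1 (hCOO : SpecCOO) (ha : w a ≤ 1) (hb : w b ≤ 1) {c : ℤᵐ⁰} {x y : Lk a b}
    (hx : Sz w c x) (hy : Sz w 1 y) : Sz w c (x * y) := by
  have := Sz.mul hCOO ha hb hx hy
  rwa [mul_one] at this

/-! ### The norm -/

theorem norm_lin (hCOO : SpecCOO) (hNRM : SpecNRM) (ha : w a ≤ 1) (hb : w b ≤ 1) {c : ℤᵐ⁰}
    (hc : c ≤ 1) {x : Lk a b} (hx : Sz w c x) :
    w (Algebra.norm K (1 + x) - 1 - (3 * cf 0 x - 2 * a * cf 2 x)) ≤ c * c := by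
  obtain ⟨x0, h0⟩ : ∃ t, t = cf 0 x := ⟨_, rfl⟩
  obtain ⟨y, h1⟩ : ∃ t, t = cf 1 x := ⟨_, rfl⟩
  obtain ⟨z, h2⟩ : ∃ t, t = cf 2 x := ⟨_, rfl⟩
  have hx0 : w x0 ≤ c := h0 ▸ hx 0
  have hy : w y ≤ c := h1 ▸ hx 1
  have hz : w z ≤ c := h2 ▸ hx 2
  have e : (1 : Lk a b) + x = el a b (1 + x0) y z := by
    rw [hCOO.ext x, hCOO.one, hCOO.add, ← h0, ← h1, ← h2, zero_add, zero_add]
  rw [e, hNRM.frm, ← h0, ← h2]
  obtain ⟨p, hp⟩ : ∃ p, p = x0 - a * z := ⟨_, rfl⟩
  have hpw : w p ≤ c := by rw [hp]; exact wsub hx0 (wint ha hz)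
  have hX : w (1 + x0) ≤ 1 := wadd (by simp) (hx0.trans hc)
  have hu : w (1 + p) ≤ 1 := wadd (by simp) (hpw.trans hc)
  have hq : w (b * z + a * y) ≤ c := wadd (wint hb hz) (wint ha hy)
  have key : (1 + x0) * ((1 + x0 - a * z) ^ 2 + y * (b * z + a * y)) +
      b * z * (y * (1 + x0 - a * z) + z * (b * z + a * y)) -
      b * y * (y ^ 2 - z * (1 + x0 - a * z)) - 1 - (3 * x0 - 2 * a * z) =
      p * p + 2 * (x0 * p) + (x0 * p) * p + (1 + x0) * (y * (b * z + a * y)) +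
        b * ((z * y) * (1 + p)) + b * ((z * (b * z + a * y)) * z) - b * ((y * y) * y) +
        b * ((y * z) * (1 + p)) := by
    rw [hp]; ring
  rw [key]
  have m1 : w (p * p) ≤ c * c := wmul hpw hpw
  have m2 : w (x0 * p) ≤ c * c := wmul hx0 hpw
  refine wadd (wsub (wadd (wadd (wadd (wadd (wadd m1 (wint w2 m2)) (wint' m2 (hpw.trans hc)))
    (wint hX (wmul hy hq))) (wint hb (wint' (wmul hz hy) hu)))
    (wint hb (wint' (wmul hz hq) (hz.trans hc)))) (wint hb (wint' (wmul hy hy) (hy.trans hc))))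
    (wint hb (wint' (wmul hy hz) hu))

theorem norm_near (hCOO : SpecCOO) (hNRM : SpecNRM) (ha : w a ≤ 1) (hb : w b ≤ 1) {c : ℤᵐ⁰}
    (hc : c ≤ 1) {x : Lk a b} (hx : Sz w c x) : w (Algebra.norm K (1 + x) - 1) ≤ c := by
  have h1 := norm_lin hCOO hNRM ha hb hc hx
  have h2 : w (3 * cf 0 x - 2 * a * cf 2 x) ≤ c :=
    wsub (wint w3 (hx 0)) (wint (wint w2 ha) (hx 2))
  have h3 : c * c ≤ c := by
    calc c * c ≤ c * 1 := mul_le_mul' le_rfl hc
      _ = c := mul_one c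
  have h4 := wadd (h1.trans h3) h2
  rwa [sub_add_cancel] at h4

/-- the first coordinate of `u - 1`, `N u = 1` -/
theorem coord0 (hCOO : SpecCOO) (hNRM : SpecNRM) (ha : w a ≤ 1) (hb : w b ≤ 1) {c : ℤᵐ⁰}
    (hc : c ≤ w 2) {x : Lk a b} (hx : Sz w c x) (hN : Algebra.norm K (1 + x) = 1) :
    w (cf 0 x) ≤ w 2 * c := by
  rcases lt_or_eq_of_le (w2 (w := w)) with h2 | h2
  · have h1 := norm_lin hCOO hNRM ha hb (hc.trans w2) hx
    rw [hN, sub_self, zero_sub, Valuation.map_neg] at h1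
    have h3 : w (3 : K) = 1 := by
      have h : (3 : K) = 2 + 1 := by norm_num
      rw [h, Valuation.map_add_eq_of_lt_right w (by rw [map_one]; exact h2), map_one]
    have h4 : w (2 * a * cf 2 x) ≤ w 2 * c := by
      rw [mul_assoc]; exact wmul le_rfl (wint ha (hx 2))
    have h5 : c * c ≤ w 2 * c := mul_le_mul' hc le_rfl
    have h6 := wadd (h1.trans h5) h4
    rw [sub_add_cancel, map_mul, h3, one_mul] at h6
    exact h6
  · rw [h2, one_mul]; exact hx 0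

/-! ### The group of units of norm 1 -/

section grp

variable (hCOO : SpecCOO) (ha : w a ≤ 1) (hb : w b ≤ 1)

/-- units of norm 1 of the order -/
noncomputable def N1 (hCOO : SpecCOO) (ha : w a ≤ 1) (hb : w b ≤ 1) : Subgroup (Lk a b)ˣ where
  carrier := {u | Sz w 1 (u : Lk a b) ∧ Sz w 1 ((u⁻¹ : (Lk a b)ˣ) : Lk a b) ∧
    Algebra.norm K (u : Lk a b) = 1}
  mul_mem' := by
    rintro u v ⟨h1, h2, h3⟩ ⟨h4, h5, h6⟩
    refine ⟨?_, ?_, ?_⟩
    · rw [Units.val_mul]; exact Sz.mul1 hCOO ha hb h1 h4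
    · rw [mul_inv_rev, Units.val_mul]; exact Sz.mul1 hCOO ha hb h5 h2
    · rw [Units.val_mul, map_mul, h3, h6, one_mul]
  one_mem' := ⟨by rw [Units.val_one]; exact sz_one hCOO,
    by rw [inv_one, Units.val_one]; exact sz_one hCOO, by rw [Units.val_one, map_one]⟩
  inv_mem' := by
    rintro u ⟨h1, h2, h3⟩
    refine ⟨h2, by rw [inv_inv]; exact h1, ?_⟩
    have h4 : Algebra.norm K ((u * u⁻¹ : (Lk a b)ˣ) : Lk a b) = 1 := by
      rw [mul_inv_cancel, Units.val_one, map_one]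
    rwa [Units.val_mul, map_mul, h3, one_mul] at h4

/-- the same group, written additively -/
abbrev GG (hCOO : SpecCOO) (ha : w a ≤ 1) (hb : w b ≤ 1) : Type := Additive (N1 hCOO ha hb)

variable {hCOO ha hb}

/-- the element of the algebra -/
noncomputable def val (x : GG hCOO ha hb) : Lk a b := (((Additive.toMul x : N1 hCOO ha hb) : (Lk a b)ˣ) : Lk a b)

theorem val_add (x y : GG hCOO ha hb) : val (x + y) = val x * val y := rfl

theorem val_zero : val (0 : GG hCOO ha hb) = 1 := rfl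

theorem val_inj {x y : GG hCOO ha hb} (h : val x = val y) : x = y := by
  have h1 : ((Additive.toMul x : N1 hCOO ha hb) : (Lk a b)ˣ) = ((Additive.toMul y : N1 hCOO ha hb) : (Lk a b)ˣ) :=
    Units.ext h
  exact Additive.toMul.injective (Subtype.ext h1)

theorem val_neg (x : GG hCOO ha hb) : val x * val (-x) = 1 := by
  rw [← val_add, add_neg_cancel, val_zero]

theorem val_neg' (x : GG hCOO ha hb) : val (-x) * val x = 1 := by
  rw [← val_add, neg_add_cancel, val_zero]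

theorem val_two (x : GG hCOO ha hb) : val ((2 : ℕ) • x) = val x ^ 2 := by
  rw [two_nsmul, val_add, sq]

theorem val_int (x : GG hCOO ha hb) : Sz w 1 (val x) := (Additive.toMul x : N1 hCOO ha hb).2.1

theorem val_norm (x : GG hCOO ha hb) : Algebra.norm K (val x) = 1 :=
  (Additive.toMul x : N1 hCOO ha hb).2.2.2

theorem exists_val {u u' : Lk a b} (h : u * u' = 1) (hu : Sz w 1 u) (hu' : Sz w 1 u')
    (hN : Algebra.norm K u = 1) : ∃ x : GG hCOO ha hb, val x = u :=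
  ⟨Additive.ofMul ⟨⟨u, u', h, by rw [mul_comm]; exact h⟩, hu, hu', hN⟩, rfl⟩

/-- the subgroup of the elements near to 1 -/
noncomputable def Bk (hCOO : SpecCOO) (ha : w a ≤ 1) (hb : w b ≤ 1) (c : ℤᵐ⁰) :
    AddSubgroup (GG hCOO ha hb) where
  carrier := {x | Sz w c (val x - 1)}
  add_mem' := by
    intro x y hx hy
    change Sz w c (val (x + y) - 1)
    have e : val (x + y) - 1 = (val x - 1) * val y + (val y - 1) := by rw [val_add]; ring
    rw [e]
    exact (Sz.mul1 hCOO ha hb hx (val_int y)).add hy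
  zero_mem' := by
    change Sz w c (val (0 : GG hCOO ha hb) - 1)
    rw [val_zero, sub_self]; exact Sz.zero
  neg_mem' := by
    intro x hx
    change Sz w c (val (-x) - 1)
    have e : val (-x) - 1 = -((val x - 1) * val (-x)) := by
      rw [sub_mul, val_neg, one_mul]; ring
    rw [e]
    exact (Sz.mul1 hCOO ha hb hx (val_int (-x))).neg

theorem mem_Bk {c : ℤᵐ⁰} {x : GG hCOO ha hb} : x ∈ Bk hCOO ha hb c ↔ Sz w c (val x - 1) := Iff.rfl

/-- close elements have quotient near to 1 -/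
theorem sub_mem {c : ℤᵐ⁰} {x y : GG hCOO ha hb} (h : Sz w c (val x - val y)) :
    x - y ∈ Bk hCOO ha hb c := by
  rw [mem_Bk, sub_eq_add_neg x y, val_add]
  have e : val x * val (-y) - 1 = (val x - val y) * val (-y) := by
    rw [sub_mul, val_neg]
  rw [e]
  exact Sz.mul1 hCOO ha hb h (val_int _)

theorem fin_index {A : Type} [AddCommGroup A] (B : AddSubgroup A) {T : Type} [Finite T]
    (φ : A → T) (h : ∀ x y, φ x = φ y → -x + y ∈ B) : B.FiniteIndex := by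
  have : Finite (A ⧸ B) := by
    refine Finite.of_injective (fun q : A ⧸ B => φ q.out) fun q q' hq => ?_
    have h1 := h _ _ hq
    rw [← QuotientAddGroup.eq] at h1
    rwa [QuotientAddGroup.out_eq', QuotientAddGroup.out_eq'] at h1
  exact AddSubgroup.finiteIndex_of_finite_quotient

theorem finite_index (hLFB : SpecLFB) (hK : IsLF w) (k : ℕ) :
    (Bk hCOO ha hb (WithZero.exp (-(k : ℤ)))).FiniteIndex := by
  obtain ⟨s, hs⟩ := hLFB.fin hK k
  have hρ : ∀ x : K, ∃ y : s, w x ≤ 1 → w (x - y) ≤ WithZero.exp (-(k : ℤ)) := by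
    intro x
    by_cases hx : w x ≤ 1
    · obtain ⟨y, hy, h⟩ := hs x hx
      exact ⟨⟨y, hy⟩, fun _ => h⟩
    · obtain ⟨y, hy, -⟩ := hs 0 (by simp)
      exact ⟨⟨y, hy⟩, fun h => absurd h hx⟩
  choose ρ hρ using hρ
  refine fin_index _ (T := Fin 3 → s) (fun x i => ρ (cf i (val x))) fun x y hxy => ?_
  rw [neg_add_eq_sub]
  refine sub_mem fun i => ?_
  by_cases hi : i < 3
  · have h1 := congrFun hxy ⟨i, hi⟩
    simp only at h1
    rw [cf_sub]
    have h2 := hρ (cf i (val y)) (val_int y i)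
    have h3 := hρ (cf i (val x)) (val_int x i)
    rw [h1] at h3
    have h4 := wsub h2 h3
    rwa [sub_sub_sub_cancel_right] at h4
  · rw [hCOO.big i _ (by omega), map_zero]; exact zero_le

variable [CharZero K]

/-- elements very near to 1 are squares of elements near to 1 -/
theorem exists_half (hHNS : SpecHNA) (hNRM : SpecNRM) (hK : IsLF w) {e : ℕ}
    (he : w (2 : K) = WithZero.exp (-(e : ℤ))) {x : GG hCOO ha hb}
    (hx : x ∈ Bk hCOO ha hb (WithZero.exp (-((e + 1 + e : ℕ) : ℤ)))) :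
    ∃ y ∈ Bk hCOO ha hb (WithZero.exp (-((e + 1 : ℕ) : ℤ))), x = (2 : ℕ) • y := by
  rw [mem_Bk] at hx
  have h4 : (4 : K) ≠ 0 := by norm_num
  have hw4 : w (4⁻¹ : K) = WithZero.exp (2 * (e : ℤ)) := by
    have h : (4 : K) = 2 * 2 := by norm_num
    rw [map_inv₀, h, map_mul, he, ← WithZero.exp_add, ← WithZero.exp_neg]
    congr 1; ring
  obtain ⟨y, hy, hy2⟩ := hHNS.sq (AdjoinRoot.of (fpol a b) (4⁻¹ : K) * (val x - 1)) 1 hK ha hb
    le_rfl (by
      intro i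
      rw [cf_of, map_mul, hw4]
      refine (mul_le_mul' le_rfl (hx i)).trans (le_of_eq ?_)
      rw [← WithZero.exp_add]
      congr 1
      push_cast; ring)
  have hof4 : (4 : Lk a b) = AdjoinRoot.of (fpol a b) 4 := (map_ofNat _ 4).symm
  have hof2 : (2 : Lk a b) = AdjoinRoot.of (fpol a b) 2 := (map_ofNat _ 2).symm
  have hv : (1 + 2 * y) ^ 2 = val x := by
    rw [hy2, hof4, ← mul_assoc, ← map_mul, mul_inv_cancel₀ h4, map_one, one_mul]; ring
  have hsz : Sz w (WithZero.exp (-((e + 1 : ℕ) : ℤ))) (2 * y) := by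
    rw [hof2]
    refine (Sz.of (le_of_eq he) hy).mono (le_of_eq ?_)
    rw [← WithZero.exp_add]
    congr 1
    push_cast; ring
  have hexp : (WithZero.exp (-((e + 1 : ℕ) : ℤ)) : ℤᵐ⁰) ≤ 1 := by
    rw [← WithZero.exp_zero, WithZero.exp_le_exp]
    push_cast; omega
  have hvi : Sz w 1 (1 + 2 * y) := (sz_one hCOO).add (hsz.mono hexp)
  have hN : Algebra.norm K (1 + 2 * y) = 1 := by
    have h1 : Algebra.norm K (1 + 2 * y) * Algebra.norm K (1 + 2 * y) = 1 := by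
      rw [← map_mul, ← sq, hv, val_norm]
    rcases mul_self_eq_one_iff.1 h1 with h | h
    · exact h
    · exfalso
      have h2 := norm_near hCOO hNRM ha hb hexp hsz
      rw [h] at h2
      have h3 : (-1 - 1 : K) = -2 := by norm_num
      rw [h3, Valuation.map_neg, he, WithZero.exp_le_exp] at h2
      push_cast at h2; omega
  obtain ⟨v, hv'⟩ := exists_val (hCOO := hCOO) (ha := ha) (hb := hb)
    (u := 1 + 2 * y) (u' := (1 + 2 * y) * val (-x)) (by
      rw [← mul_assoc, ← sq, hv, val_neg]) hvi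
    (Sz.mul1 hCOO ha hb hvi (val_int _)) hN
  refine ⟨v, ?_, ?_⟩
  · rw [mem_Bk, hv', add_sub_cancel_left]; exact hsz
  · apply val_inj
    rw [val_two, hv', hv]

/-- `B_k` is the union of few cosets of `2 B_k` -/
theorem cosets (hLFB : SpecLFB) (hHNS : SpecHNA) (hNRM : SpecNRM) (hK : IsLF w) {e : ℕ}
    (he : w (2 : K) = WithZero.exp (-(e : ℤ))) :
    ∃ s : Fin (two w ^ 2) → GG hCOO ha hb,
      ∀ x ∈ Bk hCOO ha hb (WithZero.exp (-((e + 1 : ℕ) : ℤ))),
      ∃ i, ∃ y ∈ Bk hCOO ha hb (WithZero.exp (-((e + 1 : ℕ) : ℤ))), x = s i + (2 : ℕ) • y := by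
  obtain ⟨-, -, c, hc1, -, hc2⟩ := hLFB.two hK
  obtain ⟨π, hπ⟩ : ∃ π : K, w π = WithZero.exp (-((e + 1 : ℕ) : ℤ)) := hK.surj _
  have hπ0 : π ≠ 0 := by
    rintro rfl
    rw [map_zero] at hπ
    exact WithZero.exp_ne_zero hπ.symm
  have hσ : Fintype.card (Fin (two w) × Fin (two w)) = two w ^ 2 := by simp [sq]
  obtain ⟨σ⟩ : Nonempty (Fin (two w) × Fin (two w) ≃ Fin (two w ^ 2)) :=
    ⟨Fintype.equivFinOfCardEq hσ⟩
  obtain ⟨B, hB⟩ : ∃ B, B = Bk hCOO ha hb (WithZero.exp (-((e + 1 : ℕ) : ℤ))) := ⟨_, rfl⟩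
  rw [← hB]
  let P : Fin (two w) × Fin (two w) → GG hCOO ha hb → Prop := fun i x => x ∈ B ∧
    w (cf 1 (val x - 1) - π * c i.1) ≤ w 2 * w π ∧ w (cf 2 (val x - 1) - π * c i.2) ≤ w 2 * w π
  refine ⟨fun j => if h : ∃ x, P (σ.symm j) x then h.choose else 0, fun x hx => ?_⟩
  have hxB := hx
  rw [hB, mem_Bk, ← hπ] at hx
  have hd : ∀ i : ℕ, ∃ j : Fin (two w), w (cf i (val x - 1) - π * c j) ≤ w 2 * w π := by
    intro i
    have h1 : w (cf i (val x - 1) / π) ≤ 1 := by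
      rw [map_div₀]
      exact div_le_one_of_le₀ (hx i) zero_le
    obtain ⟨j, hj⟩ := hc2 _ h1
    refine ⟨j, ?_⟩
    have h2 : cf i (val x - 1) - π * c j = (cf i (val x - 1) / π - c j) * π := by
      field_simp
    rw [h2]
    exact wmul hj le_rfl
  obtain ⟨i1, h1⟩ := hd 1
  obtain ⟨i2, h2⟩ := hd 2
  have hP : P (σ.symm (σ (i1, i2))) x := by
    rw [Equiv.symm_apply_apply]; exact ⟨hxB, h1, h2⟩
  have hex : ∃ x, P (σ.symm (σ (i1, i2))) x := ⟨x, hP⟩
  refine ⟨σ (i1, i2), ?_⟩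
  simp only [dif_pos hex]
  obtain ⟨x', hx'⟩ : ∃ x', x' = hex.choose := ⟨_, rfl⟩
  rw [← hx']
  have hP' : P (σ.symm (σ (i1, i2))) x' := by rw [hx']; exact hex.choose_spec
  rw [Equiv.symm_apply_apply] at hP hP'
  have hx'B := hP'.1
  rw [hB, mem_Bk, ← hπ] at hx'B
  have hπ2 : w π ≤ w 2 := by
    rw [hπ, he, WithZero.exp_le_exp]; push_cast; omega
  have c0 : ∀ t : GG hCOO ha hb, Sz w (w π) (val t - 1) → w (cf 0 (val t - 1)) ≤ w 2 * w π :=
    fun t ht => coord0 hCOO hNRM ha hb hπ2 ht (by rw [add_sub_cancel, val_norm])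
  have hcl : Sz w (WithZero.exp (-((e + 1 + e : ℕ) : ℤ))) (val x - val x') := by
    have hE : (WithZero.exp (-((e + 1 + e : ℕ) : ℤ)) : ℤᵐ⁰) = w 2 * w π := by
      rw [he, hπ, ← WithZero.exp_add]
      congr 1
      push_cast; ring
    rw [hE]
    have hsub : ∀ i, cf i (val x - val x') = cf i (val x - 1) - cf i (val x' - 1) := by
      intro i
      rw [← cf_sub]; congr 1; ring
    intro i
    rw [hsub]
    match i with
    | 0 => exact wsub (c0 x hx) (c0 x' hx'B)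
    | 1 =>
      have := wsub hP.2.1 hP'.2.1
      rwa [sub_sub_sub_cancel_right] at this
    | 2 =>
      have := wsub hP.2.2 hP'.2.2
      rwa [sub_sub_sub_cancel_right] at this
    | n + 3 =>
      rw [hCOO.big (n + 3) _ (by omega), hCOO.big (n + 3) _ (by omega), sub_zero, map_zero]
      exact zero_le
  obtain ⟨y, hy, hxy⟩ := exists_half hHNS hNRM hK he (sub_mem hcl)
  refine ⟨y, by rw [hB]; exact hy, ?_⟩
  rw [← hxy]; abel

end grp

end UNGM

open UNGM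

theorem specUNG (hCOO : SpecCOO) (hNRM : SpecNRM) (hLFB : SpecLFB) (hHNS : SpecHNA)
    (hHQ : SpecHQ) : SpecUNG := by
  intro K _ _ w a b N α hK ha hb hα hne
  -- `w 2`
  obtain ⟨e, he⟩ : ∃ e : ℕ, w (2 : K) = WithZero.exp (-(e : ℤ)) := by
    have h0 : w (2 : K) ≠ 0 := by
      rw [Valuation.ne_zero_iff]; norm_num
    have h1 := w2 (w := w)
    obtain ⟨l, hl⟩ : ∃ l : ℤ, w (2 : K) = WithZero.exp l := ⟨_, (WithZero.exp_log h0).symm⟩
    rw [hl, ← WithZero.exp_zero, WithZero.exp_le_exp] at h1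
    refine ⟨(-l).toNat, ?_⟩
    rw [hl]
    congr 1
    omega
  -- the elements of norm 1
  have hg : ∀ i, ∃ (x : GG hCOO ha hb) (γ : Lk a b), IsUnit γ ∧ val x = α i * γ ^ 2 := by
    intro i
    obtain ⟨⟨hαu, r, hr⟩, g, h, h', hg, hh, hh', hhh, hαg⟩ := hα i
    have hNh : Algebra.norm K h = (r * Algebra.norm K g) ^ 2 := by
      rw [← hαg, map_mul, hr, map_pow]; ring
    obtain ⟨s, hs⟩ : ∃ s, s = r * Algebra.norm K g := ⟨_, rfl⟩
    rw [← hs] at hNh
    have hw : w (Algebra.norm K h) = 1 := (hLFB.uni h ha hb hh).1 ⟨h', hh', hhh⟩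
    have hws : w s = 1 := by
      rw [hNh, map_pow] at hw
      have h0 : w s ≠ 0 := by
        intro h; rw [h] at hw; norm_num at hw
      obtain ⟨l, hl⟩ : ∃ l : ℤ, w s = WithZero.exp l := ⟨_, (WithZero.exp_log h0).symm⟩
      rw [hl, sq, ← WithZero.exp_add, WithZero.exp_eq_one] at hw
      have h1 : l = 0 := by omega
      rw [hl, h1, WithZero.exp_zero]
    have hs0 : s ≠ 0 := by
      rintro rfl; rw [map_zero] at hws; exact zero_ne_one hws
    have hsz1 : ∀ t : K, w t = 1 → Sz w 1 (AdjoinRoot.of (fpol a b) t) :=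
      fun t ht => sz_ofv hCOO ht.le
    have hm : ∀ {p q : Lk a b}, Sz w 1 p → Sz w 1 q → Sz w 1 (p * q) :=
      fun hp hq => Sz.mul1 hCOO ha hb hp hq
    have hofi : AdjoinRoot.of (fpol a b) s * AdjoinRoot.of (fpol a b) s⁻¹ = 1 := by
      rw [← map_mul, mul_inv_cancel₀ hs0, map_one]
    have hu : IsUnit h := IsUnit.of_mul_eq_one _ hhh
    obtain ⟨x, hx⟩ := exists_val (hCOO := hCOO) (ha := ha) (hb := hb)
      (u := h ^ 3 * AdjoinRoot.of (fpol a b) s⁻¹ ^ 2)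
      (u' := h' ^ 3 * AdjoinRoot.of (fpol a b) s ^ 2) (by
        calc h ^ 3 * AdjoinRoot.of (fpol a b) s⁻¹ ^ 2 * (h' ^ 3 * AdjoinRoot.of (fpol a b) s ^ 2)
            = (h * h') ^ 3 * (AdjoinRoot.of (fpol a b) s * AdjoinRoot.of (fpol a b) s⁻¹) ^ 2 := by
              ring
          _ = 1 := by rw [hhh, hofi]; ring)
      (by
        have h1 := hsz1 s⁻¹ (by rw [map_inv₀, hws, inv_one])
        have e1 : h ^ 3 * AdjoinRoot.of (fpol a b) s⁻¹ ^ 2 =
          h * (h * (h * (AdjoinRoot.of (fpol a b) s⁻¹ * AdjoinRoot.of (fpol a b) s⁻¹))) := by ring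
        rw [e1]
        exact hm hh (hm hh (hm hh (hm h1 h1))))
      (by
        have h1 := hsz1 s hws
        have e1 : h' ^ 3 * AdjoinRoot.of (fpol a b) s ^ 2 =
          h' * (h' * (h' * (AdjoinRoot.of (fpol a b) s * AdjoinRoot.of (fpol a b) s))) := by ring
        rw [e1]
        exact hm hh' (hm hh' (hm hh' (hm h1 h1))))
      (by
        rw [map_mul, map_pow, map_pow, hNh, hNRM.sc]
        field_simp)
    refine ⟨x, g * h * AdjoinRoot.of (fpol a b) s⁻¹, ?_, ?_⟩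
    · refine (hg.mul hu).mul ?_
      exact IsUnit.of_mul_eq_one (AdjoinRoot.of (fpol a b) s) (by rw [mul_comm]; exact hofi)
    · rw [hx, ← hαg]; ring
  choose g γ hγ hgv using hg
  have hgne : ∀ i j, i ≠ j → ∀ x : GG hCOO ha hb, g i - g j ≠ (2 : ℕ) • x := by
    intro i j hij x hx
    refine hne i j hij ?_
    have h1 : g i = g j + (2 : ℕ) • x := by rw [← hx]; abel
    have h2 : val (g i) = val (g j) * val x ^ 2 := by rw [h1, val_add, val_two]
    have h3 : val (g i) * val (g j) = (val (g j) * val x) ^ 2 := by rw [h2]; ring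
    rw [hgv i, hgv j] at h3
    obtain ⟨u, hu⟩ := (hγ i).mul (hγ j)
    refine ⟨α j * γ j ^ 2 * val x * ((u⁻¹ : (Lk a b)ˣ) : Lk a b), ?_⟩
    have h4 : α i * α j * (γ i * γ j) ^ 2 = (α j * γ j ^ 2 * val x) ^ 2 := by
      rw [← h3]; ring
    rw [← hu] at h4
    have h5 : ((u : Lk a b)) * ((u⁻¹ : (Lk a b)ˣ) : Lk a b) = 1 := by
      rw [← Units.val_mul, mul_inv_cancel, Units.val_one]
    calc α i * α j = α i * α j * ((u : Lk a b)) ^ 2 * ((u⁻¹ : (Lk a b)ˣ) : Lk a b) ^ 2 := by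
          rw [mul_assoc, ← mul_pow, h5]; ring
      _ = _ := by rw [h4]; ring
  obtain ⟨s, hs⟩ := cosets (hCOO := hCOO) (ha := ha) (hb := hb) hLFB hHNS hNRM hK he
  obtain ⟨n, T, hT1, hT2, hn⟩ := hHQ.2 (GG hCOO ha hb) _ (two w ^ 2) N s g
    (finite_index hLFB hK (e + 1)) hs hgne
  -- discard 1
  obtain ⟨S, hS⟩ : ∃ S : Finset (Lk a b), S = (Finset.univ.image fun i => val (T i)).erase 1 :=
    ⟨_, rfl⟩
  have hcard : n ≤ S.card + 1 := by
    have h1 : (Finset.univ.image fun i => val (T i)).card = n := by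
      rw [Finset.card_image_of_injective _ fun i j h => hT1 (val_inj h), Finset.card_univ,
        Fintype.card_fin]
    have h2 := Finset.pred_card_le_card_erase (s := Finset.univ.image fun i => val (T i))
      (a := (1 : Lk a b))
    rw [h1, ← hS] at h2
    omega
  have hmem : ∀ t ∈ S, t ^ 2 = 1 ∧ Algebra.norm K t = 1 ∧ t ≠ 1 := by
    intro t ht
    rw [hS, Finset.mem_erase, Finset.mem_image] at ht
    obtain ⟨h1, j, -, hj⟩ := ht
    exact ⟨by rw [← hj, ← val_two, hT2, val_zero], by rw [← hj, val_norm], h1⟩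
  refine ⟨S.card, fun i => (S.equivFin.symm i : Lk a b), ?_, ?_, ?_⟩
  · intro i j h
    exact S.equivFin.symm.injective (Subtype.ext h)
  · intro i
    exact hmem _ (S.equivFin.symm i).2
  · exact hn.trans (Nat.mul_le_mul_left _ hcard)

end Pool.Agent.Lib.MP_8cb858_nt.PF
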