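import Pool.Agent.Lib.MP_8cb858_nt.PF.UNG

/-!
# Row 187, module VCT (helper74): the number of all classes at a finite place
-/

set_option autoImplicit false

namespace Pool.Agent.Lib.MP_8cb858_nt.PF

open Polynomial
open scoped WithZero

namespace VCTM

open UNGM

variable {K : Type} [Field K] {w : Valuation K ℤᵐ⁰} {a b : K}

/-! ### Roots -/

/-- roots are integral -/
theorem root_int (ha : w a ≤ 1) (hb : w b ≤ 1) {t : K} (ht : t ^ 3 + a * t + b = 0) : w t ≤ 1 := by
  by_contra hcon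
  rw [not_le] at hcon
  have h1 : w (a * t + b) < w (t ^ 3) := by
    have h2 : w t < w t ^ 3 := by
      calc w t = w t * 1 := (mul_one _).symm
        _ < w t * w t := by
          apply mul_lt_mul_of_pos_left hcon (lt_trans zero_lt_one hcon)
        _ = w t * w t * 1 := (mul_one _).symm
        _ ≤ w t * w t * w t := by gcongr
        _ = w t ^ 3 := (pow_three' _).symm
    rw [map_pow]
    refine w.map_add_lt (lt_of_le_of_lt ?_ h2) (lt_of_le_of_lt (hb.trans hcon.le) h2)
    exact wint ha le_rfl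
  have h3 : w (t ^ 3 + (a * t + b)) = w (t ^ 3) := w.map_add_eq_of_lt_left h1
  rw [← add_assoc, ht, map_zero] at h3
  rw [← h3] at h1
  exact absurd h1 (not_lt.2 zero_le)

theorem ev_id (t : K) (α : Lk a b) : ev (RingHom.id K) t α = cf 0 α + cf 1 α * t + cf 2 α * t ^ 2 := rfl

theorem ev_int {t : K} (ht : w t ≤ 1) {α : Lk a b} (hα : Sz w 1 α) :
    w (ev (RingHom.id K) t α) ≤ 1 := by
  rw [ev_id]
  refine wadd (wadd (hα 0) (wint' (hα 1) ht)) (wint' (hα 2) ?_)
  rw [map_pow]
  exact pow_le_one₀ zero_le ht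

theorem roots_finite (a b : K) : {t : K | t ^ 3 + a * t + b = 0}.Finite := by
  classical
  refine ((fpol a b).roots.toFinset.finite_toSet).subset fun t ht => ?_
  rw [Finset.mem_coe, Multiset.mem_toFinset, mem_roots (fpol_monic a b).ne_zero, IsRoot.def]
  have := eval₂_fpol a b (RingHom.id K) t
  rw [eval₂_id] at this
  rw [this]
  exact ht

/-! ### The group of all elements of norm 1 -/

/-- units of norm 1 -/
noncomputable def A1 (a b : K) : Subgroup (Lk a b)ˣ where
  carrier := {u | Algebra.norm K (u : Lk a b) = 1}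
  mul_mem' := by
    intro u v h1 h2
    change Algebra.norm K ((u * v : (Lk a b)ˣ) : Lk a b) = 1
    rw [Units.val_mul, map_mul, h1, h2, one_mul]
  one_mem' := by
    change Algebra.norm K ((1 : (Lk a b)ˣ) : Lk a b) = 1
    rw [Units.val_one, map_one]
  inv_mem' := by
    intro u h1
    have h4 : Algebra.norm K ((u * u⁻¹ : (Lk a b)ˣ) : Lk a b) = 1 := by
      rw [mul_inv_cancel, Units.val_one, map_one]
    have h1' : Algebra.norm K (u : Lk a b) = 1 := h1
    change Algebra.norm K ((u⁻¹ : (Lk a b)ˣ) : Lk a b) = 1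
    rwa [Units.val_mul, map_mul, h1', one_mul] at h4

/-- the same group, written additively -/
abbrev AA (a b : K) : Type := Additive (A1 a b)

/-- the element of the algebra -/
noncomputable def vl (x : AA a b) : Lk a b := (((Additive.toMul x : A1 a b) : (Lk a b)ˣ) : Lk a b)

theorem vl_add (x y : AA a b) : vl (x + y) = vl x * vl y := rfl

theorem vl_zero : vl (0 : AA a b) = 1 := rfl

theorem vl_inj {x y : AA a b} (h : vl x = vl y) : x = y := by
  have h1 : ((Additive.toMul x : A1 a b) : (Lk a b)ˣ) = ((Additive.toMul y : A1 a b) : (Lk a b)ˣ) :=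
    Units.ext h
  exact Additive.toMul.injective (Subtype.ext h1)

theorem vl_neg (x : AA a b) : vl x * vl (-x) = 1 := by
  rw [← vl_add, add_neg_cancel, vl_zero]

theorem vl_neg' (x : AA a b) : vl (-x) * vl x = 1 := by
  rw [← vl_add, neg_add_cancel, vl_zero]

theorem vl_two (x : AA a b) : vl ((2 : ℕ) • x) = vl x ^ 2 := by
  rw [two_nsmul, vl_add, sq]

theorem vl_norm (x : AA a b) : Algebra.norm K (vl x) = 1 := (Additive.toMul x : A1 a b).2

theorem exists_vl {u u' : Lk a b} (h : u * u' = 1) (hN : Algebra.norm K u = 1) :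
    ∃ x : AA a b, vl x = u :=
  ⟨Additive.ofMul ⟨⟨u, u', h, by rw [mul_comm]; exact h⟩, hN⟩, rfl⟩

/-- the inclusion of the integral elements -/
noncomputable def inc (hCOO : SpecCOO) (ha : w a ≤ 1) (hb : w b ≤ 1) : GG hCOO ha hb →+ AA a b where
  toFun x := Additive.ofMul ⟨((Additive.toMul x : N1 hCOO ha hb) : (Lk a b)ˣ),
    (Additive.toMul x : N1 hCOO ha hb).2.2.2⟩
  map_zero' := rfl
  map_add' _ _ := rfl

theorem vl_inc {hCOO : SpecCOO} {ha : w a ≤ 1} {hb : w b ≤ 1} (x : GG hCOO ha hb) :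
    vl (inc hCOO ha hb x) = val x := rfl

/-- the value at a root -/
theorem ev_ne (hEVA : SpecEVA) {t : K} (ht : t ^ 3 + a * t + b = 0) (x : AA a b) :
    w (ev (RingHom.id K) t (vl x)) ≠ 0 := by
  have h1 : ev (RingHom.id K) t (vl x) * ev (RingHom.id K) t (vl (-x)) = 1 := by
    rw [← hEVA.mul (RingHom.id K) t _ _ ht, vl_neg, hEVA.one]
  have h2 : ev (RingHom.id K) t (vl x) ≠ 0 := left_ne_zero_of_mul_eq_one h1
  exact (map_ne_zero w).2 h2

/-- the exponents of the values at some roots -/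
noncomputable def nu (w : Valuation K ℤᵐ⁰) (hEVA : SpecEVA) {ρ : ℕ} (t : Fin ρ → K)
    (ht : ∀ i, t i ^ 3 + a * t i + b = 0) : AA a b →+ (Fin ρ → ℤ) :=
  AddMonoidHom.mk' (fun x i => WithZero.log (w (ev (RingHom.id K) (t i) (vl x)))) fun x y => by
    funext i
    rw [vl_add, hEVA.mul (RingHom.id K) (t i) _ _ (ht i), map_mul,
      WithZero.log_mul (ev_ne hEVA (ht i) x) (ev_ne hEVA (ht i) y)]
    rfl

theorem mem_ker {hEVA : SpecEVA} {ρ : ℕ} {t : Fin ρ → K} {ht : ∀ i, t i ^ 3 + a * t i + b = 0}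
    {x : AA a b} : x ∈ (nu w hEVA t ht).ker ↔ ∀ i, w (ev (RingHom.id K) (t i) (vl x)) = 1 := by
  rw [AddMonoidHom.mem_ker]
  constructor
  · intro h i
    have h1 : WithZero.log (w (ev (RingHom.id K) (t i) (vl x))) = 0 := congrFun h i
    have h2 := WithZero.exp_log (ev_ne (w := w) hEVA (ht i) x)
    rw [← h2, h1, WithZero.exp_zero]
  · intro h
    funext i
    change WithZero.log (w (ev (RingHom.id K) (t i) (vl x))) = 0
    rw [h i, WithZero.log_one]

/-- the elements near to 1 have unit values at the roots -/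
theorem val_unit (hEVA : SpecEVA) {hCOO : SpecCOO} {ha : w a ≤ 1} {hb : w b ≤ 1} {t : K}
    (ht : t ^ 3 + a * t + b = 0) (x : GG hCOO ha hb) : w (ev (RingHom.id K) t (val x)) = 1 := by
  have h1 : ev (RingHom.id K) t (val x) * ev (RingHom.id K) t (val (-x)) = 1 := by
    rw [← hEVA.mul (RingHom.id K) t _ _ ht, val_neg, hEVA.one]
  have h2 := congrArg w h1
  rw [map_mul, map_one] at h2
  have ht1 := root_int ha hb ht
  have h3 := ev_int ht1 (val_int x)
  have h4 := ev_int ht1 (val_int (-x))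
  refine le_antisymm h3 ?_
  calc (1 : ℤᵐ⁰) = w (ev (RingHom.id K) t (val x)) * w (ev (RingHom.id K) t (val (-x))) := h2.symm
    _ ≤ w (ev (RingHom.id K) t (val x)) * 1 := by gcongr
    _ = _ := mul_one _

/-- elements of norm 1 near to 1 are integral units -/
theorem near (hCOO : SpecCOO) (hNRM : SpecNRM) (hLFB : SpecLFB) (ha : w a ≤ 1) (hb : w b ≤ 1)
    (k : ℕ) {x : AA a b} (hx : Sz w (WithZero.exp (-(k : ℤ))) (vl x - 1)) :
    ∃ y ∈ Bk hCOO ha hb (WithZero.exp (-(k : ℤ))), inc hCOO ha hb y = x := by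
  have hexp : (WithZero.exp (-(k : ℤ)) : ℤᵐ⁰) ≤ 1 := by
    rw [← WithZero.exp_zero, WithZero.exp_le_exp]
    omega
  have h1 : Sz w 1 (vl x) := by
    have := (hx.mono hexp).add (sz_one hCOO)
    rwa [sub_add_cancel] at this
  obtain ⟨h', hi', hh'⟩ := (hLFB.uni (vl x) ha hb h1).2 (by rw [vl_norm, map_one])
  obtain ⟨y, hy⟩ := exists_val (hCOO := hCOO) (ha := ha) (hb := hb) hh' h1 hi' (vl_norm x)
  refine ⟨y, ?_, ?_⟩
  · rw [mem_Bk, hy]; exact hx
  · apply vl_inj
    rw [vl_inc, hy]

/-- the elements near to 1 have finite index in the kernel of `nu` -/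
theorem index (hCOO : SpecCOO) (hNRM : SpecNRM) (hLFB : SpecLFB) (hEVA : SpecEVA) (hK : IsLF w)
    (ha : w a ≤ 1) (hb : w b ≤ 1) {ρ : ℕ} (t : Fin ρ → K) (ht : ∀ i, t i ^ 3 + a * t i + b = 0)
    (C : ℕ) (hC : ∀ x : AA a b, x ∈ (nu w hEVA t ht).ker → Sz w (WithZero.exp (C : ℤ)) (vl x))
    (k : ℕ) : (((Bk hCOO ha hb (WithZero.exp (-(k : ℤ)))).map (inc hCOO ha hb)).addSubgroupOf
      (nu w hEVA t ht).ker).FiniteIndex := by
  obtain ⟨s, hs⟩ := hLFB.fin hK (k + 2 * C)
  have hρ : ∀ x : K, ∃ y : s, w x ≤ 1 → w (x - y) ≤ WithZero.exp (-((k + 2 * C : ℕ) : ℤ)) := by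
    intro x
    by_cases hx : w x ≤ 1
    · obtain ⟨y, hy, h⟩ := hs x hx
      exact ⟨⟨y, hy⟩, fun _ => h⟩
    · obtain ⟨y, hy, -⟩ := hs 0 (by simp)
      exact ⟨⟨y, hy⟩, fun h => absurd h hx⟩
  choose σ hσ using hρ
  obtain ⟨π, hπ⟩ : ∃ π : K, w π = WithZero.exp (-(C : ℤ)) := hK.surj _
  have hπ0 : π ≠ 0 := by
    rintro rfl
    rw [map_zero] at hπ
    exact WithZero.exp_ne_zero hπ.symm
  refine fin_index _ (T := Fin 3 → s)
    (fun x i => σ (π * cf i (vl (x : AA a b)))) fun x y hxy => ?_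
  have hx := hC x x.2
  have hy := hC y y.2
  have hnx := hC (-(x : AA a b)) ((nu w hEVA t ht).ker.neg_mem x.2)
  have hint : ∀ {z : AA a b} (i : ℕ), Sz w (WithZero.exp (C : ℤ)) (vl z) → w (π * cf i (vl z)) ≤ 1 := by
    intro z i hz
    refine (wmul hπ.le (hz i)).trans (le_of_eq ?_)
    rw [← WithZero.exp_add, neg_add_cancel, WithZero.exp_zero]
  have hdiff : Sz w (WithZero.exp (-((k + C : ℕ) : ℤ))) (vl (y : AA a b) - vl (x : AA a b)) := by
    intro i
    by_cases hi : i < 3
    · have h1 := congrFun hxy ⟨i, hi⟩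
      simp only at h1
      rw [cf_sub]
      have h2 := hσ (π * cf i (vl (y : AA a b))) (hint i hy)
      have h3 := hσ (π * cf i (vl (x : AA a b))) (hint i hx)
      rw [h1] at h3
      have h4 := wsub h2 h3
      rw [sub_sub_sub_cancel_right, ← mul_sub, map_mul, hπ] at h4
      have h5 : w (cf i (vl (y : AA a b)) - cf i (vl (x : AA a b))) =
          WithZero.exp (C : ℤ) * (WithZero.exp (-(C : ℤ)) *
            w (cf i (vl (y : AA a b)) - cf i (vl (x : AA a b)))) := by
        rw [← mul_assoc, ← WithZero.exp_add, add_neg_cancel, WithZero.exp_zero, one_mul]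
      rw [h5]
      refine (mul_le_mul' le_rfl h4).trans (le_of_eq ?_)
      rw [← WithZero.exp_add]
      congr 1
      push_cast
      ring
    · rw [hCOO.big i _ (by omega), map_zero]; exact zero_le
  have hsz : Sz w (WithZero.exp (-(k : ℤ))) (vl (-(x : AA a b) + (y : AA a b)) - 1) := by
    have e : vl (-(x : AA a b) + (y : AA a b)) - 1 =
        (vl (y : AA a b) - vl (x : AA a b)) * vl (-(x : AA a b)) := by
      rw [vl_add, sub_mul, vl_neg]
      ring
    rw [e]
    refine (Sz.mul hCOO ha hb hdiff hnx).mono (le_of_eq ?_)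
    rw [← WithZero.exp_add]
    congr 1
    push_cast
    ring
  obtain ⟨z, hz, hz'⟩ := near hCOO hNRM hLFB ha hb k hsz
  rw [AddSubgroup.mem_addSubgroupOf, AddSubgroup.mem_map]
  exact ⟨z, hz, hz'⟩

variable [CharZero K]

/-- the count with given roots -/
theorem count (hCOO : SpecCOO) (hNRM : SpecNRM) (hLFB : SpecLFB) (hEVA : SpecEVA)
    (hHNA : SpecHNA) (hTWT : SpecTWT) (hBND : SpecBND) (hGCT : SpecGCT) {N : ℕ}
    (α : Fin N → Lk a b) (hK : IsLF w) (ha : w a ≤ 1) (hb : w b ≤ 1) (hd : dsc a b ≠ 0)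
    (hα : ∀ i, InV (α i)) (hne : ∀ i j, i ≠ j → ¬ IsSquare (α i * α j)) {ρ : ℕ} (t : Fin ρ → K)
    (ht : ∀ i, t i ^ 3 + a * t i + b = 0)
    (hrest : ∀ u : Lk a b, Algebra.norm K u = 1 → (∀ i, w (ev (RingHom.id K) (t i) u) = 1) →
      ∀ t' : K, t' ^ 3 + a * t' + b = 0 → w (ev (RingHom.id K) t' u) = 1) :
    N ≤ 2 ^ ρ * (two w ^ 2 * (1 + Nat.card {t : K // t ^ 3 + a * t + b = 0})) := by
  classical
  -- `w 2`
  obtain ⟨e, he⟩ : ∃ e : ℕ, w (2 : K) = WithZero.exp (-(e : ℤ)) := by
    have h0 : w (2 : K) ≠ 0 := by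
      rw [Valuation.ne_zero_iff]; norm_num
    have h1 := w2 (w := w)
    obtain ⟨l, hl⟩ : ∃ l : ℤ, w (2 : K) = WithZero.exp l := ⟨_, (WithZero.exp_log h0).symm⟩
    rw [hl, ← WithZero.exp_zero, WithZero.exp_le_exp] at h1
    refine ⟨(-l).toNat, ?_⟩
    rw [hl]
    congr 1
    omega
  -- the elements of norm 1
  have hg : ∀ i, ∃ (x : AA a b) (γ : Lk a b), IsUnit γ ∧ vl x = α i * γ ^ 2 := by
    intro i
    obtain ⟨hαu, r, hr⟩ := hα i
    have hr0 : r ≠ 0 := by
      rintro rfl
      rw [mul_zero] at hr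
      exact ((hNRM.unt _).1 hαu).ne_zero hr
    obtain ⟨u, hu⟩ := hαu
    have hofi : AdjoinRoot.of (fpol a b) r * AdjoinRoot.of (fpol a b) r⁻¹ = 1 := by
      rw [← map_mul, mul_inv_cancel₀ hr0, map_one]
    have huu : (u : Lk a b) * ((u⁻¹ : (Lk a b)ˣ) : Lk a b) = 1 := u.mul_inv
    obtain ⟨x, hx⟩ := exists_vl (a := a) (b := b)
      (u := (u : Lk a b) ^ 3 * AdjoinRoot.of (fpol a b) r⁻¹ ^ 2)
      (u' := ((u⁻¹ : (Lk a b)ˣ) : Lk a b) ^ 3 * AdjoinRoot.of (fpol a b) r ^ 2) (by
        calc (u : Lk a b) ^ 3 * AdjoinRoot.of (fpol a b) r⁻¹ ^ 2 *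
            (((u⁻¹ : (Lk a b)ˣ) : Lk a b) ^ 3 * AdjoinRoot.of (fpol a b) r ^ 2)
            = ((u : Lk a b) * ((u⁻¹ : (Lk a b)ˣ) : Lk a b)) ^ 3 *
              (AdjoinRoot.of (fpol a b) r * AdjoinRoot.of (fpol a b) r⁻¹) ^ 2 := by ring
          _ = 1 := by rw [huu, hofi]; ring)
      (by
        rw [map_mul, map_pow, map_pow, hu, hr, hNRM.sc]
        field_simp)
    refine ⟨x, (u : Lk a b) * AdjoinRoot.of (fpol a b) r⁻¹, ?_, ?_⟩
    · refine u.isUnit.mul ?_
      exact IsUnit.of_mul_eq_one (AdjoinRoot.of (fpol a b) r) (by rw [mul_comm]; exact hofi)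
    · rw [hx, ← hu]; ring
  choose g γ hγ hgv using hg
  have hgne : ∀ i j, i ≠ j → ∀ x : AA a b, g i - g j ≠ (2 : ℕ) • x := by
    intro i j hij x hx
    refine hne i j hij ?_
    have h1 : g i = g j + (2 : ℕ) • x := by rw [← hx]; abel
    have h2 : vl (g i) = vl (g j) * vl x ^ 2 := by rw [h1, vl_add, vl_two]
    have h3 : vl (g i) * vl (g j) = (vl (g j) * vl x) ^ 2 := by rw [h2]; ring
    rw [hgv i, hgv j] at h3
    obtain ⟨u, hu⟩ := (hγ i).mul (hγ j)
    refine ⟨α j * γ j ^ 2 * vl x * ((u⁻¹ : (Lk a b)ˣ) : Lk a b), ?_⟩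
    have h4 : α i * α j * (γ i * γ j) ^ 2 = (α j * γ j ^ 2 * vl x) ^ 2 := by
      rw [← h3]; ring
    rw [← hu] at h4
    have h5 : ((u : Lk a b)) * ((u⁻¹ : (Lk a b)ˣ) : Lk a b) = 1 := by
      rw [← Units.val_mul, mul_inv_cancel, Units.val_one]
    calc α i * α j = α i * α j * ((u : Lk a b)) ^ 2 * ((u⁻¹ : (Lk a b)ˣ) : Lk a b) ^ 2 := by
          rw [mul_assoc, ← mul_pow, h5]; ring
      _ = _ := by rw [h4]; ring
  -- boundedness
  obtain ⟨C, hC⟩ := hBND K w a b hK ha hb hd
  have hC' : ∀ x : AA a b, x ∈ (nu w hEVA t ht).ker → Sz w (WithZero.exp (C : ℤ)) (vl x) := by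
    intro x hx
    rw [mem_ker] at hx
    exact hC (vl x) (by rw [vl_norm, map_one]) (hrest (vl x) (vl_norm x) hx)
  obtain ⟨B, hB⟩ : ∃ B, B = Bk hCOO ha hb (WithZero.exp (-((e + 1 : ℕ) : ℤ))) := ⟨_, rfl⟩
  have hidx := index hCOO hNRM hLFB hEVA hK ha hb t ht C hC' (e + 1)
  obtain ⟨s, hs⟩ := cosets (hCOO := hCOO) (ha := ha) (hb := hb) hLFB hHNA hNRM hK he
  rw [← hB] at hidx hs
  obtain ⟨n, T, hT1, hT2, hn⟩ := hGCT (AA a b) ρ (two w ^ 2) N (nu w hEVA t ht)
    (B.map (inc hCOO ha hb)) (fun i => inc hCOO ha hb (s i)) g (by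
      intro x hx
      rw [AddSubgroup.mem_map] at hx
      obtain ⟨y, -, rfl⟩ := hx
      rw [mem_ker]
      intro i
      rw [vl_inc]
      exact val_unit hEVA (ht i) y) hidx (by
      intro x hx
      rw [AddSubgroup.mem_map] at hx
      obtain ⟨y, hy, rfl⟩ := hx
      obtain ⟨i, z, hz, e⟩ := hs y hy
      refine ⟨i, inc hCOO ha hb z, AddSubgroup.mem_map_of_mem _ hz, ?_⟩
      rw [e, map_add, map_nsmul]) hgne
  -- discard 1
  obtain ⟨S, hS⟩ : ∃ S : Finset (Lk a b), S = (Finset.univ.image fun i => vl (T i)).erase 1 :=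
    ⟨_, rfl⟩
  have hcard : n ≤ S.card + 1 := by
    have h1 : (Finset.univ.image fun i => vl (T i)).card = n := by
      rw [Finset.card_image_of_injective _ fun i j h => hT1 (vl_inj h), Finset.card_univ,
        Fintype.card_fin]
    have h2 := Finset.pred_card_le_card_erase (s := Finset.univ.image fun i => vl (T i))
      (a := (1 : Lk a b))
    rw [h1, ← hS] at h2
    omega
  have hmem : ∀ t ∈ S, t ^ 2 = 1 ∧ Algebra.norm K t = 1 ∧ t ≠ 1 := by
    intro t ht
    rw [hS, Finset.mem_erase, Finset.mem_image] at ht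
    obtain ⟨h1, j, -, hj⟩ := ht
    exact ⟨by rw [← hj, ← vl_two, hT2, vl_zero], by rw [← hj, vl_norm], h1⟩
  obtain ⟨t', ht', ht''⟩ := hTWT K a b hd S.card (fun i => (S.equivFin.symm i : Lk a b))
    (fun i j h => S.equivFin.symm.injective (Subtype.ext h)) (fun i => hmem _ (S.equivFin.symm i).2)
  have hfin : Finite {t : K // t ^ 3 + a * t + b = 0} := (roots_finite a b).to_subtype
  have hr : S.card ≤ Nat.card {t : K // t ^ 3 + a * t + b = 0} := by
    have := Nat.card_le_card_of_injective (fun i : Fin S.card =>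
      (⟨t' i, ht'' i⟩ : {t : K // t ^ 3 + a * t + b = 0})) (fun i j h => ht' (Subtype.ext_iff.1 h))
    rwa [Nat.card_fin] at this
  refine hn.trans (Nat.mul_le_mul_left _ (Nat.mul_le_mul_left _ ?_))
  omega

end VCTM

open VCTM in
theorem specVCT (hCOO : SpecCOO) (hNRM : SpecNRM) (hLFB : SpecLFB) (hEVA : SpecEVA)
    (hHNA : SpecHNA) (hTWT : SpecTWT) (hBND : SpecBND) (hGCT : SpecGCT) : SpecVCT := by
  classical
  intro K _ _ w a b N α hK ha hb hd hα hne
  have hfin : Finite {t : K // t ^ 3 + a * t + b = 0} := (roots_finite a b).to_subtype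
  have main := fun {ρ : ℕ} (t : Fin ρ → K) ht hrest => count hCOO hNRM hLFB hEVA hHNA hTWT hBND hGCT α
    hK ha hb hd hα hne t ht hrest
  by_cases h0 : ∃ t : K, t ^ 3 + a * t + b = 0
  · obtain ⟨t, ht⟩ := h0
    by_cases h1 : ∃ t' : K, t' ^ 3 + a * t' + b = 0 ∧ t' ≠ t
    · -- three roots
      obtain ⟨t', ht', hne'⟩ := h1
      have e1 : t ^ 2 + t * t' + t' ^ 2 + a = 0 := by
        have h2 : (t - t') * (t ^ 2 + t * t' + t' ^ 2 + a) = 0 := by linear_combination ht - ht'
        exact (mul_eq_zero.1 h2).resolve_left (sub_ne_zero.2 (Ne.symm hne'))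
      have ht3 : (-t - t') ^ 3 + a * (-t - t') + b = 0 := by
        linear_combination ht + (-2 * t - t') * e1
      have d2 : -t - t' ≠ t := by
        intro h
        apply hd
        have h2 : t' = -2 * t := by linear_combination -h
        rw [h2] at e1
        have h3 : a = -3 * t ^ 2 := by linear_combination e1
        have h4 : b = 2 * t ^ 3 := by
          rw [h3] at ht
          linear_combination ht
        unfold dsc
        rw [h3, h4]
        ring
      have d3 : -t - t' ≠ t' := by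
        intro h
        apply hd
        have h2 : t = -2 * t' := by linear_combination -h
        rw [h2] at e1
        have h3 : a = -3 * t' ^ 2 := by linear_combination e1
        have h4 : b = 2 * t' ^ 3 := by
          rw [h3] at ht'
          linear_combination ht'
        unfold dsc
        rw [h3, h4]
        ring
      have hall : ∀ s : K, s ^ 3 + a * s + b = 0 → s = t ∨ s = t' ∨ s = -t - t' := by
        intro s hs
        have h2 : (s - t) * ((s - t') * (s - (-t - t'))) = 0 := by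
          linear_combination hs - ht - (s - t) * e1
        rcases mul_eq_zero.1 h2 with h | h
        · exact Or.inl (sub_eq_zero.1 h)
        · rcases mul_eq_zero.1 h with h | h
          · exact Or.inr (Or.inl (sub_eq_zero.1 h))
          · exact Or.inr (Or.inr (sub_eq_zero.1 h))
      have hr : 3 ≤ Nat.card {t : K // t ^ 3 + a * t + b = 0} := by
        have h3 := Nat.card_le_card_of_injective (fun i : Fin 3 =>
          (⟨![t, t', -t - t'] i, by fin_cases i; exacts [ht, ht', ht3]⟩ :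
            {t : K // t ^ 3 + a * t + b = 0})) (by
          intro i j hij
          have h4 : ![t, t', -t - t'] i = ![t, t', -t - t'] j := Subtype.ext_iff.1 hij
          fin_cases i <;> fin_cases j <;> first
            | rfl
            | exact absurd h4 hne'.symm
            | exact absurd h4 hne'
            | exact absurd h4 d2
            | exact absurd h4 d2.symm
            | exact absurd h4 d3
            | exact absurd h4 d3.symm)
        rwa [Nat.card_fin] at h3
      have h2 := main ![t, t'] (by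
        intro i
        fin_cases i
        · exact ht
        · exact ht') (by
        intro u hu hi s hs
        have i0 : w (ev (RingHom.id K) t u) = 1 := hi 0
        have i1 : w (ev (RingHom.id K) t' u) = 1 := hi 1
        rcases hall s hs with rfl | rfl | rfl
        · exact i0
        · exact i1
        · have h3 := hNRM.rts (RingHom.id K) ![t, t', -t - t'] u (by
            change t + t' + (-t - t') = 0
            ring) (by
            change t * t' + t * (-t - t') + t' * (-t - t') = a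
            linear_combination -e1) (by
            change t * t' * (-t - t') = -b
            linear_combination ht - t * e1)
          change Algebra.norm K u = ev (RingHom.id K) t u * ev (RingHom.id K) t' u *
            ev (RingHom.id K) (-t - t') u at h3
          have h4 := congrArg w h3
          rw [hu, map_one, map_mul, map_mul, i0, i1, one_mul, one_mul] at h4
          exact h4.symm)
      refine h2.trans ?_
      obtain ⟨r, hr'⟩ : ∃ r, r = Nat.card {t : K // t ^ 3 + a * t + b = 0} := ⟨_, rfl⟩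
      rw [← hr'] at hr ⊢
      have h5 : (two w * (1 + r)) ^ 2 = (1 + r) * (two w ^ 2 * (1 + r)) := by ring
      rw [h5]
      exact Nat.mul_le_mul_right _ (by omega)
    · -- one root
      push Not at h1
      have hr : 1 ≤ Nat.card {t : K // t ^ 3 + a * t + b = 0} := by
        have h3 := Nat.card_le_card_of_injective (fun _ : Fin 1 =>
          (⟨t, ht⟩ : {t : K // t ^ 3 + a * t + b = 0})) (fun i j _ => Subsingleton.elim i j)
        rwa [Nat.card_fin] at h3
      have h2 := main ![t] (by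
        intro i
        fin_cases i
        exact ht) (by
        intro u hu hi s hs
        have := h1 s hs
        subst this
        exact hi 0)
      refine h2.trans ?_
      obtain ⟨r, hr'⟩ : ∃ r, r = Nat.card {t : K // t ^ 3 + a * t + b = 0} := ⟨_, rfl⟩
      rw [← hr'] at hr ⊢
      have h5 : (two w * (1 + r)) ^ 2 = (1 + r) * (two w ^ 2 * (1 + r)) := by ring
      rw [h5]
      exact Nat.mul_le_mul_right _ (by omega)
  · -- no root
    push Not at h0
    have h2 := main ![] (fun i => i.elim0) (fun u hu _ s hs => absurd hs (h0 s))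
    refine h2.trans ?_
    obtain ⟨r, hr'⟩ : ∃ r, r = Nat.card {t : K // t ^ 3 + a * t + b = 0} := ⟨_, rfl⟩
    rw [← hr']
    have h5 : (two w * (1 + r)) ^ 2 = (1 + r) * (two w ^ 2 * (1 + r)) := by ring
    rw [h5]
    exact Nat.mul_le_mul_right _ (by omega)

end Pool.Agent.Lib.MP_8cb858_nt.PF
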